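import Pool.Agent.H.MP_1b807b_an.C.DefsB

/-! MP_1b807b_an, convex planar domains, module Cases: combining cases -/

set_option autoImplicit false

namespace Pool.Agent.RC

open MeasureTheory Metric Set
open Pool.Agent.RG
open scoped RealInnerProductSpace

/-- the constants of a test pair can be weakened -/
theorem IsTest.weaken {B : Body} {k β C C' d c₀ c₀' ε : ℝ} {V : E 2 → ℝ} {Z : E 2 → E 2}
    {f M : ℝ → ℝ} (h : IsTest B k β C d c₀ ε V Z f M) (hC : C ≤ C') (hc : c₀' ≤ c₀) :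
    IsTest B k β C' d c₀' ε V Z f M where
  V1 := h.V1
  Z1 := h.Z1
  VZ := h.VZ
  bV x hx := (h.bV x hx).trans hC
  bV' x hx := (h.bV' x hx).trans hC
  bZ x hx := (h.bZ x hx).trans hC
  f1 := h.f1
  f0 := h.f0
  fl s t := (h.fl s t).trans (mul_le_mul_of_nonneg_right hC (abs_nonneg _))
  Mm := h.Mm
  M0 t := ⟨(h.M0 t).1, (h.M0 t).2.trans hC⟩
  slope := h.slope
  energy := h.energy
  low := hc.trans h.low

theorem CaseOK.or {P Q : ℝ → Body → Prop} (hP : CaseOK P) (hQ : CaseOK Q) :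
    CaseOK fun k B => P k B ∨ Q k B := by
  intro K₀ hK d hd
  obtain ⟨C, c, hC, hc, h⟩ := hP K₀ hK d hd
  obtain ⟨C', c', hC', hc', h'⟩ := hQ K₀ hK d hd
  refine ⟨max C C', min c c', le_max_of_le_left hC, lt_min hc hc', ?_⟩
  intro k B hk hkK hPQ hA h0 hB ε hε
  rcases hPQ with hp | hq
  · obtain ⟨V, Z, f, M, ht⟩ := h k B hk hkK hp hA h0 hB ε hε
    exact ⟨V, Z, f, M, ht.weaken (le_max_left _ _) (min_le_left _ _)⟩
  · obtain ⟨V, Z, f, M, ht⟩ := h' k B hk hkK hq hA h0 hB ε hε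
    exact ⟨V, Z, f, M, ht.weaken (le_max_right _ _) (min_le_right _ _)⟩

theorem CaseOK.mono {P Q : ℝ → Body → Prop} (hP : CaseOK P)
    (h : ∀ (k : ℝ) (B : Body), 0 < k → B.area = Real.pi → (∀ θ, 0 < B.h θ) → Q k B → P k B) :
    CaseOK Q := by
  intro K₀ hK d hd
  obtain ⟨C, c, hC, hc, h'⟩ := hP K₀ hK d hd
  exact ⟨C, c, hC, hc, fun k B hk hkK hq hA h0 hB ε hε =>
    h' k B hk hkK (h k B hk hA h0 hq) hA h0 hB ε hε⟩

end Pool.Agent.RC
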