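import Pool.Agent.H.MP_1b807b_an.C.DefsC

/-! MP_1b807b_an, convex planar domains, module CertF: the certificate for `7/5 ≤ l ≤ 48/25` -/

set_option autoImplicit false

namespace Pool.Agent.RC

private lemma abs_le_F {l r : ℝ} (h1 : 7 / 5 ≤ l) (h2 : l ≤ 48 / 25)
    (hr : r ^ 2 ≤ 2 * (l ^ 2 - 1)) : -(29 / 12) ≤ r ∧ r ≤ 29 / 12 := by
  have : r ^ 2 ≤ (29 / 12 : ℝ) ^ 2 := by nlinarith
  exact abs_le.1 (abs_le_of_sq_le_sq this (by norm_num))

theorem cert_F {l : ℝ} (h1 : 7 / 5 ≤ l) (h2 : l ≤ 48 / 25) :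
    CertE (2.22 - 0.18 / (l - 1)) 0.045 l 0.32 0.022 0.705 0.256 := by
  have hl : 0 < l + 1 := by linarith
  have hl' : 0 < l - 1 := by linarith
  have hd : (0.18 : ℝ) / (l - 1) * (l - 1) = 0.18 := by field_simp
  set q : ℝ := 0.18 / (l - 1) with hq
  have hq0 : 0 < q := by positivity
  refine ⟨by norm_num, by norm_num, by nlinarith, ?_, ?_⟩
  · intro r hr
    obtain ⟨ha, hb⟩ := abs_le_F h1 h2 hr
    have key : 0.045 + 0.32 * l + 0.022 * (2 * (l ^ 2 - 1)) + 0.497025 + 0.0024 ≤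
        (2.22 - q + 2 * (l - 1)) / (l + 1) := by
      rw [le_div_iff₀ hl]
      have h : 0 ≤ (l - 1) * ((2.22 - q + 2 * (l - 1)) -
          (0.045 + 0.32 * l + 0.022 * (2 * (l ^ 2 - 1)) + 0.497025 + 0.0024) * (l + 1)) := by
        have e : (l - 1) * ((2.22 - q + 2 * (l - 1)) -
          (0.045 + 0.32 * l + 0.022 * (2 * (l ^ 2 - 1)) + 0.497025 + 0.0024) * (l + 1)) =
          (l - 1) * ((2.22 + 2 * (l - 1)) -
          (0.045 + 0.32 * l + 0.022 * (2 * (l ^ 2 - 1)) + 0.497025 + 0.0024) * (l + 1)) - 0.18 := by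
          linear_combination (-1 : ℝ) * hd
        rw [e]
        nlinarith [mul_nonneg (sub_nonneg.2 h1) (sub_nonneg.2 h2),
          mul_nonneg (mul_nonneg (sub_nonneg.2 h1) (sub_nonneg.2 h2)) hl.le,
          mul_nonneg (mul_nonneg (mul_nonneg (sub_nonneg.2 h1) (sub_nonneg.2 h2)) hl.le) hl.le]
      have := (mul_nonneg_iff_of_pos_left hl').1 h
      linarith
    nlinarith [sq_nonneg r]
  · intro r hr
    obtain ⟨ha, hb⟩ := abs_le_F h1 h2 hr
    have key : (2.22 - q + 6 * (l - 1) + 2 * (l - 1) ^ 2) / (l + 1) ≤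
        2 * 0.32 * l + 1.9881 - 0.0275 := by
      rw [div_le_iff₀ hl]
      have hq2 : 0.18 / 0.92 ≤ q := by
        rw [hq]
        gcongr
        linarith
      nlinarith [mul_nonneg (sub_nonneg.2 h1) (sub_nonneg.2 h2)]
    nlinarith [mul_nonneg (sub_nonneg.2 h1) (sub_nonneg.2 ha),
      mul_nonneg (sub_nonneg.2 h1) (sub_nonneg.2 hb),
      mul_nonneg (sub_nonneg.2 h2) (sub_nonneg.2 ha),
      mul_nonneg (sub_nonneg.2 h2) (sub_nonneg.2 hb)]

end Pool.Agent.RC
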