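import Pool.Agent.H.MP_1b807b_an.C.SpBody

/-! MP_1b807b_an, convex planar domains, module Far: a body of area `π` has points at distance `1`
from every point, and at most one point of depth `1` -/

set_option autoImplicit false

namespace Pool.Agent.RC

open MeasureTheory Metric Set
open Pool.Agent.RG
open scoped RealInnerProductSpace ENNReal

namespace Body
variable (B : Body)

theorem exists_far (hA : Real.pi ≤ B.area) (x : E 2) : ∃ θ, 1 ≤ ‖x - B.y θ‖ := by
  by_contra hcon
  push Not at hcon
  have hpi : (0 : ℝ) < 2 * Real.pi := by positivity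
  have h1 : ∀ θ, (B.shift x).h θ ^ 2 + (B.shift x).p θ ^ 2 < 1 := by
    intro θ
    rw [← norm_y_sq, shift_y, norm_sub_rev]
    have h2 := hcon θ
    have h3 := norm_nonneg (x - B.y θ)
    nlinarith
  have h2 : B.area < Real.pi := by
    rw [← B.shift_area x, area_eq]
    have h3 : ∫ θ in (0 : ℝ)..2 * Real.pi, ((B.shift x).h θ ^ 2 - (B.shift x).p θ ^ 2) <
        ∫ θ in (0 : ℝ)..2 * Real.pi, (1 : ℝ) := by
      apply intervalIntegral.integral_lt_integral_of_continuousOn_of_le_of_exists_lt hpi
      · exact (((B.shift x).continuous_h.pow 2).sub ((B.shift x).continuous_p.pow 2)).continuousOn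
      · exact continuousOn_const
      · intro θ _
        have := h1 θ
        have := sq_nonneg ((B.shift x).p θ)
        linarith
      · refine ⟨0, ⟨le_rfl, hpi.le⟩, ?_⟩
        have := h1 0
        have := sq_nonneg ((B.shift x).p 0)
        linarith
    rw [intervalIntegral.integral_const, sub_zero, smul_eq_mul, mul_one] at h3
    linarith
  linarith

theorem far_depth_le (x : E 2) (θ : ℝ) : B.depth x ≤ B.h θ - sp x θ := by
  apply csInf_le
  · have hc : Continuous fun θ => B.h θ - sp x θ :=
      B.continuous_h.sub (continuous_sp.comp (continuous_const.prodMk continuous_id))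
    have hp : Function.Periodic (fun θ => B.h θ - sp x θ) (2 * Real.pi) := by
      intro θ
      simp only [per_h, sp_two_pi]
    exact (hp.compact_of_continuous (by positivity) hc).bddBelow
  · exact ⟨θ, rfl⟩

theorem deep_eq (hA : B.area = Real.pi) {x : E 2} (hx : 1 ≤ B.depth x) {θ : ℝ}
    (hθ : θ ∈ Icc (0 : ℝ) (2 * Real.pi)) : B.h θ - sp x θ = 1 := by
  have hpi : (0 : ℝ) < 2 * Real.pi := by positivity
  have h1 : ∀ θ, 1 ≤ (B.shift x).h θ := fun θ => hx.trans (B.far_depth_le x θ)
  by_contra hne
  have h2 : 1 < (B.shift x).h θ := lt_of_le_of_ne (h1 θ) (fun h => hne h.symm)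
  have h3 : ∫ θ in (0 : ℝ)..2 * Real.pi, (1 : ℝ) <
      ∫ θ in (0 : ℝ)..2 * Real.pi, (B.shift x).h θ := by
    apply intervalIntegral.integral_lt_integral_of_continuousOn_of_le_of_exists_lt hpi
    · exact continuousOn_const
    · exact (B.shift x).continuous_h.continuousOn
    · exact fun θ _ => h1 θ
    · exact ⟨θ, hθ, h2⟩
  have h4 : ∫ θ in (0 : ℝ)..2 * Real.pi, (B.shift x).ρ θ ≤
      ∫ θ in (0 : ℝ)..2 * Real.pi, (B.shift x).h θ * (B.shift x).ρ θ := by
    apply intervalIntegral.integral_mono_on hpi.le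
    · exact (B.shift x).continuous_ρ.intervalIntegrable _ _
    · exact ((B.shift x).continuous_h.mul (B.shift x).continuous_ρ).intervalIntegrable _ _
    · intro θ _
      have := (B.shift x).ρ_pos θ
      have := h1 θ
      nlinarith
  have h5 : (B.shift x).len = ∫ θ in (0 : ℝ)..2 * Real.pi, (B.shift x).ρ θ := len_eq _
  have h6 : (B.shift x).len = ∫ θ in (0 : ℝ)..2 * Real.pi, (B.shift x).h θ := rfl
  have h7 : (B.shift x).area = (1 / 2) *
    ∫ θ in (0 : ℝ)..2 * Real.pi, (B.shift x).h θ * (B.shift x).ρ θ := rfl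
  rw [B.shift_area x, hA] at h7
  rw [intervalIntegral.integral_const, sub_zero, smul_eq_mul, mul_one] at h3
  linarith

theorem deep_null (hA : B.area = Real.pi) : volume {x : E 2 | 1 ≤ B.depth x} = 0 := by
  apply Set.Subsingleton.measure_zero
  intro x hx x' hx'
  have hpi := Real.pi_pos
  have h0 : (0 : ℝ) ∈ Icc (0 : ℝ) (2 * Real.pi) := ⟨le_rfl, by positivity⟩
  have h1 : Real.pi / 2 ∈ Icc (0 : ℝ) (2 * Real.pi) := ⟨by positivity, by linarith⟩
  have e0 := B.deep_eq hA hx h0
  have e0' := B.deep_eq hA hx' h0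
  have e1 := B.deep_eq hA hx h1
  have e1' := B.deep_eq hA hx' h1
  simp only [sp, Real.cos_zero, Real.sin_zero, Real.cos_pi_div_two, Real.sin_pi_div_two, mul_one,
    mul_zero, add_zero, zero_add] at e0 e0' e1 e1'
  exact ext2 (by linarith) (by linarith)

end Body
end Pool.Agent.RC
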