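import Pool.Agent.H.MP_1b807b_an.C.Depth

/-! MP_1b807b_an, convex planar domains, module Gauge: polar coordinates with respect to the
boundary of a body, and the divergence theorem for one-dimensional functions -/

set_option autoImplicit false

namespace Pool.Agent.RC

open MeasureTheory Metric Set
open Pool.Agent.RG
open scoped RealInnerProductSpace ENNReal

/-- the coordinates as a measurable equivalence onto the product -/
noncomputable def toP : E 2 ≃ᵐ ℝ × ℝ :=
  (MeasurableEquiv.toLp 2 (Fin 2 → ℝ)).symm.trans MeasurableEquiv.finTwoArrow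

theorem toP_apply (x : E 2) : toP x = (x 0, x 1) := rfl

theorem toP_mp : MeasurePreserving toP volume volume :=
  (volume_preserving_finTwoArrow ℝ).comp (PiLp.volume_preserving_ofLp (Fin 2))

theorem toP_symm_apply (z : ℝ × ℝ) : toP.symm z = !₂[z.1, z.2] := by
  rw [MeasurableEquiv.symm_apply_eq]
  rfl

/-- transfer of set integrals to the product -/
theorem setIntegral_toP (s : Set (E 2)) (F : E 2 → ℝ) :
    ∫ x in s, F x = ∫ z in toP.symm ⁻¹' s, F (toP.symm z) := by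
  have h := toP_mp.setIntegral_preimage_emb toP.measurableEmbedding (fun z => F (toP.symm z))
    (toP.symm ⁻¹' s)
  simp only [MeasurableEquiv.symm_apply_apply] at h
  rw [← h]
  congr 2
  ext x
  simp

theorem sp_rotate (x : E 2) (θ θ₀ : ℝ) :
    sp x θ = sp x θ₀ * Real.cos (θ - θ₀) + sp x (θ₀ + Real.pi / 2) * Real.sin (θ - θ₀) := by
  conv_lhs => rw [decomp x θ₀]
  rw [sp_add, sp_smul, sp_smul, sp_ev, sp_ev']
  rw [show θ - θ₀ = -(θ₀ - θ) by ring, Real.cos_neg, Real.sin_neg]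

namespace Body
variable (B : Body)

/-- the gauge map in coordinates -/
noncomputable def gmap (z : ℝ × ℝ) : ℝ × ℝ := (z.2 * (B.y z.1) 0, z.2 * (B.y z.1) 1)

/-- its derivative -/
noncomputable def gder (z : ℝ × ℝ) : ℝ × ℝ →L[ℝ] ℝ × ℝ :=
  (Matrix.toLin (.finTwoProd ℝ) (.finTwoProd ℝ)
    !![z.2 * (-(B.ρ z.1 * Real.sin z.1)), (B.y z.1) 0;
       z.2 * (B.ρ z.1 * Real.cos z.1), (B.y z.1) 1]).toContinuousLinearMap

theorem hasDerivAt_y0 (θ : ℝ) : HasDerivAt (fun θ => (B.y θ) 0) (-(B.ρ θ * Real.sin θ)) θ := by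
  refine (hasDerivAt_coord (B.hasDerivAt_y θ) 0).congr_deriv ?_
  simp only [PiLp.smul_apply, smul_eq_mul, ev'_zero']
  ring

theorem hasDerivAt_y1 (θ : ℝ) : HasDerivAt (fun θ => (B.y θ) 1) (B.ρ θ * Real.cos θ) θ := by
  refine (hasDerivAt_coord (B.hasDerivAt_y θ) 1).congr_deriv ?_
  simp only [PiLp.smul_apply, smul_eq_mul, ev'_one']

theorem hasFDerivAt_gmap (z : ℝ × ℝ) : HasFDerivAt B.gmap (B.gder z) z := by
  unfold gder
  rw [Matrix.toLin_finTwoProd_toContinuousLinearMap]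
  convert!
    HasFDerivAt.prodMk (𝕜 := ℝ)
      (hasFDerivAt_snd.mul ((B.hasDerivAt_y0 z.1).comp_hasFDerivAt z hasFDerivAt_fst))
      (hasFDerivAt_snd.mul ((B.hasDerivAt_y1 z.1).comp_hasFDerivAt z hasFDerivAt_fst)) using
    2 <;>
  simp [smul_smul, smul_neg]
  ext <;> simp

theorem det_gder (z : ℝ × ℝ) : (B.gder z).det = -(z.2 * (B.h z.1 * B.ρ z.1)) := by
  unfold gder
  simp only [LinearMap.det_toContinuousLinearMap, LinearMap.det_toLin,
    Matrix.det_fin_two_of]
  have h := B.sp_y z.1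
  rw [sp] at h
  rw [← h]
  ring

/-- the parameter rectangle -/
def Rect : Set (ℝ × ℝ) := Ioc 0 (2 * Real.pi) ×ˢ Ioc 0 1

theorem eq_of_y_eq {θ θ' : ℝ} (h : θ ∈ Ioc (0 : ℝ) (2 * Real.pi))
    (h' : θ' ∈ Ioc (0 : ℝ) (2 * Real.pi)) (hy : B.y θ = B.y θ') : θ = θ' := by
  have h1 : Real.cos (θ - θ') = 1 := by
    by_contra hc
    have h2 := B.sp_y_lt hc
    rw [← hy, B.sp_y] at h2
    exact lt_irrefl _ h2
  obtain ⟨n, hn⟩ := (Real.cos_eq_one_iff _).1 h1
  have hp := Real.pi_pos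
  have hn1 : (n : ℝ) < 1 := by
    by_contra hc
    push Not at hc
    have := h.2
    have := h'.1
    nlinarith
  have hn2 : (-1 : ℝ) < n := by
    by_contra hc
    push Not at hc
    have := h'.2
    have := h.1
    nlinarith
  have hn3 : n < 1 := by exact_mod_cast hn1
  have hn4 : -1 < n := by exact_mod_cast hn2
  have hn5 : n = 0 := by omega
  rw [hn5] at hn
  simp only [Int.cast_zero, zero_mul] at hn
  linarith

theorem aux_inj (h0 : ∀ θ, 0 < B.h θ) {θ θ' r r' : ℝ} (hr : 0 < r) (hr' : 0 < r') (hle : r' ≤ r)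
    (h : θ ∈ Ioc (0 : ℝ) (2 * Real.pi)) (h' : θ' ∈ Ioc (0 : ℝ) (2 * Real.pi))
    (hy : r • B.y θ = r' • B.y θ') : θ = θ' ∧ r = r' := by
  have e := congrArg (fun v => sp v θ) hy
  simp only [sp_smul, B.sp_y] at e
  have h1 := B.sp_y_le θ' θ
  have h2 := h0 θ
  have h3 : r * B.h θ ≤ r' * B.h θ := by
    rw [e]
    exact mul_le_mul_of_nonneg_left h1 hr'.le
  have h4 : r ≤ r' := le_of_mul_le_mul_right h3 h2
  have h5 : r = r' := le_antisymm h4 hle
  subst h5
  have h6 : B.y θ = B.y θ' := smul_right_injective _ hr.ne' hy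
  exact ⟨B.eq_of_y_eq h h' h6, rfl⟩

theorem gmap_eq (z : ℝ × ℝ) : B.gmap z = toP (z.2 • B.y z.1) := rfl

theorem injOn_gmap (h0 : ∀ θ, 0 < B.h θ) : InjOn B.gmap Rect := by
  rintro ⟨θ, r⟩ ⟨h1, h2⟩ ⟨θ', r'⟩ ⟨h1', h2'⟩ e
  rw [gmap_eq, gmap_eq] at e
  have e' := toP.injective e
  simp only at e' h1 h2 h1' h2'
  rcases le_total r' r with hle | hle
  · obtain ⟨a, b⟩ := B.aux_inj h0 h2.1 h2'.1 hle h1 h1' e'
    rw [a, b]
  · obtain ⟨a, b⟩ := B.aux_inj h0 h2'.1 h2.1 hle h1' h1 e'.symm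
    rw [a, b]

theorem exists_scale_boundary {x : E 2} (hx : x ∈ B.K) (hne : x ≠ 0) :
    ∃ c : ℝ, 1 ≤ c ∧ B.depth (c • x) = 0 := by
  have hx0 : 0 ≤ B.depth x := hx
  -- a direction in which `x` has positive component
  obtain ⟨θ, hθ⟩ : ∃ θ, 0 < sp x θ := by
    by_contra hc
    push Not at hc
    have hz : ∀ θ, sp x θ = 0 := by
      intro θ
      have h1 := hc θ
      have h2 := hc (θ + Real.pi)
      rw [sp_pi] at h2
      linarith
    apply hne
    have h1 := norm_sq_eq x 0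
    rw [hz, hz] at h1
    have h2 : ‖x‖ ^ 2 = 0 := by rw [h1]; ring
    exact norm_eq_zero.1 (pow_eq_zero_iff (two_ne_zero) |>.1 h2)
  set C : ℝ := max 1 (B.h θ / sp x θ) with hC
  have hC1 : 1 ≤ C := le_max_left _ _
  have hCθ : B.depth (C • x) ≤ 0 := by
    refine (B.depth_le (C • x) θ).trans ?_
    rw [sp_smul]
    have h1 : B.h θ / sp x θ ≤ C := le_max_right _ _
    have h2 : B.h θ ≤ C * sp x θ := (div_le_iff₀ hθ).1 h1
    linarith
  have hcont : ContinuousOn (fun c : ℝ => B.depth (c • x)) (Icc 1 C) :=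
    (B.continuous_depth.comp (continuous_id.smul continuous_const)).continuousOn
  have h1 : (0 : ℝ) ∈ Icc (B.depth (C • x)) (B.depth ((1 : ℝ) • x)) := by
    refine ⟨hCθ, ?_⟩
    rw [one_smul]
    exact hx0
  obtain ⟨c, hc, hc0⟩ := intermediate_value_Icc' hC1 hcont h1
  exact ⟨c, hc.1, hc0⟩

theorem image_gmap (h0 : ∀ θ, 0 < B.h θ) :
    B.gmap '' Rect = (toP.symm ⁻¹' B.K) \ {(0, 0)} := by
  ext w
  constructor
  · rintro ⟨⟨θ, r⟩, ⟨h1, h2⟩, rfl⟩
    simp only at h1 h2
    refine ⟨?_, ?_⟩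
    · rw [mem_preimage, gmap_eq, MeasurableEquiv.symm_apply_apply, mem_K_iff]
      intro φ
      rw [sp_smul]
      have h3 := B.sp_y_le θ φ
      have h4 := h0 φ
      have h5 := h2.1
      have h6 := h2.2
      simp only
      calc r * sp (B.y θ) φ ≤ r * B.h φ := mul_le_mul_of_nonneg_left h3 h5.le
        _ ≤ 1 * B.h φ := mul_le_mul_of_nonneg_right h6 h4.le
        _ = B.h φ := one_mul _
    · intro hw
      rw [mem_singleton_iff, gmap_eq] at hw
      have h3 : toP (r • B.y θ) = toP (0 : E 2) := by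
        rw [hw]
        rfl
      have h4 := toP.injective h3
      have h5 := congrArg (fun v => sp v θ) h4
      simp only [sp_smul, B.sp_y, sp_zero] at h5
      have h6 := mul_pos h2.1 (h0 θ)
      linarith
  · rintro ⟨h1, h2⟩
    rw [mem_preimage] at h1
    set x : E 2 := toP.symm w with hx
    have hw : toP x = w := MeasurableEquiv.apply_symm_apply _ _
    have hne : x ≠ 0 := by
      intro hc
      apply h2
      rw [mem_singleton_iff, ← hw, hc]
      rfl
    obtain ⟨c, hc1, hc0⟩ := B.exists_scale_boundary h1 hne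
    obtain ⟨θ, hθ, -, hy⟩ := B.exists_foot (c • x)
    rw [hc0, zero_smul, add_zero] at hy
    have hcp : 0 < c := by linarith
    have key : ∀ θ', B.y θ' = c • x → (θ' ∈ Ioc (0 : ℝ) (2 * Real.pi)) →
        w ∈ B.gmap '' Rect := by
      intro θ' hy' hθ'
      refine ⟨(θ', c⁻¹), ⟨hθ', ⟨inv_pos.2 hcp, inv_le_one_of_one_le₀ hc1⟩⟩, ?_⟩
      rw [gmap_eq]
      simp only
      rw [hy', smul_smul, inv_mul_cancel₀ hcp.ne', one_smul, hw]
    rcases eq_or_lt_of_le hθ.1 with h3 | h3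
    · refine key (2 * Real.pi) ?_ ⟨by positivity, le_rfl⟩
      rw [← hy, ← h3]
      have := B.per_y 0
      rw [zero_add] at this
      exact this
    · exact key θ hy ⟨h3, hθ.2.le⟩

theorem measurableSet_Rect : MeasurableSet Rect := measurableSet_Ioc.prod measurableSet_Ioc

theorem gauge (h0 : ∀ θ, 0 < B.h θ) {F : E 2 → ℝ} (hF : Continuous F) :
    ∫ x in B.K, F x = ∫ θ in (0 : ℝ)..2 * Real.pi, ∫ r in (0 : ℝ)..1,
      F (r • B.y θ) * (r * (B.h θ * B.ρ θ)) := by
  have hp := Real.pi_pos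
  rw [setIntegral_toP]
  have e1 : ∫ z in toP.symm ⁻¹' B.K, F (toP.symm z) =
      ∫ z in B.gmap '' Rect, F (toP.symm z) := by
    rw [B.image_gmap h0]
    refine (setIntegral_congr_set ?_).symm
    exact sdiff_null_ae_eq_self (measure_singleton _)
  rw [e1, integral_image_eq_integral_abs_det_fderiv_smul volume measurableSet_Rect
    (fun z _ => (B.hasFDerivAt_gmap z).hasFDerivWithinAt) (B.injOn_gmap h0)]
  have e2 : ∫ z in Rect, |(B.gder z).det| • F (toP.symm (B.gmap z)) =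
      ∫ z in Rect, F (z.2 • B.y z.1) * (z.2 * (B.h z.1 * B.ρ z.1)) := by
    refine setIntegral_congr_fun measurableSet_Rect ?_
    rintro ⟨θ, r⟩ ⟨h1, h2⟩
    simp only at h1 h2 ⊢
    rw [B.det_gder, B.gmap_eq, MeasurableEquiv.symm_apply_apply, abs_neg, abs_of_pos]
    · simp only [smul_eq_mul]
      ring
    · exact mul_pos h2.1 (mul_pos (h0 θ) (B.ρ_pos θ))
  rw [e2]
  have hcont : Continuous fun z : ℝ × ℝ => F (z.2 • B.y z.1) * (z.2 * (B.h z.1 * B.ρ z.1)) := by
    have hh := B.continuous_h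
    have hρ := B.continuous_ρ
    have hy := B.continuous_y
    fun_prop
  have hint : IntegrableOn (fun z : ℝ × ℝ => F (z.2 • B.y z.1) * (z.2 * (B.h z.1 * B.ρ z.1)))
      Rect (volume.prod volume) := by
    refine (hcont.continuousOn.integrableOn_compact
      (isCompact_Icc.prod isCompact_Icc) : IntegrableOn _ (Icc (0 : ℝ) (2 * Real.pi) ×ˢ
        Icc (0 : ℝ) 1) (volume.prod volume)).mono_set ?_
    exact prod_mono Ioc_subset_Icc_self Ioc_subset_Icc_self
  rw [Rect, Measure.volume_eq_prod, setIntegral_prod _ hint,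
    intervalIntegral.integral_of_le (by positivity)]
  refine setIntegral_congr_fun measurableSet_Ioc (fun θ _ => ?_)
  simp only
  rw [intervalIntegral.integral_of_le zero_le_one]

theorem volume_K (h0 : ∀ θ, 0 < B.h θ) : volume.real B.K = B.area := by
  have h := B.gauge h0 (F := fun _ => 1) continuous_const
  rw [setIntegral_const, smul_eq_mul, mul_one] at h
  rw [h, area, ← intervalIntegral.integral_const_mul]
  refine intervalIntegral.integral_congr (fun θ _ => ?_)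
  simp only [one_mul]
  rw [intervalIntegral.integral_mul_const, integral_id]
  ring

theorem hasDerivAt_eta (θ₀ θ : ℝ) :
    HasDerivAt (fun θ => sp (B.y θ) (θ₀ + Real.pi / 2)) (B.ρ θ * Real.cos (θ - θ₀)) θ := by
  refine (B.hasDerivAt_sp_y (θ₀ + Real.pi / 2) θ).congr_deriv ?_
  rw [show θ - (θ₀ + Real.pi / 2) = (θ - θ₀) - Real.pi / 2 by ring, Real.sin_sub_pi_div_two]
  ring

theorem h_eq_rotate (θ₀ θ : ℝ) : B.h θ = sp (B.y θ) θ₀ * Real.cos (θ - θ₀) +
    sp (B.y θ) (θ₀ + Real.pi / 2) * Real.sin (θ - θ₀) := by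
  rw [← sp_rotate, B.sp_y]

theorem continuous_spy (θ₀ : ℝ) : Continuous fun θ => sp (B.y θ) θ₀ :=
  continuous_sp.comp (B.continuous_y.prodMk continuous_const)

theorem green (h0 : ∀ θ, 0 < B.h θ) {m : ℝ → ℝ} (hm : Continuous m) {M : ℝ → ℝ}
    (hM : ∀ s, HasDerivAt M (m s) s) (θ₀ : ℝ) :
    ∫ x in B.K, m (sp x θ₀) =
      ∫ θ in (0 : ℝ)..2 * Real.pi, M (sp (B.y θ) θ₀) * Real.cos (θ - θ₀) * B.ρ θ := by
  have hp := Real.pi_pos
  have hMc : Continuous M := continuous_iff_continuousAt.2 fun s => (hM s).continuousAt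
  have hσc := B.continuous_spy θ₀
  have hηc := B.continuous_spy (θ₀ + Real.pi / 2)
  have hρc := B.continuous_ρ
  have hhc := B.continuous_h
  set σ : ℝ → ℝ := fun θ => sp (B.y θ) θ₀ with hσ
  set η : ℝ → ℝ := fun θ => sp (B.y θ) (θ₀ + Real.pi / 2) with hη
  have hmF : Continuous fun x : E 2 => m (sp x θ₀) :=
    hm.comp (continuous_sp.comp (continuous_id.prodMk continuous_const))
  rw [B.gauge h0 hmF]
  -- the three integrands
  set G1 : ℝ → ℝ → ℝ := fun θ r => m (r * σ θ) * (r * (B.h θ * B.ρ θ)) with hG1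
  set G2 : ℝ → ℝ → ℝ := fun θ r =>
    (M (r * σ θ) + r * (σ θ * m (r * σ θ))) * (B.ρ θ * Real.cos (θ - θ₀)) with hG2
  have c1 : Continuous (Function.uncurry G1) := by
    simp only [hG1, Function.uncurry_def]
    fun_prop
  have c2 : Continuous (Function.uncurry G2) := by
    simp only [hG2, Function.uncurry_def]
    fun_prop
  have i1 : IntegrableOn (Function.uncurry G1) (uIoc (0 : ℝ) (2 * Real.pi) ×ˢ uIoc (0 : ℝ) 1) :=
    (c1.continuousOn.integrableOn_compact (isCompact_uIcc.prod isCompact_uIcc)).mono_set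
      (prod_mono uIoc_subset_uIcc uIoc_subset_uIcc)
  have i2 : IntegrableOn (Function.uncurry G2) (uIoc (0 : ℝ) (2 * Real.pi) ×ˢ uIoc (0 : ℝ) 1) :=
    (c2.continuousOn.integrableOn_compact (isCompact_uIcc.prod isCompact_uIcc)).mono_set
      (prod_mono uIoc_subset_uIcc uIoc_subset_uIcc)
  have s1 : ∫ θ in (0 : ℝ)..2 * Real.pi, ∫ r in (0 : ℝ)..1,
      m (sp (r • B.y θ) θ₀) * (r * (B.h θ * B.ρ θ)) =
      ∫ r in (0 : ℝ)..1, ∫ θ in (0 : ℝ)..2 * Real.pi, G1 θ r := by
    rw [← intervalIntegral_intervalIntegral_swap i1]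
    simp only [sp_smul, hG1, hσ]
  have s2 : ∀ r : ℝ, ∫ θ in (0 : ℝ)..2 * Real.pi, G1 θ r =
      ∫ θ in (0 : ℝ)..2 * Real.pi, G2 θ r := by
    intro r
    have hd : ∀ θ, HasDerivAt (fun θ => M (r * σ θ) * η θ)
        (m (r * σ θ) * (r * (-(B.ρ θ * Real.sin (θ - θ₀)))) * η θ +
          M (r * σ θ) * (B.ρ θ * Real.cos (θ - θ₀))) θ := by
      intro θ
      exact ((hM (r * σ θ)).comp θ ((B.hasDerivAt_sp_y θ₀ θ).const_mul r)).mul
        (B.hasDerivAt_eta θ₀ θ)
    have hc : Continuous fun θ => m (r * σ θ) * (r * (-(B.ρ θ * Real.sin (θ - θ₀)))) * η θ +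
          M (r * σ θ) * (B.ρ θ * Real.cos (θ - θ₀)) := by fun_prop
    have h1 := intervalIntegral.integral_eq_sub_of_hasDerivAt (a := 0) (b := 2 * Real.pi)
      (fun θ _ => hd θ) (hc.intervalIntegrable _ _)
    have e := B.per_y 0
    rw [zero_add] at e
    have e3 : M (r * σ (2 * Real.pi)) * η (2 * Real.pi) - M (r * σ 0) * η 0 = 0 := by
      simp only [hσ, hη, e, sub_self]
    rw [e3] at h1
    have c3 : Continuous fun θ => G1 θ r := by
      simp only [hG1]
      fun_prop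
    have c4 : Continuous fun θ => G2 θ r := by
      simp only [hG2]
      fun_prop
    have h2 : ∫ θ in (0 : ℝ)..2 * Real.pi, (G2 θ r - G1 θ r) = 0 := by
      refine Eq.trans (intervalIntegral.integral_congr (fun θ _ => ?_)) h1
      simp only [hG1, hG2]
      rw [B.h_eq_rotate θ₀ θ]
      simp only [hσ, hη]
      ring
    rw [intervalIntegral.integral_sub (c4.intervalIntegrable _ _)
      (c3.intervalIntegrable _ _)] at h2
    linarith
  have s3 : ∫ r in (0 : ℝ)..1, ∫ θ in (0 : ℝ)..2 * Real.pi, G2 θ r =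
      ∫ θ in (0 : ℝ)..2 * Real.pi, ∫ r in (0 : ℝ)..1, G2 θ r :=
    (intervalIntegral_intervalIntegral_swap i2).symm
  rw [s1]
  simp only [s2]
  rw [s3]
  refine intervalIntegral.integral_congr (fun θ _ => ?_)
  have hd : ∀ r : ℝ, HasDerivAt (fun r : ℝ => r * M (r * σ θ))
      (M (r * σ θ) + r * (σ θ * m (r * σ θ))) r := by
    intro r
    have h1 : HasDerivAt (fun r : ℝ => r * σ θ) (σ θ) r := by
      simpa using (hasDerivAt_id r).mul_const (σ θ)
    have h2 : HasDerivAt (fun r : ℝ => M (r * σ θ)) (m (r * σ θ) * σ θ) r :=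
      (hM (r * σ θ)).comp r h1
    have h3 : HasDerivAt (fun r : ℝ => r * M (r * σ θ))
        (1 * M (r * σ θ) + r * (m (r * σ θ) * σ θ)) r := (hasDerivAt_id r).mul h2
    refine h3.congr_deriv ?_
    ring
  have hc : Continuous fun r : ℝ => M (r * σ θ) + r * (σ θ * m (r * σ θ)) := by fun_prop
  have h1 := intervalIntegral.integral_eq_sub_of_hasDerivAt (a := 0) (b := 1)
    (fun r _ => hd r) (hc.intervalIntegrable _ _)
  simp only [one_mul, zero_mul, sub_zero] at h1
  simp only [hG2]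
  rw [intervalIntegral.integral_mul_const, h1]
  simp only [hσ]
  try ring

end Body
end Pool.Agent.RC
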