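import Pool.Agent.H.MP_1b807b_an.C.SpBody

/-! MP_1b807b_an, convex planar domains, module Ident: the identity between the integral over the
translated circles and the integral over the two parallel curves -/

set_option autoImplicit false

namespace Pool.Agent.RC

open MeasureTheory Metric Set
open Pool.Agent.RG
open scoped RealInnerProductSpace ENNReal

/-- Green's theorem on a rectangle, periodic in the first variable -/
theorem green_rect {F G Fp Gt : ℝ → ℝ → ℝ} {T : ℝ} (a b : ℝ)
    (hF : ∀ θ φ, HasDerivAt (fun φ => F θ φ) (Fp θ φ) φ)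
    (hG : ∀ φ θ, HasDerivAt (fun θ => G θ φ) (Gt θ φ) θ)
    (cF : Continuous (Function.uncurry Fp)) (cG : Continuous (Function.uncurry Gt))
    (cB : ∀ φ, Continuous fun θ => F θ φ) (per : ∀ φ, G T φ = G 0 φ) :
    ∫ θ in (0 : ℝ)..T, ∫ φ in a..b, (Fp θ φ - Gt θ φ) =
      (∫ θ in (0 : ℝ)..T, F θ b) - ∫ θ in (0 : ℝ)..T, F θ a := by
  have cF1 : ∀ θ, Continuous fun φ => Fp θ φ := fun θ => cF.uncurry_left θ
  have cG1 : ∀ θ, Continuous fun φ => Gt θ φ := fun θ => cG.uncurry_left θ
  have cG2 : ∀ φ, Continuous fun θ => Gt θ φ := fun φ => cG.uncurry_right φ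
  have h1 : ∀ θ, ∫ φ in a..b, (Fp θ φ - Gt θ φ) = (F θ b - F θ a) - ∫ φ in a..b, Gt θ φ := by
    intro θ
    rw [intervalIntegral.integral_sub ((cF1 θ).intervalIntegrable _ _)
      ((cG1 θ).intervalIntegrable _ _),
      intervalIntegral.integral_eq_sub_of_hasDerivAt (fun φ _ => hF θ φ)
        ((cF1 θ).intervalIntegrable _ _)]
  have cI : Continuous fun θ => ∫ φ in a..b, Gt θ φ :=
    intervalIntegral.continuous_parametric_intervalIntegral_of_continuous' cG a b
  have h2 : ∫ θ in (0 : ℝ)..T, ∫ φ in a..b, Gt θ φ = 0 := by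
    rw [intervalIntegral_intervalIntegral_swap]
    · have h3 : ∀ φ, ∫ θ in (0 : ℝ)..T, Gt θ φ = 0 := by
        intro φ
        rw [intervalIntegral.integral_eq_sub_of_hasDerivAt (fun θ _ => hG φ θ)
          ((cG2 φ).intervalIntegrable _ _), per, sub_self]
      simp only [h3, intervalIntegral.integral_zero]
    · refine (cG.continuousOn.integrableOn_compact (isCompact_uIcc.prod isCompact_uIcc)).mono_set
        (Set.prod_mono uIoc_subset_uIcc uIoc_subset_uIcc)
  have cD : Continuous fun θ => F θ b - F θ a := (cB b).sub (cB a)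
  simp only [h1]
  rw [intervalIntegral.integral_sub (cD.intervalIntegrable _ _)
    (cI.intervalIntegrable _ _), h2, sub_zero,
    intervalIntegral.integral_sub ((cB b).intervalIntegrable _ _)
    ((cB a).intervalIntegrable _ _)]

section
variable {s ρ : ℝ → ℝ} {θ₀ : ℝ}

/-- the circles: integral over an arc of directions -/
theorem ident_arc (hs : ∀ θ, HasDerivAt s (-(ρ θ * Real.sin (θ - θ₀))) θ) (cρ : Continuous ρ)
    (ps : s (2 * Real.pi) = s 0) {μ M : ℝ → ℝ} (hμ : Continuous μ)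
    (hM : ∀ x, HasDerivAt M (μ x) x) (r a b : ℝ) :
    ∫ θ in (0 : ℝ)..2 * Real.pi, ∫ φ in a..b, -(r * (ρ θ * Real.sin φ) *
        μ (s θ + r * Real.cos (θ + φ - θ₀))) =
      (∫ θ in (0 : ℝ)..2 * Real.pi, M (s θ + r * Real.cos (θ + b - θ₀)) *
        (ρ θ * Real.cos (θ - θ₀) + r * Real.cos (θ + b - θ₀))) -
      ∫ θ in (0 : ℝ)..2 * Real.pi, M (s θ + r * Real.cos (θ + a - θ₀)) *
        (ρ θ * Real.cos (θ - θ₀) + r * Real.cos (θ + a - θ₀)) := by
  have cM : Continuous M := continuous_iff_continuousAt.2 fun x => (hM x).continuousAt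
  have cs : Continuous s := continuous_iff_continuousAt.2 fun θ => (hs θ).continuousAt
  have key := green_rect (T := 2 * Real.pi) a b
    (F := fun θ φ => M (s θ + r * Real.cos (θ + φ - θ₀)) *
        (ρ θ * Real.cos (θ - θ₀) + r * Real.cos (θ + φ - θ₀)))
    (G := fun θ φ => M (s θ + r * Real.cos (θ + φ - θ₀)) *
        (r * Real.cos (θ + φ - θ₀)))
    (Fp := fun θ φ => μ (s θ + r * Real.cos (θ + φ - θ₀)) *
        (r * -Real.sin (θ + φ - θ₀)) * (ρ θ * Real.cos (θ - θ₀) + r * Real.cos (θ + φ - θ₀)) +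
        M (s θ + r * Real.cos (θ + φ - θ₀)) * (r * -Real.sin (θ + φ - θ₀)))
    (Gt := fun θ φ => μ (s θ + r * Real.cos (θ + φ - θ₀)) *
        (-(ρ θ * Real.sin (θ - θ₀)) + r * -Real.sin (θ + φ - θ₀)) *
        (r * Real.cos (θ + φ - θ₀)) +
        M (s θ + r * Real.cos (θ + φ - θ₀)) * (r * -Real.sin (θ + φ - θ₀)))
    ?_ ?_ ?_ ?_ ?_ ?_
  · rw [← key]
    refine intervalIntegral.integral_congr (fun θ _ => ?_)
    refine intervalIntegral.integral_congr (fun φ _ => ?_)
    have e : Real.sin φ = Real.sin (θ + φ - θ₀) * Real.cos (θ - θ₀) -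
        Real.cos (θ + φ - θ₀) * Real.sin (θ - θ₀) := by
      rw [← Real.sin_sub]
      congr 1
      ring
    simp only [e]
    ring
  · intro θ φ
    have hc : HasDerivAt (fun φ => r * Real.cos (θ + φ - θ₀)) (r * -Real.sin (θ + φ - θ₀)) φ := by
      have h0 : HasDerivAt (fun φ => θ + φ - θ₀) 1 φ := ((hasDerivAt_id φ).const_add θ).sub_const θ₀
      have h1 := (h0.cos).const_mul r
      refine h1.congr_deriv ?_
      ring
    have h1 := (hM _).comp φ (hc.const_add (s θ))
    have h2 := h1.mul (hc.const_add (ρ θ * Real.cos (θ - θ₀)))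
    exact h2
  · intro φ θ
    have hc : HasDerivAt (fun θ => r * Real.cos (θ + φ - θ₀)) (r * -Real.sin (θ + φ - θ₀)) θ := by
      have h0 : HasDerivAt (fun θ => θ + φ - θ₀) 1 θ := ((hasDerivAt_id θ).add_const φ).sub_const θ₀
      have h1 := (h0.cos).const_mul r
      refine h1.congr_deriv ?_
      ring
    have h1 := (hM _).comp θ ((hs θ).add hc)
    have h2 := h1.mul hc
    exact h2
  · simp only [Function.uncurry_def]
    fun_prop
  · simp only [Function.uncurry_def]
    fun_prop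
  · intro φ
    fun_prop
  · intro φ
    have e2 : 2 * Real.pi + φ - θ₀ = (0 + φ - θ₀) + 2 * Real.pi := by ring
    simp only [ps, e2, Real.cos_add_two_pi]

/-- the parallel curves -/
theorem ident_par (hs : ∀ θ, HasDerivAt s (-(ρ θ * Real.sin (θ - θ₀))) θ) (cρ : Continuous ρ)
    (ps : s (2 * Real.pi) = s 0) {μ M : ℝ → ℝ} (hμ : Continuous μ)
    (hM : ∀ x, HasDerivAt M (μ x) x) (r σ : ℝ) :
    ∫ θ in (0 : ℝ)..2 * Real.pi, ∫ t in (0 : ℝ)..r, σ *
        (μ (s θ + σ * t * Real.cos (θ - θ₀)) * (ρ θ + σ * t)) =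
      (∫ θ in (0 : ℝ)..2 * Real.pi, M (s θ + σ * r * Real.cos (θ - θ₀)) *
        ((ρ θ + σ * r) * Real.cos (θ - θ₀))) -
      ∫ θ in (0 : ℝ)..2 * Real.pi, M (s θ + σ * 0 * Real.cos (θ - θ₀)) *
        ((ρ θ + σ * 0) * Real.cos (θ - θ₀)) := by
  have cM : Continuous M := continuous_iff_continuousAt.2 fun x => (hM x).continuousAt
  have cs : Continuous s := continuous_iff_continuousAt.2 fun θ => (hs θ).continuousAt
  have key := green_rect (T := 2 * Real.pi) 0 r
    (F := fun θ t => M (s θ + σ * t * Real.cos (θ - θ₀)) *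
        ((ρ θ + σ * t) * Real.cos (θ - θ₀)))
    (G := fun θ t => M (s θ + σ * t * Real.cos (θ - θ₀)) *
        (σ * Real.sin (θ - θ₀)))
    (Fp := fun θ t => μ (s θ + σ * t * Real.cos (θ - θ₀)) *
        (σ * Real.cos (θ - θ₀)) * ((ρ θ + σ * t) * Real.cos (θ - θ₀)) +
        M (s θ + σ * t * Real.cos (θ - θ₀)) * (σ * Real.cos (θ - θ₀)))
    (Gt := fun θ t => μ (s θ + σ * t * Real.cos (θ - θ₀)) *
        (-(ρ θ * Real.sin (θ - θ₀)) + σ * t * -Real.sin (θ - θ₀)) * (σ * Real.sin (θ - θ₀)) +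
        M (s θ + σ * t * Real.cos (θ - θ₀)) * (σ * Real.cos (θ - θ₀)))
    ?_ ?_ ?_ ?_ ?_ ?_
  · rw [← key]
    refine intervalIntegral.integral_congr (fun θ _ => ?_)
    refine intervalIntegral.integral_congr (fun t _ => ?_)
    have e := Real.sin_sq_add_cos_sq (θ - θ₀)
    linear_combination (-(σ * (μ (s θ + σ * t * Real.cos (θ - θ₀)) *
      (ρ θ + σ * t)))) * e
  · intro θ t
    have hc : HasDerivAt (fun t => σ * t * Real.cos (θ - θ₀)) (σ * Real.cos (θ - θ₀)) t := by
      have h1 := ((hasDerivAt_id t).const_mul σ).mul_const (Real.cos (θ - θ₀))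
      refine h1.congr_deriv ?_
      ring
    have hd : HasDerivAt (fun t => (ρ θ + σ * t) * Real.cos (θ - θ₀))
        (σ * Real.cos (θ - θ₀)) t := by
      have h1 := (((hasDerivAt_id t).const_mul σ).const_add (ρ θ)).mul_const (Real.cos (θ - θ₀))
      refine h1.congr_deriv ?_
      ring
    have h1 := (hM _).comp t (hc.const_add (s θ))
    have h2 := h1.mul hd
    exact h2
  · intro t θ
    have h0 : HasDerivAt (fun θ => θ - θ₀) 1 θ := (hasDerivAt_id θ).sub_const θ₀
    have hc : HasDerivAt (fun θ => σ * t * Real.cos (θ - θ₀)) (σ * t * -Real.sin (θ - θ₀)) θ := by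
      have h1 := (h0.cos).const_mul (σ * t)
      refine h1.congr_deriv ?_
      ring
    have hn : HasDerivAt (fun θ => σ * Real.sin (θ - θ₀)) (σ * Real.cos (θ - θ₀)) θ := by
      have h1 := (h0.sin).const_mul σ
      refine h1.congr_deriv ?_
      ring
    have h1 := (hM _).comp θ ((hs θ).add hc)
    have h2 := h1.mul hn
    exact h2
  · simp only [Function.uncurry_def]
    fun_prop
  · simp only [Function.uncurry_def]
    fun_prop
  · intro φ
    fun_prop
  · intro φ
    have e2 : 2 * Real.pi - θ₀ = (0 - θ₀) + 2 * Real.pi := by ring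
    simp only [ps, e2, Real.cos_add_two_pi, Real.sin_add_two_pi]

theorem ident_abs (hs : ∀ θ, HasDerivAt s (-(ρ θ * Real.sin (θ - θ₀))) θ) (cρ : Continuous ρ)
    (ps : s (2 * Real.pi) = s 0) {μ : ℝ → ℝ} (hμ : Continuous μ) (r : ℝ) :
    (1 / 2) * r * ∫ θ in (0 : ℝ)..2 * Real.pi, ρ θ *
        ∫ φ in (0 : ℝ)..2 * Real.pi, μ (s θ + r * Real.cos (φ - θ₀)) * |Real.sin (φ - θ)| =
      ∫ t in (0 : ℝ)..r, ∫ θ in (0 : ℝ)..2 * Real.pi,
        (μ (s θ - t * Real.cos (θ - θ₀)) * (ρ θ - t) +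
          μ (s θ + t * Real.cos (θ - θ₀)) * (ρ θ + t)) := by
  obtain ⟨M, hM⟩ : ∃ M : ℝ → ℝ, ∀ x, HasDerivAt M (μ x) x :=
    ⟨fun x => ∫ t in (0 : ℝ)..x, μ t, fun x => (hμ.integral_hasStrictDerivAt 0 x).hasDerivAt⟩
  have cM : Continuous M := continuous_iff_continuousAt.2 fun x => (hM x).continuousAt
  have cs : Continuous s := continuous_iff_continuousAt.2 fun θ => (hs θ).continuousAt
  have hpi := Real.pi_pos
  -- the left side
  have a1 := ident_arc hs cρ ps hμ hM r 0 Real.pi
  have a2 := ident_arc hs cρ ps hμ hM r Real.pi (2 * Real.pi)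
  have L : (1 / 2) * r * ∫ θ in (0 : ℝ)..2 * Real.pi, ρ θ *
        ∫ φ in (0 : ℝ)..2 * Real.pi, μ (s θ + r * Real.cos (φ - θ₀)) * |Real.sin (φ - θ)| =
      (1 / 2) * (-(∫ θ in (0 : ℝ)..2 * Real.pi, ∫ φ in (0 : ℝ)..Real.pi,
        -(r * (ρ θ * Real.sin φ) * μ (s θ + r * Real.cos (θ + φ - θ₀)))) +
        ∫ θ in (0 : ℝ)..2 * Real.pi, ∫ φ in Real.pi..2 * Real.pi,
        -(r * (ρ θ * Real.sin φ) * μ (s θ + r * Real.cos (θ + φ - θ₀)))) := by
    rw [← intervalIntegral.integral_neg, ← intervalIntegral.integral_add, mul_assoc,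
      ← intervalIntegral.integral_const_mul]
    · congr 1
      refine intervalIntegral.integral_congr (fun θ _ => ?_)
      have e1 : ∫ φ in (0 : ℝ)..2 * Real.pi, μ (s θ + r * Real.cos (φ - θ₀)) * |Real.sin (φ - θ)| =
          ∫ φ in (0 : ℝ)..2 * Real.pi,
            μ (s θ + r * Real.cos (θ + φ - θ₀)) * |Real.sin φ| := by
        have hp : Function.Periodic
            (fun φ => μ (s θ + r * Real.cos (φ - θ₀)) * |Real.sin (φ - θ)|)
            (2 * Real.pi) := by
          intro φ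
          have e2 : φ + 2 * Real.pi - θ₀ = (φ - θ₀) + 2 * Real.pi := by ring
          have e3 : φ + 2 * Real.pi - θ = (φ - θ) + 2 * Real.pi := by ring
          simp only [e2, e3, Real.cos_add_two_pi, Real.sin_add_two_pi]
        have h1 := hp.intervalIntegral_add_eq 0 θ
        have h2 := intervalIntegral.integral_comp_add_left
          (fun φ => μ (s θ + r * Real.cos (φ - θ₀)) * |Real.sin (φ - θ)|) θ
          (a := 0) (b := 2 * Real.pi)
        rw [zero_add] at h1
        rw [add_zero, ← h1] at h2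
        simp only [add_sub_cancel_left] at h2
        exact h2.symm
      have c1 : Continuous fun φ =>
          μ (s θ + r * Real.cos (θ + φ - θ₀)) * |Real.sin φ| := by fun_prop
      rw [e1, ← intervalIntegral.integral_add_adjacent_intervals
        (c1.intervalIntegrable 0 Real.pi) (c1.intervalIntegrable Real.pi (2 * Real.pi)),
        ← intervalIntegral.integral_neg, mul_add, mul_add,
        ← intervalIntegral.integral_const_mul, ← intervalIntegral.integral_const_mul,
        ← intervalIntegral.integral_const_mul, ← intervalIntegral.integral_const_mul]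
      congr 1
      · refine intervalIntegral.integral_congr (fun φ hφ => ?_)
        rw [uIcc_of_le hpi.le] at hφ
        have := Real.sin_nonneg_of_mem_Icc hφ
        simp only [abs_of_nonneg this]
        ring
      · refine intervalIntegral.integral_congr (fun φ hφ => ?_)
        rw [uIcc_of_le (by linarith)] at hφ
        have h3 : 0 ≤ Real.sin (φ - Real.pi) :=
          Real.sin_nonneg_of_mem_Icc ⟨by linarith [hφ.1], by linarith [hφ.2]⟩
        rw [Real.sin_sub_pi] at h3
        have h4 : |Real.sin φ| = -Real.sin φ := abs_of_nonpos (by linarith)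
        simp only [h4]
        ring
    · refine (Continuous.neg ?_).intervalIntegrable _ _
      refine intervalIntegral.continuous_parametric_intervalIntegral_of_continuous' ?_ _ _
      simp only [Function.uncurry_def]
      fun_prop
    · refine Continuous.intervalIntegrable ?_ _ _
      refine intervalIntegral.continuous_parametric_intervalIntegral_of_continuous' ?_ _ _
      simp only [Function.uncurry_def]
      fun_prop
  rw [L, a1, a2]
  -- the right side
  have b1 := ident_par hs cρ ps hμ hM r 1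
  have b2 := ident_par hs cρ ps hμ hM r (-1)
  have R : ∫ t in (0 : ℝ)..r, ∫ θ in (0 : ℝ)..2 * Real.pi,
        (μ (s θ - t * Real.cos (θ - θ₀)) * (ρ θ - t) +
          μ (s θ + t * Real.cos (θ - θ₀)) * (ρ θ + t)) =
      (∫ θ in (0 : ℝ)..2 * Real.pi, ∫ t in (0 : ℝ)..r, 1 *
        (μ (s θ + 1 * t * Real.cos (θ - θ₀)) * (ρ θ + 1 * t))) -
      ∫ θ in (0 : ℝ)..2 * Real.pi, ∫ t in (0 : ℝ)..r, (-1) *
        (μ (s θ + (-1) * t * Real.cos (θ - θ₀)) * (ρ θ + (-1) * t)) := by
    rw [← intervalIntegral.integral_sub, intervalIntegral_intervalIntegral_swap]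
    · refine intervalIntegral.integral_congr (fun θ _ => ?_)
      rw [← intervalIntegral.integral_sub]
      · refine intervalIntegral.integral_congr (fun t _ => ?_)
        have e1 : s θ + -1 * t * Real.cos (θ - θ₀) =
          s θ - t * Real.cos (θ - θ₀) := by ring
        have e2 : s θ + 1 * t * Real.cos (θ - θ₀) =
          s θ + t * Real.cos (θ - θ₀) := by ring
        rw [e1, e2]
        ring
      · exact Continuous.intervalIntegrable (by fun_prop) _ _
      · exact Continuous.intervalIntegrable (by fun_prop) _ _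
    · refine (Continuous.continuousOn ?_).integrableOn_compact
        (isCompact_uIcc.prod isCompact_uIcc) |>.mono_set
        (Set.prod_mono uIoc_subset_uIcc uIoc_subset_uIcc)
      simp only [Function.uncurry_def]
      fun_prop
    · refine Continuous.intervalIntegrable ?_ _ _
      refine intervalIntegral.continuous_parametric_intervalIntegral_of_continuous' ?_ _ _
      simp only [Function.uncurry_def]
      fun_prop
    · refine Continuous.intervalIntegrable ?_ _ _
      refine intervalIntegral.continuous_parametric_intervalIntegral_of_continuous' ?_ _ _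
      simp only [Function.uncurry_def]
      fun_prop
  rw [R, b1, b2]
  -- comparison
  have c0 : (∫ θ in (0 : ℝ)..2 * Real.pi, M (s θ + r * Real.cos (θ + 0 - θ₀)) *
        (ρ θ * Real.cos (θ - θ₀) + r * Real.cos (θ + 0 - θ₀))) =
      ∫ θ in (0 : ℝ)..2 * Real.pi, M (s θ + 1 * r * Real.cos (θ - θ₀)) *
        ((ρ θ + 1 * r) * Real.cos (θ - θ₀)) := by
    refine intervalIntegral.integral_congr (fun θ _ => ?_)
    simp only [add_zero, one_mul]
    ring
  have c2 : (∫ θ in (0 : ℝ)..2 * Real.pi,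
        M (s θ + r * Real.cos (θ + 2 * Real.pi - θ₀)) *
        (ρ θ * Real.cos (θ - θ₀) + r * Real.cos (θ + 2 * Real.pi - θ₀))) =
      ∫ θ in (0 : ℝ)..2 * Real.pi, M (s θ + 1 * r * Real.cos (θ - θ₀)) *
        ((ρ θ + 1 * r) * Real.cos (θ - θ₀)) := by
    refine intervalIntegral.integral_congr (fun θ _ => ?_)
    have e : θ + 2 * Real.pi - θ₀ = (θ - θ₀) + 2 * Real.pi := by ring
    simp only [e, Real.cos_add_two_pi, one_mul]
    ring
  have c1 : (∫ θ in (0 : ℝ)..2 * Real.pi,
        M (s θ + r * Real.cos (θ + Real.pi - θ₀)) *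
        (ρ θ * Real.cos (θ - θ₀) + r * Real.cos (θ + Real.pi - θ₀))) =
      ∫ θ in (0 : ℝ)..2 * Real.pi, M (s θ + (-1) * r * Real.cos (θ - θ₀)) *
        ((ρ θ + (-1) * r) * Real.cos (θ - θ₀)) := by
    refine intervalIntegral.integral_congr (fun θ _ => ?_)
    have e : θ + Real.pi - θ₀ = (θ - θ₀) + Real.pi := by ring
    have e1 : r * -Real.cos (θ - θ₀) = -1 * r * Real.cos (θ - θ₀) := by ring
    simp only [e, Real.cos_add_pi, e1]
    ring
  have c3 : (∫ θ in (0 : ℝ)..2 * Real.pi, M (s θ + 1 * 0 * Real.cos (θ - θ₀)) *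
        ((ρ θ + 1 * 0) * Real.cos (θ - θ₀))) =
      ∫ θ in (0 : ℝ)..2 * Real.pi, M (s θ + (-1) * 0 * Real.cos (θ - θ₀)) *
        ((ρ θ + (-1) * 0) * Real.cos (θ - θ₀)) := by
    simp only [mul_zero]
  rw [c0, c1, c2, c3]
  ring

end

theorem Body.ident (B : Body) {μ : ℝ → ℝ} (hμ : Continuous μ) (θ₀ : ℝ) {r : ℝ} (hr : 0 ≤ r) :
    (1 / 2) * r * ∫ θ in (0 : ℝ)..2 * Real.pi, B.ρ θ *
        ∫ φ in (0 : ℝ)..2 * Real.pi, μ (sp (B.y θ + r • ev φ) θ₀) * |Real.sin (φ - θ)| =
      ∫ t in (0 : ℝ)..r, ∫ θ in (0 : ℝ)..2 * Real.pi,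
        (μ (sp (B.y θ) θ₀ - t * Real.cos (θ - θ₀)) * (B.ρ θ - t) +
          μ (sp (B.y θ) θ₀ + t * Real.cos (θ - θ₀)) * (B.ρ θ + t)) := by
  have _ := hr
  have ps : sp (B.y (2 * Real.pi)) θ₀ = sp (B.y 0) θ₀ := by
    have e1 := B.per_y 0
    rw [zero_add] at e1
    rw [e1]
  have h := ident_abs (s := fun θ => sp (B.y θ) θ₀) (B.hasDerivAt_sp_y θ₀) B.continuous_ρ ps hμ r
  simp only [sp_add, sp_smul, sp_ev]
  exact h

end Pool.Agent.RC
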