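import Pool.Agent.H.MP_1b807b_an.C.Depth
import Pool.Agent.H.MP_1b807b_an.C.Far

/-! MP_1b807b_an, convex planar domains, module TV: the total variation bound for the integral of a
decreasing function of the distance to the boundary curve -/

set_option autoImplicit false

namespace Pool.Agent.RC

open MeasureTheory Metric Set
open Pool.Agent.RG
open scoped RealInnerProductSpace ENNReal

/-! ### Polar coordinates in the plane -/

theorem integral_E2 (f : E 2 → ℝ) : ∫ x, f x = ∫ p : ℝ × ℝ, f !₂[p.1, p.2] := by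
  rw [← (PiLp.volume_preserving_toLp (Fin 2)).integral_comp
    (MeasurableEquiv.toLp 2 _).measurableEmbedding,
    ← (volume_preserving_finTwoArrow ℝ).symm.integral_comp
      (MeasurableEquiv.finTwoArrow.symm.measurableEmbedding)]
  rfl

theorem smul_ev_eq (t φ : ℝ) : t • ev φ = !₂[t * Real.cos φ, t * Real.sin φ] := by
  refine ext2 ?_ ?_
  · simp [ev]
  · simp [ev]

/-- polar coordinates for a function that vanishes outside of the unit disc -/
theorem polar_E2 {f : E 2 → ℝ} {H : ℝ → ℝ → ℝ} (hH : Continuous fun p : ℝ × ℝ => H p.1 p.2)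
    (hf : ∀ t, 0 < t → ∀ φ, t * f (t • ev φ) = H t φ) (hz : ∀ t, 1 < t → ∀ φ, H t φ = 0)
    (hper : ∀ t, Function.Periodic (H t) (2 * Real.pi)) :
    ∫ x, f x = ∫ t in (0 : ℝ)..1, ∫ φ in (0 : ℝ)..2 * Real.pi, H t φ := by
  rw [integral_E2, ← integral_comp_polarCoord_symm (fun p : ℝ × ℝ => f !₂[p.1, p.2])]
  have htar : polarCoord.target = Ioi (0 : ℝ) ×ˢ Ioo (-Real.pi) Real.pi := rfl
  have e1 : ∫ p in polarCoord.target, p.1 • f !₂[(polarCoord.symm p).1, (polarCoord.symm p).2] =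
      ∫ p in Ioi (0 : ℝ) ×ˢ Ioo (-Real.pi) Real.pi, H p.1 p.2 := by
    rw [htar]
    refine setIntegral_congr_fun (measurableSet_Ioi.prod measurableSet_Ioo) (fun p hp => ?_)
    have h1 : (0 : ℝ) < p.1 := hp.1
    have h2 := hf p.1 h1 p.2
    simp only [polarCoord_symm_apply, smul_eq_mul]
    rw [← smul_ev_eq]
    exact h2
  have hsub : Ioc (0 : ℝ) 1 ×ˢ Ioo (-Real.pi) Real.pi ⊆ Ioi (0 : ℝ) ×ˢ Ioo (-Real.pi) Real.pi :=
    prod_mono Ioc_subset_Ioi_self (Subset.refl _)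
  have e2 : ∫ p in Ioi (0 : ℝ) ×ˢ Ioo (-Real.pi) Real.pi, H p.1 p.2 =
      ∫ p in Ioc (0 : ℝ) 1 ×ˢ Ioo (-Real.pi) Real.pi, H p.1 p.2 := by
    refine setIntegral_eq_of_subset_of_forall_sdiff_eq_zero
      (measurableSet_Ioi.prod measurableSet_Ioo) hsub (fun p hp => ?_)
    refine hz _ ?_ _
    by_contra hlt
    exact hp.2 (mk_mem_prod ⟨hp.1.1, not_lt.1 hlt⟩ hp.1.2)
  have hint : IntegrableOn (fun p : ℝ × ℝ => H p.1 p.2) (Ioc (0 : ℝ) 1 ×ˢ Ioo (-Real.pi) Real.pi)
      (volume.prod volume) := by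
    have hc : IsCompact (Icc (0 : ℝ) 1 ×ˢ Icc (-Real.pi) Real.pi) := isCompact_Icc.prod isCompact_Icc
    exact (hH.continuousOn.integrableOn_compact hc).mono_set
      (prod_mono Ioc_subset_Icc_self Ioo_subset_Icc_self)
  rw [e1, e2, Measure.volume_eq_prod, setIntegral_prod _ hint,
    intervalIntegral.integral_of_le zero_le_one]
  refine setIntegral_congr_fun measurableSet_Ioc (fun t _ => ?_)
  have hp := (hper t).intervalIntegral_add_eq (-Real.pi) 0
  have e3 : -Real.pi + 2 * Real.pi = Real.pi := by ring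
  rw [e3, zero_add] at hp
  rw [← hp, intervalIntegral.integral_of_le (by linarith [Real.pi_pos]),
    ← integral_Ioc_eq_integral_Ioo]

namespace Body
variable (B : Body)

theorem ne_of_depth_ne {x : E 2} (hx : B.depth x ≠ 0) (θ : ℝ) : x - B.y θ ≠ 0 := by
  intro h
  apply hx
  have h1 := B.depth_out θ le_rfl
  rw [zero_smul, add_zero, neg_zero] at h1
  rw [sub_eq_zero.1 h]
  exact h1

theorem hasDerivAt_distance {x : E 2} {θ : ℝ} (h : x - B.y θ ≠ 0) :
    HasDerivAt (fun θ => ‖x - B.y θ‖)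
      (-(B.ρ θ * sp (x - B.y θ) (θ + Real.pi / 2)) / ‖x - B.y θ‖) θ := by
  have h1 : HasDerivAt (fun θ => x - B.y θ) (-(B.ρ θ • ev' θ)) θ := by
    have := (hasDerivAt_const θ x).sub (B.hasDerivAt_y θ)
    rwa [zero_sub] at this
  have h2 := h1.norm_sq
  have hne : ‖x - B.y θ‖ ^ 2 ≠ 0 := pow_ne_zero 2 (norm_ne_zero_iff.2 h)
  have h3 := h2.sqrt hne
  have e : (fun θ => √(‖x - B.y θ‖ ^ 2)) = fun θ => ‖x - B.y θ‖ := by
    funext θ
    exact Real.sqrt_sq (norm_nonneg _)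
  rw [e] at h3
  refine h3.congr_deriv ?_
  rw [Real.sqrt_sq (norm_nonneg _), inner_neg_right, inner_smul_right, ev'_eq, ← sp_eq_inner]
  have hn : ‖x - B.y θ‖ ≠ 0 := norm_ne_zero_iff.2 h
  field_simp

/-- the kernel -/
noncomputable def Kf (g' : ℝ → ℝ) (x : E 2) (θ : ℝ) : ℝ :=
  -g' ‖x - B.y θ‖ * (|sp (x - B.y θ) (θ + Real.pi / 2)| / ‖x - B.y θ‖)

theorem pointwise {x : E 2} (hx : B.depth x ≠ 0) (hA : Real.pi ≤ B.area)
    {g g' : ℝ → ℝ} (hg : ∀ t, HasDerivAt g (g' t) t) (hg' : Continuous g')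
    (hneg : ∀ t, 0 ≤ t → g' t ≤ 0) (hz : ∀ t, 1 ≤ t → g t = 0) :
    2 * g |B.depth x| ≤ ∫ θ in (0 : ℝ)..2 * Real.pi, B.Kf g' x θ * B.ρ θ := by
  have hne := B.ne_of_depth_ne hx
  have hn : ∀ θ, ‖x - B.y θ‖ ≠ 0 := fun θ => norm_ne_zero_iff.2 (hne θ)
  have cn : Continuous fun θ => ‖x - B.y θ‖ := (continuous_const.sub B.continuous_y).norm
  have csp : Continuous fun θ => sp (x - B.y θ) (θ + Real.pi / 2) := by
    have := continuous_sp.comp ((continuous_const.sub B.continuous_y).prodMk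
      (continuous_id.add (continuous_const (y := Real.pi / 2))) :
        Continuous fun θ : ℝ => ((x - B.y θ, θ + Real.pi / 2) : E 2 × ℝ))
    exact this
  have cK : Continuous fun θ => B.Kf g' x θ * B.ρ θ := by
    unfold Kf
    exact ((hg'.comp cn).neg.mul (csp.abs.div cn hn)).mul B.continuous_ρ
  have cd : Continuous fun θ => g' ‖x - B.y θ‖ *
      (-(B.ρ θ * sp (x - B.y θ) (θ + Real.pi / 2)) / ‖x - B.y θ‖) :=
    (hg'.comp cn).mul ((B.continuous_ρ.mul csp).neg.div cn hn)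
  have hd : ∀ θ, HasDerivAt (fun θ => g ‖x - B.y θ‖) (g' ‖x - B.y θ‖ *
      (-(B.ρ θ * sp (x - B.y θ) (θ + Real.pi / 2)) / ‖x - B.y θ‖)) θ := fun θ =>
    (hg _).comp θ (B.hasDerivAt_distance (hne θ))
  have habs : ∀ θ, |g' ‖x - B.y θ‖ *
      (-(B.ρ θ * sp (x - B.y θ) (θ + Real.pi / 2)) / ‖x - B.y θ‖)| = B.Kf g' x θ * B.ρ θ := by
    intro θ
    rw [abs_mul, abs_div, abs_neg, abs_mul, abs_of_pos (B.ρ_pos θ), abs_norm,
      abs_of_nonpos (hneg _ (norm_nonneg _)), Kf]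
    ring
  obtain ⟨θ₁, h1⟩ := B.exists_far hA x
  obtain ⟨θf, -, -, hf⟩ := B.exists_foot x
  have hper : Function.Periodic (fun θ => ‖x - B.y θ‖) (2 * Real.pi) := fun θ => by
    simp only [B.per_y]
  obtain ⟨θs, hs, hse⟩ := hper.exists_mem_Ico Real.two_pi_pos θf θ₁
  have hr : ‖x - B.y θs‖ = |B.depth x| := by
    have e : x - B.y θf = -(B.depth x • ev θf) := by
      rw [hf]
      abel
    have e2 : ‖x - B.y θf‖ = |B.depth x| := by
      rw [e, norm_neg, norm_smul, norm_ev, mul_one, Real.norm_eq_abs]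
    rw [← e2]
    exact hse.symm
  have key : ∀ a b : ℝ, a ≤ b → |g ‖x - B.y b‖ - g ‖x - B.y a‖| ≤
      ∫ θ in a..b, B.Kf g' x θ * B.ρ θ := by
    intro a b hab
    rw [← intervalIntegral.integral_eq_sub_of_hasDerivAt (fun θ _ => hd θ)
      (cd.intervalIntegrable a b)]
    refine (intervalIntegral.abs_integral_le_integral_abs hab).trans (le_of_eq ?_)
    exact intervalIntegral.integral_congr (fun θ _ => habs θ)
  have k1 := key θ₁ θs hs.1
  have k2 := key θs (θ₁ + 2 * Real.pi) hs.2.le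
  have e0 : g ‖x - B.y θ₁‖ = 0 := hz _ h1
  have e1 : g ‖x - B.y (θ₁ + 2 * Real.pi)‖ = 0 := by rw [B.per_y, e0]
  have hperK : Function.Periodic (fun θ => B.Kf g' x θ * B.ρ θ) (2 * Real.pi) := fun θ => by
    have e2 : θ + 2 * Real.pi + Real.pi / 2 = (θ + Real.pi / 2) + 2 * Real.pi := by ring
    simp only [Kf, B.per_y, B.per_ρ, e2, sp_two_pi]
  have e3 := intervalIntegral.integral_add_adjacent_intervals
    (cK.intervalIntegrable (μ := volume) θ₁ θs) (cK.intervalIntegrable (μ := volume) θs (θ₁ + 2 * Real.pi))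
  have e4 := hperK.intervalIntegral_add_eq θ₁ 0
  rw [zero_add] at e4
  rw [e0, sub_zero, hr] at k1
  rw [e1, zero_sub, abs_neg, hr] at k2
  rw [← e4, ← e3]
  have := le_abs_self (g |B.depth x|)
  linarith

theorem gprime_zero {g g' : ℝ → ℝ} (hg : ∀ t, HasDerivAt g (g' t) t) (hz : ∀ t, 1 ≤ t → g t = 0)
    {t : ℝ} (ht : 1 < t) : g' t = 0 := by
  have h : g =ᶠ[nhds t] fun _ => 0 := by
    filter_upwards [Ioi_mem_nhds ht] with s hs
    exact hz s (le_of_lt hs)
  have h2 := ((hasDerivAt_const t (0 : ℝ)).congr_of_eventuallyEq h)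
  exact (hg t).unique h2

/-- the inner integral in polar coordinates -/
theorem inner_polar {m : E 2 → ℝ} (hm : Continuous m) {g g' : ℝ → ℝ}
    (hg : ∀ t, HasDerivAt g (g' t) t) (hg' : Continuous g') (hz : ∀ t, 1 ≤ t → g t = 0) (θ : ℝ) :
    ∫ x, m x * B.Kf g' x θ = ∫ t in (0 : ℝ)..1, (-g' t) * t *
        ∫ φ in (0 : ℝ)..2 * Real.pi, m (B.y θ + t • ev φ) * |Real.sin (φ - θ)| := by
  rw [← integral_add_right_eq_self (fun x => m x * B.Kf g' x θ) (B.y θ)]
  have hc : Continuous fun p : ℝ × ℝ =>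
      (-g' p.1) * p.1 * (m (B.y θ + p.1 • ev p.2) * |Real.sin (p.2 - θ)|) := by
    refine Continuous.mul ?_ (Continuous.mul ?_ ?_)
    · exact (hg'.comp continuous_fst).neg.mul continuous_fst
    · exact hm.comp (continuous_const.add (continuous_fst.smul (continuous_ev.comp continuous_snd)))
    · exact (Real.continuous_sin.comp (continuous_snd.sub continuous_const)).abs
  have hp := polar_E2 (f := fun x => m (x + B.y θ) * B.Kf g' (x + B.y θ) θ)
    (H := fun t φ => (-g' t) * t * (m (B.y θ + t • ev φ) * |Real.sin (φ - θ)|)) hc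
    (fun t ht φ => ?_) (fun t ht φ => ?_) (fun t φ => ?_)
  · rw [hp]
    refine intervalIntegral.integral_congr (fun t _ => ?_)
    exact intervalIntegral.integral_const_mul _ _
  · have e1 : t • ev φ + B.y θ - B.y θ = t • ev φ := by abel
    have e2 : ‖t • ev φ‖ = t := by
      rw [norm_smul, norm_ev, mul_one, Real.norm_eq_abs, abs_of_pos ht]
    have e3 : |sp (t • ev φ) (θ + Real.pi / 2)| = t * |Real.sin (φ - θ)| := by
      rw [sp_smul, sp_ev, abs_mul, abs_of_pos ht]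
      have e4 : φ - (θ + Real.pi / 2) = (φ - θ) - Real.pi / 2 := by ring
      rw [e4, Real.cos_sub_pi_div_two]
    simp only [Kf, e1, e2, e3]
    rw [add_comm (t • ev φ) (B.y θ)]
    field_simp
  · simp only [gprime_zero hg hz ht, neg_zero, zero_mul]
  · have e4 : φ + 2 * Real.pi - θ = (φ - θ) + 2 * Real.pi := by ring
    simp only [ev_two_pi, e4, Real.sin_add_two_pi]

theorem tv_bound (hA : Real.pi ≤ B.area) {m : E 2 → ℝ} (hm : Continuous m) (hm0 : ∀ x, 0 ≤ m x)
    {g g' : ℝ → ℝ} (hg : ∀ t, HasDerivAt g (g' t) t) (hg' : Continuous g')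
    (hneg : ∀ t, 0 ≤ t → g' t ≤ 0) (hz : ∀ t, 1 ≤ t → g t = 0) :
    ∫ x, m x * g |B.depth x| ≤
      (1 / 2) * ∫ θ in (0 : ℝ)..2 * Real.pi, B.ρ θ * ∫ t in (0 : ℝ)..1, (-g' t) * t *
        ∫ φ in (0 : ℝ)..2 * Real.pi, m (B.y θ + t • ev φ) * |Real.sin (φ - θ)| := by
  -- bounds
  obtain ⟨R, hR⟩ := isCompact_Icc.exists_bound_of_continuousOn
    (B.continuous_y.continuousOn (s := Icc (0 : ℝ) (2 * Real.pi)))
  have hR0 : 0 ≤ R := (norm_nonneg _).trans (hR 0 ⟨le_rfl, Real.two_pi_pos.le⟩)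
  set S : Set (E 2) := closedBall 0 (R + 1) with hS
  have hSc : IsCompact S := isCompact_closedBall _ _
  obtain ⟨Cm, hCm⟩ := hSc.exists_bound_of_continuousOn hm.continuousOn
  obtain ⟨Cg, hCg⟩ := (isCompact_Icc (a := (0 : ℝ)) (b := 2 * R + 1)).exists_bound_of_continuousOn
    hg'.continuousOn
  obtain ⟨Cρ, hCρ⟩ := (isCompact_Icc (a := (0 : ℝ)) (b := 2 * Real.pi)).exists_bound_of_continuousOn
    B.continuous_ρ.continuousOn
  have hCm0 : 0 ≤ Cm := (norm_nonneg _).trans (hCm 0 (by rw [hS]; exact mem_closedBall_self (by linarith)))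
  have hCg0 : 0 ≤ Cg := (norm_nonneg _).trans (hCg 0 ⟨le_rfl, by linarith⟩)
  -- vanishing outside of `S`
  have hv1 : ∀ x ∉ S, m x * g |B.depth x| = 0 := by
    intro x hx
    have hx' : R + 1 < ‖x‖ := by
      rw [hS, mem_closedBall_zero_iff, not_le] at hx
      exact hx
    obtain ⟨θ, hθ, -, hf⟩ := B.exists_foot x
    have h1 := hR θ ⟨hθ.1, hθ.2.le⟩
    have e : x = B.y θ - B.depth x • ev θ := by
      rw [hf]
      abel
    have h2 : ‖x‖ ≤ ‖B.y θ‖ + |B.depth x| := by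
      calc ‖x‖ = ‖B.y θ - B.depth x • ev θ‖ := by rw [← e]
        _ ≤ ‖B.y θ‖ + ‖B.depth x • ev θ‖ := norm_sub_le _ _
        _ = ‖B.y θ‖ + |B.depth x| := by rw [norm_smul, norm_ev, mul_one, Real.norm_eq_abs]
    rw [hz _ (by linarith), mul_zero]
  have hv2 : ∀ θ ∈ Icc (0 : ℝ) (2 * Real.pi), ∀ x ∉ S, m x * B.Kf g' x θ = 0 := by
    intro θ hθ x hx
    have hx' : R + 1 < ‖x‖ := by
      rw [hS, mem_closedBall_zero_iff, not_le] at hx
      exact hx
    have h1 := hR θ hθ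
    have h2 : ‖x‖ - ‖B.y θ‖ ≤ ‖x - B.y θ‖ := norm_sub_norm_le _ _
    rw [Kf, gprime_zero hg hz (by linarith : 1 < ‖x - B.y θ‖), neg_zero, zero_mul, mul_zero]
  -- integrability on the product
  set F : E 2 → ℝ → ℝ := fun x θ => m x * (B.Kf g' x θ * B.ρ θ) with hF
  have hmeas : Measurable (Function.uncurry F) := by
    have c1 : Continuous fun z : E 2 × ℝ => z.1 - B.y z.2 :=
      continuous_fst.sub (B.continuous_y.comp continuous_snd)
    have c2 : Continuous fun z : E 2 × ℝ => sp (z.1 - B.y z.2) (z.2 + Real.pi / 2) :=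
      continuous_sp.comp (c1.prodMk (continuous_snd.add continuous_const))
    have h1 : Measurable fun z : E 2 × ℝ => B.Kf g' z.1 z.2 := by
      unfold Kf
      exact (hg'.comp c1.norm).neg.measurable.mul (c2.abs.measurable.div c1.norm.measurable)
    exact (hm.comp continuous_fst).measurable.mul
      (h1.mul (B.continuous_ρ.comp continuous_snd).measurable)
  have hfin : IsFiniteMeasure (volume.restrict S : Measure (E 2)) :=
    ⟨by rw [Measure.restrict_apply_univ]; exact hSc.measure_lt_top⟩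
  have hint : Integrable (Function.uncurry F)
      ((volume.restrict S).prod (volume.restrict (Ioc (0 : ℝ) (2 * Real.pi)))) := by
    refine Integrable.of_bound hmeas.aestronglyMeasurable (Cm * (Cg * 1 * Cρ)) ?_
    rw [Measure.prod_restrict]
    refine ae_restrict_of_forall_mem (measurableSet_closedBall.prod measurableSet_Ioc)
      (fun z hz' => ?_)
    have hx : z.1 ∈ S := hz'.1
    have hθ : z.2 ∈ Icc (0 : ℝ) (2 * Real.pi) := ⟨hz'.2.1.le, hz'.2.2⟩
    have h1 := hCm z.1 hx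
    have h2 := hCρ z.2 hθ
    have h3 : ‖g' ‖z.1 - B.y z.2‖‖ ≤ Cg := by
      refine hCg _ ⟨norm_nonneg _, (norm_sub_le _ _).trans ?_⟩
      have := hR z.2 hθ
      have hx2 : ‖z.1‖ ≤ R + 1 := by
        rw [hS, mem_closedBall_zero_iff] at hx
        exact hx
      linarith
    have h4 : |sp (z.1 - B.y z.2) (z.2 + Real.pi / 2)| / ‖z.1 - B.y z.2‖ ≤ 1 :=
      div_le_one_of_le₀ (abs_sp_le _ _) (norm_nonneg _)
    have h5 : 0 ≤ |sp (z.1 - B.y z.2) (z.2 + Real.pi / 2)| / ‖z.1 - B.y z.2‖ := by positivity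
    have h6 : ‖B.Kf g' z.1 z.2‖ ≤ Cg * 1 := by
      rw [Kf, norm_mul, norm_neg, Real.norm_of_nonneg h5]
      exact mul_le_mul h3 h4 h5 hCg0
    show ‖m z.1 * (B.Kf g' z.1 z.2 * B.ρ z.2)‖ ≤ _
    rw [norm_mul, norm_mul]
    exact mul_le_mul h1 (mul_le_mul h6 h2 (norm_nonneg _) (by positivity)) (by positivity) hCm0
  -- the pointwise bound
  have step1 : ∫ x, m x * g |B.depth x| = ∫ x in S, m x * g |B.depth x| :=
    (setIntegral_eq_integral_of_forall_compl_eq_zero hv1).symm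
  have gc : Continuous g := continuous_iff_continuousAt.2 fun t => (hg t).continuousAt
  have step2 : ∫ x in S, m x * g |B.depth x| ≤
      ∫ x in S, (1 / 2) * ∫ θ in Ioc (0 : ℝ) (2 * Real.pi), F x θ := by
    refine integral_mono_ae ?_ (hint.integral_prod_left.const_mul _) ?_
    · exact (hm.mul (gc.comp B.continuous_depth.abs)).continuousOn.integrableOn_compact hSc
    · filter_upwards [ae_restrict_of_ae B.ae_depth_ne] with x hx
      have h1 := B.pointwise hx hA hg hg' hneg hz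
      have h2 : ∫ θ in Ioc (0 : ℝ) (2 * Real.pi), F x θ =
          m x * ∫ θ in (0 : ℝ)..2 * Real.pi, B.Kf g' x θ * B.ρ θ := by
        rw [intervalIntegral.integral_of_le Real.two_pi_pos.le, ← integral_const_mul]
      show m x * g |B.depth x| ≤ (1 / 2) * ∫ θ in Ioc (0 : ℝ) (2 * Real.pi), F x θ
      rw [h2]
      have h3 := hm0 x
      nlinarith
  have step3 : ∫ x in S, (1 / 2) * ∫ θ in Ioc (0 : ℝ) (2 * Real.pi), F x θ =
      (1 / 2) * ∫ θ in Ioc (0 : ℝ) (2 * Real.pi), ∫ x in S, F x θ := by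
    rw [integral_const_mul, integral_integral_swap hint]
  have step4 : ∫ θ in Ioc (0 : ℝ) (2 * Real.pi), ∫ x in S, F x θ =
      ∫ θ in (0 : ℝ)..2 * Real.pi, B.ρ θ * ∫ t in (0 : ℝ)..1, (-g' t) * t *
        ∫ φ in (0 : ℝ)..2 * Real.pi, m (B.y θ + t • ev φ) * |Real.sin (φ - θ)| := by
    rw [intervalIntegral.integral_of_le Real.two_pi_pos.le]
    refine setIntegral_congr_fun measurableSet_Ioc (fun θ hθ => ?_)
    have h1 : ∫ x in S, F x θ = B.ρ θ * ∫ x in S, m x * B.Kf g' x θ := by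
      rw [← integral_const_mul]
      refine integral_congr_ae (Filter.Eventually.of_forall fun x => ?_)
      simp only [hF]
      ring
    have h2 : ∫ x in S, m x * B.Kf g' x θ = ∫ x, m x * B.Kf g' x θ :=
      setIntegral_eq_integral_of_forall_compl_eq_zero (hv2 θ ⟨hθ.1.le, hθ.2⟩)
    show ∫ x in S, F x θ = _
    rw [h1, h2, B.inner_polar hm hg hg' hz θ]
  rw [step1, ← step4, ← step3]
  exact step2

end Body

end Pool.Agent.RC
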