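import Pool.Agent.H.MP_1b807b_an.C.Outer
import Pool.Agent.H.MP_1b807b_an.C.Far
import Pool.Agent.H.MP_1b807b_an.C.Ident
import Pool.Agent.H.MP_1b807b_an.C.TV

/-! MP_1b807b_an, convex planar domains, module Sbt: the signed inner tube bound -/

set_option autoImplicit false

namespace Pool.Agent.RC

open MeasureTheory Metric Set
open Pool.Agent.RG
open scoped RealInnerProductSpace ENNReal

namespace Body
variable (B : Body)

theorem sbt_continuous_depth : Continuous B.depth := by
  have h : LipschitzWith 1 B.depth := LipschitzWith.of_dist_le_mul fun x x' => by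
    rw [Real.dist_eq, dist_eq_norm]
    simpa using B.depth_lip x x'
  exact h.continuous

theorem sbt_bdd : ∃ R : ℝ, ∀ x : E 2, |B.depth x| ≤ 1 → ‖x‖ ≤ R := by
  obtain ⟨R, hR⟩ := (isCompact_Icc (a := (0 : ℝ)) (b := 2 * Real.pi)).exists_bound_of_continuousOn
    B.continuous_y.continuousOn
  refine ⟨R + 1, fun x hx => ?_⟩
  obtain ⟨θ, hθ, -, h2⟩ := B.exists_foot x
  have h3 : x = B.y θ - B.depth x • ev θ := by rw [h2]; abel
  calc ‖x‖ = ‖B.y θ - B.depth x • ev θ‖ := by rw [← h3]
    _ ≤ ‖B.y θ‖ + ‖B.depth x • ev θ‖ := norm_sub_le _ _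
    _ ≤ R + 1 := by
        rw [norm_smul, norm_ev, mul_one, Real.norm_eq_abs]
        exact add_le_add (hR θ ⟨hθ.1, hθ.2.le⟩) hx

theorem sbt_integrable {m : E 2 → ℝ} (hm : Continuous m) {g : ℝ → ℝ} (hg : Continuous g)
    (hz : ∀ t, 1 ≤ t → g t = 0) : Integrable fun x => m x * g |B.depth x| := by
  obtain ⟨R, hR⟩ := B.sbt_bdd
  refine Continuous.integrable_of_hasCompactSupport
    (hm.mul (hg.comp (continuous_abs.comp B.sbt_continuous_depth))) ?_
  refine HasCompactSupport.intro (isCompact_closedBall (0 : E 2) R) fun x hx => ?_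
  have : ¬ |B.depth x| ≤ 1 := fun h => hx (by simpa using hR x h)
  rw [hz _ (le_of_not_ge this), mul_zero]

theorem sbt_sp_out (θ₀ θ t : ℝ) :
    sp (B.y θ + t • ev θ) θ₀ = sp (B.y θ) θ₀ + t * Real.cos (θ - θ₀) := by
  rw [sp_add, sp_smul, sp_ev]

theorem sbt_outer {μ : ℝ → ℝ} (hμ : Continuous μ) (hμ0 : ∀ s, 0 ≤ μ s) (θ₀ : ℝ)
    {g : ℝ → ℝ} (hg : Continuous g) (hg0 : ∀ t, 0 ≤ t → 0 ≤ g t) (hz : ∀ t, 1 ≤ t → g t = 0) :
    ∫ x in {x | B.depth x < 0}, μ (sp x θ₀) * g |B.depth x| =
      ∫ t in (0 : ℝ)..1, g t * ∫ θ in (0 : ℝ)..2 * Real.pi,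
        μ (sp (B.y θ) θ₀ + t * Real.cos (θ - θ₀)) * (B.ρ θ + t) := by
  have hsp : Continuous fun x : E 2 => sp x θ₀ :=
    continuous_sp.comp (continuous_id.prodMk continuous_const)
  have hint : Integrable fun x : E 2 => μ (sp x θ₀) * g |B.depth x| :=
    B.sbt_integrable (hμ.comp hsp) hg hz
  have hd := B.sbt_continuous_depth
  set G : ℝ × ℝ → ℝ := fun z =>
    μ (sp (B.y z.1) θ₀ + z.2 * Real.cos (z.1 - θ₀)) * g z.2 * (B.ρ z.1 + z.2) with hG
  have hGc : Continuous G := by
    have h1 : Continuous fun z : ℝ × ℝ => sp (B.y z.1) θ₀ := hsp.comp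
      (B.continuous_y.comp continuous_fst)
    exact ((hμ.comp (h1.add (continuous_snd.mul (Real.continuous_cos.comp
      (continuous_fst.sub continuous_const))))).mul (hg.comp continuous_snd)).mul
      ((B.continuous_ρ.comp continuous_fst).add continuous_snd)
  have hG1 : IntegrableOn G (Ioc 0 (2 * Real.pi) ×ˢ Ioc 0 1) :=
    (hGc.continuousOn.integrableOn_compact (isCompact_Icc.prod isCompact_Icc)).mono_set
      (Set.prod_mono Ioc_subset_Icc_self Ioc_subset_Icc_self)
  have hms : MeasurableSet (Ioc (0 : ℝ) (2 * Real.pi) ×ˢ Ioi (0 : ℝ)) :=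
    measurableSet_Ioc.prod measurableSet_Ioi
  have hvan : ∀ z ∈ (Ioc (0 : ℝ) (2 * Real.pi) ×ˢ Ioi (0 : ℝ)) \
      (Ioc (0 : ℝ) (2 * Real.pi) ×ˢ Ioc (0 : ℝ) 1), G z = 0 := by
    rintro z ⟨⟨h1, h2⟩, h3⟩
    have : 1 ≤ z.2 := by
      by_contra h
      exact h3 ⟨h1, h2, (not_le.1 h).le⟩
    simp only [hG]
    rw [hz _ this]
    ring
  have hG2 : IntegrableOn G (Ioc 0 (2 * Real.pi) ×ˢ Ioi 0) :=
    IntegrableOn.of_forall_diff_eq_zero hG1 hms hvan
  have h1 := B.outer (fun x => ENNReal.ofReal (μ (sp x θ₀) * g |B.depth x|))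
    (((hμ.comp hsp).mul (hg.comp (continuous_abs.comp hd))).measurable.ennreal_ofReal)
  have h2 : ∫⁻ z : ℝ × ℝ in Ioc 0 (2 * Real.pi) ×ˢ Ioi 0,
      ENNReal.ofReal (μ (sp (B.y z.1 + z.2 • ev z.1) θ₀) * g |B.depth (B.y z.1 + z.2 • ev z.1)|) *
        ENNReal.ofReal (B.ρ z.1 + z.2) =
      ∫⁻ z : ℝ × ℝ in Ioc 0 (2 * Real.pi) ×ˢ Ioi 0, ENNReal.ofReal (G z) := by
    refine setLIntegral_congr_fun hms fun z hz' => ?_
    have hz2 : (0 : ℝ) < z.2 := hz'.2
    simp only [hG]
    rw [B.depth_out z.1 hz2.le, abs_neg, abs_of_pos hz2, sbt_sp_out,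
      ENNReal.ofReal_mul (mul_nonneg (hμ0 _) (hg0 _ hz2.le))]
  rw [h2] at h1
  have h3 : 0 ≤ᵐ[volume.restrict {x | B.depth x < 0}] fun x => μ (sp x θ₀) * g |B.depth x| :=
    Filter.Eventually.of_forall fun x => mul_nonneg (hμ0 _) (hg0 _ (abs_nonneg _))
  have h4 : 0 ≤ᵐ[volume.restrict (Ioc (0 : ℝ) (2 * Real.pi) ×ˢ Ioi (0 : ℝ))] G := by
    refine (ae_restrict_iff' hms).2 (Filter.Eventually.of_forall fun z hz' => ?_)
    have hz2 : (0 : ℝ) < z.2 := hz'.2
    exact mul_nonneg (mul_nonneg (hμ0 _) (hg0 _ hz2.le)) (add_nonneg (B.ρ_pos _).le hz2.le)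
  rw [← ofReal_integral_eq_lintegral_ofReal hint.integrableOn h3,
    ← ofReal_integral_eq_lintegral_ofReal hG2 h4] at h1
  have h5 := (ENNReal.ofReal_eq_ofReal_iff (integral_nonneg_of_ae h3)
    (integral_nonneg_of_ae h4)).1 h1
  rw [h5, setIntegral_eq_of_subset_of_forall_diff_eq_zero hms
    (Set.prod_mono le_rfl Ioc_subset_Ioi_self) hvan, Measure.volume_eq_prod,
    setIntegral_prod _ (by rw [← Measure.volume_eq_prod]; exact hG1)]
  rw [← intervalIntegral.integral_of_le (by positivity)]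
  simp_rw [← intervalIntegral.integral_of_le (zero_le_one' ℝ)]
  rw [MeasureTheory.intervalIntegral_intervalIntegral_swap]
  · refine intervalIntegral.integral_congr fun t _ => ?_
    simp only [hG]
    rw [← intervalIntegral.integral_const_mul]
    refine intervalIntegral.integral_congr fun θ _ => ?_
    ring
  · have : (Function.uncurry fun x y => G (x, y)) = G := by
      ext z; rfl
    rw [this, uIoc_of_le (by positivity : (0 : ℝ) ≤ 2 * Real.pi), uIoc_of_le (zero_le_one' ℝ)]
    exact hG1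

theorem sbt_core (hA : B.area = Real.pi) {μ : ℝ → ℝ} (hμ : Continuous μ) (hμ0 : ∀ s, 0 ≤ μ s)
    (θ₀ : ℝ) {g g' : ℝ → ℝ} (hg : ∀ t, HasDerivAt g (g' t) t) (hg' : Continuous g')
    (hneg : ∀ t, 0 ≤ t → g' t ≤ 0) (hz : ∀ t, 1 ≤ t → g t = 0) :
    ∫ x in B.K, μ (sp x θ₀) * g (B.depth x) ≤
      ∫ t in (0 : ℝ)..1, g t * ∫ θ in (0 : ℝ)..2 * Real.pi,
        μ (sp (B.y θ) θ₀ - t * Real.cos (θ - θ₀)) * (B.ρ θ - t) := by
  have hsp : Continuous fun x : E 2 => sp x θ₀ :=
    continuous_sp.comp (continuous_id.prodMk continuous_const)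
  have hgc : Continuous g := continuous_iff_continuousAt.2 fun t => (hg t).continuousAt
  have hd := B.sbt_continuous_depth
  have hanti : AntitoneOn g (Ici 0) := by
    refine antitoneOn_of_deriv_nonpos (convex_Ici 0) hgc.continuousOn
      (fun t _ => (hg t).differentiableAt.differentiableWithinAt) fun t ht => ?_
    rw [interior_Ici] at ht
    rw [(hg t).deriv]
    exact hneg t ht.le
  have hg0 : ∀ t, 0 ≤ t → 0 ≤ g t := fun t ht => by
    rcases le_total 1 t with h | h
    · rw [hz t h]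
    · have := hanti (mem_Ici.2 ht) (mem_Ici.2 zero_le_one) h
      rwa [hz 1 le_rfl] at this
  -- the two tubes
  set Jm : ℝ → ℝ := fun t => ∫ θ in (0 : ℝ)..2 * Real.pi,
        μ (sp (B.y θ) θ₀ - t * Real.cos (θ - θ₀)) * (B.ρ θ - t) with hJm
  set Jp : ℝ → ℝ := fun t => ∫ θ in (0 : ℝ)..2 * Real.pi,
        μ (sp (B.y θ) θ₀ + t * Real.cos (θ - θ₀)) * (B.ρ θ + t) with hJp
  have c1 : Continuous fun z : ℝ × ℝ => sp (B.y z.2) θ₀ := hsp.comp
      (B.continuous_y.comp continuous_snd)
  have c2 : Continuous fun z : ℝ × ℝ => z.1 * Real.cos (z.2 - θ₀) :=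
    continuous_fst.mul (Real.continuous_cos.comp (continuous_snd.sub continuous_const))
  have c3 : Continuous fun z : ℝ × ℝ => B.ρ z.2 := B.continuous_ρ.comp continuous_snd
  have hFm : Continuous (Function.uncurry fun t θ =>
      μ (sp (B.y θ) θ₀ - t * Real.cos (θ - θ₀)) * (B.ρ θ - t)) :=
    (hμ.comp (c1.sub c2)).mul (c3.sub continuous_fst)
  have hFp : Continuous (Function.uncurry fun t θ =>
      μ (sp (B.y θ) θ₀ + t * Real.cos (θ - θ₀)) * (B.ρ θ + t)) :=
    (hμ.comp (c1.add c2)).mul (c3.add continuous_fst)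
  have cJm : Continuous Jm :=
    intervalIntegral.continuous_parametric_intervalIntegral_of_continuous' hFm _ _
  have cJp : Continuous Jp :=
    intervalIntegral.continuous_parametric_intervalIntegral_of_continuous' hFp _ _
  have hsum : ∀ t, ∫ θ in (0 : ℝ)..2 * Real.pi,
        (μ (sp (B.y θ) θ₀ - t * Real.cos (θ - θ₀)) * (B.ρ θ - t) +
          μ (sp (B.y θ) θ₀ + t * Real.cos (θ - θ₀)) * (B.ρ θ + t)) = Jm t + Jp t := fun t =>
    intervalIntegral.integral_add
      (Continuous.intervalIntegrable (hFm.comp (continuous_const.prodMk continuous_id)) _ _)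
      (Continuous.intervalIntegrable (hFp.comp (continuous_const.prodMk continuous_id)) _ _)
  -- the total variation bound
  have htv := B.tv_bound hA.ge (hμ.comp hsp) (fun x => hμ0 _) hg hg' hneg hz
  simp only [Function.comp_def] at htv
  set Φ : ℝ → ℝ → ℝ := fun θ t => ∫ φ in (0 : ℝ)..2 * Real.pi,
    μ (sp (B.y θ + t • ev φ) θ₀) * |Real.sin (φ - θ)| with hΦ
  have cΦ : Continuous fun z : ℝ × ℝ => Φ z.1 z.2 := by
    refine intervalIntegral.continuous_parametric_intervalIntegral_of_continuous'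
      (f := fun (z : ℝ × ℝ) (φ : ℝ) => μ (sp (B.y z.1 + z.2 • ev φ) θ₀) * |Real.sin (φ - z.1)|)
      ?_ _ _
    have d1 : Continuous fun w : (ℝ × ℝ) × ℝ => B.y w.1.1 + w.1.2 • ev w.2 :=
      (B.continuous_y.comp (continuous_fst.comp continuous_fst)).add
        ((continuous_snd.comp continuous_fst).smul (continuous_ev.comp continuous_snd))
    exact (hμ.comp (hsp.comp d1)).mul (continuous_abs.comp (Real.continuous_sin.comp
      (continuous_snd.sub (continuous_fst.comp continuous_fst))))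
  have hswap : (1 / 2) * ∫ θ in (0 : ℝ)..2 * Real.pi, B.ρ θ * ∫ t in (0 : ℝ)..1,
      (-g' t) * t * Φ θ t = ∫ t in (0 : ℝ)..1, (-g' t) * ∫ τ in (0 : ℝ)..t, (Jm τ + Jp τ) := by
    have e1 : ∀ θ, B.ρ θ * ∫ t in (0 : ℝ)..1, (-g' t) * t * Φ θ t =
        ∫ t in (0 : ℝ)..1, B.ρ θ * ((-g' t) * t * Φ θ t) := fun θ => by
      rw [← intervalIntegral.integral_const_mul]
    simp_rw [e1]
    rw [MeasureTheory.intervalIntegral_intervalIntegral_swap, ← intervalIntegral.integral_const_mul]
    · refine intervalIntegral.integral_congr fun t ht => ?_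
      rw [uIcc_of_le zero_le_one] at ht
      have e2 := B.ident hμ θ₀ ht.1
      simp_rw [hsum] at e2
      rw [← e2, ← intervalIntegral.integral_const_mul, ← intervalIntegral.integral_const_mul,
        ← intervalIntegral.integral_const_mul]
      refine intervalIntegral.integral_congr fun θ _ => ?_
      simp only [hΦ]
      ring
    · have : Continuous (Function.uncurry fun θ t => B.ρ θ * ((-g' t) * t * Φ θ t)) :=
        (B.continuous_ρ.comp continuous_fst).mul
          ((((hg'.comp continuous_snd).neg).mul continuous_snd).mul cΦ)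
      refine (this.continuousOn.integrableOn_compact
        (isCompact_uIcc.prod isCompact_uIcc)).mono_set
        (Set.prod_mono uIoc_subset_uIcc uIoc_subset_uIcc)
  rw [hswap] at htv
  -- integration by parts
  have cJ : Continuous fun τ => Jm τ + Jp τ := cJm.add cJp
  have hparts := intervalIntegral.integral_mul_deriv_eq_deriv_mul (a := (0 : ℝ)) (b := 1)
    (u := g) (u' := g') (v := fun t => ∫ τ in (0 : ℝ)..t, (Jm τ + Jp τ))
    (v' := fun τ => Jm τ + Jp τ) (fun t _ => hg t)
    (fun t _ => (cJ.integral_hasStrictDerivAt 0 t).hasDerivAt)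
    (hg'.intervalIntegrable _ _) (cJ.intervalIntegrable _ _)
  rw [hz 1 le_rfl, intervalIntegral.integral_same, zero_mul, mul_zero, sub_zero, zero_sub] at hparts
  have hneg' : ∫ t in (0 : ℝ)..1, (-g' t) * ∫ τ in (0 : ℝ)..t, (Jm τ + Jp τ) =
      ∫ t in (0 : ℝ)..1, g t * (Jm t + Jp t) := by
    rw [hparts, ← intervalIntegral.integral_neg]
    refine intervalIntegral.integral_congr fun t _ => ?_
    ring
  rw [hneg'] at htv
  -- splitting
  have hint := B.sbt_integrable (hμ.comp hsp) hgc hz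
  simp only [Function.comp_def] at hint
  have hK : MeasurableSet B.K := (isClosed_Ici.preimage hd).measurableSet
  have hsplit := integral_add_compl hK hint
  have hKc : B.Kᶜ = {x | B.depth x < 0} := by
    ext x
    simp [Body.K]
  rw [hKc, B.sbt_outer hμ hμ0 θ₀ hgc hg0 hz] at hsplit
  have hin : ∫ x in B.K, μ (sp x θ₀) * g |B.depth x| = ∫ x in B.K, μ (sp x θ₀) * g (B.depth x) := by
    refine setIntegral_congr_fun hK fun x hx => ?_
    rw [abs_of_nonneg hx]
  rw [hin] at hsplit
  have hfin : ∫ t in (0 : ℝ)..1, g t * (Jm t + Jp t) =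
      (∫ t in (0 : ℝ)..1, g t * Jm t) + ∫ t in (0 : ℝ)..1, g t * Jp t := by
    have i1 : IntervalIntegrable (fun t => g t * Jm t) volume 0 1 :=
      (hgc.mul cJm).intervalIntegrable _ _
    have i2 : IntervalIntegrable (fun t => g t * Jp t) volume 0 1 :=
      (hgc.mul cJp).intervalIntegrable _ _
    rw [← intervalIntegral.integral_add i1 i2]
    refine intervalIntegral.integral_congr fun t _ => ?_
    ring
  rw [hfin] at htv
  linarith

theorem sbt (hA : B.area = Real.pi) {μ : ℝ → ℝ} (hμ : Continuous μ) (hμ0 : ∀ s, 0 ≤ μ s) (θ₀ : ℝ)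
    {g g' : ℝ → ℝ} (hg : ∀ t, HasDerivAt g (g' t) t) (hg' : Continuous g')
    (hneg : ∀ t ∈ Icc (0 : ℝ) 1, g' t ≤ 0) (h0 : ∀ t ∈ Icc (0 : ℝ) 1, 0 ≤ g t) :
    ∫ x in B.K, μ (sp x θ₀) * g (B.depth x) ≤
      ∫ t in (0 : ℝ)..1, g t * ∫ θ in (0 : ℝ)..2 * Real.pi,
        μ (sp (B.y θ) θ₀ - t * Real.cos (θ - θ₀)) * (B.ρ θ - t) := by
  have hsp : Continuous fun x : E 2 => sp x θ₀ :=
    continuous_sp.comp (continuous_id.prodMk continuous_const)
  have hgc : Continuous g := continuous_iff_continuousAt.2 fun t => (hg t).continuousAt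
  have hd := B.sbt_continuous_depth
  set Jm : ℝ → ℝ := fun t => ∫ θ in (0 : ℝ)..2 * Real.pi,
        μ (sp (B.y θ) θ₀ - t * Real.cos (θ - θ₀)) * (B.ρ θ - t) with hJm
  have c1 : Continuous fun z : ℝ × ℝ => sp (B.y z.2) θ₀ := hsp.comp
      (B.continuous_y.comp continuous_snd)
  have c2 : Continuous fun z : ℝ × ℝ => z.1 * Real.cos (z.2 - θ₀) :=
    continuous_fst.mul (Real.continuous_cos.comp (continuous_snd.sub continuous_const))
  have c3 : Continuous fun z : ℝ × ℝ => B.ρ z.2 := B.continuous_ρ.comp continuous_snd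
  have hFm : Continuous (Function.uncurry fun t θ =>
      μ (sp (B.y θ) θ₀ - t * Real.cos (θ - θ₀)) * (B.ρ θ - t)) :=
    (hμ.comp (c1.sub c2)).mul (c3.sub continuous_fst)
  have cJm : Continuous Jm :=
    intervalIntegral.continuous_parametric_intervalIntegral_of_continuous' hFm _ _
  -- the cut off
  set χ : ℕ → ℝ → ℝ := fun n t => Real.smoothTransition (((n : ℝ) + 1) * (1 - t)) with hχ
  have hst : ∀ x, HasDerivAt Real.smoothTransition (deriv Real.smoothTransition x) x := fun x =>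
    ((Real.smoothTransition.contDiff (n := 1)).differentiable (by norm_num) x).hasDerivAt
  have hstc : Continuous (deriv Real.smoothTransition) :=
    (Real.smoothTransition.contDiff (n := 1)).continuous_deriv (by norm_num)
  have hχd : ∀ n t, HasDerivAt (χ n)
      (deriv Real.smoothTransition (((n : ℝ) + 1) * (1 - t)) * (-((n : ℝ) + 1))) t := by
    intro n t
    have h1 : HasDerivAt (fun t : ℝ => ((n : ℝ) + 1) * (1 - t)) (-((n : ℝ) + 1)) t := by
      have := ((hasDerivAt_id t).const_sub 1).const_mul ((n : ℝ) + 1)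
      simpa using this
    exact (hst _).comp t h1
  have hst0 : ∀ x, 0 ≤ deriv Real.smoothTransition x := fun x =>
    Real.smoothTransition.monotone.deriv_nonneg
  have hst1 : ∀ x ≤ 0, deriv Real.smoothTransition x = 0 := by
    intro x hx
    have : IsLocalMin Real.smoothTransition x := by
      refine Filter.Eventually.of_forall fun y => ?_
      rw [Real.smoothTransition.zero_of_nonpos hx]
      exact Real.smoothTransition.nonneg y
    exact this.deriv_eq_zero
  have hχ0 : ∀ n t, 0 ≤ χ n t := fun n t => Real.smoothTransition.nonneg _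
  have hχ1 : ∀ n t, χ n t ≤ 1 := fun n t => Real.smoothTransition.le_one _
  have hχz : ∀ n t, 1 ≤ t → χ n t = 0 := fun n t ht =>
    Real.smoothTransition.zero_of_nonpos (by nlinarith [n.cast_nonneg (α := ℝ)])
  have hχc : ∀ n, Continuous (χ n) := fun n =>
    Real.smoothTransition.continuous.comp (continuous_const.mul (continuous_const.sub continuous_id))
  have hχt : ∀ t < 1, Filter.Tendsto (fun n => χ n t) Filter.atTop (nhds 1) := by
    intro t ht
    refine tendsto_const_nhds.congr' ?_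
    obtain ⟨N, hN⟩ := exists_nat_gt (1 / (1 - t))
    filter_upwards [Filter.eventually_ge_atTop N] with n hn
    refine (Real.smoothTransition.one_of_one_le ?_).symm
    have h1 : 0 < 1 - t := by linarith
    have h2 : 1 / (1 - t) ≤ (n : ℝ) + 1 := by
      have : (N : ℝ) ≤ n := by exact_mod_cast hn
      linarith
    rw [div_le_iff₀ h1] at h2
    exact h2
  have key : ∀ n : ℕ, ∫ x in B.K, μ (sp x θ₀) * (g (B.depth x) * χ n (B.depth x)) ≤
      ∫ t in (0 : ℝ)..1, (g t * χ n t) * Jm t := by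
    intro n
    refine B.sbt_core hA hμ hμ0 θ₀ (g := fun t => g t * χ n t) (fun t => (hg t).mul (hχd n t))
      ?_ ?_ ?_
    · exact (hg'.mul (hχc n)).add (hgc.mul ((hstc.comp (continuous_const.mul
        (continuous_const.sub continuous_id))).mul continuous_const))
    · intro t ht
      have hn : (0 : ℝ) < (n : ℝ) + 1 := by positivity
      rcases le_total t 1 with h | h
      · have h1 := hneg t ⟨ht, h⟩
        have h2 := h0 t ⟨ht, h⟩
        have h3 : g' t * χ n t ≤ 0 := mul_nonpos_of_nonpos_of_nonneg h1 (hχ0 n t)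
        have h4 : 0 ≤ g t * (deriv Real.smoothTransition (((n : ℝ) + 1) * (1 - t)) *
          ((n : ℝ) + 1)) := mul_nonneg h2 (mul_nonneg (hst0 _) hn.le)
        nlinarith
      · rw [hχz n t h, hst1 _ (by nlinarith)]
        simp
    · intro t ht
      rw [hχz n t ht, mul_zero]
  -- limits
  have hK : MeasurableSet B.K := (isClosed_Ici.preimage hd).measurableSet
  have L1 : Filter.Tendsto (fun n : ℕ => ∫ x in B.K, μ (sp x θ₀) *
      (g (B.depth x) * χ n (B.depth x))) Filter.atTop
      (nhds (∫ x in B.K, μ (sp x θ₀) * g (B.depth x))) := by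
    have hc : Continuous fun x : E 2 => μ (sp x θ₀) * g (B.depth x) :=
      (hμ.comp hsp).mul (hgc.comp hd)
    refine tendsto_integral_of_dominated_convergence
      (fun x => ‖μ (sp x θ₀) * g (B.depth x)‖) (fun n => ?_) ?_ (fun n => ?_) ?_
    · exact ((hμ.comp hsp).mul ((hgc.comp hd).mul ((hχc n).comp hd))).aestronglyMeasurable
    · exact (hc.continuousOn.integrableOn_compact B.isCompact_K).norm
    · refine Filter.Eventually.of_forall fun x => ?_
      rw [← mul_assoc, norm_mul _ (χ n (B.depth x)), Real.norm_of_nonneg (hχ0 n _)]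
      exact mul_le_of_le_one_right (norm_nonneg _) (hχ1 n _)
    · have hn : ∀ᵐ x ∂(volume.restrict B.K), B.depth x < 1 := by
        refine ae_restrict_of_ae ?_
        rw [ae_iff]
        simpa using B.deep_null hA
      filter_upwards [hn] with x hx
      have := ((hχt _ hx).const_mul (g (B.depth x))).const_mul (μ (sp x θ₀))
      simpa using this
  have L2 : Filter.Tendsto (fun n : ℕ => ∫ t in (0 : ℝ)..1, (g t * χ n t) * Jm t) Filter.atTop
      (nhds (∫ t in (0 : ℝ)..1, g t * Jm t)) := by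
    refine intervalIntegral.tendsto_integral_filter_of_dominated_convergence
      (fun t => ‖g t * Jm t‖) ?_ ?_ ?_ ?_
    · exact Filter.Eventually.of_forall fun n =>
        ((hgc.mul (hχc n)).mul cJm).aestronglyMeasurable
    · refine Filter.Eventually.of_forall fun n => Filter.Eventually.of_forall fun t _ => ?_
      have : g t * χ n t * Jm t = g t * Jm t * χ n t := by ring
      rw [this, norm_mul _ (χ n t), Real.norm_of_nonneg (hχ0 n _)]
      exact mul_le_of_le_one_right (norm_nonneg _) (hχ1 n _)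
    · exact (hgc.mul cJm).norm.intervalIntegrable _ _
    · have hn : ∀ᵐ t : ℝ, t ≠ 1 := by
        rw [ae_iff]
        simp
      filter_upwards [hn] with t ht ht'
      rw [uIoc_of_le zero_le_one] at ht'
      have h1 : t < 1 := lt_of_le_of_ne ht'.2 ht
      have := ((hχt _ h1).const_mul (g t)).mul_const (Jm t)
      simpa using this
  exact le_of_tendsto_of_tendsto' L1 L2 key

end Body
end Pool.Agent.RC
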