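import Pool.Agent.H.MP_1b807b_an.C.Depth
import Pool.Agent.H.MP_1b807b_an.C.Sbt
import Pool.Agent.H.MP_1b807b_an.C.Far

/-! MP_1b807b_an, convex planar domains, module SbtSq: comparison of the integral of a decreasing
function of the depth with the integral over the collar, for continuous functions and for the
weights `1` and `|x - o|²` -/

set_option autoImplicit false

namespace Pool.Agent.RC

open MeasureTheory Metric Set
open Pool.Agent.RG
open scoped RealInnerProductSpace ENNReal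

/-- the function `g` on `[0,1]`, constant outside -/
noncomputable def clampf (g : ℝ → ℝ) (t : ℝ) : ℝ := g (max 0 (min 1 t))

theorem clamp_mem (t : ℝ) : max 0 (min 1 t) ∈ Icc (0 : ℝ) 1 :=
  ⟨le_max_left _ _, max_le zero_le_one (min_le_left _ _)⟩

theorem clampf_eq (g : ℝ → ℝ) {t : ℝ} (ht : t ∈ Icc (0 : ℝ) 1) : clampf g t = g t := by
  unfold clampf
  rw [min_eq_right ht.2, max_eq_right ht.1]

theorem continuous_clampf {g : ℝ → ℝ} (hgc : ContinuousOn g (Icc 0 1)) : Continuous (clampf g) :=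
  hgc.comp_continuous (by fun_prop) clamp_mem

theorem antitone_clampf {g : ℝ → ℝ} (hg : AntitoneOn g (Icc 0 1)) : Antitone (clampf g) :=
  fun a b h => hg (clamp_mem a) (clamp_mem b) (max_le_max le_rfl (min_le_min le_rfl h))

theorem clampf_nonneg {g : ℝ → ℝ} (h0 : ∀ t ∈ Icc (0 : ℝ) 1, 0 ≤ g t) (t : ℝ) :
    0 ≤ clampf g t := h0 _ (clamp_mem t)

theorem clamp_lip (s t : ℝ) : |max 0 (min 1 s) - max 0 (min 1 t)| ≤ |s - t| := by
  rw [abs_le]
  have h1 := neg_abs_le (s - t)
  have h2 := le_abs_self (s - t)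
  have h3 := abs_nonneg (s - t)
  constructor <;>
  · rcases max_cases 0 (min 1 s) with ⟨e1, _⟩ | ⟨e1, _⟩ <;>
    rcases max_cases 0 (min 1 t) with ⟨e2, _⟩ | ⟨e2, _⟩ <;>
    rcases min_cases 1 s with ⟨e3, _⟩ | ⟨e3, _⟩ <;>
    rcases min_cases 1 t with ⟨e4, _⟩ | ⟨e4, _⟩ <;>
    rw [e1, e2] <;> linarith

theorem clampf_uniform {g : ℝ → ℝ} (hgc : ContinuousOn g (Icc 0 1)) :
    ∀ δ > 0, ∃ ε > 0, ∀ s t, |s - t| ≤ ε → |clampf g s - clampf g t| ≤ δ := by
  intro δ hδ
  have h1 := isCompact_Icc.uniformContinuousOn_of_continuous hgc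
  rw [Metric.uniformContinuousOn_iff] at h1
  obtain ⟨ε, hε, h2⟩ := h1 δ hδ
  refine ⟨ε / 2, by positivity, fun s t hst => ?_⟩
  have h3 := h2 _ (clamp_mem s) _ (clamp_mem t) (by
    rw [Real.dist_eq]
    exact lt_of_le_of_lt ((clamp_lip s t).trans hst) (by linarith))
  rw [Real.dist_eq] at h3
  exact h3.le

namespace Body
variable (B : Body)

theorem sq_continuous_sp (θ₀ : ℝ) : Continuous fun x : E 2 => sp x θ₀ :=
  continuous_sp.comp (continuous_id.prodMk continuous_const)

theorem sq_continuous_inner {μ : ℝ → ℝ} (hμ : Continuous μ) (θ₀ : ℝ) :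
    Continuous fun t : ℝ => ∫ θ in (0 : ℝ)..2 * Real.pi,
      μ (sp (B.y θ) θ₀ - t * Real.cos (θ - θ₀)) * (B.ρ θ - t) := by
  apply intervalIntegral.continuous_parametric_intervalIntegral_of_continuous'
  have h1 : Continuous fun q : ℝ × ℝ => sp (B.y q.2) θ₀ :=
    (sq_continuous_sp θ₀).comp (B.continuous_y.comp continuous_snd)
  have h2 : Continuous fun q : ℝ × ℝ => B.ρ q.2 := B.continuous_ρ.comp continuous_snd
  have h3 : Continuous fun q : ℝ × ℝ => q.1 * Real.cos (q.2 - θ₀) := by fun_prop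
  exact (hμ.comp (h1.sub h3)).mul (h2.sub continuous_fst)

theorem sbt_cont (hA : B.area = Real.pi) {μ : ℝ → ℝ} (hμ : Continuous μ) (hμ0 : ∀ s, 0 ≤ μ s)
    (θ₀ : ℝ) {G : ℝ → ℝ} (hG : Continuous G) (hanti : Antitone G) (hpos : ∀ t, 0 ≤ G t)
    (huc : ∀ δ > 0, ∃ ε > 0, ∀ s t, |s - t| ≤ ε → |G s - G t| ≤ δ) :
    ∫ x in B.K, μ (sp x θ₀) * G (B.depth x) ≤
      ∫ t in (0 : ℝ)..1, G t * ∫ θ in (0 : ℝ)..2 * Real.pi,
        μ (sp (B.y θ) θ₀ - t * Real.cos (θ - θ₀)) * (B.ρ θ - t) := by
  set I : ℝ → ℝ := fun t => ∫ θ in (0 : ℝ)..2 * Real.pi,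
    μ (sp (B.y θ) θ₀ - t * Real.cos (θ - θ₀)) * (B.ρ θ - t) with hI
  have hIc : Continuous I := B.sq_continuous_inner hμ θ₀
  have hspc := sq_continuous_sp θ₀
  have hdc := B.continuous_depth
  have hμi : IntegrableOn (fun x : E 2 => μ (sp x θ₀)) B.K :=
    (hμ.comp hspc).continuousOn.integrableOn_compact B.isCompact_K
  have hC1 : 0 ≤ ∫ x in B.K, μ (sp x θ₀) := integral_nonneg fun x => hμ0 _
  have hC2 : 0 ≤ ∫ t in (0 : ℝ)..1, |I t| :=
    intervalIntegral.integral_nonneg zero_le_one fun t _ => abs_nonneg _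
  have key : ∀ δ > 0, ∫ x in B.K, μ (sp x θ₀) * G (B.depth x) ≤ (∫ t in (0 : ℝ)..1, G t * I t) +
      δ * ((∫ x in B.K, μ (sp x θ₀)) + ∫ t in (0 : ℝ)..1, |I t|) := by
    intro δ hδ
    obtain ⟨ε, hε, hεδ⟩ := huc δ hδ
    set F : ℝ → ℝ := fun t => ∫ s in (0 : ℝ)..t, G s with hF
    have hFd : ∀ t, HasDerivAt F (G t) t := fun t =>
      intervalIntegral.integral_hasDerivAt_right (hG.intervalIntegrable _ _)
        (hG.stronglyMeasurableAtFilter _ _) hG.continuousAt
    set H : ℝ → ℝ := fun t => (F (t + ε) - F t) / ε with hH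
    have hHd : ∀ t, HasDerivAt H ((G (t + ε) - G t) / ε) t := by
      intro t
      exact (((hFd (t + ε)).comp_add_const t ε).sub (hFd t)).div_const ε
    have hHc : Continuous H := continuous_iff_continuousAt.2 fun t => (hHd t).continuousAt
    have hHint : ∀ t, F (t + ε) - F t = ∫ s in t..(t + ε), G s := by
      intro t
      rw [hF]
      exact intervalIntegral.integral_interval_sub_left (hG.intervalIntegrable _ _)
        (hG.intervalIntegrable _ _)
    have hH1 : ∀ t, H t ≤ G t := by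
      intro t
      have : ∫ s in t..(t + ε), G s ≤ ∫ s in t..(t + ε), G t := by
        apply intervalIntegral.integral_mono_on (by linarith) (hG.intervalIntegrable _ _)
          (continuous_const.intervalIntegrable _ _)
        intro s hs
        exact hanti hs.1
      rw [intervalIntegral.integral_const, smul_eq_mul] at this
      rw [hH]
      simp only
      rw [hHint, div_le_iff₀ hε]
      linarith
    have hH2 : ∀ t, G (t + ε) ≤ H t := by
      intro t
      have : ∫ s in t..(t + ε), G (t + ε) ≤ ∫ s in t..(t + ε), G s := by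
        apply intervalIntegral.integral_mono_on (by linarith)
          (continuous_const.intervalIntegrable _ _) (hG.intervalIntegrable _ _)
        intro s hs
        exact hanti hs.2
      rw [intervalIntegral.integral_const, smul_eq_mul] at this
      rw [hH]
      simp only
      rw [hHint, le_div_iff₀ hε]
      linarith
    have hH3 : ∀ t, G t ≤ H t + δ := by
      intro t
      have h1 := hεδ t (t + ε) (by rw [abs_le]; constructor <;> linarith)
      have h2 := le_abs_self (G t - G (t + ε))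
      have h3 := hH2 t
      linarith
    have hs := B.sbt hA hμ hμ0 θ₀ (g := H) (g' := fun t => (G (t + ε) - G t) / ε) hHd
      (by fun_prop)
      (fun t _ => div_nonpos_of_nonpos_of_nonneg
        (sub_nonpos.2 (hanti (by linarith))) hε.le)
      (fun t _ => (hpos _).trans (hH2 t))
    have hHi : IntegrableOn (fun x : E 2 => μ (sp x θ₀) * H (B.depth x)) B.K :=
      ((hμ.comp hspc).mul (hHc.comp hdc)).continuousOn.integrableOn_compact B.isCompact_K
    have hGi : IntegrableOn (fun x : E 2 => μ (sp x θ₀) * G (B.depth x)) B.K :=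
      ((hμ.comp hspc).mul (hG.comp hdc)).continuousOn.integrableOn_compact B.isCompact_K
    have hL : ∫ x in B.K, μ (sp x θ₀) * G (B.depth x) ≤
        (∫ x in B.K, μ (sp x θ₀) * H (B.depth x)) + δ * ∫ x in B.K, μ (sp x θ₀) := by
      rw [← integral_const_mul, ← integral_add hHi (hμi.const_mul δ)]
      apply integral_mono hGi (hHi.add (hμi.const_mul δ))
      intro x
      have h1 := mul_le_mul_of_nonneg_left (hH3 (B.depth x)) (hμ0 (sp x θ₀))
      simp only [Pi.add_apply]
      linarith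
    have hR : ∫ t in (0 : ℝ)..1, H t * I t ≤ (∫ t in (0 : ℝ)..1, G t * I t) +
        δ * ∫ t in (0 : ℝ)..1, |I t| := by
      have ii1 : IntervalIntegrable (fun t => G t * I t) volume 0 1 :=
        (hG.mul hIc).intervalIntegrable _ _
      have ii2 : IntervalIntegrable (fun t => δ * |I t|) volume 0 1 :=
        (continuous_const.mul hIc.abs).intervalIntegrable _ _
      rw [← intervalIntegral.integral_const_mul, ← intervalIntegral.integral_add ii1 ii2]
      apply intervalIntegral.integral_mono_on zero_le_one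
        ((hHc.mul hIc).intervalIntegrable _ _)
        (((hG.mul hIc).add (continuous_const.mul hIc.abs)).intervalIntegrable _ _)
      intro t _
      have h1 := hH1 t
      have h2 := hH3 t
      have h3 : (H t - G t) * I t ≤ δ * |I t| := by
        calc (H t - G t) * I t ≤ |(H t - G t) * I t| := le_abs_self _
          _ = |H t - G t| * |I t| := abs_mul _ _
          _ ≤ δ * |I t| := by
              apply mul_le_mul_of_nonneg_right _ (abs_nonneg _)
              rw [abs_le]
              constructor <;> linarith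
      simp only [Pi.add_apply, Pi.mul_apply]
      linarith
    have hs' : ∫ x in B.K, μ (sp x θ₀) * H (B.depth x) ≤ ∫ t in (0 : ℝ)..1, H t * I t := hs
    linarith
  apply le_of_forall_pos_le_add
  intro η hη
  set C : ℝ := (∫ x in B.K, μ (sp x θ₀)) + ∫ t in (0 : ℝ)..1, |I t| with hC
  have hC0 : 0 ≤ C := add_nonneg hC1 hC2
  have h1 := key (η / (C + 1)) (by positivity)
  have h2 : η / (C + 1) * C ≤ η := by
    rw [div_mul_eq_mul_div, div_le_iff₀ (by positivity)]
    nlinarith
  exact h1.trans (by linarith)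

theorem sq_transfer (hA : B.area = Real.pi) (g : ℝ → ℝ) (F : E 2 → ℝ) :
    ∫ x in B.K, F x * g (B.depth x) = ∫ x in B.K, F x * clampf g (B.depth x) := by
  apply integral_congr_ae
  have h1 : ∀ᵐ x : E 2, x ∉ {x : E 2 | 1 ≤ B.depth x} :=
    measure_eq_zero_iff_ae_notMem.1 (B.deep_null hA)
  filter_upwards [ae_restrict_of_ae h1, ae_restrict_mem B.isCompact_K.measurableSet] with x h2 h3
  simp only [not_le] at h2
  rw [clampf_eq g ⟨h3, h2.le⟩]

theorem sq_transfer' (g J : ℝ → ℝ) :
    ∫ t in (0 : ℝ)..1, clampf g t * J t = ∫ t in (0 : ℝ)..1, g t * J t := by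
  apply intervalIntegral.integral_congr
  intro t ht
  rw [uIcc_of_le zero_le_one] at ht
  simp only [clampf_eq g ht]

theorem sq_int_ρ_sub (t : ℝ) :
    ∫ θ in (0 : ℝ)..2 * Real.pi, (B.ρ θ - t) = B.len - 2 * Real.pi * t := by
  rw [intervalIntegral.integral_sub (B.continuous_ρ.intervalIntegrable _ _)
    (continuous_const.intervalIntegrable _ _), ← len_eq, intervalIntegral.integral_const]
  simp

theorem sbt_one (hA : B.area = Real.pi) {g : ℝ → ℝ} (hgc : ContinuousOn g (Icc 0 1))
    (hg : AntitoneOn g (Icc 0 1)) (h0 : ∀ t ∈ Icc (0 : ℝ) 1, 0 ≤ g t) :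
    ∫ x in B.K, g (B.depth x) ≤ ∫ t in (0 : ℝ)..1, g t * (B.len - 2 * Real.pi * t) := by
  have h1 := B.sbt_cont hA (μ := fun _ => 1) continuous_const (fun _ => zero_le_one) 0
    (continuous_clampf hgc) (antitone_clampf hg) (clampf_nonneg h0) (clampf_uniform hgc)
  have h2 := B.sq_transfer hA g (fun _ => 1)
  simp only [one_mul] at h1 h2
  rw [← h2] at h1
  refine h1.trans (le_of_eq ?_)
  rw [← sq_transfer' g]
  simp only [sq_int_ρ_sub]

theorem sq_inner_int (hA : B.area = Real.pi) (o : E 2) (t : ℝ) :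
    ∫ θ in (0 : ℝ)..2 * Real.pi, (‖B.y θ - o‖ ^ 2 - 2 * t * (B.shift o).h θ + t ^ 2) *
      (B.ρ θ - t) =
    B.Ml o - t * (B.Mw o + 4 * Real.pi) + 3 * t ^ 2 * B.len - 2 * Real.pi * t ^ 3 := by
  have hρ := B.continuous_ρ
  have hh := (B.shift o).continuous_h
  have hy : Continuous fun θ => ‖B.y θ - o‖ ^ 2 := ((B.continuous_y.sub continuous_const).norm).pow 2
  have e1 : ∫ θ in (0 : ℝ)..2 * Real.pi, (B.shift o).h θ * B.ρ θ = 2 * Real.pi := by
    have h1 : (B.shift o).area = (1 / 2) *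
      ∫ θ in (0 : ℝ)..2 * Real.pi, (B.shift o).h θ * (B.shift o).ρ θ := rfl
    simp only [shift_ρ] at h1
    rw [shift_area, hA] at h1
    linarith
  have e2 : ∫ θ in (0 : ℝ)..2 * Real.pi, (B.shift o).h θ = B.len := by
    rw [← B.shift_len o]
    rfl
  have e3 : ∫ θ in (0 : ℝ)..2 * Real.pi, B.ρ θ = B.len := B.len_eq.symm
  have e4 : ∫ θ in (0 : ℝ)..2 * Real.pi, ‖B.y θ - o‖ ^ 2 * B.ρ θ = B.Ml o := rfl
  have e5 : ∫ θ in (0 : ℝ)..2 * Real.pi, ‖B.y θ - o‖ ^ 2 = B.Mw o := rfl
  have hfun : (fun θ => (‖B.y θ - o‖ ^ 2 - 2 * t * (B.shift o).h θ + t ^ 2) * (B.ρ θ - t)) =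
      fun θ => (‖B.y θ - o‖ ^ 2 * B.ρ θ + (-t) * ‖B.y θ - o‖ ^ 2) +
        ((-2 * t) * ((B.shift o).h θ * B.ρ θ) + (2 * t ^ 2) * (B.shift o).h θ) +
        (t ^ 2 * B.ρ θ + (-t ^ 3)) := by
    funext θ
    ring
  rw [hfun]
  rw [intervalIntegral.integral_add, intervalIntegral.integral_add,
    intervalIntegral.integral_add, intervalIntegral.integral_add, intervalIntegral.integral_add,
    intervalIntegral.integral_const_mul, intervalIntegral.integral_const_mul,
    intervalIntegral.integral_const_mul, intervalIntegral.integral_const_mul,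
    intervalIntegral.integral_const, e1, e2, e3, e4, e5, smul_eq_mul]
  · ring
  all_goals exact Continuous.intervalIntegrable (by fun_prop) _ _

theorem sq_sum_eq (o : E 2) (t θ : ℝ) :
    (sp (B.y θ) 0 - t * Real.cos (θ - 0) - sp o 0) ^ 2 +
      (sp (B.y θ) (Real.pi / 2) - t * Real.cos (θ - Real.pi / 2) - sp o (Real.pi / 2)) ^ 2 =
    ‖B.y θ - o‖ ^ 2 - 2 * t * (B.shift o).h θ + t ^ 2 := by
  have h1 := norm_sq_eq (B.y θ - o) 0
  have h2 : (B.shift o).h θ = sp (B.y θ - o) θ := by
    rw [shift_h, sp_sub, sp_y]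
  rw [h1, h2, zero_add, sub_zero]
  rw [Real.cos_sub_pi_div_two]
  simp only [sp, Real.cos_zero, Real.sin_zero, Real.cos_pi_div_two, Real.sin_pi_div_two,
    PiLp.sub_apply]
  have h3 := Real.sin_sq_add_cos_sq θ
  linear_combination t ^ 2 * h3

theorem sbt_sq (hA : B.area = Real.pi) {g : ℝ → ℝ} (hgc : ContinuousOn g (Icc 0 1))
    (hg : AntitoneOn g (Icc 0 1)) (h0 : ∀ t ∈ Icc (0 : ℝ) 1, 0 ≤ g t) (o : E 2) :
    ∫ x in B.K, ‖x - o‖ ^ 2 * g (B.depth x) ≤ ∫ t in (0 : ℝ)..1, g t *
      (B.Ml o - t * (B.Mw o + 4 * Real.pi) + 3 * t ^ 2 * B.len - 2 * Real.pi * t ^ 3) := by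
  have hGc := continuous_clampf hgc
  have hc1 : Continuous fun s : ℝ => (s - sp o 0) ^ 2 := by fun_prop
  have hc2 : Continuous fun s : ℝ => (s - sp o (Real.pi / 2)) ^ 2 := by fun_prop
  have h1 := B.sbt_cont hA hc1 (fun s => sq_nonneg _) 0
    hGc (antitone_clampf hg) (clampf_nonneg h0) (clampf_uniform hgc)
  have h2 := B.sbt_cont hA hc2 (fun s => sq_nonneg _) (Real.pi / 2)
    hGc (antitone_clampf hg) (clampf_nonneg h0) (clampf_uniform hgc)
  rw [B.sq_transfer hA, ← sq_transfer']
  have hdc := B.continuous_depth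
  have i1 : IntegrableOn (fun x : E 2 => (sp x 0 - sp o 0) ^ 2 * clampf g (B.depth x)) B.K :=
    ((hc1.comp (sq_continuous_sp 0)).mul
      (hGc.comp hdc)).continuousOn.integrableOn_compact B.isCompact_K
  have i2 : IntegrableOn (fun x : E 2 => (sp x (Real.pi / 2) - sp o (Real.pi / 2)) ^ 2 *
      clampf g (B.depth x)) B.K :=
    ((hc2.comp (sq_continuous_sp (Real.pi / 2))).mul
      (hGc.comp hdc)).continuousOn.integrableOn_compact B.isCompact_K
  have e1 : ∫ x in B.K, ‖x - o‖ ^ 2 * clampf g (B.depth x) =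
      (∫ x in B.K, (sp x 0 - sp o 0) ^ 2 * clampf g (B.depth x)) +
      ∫ x in B.K, (sp x (Real.pi / 2) - sp o (Real.pi / 2)) ^ 2 * clampf g (B.depth x) := by
    rw [← integral_add i1 i2]
    apply integral_congr_ae
    apply Filter.Eventually.of_forall
    intro x
    have := norm_sq_eq (x - o) 0
    rw [sp_sub, sp_sub, zero_add] at this
    simp only [this]
    ring
  have hk1 := B.sq_continuous_inner hc1 0
  have hk2 := B.sq_continuous_inner hc2 (Real.pi / 2)
  rw [e1]
  refine (add_le_add h1 h2).trans (le_of_eq ?_)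
  have ii1 : IntervalIntegrable (fun t => clampf g t * ∫ θ in (0 : ℝ)..2 * Real.pi,
      (sp (B.y θ) 0 - t * Real.cos (θ - 0) - sp o 0) ^ 2 * (B.ρ θ - t)) volume 0 1 :=
    (hGc.mul hk1).intervalIntegrable _ _
  have ii2 : IntervalIntegrable (fun t => clampf g t * ∫ θ in (0 : ℝ)..2 * Real.pi,
      (sp (B.y θ) (Real.pi / 2) - t * Real.cos (θ - Real.pi / 2) - sp o (Real.pi / 2)) ^ 2 *
        (B.ρ θ - t)) volume 0 1 :=
    (hGc.mul hk2).intervalIntegrable _ _
  rw [← intervalIntegral.integral_add ii1 ii2]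
  apply intervalIntegral.integral_congr
  intro t _
  simp only
  rw [← mul_add, ← B.sq_inner_int hA o t, ← intervalIntegral.integral_add]
  · congr 1
    apply intervalIntegral.integral_congr
    intro θ _
    simp only
    rw [← B.sq_sum_eq o t θ]
    ring
  · apply Continuous.intervalIntegrable
    have h3 : Continuous fun θ => sp (B.y θ) 0 := (sq_continuous_sp 0).comp B.continuous_y
    have h4 := B.continuous_ρ
    fun_prop
  · apply Continuous.intervalIntegrable
    have h3 : Continuous fun θ => sp (B.y θ) (Real.pi / 2) :=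
      (sq_continuous_sp (Real.pi / 2)).comp B.continuous_y
    have h4 := B.continuous_ρ
    fun_prop

end Body
end Pool.Agent.RC
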