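import Pool.Agent.H.MP_1b807b_an.C.DefsC

/-! MP_1b807b_an, convex planar domains, module VHlem: the weight `√(1 + b |x - o|²)` -/

set_option autoImplicit false

namespace Pool.Agent.RC

open MeasureTheory Metric Set
open Pool.Agent.RG
open scoped RealInnerProductSpace

theorem VH_sq {b : ℝ} (hb : 0 ≤ b) (o x : E 2) : VH b o x ^ 2 = 1 + b * ‖x - o‖ ^ 2 := by
  unfold VH
  rw [Real.sq_sqrt (by positivity)]

theorem one_le_VH {b : ℝ} (hb : 0 ≤ b) (o x : E 2) : 1 ≤ VH b o x := by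
  unfold VH
  rw [Real.one_le_sqrt]
  have : 0 ≤ b * ‖x - o‖ ^ 2 := by positivity
  linarith

/-- the derivative of the weight -/
theorem hasFDerivAt_VH {b : ℝ} (hb : 0 ≤ b) (o x : E 2) :
    HasFDerivAt (VH b o) ((b / VH b o x) • innerSL ℝ (x - o)) x := by
  have h1 : HasFDerivAt (fun x : E 2 => x - o) (ContinuousLinearMap.id ℝ (E 2)) x :=
    (hasFDerivAt_id x).sub_const o
  have h2 := h1.norm_sq
  have h3 : HasFDerivAt (fun x : E 2 => 1 + b * ‖x - o‖ ^ 2)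
      (b • (2 • (innerSL ℝ (x - o)).comp (ContinuousLinearMap.id ℝ (E 2)))) x :=
    (h2.const_mul b).const_add 1
  have hpos : (1 : ℝ) + b * ‖x - o‖ ^ 2 ≠ 0 := by positivity
  have h4 := h3.sqrt hpos
  have hV : VH b o x ≠ 0 := by
    have := one_le_VH hb o x
    positivity
  refine h4.congr_fderiv ?_
  ext v
  have hVe : Real.sqrt (1 + b * ‖x - o‖ ^ 2) = VH b o x := rfl
  rw [hVe]
  simp only [ContinuousLinearMap.smul_apply, ContinuousLinearMap.comp_id, smul_eq_mul, nsmul_eq_mul]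
  field_simp
  push_cast
  ring

theorem fderiv_VH {b : ℝ} (hb : 0 ≤ b) (o x : E 2) :
    fderiv ℝ (VH b o) x = (b / VH b o x) • innerSL ℝ (x - o) :=
  (hasFDerivAt_VH hb o x).fderiv

theorem contDiff_VH {b : ℝ} (hb : 0 ≤ b) (o : E 2) : ContDiff ℝ 1 (VH b o) := by
  unfold VH
  refine ContDiff.sqrt ?_ ?_
  · exact contDiff_const.add (contDiff_const.mul ((contDiff_id.sub contDiff_const).norm_sq ℝ))
  · intro x
    positivity

theorem contDiff_ZH (b : ℝ) (o : E 2) : ContDiff ℝ 1 (fun x : E 2 => b • (x - o)) :=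
  (contDiff_id.sub contDiff_const).const_smul b

theorem inner_ZH {b : ℝ} (hb : 0 ≤ b) (o x v : E 2) :
    ⟪b • (x - o), v⟫ = VH b o x * fderiv ℝ (VH b o) x v := by
  have hV : VH b o x ≠ 0 := by
    have := one_le_VH hb o x
    positivity
  rw [fderiv_VH hb, ContinuousLinearMap.smul_apply, innerSL_apply_apply, smul_eq_mul,
    real_inner_smul_left]
  field_simp

theorem divg_ZH (b : ℝ) (o x : E 2) : divg (fun x => b • (x - o)) x = 2 * b := by
  have h1 : HasFDerivAt (fun x : E 2 => b • (x - o)) (b • ContinuousLinearMap.id ℝ (E 2)) x :=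
    ((hasFDerivAt_id x).sub_const o).const_smul b
  unfold divg
  rw [h1.fderiv]
  unfold tr
  simp

theorem norm_fderiv_VH {b : ℝ} (hb : 0 ≤ b) (o x : E 2) :
    ‖fderiv ℝ (VH b o) x‖ ^ 2 = b - b / (1 + b * ‖x - o‖ ^ 2) := by
  have hV := one_le_VH hb o x
  have hV0 : 0 < VH b o x := by linarith
  have hsq := VH_sq hb o x
  have hpos : (0 : ℝ) < 1 + b * ‖x - o‖ ^ 2 := by positivity
  rw [fderiv_VH hb, norm_smul, innerSL_apply_norm, mul_pow, Real.norm_eq_abs, sq_abs, div_pow, hsq]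
  field_simp
  ring

theorem VH_bounds {b₀ d : ℝ} (hb₀ : 0 ≤ b₀) (hd : 0 ≤ d) : ∃ C : ℝ, 0 ≤ C ∧
    ∀ (b : ℝ) (o x : E 2), 0 ≤ b → b ≤ b₀ → ‖o‖ ≤ d → ‖x‖ ≤ d →
      |VH b o x| ≤ C ∧ ‖fderiv ℝ (VH b o) x‖ ≤ C ∧ |divg (fun x => b • (x - o)) x| ≤ C := by
  refine ⟨2 + 4 * b₀ * d ^ 2 + 2 * b₀, by positivity, fun b o x hb hbb ho hx => ?_⟩
  have hV := one_le_VH hb o x
  have hsq := VH_sq hb o x
  have hn : ‖x - o‖ ≤ 2 * d := by
    have := norm_sub_le x o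
    linarith
  have hn2 : ‖x - o‖ ^ 2 ≤ (2 * d) ^ 2 := by
    have := norm_nonneg (x - o)
    gcongr
  have hbn : b * ‖x - o‖ ^ 2 ≤ b₀ * (2 * d) ^ 2 := by
    have h0 : 0 ≤ ‖x - o‖ ^ 2 := by positivity
    exact mul_le_mul hbb hn2 h0 hb₀
  refine ⟨?_, ?_, ?_⟩
  · rw [abs_of_nonneg (by linarith)]
    nlinarith
  · have h1 := norm_fderiv_VH hb o x
    have h2 : 0 ≤ b / (1 + b * ‖x - o‖ ^ 2) := by positivity
    have h3 : ‖fderiv ℝ (VH b o) x‖ ^ 2 ≤ b₀ := by linarith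
    have h4 := norm_nonneg (fderiv ℝ (VH b o) x)
    have h5 : 0 ≤ 4 * b₀ * d ^ 2 := by positivity
    nlinarith
  · rw [divg_ZH, abs_of_nonneg (by positivity)]
    have h5 : 0 ≤ 4 * b₀ * d ^ 2 := by positivity
    linarith

end Pool.Agent.RC
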