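import Pool.Agent.H.MP_1b807b_an.C.DefsC
import Pool.Agent.H.MP_1b807b_an.C.Far
import Pool.Agent.H.MP_1b807b_an.C.Gauge
import Pool.Agent.H.MP_1b807b_an.C.SbtSq
import Pool.Agent.H.MP_1b807b_an.C.VHlem

/-! MP_1b807b_an, convex planar domains, module FEnergy: the energy of `√(1 + P |x - o|²)` times
the exponential profile -/

set_option autoImplicit false

namespace Pool.Agent.RC

open MeasureTheory Metric Set
open Pool.Agent.RG
open scoped RealInnerProductSpace

theorem fF_eq {c t : ℝ} (h0 : 0 ≤ t) (h1 : t ≤ 1) : fF c t = Real.exp (-(c * t)) := by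
  unfold fF
  rw [prof_eq (φ := fun x => Real.exp (c * x)) (Real.exp_ne_zero _), max_eq_left h0, max_eq_left (by linarith), mul_one,
    ← Real.exp_sub]
  congr 1
  ring

theorem MF_eq {c t : ℝ} (h1 : t ≤ 1) : MF c t = c * Real.exp (-(c * t)) := by
  unfold MF
  rw [max_eq_left (by linarith), mul_div_assoc, ← Real.exp_sub]
  congr 2
  ring

theorem F_energy {k c P β : ℝ} (hk : 0 < k) (hc : 0 < c) (hP : P = c ^ 2 + k ^ 2) (B : Body)
    (hA : B.area = Real.pi) (h0 : ∀ θ, 0 < B.h θ) (o : E 2) :
    (∫ x in B.K, VH P o x ^ 2 * (MF c (max (B.depth x) 0) ^ 2 + k ^ 2 * fF c (B.depth x) ^ 2))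
    + (∫ x in B.K, divg (fun x => P • (x - o)) x)
    - (∫ x in B.K, (divg (fun x => P • (x - o)) x - ‖fderiv ℝ (VH P o) x‖ ^ 2)
        * fF c (B.depth x) ^ 2)
    - β * (∫ θ in (0 : ℝ)..2 * Real.pi, VH P o (B.y θ) ^ 2 * B.ρ θ) ≤
    P * EF P c β (B.Ml o) (B.Mw o) B.len := by
  have hP0 : 0 < P := by rw [hP]; positivity
  have hK := B.isCompact_K
  have hKm : MeasurableSet B.K := hK.measurableSet
  have hvol : volume.real B.K = Real.pi := by rw [B.volume_K h0, hA]
  have hdc := B.continuous_depth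
  have hgd : Continuous fun x : E 2 => Real.exp (-(2 * c * B.depth x)) := by fun_prop
  have hnc : Continuous fun x : E 2 => ‖x - o‖ ^ 2 := by fun_prop
  -- the depth is between 0 and 1 almost everywhere on `K`
  have hae : ∀ᵐ x ∂(volume.restrict B.K), 0 ≤ B.depth x ∧ B.depth x < 1 := by
    have h1 : ∀ᵐ x ∂(volume.restrict B.K), x ∈ B.K := ae_restrict_mem hKm
    have h2 : ∀ᵐ x ∂(volume.restrict B.K), ¬ 1 ≤ B.depth x := by
      refine ae_restrict_of_ae ?_
      rw [ae_iff]
      simpa using B.deep_null hA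
    filter_upwards [h1, h2] with x hx hx2
    exact ⟨hx, not_le.1 hx2⟩
  have hfx : ∀ t : ℝ, 0 ≤ t → t < 1 → fF c t ^ 2 = Real.exp (-(2 * c * t)) := by
    intro t ht0 ht1
    rw [fF_eq ht0 ht1.le, ← Real.exp_nat_mul]
    congr 1
    push_cast
    ring
  have hMx : ∀ t : ℝ, 0 ≤ t → t < 1 → MF c (max t 0) ^ 2 = c ^ 2 * Real.exp (-(2 * c * t)) := by
    intro t ht0 ht1
    rw [max_eq_left ht0, MF_eq ht1.le, mul_pow, ← Real.exp_nat_mul]
    congr 2
    push_cast
    ring
  have iG : IntegrableOn (fun x : E 2 => Real.exp (-(2 * c * B.depth x))) B.K :=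
    hgd.continuousOn.integrableOn_compact hK
  have iNG : IntegrableOn (fun x : E 2 => ‖x - o‖ ^ 2 * Real.exp (-(2 * c * B.depth x))) B.K :=
    (hnc.mul hgd).continuousOn.integrableOn_compact hK
  -- first integral
  have e1 : (∫ x in B.K, VH P o x ^ 2 * (MF c (max (B.depth x) 0) ^ 2 +
      k ^ 2 * fF c (B.depth x) ^ 2)) =
      P * (∫ x in B.K, Real.exp (-(2 * c * B.depth x))) +
      P ^ 2 * ∫ x in B.K, ‖x - o‖ ^ 2 * Real.exp (-(2 * c * B.depth x)) := by
    rw [← integral_const_mul, ← integral_const_mul, ← integral_add (iG.const_mul _)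
      (iNG.const_mul _)]
    refine integral_congr_ae ?_
    filter_upwards [hae] with x hx
    rw [VH_sq hP0.le, hfx _ hx.1 hx.2, hMx _ hx.1 hx.2]
    rw [show c ^ 2 * Real.exp (-(2 * c * B.depth x)) + k ^ 2 * Real.exp (-(2 * c * B.depth x))
      = P * Real.exp (-(2 * c * B.depth x)) by rw [hP]; ring]
    ring
  -- second integral
  have e2 : (∫ x in B.K, divg (fun x => P • (x - o)) x) = 2 * Real.pi * P := by
    simp only [divg_ZH]
    rw [setIntegral_const, smul_eq_mul, hvol]
    ring
  -- third integral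
  have e3 : P * (∫ x in B.K, Real.exp (-(2 * c * B.depth x))) ≤
      ∫ x in B.K, (divg (fun x => P • (x - o)) x - ‖fderiv ℝ (VH P o) x‖ ^ 2)
        * fF c (B.depth x) ^ 2 := by
    have hcc : Continuous fun x : E 2 => (P + P / (1 + P * ‖x - o‖ ^ 2)) *
        Real.exp (-(2 * c * B.depth x)) := by
      refine Continuous.mul ?_ hgd
      refine continuous_const.add (continuous_const.div (by fun_prop) fun x => ?_)
      positivity
    rw [show (∫ x in B.K, (divg (fun x => P • (x - o)) x - ‖fderiv ℝ (VH P o) x‖ ^ 2)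
        * fF c (B.depth x) ^ 2) = ∫ x in B.K, (P + P / (1 + P * ‖x - o‖ ^ 2)) *
        Real.exp (-(2 * c * B.depth x)) from ?_]
    · rw [← integral_const_mul]
      refine setIntegral_mono (iG.const_mul _)
        (hcc.continuousOn.integrableOn_compact hK) fun x => ?_
      have h1 : 0 ≤ P / (1 + P * ‖x - o‖ ^ 2) := by positivity
      have h2 := Real.exp_pos (-(2 * c * B.depth x))
      simp only
      nlinarith [mul_nonneg h1 h2.le]
    · refine integral_congr_ae ?_
      filter_upwards [hae] with x hx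
      rw [divg_ZH, norm_fderiv_VH hP0.le, hfx _ hx.1 hx.2]
      ring
  -- boundary term
  have e4 : (∫ θ in (0 : ℝ)..2 * Real.pi, VH P o (B.y θ) ^ 2 * B.ρ θ) =
      B.len + P * B.Ml o := by
    have hy := B.continuous_y
    have hρ := B.continuous_ρ
    rw [B.len_eq]
    unfold Body.Ml
    rw [← intervalIntegral.integral_const_mul, ← intervalIntegral.integral_add
      (hρ.intervalIntegrable _ _) (Continuous.intervalIntegrable (by fun_prop) _ _)]
    refine intervalIntegral.integral_congr fun θ _ => ?_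
    beta_reduce
    rw [VH_sq hP0.le]
    ring
  -- the isoperimetric part
  have e5 : (∫ x in B.K, ‖x - o‖ ^ 2 * Real.exp (-(2 * c * B.depth x))) ≤
      jF c 0 * B.Ml o - jF c 1 * (B.Mw o + 4 * Real.pi) + 3 * jF c 2 * B.len -
        2 * Real.pi * jF c 3 := by
    have hanti : AntitoneOn (fun t : ℝ => Real.exp (-(2 * c * t))) (Icc 0 1) := by
      intro s _ t _ hst
      have : 2 * c * s ≤ 2 * c * t := by nlinarith
      exact Real.exp_le_exp.2 (by linarith)
    refine (B.sbt_sq hA (g := fun t => Real.exp (-(2 * c * t))) (by fun_prop) hanti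
      (fun t _ => (Real.exp_pos _).le) o).trans_eq ?_
    have hj : ∀ i : ℕ, IntervalIntegrable (fun t : ℝ => t ^ i * Real.exp (-(2 * c * t)))
        volume 0 1 := fun i => Continuous.intervalIntegrable (by fun_prop) _ _
    unfold jF
    have h1 : (∫ t in (0 : ℝ)..1, Real.exp (-(2 * c * t)) *
        (B.Ml o - t * (B.Mw o + 4 * Real.pi) + 3 * t ^ 2 * B.len - 2 * Real.pi * t ^ 3)) =
        ∫ t in (0 : ℝ)..1, (B.Ml o * (t ^ 0 * Real.exp (-(2 * c * t))) -
          (B.Mw o + 4 * Real.pi) * (t ^ 1 * Real.exp (-(2 * c * t))) +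
          3 * B.len * (t ^ 2 * Real.exp (-(2 * c * t))) -
          2 * Real.pi * (t ^ 3 * Real.exp (-(2 * c * t)))) := by
      refine intervalIntegral.integral_congr fun t _ => ?_
      ring
    rw [h1, intervalIntegral.integral_sub, intervalIntegral.integral_add,
      intervalIntegral.integral_sub, intervalIntegral.integral_const_mul,
      intervalIntegral.integral_const_mul, intervalIntegral.integral_const_mul,
      intervalIntegral.integral_const_mul]
    · ring
    · exact (hj 0).const_mul _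
    · exact (hj 1).const_mul _
    · exact ((hj 0).const_mul _).sub ((hj 1).const_mul _)
    · exact (hj 2).const_mul _
    · exact (((hj 0).const_mul _).sub ((hj 1).const_mul _)).add ((hj 2).const_mul _)
    · exact (hj 3).const_mul _
  rw [e1, e2, e4]
  have e6 : P * EF P c β (B.Ml o) (B.Mw o) B.len =
      P ^ 2 * (jF c 0 * B.Ml o - jF c 1 * (B.Mw o + 4 * Real.pi) + 3 * jF c 2 * B.len -
        2 * Real.pi * jF c 3) + 2 * Real.pi * P - β * (B.len + P * B.Ml o) := by
    unfold EF
    field_simp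
  rw [e6]
  have e7 := mul_le_mul_of_nonneg_left e5 (sq_nonneg P)
  linarith

end Pool.Agent.RC
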