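import Pool.Agent.H.MP_1b807b_an.C.VHlem
import Pool.Agent.H.MP_1b807b_an.C.Gauge
import Pool.Agent.H.MP_1b807b_an.C.FEnergy

/-! MP_1b807b_an, convex planar domains, module FTest: the test pair with the exponential profile -/

set_option autoImplicit false

namespace Pool.Agent.RC

open MeasureTheory Metric Set
open Pool.Agent.RG
open scoped RealInnerProductSpace

theorem F_prof_deriv (c x : ℝ) :
    HasDerivAt (fun x => Real.exp (c * x)) (c * Real.exp (c * x)) x := by
  have h := ((hasDerivAt_id x).const_mul c).exp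
  simp only [id, mul_one] at h
  rw [mul_comm]
  exact h

theorem F_prof_mono {c : ℝ} (hc : 0 ≤ c) : MonotoneOn (fun x => Real.exp (c * x)) (Icc 0 1) := by
  intro x _ y _ hxy
  exact Real.exp_le_exp.2 (mul_le_mul_of_nonneg_left hxy hc)

theorem fF_mem {c : ℝ} (hc : 0 ≤ c) (t : ℝ) :
    Real.exp (-c) ≤ fF c t ∧ 0 ≤ fF c t ∧ fF c t ≤ 1 := by
  have h := prof_mem (F_prof_mono hc) (Real.exp_pos _).le (Real.exp_pos _) t
  refine ⟨?_, h.2⟩
  have h1 := h.1
  simp only [mul_zero, Real.exp_zero, mul_one] at h1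
  rw [Real.exp_neg, ← one_div]
  exact h1

theorem fF_lip {c : ℝ} (hc : 0 ≤ c) (s t : ℝ) : |fF c s - fF c t| ≤ c * |s - t| := by
  refine prof_lip (F_prof_deriv c) (Real.exp_pos _) (fun x hx => ?_) s t
  rw [abs_of_nonneg (by positivity)]
  have : Real.exp (c * x) ≤ Real.exp (c * 1) :=
    Real.exp_le_exp.2 (mul_le_mul_of_nonneg_left hx.2 hc)
  exact mul_le_mul_of_nonneg_left this hc

theorem MF_bounds {c : ℝ} (hc : 0 ≤ c) {t : ℝ} (ht : 0 ≤ t) : 0 ≤ MF c t ∧ MF c t ≤ c := by
  unfold MF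
  refine ⟨by positivity, ?_⟩
  rw [div_le_iff₀ (Real.exp_pos _)]
  have h1 : max (1 - t) 0 ≤ 1 := max_le (by linarith) zero_le_one
  have : Real.exp (c * max (1 - t) 0) ≤ Real.exp c :=
    Real.exp_le_exp.2 (by nlinarith)
  exact mul_le_mul_of_nonneg_left this hc

theorem continuous_MF (c : ℝ) : Continuous fun t => MF c (max t 0) := by
  unfold MF
  fun_prop

theorem fF_slope {c : ℝ} (hc : 0 ≤ c) {t : ℝ} (ht : 0 < t) {e : ℝ} (he : 0 < e) :
    ∃ η > 0, ∀ s s', |s - t| < η → |s' - t| < η →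
      |fF c s - fF c s'| ≤ (MF c (max t 0) + e) * |s - s'| := by
  have h := prof_slope (φ := fun x => Real.exp (c * x)) (φ' := fun x => c * Real.exp (c * x))
    (F_prof_deriv c) (by fun_prop) (Real.exp_pos _) (fun x _ => by positivity) ht he
  have e1 : c * Real.exp (c * max (1 - t) 0) / Real.exp (c * 1) = MF c (max t 0) := by
    unfold MF
    rw [max_eq_left ht.le, mul_one]
  simp only [e1] at h
  exact h

theorem F_test {K₀ d : ℝ} (hK : 0 < K₀) (hd : 0 < d) :
    ∃ C c₀ : ℝ, 0 ≤ C ∧ 0 < c₀ ∧ ∀ (k c P : ℝ) (B : Body) (o : E 2), c = k - 4 / 5 →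
    P = c ^ 2 + k ^ 2 → 1 ≤ k → k ≤ K₀ →
    B.area = Real.pi → (∀ θ, 0 < B.h θ) → B.K ⊆ closedBall 0 d → o ∈ B.K →
    EF P c (k * GG k) (B.Ml o) (B.Mw o) B.len ≤ 0 → ∀ ε > 0,
    IsTest B k (k * GG k) C d c₀ ε (VH P o) (fun x => P • (x - o)) (fF c)
      (fun t => MF c (max t 0)) := by
  obtain ⟨C, hC, hb⟩ := VH_bounds (b₀ := 2 * K₀ ^ 2) (d := d) (by positivity) hd.le
  refine ⟨max C K₀, Real.pi * Real.exp (-(2 * K₀)), hC.trans (le_max_left _ _), by positivity, ?_⟩
  intro k c P B o hc hP hk1 hkK hA h0 hB ho hE ε hε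
  have hc0 : 0 < c := by rw [hc]; linarith
  have hck : c ≤ k := by rw [hc]; linarith
  have hcK : c ≤ K₀ := hck.trans hkK
  have hk0 : 0 < k := by linarith
  have hP0 : 0 < P := by rw [hP]; positivity
  have hPK : P ≤ 2 * K₀ ^ 2 := by
    rw [hP]
    have h1 : c ^ 2 ≤ K₀ ^ 2 := pow_le_pow_left₀ hc0.le hcK 2
    have h2 : k ^ 2 ≤ K₀ ^ 2 := pow_le_pow_left₀ hk0.le hkK 2
    linarith
  have hod : ‖o‖ ≤ d := by simpa using hB ho
  have hV := contDiff_VH hP0.le o
  refine
    { V1 := hV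
      Z1 := contDiff_ZH P o
      VZ := fun x v => inner_ZH hP0.le o x v
      bV := fun x hx => (hb P o x hP0.le hPK hod hx).1.trans (le_max_left _ _)
      bV' := fun x hx => (hb P o x hP0.le hPK hod hx).2.1.trans (le_max_left _ _)
      bZ := fun x hx => (hb P o x hP0.le hPK hod hx).2.2.trans (le_max_left _ _)
      f1 := fun t ht => prof_one ht
      f0 := fun t => (fF_mem hc0.le t).2
      fl := fun s t => (fF_lip hc0.le s t).trans
        (mul_le_mul_of_nonneg_right (hcK.trans (le_max_right _ _)) (abs_nonneg _))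
      Mm := (continuous_MF c).measurable
      M0 := fun t => ⟨(MF_bounds hc0.le (le_max_right t 0)).1,
        (MF_bounds hc0.le (le_max_right t 0)).2.trans (hcK.trans (le_max_right _ _))⟩
      slope := fun t ht e he => fF_slope hc0.le ht he
      energy := ?_
      low := ?_ }
  · refine (F_energy hk0 hc0 hP B hA h0 o).trans ?_
    exact (mul_nonpos_of_nonneg_of_nonpos hP0.le hE).trans hε.le
  · have hcomp := B.isCompact_K
    have hvol : volume.real B.K = Real.pi := by rw [B.volume_K h0, hA]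
    have hcf : Continuous (fF c) := by
      have hL : LipschitzWith (Real.toNNReal c) (fF c) := by
        refine LipschitzWith.of_dist_le_mul (fun s t => ?_)
        rw [Real.dist_eq, Real.dist_eq, Real.coe_toNNReal _ hc0.le]
        exact fF_lip hc0.le s t
      exact hL.continuous
    have hint : IntegrableOn (fun x => VH P o x ^ 2 * fF c (B.depth x) ^ 2) B.K :=
      ((hV.continuous.pow 2).mul ((hcf.comp B.continuous_depth).pow 2)).continuousOn.integrableOn_compact
        hcomp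
    have hle : ∀ x ∈ B.K, Real.exp (-(2 * K₀)) ≤ VH P o x ^ 2 * fF c (B.depth x) ^ 2 := by
      intro x _
      have h1 := one_le_VH hP0.le o x
      have h2 := (fF_mem hc0.le (B.depth x)).1
      have h3 : Real.exp (-K₀) ≤ fF c (B.depth x) :=
        (Real.exp_le_exp.2 (by linarith)).trans h2
      have h4 : Real.exp (-(2 * K₀)) = Real.exp (-K₀) ^ 2 := by
        rw [← Real.exp_nat_mul]; ring_nf
      rw [h4]
      have h5 : Real.exp (-K₀) ^ 2 ≤ fF c (B.depth x) ^ 2 :=
        pow_le_pow_left₀ (Real.exp_pos _).le h3 2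
      have h6 : (1 : ℝ) ≤ VH P o x ^ 2 := one_le_pow₀ h1
      calc Real.exp (-K₀) ^ 2 ≤ 1 * fF c (B.depth x) ^ 2 := by rw [one_mul]; exact h5
        _ ≤ VH P o x ^ 2 * fF c (B.depth x) ^ 2 :=
          mul_le_mul_of_nonneg_right h6 (sq_nonneg _)
    have h7 : ∫ _ in B.K, Real.exp (-(2 * K₀)) = Real.pi * Real.exp (-(2 * K₀)) := by
      rw [setIntegral_const, hvol, smul_eq_mul]
    rw [← h7]
    refine setIntegral_mono_on ?_ hint B.measurableSet_K hle
    exact (continuous_const.continuousOn.integrableOn_compact hcomp)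

end Pool.Agent.RC
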