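import Pool.Agent.H.MP_1b807b_an.C.Defs

/-! MP_1b807b_an, convex planar domains, module GGlow: a lower bound for `k G(k)` -/

set_option autoImplicit false

namespace Pool.Agent.RC

open Set
open Pool.Agent.H.MP_1b807b_an

/-- a finite sum bounds `z I₁/I₀`-type combinations from below -/
theorem GGlow_series {z s : ℝ} (hz : 0 ≤ z) (hs : s ≤ 4) :
    ∑ j ∈ Finset.range 8, (2 * (j : ℝ) - s) * cc 1 j * z ^ j ≤
      2 * z * ser (shc (cc 1)) z - s * ser (cc 1) z := by
  have h0 := (ent_cc 1).summable z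
  have h1 := (ent_cc 1).shc.summable z
  have hS : Summable (fun j : ℕ => (j : ℝ) * cc 1 j * z ^ j) := by
    rw [← summable_nat_add_iff 1]
    refine (h1.mul_left z).congr (fun j => ?_)
    unfold shc
    push_cast
    ring
  have e1 : z * ser (shc (cc 1)) z = ∑' j : ℕ, (j : ℝ) * cc 1 j * z ^ j := by
    rw [hS.tsum_eq_zero_add]
    simp only [Nat.cast_zero, zero_mul, zero_add]
    unfold ser
    rw [← tsum_mul_left]
    congr 1
    ext j
    unfold shc
    push_cast
    ring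
  have e2 : 2 * z * ser (shc (cc 1)) z - s * ser (cc 1) z =
      ∑' j : ℕ, (2 * (j : ℝ) - s) * cc 1 j * z ^ j := by
    have e3 : s * ser (cc 1) z = ∑' j : ℕ, s * (cc 1 j * z ^ j) := by
      unfold ser
      rw [tsum_mul_left]
    have e4 : 2 * z * ser (shc (cc 1)) z = ∑' j : ℕ, 2 * ((j : ℝ) * cc 1 j * z ^ j) := by
      rw [tsum_mul_left, ← e1]
      ring
    rw [e3, e4, ← (hS.mul_left 2).tsum_sub (h0.mul_left s)]
    congr 1
    ext j
    ring
  rw [e2]
  apply Summable.sum_le_tsum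
  · intro j hj
    have hj8 : 8 ≤ j := by
      by_contra h
      exact hj (Finset.mem_range.2 (by omega))
    have hj' : (8 : ℝ) ≤ j := by exact_mod_cast hj8
    have := (cc_pos 1 j).le
    have : 0 ≤ 2 * (j : ℝ) - s := by linarith
    positivity
  · refine ((hS.mul_left 2).sub (h0.mul_left s)).congr fun j => ?_
    ring

/-- the value at `3.7` -/
theorem GGlow_start : 0 ≤ (37 / 10 : ℝ) * W 1 (37 / 10) -
    ((37 / 10 : ℝ) - 1 / 2 - 1 / (5 * (37 / 10))) * V 1 (37 / 10) := by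
  have h := GGlow_series (z := (37 / 10 : ℝ) ^ 2) (s := (37 / 10 : ℝ) - 1 / 2 - 1 / (5 * (37 / 10)))
    (by norm_num) (by norm_num)
  have h2 : 0 ≤ ∑ j ∈ Finset.range 8, (2 * (j : ℝ) - ((37 / 10 : ℝ) - 1 / 2 - 1 / (5 * (37 / 10)))) *
      cc 1 j * ((37 / 10 : ℝ) ^ 2) ^ j := by
    simp only [Finset.sum_range_succ, Finset.sum_range_zero, cc]
    norm_num
  refine (h2.trans h).trans (le_of_eq ?_)
  unfold W V
  ring

/-- the integrating factor -/
noncomputable def GGlowΨ (k : ℝ) : ℝ :=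
  (k * W 1 k - (k - 1 / 2 - 1 / (5 * k)) * V 1 k) *
    Real.exp (k - 1 / 2 * Real.log k + 1 / (5 * k))

theorem GGlow_deriv {k : ℝ} (hk : 0 < k) : HasDerivAt GGlowΨ
    (V 1 k * Real.exp (k - 1 / 2 * Real.log k + 1 / (5 * k)) *
      ((3 / 20 - 2 / (5 * k) - 1 / (25 * k ^ 2)) / k)) k := by
  have hi : HasDerivAt (fun k : ℝ => 1 / (5 * k)) (-(1 / (5 * k ^ 2))) k := by
    have h1 : HasDerivAt (fun k : ℝ => k⁻¹) (-(k ^ 2)⁻¹) k := hasDerivAt_inv hk.ne'
    have h2 := h1.const_mul (1 / 5)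
    refine (h2.congr_deriv ?_).congr_of_eventuallyEq ?_
    · field_simp
    · filter_upwards with x
      rw [one_div, mul_inv, one_div]
  have hs : HasDerivAt (fun k : ℝ => k - 1 / 2 - 1 / (5 * k)) (1 - -(1 / (5 * k ^ 2))) k :=
    ((hasDerivAt_id k).sub_const (1 / 2)).sub hi
  have hl : HasDerivAt (fun k : ℝ => k - 1 / 2 * Real.log k + 1 / (5 * k))
      (1 - 1 / 2 * k⁻¹ + -(1 / (5 * k ^ 2))) k :=
    ((hasDerivAt_id k).sub ((Real.hasDerivAt_log hk.ne').const_mul (1 / 2))).add hi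
  have hA : HasDerivAt (fun k : ℝ => k * W 1 k - (k - 1 / 2 - 1 / (5 * k)) * V 1 k)
      ((1 * W 1 k + k * W1 1 k) -
        ((1 - -(1 / (5 * k ^ 2))) * V 1 k + (k - 1 / 2 - 1 / (5 * k)) * W 1 k)) k :=
    ((hasDerivAt_id k).mul (hasDerivAt_W 1 k)).sub (hs.mul (hasDerivAt_V 1 k))
  refine (hA.mul hl.exp).congr_deriv ?_
  rw [W1_eq 1 hk.ne']
  push_cast
  field_simp
  ring

theorem GGlow_nonneg {k : ℝ} (hk : 37 / 10 ≤ k) : 0 ≤ GGlowΨ k := by
  have hmono : MonotoneOn GGlowΨ (Ici (37 / 10)) := by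
    apply monotoneOn_of_deriv_nonneg (convex_Ici _)
    · intro x hx
      have hx0 : (0 : ℝ) < x := lt_of_lt_of_le (by norm_num) hx
      exact (GGlow_deriv hx0).continuousAt.continuousWithinAt
    · intro x hx
      rw [interior_Ici] at hx
      have hx0 : (0 : ℝ) < x := lt_trans (by norm_num) hx
      exact (GGlow_deriv hx0).differentiableAt.differentiableWithinAt
    · intro x hx
      rw [interior_Ici] at hx
      have hx1 : (37 / 10 : ℝ) < x := hx
      have hx0 : (0 : ℝ) < x := lt_trans (by norm_num) hx1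
      rw [(GGlow_deriv hx0).deriv]
      apply mul_nonneg (mul_nonneg (V_pos 1 x).le (Real.exp_pos _).le)
      have h1 : 2 / (5 * x) ≤ 3 / 25 := by
        rw [div_le_iff₀ (by positivity)]
        linarith
      have h2 : 1 / (25 * x ^ 2) ≤ 3 / 100 := by
        rw [div_le_iff₀ (by positivity)]
        nlinarith
      apply div_nonneg _ hx0.le
      linarith
  have h0 : 0 ≤ GGlowΨ (37 / 10) := mul_nonneg GGlow_start (Real.exp_pos _).le
  exact h0.trans (hmono self_mem_Ici hk hk)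

theorem GG_low {k : ℝ} (hk : 37 / 10 ≤ k) : k - 1 / 2 - 1 / (5 * k) ≤ k * GG k := by
  have h1 := GGlow_nonneg hk
  unfold GGlowΨ at h1
  have h2 : 0 ≤ k * W 1 k - (k - 1 / 2 - 1 / (5 * k)) * V 1 k :=
    nonneg_of_mul_nonneg_left h1 (Real.exp_pos _)
  have h3 : k * GG k = (k * W 1 k) / V 1 k := by
    unfold GG F
    ring
  rw [h3, le_div_iff₀ (V_pos 1 k)]
  linarith

end Pool.Agent.RC
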