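import Pool.Agent.H.MP_1b807b_an.C.SpBody

/-! MP_1b807b_an, convex planar domains, module Halves: a centre which halves the perimeter with
antipodal support data, and the second moment inequality for `∮ |x - o|² κ ds` -/

set_option autoImplicit false

namespace Pool.Agent.RC

open MeasureTheory Metric Set
open Pool.Agent.RG
open scoped RealInnerProductSpace ENNReal

namespace Body

/-- integral of the support function over a half turn -/
theorem int_h (B : Body) (a b : ℝ) :
    ∫ θ in a..b, B.h θ = (∫ θ in a..b, B.ρ θ) - (B.p b - B.p a) := by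
  have h1 : ∫ θ in a..b, (B.ρ θ - B.h θ) = B.p b - B.p a :=
    intervalIntegral.integral_eq_sub_of_hasDerivAt (fun θ _ => B.hasDerivAt_p θ)
      ((B.continuous_ρ.sub B.continuous_h).intervalIntegrable _ _)
  rw [intervalIntegral.integral_sub (B.continuous_ρ.intervalIntegrable _ _)
    (B.continuous_h.intervalIntegrable _ _)] at h1
  linarith

/-- a boundary point lies in all half planes of the body -/
theorem sp_y_le_aux (B : Body) (θ φ : ℝ) : sp (B.y θ) φ ≤ B.h φ := by
  set A : Body := B.shift (B.y θ) with hA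
  have h0 : A.h θ = 0 := by
    show B.h θ - sp (B.y θ) θ = 0
    rw [B.sp_y, sub_self]
  have hp : ∀ s, A.p s = B.p s - sp (B.y θ) (s + Real.pi / 2) := fun s =>
    ((B.hasDerivAt_h s).sub (hasDerivAt_sp (B.y θ) s)).deriv
  have h1 : A.p θ = 0 := by
    rw [hp, B.sp_y_quarter, sub_self]
  have key : ∀ ψ, A.h ψ = ∫ s in θ..ψ, A.ρ s * Real.sin (ψ - s) := by
    intro ψ
    have hd : ∀ s ∈ uIcc θ ψ, HasDerivAt (fun s => A.p s * Real.sin (ψ - s) +
        A.h s * Real.cos (ψ - s)) (A.ρ s * Real.sin (ψ - s)) s := by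
      intro s _
      have hs : HasDerivAt (fun s => ψ - s) (-1) s := by
        simpa using (hasDerivAt_id s).const_sub ψ
      have e1 := (A.hasDerivAt_p s).mul hs.sin
      have e2 := (A.hasDerivAt_h s).mul hs.cos
      have e3 := e1.add e2
      have e4 : A.ρ s * Real.sin (ψ - s) =
          (A.ρ s - A.h s) * Real.sin (ψ - s) + A.p s * (Real.cos (ψ - s) * -1) +
            (A.p s * Real.cos (ψ - s) + A.h s * (-Real.sin (ψ - s) * -1)) := by ring
      rw [e4]
      exact e3
    have hi : IntervalIntegrable (fun s => A.ρ s * Real.sin (ψ - s)) volume θ ψ :=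
      (A.continuous_ρ.mul (Real.continuous_sin.comp
        (continuous_const.sub continuous_id))).intervalIntegrable _ _
    rw [intervalIntegral.integral_eq_sub_of_hasDerivAt hd hi, h0, h1]
    simp
  have hmain : ∀ ψ, |ψ - θ| ≤ Real.pi → 0 ≤ A.h ψ := by
    intro ψ hψ
    rw [abs_le] at hψ
    rw [key]
    rcases le_total θ ψ with h | h
    · refine intervalIntegral.integral_nonneg h (fun s hs => ?_)
      exact mul_nonneg (A.ρ_pos s).le (Real.sin_nonneg_of_nonneg_of_le_pi (by linarith [hs.2])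
        (by linarith [hs.1, hψ.2]))
    · rw [intervalIntegral.integral_symm, ← intervalIntegral.integral_neg]
      refine intervalIntegral.integral_nonneg h (fun s hs => ?_)
      have h2 : Real.sin (ψ - s) ≤ 0 :=
        Real.sin_nonpos_of_nonpos_of_neg_pi_le (by linarith [hs.1]) (by linarith [hs.2, hψ.1])
      have := mul_nonpos_of_nonneg_of_nonpos (A.ρ_pos s).le h2
      linarith
  have hper : Function.Periodic A.h (2 * Real.pi) := A.per
  obtain ⟨ψ, hψ, hψ'⟩ := hper.exists_mem_Ico Real.two_pi_pos φ (θ - Real.pi)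
  have h3 : 0 ≤ A.h ψ := hmain ψ (by
    rw [abs_le]
    constructor
    · linarith [hψ.1]
    · have := hψ.2
      linarith)
  rw [← hψ'] at h3
  have h4 : A.h φ = B.h φ - sp (B.y θ) φ := rfl
  linarith

theorem mem_K_of (B : Body) {x : E 2} (h : ∀ θ, sp x θ ≤ B.h θ) : x ∈ B.K := by
  show 0 ≤ sInf (range fun θ => B.h θ - sp x θ)
  refine le_csInf (range_nonempty _) ?_
  rintro _ ⟨θ, rfl⟩
  exact sub_nonneg.2 (h θ)

end Body

theorem exists_half_angle (B : Body) : ∃ c : ℝ, ∫ θ in c..c + Real.pi, B.ρ θ = B.len / 2 := by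
  have hii : ∀ a b : ℝ, IntervalIntegrable B.ρ volume a b :=
    fun a b => B.continuous_ρ.intervalIntegrable a b
  set F : ℝ → ℝ := fun c => ∫ θ in c..c + Real.pi, B.ρ θ with hF
  have hFc : Continuous F := by
    have h1 : F = fun c => (∫ θ in (0 : ℝ)..c + Real.pi, B.ρ θ) - ∫ θ in (0 : ℝ)..c, B.ρ θ := by
      funext c
      rw [hF]
      exact (intervalIntegral.integral_interval_sub_left (hii _ _) (hii _ _)).symm
    rw [h1]
    have h2 : Continuous fun b : ℝ => ∫ θ in (0 : ℝ)..b, B.ρ θ :=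
      intervalIntegral.continuous_primitive hii 0
    exact (h2.comp (continuous_id.add continuous_const)).sub h2
  have hsum : F 0 + F Real.pi = B.len := by
    rw [B.len_eq]
    simp only [hF]
    rw [show (0 : ℝ) + Real.pi = Real.pi by ring, show Real.pi + Real.pi = 2 * Real.pi by ring]
    exact intervalIntegral.integral_add_adjacent_intervals (hii _ _) (hii _ _)
  have hpi := Real.pi_pos
  rcases le_total (F 0) (B.len / 2) with h | h
  · have h2 : B.len / 2 ≤ F Real.pi := by linarith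
    obtain ⟨c, -, hc⟩ := intermediate_value_Icc hpi.le hFc.continuousOn ⟨h, h2⟩
    exact ⟨c, hc⟩
  · have h2 : F Real.pi ≤ B.len / 2 := by linarith
    obtain ⟨c, -, hc⟩ := intermediate_value_Icc' hpi.le hFc.continuousOn ⟨h2, h⟩
    exact ⟨c, hc⟩

theorem exists_halves (B : Body) : ∃ (c : ℝ) (o : E 2), o ∈ B.K ∧
    B.h c - sp o c = B.h (c + Real.pi) - sp o (c + Real.pi) ∧
    deriv (fun θ => B.h θ - sp o θ) c = deriv (fun θ => B.h θ - sp o θ) (c + Real.pi) ∧
    ∫ θ in c..c + Real.pi, (B.h θ - sp o θ) = B.len / 2 := by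
  obtain ⟨c, hc⟩ := exists_half_angle B
  set o : E 2 := (1 / 2 : ℝ) • B.y c + (1 / 2 : ℝ) • B.y (c + Real.pi) with ho
  have hsp : ∀ θ, sp o θ = 1 / 2 * sp (B.y c) θ + 1 / 2 * sp (B.y (c + Real.pi)) θ := by
    intro θ
    rw [ho, sp_add, sp_smul, sp_smul]
  have h1 : sp (B.y c) c = B.h c := B.sp_y c
  have h2 : sp (B.y (c + Real.pi)) c = -B.h (c + Real.pi) := by
    have := B.sp_y (c + Real.pi)
    rw [sp_pi] at this
    linarith
  have h3 : sp (B.y c) (c + Real.pi / 2) = B.p c := B.sp_y_quarter c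
  have h4 : sp (B.y (c + Real.pi)) (c + Real.pi / 2) = -B.p (c + Real.pi) := by
    have := B.sp_y_quarter (c + Real.pi)
    rw [show c + Real.pi + Real.pi / 2 = c + Real.pi / 2 + Real.pi by ring, sp_pi] at this
    linarith
  have hval : B.h c - sp o c = B.h (c + Real.pi) - sp o (c + Real.pi) := by
    rw [sp_pi, hsp c, h1, h2]
    ring
  have hd : ∀ θ, HasDerivAt (fun θ => B.h θ - sp o θ) (B.p θ - sp o (θ + Real.pi / 2)) θ :=
    fun θ => (B.hasDerivAt_h θ).sub (hasDerivAt_sp o θ)
  have hder : B.p c - sp o (c + Real.pi / 2)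
      = B.p (c + Real.pi) - sp o (c + Real.pi + Real.pi / 2) := by
    rw [show c + Real.pi + Real.pi / 2 = c + Real.pi / 2 + Real.pi by ring, sp_pi,
      hsp (c + Real.pi / 2), h3, h4]
    ring
  refine ⟨c, o, ?_, hval, ?_, ?_⟩
  · refine B.mem_K_of (fun θ => ?_)
    rw [hsp]
    linarith [B.sp_y_le_aux c θ, B.sp_y_le_aux (c + Real.pi) θ]
  · rw [(hd c).deriv, (hd (c + Real.pi)).deriv, hder]
  · have h5 := (B.shift o).int_h c (c + Real.pi)
    have h6 : ∀ θ, (B.shift o).p θ = B.p θ - sp o (θ + Real.pi / 2) := fun θ => (hd θ).deriv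
    have h7 : ∫ θ in c..c + Real.pi, (B.shift o).ρ θ = ∫ θ in c..c + Real.pi, B.ρ θ :=
      intervalIntegral.integral_congr (fun θ _ => B.shift_ρ o θ)
    rw [h6, h6, h7, hc, hder, sub_self, sub_zero] at h5
    exact h5

theorem Mw_ge (B : Body) (hA : B.area = Real.pi) (o : E 2) :
    4 * (B.len - 2 * Real.pi) ≤ B.Mw o - 2 * Real.pi := by
  set A : Body := B.shift o with hAdef
  have hAa : A.area = Real.pi := by rw [hAdef, B.shift_area, hA]
  have hAl : A.len = B.len := B.shift_len o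
  have hMw : B.Mw o = ∫ θ in (0 : ℝ)..2 * Real.pi, (A.h θ ^ 2 + A.p θ ^ 2) := by
    unfold Body.Mw
    refine intervalIntegral.integral_congr (fun θ _ => ?_)
    show ‖B.y θ - o‖ ^ 2 = _
    rw [← B.shift_y o θ, ← hAdef, A.norm_y_sq]
  have ih : IntervalIntegrable (fun θ => A.h θ ^ 2) volume 0 (2 * Real.pi) :=
    (A.continuous_h.pow 2).intervalIntegrable _ _
  have ip : IntervalIntegrable (fun θ => A.p θ ^ 2) volume 0 (2 * Real.pi) :=
    (A.continuous_p.pow 2).intervalIntegrable _ _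
  have ih1 : IntervalIntegrable A.h volume 0 (2 * Real.pi) :=
    A.continuous_h.intervalIntegrable _ _
  have e1 : B.Mw o = (∫ θ in (0 : ℝ)..2 * Real.pi, A.h θ ^ 2)
      + ∫ θ in (0 : ℝ)..2 * Real.pi, A.p θ ^ 2 := by
    rw [hMw, intervalIntegral.integral_add ih ip]
  have e2 : Real.pi = (1 / 2) * ((∫ θ in (0 : ℝ)..2 * Real.pi, A.h θ ^ 2)
      - ∫ θ in (0 : ℝ)..2 * Real.pi, A.p θ ^ 2) := by
    rw [← intervalIntegral.integral_sub ih ip, ← A.area_eq, hAa]
  have e3 : 0 ≤ ∫ θ in (0 : ℝ)..2 * Real.pi, (A.h θ - 1) ^ 2 :=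
    intervalIntegral.integral_nonneg (by positivity) (fun θ _ => sq_nonneg _)
  have e4 : ∫ θ in (0 : ℝ)..2 * Real.pi, (A.h θ - 1) ^ 2
      = (∫ θ in (0 : ℝ)..2 * Real.pi, A.h θ ^ 2) - 2 * A.len + 2 * Real.pi := by
    have h1 : ∀ θ, (A.h θ - 1) ^ 2 = A.h θ ^ 2 - 2 * A.h θ + 1 := fun θ => by ring
    simp only [h1]
    rw [intervalIntegral.integral_add (ih.sub (ih1.const_mul 2)) intervalIntegrable_const,
      intervalIntegral.integral_sub ih (ih1.const_mul 2), intervalIntegral.integral_const_mul,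
      intervalIntegral.integral_const]
    unfold Body.len
    simp
  rw [e4, hAl] at e3
  linarith

end Pool.Agent.RC
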