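import Pool.Agent.H.MP_1b807b_an.C.DefsC

/-! MP_1b807b_an, convex planar domains, module NumF: the numbers of the exponential profile -/

set_option autoImplicit false

namespace Pool.Agent.RC

open MeasureTheory Metric Set
open Pool.Agent.RG

namespace NumF

lemma hasDerivAt_ex (c t : ℝ) :
    HasDerivAt (fun t : ℝ => Real.exp (-(2 * c * t))) (-(2 * c) * Real.exp (-(2 * c * t))) t := by
  have h1 : HasDerivAt (fun t : ℝ => -(2 * c * t)) (-(2 * c * 1)) t :=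
    ((hasDerivAt_id t).const_mul (2 * c)).neg
  refine h1.exp.congr_deriv ?_
  ring

lemma jF0 {c : ℝ} (hc : 0 < c) : jF c 0 = (1 - Real.exp (-(2 * c))) / (2 * c) := by
  unfold jF
  have h : ∀ t : ℝ, HasDerivAt (fun t => -Real.exp (-(2 * c * t)) / (2 * c))
      (t ^ 0 * Real.exp (-(2 * c * t))) t := by
    intro t
    have := ((hasDerivAt_ex c t).neg).div_const (2 * c)
    refine this.congr_deriv ?_
    field_simp
  rw [intervalIntegral.integral_eq_sub_of_hasDerivAt (fun t _ => h t)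
    ((by fun_prop : Continuous fun t : ℝ => t ^ 0 * Real.exp (-(2 * c * t))).intervalIntegrable _ _)]
  simp
  ring

/-- recursion by parts -/
lemma jF_succ {c : ℝ} (hc : 0 < c) (i : ℕ) :
    jF c (i + 1) = ((i + 1) * jF c i - Real.exp (-(2 * c))) / (2 * c) := by
  unfold jF
  have h : ∀ t : ℝ, HasDerivAt (fun t => t ^ (i + 1) * Real.exp (-(2 * c * t)))
      ((i + 1) * (t ^ i * Real.exp (-(2 * c * t))) -
        2 * c * (t ^ (i + 1) * Real.exp (-(2 * c * t)))) t := by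
    intro t
    have := (hasDerivAt_pow (i + 1) t).mul (hasDerivAt_ex c t)
    refine this.congr_deriv ?_
    push_cast
    ring
  have hc1 : Continuous fun t : ℝ => (i + 1) * (t ^ i * Real.exp (-(2 * c * t))) := by fun_prop
  have hc2 : Continuous fun t : ℝ => 2 * c * (t ^ (i + 1) * Real.exp (-(2 * c * t))) := by fun_prop
  have key := intervalIntegral.integral_eq_sub_of_hasDerivAt (a := 0) (b := 1) (fun t _ => h t)
    ((hc1.sub hc2).intervalIntegrable _ _)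
  rw [intervalIntegral.integral_sub (hc1.intervalIntegrable _ _)
    (hc2.intervalIntegrable _ _), intervalIntegral.integral_const_mul,
    intervalIntegral.integral_const_mul] at key
  simp at key
  field_simp
  linarith

/-! the upper and the lower bound of `exp (-2c)` -/

lemma exp_58 : (32981 : ℝ) / 100 ≤ Real.exp (29 / 5) := by
  by_contra hcon
  push Not at hcon
  have h1 : Real.exp (29 / 5) ^ 5 = Real.exp 1 ^ 29 := by
    rw [← Real.exp_nat_mul, ← Real.exp_nat_mul]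
    norm_num
  have h2 := Real.exp_one_gt_d9
  have h3 : Real.exp (29 / 5) ^ 5 < (32981 / 100 : ℝ) ^ 5 :=
    pow_lt_pow_left₀ hcon (Real.exp_pos _).le (by norm_num)
  have h4 : (2.7182818283 : ℝ) ^ 29 < Real.exp 1 ^ 29 :=
    pow_lt_pow_left₀ h2 (by norm_num) (by norm_num)
  rw [h1] at h3
  have h5 := h4.trans h3
  norm_num at h5

lemma exp_61 : Real.exp (61 / 10) ≤ 450 := by
  by_contra hcon
  push Not at hcon
  have h1 : Real.exp (61 / 10) ^ 10 = Real.exp 1 ^ 61 := by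
    rw [← Real.exp_nat_mul, ← Real.exp_nat_mul]
    norm_num
  have h2 := Real.exp_one_lt_d9
  have h3 : (450 : ℝ) ^ 10 < Real.exp (61 / 10) ^ 10 :=
    pow_lt_pow_left₀ hcon (by norm_num) (by norm_num)
  have h4 : Real.exp 1 ^ 61 < (2.7182818286 : ℝ) ^ 61 :=
    pow_lt_pow_left₀ h2 (Real.exp_pos _).le (by norm_num)
  rw [h1] at h3
  have h5 := h3.trans h4
  norm_num at h5

lemma E_upper {u : ℝ} (hu : 0 ≤ u) :
    (29 / 10 + u) ^ 2 * Real.exp (-(2 * (29 / 10 + u))) ≤ 51 / 2000 := by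
  have h1 : Real.exp (-(2 * (29 / 10 + u))) = (Real.exp (29 / 5))⁻¹ * (Real.exp (2 * u))⁻¹ := by
    rw [← Real.exp_neg, ← Real.exp_neg, ← Real.exp_add]
    congr 1
    ring
  have h2 := exp_58
  have hpos := Real.exp_pos (2 * u)
  have h3 : (29 / 10 + u) ^ 2 ≤ 841 / 100 * Real.exp (2 * u) := by
    have h4 := Real.add_one_le_exp u
    have h5 : Real.exp (2 * u) = Real.exp u ^ 2 := by
      rw [← Real.exp_nat_mul]; norm_num
    rw [h5]
    have h6 : 29 / 10 + u ≤ 29 / 10 * Real.exp u := by nlinarith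
    calc (29 / 10 + u) ^ 2 ≤ (29 / 10 * Real.exp u) ^ 2 := by
          exact pow_le_pow_left₀ (by linarith) h6 2
      _ = 841 / 100 * Real.exp u ^ 2 := by ring
  rw [h1]
  have h7 : (Real.exp (29 / 5))⁻¹ ≤ (32981 / 100 : ℝ)⁻¹ := inv_anti₀ (by norm_num) h2
  calc (29 / 10 + u) ^ 2 * ((Real.exp (29 / 5))⁻¹ * (Real.exp (2 * u))⁻¹)
      ≤ 841 / 100 * Real.exp (2 * u) * ((32981 / 100 : ℝ)⁻¹ * (Real.exp (2 * u))⁻¹) := by
        gcongr
    _ = 841 / 100 * (32981 / 100 : ℝ)⁻¹ := by field_simp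
    _ ≤ 51 / 2000 := by norm_num

lemma E_lower {c : ℝ} (hc : c ≤ 61 / 20) : 22 / 10000 ≤ Real.exp (-(2 * c)) := by
  have h1 : Real.exp (-(61 / 10)) ≤ Real.exp (-(2 * c)) := Real.exp_le_exp.2 (by linarith)
  refine le_trans ?_ h1
  rw [Real.exp_neg]
  have h2 := exp_61
  have h3 : (450 : ℝ)⁻¹ ≤ (Real.exp (61 / 10))⁻¹ := inv_anti₀ (Real.exp_pos _) h2
  refine le_trans ?_ h3
  norm_num

lemma lin {A B E c K : ℝ} (hK : 0 < K) (hE : 0 ≤ E) (hc : 0 < c) (h : c ^ 2 * E ≤ K) (hA : 0 ≤ A)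
    (hAB : 0 ≤ A * c ^ 2 + K * B) : 0 ≤ A + B * E := by
  have h1 : 0 ≤ (K - c ^ 2 * E) * (A * c ^ 2) := by
    have : 0 ≤ K - c ^ 2 * E := by linarith
    positivity
  have h2 : 0 ≤ c ^ 2 * E * (A * c ^ 2 + K * B) := by positivity
  have h3 : 0 ≤ K * c ^ 2 * (A + B * E) := by nlinarith
  exact nonneg_of_mul_nonneg_right h3 (by positivity)

lemma lin' {A B E c K : ℝ} (hK : 0 < K) (hE : 0 < E) (hc : 0 < c) (h : c ^ 2 * E ≤ K) (hA : 0 ≤ A)
    (hAB : 0 < A * c ^ 2 + K * B) : 0 < A + B * E := by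
  have h1 : 0 ≤ (K - c ^ 2 * E) * (A * c ^ 2) := by
    have : 0 ≤ K - c ^ 2 * E := by linarith
    positivity
  have h2 : 0 < c ^ 2 * E * (A * c ^ 2 + K * B) := by positivity
  have h3 : 0 < K * c ^ 2 * (A + B * E) := by nlinarith
  exact (mul_pos_iff_of_pos_left (by positivity)).1 h3

/-- the same with `E` between `E₀` and `K / c²` -/
lemma lin2 {A B E E₀ c K : ℝ} (hE : E₀ ≤ E) (hc : 0 < c) (h : c ^ 2 * E ≤ K)
    (hA : 0 ≤ A + E₀ * B) (hAB : 0 ≤ A * c ^ 2 + K * B) : 0 ≤ A + B * E := by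
  have hc2 : 0 < c ^ 2 := by positivity
  rcases le_total 0 B with hB | hB
  · nlinarith
  · have h1 : B * (c ^ 2 * E) ≥ B * K := by nlinarith
    have h2 : 0 ≤ c ^ 2 * (A + B * E) := by nlinarith
    exact nonneg_of_mul_nonneg_right h2 hc2

/-- numerator of part 1 at `E = 0` -/
noncomputable def A1 (c : ℝ) : ℝ := (64 / 5) + 46 * c + 25 * c ^ 2

/-- coefficient of `E` in the numerator of part 1 -/
noncomputable def B1 (c : ℝ) : ℝ := (-64 / 5) + (-48) * c + (-80) * c ^ 2 + (-50) * c ^ 3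

/-- numerator of part 2 at `E = 0` -/
noncomputable def A2 (c : ℝ) : ℝ := 5120 + (45952 / 5) * c + (-3972) * c ^ 2 + 450 * c ^ 3

/-- coefficient of `E` in the numerator of part 2 -/
noncomputable def B2 (c : ℝ) : ℝ := (-5120) + (-97152 / 5) * c + (-32864) * c ^ 2 + (-21440) * c ^ 3 + (-900) * c ^ 4

/-- numerator of part 3 at `E = 0` -/
noncomputable def A3 (c : ℝ) : ℝ := (-24576 / 25) + (-6144) * c + (-11204608 / 625) * c ^ 2 + (-3435616 / 125) * c ^ 3 + (-432592 / 25) * c ^ 4 + (656 / 5) * c ^ 5 + 3080 * c ^ 6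

/-- coefficient of `E` in the numerator of part 3 -/
noncomputable def B3 (c : ℝ) : ℝ := (24576 / 25) + (202752 / 25) * c + (20113408 / 625) * c ^ 2 + (1917952 / 25) * c ^ 3 + (2941056 / 25) * c ^ 4 + (576352 / 5) * c ^ 5 + 66816 * c ^ 6 + 17840 * c ^ 7

/-- numerator of part 4 at `E = 0` -/
noncomputable def A4 (c : ℝ) : ℝ := (12288 / 25) + (52224 / 25) * c + (101376 / 25) * c ^ 2 + (1584128 / 625) * c ^ 3 + (-381344 / 125) * c ^ 4 + (-72928 / 25) * c ^ 5 + (-3296 / 5) * c ^ 6 + 720 * c ^ 7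

/-- coefficient of `E` in the numerator of part 4 -/
noncomputable def B4 (c : ℝ) : ℝ := (-12288 / 25) + (-3072) * c + (-9216) * c ^ 2 + (-9673728 / 625) * c ^ 3 + (-378432 / 25) * c ^ 4 + (-205296 / 25) * c ^ 5 + (-18432 / 5) * c ^ 6 + (-3456) * c ^ 7 + (-1440) * c ^ 8

lemma A1_pos {u : ℝ} (hu : 0 ≤ u) : 0 < A1 (29 / 10 + u) := by
  have e : A1 (29 / 10 + u) = (7129 / 20) + 191 * u + 25 * u ^ 2 := by
    unfold A1
    ring
  rw [e]
  positivity

lemma AB1_pos {u : ℝ} (hu : 0 ≤ u) :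
    0 < A1 (29 / 10 + u) * (29 / 10 + u) ^ 2 + 51 / 2000 * B1 (29 / 10 + u) := by
  have e : A1 (29 / 10 + u) * (29 / 10 + u) ^ 2 + 51 / 2000 * B1 (29 / 10 + u) = (23564929 / 8000) + (14513983 / 4000) * u + (664547 / 400) * u ^ 2 + (13389 / 40) * u ^ 3 + 25 * u ^ 4 := by
    unfold A1 B1
    ring
  rw [e]
  positivity

lemma AB3_nonneg {u : ℝ} (hu : 0 ≤ u) :
    0 ≤ A3 (29 / 10 + u) * (29 / 10 + u) ^ 2 + 51 / 2000 * B3 (29 / 10 + u) := by
  have e : A3 (29 / 10 + u) * (29 / 10 + u) ^ 2 + 51 / 2000 * B3 (29 / 10 + u) = (9462327555013 / 10000000) + (77514651800319 / 5000000) * u + (76239239360941 / 2500000) * u ^ 2 + (6744407168183 / 250000) * u ^ 3 + (335263440243 / 25000) * u ^ 4 + (10035365169 / 2500) * u ^ 5 + (180394191 / 250) * u ^ 6 + (1801053 / 25) * u ^ 7 + 3080 * u ^ 8 := by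
    unfold A3 B3
    ring
  rw [e]
  positivity

lemma A4_nonneg {u : ℝ} (hu : 0 ≤ u) : 0 ≤ A4 (29 / 10 + u) := by
  have e : A4 (29 / 10 + u) = (17280463209 / 125000) + (59186119139 / 62500) * u + (9766468969 / 6250) * u ^ 2 + (739137271 / 625) * u ^ 3 + (60761966 / 125) * u ^ 4 + 112772 * u ^ 5 + (69784 / 5) * u ^ 6 + 720 * u ^ 7 := by
    unfold A4
    ring
  rw [e]
  positivity

lemma AB4_nonneg {u : ℝ} (hu : 0 ≤ u) :
    0 ≤ A4 (29 / 10 + u) * (29 / 10 + u) ^ 2 + 51 / 2000 * B4 (29 / 10 + u) := by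
  have e : A4 (29 / 10 + u) * (29 / 10 + u) ^ 2 + 51 / 2000 * B4 (29 / 10 + u) = (34445503553109 / 50000000) + (11958477078917 / 1562500) * u + (55022993282907 / 3125000) * u ^ 2 + (3007472200177 / 156250) * u ^ 3 + (152969828241 / 12500) * u ^ 4 + (15258832637 / 3125) * u ^ 5 + (779387618 / 625) * u ^ 6 + (24854576 / 125) * u ^ 7 + (452402 / 25) * u ^ 8 + 720 * u ^ 9 := by
    unfold A4 B4
    ring
  rw [e]
  positivity

lemma A2_nonneg {u : ℝ} (hu : 0 ≤ u) : 0 ≤ A2 (29 / 10 + u) := by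
  have e : A2 (29 / 10 + u) = (934269 / 100) + (-24937 / 10) * u + (-57) * u ^ 2 + 450 * u ^ 3 := by
    unfold A2
    ring
  rw [e]
  nlinarith [mul_nonneg (sq_nonneg (u - 3 / 2)) (by linarith : 0 ≤ u + 3), mul_nonneg hu (sq_nonneg (u - 57 / 100))]

lemma AB2_nonneg {u : ℝ} (hu : 0 ≤ u) :
    0 ≤ A2 (29 / 10 + u) * (29 / 10 + u) ^ 2 + 51 / 2000 * B2 (29 / 10 + u) := by
  have e : A2 (29 / 10 + u) * (29 / 10 + u) ^ 2 + 51 / 2000 * B2 (29 / 10 + u) = (2199982869 / 40000) + (29567171 / 2500) * u + (-12352693 / 1000) * u ^ 2 + (7363 / 50) * u ^ 3 + (50601 / 20) * u ^ 4 + 450 * u ^ 5 := by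
    unfold A2 B2
    ring
  rw [e]
  have h3 := pow_nonneg hu 3
  have h5 := pow_nonneg hu 5
  nlinarith [sq_nonneg (u ^ 2 - 2441 / 1000)]

lemma A3_nonneg {u : ℝ} (hu : 0 ≤ u) : 0 ≤ A3 (61 / 20 + u) := by
  have e : A3 (61 / 20 + u) = (16107286793 / 320000) + (417594337819 / 200000) * u + (55999842191 / 20000) * u ^ 2 + (380342189 / 250) * u ^ 3 + (20723631 / 50) * u ^ 4 + (282476 / 5) * u ^ 5 + 3080 * u ^ 6 := by
    unfold A3
    ring
  rw [e]
  positivity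

lemma AC3_nonneg {u : ℝ} (hu : 0 ≤ u) : 0 ≤ A3 (29 / 10 + u) + 22 / 10000 * B3 (29 / 10 + u) := by
  have e : A3 (29 / 10 + u) + 22 / 10000 * B3 (29 / 10 + u) = (635876165841 / 25000000) + (22614392991927 / 12500000) * u + (16068123041901 / 6250000) * u ^ 2 + (924091336383 / 625000) * u ^ 3 + (26820174043 / 62500) * u ^ 4 + (396663129 / 6250) * u ^ 5 + (2514831 / 625) * u ^ 6 + (4906 / 125) * u ^ 7 := by
    unfold A3 B3
    ring
  rw [e]
  positivity

end NumF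

open NumF

theorem F_num {k c P β x₁ : ℝ} (hk : 37 / 10 ≤ k) (hc : c = k - 4 / 5) (hP : P = c ^ 2 + k ^ 2)
    (hβ : β = k - 1 / 2 - 1 / (5 * k)) (hx : x₁ = P * jF c 0 - β) :
    0 < x₁ ∧ 2 * (x₁ - P * jF c 1) ≤ 0.045 * x₁ ∧
      3 * P * jF c 2 - β / P ≤ (3 - 2.23) * x₁ ∧
      x₁ - 3 * P * jF c 1 + 3 * P * jF c 2 - P * jF c 3 + 1 - β / P ≤ 0.18 * x₁ := by
  obtain ⟨u, hu, hcu⟩ : ∃ u : ℝ, 0 ≤ u ∧ c = 29 / 10 + u := ⟨c - 29 / 10, by linarith, by ring⟩
  have hc0 : 0 < c := by linarith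
  have hkc : k = c + 4 / 5 := by linarith
  set E := Real.exp (-(2 * c)) with hE
  have hE0 : 0 < E := Real.exp_pos _
  have hE1 : c ^ 2 * E ≤ 51 / 2000 := by
    have := E_upper hu
    rw [← hcu] at this
    exact this
  have j0 : jF c 0 = (1 - E) / (2 * c) := jF0 hc0
  have j1 : jF c 1 = (jF c 0 - E) / (2 * c) := by
    have := jF_succ hc0 0
    simpa using this
  have j2 : jF c 2 = (2 * jF c 1 - E) / (2 * c) := by
    have := jF_succ hc0 1
    norm_num at this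
    exact this
  have j3 : jF c 3 = (3 * jF c 2 - E) / (2 * c) := by
    have := jF_succ hc0 2
    norm_num at this
    exact this
  have hP0 : P = 2 * c ^ 2 + 8 / 5 * c + 16 / 25 := by rw [hP, hkc]; ring
  have hPp : 0 < P := by rw [hP0]; positivity
  have hk5 : 0 < 5 * c + 4 := by linarith
  have hβ0 : β = c + 3 / 10 - 1 / (5 * c + 4) := by
    rw [hβ, hkc]
    have : 5 * (c + 4 / 5) = 5 * c + 4 := by ring
    rw [this]
    ring
  have n1 : 0 < A1 c + B1 c * E := by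
    rw [hcu]
    refine lin' (K := 51 / 2000) (by norm_num) hE0 (hcu ▸ hc0) (by rw [← hcu]; exact hE1)
      (A1_pos hu).le ?_
    exact AB1_pos hu
  have n2 : 0 ≤ A2 c + B2 c * E := by
    rw [hcu]
    refine lin (K := 51 / 2000) (by norm_num) hE0.le (hcu ▸ hc0) (by rw [← hcu]; exact hE1) (A2_nonneg hu) ?_
    exact AB2_nonneg hu
  have n4 : 0 ≤ A4 c + B4 c * E := by
    rw [hcu]
    refine lin (K := 51 / 2000) (by norm_num) hE0.le (hcu ▸ hc0) (by rw [← hcu]; exact hE1) (A4_nonneg hu) ?_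
    exact AB4_nonneg hu
  have n3 : 0 ≤ A3 c + B3 c * E := by
    rcases le_total c (61 / 20) with h | h
    · have hl := E_lower h
      rw [hcu]
      refine lin2 (E₀ := 22 / 10000) (K := 51 / 2000) hl (hcu ▸ hc0) (by rw [← hcu]; exact hE1)
        (AC3_nonneg hu) (AB3_nonneg hu)
    · have hA : 0 ≤ A3 c := by
        have := A3_nonneg (u := c - 61 / 20) (by linarith)
        rwa [show 61 / 20 + (c - 61 / 20) = c by ring] at this
      refine lin (K := 51 / 2000) (by norm_num) hE0.le hc0 hE1 hA ?_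
      rw [hcu]
      exact AB3_nonneg hu
  have q1 : x₁ = (A1 c + B1 c * E) / (10 * c * (5 * c + 4)) := by
    rw [hx, j0, hβ0, hP0]
    unfold A1 B1
    field_simp
    ring
  have q2 : 0.045 * x₁ - 2 * (x₁ - P * jF c 1) =
      (A2 c + B2 c * E) / (4000 * c ^ 2 * (5 * c + 4)) := by
    rw [hx, j1, j0, hβ0, hP0]
    unfold A2 B2
    field_simp
    ring
  have q3 : (3 - 2.23) * x₁ - (3 * P * jF c 2 - β / P) =
      (A3 c + B3 c * E) / (800 * c ^ 3 * (5 * c + 4) * P) := by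
    rw [hx, j2, j1, j0, hβ0, hP0]
    rw [hP0] at hPp
    unfold A3 B3
    field_simp
    ring
  have q4 : 0.18 * x₁ - (x₁ - 3 * P * jF c 1 + 3 * P * jF c 2 - P * jF c 3 + 1 - β / P) =
      (A4 c + B4 c * E) / (800 * c ^ 4 * (5 * c + 4) * P) := by
    rw [hx, j3, j2, j1, j0, hβ0, hP0]
    rw [hP0] at hPp
    unfold A4 B4
    field_simp
    ring
  refine ⟨?_, ?_, ?_, ?_⟩
  · rw [q1]
    positivity
  · have : 0 ≤ (A2 c + B2 c * E) / (4000 * c ^ 2 * (5 * c + 4)) := by positivity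
    linarith
  · have : 0 ≤ (A3 c + B3 c * E) / (800 * c ^ 3 * (5 * c + 4) * P) := by positivity
    linarith
  · have : 0 ≤ (A4 c + B4 c * E) / (800 * c ^ 4 * (5 * c + 4) * P) := by positivity
    linarith

end Pool.Agent.RC
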