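import Pool.Agent.H.MP_1b807b_an.C.HNonneg
import Pool.Agent.H.MP_1b807b_an.C.FTest
import Pool.Agent.H.MP_1b807b_an.C.CertF
import Pool.Agent.H.MP_1b807b_an.C.NumF
import Pool.Agent.H.MP_1b807b_an.C.GGlow
import Pool.Agent.H.MP_1b807b_an.C.Cases
import Pool.Agent.H.MP_1b807b_an.C.Halves

/-! MP_1b807b_an, convex planar domains, module CaseF: the case `k ≥ 3.7`, `1.4 ≤ len/(2π) ≤ 1.92` -/

set_option autoImplicit false

namespace Pool.Agent.RC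

open MeasureTheory Metric Set
open Pool.Agent.RG
open scoped RealInnerProductSpace

theorem cf_Ml_nonneg (B : Body) (o : E 2) : 0 ≤ B.Ml o := by
  have h2 : (0 : ℝ) ≤ 2 * Real.pi := by positivity
  exact intervalIntegral.integral_nonneg h2
    fun θ _ => mul_nonneg (sq_nonneg _) (B.pos θ).le

/-- the energy of the pair (F) at a point `o` where the quadratic functional is `≤ 0` -/
theorem cf_EF {k c P β l Ml Mw L : ℝ} (hk : 37 / 10 ≤ k) (hc : c = k - 4 / 5)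
    (hP : P = c ^ 2 + k ^ 2) (hβ : k - 1 / 2 - 1 / (5 * k) ≤ β) (hl : 1 < l)
    (hL : L = 2 * Real.pi * l) (hM : 0 ≤ Ml) (hW : 0 ≤ Mw - 2 * Real.pi)
    (ho : (Ml - 2 * Real.pi) - (Mw - 2 * Real.pi) * (1 - 0.045 / 2) +
        (3 - (2.22 - 0.18 / (l - 1))) * (L - 2 * Real.pi) ≤ 0) :
    EF P c β Ml Mw L ≤ 0 := by
  obtain ⟨hx0, hx1, hx2, hx3⟩ := F_num (x₁ := P * jF c 0 - (k - 1 / 2 - 1 / (5 * k)))
    hk hc hP rfl rfl
  set β₀ := k - 1 / 2 - 1 / (5 * k) with hβ₀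
  set x₁ := P * jF c 0 - β₀ with hx₁
  have hpi := Real.pi_pos
  have hP0 : 0 < P := by
    rw [hP]
    nlinarith [sq_nonneg c]
  have hl1 : 0 < l - 1 := by linarith
  have hL' : L - 2 * Real.pi = 2 * Real.pi * (l - 1) := by rw [hL]; ring
  have hL0 : 0 ≤ L - 2 * Real.pi := by rw [hL']; positivity
  have hLP : 0 ≤ L / P + Ml := by
    have : 0 ≤ L / P := div_nonneg (by linarith) hP0.le
    linarith
  have h1 : EF P c β Ml Mw L ≤ EF P c β₀ Ml Mw L := by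
    unfold EF
    nlinarith [mul_le_mul_of_nonneg_right hβ hLP]
  refine h1.trans ?_
  have h2 : EF P c β₀ Ml Mw L = x₁ * (Ml - 2 * Real.pi) - P * jF c 1 * (Mw - 2 * Real.pi)
      + (3 * P * jF c 2 - β₀ / P) * (L - 2 * Real.pi)
      + 2 * Real.pi * (x₁ - 3 * P * jF c 1 + 3 * P * jF c 2 - P * jF c 3 + 1 - β₀ / P) := by
    unfold EF
    rw [hx₁]
    ring
  rw [h2]
  have h3 : x₁ * (1 - 0.045 / 2) * (Mw - 2 * Real.pi) ≤ P * jF c 1 * (Mw - 2 * Real.pi) :=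
    mul_le_mul_of_nonneg_right (by linarith) hW
  have h4 : (3 * P * jF c 2 - β₀ / P) * (L - 2 * Real.pi) ≤
      (3 - 2.23) * x₁ * (L - 2 * Real.pi) := mul_le_mul_of_nonneg_right hx2 hL0
  have h5 : 2 * Real.pi * (x₁ - 3 * P * jF c 1 + 3 * P * jF c 2 - P * jF c 3 + 1 - β₀ / P) ≤
      2 * Real.pi * (0.18 * x₁) := mul_le_mul_of_nonneg_left hx3 (by positivity)
  have h6 : 0.18 / (l - 1) * (L - 2 * Real.pi) = 2 * Real.pi * 0.18 := by
    rw [hL']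
    field_simp
  have h7 : x₁ * ((Ml - 2 * Real.pi) - (Mw - 2 * Real.pi) * (1 - 0.045 / 2) +
        (3 - 2.22) * (L - 2 * Real.pi) + 2 * Real.pi * 0.18) ≤ 0 := by
    refine mul_nonpos_of_nonneg_of_nonpos hx0.le ?_
    have : (3 - (2.22 - 0.18 / (l - 1))) * (L - 2 * Real.pi) =
        (3 - 2.22) * (L - 2 * Real.pi) + 2 * Real.pi * 0.18 := by
      rw [← h6]; ring
    linarith
  have h8 : 0 ≤ x₁ * (L - 2 * Real.pi) := mul_nonneg hx0.le hL0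
  nlinarith

theorem case_F : CaseOK fun k B => 37 / 10 ≤ k ∧ 2 * Real.pi * (7 / 5) ≤ B.len ∧
    B.len ≤ 2 * Real.pi * (48 / 25) := by
  intro K₀ hK d hd
  obtain ⟨C, c₀, hC, hc₀, hT⟩ := F_test hK hd
  refine ⟨C, c₀, hC, hc₀, ?_⟩
  rintro k B hk hkK ⟨hk37, hlo, hhi⟩ hA h0 hB ε hε
  have hpi := Real.pi_pos
  have h2pi : (0 : ℝ) < 2 * Real.pi := by positivity
  obtain ⟨l, hl⟩ : ∃ l, B.len = 2 * Real.pi * l := ⟨B.len / (2 * Real.pi), by field_simp⟩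
  have hl1 : 7 / 5 ≤ l := by
    rw [hl] at hlo
    exact le_of_mul_le_mul_left hlo h2pi
  have hl2 : l ≤ 48 / 25 := by
    rw [hl] at hhi
    exact le_of_mul_le_mul_left hhi h2pi
  obtain ⟨o, hoK, ho⟩ := H_nonnegE (by linarith) (cert_F hl1 hl2) B hA hl
  have hW : 0 ≤ B.Mw o - 2 * Real.pi := by
    have := Mw_ge B hA o
    nlinarith
  exact ⟨_, _, _, _, hT k (k - 4 / 5) ((k - 4 / 5) ^ 2 + k ^ 2) B o rfl rfl (by linarith) hkK hA h0
    hB hoK (cf_EF hk37 rfl rfl (GG_low hk37) (by linarith) hl (cf_Ml_nonneg B o) hW ho) ε hε⟩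

end Pool.Agent.RC
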