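import Pool.Agent.H.MP_1b807b_an.C.DefsC

/-! MP_1b807b_an, convex planar domains, module Phi: the function `r(z) = I₀(z) I₁(z) / z` and the
inequality `∫_s^1 r(kt) dt ≤ (2 - s) r(ks)` of the web case -/

set_option autoImplicit false

namespace Pool.Agent.RC

open Finset
open Pool.Agent.H.MP_1b807b_an

/-- coefficients of `I₀²` -/
noncomputable def bb (n : ℕ) : ℝ := ((2 * n).choose n : ℝ) / (4 ^ n * (n.factorial : ℝ) ^ 2)

lemma cc_one_eq (n : ℕ) : cc 1 n = 1 / (4 ^ n * (n.factorial : ℝ) ^ 2) := by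
  induction n with
  | zero => simp [cc_zero]
  | succ n ih =>
    rw [cc_succ, ih, Nat.factorial_succ]
    push_cast
    have h : (0 : ℝ) < (n.factorial : ℝ) := by exact_mod_cast Nat.factorial_pos n
    field_simp
    ring

lemma bb_pos (n : ℕ) : 0 < bb n := by
  have h : 0 < (2 * n).choose n := Nat.choose_pos (by omega)
  unfold bb
  positivity

lemma bb_le (n : ℕ) : bb n ≤ 1 / (n.factorial : ℝ) := by
  have h1 : ((2 * n).choose n : ℝ) ≤ 4 ^ n := by
    have := Nat.choose_le_two_pow (2 * n) n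
    have h2 : (2 : ℕ) ^ (2 * n) = 4 ^ n := by rw [pow_mul]; norm_num
    rw [h2] at this
    exact_mod_cast this
  have h : (1 : ℝ) ≤ (n.factorial : ℝ) := by exact_mod_cast Nat.factorial_pos n
  unfold bb
  rw [div_le_div_iff₀ (by positivity) (by positivity)]
  calc ((2 * n).choose n : ℝ) * (n.factorial : ℝ) ≤ 4 ^ n * (n.factorial : ℝ) := by gcongr
    _ ≤ 1 * (4 ^ n * (n.factorial : ℝ) ^ 2) := by
        rw [one_mul]; gcongr; nlinarith

lemma ent_bb : Ent bb := ⟨1, fun j => by rw [abs_of_pos (bb_pos j)]; exact bb_le j⟩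

lemma sum_cc_cc (n : ℕ) : ∑ kl ∈ antidiagonal n, cc 1 kl.1 * cc 1 kl.2 = bb n := by
  have h1 : ((2 * n).choose n : ℝ)
      = ∑ kl ∈ antidiagonal n, (n.choose kl.1 : ℝ) * (n.choose kl.2 : ℝ) := by
    have := Nat.add_choose_eq n n n
    rw [← two_mul] at this
    rw [this]
    push_cast
    rfl
  unfold bb
  rw [h1, Finset.sum_div]
  refine Finset.sum_congr rfl fun kl hkl => ?_
  obtain ⟨i, j⟩ := kl
  rw [HasAntidiagonal.mem_antidiagonal] at hkl
  simp only at hkl ⊢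
  subst hkl
  have hi : (0 : ℝ) < (i.factorial : ℝ) := by exact_mod_cast Nat.factorial_pos i
  have hj : (0 : ℝ) < (j.factorial : ℝ) := by exact_mod_cast Nat.factorial_pos j
  have hij : (0 : ℝ) < ((i + j).factorial : ℝ) := by exact_mod_cast Nat.factorial_pos (i + j)
  have e1 : ((i + j).choose i : ℝ) = (i + j).factorial / (i.factorial * j.factorial) :=
    Nat.cast_add_choose ℝ
  have e2 : ((i + j).choose j : ℝ) = (i + j).factorial / (i.factorial * j.factorial) := by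
    rw [Nat.choose_symm_add.symm]; exact e1
  rw [e1, e2, cc_one_eq, cc_one_eq, pow_add]
  field_simp

lemma ser_cc_sq (x : ℝ) : ser (cc 1) x * ser (cc 1) x = ser bb x := by
  have hs := (ent_cc 1).summable x
  have hn : Summable fun j => ‖cc 1 j * x ^ j‖ := hs.norm
  unfold ser
  rw [tsum_mul_tsum_eq_tsum_sum_antidiagonal_of_summable_norm hn hn]
  refine tsum_congr fun n => ?_
  rw [← sum_cc_cc n, Finset.sum_mul]
  refine Finset.sum_congr rfl fun kl hkl => ?_
  rw [HasAntidiagonal.mem_antidiagonal] at hkl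
  rw [← hkl, pow_add]
  ring

theorem I0_sq (z : ℝ) : I0 z ^ 2 = ser bb (z ^ 2) := by
  rw [← ser_cc_sq, sq]
  rfl

lemma ser_shc_bb (x : ℝ) : ser (shc bb) x = 2 * (ser (cc 1) x * ser (shc (cc 1)) x) := by
  have h1 : HasDerivAt (ser bb) (ser (shc bb) x) x := hasDerivAt_ser ent_bb x
  have h2 : HasDerivAt (fun x => ser (cc 1) x * ser (cc 1) x)
      (ser (shc (cc 1)) x * ser (cc 1) x + ser (cc 1) x * ser (shc (cc 1)) x) x :=
    (hasDerivAt_ser (ent_cc 1) x).mul (hasDerivAt_ser (ent_cc 1) x)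
  have h3 : (fun x => ser (cc 1) x * ser (cc 1) x) = ser bb := funext ser_cc_sq
  rw [h3] at h2
  rw [h1.unique h2]
  ring

/-- `I₀(z) I₁(z) / z`, as a power series -/
noncomputable def rs (z : ℝ) : ℝ := ser (shc bb) (z ^ 2)

theorem I0_mul_I1_rs (z : ℝ) : I0 z * I1 z = z * rs z := by
  unfold rs
  rw [ser_shc_bb]
  unfold I0 I1 V W
  ring

theorem continuous_rs : Continuous rs :=
  (continuous_ser ent_bb.shc).comp (continuous_pow 2)

lemma shc_bb_pos (n : ℕ) : 0 < shc bb n := by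
  have := bb_pos (n + 1)
  unfold shc
  positivity

theorem rs_zero : rs 0 = 1 / 2 := by
  unfold rs
  rw [show (0 : ℝ) ^ 2 = 0 by norm_num, ser_zero]
  unfold shc bb
  norm_num

theorem rr_eq_rs (z : ℝ) : rr z = rs z := by
  unfold rr
  split_ifs with h
  · rw [h, rs_zero]
  · rw [I0_mul_I1_rs, mul_div_cancel_left₀ _ h]

theorem rr_fun_eq : rr = rs := funext rr_eq_rs

theorem continuous_rr : Continuous rr := by rw [rr_fun_eq]; exact continuous_rs

theorem I0_mul_I1 (z : ℝ) : I0 z * I1 z = z * rr z := by rw [rr_eq_rs]; exact I0_mul_I1_rs z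

lemma ser_mono {a : ℕ → ℝ} (h : Ent a) (ha : ∀ j, 0 ≤ a j) {x y : ℝ} (hx : 0 ≤ x) (hxy : x ≤ y) :
    ser a x ≤ ser a y := by
  unfold ser
  refine (h.summable x).tsum_le_tsum (fun j => ?_) (h.summable y)
  exact mul_le_mul_of_nonneg_left (pow_le_pow_left₀ hx hxy j) (ha j)

theorem rs_mono {x y : ℝ} (hx : 0 ≤ x) (hxy : x ≤ y) : rs x ≤ rs y :=
  ser_mono ent_bb.shc (fun j => (shc_bb_pos j).le) (by positivity) (pow_le_pow_left₀ hx hxy 2)

theorem half_le_rs (z : ℝ) : 1 / 2 ≤ rs z := by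
  have h := ser_ge ent_bb.shc (fun j => (shc_bb_pos j).le) (sq_nonneg z)
  have h2 : shc bb 0 = 1 / 2 := by
    unfold shc bb
    norm_num
  rw [h2] at h
  exact h

theorem rs_pos (z : ℝ) : 0 < rs z := lt_of_lt_of_le (by norm_num) (half_le_rs z)

theorem rr_pos (z : ℝ) : 0 < rr z := by rw [rr_eq_rs]; exact rs_pos z

theorem half_le_rr (z : ℝ) : 1 / 2 ≤ rr z := by rw [rr_eq_rs]; exact half_le_rs z

theorem rr_mono {x y : ℝ} (hx : 0 ≤ x) (hxy : x ≤ y) : rr x ≤ rr y := by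
  rw [rr_eq_rs, rr_eq_rs]; exact rs_mono hx hxy

/-- coefficients of the primitive of `r` -/
noncomputable def qq (n : ℕ) : ℝ := shc bb n / (2 * n + 1)

lemma qq_pos (n : ℕ) : 0 < qq n := by
  have := shc_bb_pos n
  unfold qq
  positivity

lemma ent_qq : Ent qq := by
  obtain ⟨C, hC⟩ := ent_bb.shc
  refine ⟨C, fun j => le_trans ?_ (hC j)⟩
  rw [abs_of_pos (qq_pos j), abs_of_pos (shc_bb_pos j)]
  unfold qq
  rw [div_le_iff₀ (by positivity)]
  have := shc_bb_pos j
  have hj : (0 : ℝ) ≤ j := by positivity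
  nlinarith

lemma mul_ser_shc {a : ℕ → ℝ} (h : Ent a) (z : ℝ) :
    HasSum (fun j : ℕ => (j : ℝ) * a j * z ^ j) (z * ser (shc a) z) := by
  have h1 := h.shc.summable z
  have hs : Summable (fun j : ℕ => (j : ℝ) * a j * z ^ j) := by
    rw [← summable_nat_add_iff 1]
    refine (h1.mul_left z).congr (fun j => ?_)
    unfold shc
    push_cast
    ring
  have : z * ser (shc a) z = ∑' j : ℕ, (j : ℝ) * a j * z ^ j := by
    rw [hs.tsum_eq_zero_add]
    simp only [Nat.cast_zero, zero_mul, zero_add]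
    unfold ser
    rw [← tsum_mul_left]
    congr 1
    ext j
    unfold shc
    push_cast
    ring
  rw [this]
  exact hs.hasSum

lemma ser_qq_deriv (z : ℝ) : ser qq z + 2 * (z * ser (shc qq) z) = ser (shc bb) z := by
  have h1 : HasSum (fun j : ℕ => qq j * z ^ j) (ser qq z) := (ent_qq.summable z).hasSum
  have h2 := (mul_ser_shc ent_qq z).mul_left 2
  have h3 := h1.add h2
  have h4 : HasSum (fun j : ℕ => shc bb j * z ^ j) (ser (shc bb) z) :=
    (ent_bb.shc.summable z).hasSum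
  refine h3.unique ?_
  convert h4 using 1
  ext j
  unfold qq
  field_simp
  ring

lemma hasDerivAt_prim (k t : ℝ) :
    HasDerivAt (fun t => t * ser qq ((k * t) ^ 2)) (rs (k * t)) t := by
  have h1 : HasDerivAt (fun t : ℝ => (k * t) ^ 2) (2 * (k * t) * k) t := by
    have h := ((hasDerivAt_id t).const_mul k).fun_pow 2
    refine h.congr_deriv ?_
    simp only [id]
    push_cast
    ring
  have h2 : HasDerivAt (fun t : ℝ => ser qq ((k * t) ^ 2))
      (ser (shc qq) ((k * t) ^ 2) * (2 * (k * t) * k)) t := by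
    have h := (hasDerivAt_ser ent_qq ((k * t) ^ 2)).comp t h1
    exact h
  have h3 := (hasDerivAt_id t).fun_mul h2
  refine h3.congr_deriv ?_
  unfold rs
  rw [← ser_qq_deriv]
  simp only [id]
  ring

theorem integral_rs (k s : ℝ) :
    ∫ t in s..1, rs (k * t) = ser qq (k ^ 2) - s * ser qq ((k * s) ^ 2) := by
  have h := intervalIntegral.integral_eq_sub_of_hasDerivAt (a := s) (b := 1)
    (f := fun t => t * ser qq ((k * t) ^ 2)) (f' := fun t => rs (k * t))
    (fun t _ => hasDerivAt_prim k t)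
    ((continuous_rs.comp (continuous_const.mul continuous_id)).intervalIntegrable _ _)
  rw [h]
  simp

/-- the factor of the `n`-th coefficient -/
noncomputable def cf (s : ℝ) (n : ℕ) : ℝ := (2 - s) * s ^ (2 * n) - (1 - s ^ (2 * n + 1)) / (2 * n + 1)

/-- the `n`-th coefficient -/
noncomputable def ca (s : ℝ) (n : ℕ) : ℝ := shc bb n * cf s n

lemma hasSum_phi (k s : ℝ) :
    HasSum (fun n => ca s n * (k ^ 2) ^ n)
      ((2 - s) * rs (k * s) - ∫ t in s..1, rs (k * t)) := by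
  rw [integral_rs]
  have h1 : HasSum (fun j : ℕ => shc bb j * ((k * s) ^ 2) ^ j) (rs (k * s)) :=
    (ent_bb.shc.summable _).hasSum
  have h2 : HasSum (fun j : ℕ => qq j * (k ^ 2) ^ j) (ser qq (k ^ 2)) :=
    (ent_qq.summable _).hasSum
  have h3 : HasSum (fun j : ℕ => qq j * ((k * s) ^ 2) ^ j) (ser qq ((k * s) ^ 2)) :=
    (ent_qq.summable _).hasSum
  have h4 := (h1.mul_left (2 - s)).sub (h2.sub (h3.mul_left s))
  have hfun : (fun n => ca s n * (k ^ 2) ^ n) = fun n => (2 - s) * (shc bb n * ((k * s) ^ 2) ^ n)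
      - (qq n * (k ^ 2) ^ n - s * (qq n * ((k * s) ^ 2) ^ n)) := by
    funext n
    have e1 : ((k * s) ^ 2) ^ n = (k ^ 2) ^ n * s ^ (2 * n) := by
      rw [mul_pow k s 2, mul_pow (k ^ 2) (s ^ 2) n, ← pow_mul s]
    rw [e1]
    unfold ca cf qq
    rw [pow_succ s (2 * n)]
    field_simp
  rw [hfun]
  exact h4

/-- `cf` is increasing in `s` -/
lemma cf_mono {s t : ℝ} (hs : 0 ≤ s) (hst : s ≤ t) (ht : t ≤ 1) (n : ℕ) : cf s n ≤ cf t n := by
  have hn : (0 : ℝ) < 2 * n + 1 := by positivity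
  suffices h : (2 * n + 1 : ℝ) * cf s n ≤ (2 * n + 1) * cf t n from le_of_mul_le_mul_left h hn
  have e : ∀ x : ℝ, (2 * n + 1 : ℝ) * cf x n = (2 * (2 * n + 1)) * x ^ (2 * n) - 2 * n * x ^ (2 * n + 1) - 1 := by
    intro x
    unfold cf
    rw [pow_succ]
    field_simp
    ring
  rw [e, e]
  -- the derivative of `x ↦ 2(2n+1)x^(2n) - 2n x^(2n+1)` is `2n(2n+1) x^(2n-1) (2 - x)`
  have hmono : MonotoneOn (fun x : ℝ => (2 * (2 * n + 1)) * x ^ (2 * n) - 2 * n * x ^ (2 * n + 1)) (Set.Icc (0:ℝ) 1) := by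
    refine monotoneOn_of_deriv_nonneg (convex_Icc 0 1) (by fun_prop) (by fun_prop) ?_
    intro x hx
    rw [interior_Icc] at hx
    have hd : HasDerivAt (fun x : ℝ => (2 * (2 * n + 1)) * x ^ (2 * n) - 2 * n * x ^ (2 * n + 1))
        ((2 * (2 * n + 1)) * ((2 * n : ℕ) * x ^ (2 * n - 1)) - 2 * n * ((2 * n + 1 : ℕ) * x ^ (2 * n + 1 - 1))) x :=
      ((hasDerivAt_pow (2 * n) x).const_mul _).sub ((hasDerivAt_pow (2 * n + 1) x).const_mul _)
    rw [hd.deriv]
    rcases Nat.eq_zero_or_pos n with h0 | h0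
    · subst h0; simp
    · have e2 : x ^ (2 * n + 1 - 1) = x ^ (2 * n - 1) * x := by
        rw [← pow_succ]; congr 1; omega
      rw [e2]
      push_cast
      have hx0 : 0 < x ^ (2 * n - 1) := pow_pos hx.1 _
      have : (2 * (2 * n + 1)) * (2 * n * x ^ (2 * n - 1)) - 2 * n * ((2 * n + 1) * (x ^ (2 * n - 1) * x))
        = (2 * n) * (2 * n + 1) * x ^ (2 * n - 1) * (2 - x) := by ring
      rw [this]
      have := hx.2
      have h2 : 0 < 2 - x := by linarith
      positivity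
  have := hmono ⟨hs, hst.trans ht⟩ ⟨hs.trans hst, ht⟩ hst
  simp only at this
  linarith

/-- in the increasing part `(2n+1) s^(2n) ≥ 1` -/
lemma u_ge_one {s : ℝ} (n : ℕ) (h : (2 * n + 1 : ℝ) ≤ (2 * n + 3) * s ^ 2) :
    1 ≤ (2 * n + 1 : ℝ) * s ^ (2 * n) := by
  induction n with
  | zero => simp
  | succ n ih =>
    push_cast at h ⊢
    have h1 : (2 * n + 1 : ℝ) ≤ (2 * n + 3) * s ^ 2 := by
      have h2 : (2 * (n + 1) + 1 : ℝ) / (2 * (n + 1) + 3) ≤ s ^ 2 := by
        rw [div_le_iff₀ (by positivity)]; linarith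
      have h3 : (2 * n + 1 : ℝ) / (2 * n + 3) ≤ (2 * (n + 1) + 1 : ℝ) / (2 * (n + 1) + 3) := by
        rw [div_le_div_iff₀ (by positivity) (by positivity)]; nlinarith
      have h4 := h3.trans h2
      rw [div_le_iff₀ (by positivity)] at h4
      linarith
    have h5 := ih h1
    have e : (2 * (n + 1) + 1 : ℝ) * s ^ (2 * (n + 1))
        = ((2 * n + 3) * s ^ 2) * s ^ (2 * n) := by
      rw [show 2 * (n + 1) = 2 * n + 2 by ring, pow_add]; ring
    rw [e]
    have h6 : 0 ≤ s ^ (2 * n) := by rw [pow_mul]; positivity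
    nlinarith

/-- once negative, the coefficients stay negative -/
lemma cf_neg_succ {s : ℝ} (hs : 0 ≤ s) (hs1 : s ≤ 1) (n : ℕ) (h : cf s n < 0) : cf s (n + 1) < 0 := by
  have e : ∀ m : ℕ, cf s m = ((2 - s) * ((2 * m + 1) * s ^ (2 * m)) + s ^ (2 * m + 1) - 1) / (2 * m + 1) := by
    intro m
    unfold cf
    field_simp
    ring
  rw [e, div_lt_iff₀ (by positivity), zero_mul] at h ⊢
  push_cast
  have hp : 0 ≤ s ^ (2 * n + 1) := pow_nonneg hs _
  have hu : (2 * n + 1 : ℝ) * s ^ (2 * n) < 1 := by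
    by_contra hc
    push Not at hc
    nlinarith
  have h1 : (2 * n + 3 : ℝ) * s ^ 2 < 2 * n + 1 := by
    by_contra hc
    push Not at hc
    exact absurd (u_ge_one n hc) (not_le.2 hu)
  have e2 : (2 * (n + 1) + 1 : ℝ) * s ^ (2 * (n + 1)) = ((2 * n + 3) * s ^ 2) * s ^ (2 * n) := by
    rw [show 2 * (n + 1) = 2 * n + 2 by ring, pow_add]; ring
  have h6 : 0 ≤ s ^ (2 * n) := pow_nonneg hs _
  have h7 : (2 * (n + 1) + 1 : ℝ) * s ^ (2 * (n + 1)) ≤ (2 * n + 1) * s ^ (2 * n) := by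
    rw [e2]; exact mul_le_mul_of_nonneg_right h1.le h6
  have h8 : s ^ (2 * (n + 1) + 1) ≤ s ^ (2 * n + 1) :=
    pow_le_pow_of_le_one hs hs1 (by omega)
  nlinarith

/-- scaling: nonnegative at `y` implies nonnegative at `0 ≤ x ≤ y` -/
lemma scale_nonneg {a : ℕ → ℝ} {x y f g : ℝ} (hx : 0 ≤ x) (hxy : x ≤ y)
    (hf : HasSum (fun n => a n * x ^ n) f) (hg : HasSum (fun n => a n * y ^ n) g)
    (hneg : ∀ n, a n < 0 → a (n + 1) < 0) (h0 : 0 ≤ g) : 0 ≤ f := by
  by_cases hall : ∀ n, 0 ≤ a n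
  · exact hf.nonneg fun n => mul_nonneg (hall n) (pow_nonneg hx n)
  push Not at hall
  classical
  obtain ⟨N, hN, hmin⟩ : ∃ N, a N < 0 ∧ ∀ m < N, ¬ a m < 0 :=
    ⟨Nat.find hall, Nat.find_spec hall, fun m hm => Nat.find_min hall hm⟩
  have hbelow : ∀ n < N, 0 ≤ a n := fun n hn => not_lt.1 (hmin n hn)
  have habove : ∀ n, N ≤ n → a n < 0 := by
    intro n hn
    induction n, hn using Nat.le_induction with
    | base => exact hN
    | succ n _ ih => exact hneg n ih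
  rcases (hx.trans hxy).eq_or_lt with hy | hy
  · have : x = y := le_antisymm hxy (hy ▸ hx)
    subst this
    rwa [hf.unique hg]
  have hsum := (hf.mul_left (y ^ N)).sub (hg.mul_left (x ^ N))
  have hnn : 0 ≤ y ^ N * f - x ^ N * g := by
    refine hsum.nonneg fun n => ?_
    have e : y ^ N * (a n * x ^ n) - x ^ N * (a n * y ^ n) = a n * (y ^ N * x ^ n - x ^ N * y ^ n) := by
      ring
    simp only [e]
    rcases lt_or_ge n N with hn | hn
    · refine mul_nonneg (hbelow n hn) ?_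
      obtain ⟨m, rfl⟩ := Nat.exists_eq_add_of_le hn.le
      have : y ^ (n + m) * x ^ n - x ^ (n + m) * y ^ n = (y ^ n * x ^ n) * (y ^ m - x ^ m) := by ring
      rw [this]
      exact mul_nonneg (by positivity) (sub_nonneg.2 (pow_le_pow_left₀ hx hxy m))
    · refine mul_nonneg_of_nonpos_of_nonpos (habove n hn).le ?_
      obtain ⟨m, rfl⟩ := Nat.exists_eq_add_of_le hn
      have : y ^ N * x ^ (N + m) - x ^ N * y ^ (N + m) = (y ^ N * x ^ N) * (x ^ m - y ^ m) := by ring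
      rw [this]
      exact mul_nonpos_of_nonneg_of_nonpos (by positivity)
        (sub_nonpos.2 (pow_le_pow_left₀ hx hxy m))
  have h1 : 0 ≤ y ^ N * f := by
    have : 0 ≤ x ^ N * g := by positivity
    linarith
  exact nonneg_of_mul_nonneg_right h1 (by positivity)

lemma choose_succ_mul (n : ℕ) :
    ((2 * (n + 1)).choose (n + 1) : ℝ) * (n + 1) = 2 * (2 * n + 1) * ((2 * n).choose n : ℝ) := by
  have h := Nat.succ_mul_centralBinom_succ n
  rw [Nat.centralBinom_eq_two_mul_choose, Nat.centralBinom_eq_two_mul_choose] at h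
  have h2 : (((n + 1) * (2 * (n + 1)).choose (n + 1) : ℕ) : ℝ)
      = ((2 * (2 * n + 1) * (2 * n).choose n : ℕ) : ℝ) := by exact_mod_cast h
  push_cast at h2
  linarith

lemma bb_succ (n : ℕ) : bb (n + 1) = bb n * ((2 * n + 1) / (2 * (n + 1) ^ 3)) := by
  have h := choose_succ_mul n
  have hf : (0 : ℝ) < (n.factorial : ℝ) := by exact_mod_cast Nat.factorial_pos n
  have hn : (0 : ℝ) < n + 1 := by positivity
  have h2 : ((2 * (n + 1)).choose (n + 1) : ℝ) = 2 * (2 * n + 1) * ((2 * n).choose n : ℝ) / (n + 1) := by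
    rw [eq_div_iff hn.ne']; exact h
  unfold bb
  rw [h2, Nat.factorial_succ]
  push_cast
  field_simp
  ring

lemma A_succ (n : ℕ) :
    shc bb (n + 1) = shc bb n * ((2 * n + 3) / (2 * (n + 1) * (n + 2) ^ 2)) := by
  unfold shc
  rw [bb_succ (n + 1)]
  push_cast
  field_simp
  ring

/-- computable coefficients -/
def aQ : ℕ → ℚ
  | 0 => 1 / 2
  | (n + 1) => aQ n * ((2 * n + 3) / (2 * (n + 1) * (n + 2) ^ 2))

lemma aQ_eq (n : ℕ) : ((aQ n : ℚ) : ℝ) = shc bb n := by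
  induction n with
  | zero =>
    unfold aQ shc bb
    norm_num
  | succ n ih =>
    rw [A_succ, ← ih]
    simp only [aQ]
    push_cast
    rfl

/-- the partial sum, computable -/
def sQ (s y : ℚ) : ℕ → ℚ
  | 0 => 0
  | (n + 1) => sQ s y n +
      aQ n * ((2 - s) * s ^ (2 * n) - (1 - s ^ (2 * n + 1)) / (2 * n + 1)) * y ^ n

lemma sQ_eq (s y : ℚ) (M : ℕ) :
    ((sQ s y M : ℚ) : ℝ) = ∑ n ∈ Finset.range M, ca (s : ℝ) n * (y : ℝ) ^ n := by
  induction M with
  | zero => simp [sQ]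
  | succ M ih =>
    rw [Finset.sum_range_succ, ← ih]
    simp only [sQ]
    unfold ca cf
    rw [← aQ_eq]
    push_cast
    rfl

lemma cf_ge {s : ℝ} (hs : 0 ≤ s) (hs1 : s ≤ 1) (n : ℕ) : -1 ≤ cf s n := by
  unfold cf
  have h1 : 0 ≤ (2 - s) * s ^ (2 * n) := mul_nonneg (by linarith) (pow_nonneg hs _)
  have h2 : (1 - s ^ (2 * n + 1)) / (2 * n + 1) ≤ 1 := by
    rw [div_le_one (by positivity)]
    have := pow_nonneg hs (2 * n + 1)
    have hn : (0 : ℝ) ≤ n := by positivity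
    linarith
  linarith

lemma tail_term {y : ℝ} (hy : 0 ≤ y) (M : ℕ)
    (hr : y * ((2 * M + 3) / (2 * (M + 1) * (M + 2) ^ 2)) ≤ 1 / 2) (j : ℕ) :
    shc bb (j + M) * y ^ (j + M) ≤ shc bb M * y ^ M * (1 / 2) ^ j := by
  induction j with
  | zero => simp
  | succ j ih =>
    have h1 : shc bb (j + 1 + M) * y ^ (j + 1 + M)
        = (shc bb (j + M) * y ^ (j + M)) * (y * ((2 * ((j + M : ℕ) : ℝ) + 3) /
            (2 * (((j + M : ℕ) : ℝ) + 1) * (((j + M : ℕ) : ℝ) + 2) ^ 2))) := by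
      rw [show j + 1 + M = (j + M) + 1 by ring, A_succ, pow_succ]
      ring
    have h2 : (2 * ((j + M : ℕ) : ℝ) + 3) /
            (2 * (((j + M : ℕ) : ℝ) + 1) * (((j + M : ℕ) : ℝ) + 2) ^ 2)
          ≤ (2 * M + 3) / (2 * (M + 1) * (M + 2) ^ 2) := by
      have hM : (M : ℝ) ≤ ((j + M : ℕ) : ℝ) := by push_cast; have : (0:ℝ) ≤ j := by positivity
                                                  linarith
      generalize ((j + M : ℕ) : ℝ) = m at hM ⊢
      have h0 : (0 : ℝ) ≤ M := by positivity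
      have h1 : 0 ≤ m := h0.trans hM
      have e : ∀ x : ℝ, 0 ≤ x → (2 * x + 3) / (2 * (x + 1) * (x + 2) ^ 2)
          = (1 + (1 / 2) * (1 / (x + 1))) * (1 / (x + 2)) ^ 2 := by
        intro x hx
        have : x + 1 ≠ 0 := by positivity
        have : x + 2 ≠ 0 := by positivity
        field_simp
        ring
      rw [e m h1, e M h0]
      gcongr
    have h8 : shc bb M * y ^ M * (1 / 2 : ℝ) ^ (j + 1) = (shc bb M * y ^ M * (1 / 2) ^ j) * (1 / 2) := by
      ring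
    rw [h1, h8]
    have h3 : 0 ≤ shc bb (j + M) * y ^ (j + M) := by
      have := shc_bb_pos (j + M); positivity
    refine mul_le_mul ih ((mul_le_mul_of_nonneg_left h2 hy).trans hr) (by positivity) ?_
    have := shc_bb_pos M
    positivity

lemma base_pos {s y g : ℝ} (hs : 0 ≤ s) (hs1 : s ≤ 1) (hy : 0 ≤ y) (M : ℕ)
    (hr : y * ((2 * M + 3) / (2 * (M + 1) * (M + 2) ^ 2)) ≤ 1 / 2)
    (h : 2 * (shc bb M * y ^ M) < ∑ n ∈ Finset.range M, ca s n * y ^ n)
    (hg : HasSum (fun n => ca s n * y ^ n) g) : 0 < g := by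
  have h1 := (hasSum_nat_add_iff' M).2 hg
  have h2 : HasSum (fun j : ℕ => -(shc bb M * y ^ M * (1 / 2) ^ j)) (-(shc bb M * y ^ M * 2)) := by
    exact (hasSum_geometric_two.mul_left (shc bb M * y ^ M)).neg
  have h3 := hasSum_le (fun j => ?_) h2 h1
  · linarith
  · have h4 := tail_term hy M hr j
    have h5 := cf_ge hs hs1 (j + M)
    have h6 : 0 ≤ shc bb (j + M) * y ^ (j + M) := by
      have := shc_bb_pos (j + M); positivity
    have h7 : ca s (j + M) * y ^ (j + M) = (shc bb (j + M) * y ^ (j + M)) * cf s (j + M) := by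
      unfold ca; ring
    rw [h7]
    nlinarith

/-- the value at `(k₁, s₁)` from rational arithmetic -/
lemma base_of_rat (s k : ℚ) (M : ℕ) (hs : 0 ≤ s) (hs1 : s ≤ 1)
    (hr : k ^ 2 * ((2 * M + 3) / (2 * (M + 1) * (M + 2) ^ 2)) ≤ 1 / 2)
    (h : 2 * (aQ M * (k ^ 2) ^ M) < sQ s (k ^ 2) M) :
    ∫ t in (s : ℝ)..1, rr (k * t) < (2 - (s : ℝ)) * rr (k * s) := by
  rw [← sub_pos, rr_fun_eq]
  refine base_pos (s := (s : ℝ)) (y := (k : ℝ) ^ 2) (by exact_mod_cast hs) (by exact_mod_cast hs1)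
    (by positivity) M ?_ ?_ (hasSum_phi k s)
  · have : ((k ^ 2 * ((2 * M + 3) / (2 * (M + 1) * (M + 2) ^ 2)) : ℚ) : ℝ) ≤ ((1 / 2 : ℚ) : ℝ) := by
      exact_mod_cast hr
    push_cast at this
    exact this
  · have h2 : ((2 * (aQ M * (k ^ 2) ^ M) : ℚ) : ℝ) < ((sQ s (k ^ 2) M : ℚ) : ℝ) := by
      exact_mod_cast h
    rw [sQ_eq] at h2
    push_cast at h2
    rw [aQ_eq] at h2
    exact h2

/-- from the corner `(k₁, σ₁)` to `k ≤ k₁`, `σ ≥ σ₁` -/
theorem W0_mono {k₁ σ₁ k σ : ℝ} (hσ₁ : 0 ≤ σ₁) (h1 : σ₁ ≤ σ) (h2 : σ < 1) (hk : 0 < k)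
    (hkk : k ≤ k₁) (h : ∫ s in σ₁..1, rr (k₁ * s) ≤ (2 - σ₁) * rr (k₁ * σ₁)) :
    ∫ s in σ..1, rr (k * s) ≤ (2 - σ) * rr (k * σ) := by
  rw [rr_fun_eq] at h ⊢
  rw [← sub_nonneg] at h ⊢
  have h3 : 0 ≤ (2 - σ) * rs (k₁ * σ) - ∫ t in σ..1, rs (k₁ * t) := by
    refine h.trans (hasSum_le (fun n => ?_) (hasSum_phi k₁ σ₁) (hasSum_phi k₁ σ))
    refine mul_le_mul_of_nonneg_right ?_ (by positivity)
    exact mul_le_mul_of_nonneg_left (cf_mono hσ₁ h1 h2.le n) (shc_bb_pos n).le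
  refine scale_nonneg (sq_nonneg k) (pow_le_pow_left₀ hk.le hkk 2) (hasSum_phi k σ)
    (hasSum_phi k₁ σ) (fun n hn => ?_) h3
  have hc : cf σ n < 0 := by
    by_contra hc
    push Not at hc
    exact absurd (mul_nonneg (shc_bb_pos n).le hc) (not_le.2 hn)
  exact mul_neg_of_pos_of_neg (shc_bb_pos _) (cf_neg_succ (hσ₁.trans h1) h2.le n hc)

theorem W0_num1 : ∫ s in (0 : ℝ)..1, rr (9 / 4 * s) < (2 - 0) * rr (9 / 4 * 0) := by
  have h := base_of_rat 0 (9 / 4) 6 (by norm_num) (by norm_num) (by norm_num) (by decide +kernel)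
  push_cast at h
  exact h

theorem W0_num2 : ∫ s in (0.579 : ℝ)..1, rr (3.7 * s) < (2 - 0.579) * rr (3.7 * 0.579) := by
  have h := base_of_rat 0.579 3.7 8 (by norm_num) (by norm_num) (by norm_num) (by decide +kernel)
  push_cast at h
  exact h

theorem W0_num3 : ∫ s in (0.719 : ℝ)..1, rr (5.6 * s) < (2 - 0.719) * rr (5.6 * 0.719) := by
  have h := base_of_rat 0.719 5.6 12 (by norm_num) (by norm_num) (by norm_num) (by decide +kernel)
  push_cast at h
  exact h

end Pool.Agent.RC
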