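import Pool.Agent.H.MP_1b807b_an.C.DefsB

/-! MP_1b807b_an, convex planar domains, module PhX: the moments of `PhX`, identities and numbers -/

set_option autoImplicit false

namespace Pool.Agent.RC

open MeasureTheory Metric Set
open Pool.Agent.RG

namespace PhXAux

open Pool.Agent.H.MP_1b807b_an

/-! ## series of `I₀²` -/

lemma hs_congr {f g : ℕ → ℝ} {a b : ℝ} (h : HasSum f a) (hf : ∀ n, g n = f n) (hab : b = a) :
    HasSum g b := by
  have e : g = f := funext hf
  rw [e, hab]
  exact h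

/-- coefficients of `I₀²` -/
noncomputable def be (n : ℕ) : ℝ := (Nat.centralBinom n : ℝ) / (4 ^ n * (n.factorial : ℝ) ^ 2)

lemma be_nonneg (n : ℕ) : 0 ≤ be n := by unfold be; positivity

lemma cc1_eq (j : ℕ) : cc 1 j = 1 / (4 ^ j * (j.factorial : ℝ) ^ 2) := by
  induction j with
  | zero => simp [cc_zero]
  | succ j ih =>
    rw [cc_succ, ih, Nat.factorial_succ]
    have hj : (0 : ℝ) < (j.factorial : ℝ) := by exact_mod_cast Nat.factorial_pos j
    push_cast
    field_simp
    ring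

lemma be_eq (n : ℕ) : ∑ ij ∈ Finset.HasAntidiagonal.antidiagonal n, cc 1 ij.1 * cc 1 ij.2 = be n := by
  have h1 : ∀ ij ∈ Finset.HasAntidiagonal.antidiagonal n, cc 1 ij.1 * cc 1 ij.2 =
      (1 / (4 ^ n * (n.factorial : ℝ) ^ 2)) * ((n.choose ij.1 : ℝ) * (n.choose ij.2 : ℝ)) := by
    intro ij hij
    obtain ⟨i, j⟩ := ij
    rw [Finset.HasAntidiagonal.mem_antidiagonal] at hij
    simp only at hij ⊢
    have e1 : (n.choose i : ℝ) * (i.factorial : ℝ) * (j.factorial : ℝ) = (n.factorial : ℝ) := by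
      rw [← hij]
      rw [Nat.choose_symm_add]
      exact_mod_cast Nat.add_choose_mul_factorial_mul_factorial i j
    have e2 : (n.choose j : ℝ) * (i.factorial : ℝ) * (j.factorial : ℝ) = (n.factorial : ℝ) := by
      rw [← hij]
      exact_mod_cast Nat.add_choose_mul_factorial_mul_factorial i j
    have hi : (0 : ℝ) < (i.factorial : ℝ) := by exact_mod_cast Nat.factorial_pos i
    have hj : (0 : ℝ) < (j.factorial : ℝ) := by exact_mod_cast Nat.factorial_pos j
    have hn : (0 : ℝ) < (n.factorial : ℝ) := by exact_mod_cast Nat.factorial_pos n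
    rw [cc1_eq, cc1_eq]
    have e3 : (n.choose i : ℝ) = (n.factorial : ℝ) / ((i.factorial : ℝ) * (j.factorial : ℝ)) := by
      field_simp
      linarith
    have e4 : (n.choose j : ℝ) = (n.factorial : ℝ) / ((i.factorial : ℝ) * (j.factorial : ℝ)) := by
      field_simp
      linarith
    have e5 : (4 : ℝ) ^ n = 4 ^ i * 4 ^ j := by rw [← pow_add, hij]
    rw [e3, e4, e5]
    field_simp
  rw [Finset.sum_congr rfl h1, ← Finset.mul_sum]
  have h2 : (∑ ij ∈ Finset.HasAntidiagonal.antidiagonal n, (n.choose ij.1 : ℝ) * (n.choose ij.2 : ℝ)) =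
      (Nat.centralBinom n : ℝ) := by
    have := Nat.add_choose_eq n n n
    rw [Nat.centralBinom, two_mul, this]
    push_cast
    rfl
  rw [h2]
  unfold be
  ring

lemma ent_be : Ent be := by
  refine ⟨1, fun j => ?_⟩
  rw [abs_of_nonneg (be_nonneg j)]
  unfold be
  have h1 : (Nat.centralBinom j : ℝ) ≤ 4 ^ j := by exact_mod_cast Nat.centralBinom_le_four_pow j
  have hj : (1 : ℝ) ≤ (j.factorial : ℝ) := by exact_mod_cast Nat.factorial_pos j
  calc (Nat.centralBinom j : ℝ) / (4 ^ j * (j.factorial : ℝ) ^ 2)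
      ≤ 4 ^ j / (4 ^ j * (j.factorial : ℝ) ^ 2) := by gcongr
    _ = 1 / (j.factorial : ℝ) ^ 2 := by field_simp
    _ ≤ 1 / (j.factorial : ℝ) := by
        apply one_div_le_one_div_of_le (by linarith)
        nlinarith

lemma V_sq (z : ℝ) : V 1 z ^ 2 = ser be (z ^ 2) := by
  unfold V ser
  have hs := (ent_cc 1).summable (z ^ 2)
  have hn : Summable fun j => ‖cc 1 j * (z ^ 2) ^ j‖ := hs.norm
  rw [sq (∑' j, cc 1 j * (z ^ 2) ^ j), tsum_mul_tsum_eq_tsum_sum_antidiagonal_of_summable_norm hn hn]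
  congr 1
  ext n
  rw [← be_eq, Finset.sum_mul]
  refine Finset.sum_congr rfl fun ij hij => ?_
  rw [Finset.HasAntidiagonal.mem_antidiagonal] at hij
  rw [← hij, pow_add]
  ring

lemma I0_sq (z : ℝ) : HasSum (fun n => be n * z ^ (2 * n)) (I0 z ^ 2) := by
  have h := (ent_be.summable (z ^ 2)).hasSum
  have e : I0 z ^ 2 = ∑' j, be j * (z ^ 2) ^ j := V_sq z
  exact hs_congr h (fun n => by rw [pow_mul]) e

/-- `I₁(z) / z` -/
noncomputable def qq (z : ℝ) : ℝ := 2 * ser (shc (cc 1)) (z ^ 2)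

lemma I1_eq (z : ℝ) : I1 z = z * qq z := by unfold I1 W qq; ring

lemma W1_eq' (z : ℝ) : W1 1 z = V 1 z - qq z := by
  have h := ser_ode 1 (z ^ 2)
  unfold W1 V qq
  push_cast at h
  linarith

lemma hasDerivAt_I0 (z : ℝ) : HasDerivAt I0 (I1 z) z := hasDerivAt_V 1 z

lemma hasDerivAt_I1 (z : ℝ) : HasDerivAt I1 (I0 z - qq z) z := by
  have h := hasDerivAt_W 1 z
  rw [W1_eq'] at h
  exact h

lemma continuous_I0 : Continuous I0 := continuous_V 1

lemma continuous_I1 : Continuous I1 := continuous_W 1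

lemma continuous_qq : Continuous qq := by
  unfold qq
  have h1 := continuous_ser (ent_cc 1).shc
  fun_prop

lemma I0_pos (z : ℝ) : 0 < I0 z := V_pos 1 z

lemma I01_hs (z : ℝ) : HasSum (fun n : ℕ => (n : ℝ) * be n * z ^ (2 * n)) (z ^ 2 * (I0 z * qq z)) := by
  have h1 : HasDerivAt (fun z => I0 z ^ 2) (2 * I0 z * I1 z) z := by
    have := (hasDerivAt_I0 z).pow 2
    refine this.congr_deriv ?_
    push_cast
    ring
  have h2 : HasDerivAt (fun z => I0 z ^ 2) (2 * z * ser (shc be) (z ^ 2)) z := by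
    have h := HasDerivAt.comp (h₂ := ser be) (h := fun x : ℝ => x ^ 2) z
      (hasDerivAt_ser ent_be (z ^ 2)) (hasDerivAt_pow 2 z)
    have e : (fun z => I0 z ^ 2) = ser be ∘ fun x : ℝ => x ^ 2 := by
      ext w
      exact V_sq w
    rw [e]
    refine h.congr_deriv ?_
    push_cast
    ring
  have h3 : z ^ 2 * (I0 z * qq z) = z ^ 2 * ser (shc be) (z ^ 2) := by
    have h4 := h1.unique h2
    rw [I1_eq] at h4
    have h5 : z * (z * (I0 z * qq z)) = z * (z * ser (shc be) (z ^ 2)) := by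
      congr 1
      linarith
    linarith [h5, sq z]
  rw [h3]
  have h5 := ((ent_be.shc.summable (z ^ 2)).hasSum).mul_left (z ^ 2)
  have h6 : HasSum (fun n : ℕ => (((n + 1 : ℕ) : ℝ)) * be (n + 1) * z ^ (2 * (n + 1)))
      (z ^ 2 * ser (shc be) (z ^ 2)) := by
    refine hs_congr h5 (fun n => ?_) rfl
    unfold shc
    push_cast
    ring
  have h7 := (hasSum_nat_add_iff (f := fun n : ℕ => (n : ℝ) * be n * z ^ (2 * n)) 1).1 h6
  simpa using h7

/-! ## termwise integration -/

lemma int_hasSum {a : ℕ → ℝ} {e : ℕ → ℕ} {F : ℝ → ℝ} (ha : Summable fun n => |a n|)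
    (hF : ∀ s ∈ Ioc (0 : ℝ) 1, HasSum (fun n => a n * s ^ (e n)) (F s)) :
    HasSum (fun n => a n / ((e n : ℝ) + 1)) (∫ s in (0 : ℝ)..1, F s) := by
  have h := intervalIntegral.hasSum_integral_of_dominated_convergence (μ := volume)
    (a := (0 : ℝ)) (b := 1) (F := fun n s => a n * s ^ (e n)) (f := F) (fun n _ => |a n|)
    (fun n => by
      have : Continuous fun s : ℝ => a n * s ^ (e n) := by fun_prop
      exact this.aestronglyMeasurable)
    (fun n => by
      refine ae_of_all _ fun s hs => ?_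
      rw [uIoc_of_le zero_le_one] at hs
      rw [Real.norm_eq_abs, abs_mul, abs_pow, abs_of_pos hs.1]
      exact mul_le_of_le_one_right (abs_nonneg _) (pow_le_one₀ hs.1.le hs.2))
    (ae_of_all _ fun s _ => ha)
    intervalIntegrable_const
    (ae_of_all _ fun s hs => by
      rw [uIoc_of_le zero_le_one] at hs
      exact hF s hs)
  refine hs_congr h (fun n => ?_) rfl
  rw [intervalIntegral.integral_const_mul, integral_pow]
  simp [div_eq_mul_inv]

variable {k : ℝ}

/-- `g g' / s`, `g = I₀(k s)` -/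
noncomputable def JJ (k s : ℝ) : ℝ := k ^ 2 * (I0 (k * s) * qq (k * s))

/-- `g g'` -/
noncomputable def Gg (k s : ℝ) : ℝ := k * I0 (k * s) * I1 (k * s)

/-- `g'² + k² g²` -/
noncomputable def EE (k s : ℝ) : ℝ := k ^ 2 * (I0 (k * s) ^ 2 + I1 (k * s) ^ 2)

lemma Gg_eq (k s : ℝ) : Gg k s = s * JJ k s := by
  unfold Gg JJ
  rw [I1_eq]
  ring

lemma continuous_JJ (k : ℝ) : Continuous (JJ k) := by
  unfold JJ
  have := continuous_I0
  have := continuous_qq
  fun_prop

lemma continuous_EE (k : ℝ) : Continuous (EE k) := by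
  unfold EE
  have := continuous_I0
  have := continuous_I1
  fun_prop

lemma hasDerivAt_g (k s : ℝ) : HasDerivAt (fun s => I0 (k * s)) (k * I1 (k * s)) s := by
  have h := (hasDerivAt_I0 (k * s)).comp s ((hasDerivAt_id s).const_mul k)
  refine h.congr_deriv ?_
  ring

lemma hasDerivAt_g2 (k s : ℝ) : HasDerivAt (fun s => I0 (k * s) ^ 2) (2 * Gg k s) s := by
  have h := (hasDerivAt_g k s).pow 2
  refine h.congr_deriv ?_
  unfold Gg
  push_cast
  ring

lemma hasDerivAt_Gg (k s : ℝ) : HasDerivAt (Gg k) (EE k s - JJ k s) s := by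
  have h1 := (hasDerivAt_I1 (k * s)).comp s ((hasDerivAt_id s).const_mul k)
  have h := ((hasDerivAt_g k s).const_mul k).mul h1
  have e : Gg k = fun s => k * I0 (k * s) * I1 (k * s) := rfl
  rw [e]
  refine h.congr_deriv ?_
  unfold EE JJ
  simp only [Function.comp]
  ring

lemma int_E0 (k : ℝ) : ∫ s in (0 : ℝ)..1, EE k s = Gg k 1 + ∫ s in (0 : ℝ)..1, JJ k s := by
  have h := intervalIntegral.integral_eq_sub_of_hasDerivAt (a := (0 : ℝ)) (b := 1)
    (f := Gg k) (f' := fun s => EE k s - JJ k s) (fun s _ => hasDerivAt_Gg k s)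
    (((continuous_EE k).sub (continuous_JJ k)).intervalIntegrable _ _)
  rw [intervalIntegral.integral_sub ((continuous_EE k).intervalIntegrable _ _)
    ((continuous_JJ k).intervalIntegrable _ _)] at h
  have h0 : Gg k 0 = 0 := by rw [Gg_eq]; ring
  linarith

lemma int_E1 (k : ℝ) : ∫ s in (0 : ℝ)..1, (1 - s) * EE k s = ∫ s in (0 : ℝ)..1, JJ k s := by
  have hE := continuous_EE k
  have hJ := continuous_JJ k
  have hd : ∀ s : ℝ, HasDerivAt (fun s => (1 - s) * Gg k s) ((1 - s) * EE k s - JJ k s) s := by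
    intro s
    have h := ((hasDerivAt_id s).const_sub 1).mul (hasDerivAt_Gg k s)
    refine h.congr_deriv ?_
    simp only [id]
    rw [Gg_eq]
    ring
  have h := intervalIntegral.integral_eq_sub_of_hasDerivAt (a := (0 : ℝ)) (b := 1)
    (fun s _ => hd s) ((by fun_prop : Continuous fun s => (1 - s) * EE k s - JJ k s).intervalIntegrable _ _)
  rw [intervalIntegral.integral_sub ((by fun_prop : Continuous fun s => (1 - s) * EE k s).intervalIntegrable _ _)
    ((continuous_JJ k).intervalIntegrable _ _)] at h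
  have h0 : Gg k 0 = 0 := by rw [Gg_eq]; ring
  rw [h0] at h
  linarith

lemma int_E2 (k : ℝ) : ∫ s in (0 : ℝ)..1, (1 - s) ^ 2 * EE k s =
    (∫ s in (0 : ℝ)..1, JJ k s) - I0 k ^ 2 / 2 + (∫ s in (0 : ℝ)..1, I0 (k * s) ^ 2) / 2 := by
  have hE := continuous_EE k
  have hJ := continuous_JJ k
  have hg : Continuous fun s => I0 (k * s) ^ 2 := by
    have := continuous_I0
    fun_prop
  have hd : ∀ s : ℝ, HasDerivAt (fun s => (1 - s) ^ 2 * Gg k s - s * I0 (k * s) ^ 2 / 2)
      ((1 - s) ^ 2 * EE k s - (JJ k s + I0 (k * s) ^ 2 / 2)) s := by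
    intro s
    have h := ((((hasDerivAt_id s).const_sub 1).pow 2).mul (hasDerivAt_Gg k s)).sub
      (((hasDerivAt_id s).mul (hasDerivAt_g2 k s)).div_const 2)
    refine h.congr_deriv ?_
    simp only [id, Pi.pow_apply]
    push_cast
    rw [Gg_eq]
    ring
  have h := intervalIntegral.integral_eq_sub_of_hasDerivAt (a := (0 : ℝ)) (b := 1)
    (fun s _ => hd s) ((by fun_prop : Continuous fun s => (1 - s) ^ 2 * EE k s -
      (JJ k s + I0 (k * s) ^ 2 / 2)).intervalIntegrable _ _)
  rw [intervalIntegral.integral_sub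
    ((by fun_prop : Continuous fun s => (1 - s) ^ 2 * EE k s).intervalIntegrable _ _)
    ((by fun_prop : Continuous fun s => JJ k s + I0 (k * s) ^ 2 / 2).intervalIntegrable _ _),
    intervalIntegral.integral_add (hJ.intervalIntegrable _ _)
    ((by fun_prop : Continuous fun s => I0 (k * s) ^ 2 / 2).intervalIntegrable _ _),
    intervalIntegral.integral_div] at h
  have h0 : Gg k 0 = 0 := by rw [Gg_eq]; ring
  rw [h0] at h
  norm_num at h
  linarith

lemma int_E3 (k : ℝ) : ∫ s in (0 : ℝ)..1, (1 - s) ^ 3 * EE k s =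
    (∫ s in (0 : ℝ)..1, JJ k s) - I0 k ^ 2 / 2 + 3 / 2 * (∫ s in (0 : ℝ)..1, I0 (k * s) ^ 2)
      - 2 * ∫ s in (0 : ℝ)..1, s * I0 (k * s) ^ 2 := by
  have hE := continuous_EE k
  have hJ := continuous_JJ k
  have hg : Continuous fun s => I0 (k * s) ^ 2 := by
    have := continuous_I0
    fun_prop
  have hd : ∀ s : ℝ, HasDerivAt (fun s => (1 - s) ^ 3 * Gg k s - 3 * (s * I0 (k * s) ^ 2 / 2)
        + s ^ 2 * I0 (k * s) ^ 2)
      ((1 - s) ^ 3 * EE k s - (JJ k s + 3 / 2 * I0 (k * s) ^ 2) + 2 * (s * I0 (k * s) ^ 2)) s := by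
    intro s
    have h := (((((hasDerivAt_id s).const_sub 1).pow 3).mul (hasDerivAt_Gg k s)).sub
      ((((hasDerivAt_id s).mul (hasDerivAt_g2 k s)).div_const 2).const_mul 3)).add
      (((hasDerivAt_id s).pow 2).mul (hasDerivAt_g2 k s))
    refine h.congr_deriv ?_
    simp only [id, Pi.pow_apply]
    push_cast
    rw [Gg_eq]
    ring
  have h := intervalIntegral.integral_eq_sub_of_hasDerivAt (a := (0 : ℝ)) (b := 1)
    (fun s _ => hd s) ((by fun_prop : Continuous fun s => (1 - s) ^ 3 * EE k s -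
      (JJ k s + 3 / 2 * I0 (k * s) ^ 2) + 2 * (s * I0 (k * s) ^ 2)).intervalIntegrable _ _)
  rw [intervalIntegral.integral_add
    ((by fun_prop : Continuous fun s => (1 - s) ^ 3 * EE k s -
      (JJ k s + 3 / 2 * I0 (k * s) ^ 2)).intervalIntegrable _ _)
    ((by fun_prop : Continuous fun s => 2 * (s * I0 (k * s) ^ 2)).intervalIntegrable _ _),
    intervalIntegral.integral_sub
    ((by fun_prop : Continuous fun s => (1 - s) ^ 3 * EE k s).intervalIntegrable _ _)
    ((by fun_prop : Continuous fun s => JJ k s + 3 / 2 * I0 (k * s) ^ 2).intervalIntegrable _ _),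
    intervalIntegral.integral_add (hJ.intervalIntegrable _ _)
    ((by fun_prop : Continuous fun s => 3 / 2 * I0 (k * s) ^ 2).intervalIntegrable _ _),
    intervalIntegral.integral_const_mul, intervalIntegral.integral_const_mul] at h
  have h0 : Gg k 0 = 0 := by rw [Gg_eq]; ring
  rw [h0] at h
  norm_num at h
  linarith

lemma PhX_eq (k s : ℝ) : PhX k (1 - s) = EE k s / I0 k ^ 2 := by
  unfold PhX EE
  rw [sub_sub_cancel]

lemma int_flip (f : ℝ → ℝ) : ∫ t in (0 : ℝ)..1, f t = ∫ s in (0 : ℝ)..1, f (1 - s) := by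
  rw [intervalIntegral.integral_comp_sub_left]
  norm_num

lemma PhX_int (k : ℝ) (n : ℕ) : ∫ t in (0 : ℝ)..1, t ^ n * PhX k t =
    (∫ s in (0 : ℝ)..1, (1 - s) ^ n * EE k s) / I0 k ^ 2 := by
  rw [int_flip, ← intervalIntegral.integral_div]
  refine intervalIntegral.integral_congr fun s _ => ?_
  simp only [PhX_eq]
  ring

lemma PhX_nonneg (k t : ℝ) : 0 ≤ PhX k t := by
  unfold PhX
  positivity

lemma P1_eq (k : ℝ) : P1 k = (∫ s in (0 : ℝ)..1, JJ k s) / I0 k ^ 2 := by
  have h := PhX_int k 1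
  simp only [pow_one] at h
  rw [P1, h, int_E1]

lemma m2_eq (k : ℝ) : m2 k = (∫ s in (0 : ℝ)..1, I0 (k * s) ^ 2) / I0 k ^ 2 := by
  rw [m2, intervalIntegral.integral_div]

lemma P3_eq (k : ℝ) : P3 k = ((∫ s in (0 : ℝ)..1, JJ k s) - I0 k ^ 2 / 2
    + 3 / 2 * (∫ s in (0 : ℝ)..1, I0 (k * s) ^ 2)
      - 2 * ∫ s in (0 : ℝ)..1, s * I0 (k * s) ^ 2) / I0 k ^ 2 := by
  rw [P3, PhX_int, int_E3]

/-! ## series of the moments -/

lemma summable_abs_be (k : ℝ) : Summable fun n => |be n * k ^ (2 * n)| := by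
  have h := (ent_be.summable (k ^ 2)).abs
  refine h.congr fun n => ?_
  rw [pow_mul]

lemma hs_m2 (k : ℝ) : HasSum (fun n : ℕ => be n * k ^ (2 * n) / (((2 * n : ℕ) : ℝ) + 1))
    (∫ s in (0 : ℝ)..1, I0 (k * s) ^ 2) := by
  refine int_hasSum (summable_abs_be k) fun s _ => ?_
  have h := I0_sq (k * s)
  refine hs_congr h (fun n => ?_) rfl
  rw [mul_pow]
  ring

lemma hs_m3 (k : ℝ) : HasSum (fun n : ℕ => be n * k ^ (2 * n) / (((2 * n + 1 : ℕ) : ℝ) + 1))
    (∫ s in (0 : ℝ)..1, s * I0 (k * s) ^ 2) := by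
  refine int_hasSum (summable_abs_be k) fun s _ => ?_
  have h := (I0_sq (k * s)).mul_left s
  refine hs_congr h (fun n => ?_) rfl
  rw [mul_pow]
  ring

lemma hs_J (k : ℝ) : HasSum
    (fun n : ℕ => (n : ℝ) * be n * k ^ (2 * n) / (((2 * n - 2 : ℕ) : ℝ) + 1))
    (∫ s in (0 : ℝ)..1, JJ k s) := by
  refine int_hasSum ?_ fun s hs => ?_
  · have h := (I01_hs k).summable.abs
    exact h
  · have h := (I01_hs (k * s)).mul_right (s ^ 2)⁻¹
    have hs0 : s ≠ 0 := hs.1.ne'
    refine hs_congr h (fun n => ?_) ?_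
    · rcases n with _ | n
      · simp
      · have e : 2 * (n + 1) - 2 = 2 * n := by omega
        rw [e, mul_pow]
        field_simp
        ring
    · unfold JJ
      field_simp

/-! ## the sign pattern lemma -/

lemma pattern {c : ℕ → ℝ} {x x0 S : ℝ} {m N : ℕ} (h : HasSum (fun n => c n * x ^ n) S)
    (hx0 : 0 < x0) (hx : x0 ≤ x) (hneg : ∀ n < m, c n ≤ 0) (hpos : ∀ n, m ≤ n → 0 ≤ c n)
    (hmN : m ≤ N) (hS : 0 ≤ ∑ n ∈ Finset.range N, c n * x0 ^ n) : 0 ≤ S := by
  have hx' : 0 < x := lt_of_lt_of_le hx0 hx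
  have h1 : ∑ n ∈ Finset.range N, c n * x ^ n ≤ S := by
    refine sum_le_hasSum _ (fun n hn => ?_) h
    rw [Finset.mem_range, not_lt] at hn
    exact mul_nonneg (hpos n (hmN.trans hn)) (by positivity)
  refine le_trans ?_ h1
  have hq : 1 ≤ x / x0 := by rwa [one_le_div hx0]
  have h2 : (x / x0) ^ m * ∑ n ∈ Finset.range N, c n * x0 ^ n ≤
      ∑ n ∈ Finset.range N, c n * x ^ n := by
    rw [Finset.mul_sum]
    refine Finset.sum_le_sum fun n _ => ?_
    have e : x ^ n = (x / x0) ^ n * x0 ^ n := by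
      rw [← mul_pow]
      congr 1
      field_simp
    rw [e]
    have hx0n : 0 < x0 ^ n := by positivity
    rcases lt_or_ge n m with hn | hn
    · have h3 : (x / x0) ^ n ≤ (x / x0) ^ m := pow_le_pow_right₀ hq hn.le
      have h4 := mul_nonneg (mul_nonneg (sub_nonneg.2 h3) (neg_nonneg.2 (hneg n hn))) hx0n.le
      nlinarith
    · have h3 : (x / x0) ^ m ≤ (x / x0) ^ n := pow_le_pow_right₀ hq hn
      have h4 := mul_nonneg (mul_nonneg (sub_nonneg.2 h3) (hpos n hn)) hx0n.le
      nlinarith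
  exact le_trans (mul_nonneg (by positivity) hS) h2

/-- the same with a nonnegative term of degree zero, which is dropped -/
lemma pattern0 {c : ℕ → ℝ} {x x0 S : ℝ} {m N : ℕ} (h : HasSum (fun n => c n * x ^ n) S)
    (hx0 : 0 < x0) (hx : x0 ≤ x) (h0 : 0 ≤ c 0) (hneg : ∀ n < m, n ≠ 0 → c n ≤ 0)
    (hpos : ∀ n, m ≤ n → 0 ≤ c n)
    (hmN : m ≤ N) (hS : 0 ≤ ∑ n ∈ Finset.range N, (if n = 0 then 0 else c n) * x0 ^ n) : 0 ≤ S := by
  have h1 : HasSum (fun n => (if n = 0 then 0 else c n) * x ^ n) (S - c 0) := by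
    have h2 : HasSum (fun n : ℕ => if n = 0 then c 0 else 0) (c 0) := by
      have := hasSum_ite_eq (0 : ℕ) (c 0)
      exact this
    refine hs_congr (h.sub h2) (fun n => ?_) rfl
    by_cases hn : n = 0
    · subst hn
      simp
    · simp [hn]
  have h2 := pattern (m := m) (N := N) h1 hx0 hx (fun n hn => by
    by_cases h3 : n = 0
    · simp [h3]
    · simp only [h3, if_false]
      exact hneg n hn h3) (fun n hn => by
    by_cases h3 : n = 0
    · simp [h3]
    · simp only [h3, if_false]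
      exact hpos n hn) hmN hS
  linarith

lemma be_succ (n : ℕ) : be (n + 1) = be n * ((2 * n + 1) / (2 * (n + 1) ^ 3)) := by
  unfold be
  have h := Nat.succ_mul_centralBinom_succ n
  have h' : ((n : ℝ) + 1) * (Nat.centralBinom (n + 1) : ℝ) = 2 * (2 * n + 1) * (Nat.centralBinom n : ℝ) := by
    exact_mod_cast h
  have h'' : (Nat.centralBinom (n + 1) : ℝ) = 2 * (2 * n + 1) * (Nat.centralBinom n : ℝ) / (n + 1) := by
    field_simp
    linarith
  rw [h'', Nat.factorial_succ]
  have hj : (0 : ℝ) < (n.factorial : ℝ) := by exact_mod_cast Nat.factorial_pos n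
  push_cast
  field_simp
  ring

lemma be0 : be 0 = 1 := by simp [be]
lemma be1 : be 1 = 1 / 2 := by
  have h := be_succ 0
  rw [be0] at h
  norm_num at h
  exact h

lemma be2 : be 2 = 3 / 32 := by
  have h := be_succ 1
  rw [be1] at h
  norm_num at h
  exact h
lemma be3 : be 3 = 5 / 576 := by
  have h := be_succ 2
  rw [be2] at h
  norm_num at h
  exact h
lemma be4 : be 4 = 35 / 73728 := by
  have h := be_succ 3
  rw [be3] at h
  norm_num at h
  exact h
lemma be5 : be 5 = 7 / 409600 := by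
  have h := be_succ 4
  rw [be4] at h
  norm_num at h
  exact h
lemma be6 : be 6 = 77 / 176947200 := by
  have h := be_succ 5
  rw [be5] at h
  norm_num at h
  exact h
lemma be7 : be 7 = 143 / 17340825600 := by
  have h := be_succ 6
  rw [be6] at h
  norm_num at h
  exact h
lemma be8 : be 8 = 143 / 1183800360960 := by
  have h := be_succ 7
  rw [be7] at h
  norm_num at h
  exact h
lemma be9 : be 9 = 2431 / 1725980926279680 := by
  have h := be_succ 8
  rw [be8] at h
  norm_num at h
  exact h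
lemma be10 : be 10 = 46189 / 3451961852559360000 := by
  have h := be_succ 9
  rw [be9] at h
  norm_num at h
  exact h
lemma be11 : be 11 = 4199 / 39779750872350720000 := by
  have h := be_succ 10
  rw [be10] at h
  norm_num at h
  exact h
lemma be12 : be 12 = 96577 / 137478819014844088320000 := by
  have h := be_succ 11
  rw [be11] at h
  norm_num at h
  exact h

end PhXAux

open PhXAux

theorem PhX_zero {k : ℝ} (hk : 0 < k) : ∫ t in (0 : ℝ)..1, PhX k t = k * GG k + P1 k := by
  have h := PhX_int k 0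
  simp only [pow_zero, one_mul] at h
  rw [h, int_E0, P1_eq, add_div]
  congr 1
  have h0 := I0_pos k
  unfold Gg GG Pool.Agent.H.MP_1b807b_an.F
  change _ = k * (I1 k / I0 k)
  rw [mul_one]
  field_simp

theorem P2_eq {k : ℝ} (hk : 0 < k) : P2 k = P1 k - 1 / 2 + m2 k / 2 := by
  rw [P2, PhX_int, int_E2, P1_eq, m2_eq]
  have h0 := I0_pos k
  field_simp

theorem P_num {k : ℝ} (hk : 28 / 5 ≤ k) : 1 / 2 ≤ P1 k ∧ P1 k ≤ 0.567 ∧ 0 ≤ m2 k ∧ m2 k ≤ 0.101 ∧
    0 ≤ P3 k ∧ P3 k ≤ 0.04 := by
  have h0 := I0_pos k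
  have h02 : 0 < I0 k ^ 2 := by positivity
  have hx : (784 / 25 : ℝ) ≤ k ^ 2 := by nlinarith
  have hI := I0_sq k
  have hJ := hs_J k
  have h2 := hs_m2 k
  have h3 := hs_m3 k
  have hpw : ∀ n : ℕ, k ^ (2 * n) = (k ^ 2) ^ n := fun n => by rw [pow_mul]
  refine ⟨?_, ?_, ?_, ?_, ?_, ?_⟩
  · rw [P1_eq, le_div_iff₀ h02]
    have h := hJ.sub (hI.mul_left (1 / 2))
    have key : 0 ≤ (∫ s in (0 : ℝ)..1, JJ k s) - 1 / 2 * I0 k ^ 2 := by
      refine pattern (m := 1) (N := 2) (x := k ^ 2) (x0 := 784 / 25)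
        (c := fun n => (n : ℝ) * be n / (((2 * n - 2 : ℕ) : ℝ) + 1) - 1 / 2 * be n)
        (hs_congr h (fun n => ?_) rfl) (by norm_num) hx ?_ ?_ (by norm_num) ?_
      · rw [hpw]
        ring
      · intro n hn
        interval_cases n
        norm_num [be0]
      · intro n hn
        obtain ⟨m, rfl⟩ : ∃ m, n = m + 1 := ⟨n - 1, by omega⟩
        have e : 2 * (m + 1) - 2 = 2 * m := by omega
        rw [e]
        have hb := be_nonneg (m + 1)
        have : ((m + 1 : ℕ) : ℝ) * be (m + 1) / (((2 * m : ℕ) : ℝ) + 1) - 1 / 2 * be (m + 1) =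
            be (m + 1) * (1 / (2 * (2 * m + 1))) := by
          push_cast
          field_simp
          ring
        simp only [this]
        positivity
      · simp only [Finset.sum_range_succ, Finset.sum_range_zero]
        norm_num [be0, be1]
    linarith
  · rw [P1_eq, div_le_iff₀ h02]
    have h := (hI.mul_left (567 / 1000)).sub hJ
    have key : 0 ≤ 567 / 1000 * I0 k ^ 2 - ∫ s in (0 : ℝ)..1, JJ k s := by
      refine pattern0 (m := 5) (N := 12) (x := k ^ 2) (x0 := 784 / 25)
        (c := fun n => 567 / 1000 * be n - (n : ℝ) * be n / (((2 * n - 2 : ℕ) : ℝ) + 1))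
        (hs_congr h (fun n => ?_) rfl) (by norm_num) hx ?_ ?_ ?_ (by norm_num) ?_
      · rw [hpw]
        ring
      · norm_num [be0]
      · intro n hn hn0
        interval_cases n
        · exact absurd rfl hn0
        all_goals norm_num [be1, be2, be3, be4]
      · intro n hn
        obtain ⟨m, rfl⟩ : ∃ m, n = m + 5 := ⟨n - 5, by omega⟩
        have e : 2 * (m + 5) - 2 = 2 * m + 8 := by omega
        rw [e]
        have hb := be_nonneg (m + 5)
        have : 567 / 1000 * be (m + 5) - ((m + 5 : ℕ) : ℝ) * be (m + 5) / (((2 * m + 8 : ℕ) : ℝ) + 1) =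
            be (m + 5) * ((134 * m + 103) / (1000 * (2 * m + 9))) := by
          push_cast
          have : (0 : ℝ) ≤ m := by positivity
          field_simp
          ring
        simp only [this]
        positivity
      · simp only [Finset.sum_range_succ, Finset.sum_range_zero]
        norm_num [be0, be1, be2, be3, be4, be5, be6, be7, be8, be9, be10, be11, be12]
    norm_num at key ⊢
    linarith
  · unfold m2
    refine intervalIntegral.integral_nonneg zero_le_one fun s _ => ?_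
    positivity
  · rw [m2_eq, div_le_iff₀ h02]
    have h := (hI.mul_left (101 / 1000)).sub h2
    have key : 0 ≤ 101 / 1000 * I0 k ^ 2 - ∫ s in (0 : ℝ)..1, I0 (k * s) ^ 2 := by
      refine pattern (m := 5) (N := 12) (x := k ^ 2) (x0 := 784 / 25)
        (c := fun n => 101 / 1000 * be n - be n / (((2 * n : ℕ) : ℝ) + 1))
        (hs_congr h (fun n => ?_) rfl) (by norm_num) hx ?_ ?_ (by norm_num) ?_
      · rw [hpw]
        ring
      · intro n hn
        interval_cases n <;> norm_num [be0, be1, be2, be3, be4]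
      · intro n hn
        obtain ⟨m, rfl⟩ : ∃ m, n = m + 5 := ⟨n - 5, by omega⟩
        have hb := be_nonneg (m + 5)
        have : 101 / 1000 * be (m + 5) - be (m + 5) / (((2 * (m + 5) : ℕ) : ℝ) + 1) =
            be (m + 5) * ((202 * m + 111) / (1000 * (2 * m + 11))) := by
          push_cast
          have : (0 : ℝ) ≤ m := by positivity
          field_simp
          ring
        simp only [this]
        positivity
      · simp only [Finset.sum_range_succ, Finset.sum_range_zero]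
        norm_num [be0, be1, be2, be3, be4, be5, be6, be7, be8, be9, be10, be11, be12]
    norm_num at key ⊢
    linarith
  · unfold P3
    refine intervalIntegral.integral_nonneg zero_le_one fun t ht => ?_
    exact mul_nonneg (pow_nonneg ht.1 3) (PhX_nonneg k t)
  · rw [P3_eq, div_le_iff₀ h02]
    have h := (hI.mul_left (1 / 25)).sub
      (((hJ.sub (hI.mul_left (1 / 2))).add (h2.mul_left (3 / 2))).sub (h3.mul_left 2))
    have key : 0 ≤ 1 / 25 * I0 k ^ 2 - (((∫ s in (0 : ℝ)..1, JJ k s) - 1 / 2 * I0 k ^ 2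
        + 3 / 2 * (∫ s in (0 : ℝ)..1, I0 (k * s) ^ 2))
        - 2 * ∫ s in (0 : ℝ)..1, s * I0 (k * s) ^ 2) := by
      refine pattern0 (m := 4) (N := 12) (x := k ^ 2) (x0 := 784 / 25)
        (c := fun n => 1 / 25 * be n - (((n : ℝ) * be n / (((2 * n - 2 : ℕ) : ℝ) + 1) - 1 / 2 * be n
          + 3 / 2 * (be n / (((2 * n : ℕ) : ℝ) + 1))) - 2 * (be n / (((2 * n + 1 : ℕ) : ℝ) + 1))))
        (hs_congr h (fun n => ?_) rfl) (by norm_num) hx ?_ ?_ ?_ (by norm_num) ?_
      · rw [hpw]
        ring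
      · norm_num [be0]
      · intro n hn hn0
        interval_cases n
        · exact absurd rfl hn0
        all_goals norm_num [be1, be2, be3]
      · intro n hn
        obtain ⟨m, rfl⟩ : ∃ m, n = m + 4 := ⟨n - 4, by omega⟩
        have e : 2 * (m + 4) - 2 = 2 * m + 6 := by omega
        rw [e]
        have hb := be_nonneg (m + 4)
        have : 1 / 25 * be (m + 4) - ((((m + 4 : ℕ) : ℝ) * be (m + 4) / (((2 * m + 6 : ℕ) : ℝ) + 1)
            - 1 / 2 * be (m + 4) + 3 / 2 * (be (m + 4) / (((2 * (m + 4) : ℕ) : ℝ) + 1)))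
            - 2 * (be (m + 4) / (((2 * (m + 4) + 1 : ℕ) : ℝ) + 1))) =
            be (m + 4) * ((4 * m ^ 3 + 52 * m ^ 2 + 148 * m + 15) /
              (25 * ((2 * m + 7) * (2 * m + 9) * (m + 5)))) := by
          push_cast
          have : (0 : ℝ) ≤ m := by positivity
          field_simp
          ring
        simp only [this]
        positivity
      · simp only [Finset.sum_range_succ, Finset.sum_range_zero]
        norm_num [be0, be1, be2, be3, be4, be5, be6, be7, be8, be9, be10, be11, be12]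
    norm_num at key ⊢
    linarith

end Pool.Agent.RC
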