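import Pool.Agent.H.MP_1b807b_an.C.DefsC
import Pool.Agent.H.MP_1b807b_an.C.PhX
import Pool.Agent.H.MP_1b807b_an.C.Gauge
import Pool.Agent.H.MP_1b807b_an.C.SbtSq

/-! MP_1b807b_an, convex planar domains, module W0Energy: the energy of the cut-off profile of the
disc -/

set_option autoImplicit false

namespace Pool.Agent.RC

open MeasureTheory Metric Set
open Pool.Agent.RG

namespace W0Aux

theorem EE_mono {k : ℝ} (hk : 0 < k) : MonotoneOn (PhXAux.EE k) (Ici 0) := by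
  intro s hs t _ hst
  have hs0 : 0 ≤ k * s := mul_nonneg hk.le hs
  have ht0 : 0 ≤ k * t := mul_nonneg hk.le (le_trans hs hst)
  have hst' : k * s ≤ k * t := mul_le_mul_of_nonneg_left hst hk.le
  have h0 := I0_mono (mem_Ici.2 hs0) (mem_Ici.2 ht0) hst'
  have h1 := I1_mono (mem_Ici.2 hs0) (mem_Ici.2 ht0) hst'
  have p0 := (I0_pos (k * s)).le
  have p1 := I1_nonneg hs0
  unfold PhXAux.EE
  have e0 : I0 (k * s) ^ 2 ≤ I0 (k * t) ^ 2 := pow_le_pow_left₀ p0 h0 2
  have e1 : I1 (k * s) ^ 2 ≤ I1 (k * t) ^ 2 := pow_le_pow_left₀ p1 h1 2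
  have : 0 ≤ k ^ 2 := sq_nonneg k
  nlinarith

theorem Phi0_le {k σ s : ℝ} (hk : 0 < k) (hσ : 0 ≤ σ) (hs : σ ≤ s) :
    k ^ 2 * I0 (k * σ) ^ 2 ≤ PhXAux.EE k s := by
  have h := EE_mono hk (mem_Ici.2 hσ) (mem_Ici.2 (hσ.trans hs)) hs
  have h2 : k ^ 2 * I0 (k * σ) ^ 2 ≤ PhXAux.EE k σ := by
    unfold PhXAux.EE
    nlinarith [mul_nonneg (sq_nonneg k) (sq_nonneg (I1 (k * σ)))]
  linarith

/-- `∫_σ^1 (g'² + k² g²)` -/
theorem int_EE (k σ : ℝ) : ∫ s in σ..1, PhXAux.EE k s =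
    PhXAux.Gg k 1 - PhXAux.Gg k σ + ∫ s in σ..1, PhXAux.JJ k s := by
  have hE := (PhXAux.continuous_EE k).intervalIntegrable σ 1 (μ := volume)
  have hJ := (PhXAux.continuous_JJ k).intervalIntegrable σ 1 (μ := volume)
  have h := intervalIntegral.integral_eq_sub_of_hasDerivAt
    (fun s _ => PhXAux.hasDerivAt_Gg k s) (hE.sub hJ)
  rw [intervalIntegral.integral_sub hE hJ] at h
  linarith

/-- `∫_σ^1 s (g'² + k² g²)` -/
theorem int_sEE (k σ : ℝ) : ∫ s in σ..1, s * PhXAux.EE k s =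
    PhXAux.Gg k 1 - σ * PhXAux.Gg k σ := by
  have hd : ∀ s, HasDerivAt (fun s => s * PhXAux.Gg k s) (s * PhXAux.EE k s) s := by
    intro s
    refine ((hasDerivAt_id s).mul (PhXAux.hasDerivAt_Gg k s)).congr_deriv ?_
    rw [PhXAux.Gg_eq]
    simp only [id]
    ring
  have h := intervalIntegral.integral_eq_sub_of_hasDerivAt (a := σ) (b := 1)
    (fun s _ => hd s) ((continuous_id.mul (PhXAux.continuous_EE k)).intervalIntegrable σ 1)
  simpa using h

theorem JJ_eq {k s : ℝ} (hk : k ≠ 0) (hs : s ≠ 0) : PhXAux.JJ k s = k ^ 2 * rr (k * s) := by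
  have h := PhXAux.Gg_eq k s
  have hks : k * s ≠ 0 := mul_ne_zero hk hs
  unfold rr
  rw [if_neg hks]
  unfold PhXAux.Gg at h
  have : PhXAux.JJ k s = k * I0 (k * s) * I1 (k * s) / s := by
    rw [h]; field_simp
  rw [this]
  field_simp

theorem int_JJ {k : ℝ} (hk : k ≠ 0) (σ : ℝ) :
    ∫ s in σ..1, PhXAux.JJ k s = k ^ 2 * ∫ s in σ..1, rr (k * s) := by
  rw [← intervalIntegral.integral_const_mul]
  refine intervalIntegral.integral_congr_ae ?_
  have h0 : ∀ᵐ s : ℝ, s ≠ 0 := by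
    simp [ae_iff]
  filter_upwards [h0] with s hs _
  exact JJ_eq hk hs

/-- the continuous majorant of the excess profile -/
noncomputable def gn (k σ δ t : ℝ) : ℝ :=
  (PhXAux.EE k (1 - min t (1 - σ)) - k ^ 2 * I0 (k * σ) ^ 2) *
    Real.exp (-(max (t - (1 - σ)) 0 / δ))

theorem continuous_gn (k σ δ : ℝ) : Continuous (gn k σ δ) := by
  unfold gn
  have := PhXAux.continuous_EE k
  fun_prop

theorem fac_nonneg {k σ : ℝ} (hk : 0 < k) (hσ : 0 ≤ σ) (t : ℝ) :
    0 ≤ PhXAux.EE k (1 - min t (1 - σ)) - k ^ 2 * I0 (k * σ) ^ 2 := by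
  have : σ ≤ 1 - min t (1 - σ) := by
    have := min_le_right t (1 - σ)
    linarith
  linarith [Phi0_le hk hσ this]

theorem gn_nonneg {k σ : ℝ} (hk : 0 < k) (hσ : 0 ≤ σ) (δ t : ℝ) : 0 ≤ gn k σ δ t :=
  mul_nonneg (fac_nonneg hk hσ t) (Real.exp_pos _).le

theorem gn_anti {k σ δ : ℝ} (hk : 0 < k) (hσ : 0 ≤ σ) (hδ : 0 < δ) : Antitone (gn k σ δ) := by
  intro s t hst
  unfold gn
  refine mul_le_mul ?_ ?_ (Real.exp_pos _).le (fac_nonneg hk hσ s)
  · have h1 : min s (1 - σ) ≤ min t (1 - σ) := min_le_min_right _ hst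
    have h2 : min t (1 - σ) ≤ 1 - σ := min_le_right _ _
    have h3 := EE_mono hk (a := 1 - min t (1 - σ)) (b := 1 - min s (1 - σ))
      (mem_Ici.2 (by linarith)) (mem_Ici.2 (by linarith)) (by linarith)
    linarith
  · refine Real.exp_le_exp.2 (neg_le_neg ?_)
    have : max (s - (1 - σ)) 0 ≤ max (t - (1 - σ)) 0 := max_le_max (by linarith) le_rfl
    exact div_le_div_of_nonneg_right this hδ.le

theorem gn_le {k σ t : ℝ} (δ : ℝ) (ht : t ≤ 1 - σ) :
    gn k σ δ t = PhXAux.EE k (1 - t) - k ^ 2 * I0 (k * σ) ^ 2 := by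
  unfold gn
  rw [min_eq_left ht, max_eq_right (by linarith : t - (1 - σ) ≤ 0)]
  simp

theorem gn_ge {k σ t : ℝ} (δ : ℝ) (ht : 1 - σ ≤ t) :
    gn k σ δ t = (PhXAux.EE k σ - k ^ 2 * I0 (k * σ) ^ 2) * Real.exp (-((t - (1 - σ)) / δ)) := by
  unfold gn
  rw [min_eq_right ht, max_eq_left (by linarith : 0 ≤ t - (1 - σ))]
  congr 2
  ring_nf

/-- the pointwise value of the integrand -/
theorem point {k σ : ℝ} (hk : 0 < k) (hσ : 0 ≤ σ) (hσ1 : σ < 1) {δ t : ℝ} (ht : 0 ≤ t) :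
    I0 k ^ 2 * (MW k σ t ^ 2 + k ^ 2 * fW k σ t ^ 2) ≤
      k ^ 2 * I0 (k * σ) ^ 2 + gn k σ δ t := by
  have hI := (I0_pos k).ne'
  rcases le_or_gt t (1 - σ) with h | h
  · rw [gn_le δ h]
    have hM : MW k σ t = k * I1 (k * (1 - t)) / I0 k := by
      unfold MW
      rw [if_pos h, max_eq_left ht]
    have hf : fW k σ t = I0 (k * (1 - t)) / I0 k := by
      unfold fW
      split_ifs with h0
      · have : t = 0 := le_antisymm h0 ht
        subst this
        rw [sub_zero, mul_one, div_self hI]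
      · rw [max_eq_left (by linarith : σ ≤ 1 - t)]
    rw [hM, hf]
    unfold PhXAux.EE
    refine le_of_eq ?_
    field_simp
    ring
  · have hM : MW k σ t = 0 := by
      unfold MW
      rw [if_neg (not_le.2 h)]
    have hf : fW k σ t = I0 (k * σ) / I0 k := by
      unfold fW
      rw [if_neg (by linarith : ¬ t ≤ 0), max_eq_right (by linarith : 1 - t ≤ σ)]
    rw [hM, hf]
    have hg := gn_nonneg hk hσ δ t
    have : I0 k ^ 2 * ((0 : ℝ) ^ 2 + k ^ 2 * (I0 (k * σ) / I0 k) ^ 2) = k ^ 2 * I0 (k * σ) ^ 2 := by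
      field_simp
      ring
    linarith

/-- the one-dimensional bound -/
theorem int_gn {k σ δ L : ℝ} (hk : 0 < k) (hσ : 0 ≤ σ) (hσ1 : σ < 1) (hδ : 0 < δ) (hL : 0 ≤ L) :
    ∫ t in (0 : ℝ)..1, gn k σ δ t * (L - 2 * Real.pi * t) ≤
      (∫ t in (0 : ℝ)..1 - σ, (PhXAux.EE k (1 - t) - k ^ 2 * I0 (k * σ) ^ 2) *
        (L - 2 * Real.pi * t)) + δ * ((PhXAux.EE k σ - k ^ 2 * I0 (k * σ) ^ 2) * L) := by
  have hgc := continuous_gn k σ δ
  have hi : ∀ a b : ℝ, IntervalIntegrable (fun t => gn k σ δ t * (L - 2 * Real.pi * t))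
      volume a b := fun a b => Continuous.intervalIntegrable (by fun_prop) _ _
  rw [← intervalIntegral.integral_add_adjacent_intervals (hi 0 (1 - σ)) (hi (1 - σ) 1)]
  refine add_le_add (le_of_eq ?_) ?_
  · refine intervalIntegral.integral_congr fun t ht => ?_
    rw [uIcc_of_le (by linarith)] at ht
    rw [gn_le δ ht.2]
  · set Q := PhXAux.EE k σ - k ^ 2 * I0 (k * σ) ^ 2 with hQ
    have hQ0 : 0 ≤ Q := by linarith [Phi0_le hk hσ (le_refl σ)]
    have hpi := Real.pi_pos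
    have h1 : ∫ t in (1 - σ)..1, gn k σ δ t * (L - 2 * Real.pi * t) ≤
        ∫ t in (1 - σ)..1, (Q * L) * Real.exp (-((t - (1 - σ)) / δ)) := by
      refine intervalIntegral.integral_mono_on (by linarith) (hi _ _)
        (Continuous.intervalIntegrable (by fun_prop) _ _) ?_
      intro t ht
      have ht0 : 0 ≤ t := by linarith [ht.1]
      rw [gn_ge δ ht.1, ← hQ]
      have he := (Real.exp_pos (-((t - (1 - σ)) / δ))).le
      have h2 : L - 2 * Real.pi * t ≤ L := by nlinarith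
      calc Q * Real.exp (-((t - (1 - σ)) / δ)) * (L - 2 * Real.pi * t)
          ≤ Q * Real.exp (-((t - (1 - σ)) / δ)) * L :=
            mul_le_mul_of_nonneg_left h2 (mul_nonneg hQ0 he)
        _ = Q * L * Real.exp (-((t - (1 - σ)) / δ)) := by ring
    have hd : ∀ t, HasDerivAt (fun t => -δ * Real.exp (-((t - (1 - σ)) / δ)))
        (Real.exp (-((t - (1 - σ)) / δ))) t := by
      intro t
      have h3 : HasDerivAt (fun t : ℝ => -((t - (1 - σ)) / δ)) (-(1 / δ)) t :=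
        (((hasDerivAt_id t).sub_const (1 - σ)).div_const δ).neg
      refine (h3.exp.const_mul (-δ)).congr_deriv ?_
      field_simp
    have h4 : ∫ t in (1 - σ)..1, Real.exp (-((t - (1 - σ)) / δ)) =
        -δ * Real.exp (-((1 - (1 - σ)) / δ)) - -δ * Real.exp (-(((1 - σ) - (1 - σ)) / δ)) :=
      intervalIntegral.integral_eq_sub_of_hasDerivAt (fun t _ => hd t)
        (Continuous.intervalIntegrable (by fun_prop) _ _)
    rw [intervalIntegral.integral_const_mul, h4] at h1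
    have h5 : Real.exp (-(((1 - σ) - (1 - σ)) / δ)) = 1 := by simp
    rw [h5] at h1
    have h6 := Real.exp_pos (-((1 - (1 - σ)) / δ))
    have h7 : 0 ≤ Q * L := mul_nonneg hQ0 hL
    have h8 : 0 ≤ Q * L * (δ * Real.exp (-((1 - (1 - σ)) / δ))) := by positivity
    nlinarith [h1, h8]

/-- reflection `s = 1 - t` and evaluation -/
theorem int_main {k σ L : ℝ} (hσ1 : σ < 1)
    (hlen : L - 2 * Real.pi = Real.pi * σ ^ 2 / (1 - σ)) :
    (∫ t in (0 : ℝ)..1 - σ, (PhXAux.EE k (1 - t) - k ^ 2 * I0 (k * σ) ^ 2) *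
        (L - 2 * Real.pi * t)) + k ^ 2 * I0 (k * σ) ^ 2 * Real.pi =
      (L - 2 * Real.pi) * (∫ s in σ..1, PhXAux.EE k s) +
        2 * Real.pi * ∫ s in σ..1, s * PhXAux.EE k s := by
  have hEc := PhXAux.continuous_EE k
  have h1 : ∫ t in (0 : ℝ)..1 - σ, (PhXAux.EE k (1 - t) - k ^ 2 * I0 (k * σ) ^ 2) *
      (L - 2 * Real.pi * t) = ∫ s in σ..1, (PhXAux.EE k s - k ^ 2 * I0 (k * σ) ^ 2) *
      (L - 2 * Real.pi * (1 - s)) := by
    have := intervalIntegral.integral_comp_sub_left (a := 0) (b := 1 - σ)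
      (fun s => (PhXAux.EE k s - k ^ 2 * I0 (k * σ) ^ 2) * (L - 2 * Real.pi * (1 - s))) 1
    simp only [sub_zero, sub_sub_cancel] at this
    exact this
  have h2 : ∫ s in σ..1, (PhXAux.EE k s - k ^ 2 * I0 (k * σ) ^ 2) *
      (L - 2 * Real.pi * (1 - s)) = ∫ s in σ..1, ((L - 2 * Real.pi) * PhXAux.EE k s +
        2 * Real.pi * (s * PhXAux.EE k s) -
        k ^ 2 * I0 (k * σ) ^ 2 * ((L - 2 * Real.pi) + 2 * Real.pi * s)) := by
    refine intervalIntegral.integral_congr fun s _ => ?_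
    ring
  have hi1 : IntervalIntegrable (fun s => (L - 2 * Real.pi) * PhXAux.EE k s) volume σ 1 :=
    Continuous.intervalIntegrable (by fun_prop) _ _
  have hi2 : IntervalIntegrable (fun s => 2 * Real.pi * (s * PhXAux.EE k s)) volume σ 1 :=
    Continuous.intervalIntegrable (by fun_prop) _ _
  have hi3 : IntervalIntegrable (fun s => k ^ 2 * I0 (k * σ) ^ 2 *
      ((L - 2 * Real.pi) + 2 * Real.pi * s)) volume σ 1 :=
    Continuous.intervalIntegrable (by fun_prop) _ _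
  have h3 : ∫ s in σ..1, ((L - 2 * Real.pi) + 2 * Real.pi * s) =
      (L - 2 * Real.pi) * (1 - σ) + Real.pi * (1 - σ ^ 2) := by
    rw [intervalIntegral.integral_add intervalIntegrable_const
      (Continuous.intervalIntegrable (by fun_prop) _ _), intervalIntegral.integral_const,
      intervalIntegral.integral_const_mul, integral_id]
    simp only [smul_eq_mul]
    ring
  rw [h1, h2, intervalIntegral.integral_sub (hi1.add hi2) hi3,
    intervalIntegral.integral_add hi1 hi2, intervalIntegral.integral_const_mul,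
    intervalIntegral.integral_const_mul, intervalIntegral.integral_const_mul, h3, hlen]
  have hne : (1 : ℝ) - σ ≠ 0 := by linarith
  have h4 : Real.pi * σ ^ 2 / (1 - σ) * (1 - σ) = Real.pi * σ ^ 2 := by field_simp
  rw [h4]
  ring

end W0Aux

open W0Aux in
theorem W0_energy {k σ : ℝ} (hk : 0 < k) (hσ : 0 ≤ σ) (hσ1 : σ < 1) (B : Body)
    (hA : B.area = Real.pi) (h0 : ∀ θ, 0 < B.h θ)
    (hlen : B.len - 2 * Real.pi = Real.pi * σ ^ 2 / (1 - σ)) :
    I0 k ^ 2 * ((∫ x in B.K, (MW k σ (B.depth x) ^ 2 + k ^ 2 * fW k σ (B.depth x) ^ 2))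
      - k * GG k * B.len) ≤
      Real.pi * (k ^ 2 * σ ^ 2) / (1 - σ) *
        ((∫ s in σ..1, rr (k * s)) - (2 - σ) * rr (k * σ)) := by
  have hpi := Real.pi_pos
  have hone : 0 < 1 - σ := by linarith
  have hL : 0 ≤ B.len := by
    have : 0 ≤ Real.pi * σ ^ 2 / (1 - σ) := by positivity
    linarith
  set Φ := k ^ 2 * I0 (k * σ) ^ 2 with hΦ
  have hvol : volume.real B.K = Real.pi := by rw [B.volume_K h0, hA]
  have hfin : volume B.K ≠ ⊤ := B.isCompact_K.measure_lt_top.ne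
  -- the bound with `δ`
  have hbd : ∀ δ > 0, I0 k ^ 2 * (∫ x in B.K, (MW k σ (B.depth x) ^ 2 +
      k ^ 2 * fW k σ (B.depth x) ^ 2)) ≤
      ((∫ t in (0 : ℝ)..1 - σ, (PhXAux.EE k (1 - t) - Φ) * (B.len - 2 * Real.pi * t)) +
        Φ * Real.pi) + δ * ((PhXAux.EE k σ - Φ) * B.len) := by
    intro δ hδ
    have hgc := continuous_gn k σ δ
    have hgi : IntegrableOn (fun x => gn k σ δ (B.depth x)) B.K :=
      (hgc.comp B.continuous_depth).continuousOn.integrableOn_compact B.isCompact_K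
    have hci : IntegrableOn (fun _ : E 2 => Φ) B.K :=
      integrableOn_const hfin
    have h1 : ∫ x in B.K, I0 k ^ 2 * (MW k σ (B.depth x) ^ 2 + k ^ 2 * fW k σ (B.depth x) ^ 2) ≤
        ∫ x in B.K, (Φ + gn k σ δ (B.depth x)) := by
      refine integral_mono_of_nonneg ?_ (hci.add hgi) ?_
      · exact Filter.Eventually.of_forall fun x => by positivity
      · refine (ae_restrict_iff' B.measurableSet_K).2 (Filter.Eventually.of_forall fun x hx => ?_)
        exact point hk hσ hσ1 hx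
    rw [integral_const_mul] at h1
    have h2 : ∫ x in B.K, (Φ + gn k σ δ (B.depth x)) = Φ * Real.pi +
        ∫ x in B.K, gn k σ δ (B.depth x) := by
      rw [integral_add hci hgi, setIntegral_const, hvol, smul_eq_mul, mul_comm]
    have h3 := B.sbt_one hA (g := gn k σ δ) hgc.continuousOn
      ((gn_anti hk hσ hδ).antitoneOn _) (fun t _ => gn_nonneg hk hσ δ t)
    have h4 := int_gn (k := k) (σ := σ) (δ := δ) hk hσ hσ1 hδ hL
    rw [h2] at h1
    linarith
  have hlim : I0 k ^ 2 * (∫ x in B.K, (MW k σ (B.depth x) ^ 2 +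
      k ^ 2 * fW k σ (B.depth x) ^ 2)) ≤
      (∫ t in (0 : ℝ)..1 - σ, (PhXAux.EE k (1 - t) - Φ) * (B.len - 2 * Real.pi * t)) +
        Φ * Real.pi := by
    set Q := (PhXAux.EE k σ - Φ) * B.len with hQ
    have hQ0 : 0 ≤ Q := mul_nonneg (by linarith [Phi0_le hk hσ (le_refl σ)]) hL
    refine le_of_forall_pos_le_add fun ε hε => ?_
    have h := hbd (ε / (Q + 1)) (by positivity)
    have h5 : ε / (Q + 1) * Q ≤ ε := by
      rw [div_mul_eq_mul_div, div_le_iff₀ (by linarith)]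
      nlinarith
    linarith
  rw [int_main hσ1 hlen, int_EE, int_sEE, int_JJ hk.ne'] at hlim
  have hG1 : PhXAux.Gg k 1 = I0 k ^ 2 * (k * GG k) := by
    have hI := (I0_pos k).ne'
    unfold PhXAux.Gg
    rw [GG_eq, mul_one]
    field_simp
  have hGσ : σ * PhXAux.Gg k σ = σ ^ 2 * (k ^ 2 * rr (k * σ)) := by
    rcases eq_or_ne σ 0 with h | h
    · subst h; simp
    · rw [PhXAux.Gg_eq, JJ_eq hk.ne' h]; ring
  have hGσ2 : (B.len - 2 * Real.pi) * PhXAux.Gg k σ =
      Real.pi * σ ^ 2 / (1 - σ) * (σ * (k ^ 2 * rr (k * σ))) := by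
    rw [hlen]
    rcases eq_or_ne σ 0 with h | h
    · subst h; simp
    · rw [PhXAux.Gg_eq, JJ_eq hk.ne' h]
  have hL2 : B.len = 2 * Real.pi + Real.pi * σ ^ 2 / (1 - σ) := by linarith
  rw [hlen] at hGσ2 hlim
  rw [mul_sub, hL2]
  have hfinal : Real.pi * (k ^ 2 * σ ^ 2) / (1 - σ) *
        ((∫ s in σ..1, rr (k * s)) - (2 - σ) * rr (k * σ)) =
      Real.pi * σ ^ 2 / (1 - σ) * (k ^ 2 * ∫ s in σ..1, rr (k * s)) -
        Real.pi * σ ^ 2 / (1 - σ) * (σ * (k ^ 2 * rr (k * σ))) -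
        2 * Real.pi * (σ ^ 2 * (k ^ 2 * rr (k * σ))) := by
    field_simp
    ring
  rw [hfinal]
  nlinarith [hlim, hGσ, hGσ2, hG1]

end Pool.Agent.RC
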