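import Pool.Agent.H.MP_1b807b_an.C.Cases
import Pool.Agent.H.MP_1b807b_an.C.Gauge
import Pool.Agent.H.MP_1b807b_an.C.Phi
import Pool.Agent.H.MP_1b807b_an.C.W0Energy

/-! MP_1b807b_an, convex planar domains, module CaseW0: the test pair of the disc cut off in depth,
and the three cases of long or small-parameter bodies -/

set_option autoImplicit false

namespace Pool.Agent.RC

open MeasureTheory Metric Set
open Pool.Agent.RG
open scoped RealInnerProductSpace

/-! ## the profile -/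

theorem fW_eq {k σ : ℝ} (hσ1 : σ ≤ 1) (t : ℝ) :
    fW k σ t = I0 (k * max (1 - max t 0) σ) / I0 k := by
  unfold fW
  split_ifs with h
  · rw [max_eq_right h, sub_zero, max_eq_left hσ1, mul_one, div_self (I0_pos k).ne']
  · rw [max_eq_left (not_le.1 h).le]

theorem cutW_mem {σ : ℝ} (hσ1 : σ ≤ 1) (t : ℝ) : max (1 - max t 0) σ ∈ Icc σ 1 := by
  refine ⟨le_max_right _ _, max_le ?_ hσ1⟩
  linarith [le_max_right t 0]

theorem fW_mem {k σ : ℝ} (hk : 0 < k) (hσ : 0 ≤ σ) (hσ1 : σ ≤ 1) (t : ℝ) :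
    1 / I0 k ≤ fW k σ t ∧ fW k σ t ≤ 1 := by
  rw [fW_eq hσ1]
  have h := cutW_mem hσ1 t
  have h2 : k * max (1 - max t 0) σ ≤ k := by
    nlinarith [h.2]
  have h3 : 0 ≤ k * max (1 - max t 0) σ := mul_nonneg hk.le (hσ.trans h.1)
  refine ⟨?_, (div_le_one (I0_pos k)).2 (I0_mono h3 hk.le h2)⟩
  have := I0_pos k
  gcongr
  exact one_le_I0 _

/-- the mean value bound on an interval -/
theorem I0_lip {k a b m : ℝ} (hk : 0 < k) {s : Set ℝ} (hs : Convex ℝ s)
    (hb : ∀ x ∈ s, k * I1 (k * x) ≤ m ∧ 0 ≤ I1 (k * x)) (ha : a ∈ s) (hb' : b ∈ s) :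
    |I0 (k * a) - I0 (k * b)| ≤ m * |a - b| := by
  have hd : ∀ x : ℝ, HasDerivAt (fun x => I0 (k * x)) (k * I1 (k * x)) x := by
    intro x
    have h1 : HasDerivAt (fun x : ℝ => k * x) k x := by
      simpa using (hasDerivAt_id x).const_mul k
    refine ((hasDerivAt_I0 (k * x)).comp x h1).congr_deriv ?_
    ring
  have h := Convex.norm_image_sub_le_of_norm_hasDerivWithin_le (f := fun x => I0 (k * x))
    (f' := fun x => k * I1 (k * x)) (C := m) (s := s) (fun z _ => (hd z).hasDerivWithinAt)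
    (fun z hz => by
      rw [Real.norm_eq_abs, abs_of_nonneg (mul_nonneg hk.le (hb z hz).2)]
      exact (hb z hz).1) hs hb' ha
  simpa [Real.norm_eq_abs] using h

theorem fW_lip {k σ : ℝ} (hk : 0 < k) (hσ : 0 ≤ σ) (hσ1 : σ ≤ 1) (s t : ℝ) :
    |fW k σ s - fW k σ t| ≤ k * |s - t| := by
  rw [fW_eq hσ1, fW_eq hσ1, ← sub_div, abs_div, abs_of_pos (I0_pos k), div_le_iff₀ (I0_pos k)]
  have h1 := I0_lip (k := k) (m := k * I0 k) hk (convex_Icc σ 1) (fun x hx => by
    have hx0 : 0 ≤ x := hσ.trans hx.1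
    have hkx : 0 ≤ k * x := mul_nonneg hk.le hx0
    have hkx1 : k * x ≤ k := by nlinarith [hx.2]
    exact ⟨mul_le_mul_of_nonneg_left ((I1_mono hkx hk.le hkx1).trans (I1_lt_I0 k).le) hk.le,
      I1_nonneg hkx⟩) (cutW_mem hσ1 s) (cutW_mem hσ1 t)
  have h2 : |max (1 - max s 0) σ - max (1 - max t 0) σ| ≤ |s - t| := by
    refine (abs_max_sub_max_le_abs (1 - max s 0) (1 - max t 0) σ).trans ?_
    rw [show (1 - max s 0) - (1 - max t 0) = -(max s 0 - max t 0) by ring, abs_neg]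
    exact abs_max_sub_max_le_abs s t 0
  have h3 : 0 ≤ k * I0 k := mul_nonneg hk.le (I0_pos k).le
  calc |I0 (k * max (1 - max s 0) σ) - I0 (k * max (1 - max t 0) σ)|
      ≤ k * I0 k * |max (1 - max s 0) σ - max (1 - max t 0) σ| := h1
    _ ≤ k * I0 k * |s - t| := mul_le_mul_of_nonneg_left h2 h3
    _ = k * |s - t| * I0 k := by ring

theorem continuous_fW {k σ : ℝ} (hσ1 : σ ≤ 1) : Continuous (fW k σ) := by
  have e : fW k σ = fun t => I0 (k * max (1 - max t 0) σ) / I0 k := funext fun t => fW_eq hσ1 t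
  rw [e]
  refine Continuous.div_const ?_ _
  exact continuous_I0.comp (by fun_prop)

theorem measurable_MW (k σ : ℝ) : Measurable (MW k σ) := by
  unfold MW
  refine Measurable.ite measurableSet_Iic ?_ measurable_const
  have h : Continuous fun t : ℝ => k * I1 (k * (1 - max t 0)) / I0 k := by
    refine Continuous.div_const ?_ _
    exact continuous_const.mul (continuous_I1.comp (by fun_prop))
  exact h.measurable

theorem MW_mem {k σ : ℝ} (hk : 0 < k) (hσ : 0 ≤ σ) (hσ1 : σ ≤ 1) (t : ℝ) :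
    0 ≤ MW k σ t ∧ MW k σ t ≤ k := by
  unfold MW
  split_ifs with h
  · have h1 : max t 0 ≤ 1 - σ := max_le h (by linarith)
    have h2 : 0 ≤ max t 0 := le_max_right _ _
    have hkx : 0 ≤ k * (1 - max t 0) := mul_nonneg hk.le (by linarith)
    have hkx1 : k * (1 - max t 0) ≤ k := by nlinarith
    have hp := I0_pos k
    refine ⟨div_nonneg (mul_nonneg hk.le (I1_nonneg hkx)) hp.le, ?_⟩
    rw [div_le_iff₀ hp]
    exact mul_le_mul_of_nonneg_left ((I1_mono hkx hk.le hkx1).trans (I1_lt_I0 k).le) hk.le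
  · exact ⟨le_rfl, hk.le⟩

theorem fW_slope {k σ : ℝ} (hk : 0 < k) (hσ : 0 ≤ σ) (hσ1 : σ < 1) {t : ℝ} (ht : 0 < t) {e : ℝ}
    (he : 0 < e) : ∃ η > 0, ∀ s s', |s - t| < η → |s' - t| < η →
      |fW k σ s - fW k σ s'| ≤ (MW k σ t + e) * |s - s'| := by
  rcases le_or_gt t (1 - σ) with h | h
  · -- on the moving part
    have hMW : MW k σ t = k * I1 (k * (1 - t)) / I0 k := by
      unfold MW
      rw [if_pos h, max_eq_left ht.le]
    have hp := I0_pos k
    have hcont : ContinuousAt (fun x => k * I1 (k * x)) (1 - t) :=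
      (continuous_const.mul (continuous_I1.comp (continuous_const.mul continuous_id))).continuousAt
    obtain ⟨η₀, hη₀, hη⟩ := Metric.continuousAt_iff.1 hcont (e * I0 k) (by positivity)
    refine ⟨min η₀ t, lt_min hη₀ ht, ?_⟩
    intro s s' hs hs'
    have hm : max (1 - t) σ = 1 - t := max_eq_left (by linarith)
    have hin : ∀ u, |u - t| < min η₀ t →
        max (1 - max u 0) σ ∈ ball (1 - t) η₀ ∩ Icc (0 : ℝ) 1 := by
      intro u hu
      have hu0 : 0 < u := by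
        have := (abs_lt.1 (hu.trans_le (min_le_right _ _))).1
        linarith
      rw [max_eq_left hu0.le]
      refine ⟨?_, hσ.trans (le_max_right _ _), max_le (by linarith) hσ1.le⟩
      rw [mem_ball, Real.dist_eq, ← hm]
      refine (abs_max_sub_max_le_abs (1 - u) (1 - t) σ).trans_lt ?_
      rw [show (1 - u) - (1 - t) = -(u - t) by ring, abs_neg]
      exact hu.trans_le (min_le_left _ _)
    have hcv : Convex ℝ (ball (1 - t) η₀ ∩ Icc 0 1) := (convex_ball _ _).inter (convex_Icc _ _)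
    have h1 := I0_lip (k := k) (m := k * I1 (k * (1 - t)) + e * I0 k) hk hcv (fun x hx => by
      have h3 := hη (mem_ball.1 hx.1)
      rw [Real.dist_eq] at h3
      exact ⟨by linarith [(abs_lt.1 h3).2], I1_nonneg (mul_nonneg hk.le hx.2.1)⟩)
      (hin s hs) (hin s' hs')
    rw [fW_eq hσ1.le, fW_eq hσ1.le, ← sub_div, abs_div, abs_of_pos hp, div_le_iff₀ hp, hMW]
    have h2 : |max (1 - max s 0) σ - max (1 - max s' 0) σ| ≤ |s - s'| := by
      refine (abs_max_sub_max_le_abs (1 - max s 0) (1 - max s' 0) σ).trans ?_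
      rw [show (1 - max s 0) - (1 - max s' 0) = -(max s 0 - max s' 0) by ring, abs_neg]
      exact abs_max_sub_max_le_abs s s' 0
    have h3 : 0 ≤ k * I1 (k * (1 - t)) + e * I0 k := by
      have : 0 ≤ I1 (k * (1 - t)) := I1_nonneg (mul_nonneg hk.le (by linarith))
      positivity
    refine h1.trans ((mul_le_mul_of_nonneg_left h2 h3).trans_eq ?_)
    field_simp
  · -- on the constant part
    refine ⟨t - (1 - σ), by linarith, ?_⟩
    intro s s' hs hs'
    have hc : ∀ u, |u - t| < t - (1 - σ) → fW k σ u = I0 (k * σ) / I0 k := by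
      intro u hu
      have h1 : 1 - σ < u := by linarith [(abs_lt.1 hu).1]
      rw [fW_eq hσ1.le, max_eq_left (by linarith : (0 : ℝ) ≤ u), max_eq_right (by linarith)]
    rw [hc s hs, hc s' hs', sub_self, abs_zero]
    exact mul_nonneg (add_nonneg (MW_mem hk hσ hσ1.le t).1 he.le) (abs_nonneg _)

/-! ## the cut-off parameter -/

theorem exists_cut {a σ₁ : ℝ} (hσ : 0 ≤ σ₁) (hσ1 : σ₁ < 1) (ha : σ₁ ^ 2 / (1 - σ₁) ≤ a) :
    ∃ σ, σ₁ ≤ σ ∧ σ < 1 ∧ a = σ ^ 2 / (1 - σ) := by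
  have h1 : 0 < 1 - σ₁ := by linarith
  have ha0 : 0 ≤ a := le_trans (by positivity) ha
  rw [div_le_iff₀ h1] at ha
  have hs : 0 ≤ a ^ 2 + 4 * a := by positivity
  have hq := Real.sq_sqrt hs
  have hq0 := Real.sqrt_nonneg (a ^ 2 + 4 * a)
  set q := Real.sqrt (a ^ 2 + 4 * a) with hqdef
  have hlt : q < a + 2 := by nlinarith
  have hge : a ≤ q := by
    rw [hqdef]
    exact Real.le_sqrt_of_sq_le (by nlinarith)
  refine ⟨(q - a) / 2, ?_, by linarith, ?_⟩
  · by_contra hc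
    push Not at hc
    nlinarith
  · have h2 : (1 - (q - a) / 2) ≠ 0 := by
      have : 0 < 1 - (q - a) / 2 := by linarith
      exact this.ne'
    rw [eq_div_iff h2]
    nlinarith

/-! ## the case -/

theorem divg_zero (x : E 2) : divg (fun _ : E 2 => (0 : E 2)) x = 0 := by
  unfold divg tr
  simp

theorem W0_test {K₀ d : ℝ} (hK : 0 < K₀) :
    ∃ C c₀ : ℝ, 0 ≤ C ∧ 0 < c₀ ∧ ∀ (k : ℝ) (B : Body) (σ ε : ℝ), 0 < k → k ≤ K₀ → 0 ≤ σ → σ < 1 →
    B.len - 2 * Real.pi = Real.pi * σ ^ 2 / (1 - σ) → B.area = Real.pi → (∀ θ, 0 < B.h θ) →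
    B.K ⊆ closedBall 0 d →
    Real.pi * (k ^ 2 * σ ^ 2) / (1 - σ) * ((∫ s in σ..1, rr (k * s)) - (2 - σ) * rr (k * σ)) ≤
      I0 k ^ 2 * ε →
    IsTest B k (k * GG k) C d c₀ ε (fun _ => 1) (fun _ => 0) (fW k σ) (MW k σ) := by
  have hpi := Real.pi_pos
  refine ⟨K₀ + 1, Real.pi / I0 K₀ ^ 2, by linarith, by have := I0_pos K₀; positivity, ?_⟩
  intro k B σ ε hk0 hkK hσ0 hs2 hlen hA h0 _ hε
  have hE := W0_energy hk0 hσ0 hs2 B hA h0 hlen
  have hp := I0_pos k
  have hE0 : (∫ x in B.K, (MW k σ (B.depth x) ^ 2 + k ^ 2 * fW k σ (B.depth x) ^ 2))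
      - k * GG k * B.len ≤ ε :=
    le_of_mul_le_mul_left (hE.trans hε) (by positivity)
  refine ⟨contDiff_const, contDiff_const, ?_, ?_, ?_, ?_, ?_, ?_, ?_, measurable_MW k σ, ?_, ?_,
    ?_, ?_⟩
  · intro x v
    simp
  · intro x _
    rw [abs_one]
    linarith
  · intro x _
    simp
    linarith
  · intro x _
    rw [divg_zero, abs_zero]
    linarith
  · intro t ht
    unfold fW
    rw [if_pos ht]
  · intro t
    have := fW_mem hk0 hσ0 hs2.le t
    exact ⟨le_trans (by positivity) this.1, this.2⟩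
  · intro s t
    refine (fW_lip hk0 hσ0 hs2.le s t).trans ?_
    gcongr
    linarith
  · intro t
    have := MW_mem hk0 hσ0 hs2.le t
    exact ⟨this.1, by linarith [this.2]⟩
  · intro t ht e he
    exact fW_slope hk0 hσ0 hs2 ht he
  · simp only [one_pow, one_mul, divg_zero, integral_zero, fderiv_fun_const, Pi.zero_apply,
      norm_zero, ne_eq, OfNat.ofNat_ne_zero, not_false_eq_true, zero_pow, sub_self, zero_mul,
      add_zero, sub_zero]
    rw [← B.len_eq]
    linarith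
  · have hc : IntegrableOn (fun x => (1 : ℝ) ^ 2 * fW k σ (B.depth x) ^ 2) B.K :=
      ((continuous_const.mul (((continuous_fW hs2.le).comp B.continuous_depth).pow 2))
        ).continuousOn.integrableOn_compact B.isCompact_K
    have hvol : volume.real B.K = Real.pi := by rw [B.volume_K h0, hA]
    have hlt : volume B.K < ⊤ := B.isCompact_K.measure_lt_top
    have h1 : ∫ x in B.K, (1 / I0 K₀ ^ 2 : ℝ) ≤
        ∫ x in B.K, (1 : ℝ) ^ 2 * fW k σ (B.depth x) ^ 2 := by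
      refine setIntegral_mono (integrableOn_const (hs := hlt.ne)) hc ?_
      intro x
      have h2 := (fW_mem hk0 hσ0 hs2.le (B.depth x)).1
      have h3 : I0 k ≤ I0 K₀ := I0_mono hk0.le (hk0.le.trans hkK) hkK
      have h4 : 1 / I0 K₀ ≤ 1 / I0 k := by gcongr
      have h5 : 0 ≤ 1 / I0 K₀ := by have := I0_pos K₀; positivity
      have h6 : (1 / I0 K₀) ^ 2 ≤ fW k σ (B.depth x) ^ 2 := by
        gcongr
        exact h4.trans h2
      have h7 : (1 / I0 K₀ : ℝ) ^ 2 = 1 / I0 K₀ ^ 2 := by rw [div_pow, one_pow]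
      simp only [one_pow, one_mul]
      rw [← h7]
      exact h6
    rw [setIntegral_const, hvol, smul_eq_mul] at h1
    rw [div_eq_mul_one_div]
    exact h1

theorem case_W0 {k₁ σ₁ : ℝ} (hk : 0 < k₁) (hσ : 0 ≤ σ₁) (hσ1 : σ₁ < 1)
    (h : ∫ s in σ₁..1, rr (k₁ * s) ≤ (2 - σ₁) * rr (k₁ * σ₁)) :
    CaseOK fun k B => k ≤ k₁ ∧ 2 * Real.pi * (1 + σ₁ ^ 2 / (2 * (1 - σ₁))) ≤ B.len := by
  intro K₀ hK d hd
  have hpi := Real.pi_pos
  obtain ⟨C, c₀, hC, hc, ht⟩ := W0_test (K₀ := K₀) (d := d) hK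
  refine ⟨C, c₀, hC, hc, ?_⟩
  rintro k B hk0 hkK ⟨hkk, hlen⟩ hA h0 hB ε hε
  obtain ⟨σ, hs1, hs2, hs⟩ := exists_cut (a := (B.len - 2 * Real.pi) / Real.pi) hσ hσ1 (by
    rw [le_div_iff₀ hpi]
    have e : σ₁ ^ 2 / (2 * (1 - σ₁)) = σ₁ ^ 2 / (1 - σ₁) / 2 := by
      have : (1 - σ₁) ≠ 0 := by
        have : 0 < 1 - σ₁ := by linarith
        exact this.ne'
      field_simp
    rw [e] at hlen
    nlinarith)
  have hσ0 : 0 ≤ σ := hσ.trans hs1
  have hlen' : B.len - 2 * Real.pi = Real.pi * σ ^ 2 / (1 - σ) := by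
    rw [div_eq_iff hpi.ne'] at hs
    rw [hs]
    ring
  have hmono := W0_mono hσ hs1 hs2 hk0 hkk h
  refine ⟨fun _ => 1, fun _ => 0, fW k σ, MW k σ,
    ht k B σ ε hk0 hkK hσ0 hs2 hlen' hA h0 hB ?_⟩
  have h1 : Real.pi * (k ^ 2 * σ ^ 2) / (1 - σ) *
      ((∫ s in σ..1, rr (k * s)) - (2 - σ) * rr (k * σ)) ≤ 0 := by
    refine mul_nonpos_of_nonneg_of_nonpos ?_ (by linarith)
    have : 0 < 1 - σ := by linarith
    positivity
  have h2 : 0 ≤ I0 k ^ 2 * ε := mul_nonneg (sq_nonneg _) (le_of_lt hε)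
  linarith

theorem case_small : CaseOK fun k B => k ≤ 9 / 4 ∧ 2 * Real.pi ≤ B.len := by
  refine (case_W0 (k₁ := 9 / 4) (σ₁ := 0) (by norm_num) le_rfl one_pos W0_num1.le).mono ?_
  rintro k B - - - ⟨h1, h2⟩
  exact ⟨h1, by norm_num; linarith⟩

theorem case_W2 : CaseOK fun k B => k ≤ 37 / 10 ∧ 2 * Real.pi * (7 / 5) ≤ B.len := by
  refine (case_W0 (k₁ := 3.7) (σ₁ := 0.579) (by norm_num) (by norm_num) (by norm_num)
    W0_num2.le).mono ?_
  rintro k B - - - ⟨h1, h2⟩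
  have hpi := Real.pi_pos
  refine ⟨by linarith, le_trans ?_ h2⟩
  gcongr
  norm_num

theorem case_W3 : CaseOK fun k B => k ≤ 28 / 5 ∧ 2 * Real.pi * (48 / 25) ≤ B.len := by
  refine (case_W0 (k₁ := 5.6) (σ₁ := 0.719) (by norm_num) (by norm_num) (by norm_num)
    W0_num3.le).mono ?_
  rintro k B - - - ⟨h1, h2⟩
  have hpi := Real.pi_pos
  refine ⟨by linarith, le_trans ?_ h2⟩
  gcongr
  norm_num

end Pool.Agent.RC
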