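import Pool.Agent.H.MP_1b807b_an.C.SpBody

/-! MP_1b807b_an, convex planar domains, module Depth: the depth function (signed distance to the
boundary) of a body given by its support function -/

set_option autoImplicit false

namespace Pool.Agent.RC

open MeasureTheory Metric Set
open Pool.Agent.RG
open scoped RealInnerProductSpace

namespace Body
variable (B : Body)

theorem periodic_h : Function.Periodic B.h (2 * Real.pi) := B.per

theorem periodic_sp (x : E 2) : Function.Periodic (fun θ => sp x θ) (2 * Real.pi) := sp_two_pi x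

theorem sp_y_lt_right {θ φ : ℝ} (h1 : θ < φ) (h2 : φ ≤ θ + Real.pi) : sp (B.y θ) φ < B.h φ := by
  have hm : StrictMonoOn (fun t => sp (B.y t) φ) (Icc θ φ) := by
    refine strictMonoOn_of_deriv_pos (convex_Icc θ φ)
      (fun t _ => (B.hasDerivAt_sp_y φ t).continuousAt.continuousWithinAt) ?_
    intro t ht
    rw [interior_Icc] at ht
    rw [(B.hasDerivAt_sp_y φ t).deriv]
    have hs : 0 < Real.sin (φ - t) :=
      Real.sin_pos_of_pos_of_lt_pi (by linarith [ht.2]) (by linarith [ht.1])
    have e : Real.sin (t - φ) = -Real.sin (φ - t) := by rw [← Real.sin_neg, neg_sub]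
    rw [e]
    have := mul_pos (B.ρ_pos t) hs
    linarith
  have := hm (left_mem_Icc.2 h1.le) (right_mem_Icc.2 h1.le) h1
  simp only [B.sp_y φ] at this
  exact this

theorem sp_y_lt_left {θ φ : ℝ} (h1 : φ < θ) (h2 : θ ≤ φ + Real.pi) : sp (B.y θ) φ < B.h φ := by
  have hm : StrictAntiOn (fun t => sp (B.y t) φ) (Icc φ θ) := by
    refine strictAntiOn_of_deriv_neg (convex_Icc φ θ)
      (fun t _ => (B.hasDerivAt_sp_y φ t).continuousAt.continuousWithinAt) ?_
    intro t ht
    rw [interior_Icc] at ht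
    rw [(B.hasDerivAt_sp_y φ t).deriv]
    have hs : 0 < Real.sin (t - φ) :=
      Real.sin_pos_of_pos_of_lt_pi (by linarith [ht.1]) (by linarith [ht.2])
    have := mul_pos (B.ρ_pos t) hs
    linarith
  have := hm (left_mem_Icc.2 h1.le) (right_mem_Icc.2 h1.le) h1
  simp only [B.sp_y φ] at this
  exact this

theorem sp_y_lt {θ φ : ℝ} (h : Real.cos (φ - θ) ≠ 1) : sp (B.y θ) φ < B.h φ := by
  obtain ⟨n, hn⟩ : ∃ n : ℤ, φ - θ - n • (2 * Real.pi) ∈ Ioc (-Real.pi) (-Real.pi + 2 * Real.pi) :=
    ⟨toIocDiv Real.two_pi_pos (-Real.pi) (φ - θ), sub_toIocDiv_zsmul_mem_Ioc _ _ _⟩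
  have e1 : B.h (φ - n • (2 * Real.pi)) = B.h φ := B.periodic_h.sub_zsmul_eq n
  have e2 : sp (B.y θ) (φ - n • (2 * Real.pi)) = sp (B.y θ) φ :=
    (periodic_sp (B.y θ)).sub_zsmul_eq n
  rw [← e1, ← e2]
  have h1 := hn.1
  have h2 := hn.2
  set ψ := φ - n • (2 * Real.pi) with hψ
  have e3 : φ - θ - n • (2 * Real.pi) = ψ - θ := by rw [hψ]; ring
  rw [e3] at h1 h2
  rcases lt_trichotomy ψ θ with h3 | h3 | h3
  · exact B.sp_y_lt_left h3 (by linarith)
  · exfalso
    apply h
    have : Real.cos (φ - θ) = Real.cos (ψ - θ) := by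
      have := Real.cos_periodic.sub_zsmul_eq (x := φ - θ) n
      rw [← this, e3]
    rw [this, h3, sub_self, Real.cos_zero]
  · exact B.sp_y_lt_right h3 (by linarith)

theorem sp_y_le (θ φ : ℝ) : sp (B.y θ) φ ≤ B.h φ := by
  by_cases h : Real.cos (φ - θ) = 1
  · obtain ⟨n, hn⟩ := (Real.cos_eq_one_iff _).1 h
    have e : φ = θ + n • (2 * Real.pi) := by
      rw [zsmul_eq_mul]
      linarith
    have e1 : B.h (θ + n • (2 * Real.pi)) = B.h θ := (B.periodic_h.zsmul n) θ
    have e2 : sp (B.y θ) (θ + n • (2 * Real.pi)) = sp (B.y θ) θ := ((periodic_sp (B.y θ)).zsmul n) θ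
    rw [e, e1, e2, sp_y]
  · exact (B.sp_y_lt h).le

theorem continuous_diff (x : E 2) : Continuous fun θ => B.h θ - sp x θ :=
  B.continuous_h.sub (contDiff_spθ x (n := 0)).continuous

theorem periodic_diff (x : E 2) : Function.Periodic (fun θ => B.h θ - sp x θ) (2 * Real.pi) :=
  fun θ => by simp only [B.per_h, sp_two_pi]

theorem isCompact_range (x : E 2) : IsCompact (range fun θ => B.h θ - sp x θ) :=
  (B.periodic_diff x).compact_of_continuous Real.two_pi_pos.ne' (B.continuous_diff x)

theorem depth_le (x : E 2) (θ : ℝ) : B.depth x ≤ B.h θ - sp x θ :=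
  csInf_le (B.isCompact_range x).bddBelow (mem_range_self θ)

theorem exists_min (x : E 2) : ∃ θ, B.depth x = B.h θ - sp x θ := by
  obtain ⟨θ, hθ⟩ := (B.isCompact_range x).sInf_mem (range_nonempty _)
  exact ⟨θ, hθ.symm⟩

theorem exists_min_Ico (x : E 2) : ∃ θ ∈ Ico (0 : ℝ) (2 * Real.pi), B.depth x = B.h θ - sp x θ := by
  obtain ⟨θ, hθ⟩ := B.exists_min x
  obtain ⟨φ, hφ, e⟩ := (B.periodic_diff x).exists_mem_Ico₀ Real.two_pi_pos θ
  exact ⟨φ, hφ, hθ.trans e⟩

/-- at a minimising angle the boundary point is the foot of the perpendicular -/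
theorem foot_of_min {x : E 2} {θ : ℝ} (h : B.depth x = B.h θ - sp x θ) :
    B.y θ = x + B.depth x • ev θ := by
  have hmin : IsLocalMin (fun θ => B.h θ - sp x θ) θ := by
    refine Filter.Eventually.of_forall fun φ => ?_
    have := B.depth_le x φ
    simp only
    linarith
  have hd := hmin.hasDerivAt_eq_zero ((B.hasDerivAt_h θ).sub (hasDerivAt_sp x θ))
  have hp : B.p θ = sp x (θ + Real.pi / 2) := by linarith
  have hx := decomp x θ
  calc B.y θ = B.h θ • ev θ + sp x (θ + Real.pi / 2) • ev' θ := by rw [y, hp]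
    _ = (sp x θ • ev θ + sp x (θ + Real.pi / 2) • ev' θ) + B.depth x • ev θ := by
        rw [h, sub_smul]
        abel
    _ = x + B.depth x • ev θ := by rw [← hx]

theorem exists_foot (x : E 2) : ∃ θ ∈ Ico (0 : ℝ) (2 * Real.pi),
    B.depth x = B.h θ - sp x θ ∧ B.y θ = x + B.depth x • ev θ := by
  obtain ⟨θ, hθ, h⟩ := B.exists_min_Ico x
  exact ⟨θ, hθ, h, B.foot_of_min h⟩

theorem depth_sub_le (x x' : E 2) : B.depth x - B.depth x' ≤ ‖x - x'‖ := by
  obtain ⟨θ, h⟩ := B.exists_min x'
  have h1 := B.depth_le x θ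
  have h2 := abs_sp_le (x - x') θ
  rw [sp_sub] at h2
  have h3 := neg_le_of_abs_le h2
  rw [h]
  linarith

theorem depth_lip (x x' : E 2) : |B.depth x - B.depth x'| ≤ ‖x - x'‖ := by
  rw [abs_le]
  constructor
  · have := B.depth_sub_le x' x
    rw [norm_sub_rev] at this
    linarith
  · exact B.depth_sub_le x x'

theorem continuous_depth : Continuous B.depth := by
  have : LipschitzWith 1 B.depth := by
    refine LipschitzWith.of_dist_le_mul fun x x' => ?_
    rw [Real.dist_eq, dist_eq_norm, NNReal.coe_one, one_mul]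
    exact B.depth_lip x x'
  exact this.continuous

theorem measurable_depth : Measurable B.depth := B.continuous_depth.measurable

theorem le_depth {x : E 2} {c : ℝ} (h : ∀ θ, c ≤ B.h θ - sp x θ) : c ≤ B.depth x := by
  obtain ⟨θ, hθ⟩ := B.exists_min x
  rw [hθ]
  exact h θ

theorem depth_out (θ : ℝ) {t : ℝ} (ht : 0 ≤ t) : B.depth (B.y θ + t • ev θ) = -t := by
  apply le_antisymm
  · have := B.depth_le (B.y θ + t • ev θ) θ
    rw [sp_add, sp_smul, sp_y, sp_ev, sub_self, Real.cos_zero] at this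
    linarith
  · refine B.le_depth fun φ => ?_
    rw [sp_add, sp_smul, sp_ev]
    have h1 := B.sp_y_le θ φ
    have h2 := mul_le_mul_of_nonneg_left (Real.cos_le_one (θ - φ)) ht
    linarith

theorem depth_y (θ : ℝ) : B.depth (B.y θ) = 0 := by
  have := B.depth_out θ le_rfl
  rwa [zero_smul, add_zero, neg_zero] at this

theorem mem_K {x : E 2} : x ∈ B.K ↔ 0 ≤ B.depth x := Iff.rfl

theorem mem_K_iff {x : E 2} : x ∈ B.K ↔ ∀ θ, sp x θ ≤ B.h θ := by
  rw [mem_K]
  constructor
  · intro h θ
    have := B.depth_le x θ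
    linarith
  · intro h
    exact B.le_depth fun θ => by linarith [h θ]

theorem depth_pos_iff {x : E 2} : 0 < B.depth x ↔ ∀ θ, sp x θ < B.h θ := by
  constructor
  · intro h θ
    have := B.depth_le x θ
    linarith
  · intro h
    obtain ⟨θ, hθ⟩ := B.exists_min x
    rw [hθ]
    linarith [h θ]

theorem depth_neg_iff {x : E 2} : B.depth x < 0 ↔ ∃ θ, B.h θ < sp x θ := by
  constructor
  · intro h
    obtain ⟨θ, hθ⟩ := B.exists_min x
    exact ⟨θ, by linarith⟩
  · rintro ⟨θ, hθ⟩
    have := B.depth_le x θ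
    linarith

theorem y_mem (θ : ℝ) : B.y θ ∈ B.K := by
  rw [mem_K, depth_y]

theorem isClosed_K : IsClosed B.K := isClosed_le continuous_const B.continuous_depth

theorem exists_bound : ∃ M : ℝ, 0 < M ∧ ∀ θ, |B.h θ| ≤ M := by
  have hc : IsCompact (range B.h) :=
    B.periodic_h.compact_of_continuous Real.two_pi_pos.ne' B.continuous_h
  obtain ⟨M, hM⟩ := hc.isBounded.exists_norm_le
  refine ⟨max M 1, lt_of_lt_of_le one_pos (le_max_right _ _), fun θ => ?_⟩
  have := hM (B.h θ) (mem_range_self θ)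
  rw [Real.norm_eq_abs] at this
  exact this.trans (le_max_left _ _)

theorem isBounded_K : Bornology.IsBounded B.K := by
  obtain ⟨M, hM, hb⟩ := B.exists_bound
  refine (Metric.isBounded_closedBall (x := (0 : E 2)) (r := 2 * M)).subset fun x hx => ?_
  rw [mem_K_iff] at hx
  have h1 : ∀ θ, |sp x θ| ≤ M := by
    intro θ
    rw [abs_le]
    constructor
    · have h := hx (θ + Real.pi)
      rw [sp_pi] at h
      have := (abs_le.1 (hb (θ + Real.pi))).2
      linarith
    · exact (hx θ).trans (abs_le.1 (hb θ)).2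
  have e := norm_sq_eq x 0
  have a1 := sq_le_sq' (neg_le_of_abs_le (h1 0)) (le_of_abs_le (h1 0))
  have a2 := sq_le_sq' (neg_le_of_abs_le (h1 (0 + Real.pi / 2))) (le_of_abs_le (h1 (0 + Real.pi / 2)))
  rw [mem_closedBall, dist_zero_right]
  have h0 := norm_nonneg x
  nlinarith

theorem isCompact_K : IsCompact B.K := Metric.isCompact_of_isClosed_isBounded B.isClosed_K B.isBounded_K

theorem convex_K : Convex ℝ B.K := by
  intro x hx z hz a b ha hb hab
  rw [mem_K_iff] at hx hz ⊢
  intro θ
  rw [sp_add, sp_smul, sp_smul]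
  have h1 := mul_le_mul_of_nonneg_left (hx θ) ha
  have h2 := mul_le_mul_of_nonneg_left (hz θ) hb
  have : a * B.h θ + b * B.h θ = B.h θ := by rw [← add_mul, hab, one_mul]
  linarith

theorem isOpen_pos : IsOpen {x : E 2 | 0 < B.depth x} := isOpen_lt continuous_const B.continuous_depth

theorem interior_K : interior B.K = {x : E 2 | 0 < B.depth x} := by
  apply Subset.antisymm
  · intro x hx
    have h0 : x ∈ B.K := interior_subset hx
    rw [mem_K] at h0
    rcases h0.eq_or_lt with h | h
    · exfalso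
      obtain ⟨θ, hθ⟩ := B.exists_min x
      have hy := B.foot_of_min hθ
      rw [← h, zero_smul, add_zero] at hy
      obtain ⟨ε, hε, hball⟩ := Metric.mem_nhds_iff.1 (mem_interior_iff_mem_nhds.1 hx)
      have hm : x + (ε / 2) • ev θ ∈ ball x ε := by
        rw [mem_ball, dist_eq_norm, add_sub_cancel_left, norm_smul, norm_ev, mul_one,
          Real.norm_eq_abs, abs_of_pos (by positivity)]
        linarith
      have h1 := hball hm
      rw [mem_K, ← hy, B.depth_out θ (by positivity)] at h1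
      linarith
    · exact h
  · refine interior_maximal (fun x hx => ?_) B.isOpen_pos
    rw [mem_K]
    exact le_of_lt (show 0 < B.depth x from hx)

theorem frontier_K : frontier B.K = {x : E 2 | B.depth x = 0} := by
  rw [frontier, B.isClosed_K.closure_eq, interior_K]
  ext x
  constructor
  · rintro ⟨h1, h2⟩
    exact le_antisymm (not_lt.1 h2) h1
  · intro h
    have h' : B.depth x = 0 := h
    exact ⟨h'.ge, fun h2 => (h2 : 0 < B.depth x).ne' h'⟩

theorem null_bd : volume {x : E 2 | B.depth x = 0} = 0 := by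
  rw [← frontier_K]
  exact B.convex_K.addHaar_frontier volume

theorem ae_depth_ne : ∀ᵐ x : E 2, B.depth x ≠ 0 := by
  rw [ae_iff]
  simpa using B.null_bd

/-- the distance to a boundary point is at least the depth -/
theorem dist_bd (x : E 2) (θ : ℝ) : |B.depth x| ≤ ‖x - B.y θ‖ := by
  have := B.depth_lip x (B.y θ)
  rwa [depth_y, sub_zero] at this

/-- with equality at the foot -/
theorem dist_foot {x : E 2} {θ : ℝ} (h : B.depth x = B.h θ - sp x θ) :
    ‖x - B.y θ‖ = |B.depth x| := by
  rw [B.foot_of_min h, sub_add_cancel_left, norm_neg, norm_smul, norm_ev, mul_one, Real.norm_eq_abs]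

theorem measurableSet_K : MeasurableSet B.K := B.isClosed_K.measurableSet

end Body
end Pool.Agent.RC
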