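import Pool.Agent.H.MP_1b807b_an.C.DefsB

/-! MP_1b807b_an, convex planar domains, module Prof: profiles `φ(1 - t)/φ(1)`, cut off at `t = 0`
and `t = 1`; monotonicity of the Bessel functions -/

set_option autoImplicit false

namespace Pool.Agent.RC

open MeasureTheory Metric Set
open Pool.Agent.RG
open scoped RealInnerProductSpace

/-! ## Bessel functions -/

theorem hasDerivAt_I0 (z : ℝ) : HasDerivAt I0 (I1 z) z :=
  Pool.Agent.H.MP_1b807b_an.hasDerivAt_V 1 z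
theorem continuous_I0 : Continuous I0 := Pool.Agent.H.MP_1b807b_an.continuous_V 1
theorem continuous_I1 : Continuous I1 := Pool.Agent.H.MP_1b807b_an.continuous_W 1
theorem one_le_I0 (z : ℝ) : 1 ≤ I0 z := Pool.Agent.H.MP_1b807b_an.one_le_V 1 z
theorem I0_pos (z : ℝ) : 0 < I0 z := lt_of_lt_of_le one_pos (one_le_I0 z)
theorem I0_zero : I0 0 = 1 := Pool.Agent.H.MP_1b807b_an.V_zero 1
theorem I1_zero : I1 0 = 0 := Pool.Agent.H.MP_1b807b_an.W_zero 1
theorem I1_pos {z : ℝ} (hz : 0 < z) : 0 < I1 z := Pool.Agent.H.MP_1b807b_an.W_pos 1 hz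
theorem I1_nonneg {z : ℝ} (hz : 0 ≤ z) : 0 ≤ I1 z := by
  rcases hz.eq_or_lt with rfl | h
  · rw [I1_zero]
  · exact (I1_pos h).le
theorem I1_lt_I0 (z : ℝ) : I1 z < I0 z := by
  have := Pool.Agent.H.MP_1b807b_an.F_lt_one 1 z
  unfold Pool.Agent.H.MP_1b807b_an.F at this
  rw [div_lt_one (Pool.Agent.H.MP_1b807b_an.V_pos 1 z)] at this
  exact this
theorem GG_eq (z : ℝ) : GG z = I1 z / I0 z := rfl

theorem I0_mono : MonotoneOn I0 (Ici 0) := by
  refine monotoneOn_of_deriv_nonneg (convex_Ici 0) continuous_I0.continuousOn ?_ ?_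
  · exact fun z _ => (hasDerivAt_I0 z).differentiableAt.differentiableWithinAt
  · intro z hz
    rw [interior_Ici] at hz
    rw [(hasDerivAt_I0 z).deriv]
    exact I1_nonneg (le_of_lt hz)

theorem I1_mono : MonotoneOn I1 (Ici 0) := by
  have hd := fun z : ℝ => Pool.Agent.H.MP_1b807b_an.hasDerivAt_W 1 z
  refine monotoneOn_of_deriv_nonneg (convex_Ici 0) continuous_I1.continuousOn ?_ ?_
  · exact fun z _ => (hd z).differentiableAt.differentiableWithinAt
  · intro z _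
    change 0 ≤ deriv (Pool.Agent.H.MP_1b807b_an.W 1) z
    rw [(hd z).deriv]
    unfold Pool.Agent.H.MP_1b807b_an.W1
    have h1 := Pool.Agent.H.MP_1b807b_an.ser_ge (Pool.Agent.H.MP_1b807b_an.ent_cc 1).shc
      (fun j => Pool.Agent.H.MP_1b807b_an.shc_nonneg
        (fun j => (Pool.Agent.H.MP_1b807b_an.cc_pos 1 j).le) j) (sq_nonneg z)
    have h2 := Pool.Agent.H.MP_1b807b_an.ser_ge (Pool.Agent.H.MP_1b807b_an.ent_cc 1).shc.shc
      (fun j => Pool.Agent.H.MP_1b807b_an.shc_nonneg (fun j =>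
        Pool.Agent.H.MP_1b807b_an.shc_nonneg
          (fun j => (Pool.Agent.H.MP_1b807b_an.cc_pos 1 j).le) j) j) (sq_nonneg z)
    have h3 := Pool.Agent.H.MP_1b807b_an.shc_nonneg
        (fun j => (Pool.Agent.H.MP_1b807b_an.cc_pos 1 j).le) 0
    have h4 := Pool.Agent.H.MP_1b807b_an.shc_nonneg (fun j =>
        Pool.Agent.H.MP_1b807b_an.shc_nonneg
          (fun j => (Pool.Agent.H.MP_1b807b_an.cc_pos 1 j).le) j) 0
    have h5 := h3.trans h1
    have h6 := h4.trans h2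
    positivity

/-! ## profiles -/

/-- the profile `φ(1 - t)/φ(1)`, cut off at `0` and `1` -/
noncomputable def prof (φ : ℝ → ℝ) (t : ℝ) : ℝ :=
  if t ≤ 0 then 1 else φ (max (1 - t) 0) / φ 1

theorem prof_eq {φ : ℝ → ℝ} (h1 : φ 1 ≠ 0) (t : ℝ) :
    prof φ t = φ (max (1 - max t 0) 0) / φ 1 := by
  unfold prof
  split_ifs with h
  · rw [max_eq_right h]
    norm_num
    field_simp
  · push Not at h
    rw [max_eq_left h.le]

theorem mem_cut (t : ℝ) : max (1 - max t 0) 0 ∈ Icc (0 : ℝ) 1 := by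
  refine ⟨le_max_right _ _, max_le ?_ zero_le_one⟩
  linarith [le_max_right t 0]

theorem cut_lip (s t : ℝ) : |max (1 - s) 0 - max (1 - t) 0| ≤ |s - t| := by
  have h : |max (1 - s) 0 - max (1 - t) 0| ≤ |(1 - s) - (1 - t)| :=
    abs_max_sub_max_le_abs (1 - s) (1 - t) 0
  refine h.trans_eq ?_
  rw [show (1 - s) - (1 - t) = -(s - t) by ring, abs_neg]

theorem prof_one {φ : ℝ → ℝ} {t : ℝ} (ht : t ≤ 0) : prof φ t = 1 := by
  unfold prof
  rw [if_pos ht]

theorem prof_mem {φ : ℝ → ℝ} (hm : MonotoneOn φ (Icc 0 1)) (h0 : 0 ≤ φ 0) (h1 : 0 < φ 1) (t : ℝ) :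
    φ 0 / φ 1 ≤ prof φ t ∧ 0 ≤ prof φ t ∧ prof φ t ≤ 1 := by
  rw [prof_eq h1.ne']
  have hx := mem_cut t
  have a : φ 0 ≤ φ (max (1 - max t 0) 0) := hm (left_mem_Icc.2 zero_le_one) hx hx.1
  have b : φ (max (1 - max t 0) 0) ≤ φ 1 := hm hx (right_mem_Icc.2 zero_le_one) hx.2
  exact ⟨by gcongr, div_nonneg (h0.trans a) h1.le, (div_le_one h1).2 b⟩

theorem prof_lip {φ φ' : ℝ → ℝ} (hφ : ∀ x, HasDerivAt φ (φ' x) x) (h1 : 0 < φ 1) {L : ℝ}
    (hL : ∀ x ∈ Icc (0 : ℝ) 1, |φ' x| ≤ L * φ 1) (s t : ℝ) :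
    |prof φ s - prof φ t| ≤ L * |s - t| := by
  rw [prof_eq h1.ne', prof_eq h1.ne', ← sub_div, abs_div, abs_of_pos h1, div_le_iff₀ h1]
  have hb : ∀ x ∈ Icc (0 : ℝ) 1, ∀ y ∈ Icc (0 : ℝ) 1, ‖φ y - φ x‖ ≤ L * φ 1 * ‖y - x‖ := by
    intro x hx y hy
    refine Convex.norm_image_sub_le_of_norm_hasDerivWithin_le (f' := φ')
      (fun z _ => (hφ z).hasDerivWithinAt) (fun z hz => ?_) (convex_Icc 0 1) hx hy
    exact hL z hz
  have h := hb _ (mem_cut t) _ (mem_cut s)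
  rw [Real.norm_eq_abs, Real.norm_eq_abs] at h
  refine h.trans ?_
  have hLn : 0 ≤ L * φ 1 := (abs_nonneg _).trans (hL 0 (left_mem_Icc.2 zero_le_one))
  have h2 : |max (1 - max s 0) 0 - max (1 - max t 0) 0| ≤ |s - t| :=
    (cut_lip _ _).trans (abs_max_sub_max_le_abs s t 0)
  calc L * φ 1 * |max (1 - max s 0) 0 - max (1 - max t 0) 0| ≤ L * φ 1 * |s - t| := by gcongr
    _ = L * |s - t| * φ 1 := by ring

theorem prof_slope {φ φ' : ℝ → ℝ} (hφ : ∀ x, HasDerivAt φ (φ' x) x) (hc : Continuous φ')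
    (h1 : 0 < φ 1) (h0 : ∀ x ∈ Icc (0 : ℝ) 1, 0 ≤ φ' x) {t : ℝ} (ht : 0 < t) {e : ℝ}
    (he : 0 < e) : ∃ η > 0, ∀ s s', |s - t| < η → |s' - t| < η →
      |prof φ s - prof φ s'| ≤ (φ' (max (1 - t) 0) / φ 1 + e) * |s - s'| := by
  -- continuity of φ'
  have hcont : ContinuousAt φ' (max (1 - t) 0) := hc.continuousAt
  obtain ⟨η₀, hη₀, hη⟩ := Metric.continuousAt_iff.1 hcont (e * φ 1) (by positivity)
  refine ⟨min η₀ t, lt_min hη₀ ht, ?_⟩
  intro s s' hs hs'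
  have hs0 : 0 < s := by
    have := (abs_lt.1 (hs.trans_le (min_le_right _ _))).1
    linarith
  have hs0' : 0 < s' := by
    have := (abs_lt.1 (hs'.trans_le (min_le_right _ _))).1
    linarith
  have e1 : prof φ s = φ (max (1 - s) 0) / φ 1 := by
    unfold prof
    rw [if_neg (not_le.2 hs0)]
  have e2 : prof φ s' = φ (max (1 - s') 0) / φ 1 := by
    unfold prof
    rw [if_neg (not_le.2 hs0')]
  rw [e1, e2, ← sub_div, abs_div, abs_of_pos h1, div_le_iff₀ h1]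
  set m := max (1 - t) 0 with hm
  have hcv : Convex ℝ (ball m η₀ ∩ Icc 0 1) := (convex_ball _ _).inter (convex_Icc _ _)
  have hin : ∀ u, 0 < u → |u - t| < min η₀ t → max (1 - u) 0 ∈ ball m η₀ ∩ Icc (0 : ℝ) 1 := by
    intro u hu0 hu
    refine ⟨?_, le_max_right _ _, max_le (by linarith) zero_le_one⟩
    rw [mem_ball, Real.dist_eq]
    exact (cut_lip u t).trans_lt (hu.trans_le (min_le_left _ _))
  have hb := Convex.norm_image_sub_le_of_norm_hasDerivWithin_le (f := φ) (f' := φ')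
      (C := φ' m + e * φ 1) (s := ball m η₀ ∩ Icc 0 1)
      (fun z _ => (hφ z).hasDerivWithinAt) (fun z hz => by
        have h3 := hη (mem_ball.1 hz.1)
        rw [Real.dist_eq] at h3
        rw [Real.norm_eq_abs, abs_of_nonneg (h0 z hz.2)]
        linarith [(abs_lt.1 h3).2]) hcv (hin s' hs0' hs') (hin s hs0 hs)
  rw [Real.norm_eq_abs, Real.norm_eq_abs] at hb
  refine hb.trans ?_
  have hn : 0 ≤ φ' m + e * φ 1 := by
    have : 0 ≤ φ' m := h0 m ⟨le_max_right _ _, max_le (by linarith) zero_le_one⟩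
    positivity
  calc (φ' m + e * φ 1) * |max (1 - s) 0 - max (1 - s') 0| ≤ (φ' m + e * φ 1) * |s - s'| :=
        mul_le_mul_of_nonneg_left (cut_lip _ _) hn
    _ = (φ' m / φ 1 + e) * |s - s'| * φ 1 := by
        field_simp

theorem fX_eq (k : ℝ) : fX k = prof fun x => I0 (k * x) := by
  ext t
  unfold fX prof
  simp only [mul_one]

end Pool.Agent.RC
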