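import Pool.Agent.H.MP_1b807b_an.C.Far
import Pool.Agent.H.MP_1b807b_an.C.Prof
import Pool.Agent.H.MP_1b807b_an.C.Sbt
import Pool.Agent.H.MP_1b807b_an.C.Gauge

/-! MP_1b807b_an, convex planar domains, module XEnergy: the energy of the tip function -/

set_option autoImplicit false

namespace Pool.Agent.RC

open MeasureTheory Metric Set
open Pool.Agent.RG
open scoped RealInnerProductSpace ENNReal

/-! ### the profile `PhX` -/

theorem xe_W1_nonneg (m : ℕ) (t : ℝ) : 0 ≤ Pool.Agent.H.MP_1b807b_an.W1 m t := by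
  have h1 : 0 ≤ Pool.Agent.H.MP_1b807b_an.ser (Pool.Agent.H.MP_1b807b_an.shc
      (Pool.Agent.H.MP_1b807b_an.cc m)) (t ^ 2) := by
    refine le_trans ?_ (Pool.Agent.H.MP_1b807b_an.ser_ge
      (Pool.Agent.H.MP_1b807b_an.ent_cc m).shc
      (fun j => Pool.Agent.H.MP_1b807b_an.shc_nonneg
        (fun j => (Pool.Agent.H.MP_1b807b_an.cc_pos m j).le) j) (sq_nonneg t))
    exact Pool.Agent.H.MP_1b807b_an.shc_nonneg
      (fun j => (Pool.Agent.H.MP_1b807b_an.cc_pos m j).le) 0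
  have h2 : 0 ≤ Pool.Agent.H.MP_1b807b_an.ser (Pool.Agent.H.MP_1b807b_an.shc
      (Pool.Agent.H.MP_1b807b_an.shc (Pool.Agent.H.MP_1b807b_an.cc m))) (t ^ 2) := by
    refine le_trans ?_ (Pool.Agent.H.MP_1b807b_an.ser_ge
      (Pool.Agent.H.MP_1b807b_an.ent_cc m).shc.shc
      (fun j => Pool.Agent.H.MP_1b807b_an.shc_nonneg (fun j =>
        Pool.Agent.H.MP_1b807b_an.shc_nonneg
          (fun j => (Pool.Agent.H.MP_1b807b_an.cc_pos m j).le) j) j) (sq_nonneg t))
    exact Pool.Agent.H.MP_1b807b_an.shc_nonneg (fun j =>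
      Pool.Agent.H.MP_1b807b_an.shc_nonneg
        (fun j => (Pool.Agent.H.MP_1b807b_an.cc_pos m j).le) j) 0
  unfold Pool.Agent.H.MP_1b807b_an.W1
  positivity

theorem xe_W_nonneg (m : ℕ) {t : ℝ} (ht : 0 ≤ t) : 0 ≤ Pool.Agent.H.MP_1b807b_an.W m t := by
  rcases ht.eq_or_lt with h | h
  · rw [← h, Pool.Agent.H.MP_1b807b_an.W_zero]
  · exact (Pool.Agent.H.MP_1b807b_an.W_pos m h).le

/-- the derivative of `PhX` -/
noncomputable def dPhX (k t : ℝ) : ℝ :=
  k ^ 2 * (2 * I0 (k * (1 - t)) * (I1 (k * (1 - t)) * (-k)) +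
    2 * I1 (k * (1 - t)) * (Pool.Agent.H.MP_1b807b_an.W1 1 (k * (1 - t)) * (-k))) / I0 k ^ 2

theorem hasDerivAt_PhX (k t : ℝ) : HasDerivAt (PhX k) (dPhX k t) t := by
  have hz : HasDerivAt (fun t : ℝ => k * (1 - t)) (-k) t := by
    have := ((hasDerivAt_id t).const_sub 1).const_mul k
    refine this.congr_deriv ?_
    ring
  have h0 : HasDerivAt (fun t => I0 (k * (1 - t))) (I1 (k * (1 - t)) * (-k)) t :=
    (Pool.Agent.H.MP_1b807b_an.hasDerivAt_V 1 (k * (1 - t))).comp t hz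
  have h1 : HasDerivAt (fun t => I1 (k * (1 - t)))
      (Pool.Agent.H.MP_1b807b_an.W1 1 (k * (1 - t)) * (-k)) t :=
    (Pool.Agent.H.MP_1b807b_an.hasDerivAt_W 1 (k * (1 - t))).comp t hz
  have h := (((h0.pow 2).add (h1.pow 2)).const_mul (k ^ 2)).div_const (I0 k ^ 2)
  refine h.congr_deriv ?_
  simp only [dPhX]
  push_cast
  ring

theorem continuous_dPhX (k : ℝ) : Continuous (dPhX k) := by
  have hz : Continuous fun t : ℝ => k * (1 - t) := by fun_prop
  have h0 : Continuous fun t => I0 (k * (1 - t)) := (Pool.Agent.H.MP_1b807b_an.continuous_V 1).comp hz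
  have h1 : Continuous fun t => I1 (k * (1 - t)) := (Pool.Agent.H.MP_1b807b_an.continuous_W 1).comp hz
  have h2 : Continuous fun t => Pool.Agent.H.MP_1b807b_an.W1 1 (k * (1 - t)) :=
    (Pool.Agent.H.MP_1b807b_an.continuous_W1 1).comp hz
  unfold dPhX
  fun_prop

theorem continuous_PhX (k : ℝ) : Continuous (PhX k) :=
  continuous_iff_continuousAt.2 fun t => (hasDerivAt_PhX k t).continuousAt

theorem PhX_nonneg (k t : ℝ) : 0 ≤ PhX k t := by
  unfold PhX
  positivity

theorem dPhX_nonpos {k t : ℝ} (hk : 0 < k) (ht : t ≤ 1) : dPhX k t ≤ 0 := by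
  have hz : 0 ≤ k * (1 - t) := mul_nonneg hk.le (by linarith)
  have h0 := (I0_pos (k * (1 - t))).le
  have h1 : 0 ≤ I1 (k * (1 - t)) := xe_W_nonneg 1 hz
  have h2 := xe_W1_nonneg 1 (k * (1 - t))
  have e : dPhX k t = -(k ^ 2 * (2 * I0 (k * (1 - t)) * (I1 (k * (1 - t)) * k) +
    2 * I1 (k * (1 - t)) * (Pool.Agent.H.MP_1b807b_an.W1 1 (k * (1 - t)) * k)) / I0 k ^ 2) := by
    unfold dPhX
    ring
  rw [e, neg_nonpos]
  positivity

theorem MX_sq_add {k t : ℝ} (h0 : 0 ≤ t) (h1 : t ≤ 1) :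
    MX k t ^ 2 + k ^ 2 * fX k t ^ 2 = PhX k t := by
  have hm : max (1 - t) 0 = 1 - t := max_eq_left (by linarith)
  have hf : fX k t = I0 (k * (1 - t)) / I0 k := by
    unfold fX
    split_ifs with h
    · have : t = 0 := le_antisymm h h0
      rw [this, sub_zero, mul_one, div_self (I0_pos k).ne']
    · rw [hm]
  rw [hf, MX, PhX, hm]
  have := (I0_pos k).ne'
  field_simp
  ring

/-! ### the smoothed positive part -/

theorem rt_pos {e : ℝ} (he : 0 < e) (s : ℝ) : 0 < √(s ^ 2 + e ^ 2) := by positivity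

theorem rt_sq {e : ℝ} (s : ℝ) : √(s ^ 2 + e ^ 2) ^ 2 = s ^ 2 + e ^ 2 := Real.sq_sqrt (by positivity)

theorem abs_le_rt (e s : ℝ) : |s| ≤ √(s ^ 2 + e ^ 2) := by
  rw [← Real.sqrt_sq_eq_abs]
  exact Real.sqrt_le_sqrt (by nlinarith [sq_nonneg e])

theorem le_rt {e : ℝ} (he : 0 < e) (s : ℝ) : e ≤ √(s ^ 2 + e ^ 2) := by
  have h : √(e ^ 2) ≤ √(s ^ 2 + e ^ 2) := Real.sqrt_le_sqrt (by nlinarith [sq_nonneg s])
  rwa [Real.sqrt_sq he.le] at h

theorem rt_le {e : ℝ} (he : 0 < e) (s : ℝ) : √(s ^ 2 + e ^ 2) ≤ |s| + e := by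
  rw [Real.sqrt_le_left (by positivity)]
  have := abs_nonneg s
  nlinarith [sq_abs s]

theorem zt_ge {e : ℝ} (s : ℝ) : max s 0 ≤ zt e s := by
  have h := abs_le_rt e s
  unfold zt
  rcases le_total s 0 with hs | hs
  · rw [max_eq_right hs]
    have := neg_abs_le s
    linarith
  · rw [max_eq_left hs]
    rw [abs_of_nonneg hs] at h
    linarith

theorem zt_le {e : ℝ} (he : 0 < e) (s : ℝ) : zt e s ≤ max s 0 + e / 2 := by
  have h := rt_le he s
  unfold zt
  rcases le_total s 0 with hs | hs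
  · rw [max_eq_right hs]
    rw [abs_of_nonpos hs] at h
    linarith
  · rw [max_eq_left hs]
    rw [abs_of_nonneg hs] at h
    linarith

theorem zt_nonneg {e : ℝ} (s : ℝ) : 0 ≤ zt e s := (le_max_right s 0).trans (zt_ge s)

theorem hasDerivAt_rt {e : ℝ} (he : 0 < e) (s : ℝ) :
    HasDerivAt (fun s => √(s ^ 2 + e ^ 2)) (s / √(s ^ 2 + e ^ 2)) s := by
  have h1 : HasDerivAt (fun s : ℝ => s ^ 2 + e ^ 2) (2 * s) s := by
    have := (hasDerivAt_pow 2 s).add_const (e ^ 2)
    refine this.congr_deriv ?_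
    push_cast
    ring
  have h := h1.sqrt (by positivity)
  refine h.congr_deriv ?_
  have := (rt_pos he s).ne'
  field_simp

theorem hasDerivAt_zt {e : ℝ} (he : 0 < e) (s : ℝ) :
    HasDerivAt (zt e) (zt e s / √(s ^ 2 + e ^ 2)) s := by
  have h := ((hasDerivAt_id s).add (hasDerivAt_rt he s)).div_const 2
  refine h.congr_deriv ?_
  unfold zt
  have := (rt_pos he s).ne'
  field_simp
  ring

theorem deriv_zt {e : ℝ} (he : 0 < e) (s : ℝ) : deriv (zt e) s = zt e s / √(s ^ 2 + e ^ 2) :=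
  (hasDerivAt_zt he s).deriv

/-- `ζ ζ'` -/
noncomputable def qt (e s : ℝ) : ℝ := zt e s - e ^ 2 / (4 * √(s ^ 2 + e ^ 2))

theorem zt_mul_deriv {e : ℝ} (he : 0 < e) (s : ℝ) : zt e s * deriv (zt e) s = qt e s := by
  rw [deriv_zt he]
  unfold zt qt zt
  have h1 := (rt_pos he s).ne'
  have h2 := rt_sq (e := e) s
  field_simp
  nlinarith

/-- derivative of `ζ ζ'` -/
noncomputable def dqt (e s : ℝ) : ℝ :=
  zt e s / √(s ^ 2 + e ^ 2) + e ^ 2 * s / (4 * √(s ^ 2 + e ^ 2) ^ 3)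

theorem hasDerivAt_qt {e : ℝ} (he : 0 < e) (s : ℝ) : HasDerivAt (qt e) (dqt e s) s := by
  have h1 := (rt_pos he s).ne'
  have h2 := ((hasDerivAt_rt he s).const_mul 4)
  have h3 := (hasDerivAt_const s (e ^ 2)).div h2 (mul_ne_zero four_ne_zero h1)
  have h := (hasDerivAt_zt he s).sub h3
  refine h.congr_deriv ?_
  unfold dqt
  field_simp
  ring

theorem continuous_rt (e : ℝ) : Continuous fun s : ℝ => √(s ^ 2 + e ^ 2) := by fun_prop

theorem continuous_zt (e : ℝ) : Continuous (zt e) := by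
  unfold zt
  fun_prop

theorem continuous_dqt {e : ℝ} (he : 0 < e) : Continuous (dqt e) := by
  unfold dqt
  refine ((continuous_zt e).div (continuous_rt e) fun s => (rt_pos he s).ne').add ?_
  refine (continuous_const.mul continuous_id).div (continuous_const.mul ((continuous_rt e).pow 3))
    fun s => ?_
  have := rt_pos he s
  positivity

theorem dqt_ge {e : ℝ} (he : 0 < e) (s : ℝ) : (zt e s / √(s ^ 2 + e ^ 2)) ^ 2 ≤ dqt e s := by
  have h1 := rt_pos he s
  have h2 := rt_sq (e := e) s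
  have h3 := zt_nonneg (e := e) s
  have key : dqt e s - (zt e s / √(s ^ 2 + e ^ 2)) ^ 2 =
      e ^ 2 * zt e s / (2 * √(s ^ 2 + e ^ 2) ^ 3) := by
    unfold dqt zt
    set R := √(s ^ 2 + e ^ 2) with hR
    have he2 : e ^ 2 = R ^ 2 - s ^ 2 := by linarith
    rw [he2]
    field_simp
    ring
  have h4 : 0 ≤ e ^ 2 * zt e s / (2 * √(s ^ 2 + e ^ 2) ^ 3) := by positivity
  linarith

theorem qt_le {e : ℝ} (he : 0 < e) (s : ℝ) : qt e s ≤ max s 0 + e / 2 := by
  have h := zt_le he s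
  have h1 := rt_pos he s
  have h2 : 0 ≤ e ^ 2 / (4 * √(s ^ 2 + e ^ 2)) := by positivity
  unfold qt
  linarith

theorem qt_ge {e : ℝ} (he : 0 < e) (s : ℝ) : max s 0 - e / 4 ≤ qt e s := by
  have h := zt_ge (e := e) s
  have h1 := rt_pos he s
  have h3 := le_rt he s
  have h2 : e ^ 2 / (4 * √(s ^ 2 + e ^ 2)) ≤ e / 4 := by
    rw [div_le_iff₀ (by positivity)]
    nlinarith
  unfold qt
  linarith

/-! ### derivatives in the plane -/

theorem hasFDerivAt_aff (a θ₀ : ℝ) (x : E 2) :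
    HasFDerivAt (fun x : E 2 => a + sp x θ₀) (innerSL ℝ (ev θ₀)) x := by
  have e : (fun x : E 2 => a + sp x θ₀) = fun x => a + innerSL ℝ (ev θ₀) x := by
    funext x
    rw [innerSL_apply_apply, sp_eq_inner, real_inner_comm]
  rw [e]
  exact (innerSL ℝ (ev θ₀)).hasFDerivAt.const_add a

theorem norm_fderiv_zt {e : ℝ} (he : 0 < e) (a θ₀ : ℝ) (x : E 2) :
    ‖fderiv ℝ (fun x : E 2 => zt e (a + sp x θ₀)) x‖ ^ 2 =
      (zt e (a + sp x θ₀) / √((a + sp x θ₀) ^ 2 + e ^ 2)) ^ 2 := by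
  have h := (hasDerivAt_zt he (a + sp x θ₀)).comp_hasFDerivAt x (hasFDerivAt_aff a θ₀ x)
  have e1 : (fun x : E 2 => zt e (a + sp x θ₀)) = zt e ∘ fun x : E 2 => a + sp x θ₀ := rfl
  rw [e1, h.fderiv, norm_smul, innerSL_apply_norm, norm_ev, mul_one, Real.norm_eq_abs, sq_abs]

theorem divg_qt {e : ℝ} (he : 0 < e) (a θ₀ : ℝ) (x : E 2) :
    divg (fun x : E 2 => qt e (a + sp x θ₀) • ev θ₀) x = dqt e (a + sp x θ₀) := by
  have h := ((hasDerivAt_qt he (a + sp x θ₀)).comp_hasFDerivAt x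
    (hasFDerivAt_aff a θ₀ x)).smul_const (ev θ₀)
  have h2 : fderiv ℝ (fun x : E 2 => qt e (a + sp x θ₀) • ev θ₀) x = _ := h.fderiv
  rw [divg, h2, tr, Fin.sum_univ_two]
  simp only [ContinuousLinearMap.smulRight_apply, smul_apply,
    innerSL_apply_apply, inner_two, PiLp.smul_apply, smul_eq_mul, ev_zero', ev_one',
    PiLp.single_apply]
  simp only [if_true, mul_one, mul_zero, add_zero, zero_add,
    show ((0 : Fin 2) = 1) = False by simp, show ((1 : Fin 2) = 0) = False by simp, if_false]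
  have := Real.cos_sq_add_sin_sq θ₀
  linear_combination (dqt e (a + sp x θ₀)) * this

/-! ### the boundary functional with the smoothed positive part -/

/-- `tipI` with the smoothed positive part -/
noncomputable def tipS (e k s ω r : ℝ) : ℝ :=
  (∫ t in (0 : ℝ)..1, PhX k t * ((zt e (s - t * Real.cos ω)) ^ 2 * (r - t))) +
    qt e s * Real.cos ω * r - k * GG k * ((zt e s) ^ 2 * r)

theorem sq_sub_le {e : ℝ} (he : 0 < e) (he1 : e ≤ 1) {s Q : ℝ} (hs : |s| ≤ Q) :
    zt e s ^ 2 - max s 0 ^ 2 ≤ e * (Q + 1) := by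
  have h1 := zt_ge (e := e) s
  have h2 := zt_le he s
  have h3 : max s 0 ≤ Q := max_le ((le_abs_self s).trans hs) ((abs_nonneg s).trans hs)
  have h4 : 0 ≤ max s 0 := le_max_right _ _
  have e1 : zt e s ^ 2 - max s 0 ^ 2 = (zt e s - max s 0) * (zt e s + max s 0) := by ring
  rw [e1]
  have h5 : zt e s - max s 0 ≤ e / 2 := by linarith
  have h6 : zt e s + max s 0 ≤ 2 * (Q + 1) := by linarith
  calc (zt e s - max s 0) * (zt e s + max s 0) ≤ (e / 2) * (2 * (Q + 1)) :=
        mul_le_mul h5 h6 (by linarith) (by linarith)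
    _ = e * (Q + 1) := by ring

theorem tipS_le {e k : ℝ} (he : 0 < e) (he1 : e ≤ 1) (hk : 0 < k) {s ω r Q C P : ℝ}
    (hs : |s| + 1 ≤ Q) (hr : 0 < r) (hrC : r ≤ C) (hP : ∀ t ∈ Icc (0 : ℝ) 1, PhX k t ≤ P) :
    tipS e k s ω r ≤ tipI k s ω r + (P * (Q + 1) * (C + 1) + C / 2) * e := by
  have hc1 := Real.abs_cos_le_one ω
  have hP0 : 0 ≤ P := (PhX_nonneg k 0).trans (hP 0 ⟨le_rfl, zero_le_one⟩)
  have hQ0 : 0 ≤ Q := by
    have := abs_nonneg s
    linarith
  have hC0 : 0 < C := lt_of_lt_of_le hr hrC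
  have i1 : IntervalIntegrable (fun t => PhX k t * ((zt e (s - t * Real.cos ω)) ^ 2 * (r - t)))
      volume 0 1 := by
    refine Continuous.intervalIntegrable ?_ _ _
    exact (continuous_PhX k).mul ((((continuous_zt e).comp (continuous_const.sub
      (continuous_id.mul continuous_const))).pow 2).mul (continuous_const.sub continuous_id))
  have i2 : IntervalIntegrable (fun t => PhX k t * (max (s - t * Real.cos ω) 0) ^ 2 * (r - t))
      volume 0 1 := by
    refine Continuous.intervalIntegrable ?_ _ _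
    exact ((continuous_PhX k).mul (((continuous_const.sub
      (continuous_id.mul continuous_const)).max continuous_const).pow 2)).mul
        (continuous_const.sub continuous_id)
  have hI : ∫ t in (0 : ℝ)..1, PhX k t * ((zt e (s - t * Real.cos ω)) ^ 2 * (r - t)) ≤
      ∫ t in (0 : ℝ)..1, (PhX k t * (max (s - t * Real.cos ω) 0) ^ 2 * (r - t) +
        P * (e * (Q + 1)) * (C + 1)) := by
    refine intervalIntegral.integral_mono_on zero_le_one i1
      (i2.add intervalIntegrable_const) (fun t ht => ?_)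
    have h1 : |s - t * Real.cos ω| ≤ Q := by
      have h2 : |t * Real.cos ω| ≤ 1 := by
        rw [abs_mul, abs_of_nonneg ht.1]
        nlinarith [ht.1, ht.2]
      calc |s - t * Real.cos ω| ≤ |s| + |t * Real.cos ω| := abs_sub _ _
        _ ≤ Q := by linarith
    have h3 := sq_sub_le he he1 h1
    have h4 : 0 ≤ zt e (s - t * Real.cos ω) ^ 2 - max (s - t * Real.cos ω) 0 ^ 2 := by
      have h5 := zt_ge (e := e) (s - t * Real.cos ω)
      have h6 : 0 ≤ max (s - t * Real.cos ω) 0 := le_max_right _ _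
      nlinarith
    have h7 : |r - t| ≤ C + 1 := by
      rw [abs_le]
      constructor <;> linarith [ht.1, ht.2]
    have h8 : PhX k t * (zt e (s - t * Real.cos ω) ^ 2 - max (s - t * Real.cos ω) 0 ^ 2) ≤
        P * (e * (Q + 1)) := mul_le_mul (hP t ht) h3 h4 hP0
    have h9 : 0 ≤ PhX k t * (zt e (s - t * Real.cos ω) ^ 2 - max (s - t * Real.cos ω) 0 ^ 2) :=
      mul_nonneg (PhX_nonneg k t) h4
    have h10 : PhX k t * (zt e (s - t * Real.cos ω) ^ 2 - max (s - t * Real.cos ω) 0 ^ 2) *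
        (r - t) ≤ P * (e * (Q + 1)) * (C + 1) := by
      refine (mul_le_mul_of_nonneg_left ((le_abs_self _).trans h7) h9).trans ?_
      exact mul_le_mul_of_nonneg_right h8 (by linarith)
    have e2 : PhX k t * ((zt e (s - t * Real.cos ω)) ^ 2 * (r - t)) =
        PhX k t * (max (s - t * Real.cos ω) 0) ^ 2 * (r - t) +
        PhX k t * (zt e (s - t * Real.cos ω) ^ 2 - max (s - t * Real.cos ω) 0 ^ 2) * (r - t) := by
      ring
    linarith
  rw [intervalIntegral.integral_add i2 intervalIntegrable_const,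
    intervalIntegral.integral_const, sub_zero, one_smul] at hI
  have h2 : qt e s * Real.cos ω * r - max s 0 * Real.cos ω * r ≤ C / 2 * e := by
    have h3 := qt_le he s
    have h4 := qt_ge he s
    have h5 : |qt e s - max s 0| ≤ e / 2 := by
      rw [abs_le]
      constructor <;> linarith
    have e3 : qt e s * Real.cos ω * r - max s 0 * Real.cos ω * r =
        (qt e s - max s 0) * Real.cos ω * r := by ring
    rw [e3]
    have h6 : (qt e s - max s 0) * Real.cos ω ≤ e / 2 := by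
      refine (le_abs_self _).trans ?_
      rw [abs_mul]
      calc |qt e s - max s 0| * |Real.cos ω| ≤ (e / 2) * 1 :=
            mul_le_mul h5 hc1 (abs_nonneg _) (by linarith)
        _ = e / 2 := mul_one _
    calc (qt e s - max s 0) * Real.cos ω * r ≤ (e / 2) * r :=
          mul_le_mul_of_nonneg_right h6 hr.le
      _ ≤ (e / 2) * C := mul_le_mul_of_nonneg_left hrC (by linarith)
      _ = C / 2 * e := by ring
  have h3 : k * GG k * (max s 0 ^ 2 * r) ≤ k * GG k * (zt e s ^ 2 * r) := by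
    have h4 := zt_ge (e := e) s
    have h5 : 0 ≤ max s 0 := le_max_right _ _
    have h6 : 0 ≤ k * GG k := mul_nonneg hk.le (Pool.Agent.H.MP_1b807b_an.F_pos 1 hk).le
    have h7 : max s 0 ^ 2 * r ≤ zt e s ^ 2 * r := by
      refine mul_le_mul_of_nonneg_right ?_ hr.le
      nlinarith
    exact mul_le_mul_of_nonneg_left h7 h6
  unfold tipS tipI
  have e4 : (P * (Q + 1) * (C + 1) + C / 2) * e = P * (e * (Q + 1)) * (C + 1) + C / 2 * e := by ring
  rw [e4]
  linarith

theorem xe_continuous_sp (θ₀ : ℝ) : Continuous fun x : E 2 => sp x θ₀ :=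
  continuous_sp.comp (continuous_id.prodMk continuous_const)

/-- the volume terms are bounded by the smoothed boundary functional -/
theorem energy_le_tipS (B : Body) (hA : B.area = Real.pi) (h0 : ∀ θ, 0 < B.h θ) {k a e : ℝ}
    (hk : 0 < k) (he : 0 < e) (θ₀ : ℝ) :
    (∫ x in B.K, zt e (a + sp x θ₀) ^ 2 * (MX k (B.depth x) ^ 2 + k ^ 2 * fX k (B.depth x) ^ 2))
    + (∫ x in B.K, divg (fun x : E 2 => qt e (a + sp x θ₀) • ev θ₀) x)
    - (∫ x in B.K, (divg (fun x : E 2 => qt e (a + sp x θ₀) • ev θ₀) x -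
        ‖fderiv ℝ (fun x : E 2 => zt e (a + sp x θ₀)) x‖ ^ 2) * fX k (B.depth x) ^ 2)
    - k * GG k * (∫ θ in (0 : ℝ)..2 * Real.pi, zt e (a + sp (B.y θ) θ₀) ^ 2 * B.ρ θ) ≤
    ∫ θ in (0 : ℝ)..2 * Real.pi, tipS e k (a + sp (B.y θ) θ₀) (θ - θ₀) (B.ρ θ) := by
  have cs : Continuous fun θ : ℝ => a + sp (B.y θ) θ₀ :=
    continuous_const.add ((xe_continuous_sp θ₀).comp B.continuous_y)
  have cc : Continuous fun θ : ℝ => Real.cos (θ - θ₀) :=
    Real.continuous_cos.comp (continuous_id.sub continuous_const)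
  have cdep : Continuous B.depth := B.continuous_depth
  have mK : MeasurableSet B.K := (isClosed_le continuous_const cdep).measurableSet
  -- first term
  have t1 : ∫ x in B.K, zt e (a + sp x θ₀) ^ 2 *
      (MX k (B.depth x) ^ 2 + k ^ 2 * fX k (B.depth x) ^ 2) ≤
      ∫ θ in (0 : ℝ)..2 * Real.pi, ∫ t in (0 : ℝ)..1, PhX k t *
        ((zt e (a + sp (B.y θ) θ₀ - t * Real.cos (θ - θ₀))) ^ 2 * (B.ρ θ - t)) := by
    have hdeep : ∀ᵐ x : E 2, ¬ 1 ≤ B.depth x := by
      rw [ae_iff]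
      simp only [not_not]
      exact B.deep_null hA
    have e1 : ∫ x in B.K, zt e (a + sp x θ₀) ^ 2 *
        (MX k (B.depth x) ^ 2 + k ^ 2 * fX k (B.depth x) ^ 2) =
        ∫ x in B.K, zt e (a + sp x θ₀) ^ 2 * PhX k (B.depth x) := by
      refine setIntegral_congr_ae mK ?_
      filter_upwards [hdeep] with x hx hxK
      rw [MX_sq_add (show 0 ≤ B.depth x from hxK) (not_le.1 hx).le]
    rw [e1]
    have h := B.sbt hA (μ := fun σ => zt e (a + σ) ^ 2)
      (((continuous_zt e).comp (continuous_const.add continuous_id)).pow 2)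
      (fun σ => sq_nonneg _) θ₀ (fun t => hasDerivAt_PhX k t) (continuous_dPhX k)
      (fun t ht => dPhX_nonpos hk ht.2) (fun t _ => PhX_nonneg k t)
    refine h.trans (le_of_eq ?_)
    have cF : Continuous fun z : ℝ × ℝ => PhX k z.1 *
        ((zt e (a + sp (B.y z.2) θ₀ - z.1 * Real.cos (z.2 - θ₀))) ^ 2 * (B.ρ z.2 - z.1)) := by
      refine ((continuous_PhX k).comp continuous_fst).mul (Continuous.mul ?_ ?_)
      · exact ((continuous_zt e).comp ((cs.comp continuous_snd).sub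
          (continuous_fst.mul (cc.comp continuous_snd)))).pow 2
      · exact (B.continuous_ρ.comp continuous_snd).sub continuous_fst
    have hsw := intervalIntegral_intervalIntegral_swap (a := 0) (b := 1) (c := 0)
      (d := 2 * Real.pi) (F := fun t θ => PhX k t *
        ((zt e (a + sp (B.y θ) θ₀ - t * Real.cos (θ - θ₀))) ^ 2 * (B.ρ θ - t))) (by
        rw [uIoc_of_le zero_le_one, uIoc_of_le Real.two_pi_pos.le]
        refine (cF.continuousOn.integrableOn_compact
          ((isCompact_Icc (a := (0 : ℝ)) (b := 1)).prod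
            (isCompact_Icc (a := (0 : ℝ)) (b := 2 * Real.pi)))).mono_set ?_
        exact prod_mono Ioc_subset_Icc_self Ioc_subset_Icc_self)
    rw [← hsw]
    refine intervalIntegral.integral_congr (fun t _ => ?_)
    show _ = _
    rw [← intervalIntegral.integral_const_mul]
    refine intervalIntegral.integral_congr (fun θ _ => ?_)
    simp only [add_sub_assoc]
  -- second term
  have t2 : ∫ x in B.K, divg (fun x : E 2 => qt e (a + sp x θ₀) • ev θ₀) x =
      ∫ θ in (0 : ℝ)..2 * Real.pi, qt e (a + sp (B.y θ) θ₀) * Real.cos (θ - θ₀) * B.ρ θ := by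
    have h := B.green h0 (m := fun σ => dqt e (a + σ)) (M := fun σ => qt e (a + σ))
      ((continuous_dqt he).comp (continuous_const.add continuous_id)) (fun s => ?_) θ₀
    · rw [← h]
      refine integral_congr_ae (Filter.Eventually.of_forall fun x => ?_)
      exact divg_qt he a θ₀ x
    · have h1 := (hasDerivAt_qt he (a + s)).comp s ((hasDerivAt_id s).const_add a)
      refine h1.congr_deriv ?_
      rw [mul_one]
  -- third term
  have t3 : 0 ≤ ∫ x in B.K, (divg (fun x : E 2 => qt e (a + sp x θ₀) • ev θ₀) x -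
      ‖fderiv ℝ (fun x : E 2 => zt e (a + sp x θ₀)) x‖ ^ 2) * fX k (B.depth x) ^ 2 := by
    refine integral_nonneg (fun x => ?_)
    refine mul_nonneg ?_ (sq_nonneg _)
    rw [divg_qt he, norm_fderiv_zt he]
    exact sub_nonneg.2 (dqt_ge he _)
  -- assembling
  have cqt : Continuous (qt e) := continuous_iff_continuousAt.2 fun s =>
    (hasDerivAt_qt he s).continuousAt
  have c1 : Continuous fun θ : ℝ => ∫ t in (0 : ℝ)..1, PhX k t *
      ((zt e (a + sp (B.y θ) θ₀ - t * Real.cos (θ - θ₀))) ^ 2 * (B.ρ θ - t)) := by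
    refine intervalIntegral.continuous_parametric_intervalIntegral_of_continuous'
      (f := fun θ t => PhX k t *
      ((zt e (a + sp (B.y θ) θ₀ - t * Real.cos (θ - θ₀))) ^ 2 * (B.ρ θ - t))) ?_ 0 1
    show Continuous fun z : ℝ × ℝ => PhX k z.2 *
      ((zt e (a + sp (B.y z.1) θ₀ - z.2 * Real.cos (z.1 - θ₀))) ^ 2 * (B.ρ z.1 - z.2))
    refine ((continuous_PhX k).comp continuous_snd).mul (Continuous.mul ?_ ?_)
    · exact ((continuous_zt e).comp ((cs.comp continuous_fst).sub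
        (continuous_snd.mul (cc.comp continuous_fst)))).pow 2
    · exact (B.continuous_ρ.comp continuous_fst).sub continuous_snd
  have c2 : Continuous fun θ : ℝ => qt e (a + sp (B.y θ) θ₀) * Real.cos (θ - θ₀) * B.ρ θ :=
    ((cqt.comp cs).mul cc).mul B.continuous_ρ
  have c3 : Continuous fun θ : ℝ => zt e (a + sp (B.y θ) θ₀) ^ 2 * B.ρ θ :=
    (((continuous_zt e).comp cs).pow 2).mul B.continuous_ρ
  have t4 : ∫ θ in (0 : ℝ)..2 * Real.pi, tipS e k (a + sp (B.y θ) θ₀) (θ - θ₀) (B.ρ θ) =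
      (∫ θ in (0 : ℝ)..2 * Real.pi, ∫ t in (0 : ℝ)..1, PhX k t *
        ((zt e (a + sp (B.y θ) θ₀ - t * Real.cos (θ - θ₀))) ^ 2 * (B.ρ θ - t))) +
      (∫ θ in (0 : ℝ)..2 * Real.pi, qt e (a + sp (B.y θ) θ₀) * Real.cos (θ - θ₀) * B.ρ θ) -
      k * GG k * (∫ θ in (0 : ℝ)..2 * Real.pi, zt e (a + sp (B.y θ) θ₀) ^ 2 * B.ρ θ) := by
    have i12 : IntervalIntegrable (fun θ : ℝ => (∫ t in (0 : ℝ)..1, PhX k t *
        ((zt e (a + sp (B.y θ) θ₀ - t * Real.cos (θ - θ₀))) ^ 2 * (B.ρ θ - t))) +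
        qt e (a + sp (B.y θ) θ₀) * Real.cos (θ - θ₀) * B.ρ θ) volume 0 (2 * Real.pi) :=
      (c1.add c2).intervalIntegrable _ _
    have i3 : IntervalIntegrable (fun θ : ℝ => k * GG k *
        (zt e (a + sp (B.y θ) θ₀) ^ 2 * B.ρ θ)) volume 0 (2 * Real.pi) :=
      (continuous_const.mul c3).intervalIntegrable _ _
    rw [← intervalIntegral.integral_add (c1.intervalIntegrable _ _) (c2.intervalIntegrable _ _),
      ← intervalIntegral.integral_const_mul, ← intervalIntegral.integral_sub i12 i3]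
    rfl
  rw [t4, t2]
  linarith

theorem X_energy (B : Body) (hA : B.area = Real.pi) (h0 : ∀ θ, 0 < B.h θ) {k l : ℝ} (hk : 0 < k)
    (hl : 0 < l) (θ₀ : ℝ) {ε : ℝ} (hε : 0 < ε) : ∃ e : ℝ, 0 < e ∧ e ≤ 1 ∧
    ∀ (V : E 2 → ℝ) (Z : E 2 → E 2), (V = fun x => zt e (l - B.h θ₀ + sp x θ₀)) →
    (Z = fun x => (zt e (l - B.h θ₀ + sp x θ₀) * deriv (zt e) (l - B.h θ₀ + sp x θ₀)) • ev θ₀) →
    (∫ x in B.K, V x ^ 2 * (MX k (B.depth x) ^ 2 + k ^ 2 * fX k (B.depth x) ^ 2))
    + (∫ x in B.K, divg Z x)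
    - (∫ x in B.K, (divg Z x - ‖fderiv ℝ V x‖ ^ 2) * fX k (B.depth x) ^ 2)
    - k * GG k * (∫ θ in (0 : ℝ)..2 * Real.pi, V (B.y θ) ^ 2 * B.ρ θ) ≤ B.EX k l θ₀ + ε := by
  have cs : Continuous fun θ : ℝ => l - B.h θ₀ + sp (B.y θ) θ₀ :=
    continuous_const.add ((xe_continuous_sp θ₀).comp B.continuous_y)
  obtain ⟨Q, hQ⟩ := (isCompact_Icc (a := (0 : ℝ)) (b := 2 * Real.pi)).exists_bound_of_continuousOn
    cs.continuousOn
  obtain ⟨C, hC⟩ := (isCompact_Icc (a := (0 : ℝ)) (b := 2 * Real.pi)).exists_bound_of_continuousOn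
    B.continuous_ρ.continuousOn
  obtain ⟨P, hP⟩ := (isCompact_Icc (a := (0 : ℝ)) (b := 1)).exists_bound_of_continuousOn
    (continuous_PhX k).continuousOn
  have hP' : ∀ t ∈ Icc (0 : ℝ) 1, PhX k t ≤ P := fun t ht => (le_abs_self _).trans (hP t ht)
  have hP0 : 0 ≤ P := (PhX_nonneg k 0).trans (hP' 0 ⟨le_rfl, zero_le_one⟩)
  have hQ0 : 0 ≤ Q := (norm_nonneg _).trans (hQ 0 ⟨le_rfl, Real.two_pi_pos.le⟩)
  have hC0 : 0 ≤ C := (norm_nonneg _).trans (hC 0 ⟨le_rfl, Real.two_pi_pos.le⟩)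
  set A : ℝ := P * (Q + 1 + 1) * (C + 1) + C / 2 with hAdef
  have hA0 : 0 ≤ A := by positivity
  have hD : 0 < 2 * Real.pi * (A + 1) := by positivity
  refine ⟨min 1 (ε / (2 * Real.pi * (A + 1))), lt_min one_pos (div_pos hε hD), min_le_left _ _, ?_⟩
  set e : ℝ := min 1 (ε / (2 * Real.pi * (A + 1))) with hedef
  have he : 0 < e := lt_min one_pos (div_pos hε hD)
  have he1 : e ≤ 1 := min_le_left _ _
  have he2 : 2 * Real.pi * (A * e) ≤ ε := by
    have h1 : e * (2 * Real.pi * (A + 1)) ≤ ε := by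
      rw [← le_div_iff₀ hD]
      exact min_le_right _ _
    have h2 : 0 < Real.pi := Real.pi_pos
    have h3 : 0 ≤ 2 * Real.pi * e := by positivity
    nlinarith
  intro V Z hV hZ
  have hZ' : Z = fun x => qt e (l - B.h θ₀ + sp x θ₀) • ev θ₀ := by
    rw [hZ]
    funext x
    rw [zt_mul_deriv he]
  rw [hV, hZ']
  have key := energy_le_tipS B hA h0 hk he θ₀ (a := l - B.h θ₀)
  refine key.trans ?_
  have cqt : Continuous (qt e) := continuous_iff_continuousAt.2 fun s =>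
    (hasDerivAt_qt he s).continuousAt
  have cc : Continuous fun θ : ℝ => Real.cos (θ - θ₀) :=
    Real.continuous_cos.comp (continuous_id.sub continuous_const)
  have c1 : Continuous fun θ : ℝ => ∫ t in (0 : ℝ)..1, PhX k t *
      ((zt e (l - B.h θ₀ + sp (B.y θ) θ₀ - t * Real.cos (θ - θ₀))) ^ 2 * (B.ρ θ - t)) := by
    refine intervalIntegral.continuous_parametric_intervalIntegral_of_continuous'
      (f := fun θ t => PhX k t *
      ((zt e (l - B.h θ₀ + sp (B.y θ) θ₀ - t * Real.cos (θ - θ₀))) ^ 2 * (B.ρ θ - t))) ?_ 0 1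
    show Continuous fun z : ℝ × ℝ => PhX k z.2 *
      ((zt e (l - B.h θ₀ + sp (B.y z.1) θ₀ - z.2 * Real.cos (z.1 - θ₀))) ^ 2 * (B.ρ z.1 - z.2))
    refine ((continuous_PhX k).comp continuous_snd).mul (Continuous.mul ?_ ?_)
    · exact ((continuous_zt e).comp ((cs.comp continuous_fst).sub
        (continuous_snd.mul (cc.comp continuous_fst)))).pow 2
    · exact (B.continuous_ρ.comp continuous_fst).sub continuous_snd
  have c2 : Continuous fun θ : ℝ => ∫ t in (0 : ℝ)..1, PhX k t *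
      (max (l - B.h θ₀ + sp (B.y θ) θ₀ - t * Real.cos (θ - θ₀)) 0) ^ 2 * (B.ρ θ - t) := by
    refine intervalIntegral.continuous_parametric_intervalIntegral_of_continuous'
      (f := fun θ t => PhX k t *
      (max (l - B.h θ₀ + sp (B.y θ) θ₀ - t * Real.cos (θ - θ₀)) 0) ^ 2 * (B.ρ θ - t)) ?_ 0 1
    show Continuous fun z : ℝ × ℝ => PhX k z.2 *
      (max (l - B.h θ₀ + sp (B.y z.1) θ₀ - z.2 * Real.cos (z.1 - θ₀)) 0) ^ 2 * (B.ρ z.1 - z.2)
    refine (((continuous_PhX k).comp continuous_snd).mul ?_).mul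
      ((B.continuous_ρ.comp continuous_fst).sub continuous_snd)
    exact ((((cs.comp continuous_fst).sub
        (continuous_snd.mul (cc.comp continuous_fst))).max continuous_const)).pow 2
  have cS : Continuous fun θ : ℝ =>
      tipS e k (l - B.h θ₀ + sp (B.y θ) θ₀) (θ - θ₀) (B.ρ θ) := by
    unfold tipS
    exact (c1.add (((cqt.comp cs).mul cc).mul B.continuous_ρ)).sub
      (continuous_const.mul ((((continuous_zt e).comp cs).pow 2).mul B.continuous_ρ))
  have cI : Continuous fun θ : ℝ =>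
      tipI k (l - B.h θ₀ + sp (B.y θ) θ₀) (θ - θ₀) (B.ρ θ) := by
    unfold tipI
    exact (c2.add (((cs.max continuous_const).mul cc).mul B.continuous_ρ)).sub
      ((continuous_const.mul ((cs.max continuous_const).pow 2)).mul B.continuous_ρ)
  have hm : ∫ θ in (0 : ℝ)..2 * Real.pi,
      tipS e k (l - B.h θ₀ + sp (B.y θ) θ₀) (θ - θ₀) (B.ρ θ) ≤
      ∫ θ in (0 : ℝ)..2 * Real.pi,
        (tipI k (l - B.h θ₀ + sp (B.y θ) θ₀) (θ - θ₀) (B.ρ θ) + A * e) := by
    refine intervalIntegral.integral_mono_on Real.two_pi_pos.le (cS.intervalIntegrable _ _)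
      ((cI.add continuous_const).intervalIntegrable _ _) (fun θ hθ => ?_)
    have h1 := hQ θ hθ
    rw [Real.norm_eq_abs] at h1
    have h2 : B.ρ θ ≤ C := (le_abs_self _).trans (hC θ hθ)
    exact tipS_le he he1 hk (Q := Q + 1) (by linarith) (B.ρ_pos θ) h2 hP'
  rw [intervalIntegral.integral_add (cI.intervalIntegrable _ _) intervalIntegrable_const,
    intervalIntegral.integral_const, sub_zero, smul_eq_mul] at hm
  unfold Body.EX
  linarith

end Pool.Agent.RC
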