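import Pool.Agent.H.MP_1b807b_an.C.Cases
import Pool.Agent.H.MP_1b807b_an.C.Prof
import Pool.Agent.H.MP_1b807b_an.C.Depth
import Pool.Agent.H.MP_1b807b_an.C.Gauge
import Pool.Agent.H.MP_1b807b_an.C.XEnergy

/-! MP_1b807b_an, convex planar domains, module CaseEX: the tip test functions -/

set_option autoImplicit false

namespace Pool.Agent.RC

open MeasureTheory Metric Set
open Pool.Agent.RG
open scoped RealInnerProductSpace Pointwise


/-! ## the smoothed positive part -/

private noncomputable def zQ_ex (e s : ℝ) : ℝ := Real.sqrt (s ^ 2 + e ^ 2)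

private theorem zQ_pos_ex {e : ℝ} (he : 0 < e) (s : ℝ) : 0 < zQ_ex e s := by
  unfold zQ_ex; positivity
private theorem zQ_sq_ex {e : ℝ} (he : 0 < e) (s : ℝ) : zQ_ex e s ^ 2 = s ^ 2 + e ^ 2 :=
  Real.sq_sqrt (by positivity)
private theorem abs_le_zQ_ex {e : ℝ} (he : 0 < e) (s : ℝ) : |s| ≤ zQ_ex e s := by
  unfold zQ_ex
  apply Real.abs_le_sqrt
  nlinarith
private theorem zQ_le_ex {e : ℝ} (he : 0 < e) (s : ℝ) : zQ_ex e s ≤ |s| + e := by
  unfold zQ_ex
  rw [Real.sqrt_le_left (by positivity)]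
  nlinarith [sq_abs s, abs_nonneg s]
private theorem zt_eq_ex (e s : ℝ) : zt e s = (s + zQ_ex e s) / 2 := rfl
private theorem hasDerivAt_zQ_ex {e : ℝ} (he : 0 < e) (s : ℝ) :
    HasDerivAt (zQ_ex e) (s / zQ_ex e s) s := by
  have h1 : HasDerivAt (fun s : ℝ => s ^ 2 + e ^ 2) (2 * s) s := by
    simpa using (hasDerivAt_pow 2 s).add_const (e ^ 2)
  have h2 := h1.sqrt (by positivity)
  refine h2.congr_deriv ?_
  unfold zQ_ex
  field_simp
private theorem hasDerivAt_zt_ex {e : ℝ} (he : 0 < e) (s : ℝ) :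
    HasDerivAt (zt e) (zt e s / zQ_ex e s) s := by
  have h := ((hasDerivAt_id s).add (hasDerivAt_zQ_ex he s)).div_const 2
  refine h.congr_deriv ?_
  rw [zt_eq_ex]
  have := zQ_pos_ex he s
  field_simp
  ring
private theorem deriv_zt_ex {e : ℝ} (he : 0 < e) : deriv (zt e) = fun s => zt e s / zQ_ex e s := by
  ext s
  exact (hasDerivAt_zt_ex he s).deriv
private theorem zt_nonneg_ex {e : ℝ} (he : 0 < e) (s : ℝ) : 0 ≤ zt e s := by
  rw [zt_eq_ex]
  linarith [abs_le_zQ_ex he s, neg_abs_le s]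
private theorem le_zt_ex {e : ℝ} (he : 0 < e) (s : ℝ) : s ≤ zt e s := by
  rw [zt_eq_ex]
  linarith [abs_le_zQ_ex he s, le_abs_self s]
private theorem zt_le_zQ_ex {e : ℝ} (he : 0 < e) (s : ℝ) : zt e s ≤ zQ_ex e s := by
  rw [zt_eq_ex]
  linarith [abs_le_zQ_ex he s, le_abs_self s]
private theorem zt_le_ex {e : ℝ} (he : 0 < e) (s : ℝ) : zt e s ≤ |s| + e := by
  exact (zt_le_zQ_ex he s).trans (zQ_le_ex he s)
private theorem hasDerivAt_W_exp {e : ℝ} (he : 0 < e) (s : ℝ) :
    HasDerivAt (fun s => zt e s * deriv (zt e) s)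
      (2 * (zt e s / zQ_ex e s) ^ 2 - zt e s ^ 2 * s / zQ_ex e s ^ 3) s := by
  have hq := zQ_pos_ex he s
  have h : HasDerivAt (fun s => zt e s * (zt e s / zQ_ex e s))
      (zt e s / zQ_ex e s * (zt e s / zQ_ex e s) + zt e s * ((zt e s / zQ_ex e s * zQ_ex e s -
        zt e s * (s / zQ_ex e s)) / zQ_ex e s ^ 2)) s :=
    (hasDerivAt_zt_ex he s).mul ((hasDerivAt_zt_ex he s).div (hasDerivAt_zQ_ex he s) hq.ne')
  have e1 : (fun s => zt e s * deriv (zt e) s) = fun s => zt e s * (zt e s / zQ_ex e s) := by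
    rw [deriv_zt_ex he]
  rw [e1]
  refine h.congr_deriv ?_
  field_simp
  ring
private theorem W_bd_ex {e : ℝ} (he : 0 < e) (s : ℝ) :
    |2 * (zt e s / zQ_ex e s) ^ 2 - zt e s ^ 2 * s / zQ_ex e s ^ 3| ≤ 3 := by
  have hq := zQ_pos_ex he s
  have h0 := zt_nonneg_ex he s
  set u := zt e s / zQ_ex e s with hu
  set v := s / zQ_ex e s with hv
  have hu0 : 0 ≤ u := by positivity
  have hu1 : u ≤ 1 := (div_le_one hq).2 (zt_le_zQ_ex he s)
  have hv1 : |v| ≤ 1 := by
    rw [hv, abs_div, abs_of_pos hq]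
    exact (div_le_one hq).2 (abs_le_zQ_ex he s)
  have e1 : zt e s ^ 2 * s / zQ_ex e s ^ 3 = u ^ 2 * v := by
    rw [hu, hv]
    field_simp
  rw [e1, abs_le]
  have := abs_le.1 hv1
  have hu2 : u ^ 2 ≤ 1 := by nlinarith
  have hu3 : 0 ≤ u ^ 2 := sq_nonneg u
  constructor <;> nlinarith

private theorem contDiff_zt_ex {e : ℝ} (he : 0 < e) {n : WithTop ℕ∞} : ContDiff ℝ n (zt e) := by
  unfold zt
  have : ContDiff ℝ n fun s : ℝ => Real.sqrt (s ^ 2 + e ^ 2) :=
    ((contDiff_id.pow 2).add contDiff_const).sqrt (fun s => by positivity)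
  exact (contDiff_id.add this).div_const 2
private theorem contDiff_dzt_ex {e : ℝ} (he : 0 < e) {n : WithTop ℕ∞} :
    ContDiff ℝ n (deriv (zt e)) := by
  rw [deriv_zt_ex he]
  have : ContDiff ℝ n fun s : ℝ => zQ_ex e s :=
    ((contDiff_id.pow 2).add contDiff_const).sqrt (fun s => by
      have : 0 < e ^ 2 := by positivity
      simp only [id]
      positivity)
  exact (contDiff_zt_ex he).div this (fun s => (zQ_pos_ex he s).ne')

/-! ## the fields `V`, `Z` -/

private noncomputable def spL_ex (θ : ℝ) : E 2 →L[ℝ] ℝ := innerSL ℝ (ev θ)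
private theorem spL_apply_ex (θ : ℝ) (x : E 2) : spL_ex θ x = sp x θ := by
  rw [sp_eq_inner, real_inner_comm]
  rfl

private theorem hasFDerivAt_aff_ex (c θ : ℝ) (x : E 2) :
    HasFDerivAt (fun x : E 2 => c + sp x θ) (spL_ex θ) x := by
  have h : (fun x : E 2 => c + sp x θ) = fun x => c + spL_ex θ x := by
    ext x
    rw [spL_apply_ex]
  rw [h]
  exact (spL_ex θ).hasFDerivAt.const_add c

private theorem contDiff_aff_ex (c θ : ℝ) {n : WithTop ℕ∞} :
    ContDiff ℝ n fun x : E 2 => c + sp x θ := by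
  have h : (fun x : E 2 => c + sp x θ) = fun x => c + spL_ex θ x := by
    ext x
    rw [spL_apply_ex]
  rw [h]
  exact contDiff_const.add (spL_ex θ).contDiff

private theorem norm_spL_ex (θ : ℝ) : ‖spL_ex θ‖ = 1 := by
  unfold spL_ex
  rw [innerSL_apply_norm, norm_ev]

theorem X_test {l : ℝ} (hl : 0 < l) {K₀ d : ℝ} (hK : 0 < K₀) (hd : 0 < d) :
    ∃ C c₀ : ℝ, 0 ≤ C ∧ 0 < c₀ ∧ ∀ (k : ℝ) (B : Body) (θ₀ : ℝ), 0 < k → k ≤ K₀ →
    B.area = Real.pi → (∀ θ, 0 < B.h θ) → B.K ⊆ closedBall 0 d → ∀ ε > 0,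
    ∃ (V : E 2 → ℝ) (Z : E 2 → E 2) (M : ℝ → ℝ),
      IsTest B k (k * GG k) C d c₀ (B.EX k l θ₀ + ε) V Z (fX k) M := by
  set ν := min 1 (l / (4 * d)) with hν
  have hν0 : 0 < ν := by positivity
  have hν1 : ν ≤ 1 := min_le_left _ _
  refine ⟨l + 2 * d + 4 + K₀, (l / 2) ^ 2 / I0 K₀ ^ 2 * (ν ^ 2 * Real.pi), by positivity, ?_, ?_⟩
  · have := I0_pos K₀
    have := Real.pi_pos
    positivity
  intro k B θ₀ hk hkK hA h0 hBd ε hε
  obtain ⟨e, he, he1, hE⟩ := X_energy B hA h0 hk hl θ₀ hε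
  set c := l - B.h θ₀ with hc
  set V : E 2 → ℝ := fun x => zt e (c + sp x θ₀) with hV
  set Z : E 2 → E 2 := fun x => (zt e (c + sp x θ₀) * deriv (zt e) (c + sp x θ₀)) • ev θ₀ with hZ
  have hE' := hE V Z rfl rfl
  have hVd : ∀ x, HasFDerivAt V
      ((zt e (c + sp x θ₀) / zQ_ex e (c + sp x θ₀)) • spL_ex θ₀) x := by
    intro x
    have h := (hasDerivAt_zt_ex he (c + sp x θ₀)).comp_hasFDerivAt x (hasFDerivAt_aff_ex c θ₀ x)
    exact h
  have hZd : ∀ x, HasFDerivAt Z (((2 * (zt e (c + sp x θ₀) / zQ_ex e (c + sp x θ₀)) ^ 2 -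
      zt e (c + sp x θ₀) ^ 2 * (c + sp x θ₀) / zQ_ex e (c + sp x θ₀) ^ 3) • spL_ex θ₀).smulRight
        (ev θ₀)) x := by
    intro x
    have h := ((hasDerivAt_W_exp he (c + sp x θ₀)).comp_hasFDerivAt x
      (hasFDerivAt_aff_ex c θ₀ x)).smul_const (ev θ₀)
    exact h
  have hdiv : ∀ x, divg Z x = 2 * (zt e (c + sp x θ₀) / zQ_ex e (c + sp x θ₀)) ^ 2 -
      zt e (c + sp x θ₀) ^ 2 * (c + sp x θ₀) / zQ_ex e (c + sp x θ₀) ^ 3 := by
    intro x
    unfold divg tr
    rw [(hZd x).fderiv, Fin.sum_univ_two]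
    generalize (2 * (zt e (c + sp x θ₀) / zQ_ex e (c + sp x θ₀)) ^ 2 -
      zt e (c + sp x θ₀) ^ 2 * (c + sp x θ₀) / zQ_ex e (c + sp x θ₀) ^ 3) = w
    simp only [ContinuousLinearMap.smulRight_apply, smul_apply, spL_apply_ex,
      PiLp.smul_apply, smul_eq_mul, ev_zero', ev_one', sp]
    simp
    linear_combination w * Real.cos_sq_add_sin_sq θ₀
  have hhd : |B.h θ₀| ≤ d := by
    rw [← B.sp_y θ₀]
    refine (abs_sp_le _ _).trans ?_
    have := hBd (B.y_mem θ₀)
    rwa [mem_closedBall_zero_iff] at this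
  have hφd : ∀ x, HasDerivAt (fun x => I0 (k * x)) (k * I1 (k * x)) x := by
    intro x
    have h := (hasDerivAt_I0 (k * x)).comp x ((hasDerivAt_id x).const_mul k)
    refine h.congr_deriv ?_
    ring
  have hIk : 0 < (fun x => I0 (k * x)) 1 := I0_pos _
  have hmono : MonotoneOn (fun x => I0 (k * x)) (Icc 0 1) := by
    intro a ha b hb hab
    exact I0_mono (mul_nonneg hk.le ha.1) (mul_nonneg hk.le hb.1)
      (mul_le_mul_of_nonneg_left hab hk.le)
  have hM1 : ∀ x ∈ Icc (0 : ℝ) 1, 0 ≤ k * I1 (k * x) ∧ k * I1 (k * x) ≤ K₀ * I0 (k * 1) := by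
    intro x hx
    have h1 : 0 ≤ I1 (k * x) := I1_nonneg (mul_nonneg hk.le hx.1)
    have h2 : I1 (k * x) ≤ I0 (k * 1) :=
      (I1_lt_I0 _).le.trans (hmono hx (right_mem_Icc.2 zero_le_one) hx.2)
    exact ⟨by positivity, by gcongr⟩
  have hI0K : I0 (k * 1) ≤ I0 K₀ := by
    rw [mul_one]
    exact I0_mono (mem_Ici.2 hk.le) (mem_Ici.2 hK.le) hkK
  refine ⟨V, Z, fun t => MX k (max t 0), ?_⟩
  have hprof := fun t => prof_mem hmono (le_of_lt (I0_pos _)) hIk t
  refine
    { V1 := (contDiff_zt_ex he).comp (contDiff_aff_ex c θ₀)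
      Z1 := (((contDiff_zt_ex he).comp (contDiff_aff_ex c θ₀)).mul
        ((contDiff_dzt_ex he).comp (contDiff_aff_ex c θ₀))).smul contDiff_const
      VZ := ?_, bV := ?_, bV' := ?_, bZ := ?_, f1 := ?_, f0 := ?_, fl := ?_, Mm := ?_, M0 := ?_,
      slope := ?_, energy := ?_, low := ?_ }
  · intro x v
    rw [(hVd x).fderiv]
    simp only [hZ, hV, ContinuousLinearMap.smul_apply, spL_apply_ex, smul_eq_mul]
    rw [inner_smul_left, real_inner_comm, ← sp_eq_inner, deriv_zt_ex he]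
    simp only [conj_trivial]
    ring
  · intro x hx
    rw [hV]
    simp only
    rw [abs_of_nonneg (zt_nonneg_ex he _)]
    refine (zt_le_ex he _).trans ?_
    have h1 : |c + sp x θ₀| ≤ l + 2 * d := by
      have h2 := abs_le.1 hhd
      have h3 := abs_le.1 ((abs_sp_le x θ₀).trans hx)
      rw [abs_le, hc]
      constructor <;> linarith
    linarith
  · intro x _
    rw [(hVd x).fderiv, norm_smul, norm_spL_ex, mul_one, Real.norm_eq_abs,
      abs_of_nonneg (div_nonneg (zt_nonneg_ex he _) (zQ_pos_ex he _).le)]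
    have : zt e (c + sp x θ₀) / zQ_ex e (c + sp x θ₀) ≤ 1 :=
      (div_le_one (zQ_pos_ex he _)).2 (zt_le_zQ_ex he _)
    linarith
  · intro x _
    rw [hdiv]
    linarith [W_bd_ex he (c + sp x θ₀)]
  · intro t ht
    rw [fX_eq]
    exact prof_one ht
  · intro t
    rw [fX_eq]
    exact (hprof t).2
  · intro s t
    rw [fX_eq]
    refine (prof_lip hφd hIk (L := K₀) (fun x hx => ?_) s t).trans ?_
    · rw [abs_of_nonneg (hM1 x hx).1]
      exact (hM1 x hx).2
    · gcongr
      linarith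
  · unfold MX
    have := continuous_I1
    have h2 : Continuous fun t : ℝ => k * I1 (k * max (1 - max t 0) 0) / I0 k := by fun_prop
    exact h2.measurable
  · intro t
    unfold MX
    have hx := mem_cut t
    have h1 := hM1 _ hx
    rw [mul_one] at h1
    refine ⟨div_nonneg h1.1 (I0_pos k).le, ?_⟩
    rw [div_le_iff₀ (I0_pos k)]
    refine h1.2.trans ?_
    gcongr
    · exact (I0_pos k).le
    · linarith
  · intro t ht e' he'
    have hc1 : Continuous fun x => k * I1 (k * x) := by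
      have := continuous_I1
      fun_prop
    obtain ⟨η, hη, h⟩ := prof_slope hφd hc1 hIk (fun x hx => (hM1 x hx).1) ht he'
    refine ⟨η, hη, fun s s' hs hs' => ?_⟩
    rw [fX_eq]
    refine (h s s' hs hs').trans_eq ?_
    unfold MX
    rw [max_eq_left ht.le]
    simp only [mul_one]
  · have hcongr : (∫ x in B.K, V x ^ 2 * (MX k (max (B.depth x) 0) ^ 2 +
        k ^ 2 * fX k (B.depth x) ^ 2)) =
        ∫ x in B.K, V x ^ 2 * (MX k (B.depth x) ^ 2 + k ^ 2 * fX k (B.depth x) ^ 2) := by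
      refine setIntegral_congr_fun B.isCompact_K.isClosed.measurableSet fun x hx => ?_
      have : max (B.depth x) 0 = B.depth x := max_eq_left hx
      simp only [this]
    simp only [hcongr]
    exact hE'
  · -- lower bound
    have hcd : Continuous B.depth := by
      refine continuous_iff_continuousAt.2 fun x => ?_
      refine tendsto_iff_dist_tendsto_zero.2 ?_
      refine squeeze_zero (fun _ => dist_nonneg) (fun y => ?_)
        (tendsto_iff_dist_tendsto_zero.1 (continuous_id.tendsto x))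
      rw [Real.dist_eq]
      simpa [dist_eq_norm] using B.depth_lip y x
    have hfc : Continuous (fX k) := by
      rw [fX_eq]
      have : LipschitzWith (Real.toNNReal K₀) (prof fun x => I0 (k * x)) := by
        refine LipschitzWith.of_dist_le_mul fun s t => ?_
        rw [Real.dist_eq, Real.dist_eq, Real.coe_toNNReal _ hK.le]
        exact prof_lip hφd hIk (fun x hx => by
          rw [abs_of_nonneg (hM1 x hx).1]
          exact (hM1 x hx).2) s t
      exact this.continuous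
    have hVc : Continuous V := ((contDiff_zt_ex he).comp (contDiff_aff_ex c θ₀) (n := 0)).continuous
    have hint : IntegrableOn (fun x => V x ^ 2 * fX k (B.depth x) ^ 2) B.K :=
      ContinuousOn.integrableOn_compact B.isCompact_K
        (((hVc.pow 2).mul ((hfc.comp hcd).pow 2)).continuousOn)
    set S : Set (E 2) := (fun x => B.y θ₀ + ν • (x - B.y θ₀)) '' B.K with hS
    have hSK : S ⊆ B.K := by
      rintro _ ⟨x, hx, rfl⟩
      have := B.convex_K (B.y_mem θ₀) hx (sub_nonneg.2 hν1) hν0.le (by ring)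
      have e1 : (1 - ν) • B.y θ₀ + ν • x = B.y θ₀ + ν • (x - B.y θ₀) := by
        rw [sub_smul, one_smul, smul_sub]
        abel
      rwa [e1] at this
    have hSc : IsCompact S := B.isCompact_K.image (by fun_prop)
    have hSv : volume.real S = ν ^ 2 * Real.pi := by
      have e1 : S = (fun x => B.y θ₀ - ν • B.y θ₀ + x) '' (ν • B.K) := by
        rw [hS, ← image_smul, image_image]
        refine image_congr fun x _ => ?_
        rw [smul_sub]
        abel
      rw [e1, Measure.real, image_add_left, measure_preimage_add, Measure.addHaar_smul,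
        ENNReal.toReal_mul]
      simp only [finrank_euclideanSpace, Fintype.card_fin]
      rw [ENNReal.toReal_ofReal (abs_nonneg _), abs_of_pos (by positivity), ← Measure.real,
        B.volume_K h0, hA]
    have hlow : ∀ x ∈ S, (l / 2) ^ 2 / I0 K₀ ^ 2 ≤ V x ^ 2 * fX k (B.depth x) ^ 2 := by
      rintro _ ⟨x, hx, rfl⟩
      set z := B.y θ₀ + ν • (x - B.y θ₀) with hz
      have h1 : l / 2 ≤ c + sp z θ₀ := by
        rw [hz, sp_add, sp_smul, sp_sub, B.sp_y, hc]
        have h2 := abs_le.1 hhd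
        have hxd : ‖x‖ ≤ d := by
          have := hBd hx
          rwa [mem_closedBall_zero_iff] at this
        have h3 := abs_le.1 ((abs_sp_le x θ₀).trans hxd)
        have h4 : ν * (B.h θ₀ - sp x θ₀) ≤ l / 2 := by
          have h5 : B.h θ₀ - sp x θ₀ ≤ 2 * d := by linarith
          have h6 : ν ≤ l / (4 * d) := min_le_right _ _
          calc ν * (B.h θ₀ - sp x θ₀) ≤ ν * (2 * d) := by gcongr
            _ ≤ l / (4 * d) * (2 * d) := by gcongr
            _ = l / 2 := by field_simp; norm_num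
        linarith
      have h2 : l / 2 ≤ V z := h1.trans (le_zt_ex he _)
      have h3 : 1 / I0 K₀ ≤ fX k (B.depth z) := by
        rw [fX_eq]
        refine le_trans ?_ (hprof (B.depth z)).1
        simp only [mul_zero, I0_zero]
        exact one_div_le_one_div_of_le hIk hI0K
      have h4 := I0_pos K₀
      calc (l / 2) ^ 2 / I0 K₀ ^ 2 = (l / 2) ^ 2 * (1 / I0 K₀) ^ 2 := by
            field_simp
        _ ≤ V z ^ 2 * fX k (B.depth z) ^ 2 := by gcongr
    calc (l / 2) ^ 2 / I0 K₀ ^ 2 * (ν ^ 2 * Real.pi)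
        = ∫ _ in S, (l / 2) ^ 2 / I0 K₀ ^ 2 := by
          rw [setIntegral_const, hSv, smul_eq_mul, mul_comm]
      _ ≤ ∫ x in S, V x ^ 2 * fX k (B.depth x) ^ 2 := by
          refine setIntegral_mono_on ?_ (hint.mono_set hSK) hSc.isClosed.measurableSet hlow
          exact integrableOn_const (hSc.measure_lt_top.ne)
      _ ≤ ∫ x in B.K, V x ^ 2 * fX k (B.depth x) ^ 2 := by
          refine setIntegral_mono_set hint ?_ hSK.eventuallyLE
          exact Filter.Eventually.of_forall fun x => by positivity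

theorem case_of_EX {l : ℝ} (hl : 0 < l) : CaseOK fun k B => ∃ θ₀, B.EX k l θ₀ ≤ 0 := by
  intro K₀ hK d hd
  obtain ⟨C, c₀, hC, hc₀, h⟩ := X_test hl hK hd
  refine ⟨C, c₀, hC, hc₀, ?_⟩
  rintro k B hk hkK ⟨θ₀, hEX⟩ hA h0 hBd ε hε
  obtain ⟨V, Z, M, ht⟩ := h k B θ₀ hk hkK hA h0 hBd ε hε
  exact ⟨V, Z, fX k, M, { ht with energy := ht.energy.trans (by linarith) }⟩

end Pool.Agent.RC
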