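import Pool.Agent.H.MP_1b807b_an.C.Defs

/-! MP_1b807b_an, convex planar domains, module SpBody: plane trigonometry and the elementary facts
about bodies given by their support function -/

set_option autoImplicit false

namespace Pool.Agent.RC

open MeasureTheory Metric Set
open Pool.Agent.RG
open scoped RealInnerProductSpace ENNReal

theorem ev_zero' (θ : ℝ) : (ev θ) 0 = Real.cos θ := by simp [ev]
theorem ev_one' (θ : ℝ) : (ev θ) 1 = Real.sin θ := by simp [ev]
theorem ev'_zero' (θ : ℝ) : (ev' θ) 0 = -Real.sin θ := by simp [ev']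
theorem ev'_one' (θ : ℝ) : (ev' θ) 1 = Real.cos θ := by simp [ev']

theorem ext2 {x y : E 2} (h0 : x 0 = y 0) (h1 : x 1 = y 1) : x = y := by
  ext i
  fin_cases i
  · exact h0
  · exact h1

theorem inner_two (x y : E 2) : ⟪x, y⟫ = x 0 * y 0 + x 1 * y 1 := by
  rw [PiLp.inner_apply, Fin.sum_univ_two]
  simp [mul_comm]

theorem norm_sq_two (x : E 2) : ‖x‖ ^ 2 = x 0 ^ 2 + x 1 ^ 2 := by
  rw [← real_inner_self_eq_norm_sq, inner_two]
  ring

theorem sp_eq_inner (x : E 2) (θ : ℝ) : sp x θ = ⟪x, ev θ⟫ := by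
  rw [inner_two, ev_zero', ev_one', sp]

theorem norm_ev (θ : ℝ) : ‖ev θ‖ = 1 := by
  have h : ‖ev θ‖ ^ 2 = 1 := by
    rw [norm_sq_two, ev_zero', ev_one']
    exact Real.cos_sq_add_sin_sq θ
  have h0 := norm_nonneg (ev θ)
  nlinarith

theorem norm_ev' (θ : ℝ) : ‖ev' θ‖ = 1 := by
  have h : ‖ev' θ‖ ^ 2 = 1 := by
    rw [norm_sq_two, ev'_zero', ev'_one']
    nlinarith [Real.cos_sq_add_sin_sq θ]
  have h0 := norm_nonneg (ev' θ)
  nlinarith

theorem inner_ev_ev' (θ : ℝ) : ⟪ev θ, ev' θ⟫ = 0 := by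
  rw [inner_two, ev_zero', ev_one', ev'_zero', ev'_one']
  ring

theorem ev'_eq (θ : ℝ) : ev' θ = ev (θ + Real.pi / 2) := by
  refine ext2 ?_ ?_
  · rw [ev'_zero', ev_zero', Real.cos_add_pi_div_two]
  · rw [ev'_one', ev_one', Real.sin_add_pi_div_two]

theorem sp_ev (φ θ : ℝ) : sp (ev φ) θ = Real.cos (φ - θ) := by
  rw [sp, ev_zero', ev_one', Real.cos_sub]

theorem sp_ev' (φ θ : ℝ) : sp (ev' φ) θ = -Real.sin (φ - θ) := by
  rw [sp, ev'_zero', ev'_one', Real.sin_sub]
  ring

theorem sp_add (x x' : E 2) (θ : ℝ) : sp (x + x') θ = sp x θ + sp x' θ := by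
  simp only [sp, PiLp.add_apply]
  ring

theorem sp_sub (x x' : E 2) (θ : ℝ) : sp (x - x') θ = sp x θ - sp x' θ := by
  simp only [sp, PiLp.sub_apply]
  ring

theorem sp_smul (c : ℝ) (x : E 2) (θ : ℝ) : sp (c • x) θ = c * sp x θ := by
  simp only [sp, PiLp.smul_apply, smul_eq_mul]
  ring

theorem sp_zero (θ : ℝ) : sp (0 : E 2) θ = 0 := by
  simp [sp]

theorem sp_pi (x : E 2) (θ : ℝ) : sp x (θ + Real.pi) = -sp x θ := by
  simp only [sp, Real.cos_add_pi, Real.sin_add_pi]
  ring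

theorem sp_two_pi (x : E 2) (θ : ℝ) : sp x (θ + 2 * Real.pi) = sp x θ := by
  simp only [sp, Real.cos_add_two_pi, Real.sin_add_two_pi]

theorem abs_sp_le (x : E 2) (θ : ℝ) : |sp x θ| ≤ ‖x‖ := by
  rw [sp_eq_inner]
  have := abs_real_inner_le_norm x (ev θ)
  rwa [norm_ev, mul_one] at this

theorem continuous_coord (i : Fin 2) : Continuous fun x : E 2 => x i :=
  (EuclideanSpace.proj i : E 2 →L[ℝ] ℝ).continuous

theorem continuous_sp : Continuous fun z : E 2 × ℝ => sp z.1 z.2 := by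
  unfold sp
  exact (((continuous_coord 0).comp continuous_fst).mul (Real.continuous_cos.comp continuous_snd)).add
    (((continuous_coord 1).comp continuous_fst).mul (Real.continuous_sin.comp continuous_snd))

theorem hasDerivAt_two {f : ℝ → E 2} {f' : E 2} {θ : ℝ}
    (h0 : HasDerivAt (fun t => f t 0) (f' 0) θ) (h1 : HasDerivAt (fun t => f t 1) (f' 1) θ) :
    HasDerivAt f f' θ := by
  rw [hasDerivAt_iff_hasFDerivAt, ← hasFDerivWithinAt_univ, hasFDerivWithinAt_euclidean]
  intro i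
  rw [hasFDerivWithinAt_univ]
  fin_cases i
  · refine h0.hasFDerivAt.congr_fderiv ?_
    ext
    simp
  · refine h1.hasFDerivAt.congr_fderiv ?_
    ext
    simp

theorem hasDerivAt_coord {f : ℝ → E 2} {f' : E 2} {θ : ℝ} (h : HasDerivAt f f' θ) (i : Fin 2) :
    HasDerivAt (fun t => f t i) (f' i) θ :=
  ((EuclideanSpace.proj i : E 2 →L[ℝ] ℝ).hasFDerivAt).comp_hasDerivAt θ h

theorem hasDerivAt_ev (θ : ℝ) : HasDerivAt ev (ev' θ) θ := by
  refine hasDerivAt_two ?_ ?_
  · simp only [ev_zero', ev'_zero']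
    exact Real.hasDerivAt_cos θ
  · simp only [ev_one', ev'_one']
    exact Real.hasDerivAt_sin θ

theorem hasDerivAt_ev' (θ : ℝ) : HasDerivAt ev' (-ev θ) θ := by
  refine hasDerivAt_two ?_ ?_
  · simp only [ev'_zero', PiLp.neg_apply, ev_zero']
    exact (Real.hasDerivAt_sin θ).neg
  · simp only [ev'_one', PiLp.neg_apply, ev_one']
    exact Real.hasDerivAt_cos θ

theorem continuous_ev : Continuous ev :=
  continuous_iff_continuousAt.2 fun θ => (hasDerivAt_ev θ).continuousAt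

theorem continuous_ev' : Continuous ev' :=
  continuous_iff_continuousAt.2 fun θ => (hasDerivAt_ev' θ).continuousAt

theorem sp_quarter (x : E 2) (θ : ℝ) :
    sp x (θ + Real.pi / 2) = -(x 0 * Real.sin θ) + x 1 * Real.cos θ := by
  simp only [sp, Real.cos_add_pi_div_two, Real.sin_add_pi_div_two]
  ring

theorem hasDerivAt_sp (x : E 2) (θ : ℝ) :
    HasDerivAt (fun θ => sp x θ) (sp x (θ + Real.pi / 2)) θ := by
  have h := ((Real.hasDerivAt_cos θ).const_mul (x 0)).add ((Real.hasDerivAt_sin θ).const_mul (x 1))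
  rw [sp_quarter]
  refine h.congr_deriv ?_
  ring

theorem hasDerivAt_sp_quarter (x : E 2) (θ : ℝ) :
    HasDerivAt (fun θ => sp x (θ + Real.pi / 2)) (-sp x θ) θ := by
  have h := ((Real.hasDerivAt_sin θ).const_mul (x 0)).neg.add
    ((Real.hasDerivAt_cos θ).const_mul (x 1))
  have e : (fun θ => sp x (θ + Real.pi / 2)) =
      fun θ => -(x 0 * Real.sin θ) + x 1 * Real.cos θ := by
    funext θ
    exact sp_quarter x θ
  rw [e]
  refine h.congr_deriv ?_
  simp only [sp]
  ring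

theorem decomp (x : E 2) (θ : ℝ) : x = sp x θ • ev θ + sp x (θ + Real.pi / 2) • ev' θ := by
  have hc := Real.cos_sq_add_sin_sq θ
  refine ext2 ?_ ?_
  · simp only [PiLp.add_apply, PiLp.smul_apply, smul_eq_mul, ev_zero', ev'_zero', sp_quarter]
    simp only [sp]
    linear_combination (-(x 0)) * hc
  · simp only [PiLp.add_apply, PiLp.smul_apply, smul_eq_mul, ev_one', ev'_one', sp_quarter]
    simp only [sp]
    linear_combination (-(x 1)) * hc

theorem norm_sq_eq (x : E 2) (θ : ℝ) : ‖x‖ ^ 2 = sp x θ ^ 2 + sp x (θ + Real.pi / 2) ^ 2 := by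
  have hc := Real.cos_sq_add_sin_sq θ
  rw [norm_sq_two, sp_quarter]
  simp only [sp]
  linear_combination (-(x 0) ^ 2 - (x 1) ^ 2) * hc

namespace Body
variable (B : Body)

theorem hasDerivAt_h (θ : ℝ) : HasDerivAt B.h (B.p θ) θ :=
  (B.smooth.differentiable (by norm_num) θ).hasDerivAt

theorem p_eq : B.p = deriv B.h := rfl

theorem contDiff_p : ContDiff ℝ 2 B.p := by
  have h := B.smooth
  rw [show (3 : WithTop ℕ∞) = 2 + 1 by norm_num, contDiff_succ_iff_deriv] at h
  exact h.2.2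

theorem hasDerivAt_p (θ : ℝ) : HasDerivAt B.p (B.ρ θ - B.h θ) θ := by
  have h := (B.contDiff_p.differentiable (by norm_num) θ).hasDerivAt
  have e : deriv B.p θ = B.ρ θ - B.h θ := by
    rw [ρ, p_eq]
    ring
  rwa [e] at h

theorem contDiff_dp : ContDiff ℝ 1 (deriv B.p) := by
  have h := B.contDiff_p
  rw [show (2 : WithTop ℕ∞) = 1 + 1 by norm_num, contDiff_succ_iff_deriv] at h
  exact h.2.2

theorem contDiff_ρ : ContDiff ℝ 1 B.ρ := by
  have h1 : ContDiff ℝ 1 B.h := B.smooth.of_le (by norm_num)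
  exact h1.add B.contDiff_dp

theorem continuous_h : Continuous B.h := B.smooth.continuous
theorem continuous_p : Continuous B.p := B.contDiff_p.continuous
theorem continuous_ρ : Continuous B.ρ := B.contDiff_ρ.continuous

end Body

theorem contDiff_two {n : WithTop ℕ∞} {f : ℝ → E 2} (h0 : ContDiff ℝ n fun t => f t 0)
    (h1 : ContDiff ℝ n fun t => f t 1) : ContDiff ℝ n f := by
  rw [contDiff_euclidean]
  intro i
  fin_cases i
  · exact h0
  · exact h1

theorem contDiff_ev {n : WithTop ℕ∞} : ContDiff ℝ n ev := by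
  refine contDiff_two ?_ ?_
  · simp only [ev_zero']
    exact Real.contDiff_cos
  · simp only [ev_one']
    exact Real.contDiff_sin

theorem contDiff_ev' {n : WithTop ℕ∞} : ContDiff ℝ n ev' := by
  refine contDiff_two ?_ ?_
  · simp only [ev'_zero']
    exact Real.contDiff_sin.neg
  · simp only [ev'_one']
    exact Real.contDiff_cos

namespace Body
variable (B : Body)

theorem contDiff_y : ContDiff ℝ 2 B.y := by
  have h1 : ContDiff ℝ 2 B.h := B.smooth.of_le (by norm_num)
  exact (h1.smul contDiff_ev).add (B.contDiff_p.smul contDiff_ev')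

theorem continuous_y : Continuous B.y := B.contDiff_y.continuous

theorem ρ_pos (θ : ℝ) : 0 < B.ρ θ := B.pos θ
theorem per_h (θ : ℝ) : B.h (θ + 2 * Real.pi) = B.h θ := B.per θ

theorem per_p (θ : ℝ) : B.p (θ + 2 * Real.pi) = B.p θ := by
  rw [p_eq, ← deriv_comp_add_const]
  congr 1
  funext t
  exact B.per t

theorem per_dp (θ : ℝ) : deriv B.p (θ + 2 * Real.pi) = deriv B.p θ := by
  rw [← deriv_comp_add_const]
  congr 1
  funext t
  exact B.per_p t

theorem per_ρ (θ : ℝ) : B.ρ (θ + 2 * Real.pi) = B.ρ θ := by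
  have h := B.per_dp θ
  rw [ρ, ρ, B.per_h]
  rw [p_eq] at h
  rw [h]

theorem ev_two_pi (θ : ℝ) : ev (θ + 2 * Real.pi) = ev θ := by
  refine ext2 ?_ ?_
  · rw [ev_zero', ev_zero', Real.cos_add_two_pi]
  · rw [ev_one', ev_one', Real.sin_add_two_pi]

theorem ev'_two_pi (θ : ℝ) : ev' (θ + 2 * Real.pi) = ev' θ := by
  refine ext2 ?_ ?_
  · rw [ev'_zero', ev'_zero', Real.sin_add_two_pi]
  · rw [ev'_one', ev'_one', Real.cos_add_two_pi]

theorem per_y (θ : ℝ) : B.y (θ + 2 * Real.pi) = B.y θ := by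
  rw [y, y, per_h, per_p, ev_two_pi, ev'_two_pi]

theorem sp_y (θ : ℝ) : sp (B.y θ) θ = B.h θ := by
  rw [y, sp_add, sp_smul, sp_smul, sp_ev, sp_ev', sub_self, Real.cos_zero, Real.sin_zero]
  ring

theorem sp_y_quarter (θ : ℝ) : sp (B.y θ) (θ + Real.pi / 2) = B.p θ := by
  rw [y, sp_add, sp_smul, sp_smul, sp_ev, sp_ev']
  have e : θ - (θ + Real.pi / 2) = -(Real.pi / 2) := by ring
  rw [e, Real.cos_neg, Real.sin_neg, Real.cos_pi_div_two, Real.sin_pi_div_two]
  ring

theorem norm_y_sq (θ : ℝ) : ‖B.y θ‖ ^ 2 = B.h θ ^ 2 + B.p θ ^ 2 := by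
  rw [norm_sq_eq _ θ, sp_y, sp_y_quarter]

theorem hasDerivAt_y (θ : ℝ) : HasDerivAt B.y (B.ρ θ • ev' θ) θ := by
  have h := ((B.hasDerivAt_h θ).smul (hasDerivAt_ev θ)).add
    ((B.hasDerivAt_p θ).smul (hasDerivAt_ev' θ))
  refine h.congr_deriv ?_
  rw [sub_smul, smul_neg]
  abel

/-- derivative of one coordinate of the boundary point -/
theorem hasDerivAt_sp_y (θ₀ θ : ℝ) :
    HasDerivAt (fun θ => sp (B.y θ) θ₀) (-(B.ρ θ * Real.sin (θ - θ₀))) θ := by
  have h := B.hasDerivAt_y θ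
  have h0 := hasDerivAt_coord h 0
  have h1 := hasDerivAt_coord h 1
  have h2 := (h0.mul_const (Real.cos θ₀)).add (h1.mul_const (Real.sin θ₀))
  refine h2.congr_deriv ?_
  simp only [PiLp.smul_apply, smul_eq_mul, ev'_zero', ev'_one', Real.sin_sub]
  ring

theorem int_dp : ∫ θ in (0 : ℝ)..2 * Real.pi, (B.ρ θ - B.h θ) = 0 := by
  rw [intervalIntegral.integral_eq_sub_of_hasDerivAt (fun θ _ => B.hasDerivAt_p θ)
    ((B.continuous_ρ.sub B.continuous_h).intervalIntegrable _ _)]
  have := B.per_p 0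
  rw [zero_add] at this
  rw [this, sub_self]

theorem len_eq : B.len = ∫ θ in (0 : ℝ)..2 * Real.pi, B.ρ θ := by
  have h := B.int_dp
  rw [intervalIntegral.integral_sub (B.continuous_ρ.intervalIntegrable _ _)
    (B.continuous_h.intervalIntegrable _ _)] at h
  rw [len]
  linarith

theorem len_pos : 0 < B.len := by
  rw [len_eq]
  exact intervalIntegral.intervalIntegral_pos_of_pos (B.continuous_ρ.intervalIntegrable _ _)
    (fun θ => B.ρ_pos θ) (by positivity)

theorem area_eq : B.area = (1 / 2) * ∫ θ in (0 : ℝ)..2 * Real.pi, (B.h θ ^ 2 - B.p θ ^ 2) := by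
  have hd : ∀ θ, HasDerivAt (fun θ => B.h θ * B.p θ)
      (B.p θ * B.p θ + B.h θ * (B.ρ θ - B.h θ)) θ := fun θ => (B.hasDerivAt_h θ).mul (B.hasDerivAt_p θ)
  have hc : Continuous fun θ => B.p θ * B.p θ + B.h θ * (B.ρ θ - B.h θ) :=
    (B.continuous_p.mul B.continuous_p).add
      (B.continuous_h.mul (B.continuous_ρ.sub B.continuous_h))
  have h := intervalIntegral.integral_eq_sub_of_hasDerivAt (a := 0) (b := 2 * Real.pi)
    (fun θ _ => hd θ) (hc.intervalIntegrable _ _)
  have e1 := B.per_p 0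
  have e2 := B.per_h 0
  rw [zero_add] at e1 e2
  rw [e1, e2, sub_self] at h
  have hc2 : Continuous fun θ => B.h θ * B.ρ θ := B.continuous_h.mul B.continuous_ρ
  have hc3 : Continuous fun θ => B.h θ ^ 2 - B.p θ ^ 2 :=
    (B.continuous_h.pow 2).sub (B.continuous_p.pow 2)
  have e : ∫ θ in (0 : ℝ)..2 * Real.pi, (B.h θ * B.ρ θ - (B.h θ ^ 2 - B.p θ ^ 2)) = 0 := by
    refine Eq.trans ?_ h
    refine intervalIntegral.integral_congr (fun θ _ => ?_)
    ring
  rw [intervalIntegral.integral_sub (hc2.intervalIntegrable _ _)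
    (hc3.intervalIntegrable _ _)] at e
  rw [area]
  linarith

theorem sum_coord_ρ_sin (θ₀ : ℝ) :
    ∫ θ in (0 : ℝ)..2 * Real.pi, B.ρ θ * Real.sin (θ - θ₀) = 0 := by
  have hc : Continuous fun θ => -(B.ρ θ * Real.sin (θ - θ₀)) :=
    (B.continuous_ρ.mul (Real.continuous_sin.comp (continuous_id.sub continuous_const))).neg
  have h := intervalIntegral.integral_eq_sub_of_hasDerivAt (a := 0) (b := 2 * Real.pi)
    (fun θ _ => B.hasDerivAt_sp_y θ₀ θ) (hc.intervalIntegrable _ _)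
  have e := B.per_y 0
  rw [zero_add] at e
  rw [e, sub_self, intervalIntegral.integral_neg, neg_eq_zero] at h
  exact h

theorem sum_coord_ρ_cos (θ₀ : ℝ) :
    ∫ θ in (0 : ℝ)..2 * Real.pi, B.ρ θ * Real.cos (θ - θ₀) = 0 := by
  have h := B.sum_coord_ρ_sin (θ₀ - Real.pi / 2)
  refine Eq.trans ?_ h
  refine intervalIntegral.integral_congr (fun θ _ => ?_)
  have e : θ - (θ₀ - Real.pi / 2) = (θ - θ₀) + Real.pi / 2 := by ring
  simp only [e, Real.sin_add_pi_div_two]

theorem contDiff_spθ (o : E 2) {n : WithTop ℕ∞} : ContDiff ℝ n fun θ => sp o θ := by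
  unfold sp
  exact (contDiff_const.mul Real.contDiff_cos).add (contDiff_const.mul Real.contDiff_sin)

theorem deriv_shift (o : E 2) :
    deriv (fun θ => B.h θ - sp o θ) = fun θ => B.p θ - sp o (θ + Real.pi / 2) := by
  funext θ
  exact ((B.hasDerivAt_h θ).sub (hasDerivAt_sp o θ)).deriv

theorem deriv_deriv_shift (o : E 2) (θ : ℝ) :
    deriv (deriv (fun θ => B.h θ - sp o θ)) θ = B.ρ θ - B.h θ + sp o θ := by
  rw [deriv_shift]
  have h := ((B.hasDerivAt_p θ).sub (hasDerivAt_sp_quarter o θ)).deriv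
  have e : (fun θ => B.p θ - sp o (θ + Real.pi / 2)) = B.p - fun θ => sp o (θ + Real.pi / 2) := rfl
  rw [e, h]
  ring

/-- the translated body `B - o` -/
noncomputable def shift (o : E 2) : Body where
  h := fun θ => B.h θ - sp o θ
  smooth := B.smooth.sub (contDiff_spθ o)
  per := fun θ => by
    simp only [B.per_h, sp_two_pi]
  pos := fun θ => by
    rw [deriv_deriv_shift]
    have := B.ρ_pos θ
    linarith

theorem shift_h (o : E 2) (θ : ℝ) : (B.shift o).h θ = B.h θ - sp o θ := rfl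

theorem shift_h_fun (o : E 2) : (B.shift o).h = fun θ => B.h θ - sp o θ := rfl

theorem shift_p (o : E 2) (θ : ℝ) : (B.shift o).p θ = B.p θ - sp o (θ + Real.pi / 2) := by
  rw [p_eq, shift_h_fun, deriv_shift]

theorem shift_ρ (o : E 2) (θ : ℝ) : (B.shift o).ρ θ = B.ρ θ := by
  have h := B.deriv_deriv_shift o θ
  rw [ρ, shift_h_fun, h]
  ring

theorem shift_y (o : E 2) (θ : ℝ) : (B.shift o).y θ = B.y θ - o := by
  rw [y, y, shift_h, shift_p, sub_smul, sub_smul]
  nth_rewrite 3 [decomp o θ]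
  abel

theorem shift_depth (o x : E 2) : (B.shift o).depth x = B.depth (x + o) := by
  rw [depth, depth]
  congr 2
  funext θ
  rw [shift_h, sp_add]
  ring

theorem shift_len (o : E 2) : (B.shift o).len = B.len := by
  rw [len_eq, len_eq]
  refine intervalIntegral.integral_congr (fun θ _ => ?_)
  exact B.shift_ρ o θ

theorem int_ρ_sp (o : E 2) : ∫ θ in (0 : ℝ)..2 * Real.pi, sp o θ * B.ρ θ = 0 := by
  have h0 := B.sum_coord_ρ_cos 0
  have h1 := B.sum_coord_ρ_sin 0
  simp only [sub_zero] at h0 h1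
  have i0 : IntervalIntegrable (fun θ => o 0 * (B.ρ θ * Real.cos θ)) volume 0 (2 * Real.pi) :=
    (continuous_const.mul (B.continuous_ρ.mul Real.continuous_cos)).intervalIntegrable _ _
  have i1 : IntervalIntegrable (fun θ => o 1 * (B.ρ θ * Real.sin θ)) volume 0 (2 * Real.pi) :=
    (continuous_const.mul (B.continuous_ρ.mul Real.continuous_sin)).intervalIntegrable _ _
  have e : ∫ θ in (0 : ℝ)..2 * Real.pi, sp o θ * B.ρ θ =
      ∫ θ in (0 : ℝ)..2 * Real.pi, (o 0 * (B.ρ θ * Real.cos θ) + o 1 * (B.ρ θ * Real.sin θ)) := by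
    refine intervalIntegral.integral_congr (fun θ _ => ?_)
    simp only [sp]
    ring
  rw [e, intervalIntegral.integral_add i0 i1, intervalIntegral.integral_const_mul,
    intervalIntegral.integral_const_mul, h0, h1]
  ring

theorem shift_area (o : E 2) : (B.shift o).area = B.area := by
  rw [area, area]
  congr 1
  have i0 : IntervalIntegrable (fun θ => B.h θ * B.ρ θ) volume 0 (2 * Real.pi) :=
    (B.continuous_h.mul B.continuous_ρ).intervalIntegrable _ _
  have i1 : IntervalIntegrable (fun θ => sp o θ * B.ρ θ) volume 0 (2 * Real.pi) :=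
    ((contDiff_spθ o (n := 0)).continuous.mul B.continuous_ρ).intervalIntegrable _ _
  have e : ∫ θ in (0 : ℝ)..2 * Real.pi, (B.shift o).h θ * (B.shift o).ρ θ =
      ∫ θ in (0 : ℝ)..2 * Real.pi, (B.h θ * B.ρ θ - sp o θ * B.ρ θ) := by
    refine intervalIntegral.integral_congr (fun θ _ => ?_)
    simp only [shift_ρ, shift_h]
    ring
  rw [e, intervalIntegral.integral_sub i0 i1, int_ρ_sp, sub_zero]

theorem shift_Ml (o q : E 2) : (B.shift o).Ml q = B.Ml (q + o) := by
  rw [Ml, Ml]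
  refine intervalIntegral.integral_congr (fun θ _ => ?_)
  simp only [shift_ρ, shift_y]
  rw [sub_sub, add_comm o q]

theorem shift_Mw (o q : E 2) : (B.shift o).Mw q = B.Mw (q + o) := by
  rw [Mw, Mw]
  refine intervalIntegral.integral_congr (fun θ _ => ?_)
  simp only [shift_y]
  rw [sub_sub, add_comm o q]

end Body
end Pool.Agent.RC
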