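import Pool.Agent.H.MP_1b807b_an.C.DefsB
import Pool.Agent.H.MP_1b807b_an.C.SpBody

/-! MP_1b807b_an, convex planar domains, module XGeom: the geometry of the two tips -/

set_option autoImplicit false

namespace Pool.Agent.RC

open MeasureTheory Metric Set
open Pool.Agent.RG
open scoped RealInnerProductSpace Interval

theorem continuous_PhX_geom (k : ℝ) : Continuous (PhX k) := by
  have hV : Continuous (Pool.Agent.H.MP_1b807b_an.V 1) :=
    Pool.Agent.H.MP_1b807b_an.continuous_V 1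
  have hW : Continuous (Pool.Agent.H.MP_1b807b_an.W 1) :=
    Pool.Agent.H.MP_1b807b_an.continuous_W 1
  have h1 : Continuous fun t : ℝ => k * (1 - t) := by fun_prop
  unfold PhX I0 I1
  exact (continuous_const.mul (((hV.comp h1).pow 2).add ((hW.comp h1).pow 2))).div_const _

theorem continuous_tipI_geom (k : ℝ) {s ω r : ℝ → ℝ} (hs : Continuous s) (hω : Continuous ω)
    (hr : Continuous r) : Continuous fun x => tipI k (s x) (ω x) (r x) := by
  have h1 : Continuous fun x => ∫ t in (0 : ℝ)..1,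
      PhX k t * (max (s x - t * Real.cos (ω x)) 0) ^ 2 * (r x - t) := by
    refine intervalIntegral.continuous_parametric_intervalIntegral_of_continuous'
      (f := fun x t => PhX k t * (max (s x - t * Real.cos (ω x)) 0) ^ 2 * (r x - t)) ?_ 0 1
    have hP := continuous_PhX_geom k
    have e1 : Continuous fun z : ℝ × ℝ => PhX k z.2 := hP.comp continuous_snd
    have e2 : Continuous fun z : ℝ × ℝ => s z.1 - z.2 * Real.cos (ω z.1) :=
      (hs.comp continuous_fst).sub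
        (continuous_snd.mul (Real.continuous_cos.comp (hω.comp continuous_fst)))
    have e3 : Continuous fun z : ℝ × ℝ => r z.1 - z.2 := (hr.comp continuous_fst).sub continuous_snd
    exact (e1.mul ((e2.max continuous_const).pow 2)).mul e3
  unfold tipI
  have h2 : Continuous fun x => max (s x) 0 := hs.max continuous_const
  have h3 : Continuous fun x => Real.cos (ω x) := Real.continuous_cos.comp hω
  exact (h1.add ((h2.mul h3).mul hr)).sub ((continuous_const.mul (h2.pow 2)).mul hr)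

/-- coordinates in the frame of angle `t` -/
theorem sp_rot_geom (u : E 2) (t θ : ℝ) :
    sp u θ = sp u t * Real.cos (θ - t) + sp u (t + Real.pi / 2) * Real.sin (θ - t) := by
  unfold sp
  rw [Real.cos_add_pi_div_two, Real.sin_add_pi_div_two, Real.cos_sub, Real.sin_sub]
  have h := Real.sin_sq_add_cos_sq t
  have e1 : Real.cos θ * (Real.sin t ^ 2 + Real.cos t ^ 2) = Real.cos θ := by rw [h, mul_one]
  have e2 : Real.sin θ * (Real.sin t ^ 2 + Real.cos t ^ 2) = Real.sin θ := by rw [h, mul_one]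
  linear_combination (-(u 0)) * e1 - u 1 * e2

/-- the cross product, computed in the frame of angle `t` -/
noncomputable def crX (t : ℝ) (u v : E 2) : ℝ :=
  sp u t * sp v (t + Real.pi / 2) - sp u (t + Real.pi / 2) * sp v t

namespace Body
variable (B : Body)

theorem EX_split (k l θ₀ : ℝ) : B.EX k l θ₀ =
    (∫ ω in (0 : ℝ)..Real.pi, tipI k (B.sd l θ₀ 1 ω) ω (B.ρ (θ₀ + 1 * ω))) +
    ∫ ω in (0 : ℝ)..Real.pi, tipI k (B.sd l θ₀ (-1) ω) ω (B.ρ (θ₀ + (-1) * ω)) := by
  set g : ℝ → ℝ := fun θ => tipI k (l - B.h θ₀ + sp (B.y θ) θ₀) (θ - θ₀) (B.ρ θ) with hg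
  have hsp : Continuous fun θ => sp (B.y θ) θ₀ :=
    continuous_iff_continuousAt.2 fun θ => (B.hasDerivAt_sp_y θ₀ θ).continuousAt
  have hc : Continuous g :=
    continuous_tipI_geom k (continuous_const.add hsp) (continuous_id.sub continuous_const)
      B.continuous_ρ
  have hper : Function.Periodic g (2 * Real.pi) := by
    intro θ
    have e : Real.cos (θ + 2 * Real.pi - θ₀) = Real.cos (θ - θ₀) := by
      rw [show θ + 2 * Real.pi - θ₀ = (θ - θ₀) + 2 * Real.pi by ring, Real.cos_add_two_pi]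
    simp only [hg, tipI, e, B.per_y, B.per_ρ]
  have h0 : B.EX k l θ₀ = ∫ θ in (θ₀ - Real.pi)..(θ₀ - Real.pi + 2 * Real.pi), g θ := by
    have h := hper.intervalIntegral_add_eq 0 (θ₀ - Real.pi)
    rw [zero_add] at h
    exact h
  have h1 : (∫ θ in (θ₀ - Real.pi)..(θ₀ - Real.pi + 2 * Real.pi), g θ) =
      (∫ θ in (θ₀ - Real.pi)..θ₀, g θ) + ∫ θ in θ₀..(θ₀ + Real.pi), g θ := by
    rw [show θ₀ - Real.pi + 2 * Real.pi = θ₀ + Real.pi by ring]
    exact (intervalIntegral.integral_add_adjacent_intervals (hc.intervalIntegrable _ _)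
      (hc.intervalIntegrable _ _)).symm
  have h2 : (∫ ω in (0 : ℝ)..Real.pi, tipI k (B.sd l θ₀ 1 ω) ω (B.ρ (θ₀ + 1 * ω))) =
      ∫ θ in θ₀..(θ₀ + Real.pi), g θ := by
    have h := intervalIntegral.integral_comp_add_left (a := 0) (b := Real.pi) g θ₀
    rw [add_zero] at h
    rw [← h]
    refine intervalIntegral.integral_congr fun ω _ => ?_
    simp only [hg, sd, one_mul, add_sub_cancel_left]
  have h3 : (∫ ω in (0 : ℝ)..Real.pi, tipI k (B.sd l θ₀ (-1) ω) ω (B.ρ (θ₀ + (-1) * ω))) =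
      ∫ θ in (θ₀ - Real.pi)..θ₀, g θ := by
    have h := intervalIntegral.integral_comp_sub_left (a := 0) (b := Real.pi) g θ₀
    rw [sub_zero] at h
    rw [← h]
    refine intervalIntegral.integral_congr fun ω _ => ?_
    have e1 : θ₀ + -1 * ω = θ₀ - ω := by ring
    have e2 : Real.cos (θ₀ - ω - θ₀) = Real.cos ω := by
      rw [show θ₀ - ω - θ₀ = -ω by ring, Real.cos_neg]
    simp only [hg, sd, tipI, e1, e2]
  rw [h0, h1, h2, h3, add_comm]

/-- the support inequality (independent of the module Depth) -/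
theorem sp_y_le_geom (θ φ : ℝ) : sp (B.y θ) φ ≤ B.h φ := by
  have hpi := Real.pi_pos
  have hcont : Continuous fun θ => sp (B.y θ) φ :=
    continuous_iff_continuousAt.2 fun θ => (B.hasDerivAt_sp_y φ θ).continuousAt
  have hper : Function.Periodic (fun θ => sp (B.y θ) φ) (2 * Real.pi) := fun θ => by
    simp only [B.per_y]
  obtain ⟨θ', hθ', he⟩ := hper.exists_mem_Ico (by linarith) θ (φ - Real.pi)
  have he' : sp (B.y θ) φ = sp (B.y θ') φ := he
  have hφ := B.sp_y φ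
  rw [he', ← hφ]
  rcases le_total θ' φ with h | h
  · have hm : MonotoneOn (fun θ => sp (B.y θ) φ) (Icc (φ - Real.pi) φ) := by
      refine monotoneOn_of_deriv_nonneg (convex_Icc _ _) hcont.continuousOn
        (fun x _ => (B.hasDerivAt_sp_y φ x).differentiableAt.differentiableWithinAt) ?_
      intro x hx
      rw [interior_Icc] at hx
      rw [(B.hasDerivAt_sp_y φ x).deriv]
      have h1 := Real.sin_nonpos_of_nonpos_of_neg_pi_le (x := x - φ) (by linarith [hx.2])
        (by linarith [hx.1])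
      have h2 := B.ρ_pos x
      nlinarith
    exact hm ⟨hθ'.1, h⟩ ⟨by linarith, le_refl _⟩ h
  · have hm : AntitoneOn (fun θ => sp (B.y θ) φ) (Icc φ (φ + Real.pi)) := by
      refine antitoneOn_of_deriv_nonpos (convex_Icc _ _) hcont.continuousOn
        (fun x _ => (B.hasDerivAt_sp_y φ x).differentiableAt.differentiableWithinAt) ?_
      intro x hx
      rw [interior_Icc] at hx
      rw [(B.hasDerivAt_sp_y φ x).deriv]
      have h1 := Real.sin_nonneg_of_nonneg_of_le_pi (x := x - φ) (by linarith [hx.1])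
        (by linarith [hx.2])
      have h2 := B.ρ_pos x
      nlinarith
    exact hm ⟨le_refl _, by linarith⟩ ⟨h, by linarith [hθ'.2]⟩ h

/-! ### the chord_geom lemma -/

theorem hasDerivAt_cr_geom (t : ℝ) (u : E 2) (θ : ℝ) :
    HasDerivAt (fun θ => crX t u (B.y θ)) (B.ρ θ * sp u θ) θ := by
  have h1 := B.hasDerivAt_sp_y t θ
  have h2 := B.hasDerivAt_sp_y (t + Real.pi / 2) θ
  have h := (h2.const_mul (sp u t)).sub (h1.const_mul (sp u (t + Real.pi / 2)))
  refine h.congr_deriv ?_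
  rw [sp_rot_geom u t θ, show θ - (t + Real.pi / 2) = (θ - t) - Real.pi / 2 by ring,
    Real.sin_sub_pi_div_two]
  ring

theorem chord_geom (t : ℝ) {a b : ℝ} (hab : a ≤ b) :
    crX t (B.y a) (B.y b) ≤ ∫ θ in a..b, B.h θ * B.ρ θ := by
  have hsp : Continuous fun θ => sp (B.y a) θ := by
    unfold sp
    fun_prop
  have h1 : (∫ θ in a..b, B.ρ θ * sp (B.y a) θ) =
      crX t (B.y a) (B.y b) - crX t (B.y a) (B.y a) :=
    intervalIntegral.integral_eq_sub_of_hasDerivAt (fun θ _ => B.hasDerivAt_cr_geom t (B.y a) θ)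
      ((B.continuous_ρ.mul hsp).intervalIntegrable _ _)
  have h2 : crX t (B.y a) (B.y a) = 0 := by unfold crX; ring
  have h3 : (∫ θ in a..b, B.ρ θ * sp (B.y a) θ) ≤ ∫ θ in a..b, B.h θ * B.ρ θ := by
    refine intervalIntegral.integral_mono_on hab
      ((B.continuous_ρ.mul hsp).intervalIntegrable _ _)
      ((B.continuous_h.mul B.continuous_ρ).intervalIntegrable _ _) fun θ _ => ?_
    rw [mul_comm (B.h θ)]
    exact mul_le_mul_of_nonneg_left (B.sp_y_le_geom a θ) (B.ρ_pos θ).le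
  rw [h1, h2, sub_zero] at h3
  exact h3

theorem continuous_hρ_geom : Continuous fun θ => B.h θ * B.ρ θ := B.continuous_h.mul B.continuous_ρ

theorem int_hρ_geom (hA : B.area = Real.pi) (t : ℝ) :
    (∫ θ in t..(t + 2 * Real.pi), B.h θ * B.ρ θ) = 2 * Real.pi := by
  have hper : Function.Periodic (fun θ => B.h θ * B.ρ θ) (2 * Real.pi) := fun θ => by
    simp only [B.per_h, B.per_ρ]
  have h := hper.intervalIntegral_add_eq t 0
  rw [zero_add] at h
  rw [h]
  have h2 : B.area = (1 / 2) * ∫ θ in (0 : ℝ)..2 * Real.pi, B.h θ * B.ρ θ := rfl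
  rw [hA] at h2
  linarith

/-- the coordinates of the opposite tip -/
theorem sp_opp_geom (t : ℝ) : sp (B.y (t + Real.pi)) t = -B.h (t + Real.pi) := by
  have h := sp_pi (B.y (t + Real.pi)) t
  rw [B.sp_y] at h
  linarith

theorem sp_opp_quarter_geom (t : ℝ) :
    sp (B.y (t + Real.pi)) (t + Real.pi / 2) = -B.p (t + Real.pi) := by
  have h := sp_pi (B.y (t + Real.pi)) (t + Real.pi / 2)
  rw [show t + Real.pi / 2 + Real.pi = t + Real.pi + Real.pi / 2 by ring, B.sp_y_quarter] at h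
  linarith

/-- perpendicular diagonals -/
theorem diag_geom (hA : B.area = Real.pi) (t : ℝ) (hp : B.p t + B.p (t + Real.pi) = 0) :
    (B.h t + B.h (t + Real.pi)) * (B.h (t + Real.pi / 2) + B.h (t + 3 * Real.pi / 2)) ≤
      2 * Real.pi := by
  have hpi := Real.pi_pos
  have c1 := B.chord_geom t (a := t) (b := t + Real.pi / 2) (by linarith)
  have c2 := B.chord_geom t (a := t + Real.pi / 2) (b := t + Real.pi) (by linarith)
  have c3 := B.chord_geom t (a := t + Real.pi) (b := t + 3 * Real.pi / 2) (by linarith)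
  have c4 := B.chord_geom t (a := t + 3 * Real.pi / 2) (b := t + 2 * Real.pi) (by linarith)
  have hi : ∀ a b : ℝ, IntervalIntegrable (fun θ => B.h θ * B.ρ θ) volume a b :=
    fun a b => B.continuous_hρ_geom.intervalIntegrable a b
  have s1 := intervalIntegral.integral_add_adjacent_intervals (hi t (t + Real.pi / 2))
    (hi (t + Real.pi / 2) (t + Real.pi))
  have s2 := intervalIntegral.integral_add_adjacent_intervals (hi t (t + Real.pi))
    (hi (t + Real.pi) (t + 3 * Real.pi / 2))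
  have s3 := intervalIntegral.integral_add_adjacent_intervals (hi t (t + 3 * Real.pi / 2))
    (hi (t + 3 * Real.pi / 2) (t + 2 * Real.pi))
  have hI := B.int_hρ_geom hA t
  have e1 : sp (B.y (t + Real.pi / 2)) (t + Real.pi / 2) = B.h (t + Real.pi / 2) := B.sp_y _
  have e2 : sp (B.y (t + 3 * Real.pi / 2)) (t + Real.pi / 2) = -B.h (t + 3 * Real.pi / 2) := by
    have h := B.sp_opp_geom (t + Real.pi / 2)
    rw [show t + Real.pi / 2 + Real.pi = t + 3 * Real.pi / 2 by ring] at h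
    exact h
  have e3 := B.sp_opp_geom t
  have e4 := B.sp_opp_quarter_geom t
  have e5 : B.y (t + 2 * Real.pi) = B.y t := B.per_y t
  have e6 := B.sp_y t
  have e7 := B.sp_y_quarter t
  unfold crX at c1 c2 c3 c4
  rw [e5] at c4
  rw [e1, e6, e7] at c1
  rw [e1, e3, e4] at c2
  rw [e2, e3, e4] at c3
  rw [e2, e6, e7] at c4
  have hp' : B.p (t + Real.pi) = -B.p t := by linarith
  rw [hp'] at c2 c3
  nlinarith [c1, c2, c3, c4, s1, s2, s3, hI]

theorem quarter_geom (a : ℝ) : (∫ θ in a..(a + Real.pi / 2), B.ρ θ) ≤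
    B.h a + B.h (a + Real.pi / 2) + B.p (a + Real.pi / 2) - B.p a := by
  have hpi := Real.pi_pos
  have hab : a ≤ a + Real.pi / 2 := by linarith
  have hd : ∀ θ, HasDerivAt (fun θ => sp (B.y θ) (a + Real.pi / 2) - sp (B.y θ) a)
      (B.ρ θ * (Real.cos (θ - a) + Real.sin (θ - a))) θ := by
    intro θ
    refine ((B.hasDerivAt_sp_y (a + Real.pi / 2) θ).sub (B.hasDerivAt_sp_y a θ)).congr_deriv ?_
    rw [show θ - (a + Real.pi / 2) = (θ - a) - Real.pi / 2 by ring, Real.sin_sub_pi_div_two]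
    ring
  have hc : Continuous fun θ => B.ρ θ * (Real.cos (θ - a) + Real.sin (θ - a)) :=
    B.continuous_ρ.mul (by fun_prop)
  have h1 := intervalIntegral.integral_eq_sub_of_hasDerivAt (a := a) (b := a + Real.pi / 2)
    (fun θ _ => hd θ) (hc.intervalIntegrable _ _)
  have h2 : (∫ θ in a..(a + Real.pi / 2), B.ρ θ) ≤
      ∫ θ in a..(a + Real.pi / 2), B.ρ θ * (Real.cos (θ - a) + Real.sin (θ - a)) := by
    refine intervalIntegral.integral_mono_on hab (B.continuous_ρ.intervalIntegrable _ _)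
      (hc.intervalIntegrable _ _) fun θ hθ => ?_
    have hx0 : 0 ≤ θ - a := by linarith [hθ.1]
    have hx1 : θ - a ≤ Real.pi / 2 := by linarith [hθ.2]
    have hs : 0 ≤ Real.sin (θ - a) := Real.sin_nonneg_of_nonneg_of_le_pi hx0 (by linarith)
    have hcos : 0 ≤ Real.cos (θ - a) := Real.cos_nonneg_of_neg_pi_div_two_le_of_le (by linarith) hx1
    have hsc := Real.sin_sq_add_cos_sq (θ - a)
    have hs1 := Real.sin_le_one (θ - a)
    have hc1 := Real.cos_le_one (θ - a)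
    have hge : 1 ≤ Real.cos (θ - a) + Real.sin (θ - a) := by nlinarith
    have hρ := B.ρ_pos θ
    nlinarith
  rw [h1] at h2
  have e1 := B.sp_y (a + Real.pi / 2)
  have e2 : sp (B.y (a + Real.pi / 2)) a = -B.p (a + Real.pi / 2) := by
    have h := sp_pi (B.y (a + Real.pi / 2)) a
    have h' := B.sp_y_quarter (a + Real.pi / 2)
    rw [show a + Real.pi / 2 + Real.pi / 2 = a + Real.pi by ring] at h'
    linarith
  have e3 := B.sp_y_quarter a
  have e4 := B.sp_y a
  rw [e1, e2, e3, e4] at h2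
  linarith

theorem len_le_box_geom (t : ℝ) : B.len ≤ 2 * ((B.h t + B.h (t + Real.pi)) +
    (B.h (t + Real.pi / 2) + B.h (t + 3 * Real.pi / 2))) := by
  have hper : Function.Periodic (fun θ => B.ρ θ) (2 * Real.pi) := fun θ => B.per_ρ θ
  have h := hper.intervalIntegral_add_eq 0 t
  rw [zero_add] at h
  rw [B.len_eq, h]
  have hi : ∀ a b : ℝ, IntervalIntegrable (fun θ => B.ρ θ) volume a b :=
    fun a b => B.continuous_ρ.intervalIntegrable a b
  have s1 := intervalIntegral.integral_add_adjacent_intervals (hi t (t + Real.pi / 2))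
    (hi (t + Real.pi / 2) (t + Real.pi))
  have s2 := intervalIntegral.integral_add_adjacent_intervals (hi t (t + Real.pi))
    (hi (t + Real.pi) (t + 3 * Real.pi / 2))
  have s3 := intervalIntegral.integral_add_adjacent_intervals (hi t (t + 3 * Real.pi / 2))
    (hi (t + 3 * Real.pi / 2) (t + 2 * Real.pi))
  have q1 := B.quarter_geom t
  have q2 := B.quarter_geom (t + Real.pi / 2)
  have q3 := B.quarter_geom (t + Real.pi)
  have q4 := B.quarter_geom (t + 3 * Real.pi / 2)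
  rw [show t + Real.pi / 2 + Real.pi / 2 = t + Real.pi by ring] at q2
  rw [show t + Real.pi + Real.pi / 2 = t + 3 * Real.pi / 2 by ring] at q3
  rw [show t + 3 * Real.pi / 2 + Real.pi / 2 = t + 2 * Real.pi by ring, B.per_h, B.per_p] at q4
  linarith

/-! ### slope -/

theorem sp_ge_geom (θ φ : ℝ) : -B.h (φ + Real.pi) ≤ sp (B.y θ) φ := by
  have h := B.sp_y_le_geom θ (φ + Real.pi)
  rw [sp_pi] at h
  linarith

theorem slope_tip_geom (hA : B.area = Real.pi) (τ : ℝ) (hp : B.p τ + B.p (τ + Real.pi) = 0)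
    {D l : ℝ} (hD : B.h τ + B.h (τ + Real.pi) = D) (hD0 : 0 < D) (σ : ℝ) (hσ : σ = 1 ∨ σ = -1)
    (ω : ℝ) (hω : ω ∈ Icc (Real.pi / 2) Real.pi) :
    -Real.cos ω * (D - l + B.sd l τ σ ω) ≤ 2 * Real.pi / D * Real.sin ω := by
  have hpi := Real.pi_pos
  have hsin : 0 ≤ Real.sin ω :=
    Real.sin_nonneg_of_nonneg_of_le_pi (by linarith [hω.1]) hω.2
  have hW := B.diag_geom hA τ hp
  rw [hD] at hW
  set W := B.h (τ + Real.pi / 2) + B.h (τ + 3 * Real.pi / 2) with hWdef
  have hWle : W ≤ 2 * Real.pi / D := by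
    rw [le_div_iff₀ hD0]
    linarith
  have hX : D - l + B.sd l τ σ ω = sp (B.y (τ + σ * ω)) τ - sp (B.y (τ + Real.pi)) τ := by
    rw [sd, B.sp_opp_geom, ← hD]
    ring
  set θ := τ + σ * ω with hθ
  have hle : sp (B.y (τ + Real.pi)) θ ≤ sp (B.y θ) θ := by
    rw [B.sp_y]
    exact B.sp_y_le_geom _ _
  have r1 := sp_rot_geom (B.y (τ + Real.pi)) τ θ
  have r2 := sp_rot_geom (B.y θ) τ θ
  have eτ : θ - τ = σ * ω := by rw [hθ]; ring
  have hcos : Real.cos (σ * ω) = Real.cos ω := by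
    rcases hσ with h | h <;> rw [h] <;> simp
  have hsinσ : Real.sin (σ * ω) = σ * Real.sin ω := by
    rcases hσ with h | h <;> rw [h] <;> simp
  rw [eτ, hcos, hsinσ] at r1 r2
  rw [hX]
  set Y := sp (B.y θ) (τ + Real.pi / 2) - sp (B.y (τ + Real.pi)) (τ + Real.pi / 2) with hY
  have u1 := B.sp_y_le_geom θ (τ + Real.pi / 2)
  have u2 := B.sp_y_le_geom (τ + Real.pi) (τ + Real.pi / 2)
  have u3 := B.sp_ge_geom θ (τ + Real.pi / 2)
  have u4 := B.sp_ge_geom (τ + Real.pi) (τ + Real.pi / 2)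
  rw [show τ + Real.pi / 2 + Real.pi = τ + 3 * Real.pi / 2 by ring] at u3 u4
  have hYW : σ * Y ≤ W := by
    rcases hσ with h | h <;> rw [h, hY, hWdef] <;> linarith
  have hfin : -Real.cos ω * (sp (B.y θ) τ - sp (B.y (τ + Real.pi)) τ) ≤ σ * Y * Real.sin ω := by
    rw [r1, r2] at hle
    rw [hY]
    nlinarith [hle]
  calc -Real.cos ω * (sp (B.y θ) τ - sp (B.y (τ + Real.pi)) τ) ≤ σ * Y * Real.sin ω := hfin
    _ ≤ 2 * Real.pi / D * Real.sin ω :=
      mul_le_mul_of_nonneg_right (hYW.trans hWle) hsin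

/-! ### the heights climbed -/

theorem hasDerivAt_sd_geom (l τ σ : ℝ) (hσ : σ = 1 ∨ σ = -1) (ω : ℝ) :
    HasDerivAt (fun ω => B.sd l τ σ ω) (-(B.ρ (τ + σ * ω) * Real.sin ω)) ω := by
  have h1 : HasDerivAt (fun ω : ℝ => τ + σ * ω) σ ω := by
    simpa using ((hasDerivAt_id ω).const_mul σ).const_add τ
  have h2 := HasDerivAt.comp ω (B.hasDerivAt_sp_y τ (τ + σ * ω)) h1
  have h3 := h2.const_add (l - B.h τ)
  refine h3.congr_deriv ?_
  rw [show τ + σ * ω - τ = σ * ω by ring]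
  have hsinσ : Real.sin (σ * ω) = σ * Real.sin ω := by
    rcases hσ with h | h <;> rw [h] <;> simp
  have hσ2 : σ * σ = 1 := by rcases hσ with h | h <;> rw [h] <;> norm_num
  rw [hsinσ]
  linear_combination (-(B.ρ (τ + σ * ω) * Real.sin ω)) * hσ2

theorem hasDerivAt_climb_geom (τ σ : ℝ) (hσ : σ = 1 ∨ σ = -1) (ω : ℝ) :
    HasDerivAt (fun ω => σ * sp (B.y (τ + σ * ω)) (τ + Real.pi / 2))
      (B.ρ (τ + σ * ω) * Real.cos ω) ω := by
  have h1 : HasDerivAt (fun ω : ℝ => τ + σ * ω) σ ω := by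
    simpa using ((hasDerivAt_id ω).const_mul σ).const_add τ
  have h2 := HasDerivAt.comp ω (B.hasDerivAt_sp_y (τ + Real.pi / 2) (τ + σ * ω)) h1
  have h3 := h2.const_mul σ
  refine h3.congr_deriv ?_
  rw [show τ + σ * ω - (τ + Real.pi / 2) = σ * ω - Real.pi / 2 by ring,
    Real.sin_sub_pi_div_two]
  have hcos : Real.cos (σ * ω) = Real.cos ω := by
    rcases hσ with h | h <;> rw [h] <;> simp
  have hσ2 : σ * σ = 1 := by rcases hσ with h | h <;> rw [h] <;> norm_num
  rw [hcos]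
  linear_combination (B.ρ (τ + σ * ω) * Real.cos ω) * hσ2

theorem sd_anti_geom (l τ σ : ℝ) (hσ : σ = 1 ∨ σ = -1) :
    StrictAntiOn (fun ω => B.sd l τ σ ω) (Icc 0 Real.pi) := by
  refine strictAntiOn_of_deriv_neg (convex_Icc _ _)
    (fun ω _ => (B.hasDerivAt_sd_geom l τ σ hσ ω).continuousAt.continuousWithinAt) ?_
  intro ω hω
  rw [interior_Icc] at hω
  rw [(B.hasDerivAt_sd_geom l τ σ hσ ω).deriv]
  have h1 := B.ρ_pos (τ + σ * ω)
  have h2 := Real.sin_pos_of_pos_of_lt_pi hω.1 hω.2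
  have := mul_pos h1 h2
  linarith

theorem asc_eq_geom {l : ℝ} (hl : 0 ≤ l) (τ σ : ℝ) (hσ : σ = 1 ∨ σ = -1) :
    ∃ ω₁ : ℝ, 0 ≤ ω₁ ∧ ω₁ ≤ Real.pi / 2 ∧
      B.asc l τ σ = σ * (sp (B.y (τ + σ * ω₁)) (τ + Real.pi / 2) - B.p τ) ∧
      0 ≤ B.asc l τ σ ∧ B.h τ - sp (B.y (τ + σ * ω₁)) τ ≤ l := by
  have hpi := Real.pi_pos
  have hanti := B.sd_anti_geom l τ σ hσ
  have hcont : Continuous fun ω => B.sd l τ σ ω :=
    continuous_iff_continuousAt.2 fun ω => (B.hasDerivAt_sd_geom l τ σ hσ ω).continuousAt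
  have hsd0 : B.sd l τ σ 0 = l := by
    rw [sd, mul_zero, add_zero, B.sp_y]
    ring
  -- the angle
  have hex : ∃ ω₁ : ℝ, 0 ≤ ω₁ ∧ ω₁ ≤ Real.pi / 2 ∧ 0 ≤ B.sd l τ σ ω₁ ∧
      ∀ ω, ω₁ < ω → ω ≤ Real.pi / 2 → B.sd l τ σ ω < 0 := by
    by_cases hc : 0 ≤ B.sd l τ σ (Real.pi / 2)
    · exact ⟨Real.pi / 2, by linarith, le_refl _, hc, fun ω h1 h2 => absurd h1 (not_lt.2 h2)⟩
    · rw [not_le] at hc
      have hivt := intermediate_value_Icc' (a := 0) (b := Real.pi / 2) (by linarith)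
        hcont.continuousOn
      have hmem : (0 : ℝ) ∈ Icc (B.sd l τ σ (Real.pi / 2)) (B.sd l τ σ 0) :=
        ⟨hc.le, by rw [hsd0]; exact hl⟩
      obtain ⟨ω₁, hω₁, he⟩ := hivt hmem
      simp only at he
      refine ⟨ω₁, hω₁.1, hω₁.2, he.ge, fun ω h1 h2 => ?_⟩
      have := hanti ⟨hω₁.1, by linarith [hω₁.2]⟩ ⟨by linarith [hω₁.1], by linarith⟩ h1
      simp only at this
      linarith
  obtain ⟨ω₁, h0, h1, hnn, hneg⟩ := hex
  have hge : ∀ ω ∈ Icc 0 ω₁, 0 ≤ B.sd l τ σ ω := by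
    intro ω hω
    have := hanti.antitoneOn ⟨hω.1, by linarith [hω.2]⟩ ⟨h0, by linarith⟩ hω.2
    linarith
  set f : ℝ → ℝ := fun ω => if 0 ≤ B.sd l τ σ ω then B.ρ (τ + σ * ω) * Real.cos ω else 0 with hf
  have hc : Continuous fun ω => B.ρ (τ + σ * ω) * Real.cos ω :=
    (B.continuous_ρ.comp (by fun_prop)).mul Real.continuous_cos
  have hae1 : ∀ᵐ ω ∂(volume : Measure ℝ), ω ∈ Ι (0 : ℝ) ω₁ →
      f ω = B.ρ (τ + σ * ω) * Real.cos ω := by
    refine Filter.Eventually.of_forall fun ω hω => ?_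
    rw [uIoc_of_le h0] at hω
    simp only [hf, if_pos (hge ω ⟨hω.1.le, hω.2⟩)]
  have hae2 : ∀ᵐ ω ∂(volume : Measure ℝ), ω ∈ Ι ω₁ (Real.pi / 2) → f ω = (fun _ => (0 : ℝ)) ω := by
    refine Filter.Eventually.of_forall fun ω hω => ?_
    rw [uIoc_of_le h1] at hω
    simp only [hf, if_neg (not_le.2 (hneg ω hω.1 hω.2))]
  have i1 : IntervalIntegrable f volume 0 ω₁ :=
    (hc.intervalIntegrable 0 ω₁).congr_ae
      ((ae_restrict_iff' measurableSet_uIoc).2 (hae1.mono fun ω h h' => (h h').symm))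
  have i2 : IntervalIntegrable f volume ω₁ (Real.pi / 2) :=
    ((continuous_const (y := (0 : ℝ))).intervalIntegrable ω₁ (Real.pi / 2)).congr_ae
      ((ae_restrict_iff' measurableSet_uIoc).2 (hae2.mono fun ω h h' => (h h').symm))
  have hasc : B.asc l τ σ = ∫ ω in (0 : ℝ)..ω₁, B.ρ (τ + σ * ω) * Real.cos ω := by
    have h2 : B.asc l τ σ = ∫ ω in (0 : ℝ)..Real.pi / 2, f ω := rfl
    rw [h2, ← intervalIntegral.integral_add_adjacent_intervals i1 i2,
      intervalIntegral.integral_congr_ae hae1, intervalIntegral.integral_congr_ae hae2,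
      intervalIntegral.integral_zero, add_zero]
  have hval : (∫ ω in (0 : ℝ)..ω₁, B.ρ (τ + σ * ω) * Real.cos ω) =
      σ * (sp (B.y (τ + σ * ω₁)) (τ + Real.pi / 2) - B.p τ) := by
    rw [intervalIntegral.integral_eq_sub_of_hasDerivAt
      (fun ω _ => B.hasDerivAt_climb_geom τ σ hσ ω) (hc.intervalIntegrable _ _)]
    rw [mul_zero, add_zero, B.sp_y_quarter]
    ring
  refine ⟨ω₁, h0, h1, by rw [hasc, hval], ?_, ?_⟩
  · rw [hasc]
    refine intervalIntegral.integral_nonneg h0 fun ω hω => ?_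
    exact mul_nonneg (B.ρ_pos _).le
      (Real.cos_nonneg_of_neg_pi_div_two_le_of_le (by linarith [hω.1]) (by linarith [hω.2]))
  · rw [sd] at hnn
    linarith

theorem asc_sum_geom (hA : B.area = Real.pi) (t : ℝ) (hp : B.p t + B.p (t + Real.pi) = 0)
    {l : ℝ} (hl : 0 ≤ l) :
    (B.h t + B.h (t + Real.pi) - l) * (B.asc l t 1 + B.asc l t (-1) + B.asc l (t + Real.pi) 1 +
        B.asc l (t + Real.pi) (-1)) ≤ 2 * Real.pi := by
  have hpi := Real.pi_pos
  obtain ⟨ω₁, a1, b1, m1, n1, x1⟩ := B.asc_eq_geom hl t 1 (Or.inl rfl)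
  obtain ⟨ω₄, a4, b4, m4, n4, x4⟩ := B.asc_eq_geom hl t (-1) (Or.inr rfl)
  obtain ⟨ω₃, a3, b3, m3, n3, x3⟩ := B.asc_eq_geom hl (t + Real.pi) 1 (Or.inl rfl)
  obtain ⟨ω₂, a2, b2, m2, n2, x2⟩ := B.asc_eq_geom hl (t + Real.pi) (-1) (Or.inr rfl)
  rw [one_mul] at m1 x1 m3 x3
  rw [one_mul] at m1 m3
  rw [show t + -1 * ω₄ = t - ω₄ by ring] at m4 x4
  rw [show t + Real.pi + -1 * ω₂ = t + Real.pi - ω₂ by ring] at m2 x2
  rw [show t + Real.pi + Real.pi / 2 = t + Real.pi / 2 + Real.pi by ring, sp_pi] at m2 m3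
  rw [sp_pi] at x2 x3
  have hP4 : B.y (t + 2 * Real.pi - ω₄) = B.y (t - ω₄) := by
    rw [show t + 2 * Real.pi - ω₄ = t - ω₄ + 2 * Real.pi by ring, B.per_y]
  have c1 := B.chord_geom t (a := t) (b := t + ω₁) (by linarith)
  have c2 := B.chord_geom t (a := t + ω₁) (b := t + Real.pi - ω₂) (by linarith)
  have c3 := B.chord_geom t (a := t + Real.pi - ω₂) (b := t + Real.pi) (by linarith)
  have c4 := B.chord_geom t (a := t + Real.pi) (b := t + Real.pi + ω₃) (by linarith)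
  have c5 := B.chord_geom t (a := t + Real.pi + ω₃) (b := t + 2 * Real.pi - ω₄) (by linarith)
  have c6 := B.chord_geom t (a := t + 2 * Real.pi - ω₄) (b := t + 2 * Real.pi) (by linarith)
  have hi : ∀ a b : ℝ, IntervalIntegrable (fun θ => B.h θ * B.ρ θ) volume a b :=
    fun a b => B.continuous_hρ_geom.intervalIntegrable a b
  have s1 := intervalIntegral.integral_add_adjacent_intervals (hi t (t + ω₁))
    (hi (t + ω₁) (t + Real.pi - ω₂))
  have s2 := intervalIntegral.integral_add_adjacent_intervals (hi t (t + Real.pi - ω₂))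
    (hi (t + Real.pi - ω₂) (t + Real.pi))
  have s3 := intervalIntegral.integral_add_adjacent_intervals (hi t (t + Real.pi))
    (hi (t + Real.pi) (t + Real.pi + ω₃))
  have s4 := intervalIntegral.integral_add_adjacent_intervals (hi t (t + Real.pi + ω₃))
    (hi (t + Real.pi + ω₃) (t + 2 * Real.pi - ω₄))
  have s5 := intervalIntegral.integral_add_adjacent_intervals (hi t (t + 2 * Real.pi - ω₄))
    (hi (t + 2 * Real.pi - ω₄) (t + 2 * Real.pi))
  have hI := B.int_hρ_geom hA t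
  have e3 := B.sp_opp_geom t
  have e4 := B.sp_opp_quarter_geom t
  have e5 : B.y (t + 2 * Real.pi) = B.y t := B.per_y t
  have e6 := B.sp_y t
  have e7 := B.sp_y_quarter t
  unfold crX at c1 c2 c3 c4 c5 c6
  rw [hP4] at c5 c6
  rw [e5] at c6
  rw [e6, e7] at c1 c6
  rw [e3, e4] at c3 c4
  have hp' : B.p (t + Real.pi) = -B.p t := by linarith
  rw [hp'] at c3 c4 m2 m3
  -- coordinates
  have y1 : sp (B.y (t + ω₁)) (t + Real.pi / 2) = B.p t + B.asc l t 1 := by linarith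
  have y2 : sp (B.y (t + Real.pi - ω₂)) (t + Real.pi / 2) =
      B.p t + B.asc l (t + Real.pi) (-1) := by linarith
  have y3 : sp (B.y (t + Real.pi + ω₃)) (t + Real.pi / 2) =
      B.p t - B.asc l (t + Real.pi) 1 := by linarith
  have y4 : sp (B.y (t - ω₄)) (t + Real.pi / 2) = B.p t - B.asc l t (-1) := by linarith
  rw [y1] at c1 c2
  rw [y2] at c2 c3
  rw [y3] at c4 c5
  rw [y4] at c5 c6
  set M1 := B.asc l t 1
  set M2 := B.asc l (t + Real.pi) (-1)
  set M3 := B.asc l (t + Real.pi) 1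
  set M4 := B.asc l t (-1)
  set X1 := sp (B.y (t + ω₁)) t
  set X2 := sp (B.y (t + Real.pi - ω₂)) t
  set X3 := sp (B.y (t + Real.pi + ω₃)) t
  set X4 := sp (B.y (t - ω₄)) t
  have k1 : 0 ≤ M2 * (l - (B.h t - X1)) := mul_nonneg n2 (by linarith)
  have k2 : 0 ≤ M1 * (l - (B.h (t + Real.pi) - -X2)) := mul_nonneg n1 (by linarith)
  have k3 : 0 ≤ M4 * (l - (B.h (t + Real.pi) - -X3)) := mul_nonneg n4 (by linarith)
  have k4 : 0 ≤ M3 * (l - (B.h t - X4)) := mul_nonneg n3 (by linarith)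
  linarith [c1, c2, c3, c4, c5, c6, s1, s2, s3, s4, s5, hI, k1, k2, k3, k4]

theorem exists_max_width_geom : ∃ θ₀ : ℝ, ∀ θ, B.h θ + B.h (θ + Real.pi) ≤ B.h θ₀ + B.h (θ₀ + Real.pi) := by
  have hpi := Real.pi_pos
  have hc : Continuous fun θ => B.h θ + B.h (θ + Real.pi) :=
    B.continuous_h.add (B.continuous_h.comp (by fun_prop))
  have hper : Function.Periodic (fun θ => B.h θ + B.h (θ + Real.pi)) (2 * Real.pi) := by
    intro θ
    simp only [B.per_h]
    rw [show θ + 2 * Real.pi + Real.pi = θ + Real.pi + 2 * Real.pi by ring, B.per_h]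
  obtain ⟨θ₀, -, h₀⟩ := (isCompact_Icc (a := (0 : ℝ)) (b := 2 * Real.pi)).exists_isMaxOn
    ⟨0, by constructor <;> linarith⟩ hc.continuousOn
  refine ⟨θ₀, fun θ => ?_⟩
  obtain ⟨θ', hθ', he⟩ := hper.exists_mem_Ico₀ (by linarith) θ
  have := h₀ (Ico_subset_Icc_self hθ')
  have h1 : B.h θ + B.h (θ + Real.pi) = B.h θ' + B.h (θ' + Real.pi) := he
  rw [h1]
  exact this

theorem len_le_pi_mul_geom {D : ℝ} (hD : ∀ θ, B.h θ + B.h (θ + Real.pi) ≤ D) :
    B.len ≤ Real.pi * D := by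
  have hpi := Real.pi_pos
  have hc : Continuous fun θ => B.h (θ + Real.pi) := B.continuous_h.comp (by fun_prop)
  have h1 : B.len = (∫ θ in (0 : ℝ)..Real.pi, B.h θ) + ∫ θ in Real.pi..2 * Real.pi, B.h θ :=
    (intervalIntegral.integral_add_adjacent_intervals (B.continuous_h.intervalIntegrable _ _)
      (B.continuous_h.intervalIntegrable _ _)).symm
  have h2 : (∫ θ in (0 : ℝ)..Real.pi, B.h (θ + Real.pi)) = ∫ θ in Real.pi..2 * Real.pi, B.h θ := by
    have h := intervalIntegral.integral_comp_add_right (a := 0) (b := Real.pi) B.h Real.pi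
    rw [zero_add, show Real.pi + Real.pi = 2 * Real.pi by ring] at h
    exact h
  rw [h1, ← h2, ← intervalIntegral.integral_add (B.continuous_h.intervalIntegrable _ _)
    (hc.intervalIntegrable _ _)]
  have h3 : (∫ θ in (0 : ℝ)..Real.pi, (B.h θ + B.h (θ + Real.pi))) ≤
      ∫ _θ in (0 : ℝ)..Real.pi, D :=
    intervalIntegral.integral_mono_on hpi.le ((B.continuous_h.add hc).intervalIntegrable _ _)
      (continuous_const.intervalIntegrable _ _) fun θ _ => hD θ
  rw [intervalIntegral.integral_const, smul_eq_mul, sub_zero] at h3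
  exact h3

theorem X_geom (hA : B.area = Real.pi) (hlen : 2 * Real.pi * 1.735 ≤ B.len) :
    ∃ θ₀ D : ℝ, 3.79 ≤ D ∧ B.h θ₀ + B.h (θ₀ + Real.pi) = D ∧
      (∀ τ, τ = θ₀ ∨ τ = θ₀ + Real.pi → ∀ σ : ℝ, σ = 1 ∨ σ = -1 →
        ∀ ω ∈ Icc (Real.pi / 2) Real.pi, -1 ≤ B.sd 1.3 τ σ ω →
          -Real.cos ω * (D - 1.3 + B.sd 1.3 τ σ ω) ≤ 2 * Real.pi / D * Real.sin ω) ∧
      B.asc 1.3 θ₀ 1 + B.asc 1.3 θ₀ (-1) + B.asc 1.3 (θ₀ + Real.pi) 1 +
        B.asc 1.3 (θ₀ + Real.pi) (-1) ≤ 2 * Real.pi / (D - 1.3) := by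
  have hpi := Real.pi_pos
  obtain ⟨θ₀, hmax⟩ := B.exists_max_width_geom
  set D := B.h θ₀ + B.h (θ₀ + Real.pi) with hD
  -- the two tips are at the same height
  have hp : B.p θ₀ + B.p (θ₀ + Real.pi) = 0 := by
    have hd : HasDerivAt (fun θ => B.h θ + B.h (θ + Real.pi)) (B.p θ₀ + B.p (θ₀ + Real.pi)) θ₀ := by
      have h1 : HasDerivAt (fun θ : ℝ => θ + Real.pi) 1 θ₀ := (hasDerivAt_id θ₀).add_const _
      have h2 := HasDerivAt.comp θ₀ (B.hasDerivAt_h (θ₀ + Real.pi)) h1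
      rw [mul_one] at h2
      exact (B.hasDerivAt_h θ₀).add h2
    have hloc : IsLocalMax (fun θ => B.h θ + B.h (θ + Real.pi)) θ₀ :=
      Filter.Eventually.of_forall fun θ => hmax θ
    exact hloc.hasDerivAt_eq_zero hd
  have hp2 : B.p (θ₀ + Real.pi) + B.p (θ₀ + Real.pi + Real.pi) = 0 := by
    rw [show θ₀ + Real.pi + Real.pi = θ₀ + 2 * Real.pi by ring, B.per_p]
    linarith
  have hD2 : B.h (θ₀ + Real.pi) + B.h (θ₀ + Real.pi + Real.pi) = D := by
    rw [show θ₀ + Real.pi + Real.pi = θ₀ + 2 * Real.pi by ring, B.per_h, hD]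
    ring
  have hb1 := B.len_le_pi_mul_geom hmax
  have hb2 := B.len_le_box_geom θ₀
  rw [← hD] at hb2
  have hb3 := B.diag_geom hA θ₀ hp
  rw [← hD] at hb3
  have hDlow : 3.47 ≤ D := by
    have : Real.pi * 3.47 ≤ Real.pi * D := by linarith
    exact le_of_mul_le_mul_left this hpi
  have hD0 : 0 < D := by linarith
  have hDge : 3.79 ≤ D := by
    by_contra hcon
    rw [not_le] at hcon
    set W := B.h (θ₀ + Real.pi / 2) + B.h (θ₀ + 3 * Real.pi / 2)
    have h1 : Real.pi * 1.735 ≤ D + W := by linarith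
    have h2 : D * (Real.pi * 1.735) ≤ D * (D + W) := mul_le_mul_of_nonneg_left h1 hD0.le
    have h3 : Real.pi * (1.735 * D - 2) ≤ D ^ 2 := by nlinarith
    have h4 : 3.1415 < Real.pi := Real.pi_gt_d4
    have h5 : 0 < 1.735 * D - 2 := by linarith
    have h6 : 3.1415 * (1.735 * D - 2) ≤ D ^ 2 := by nlinarith
    nlinarith
  refine ⟨θ₀, D, hDge, rfl, ?_, ?_⟩
  · intro τ hτ σ hσ ω hω _
    rcases hτ with h | h
    · rw [h]
      exact B.slope_tip_geom hA θ₀ hp rfl hD0 σ hσ ω hω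
    · rw [h]
      exact B.slope_tip_geom hA (θ₀ + Real.pi) hp2 hD2 hD0 σ hσ ω hω
  · rw [le_div_iff₀ (by linarith)]
    have h := B.asc_sum_geom hA θ₀ hp (l := 1.3) (by norm_num)
    rw [← hD] at h
    linarith

end Body
end Pool.Agent.RC
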