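import Pool.Agent.H.MP_1b807b_an.C.DefsB

/-! MP_1b807b_an, convex planar domains, module XPoint: the pointwise inequality of case (X) -/

set_option autoImplicit false

namespace Pool.Agent.RC

open Set

/-- the majorant -/
noncomputable def nuX (P m s : ℝ) : ℝ :=
  if s ≤ 1 then (1 - s) * (2.04 * (P - 1 / 2 + m / 2)) + s * (-1.55 - 1.08 * (P - 1 / 2) + 1.01 * m)
  else (1.3 - s) / 0.3 * (-1.55 - 1.08 * (P - 1 / 2) + 1.01 * m) +
    (s - 1) / 0.3 * (-1.6 - 1.62 * (P - 1 / 2) + 1.37 * m)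

/-! ### two classical inequalities -/

theorem x_cusa {x : ℝ} (h0 : 0 ≤ x) :
    3 * Real.sin x ≤ x * (2 + Real.cos x) := by
  have hpi := Real.pi_pos
  have hd : ∀ y, HasDerivAt (fun y => y - 3 * Real.sin y / (2 + Real.cos y))
      (1 - (3 * Real.cos y * (2 + Real.cos y) - 3 * Real.sin y * (-Real.sin y)) /
        (2 + Real.cos y) ^ 2) y := by
    intro y
    have hc : 2 + Real.cos y ≠ 0 := by nlinarith [Real.neg_one_le_cos y]
    exact (hasDerivAt_id y).sub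
      (((Real.hasDerivAt_sin y).const_mul 3).div ((Real.hasDerivAt_cos y).const_add 2) hc)
  have hm : Monotone (fun y => y - 3 * Real.sin y / (2 + Real.cos y)) := by
    apply monotone_of_deriv_nonneg (fun y => (hd y).differentiableAt)
    intro y
    rw [(hd y).deriv]
    have hc : 0 < 2 + Real.cos y := by nlinarith [Real.neg_one_le_cos y]
    rw [sub_nonneg, div_le_one (by positivity)]
    nlinarith [Real.sin_sq_add_cos_sq y, sq_nonneg (1 - Real.cos y)]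
  have h2 := hm h0
  simp only [Real.sin_zero, mul_zero, zero_div, sub_zero] at h2
  have hc : 0 < 2 + Real.cos x := by nlinarith [Real.neg_one_le_cos x]
  have h3 : 3 * Real.sin x / (2 + Real.cos x) ≤ x := by linarith
  rwa [div_le_iff₀ hc] at h3

theorem x_huygens {x : ℝ} (h0 : 0 ≤ x) (h1 : x ≤ Real.pi / 2) :
    3 * x * Real.cos x ≤ 2 * Real.sin x * Real.cos x + Real.sin x := by
  rcases h1.eq_or_lt with h | h
  · rw [h, Real.cos_pi_div_two, Real.sin_pi_div_two]; norm_num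
  have hcos : ∀ y ∈ Ico (0 : ℝ) (Real.pi / 2), 0 < Real.cos y := fun y hy =>
    Real.cos_pos_of_mem_Ioo ⟨by linarith [hy.1, Real.pi_pos], hy.2⟩
  have hd : ∀ y ∈ Ico (0 : ℝ) (Real.pi / 2),
      HasDerivAt (fun y => 2 * Real.sin y + Real.tan y - 3 * y)
        (2 * Real.cos y + 1 / Real.cos y ^ 2 - 3 * 1) y := by
    intro y hy
    exact (((Real.hasDerivAt_sin y).const_mul 2).add (Real.hasDerivAt_tan (hcos y hy).ne')).sub
      ((hasDerivAt_id y).const_mul 3)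
  have hm : MonotoneOn (fun y => 2 * Real.sin y + Real.tan y - 3 * y) (Ico (0 : ℝ) (Real.pi / 2)) := by
    apply monotoneOn_of_deriv_nonneg (convex_Ico _ _)
    · exact fun y hy => (hd y hy).continuousAt.continuousWithinAt
    · intro y hy
      exact (hd y (interior_subset hy)).differentiableAt.differentiableWithinAt
    · intro y hy
      have hy' := interior_subset hy
      rw [(hd y hy').deriv]
      have hc := hcos y hy'
      have hc1 := Real.cos_le_one y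
      have : 2 * Real.cos y + 1 / Real.cos y ^ 2 - 3 * 1 =
          (1 - Real.cos y) ^ 2 * (2 * Real.cos y + 1) / Real.cos y ^ 2 := by
        field_simp; ring
      rw [this]; positivity
  have h2 := hm ⟨le_rfl, by linarith [Real.pi_pos]⟩ ⟨h0, h⟩ h0
  simp only [Real.sin_zero, mul_zero, Real.tan_zero, add_zero, sub_zero] at h2
  have hc := hcos x ⟨h0, h⟩
  have h3 : 3 * x ≤ 2 * Real.sin x + Real.sin x / Real.cos x := by
    rw [← Real.tan_eq_sin_div_cos]; linarith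
  have h4 := mul_le_mul_of_nonneg_right h3 hc.le
  rw [add_mul, div_mul_cancel₀ _ hc.ne'] at h4
  linarith

/-! ### the polynomials in the tangent of the half angle -/

lemma xpoly_one_00 {t : ℝ} (h0 : 0 ≤ t) (h1 : t ≤ 1) :
    (-59/300) + (4379/15000) * t ^ 1 + (1) * t ^ 2 + (-35621/15000) * t ^ 3 + (359/300) * t ^ 4 ≤ 0 := by
  rcases le_total t (1/2) with h | h
  · have hx : 0 ≤ t - (0) := by linarith
    have hy : 0 ≤ (1/2) - t := by linarith
    linarith [mul_nonneg (pow_nonneg hx 0) (pow_nonneg hy 4), mul_nonneg (pow_nonneg hx 1) (pow_nonneg hy 3), mul_nonneg (pow_nonneg hx 2) (pow_nonneg hy 2), mul_nonneg (pow_nonneg hx 3) (pow_nonneg hy 1), mul_nonneg (pow_nonneg hx 4) (pow_nonneg hy 0)]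
  · have hx : 0 ≤ t - (1/2) := by linarith
    have hy : 0 ≤ (1) - t := by linarith
    linarith [mul_nonneg (pow_nonneg hx 0) (pow_nonneg hy 4), mul_nonneg (pow_nonneg hx 1) (pow_nonneg hy 3), mul_nonneg (pow_nonneg hx 2) (pow_nonneg hy 2), mul_nonneg (pow_nonneg hx 3) (pow_nonneg hy 1), mul_nonneg (pow_nonneg hx 4) (pow_nonneg hy 0)]

lemma xpoly_one_01 {t : ℝ} (h0 : 0 ≤ t) (h1 : t ≤ 1) :
    (-877/6000) + (13187/150000) * t ^ 1 + (1303/1000) * t ^ 2 + (-386813/150000) * t ^ 3 + (7483/6000) * t ^ 4 ≤ 0 := by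
  rcases le_total t (1/2) with h | h
  · have hx : 0 ≤ t - (0) := by linarith
    have hy : 0 ≤ (1/2) - t := by linarith
    linarith [mul_nonneg (pow_nonneg hx 0) (pow_nonneg hy 4), mul_nonneg (pow_nonneg hx 1) (pow_nonneg hy 3), mul_nonneg (pow_nonneg hx 2) (pow_nonneg hy 2), mul_nonneg (pow_nonneg hx 3) (pow_nonneg hy 1), mul_nonneg (pow_nonneg hx 4) (pow_nonneg hy 0)]
  · have hx : 0 ≤ t - (1/2) := by linarith
    have hy : 0 ≤ (1) - t := by linarith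
    linarith [mul_nonneg (pow_nonneg hx 0) (pow_nonneg hy 4), mul_nonneg (pow_nonneg hx 1) (pow_nonneg hy 3), mul_nonneg (pow_nonneg hx 2) (pow_nonneg hy 2), mul_nonneg (pow_nonneg hx 3) (pow_nonneg hy 1), mul_nonneg (pow_nonneg hx 4) (pow_nonneg hy 0)]

lemma xpoly_one_10 {t : ℝ} (h0 : 0 ≤ t) (h1 : t ≤ 1) :
    (-19/125) + (150931/2500000) * t ^ 1 + (192/125) * t ^ 2 + (-7409069/2500000) * t ^ 3 + (71/50) * t ^ 4 ≤ 0 := by
  rcases le_total t (1/2) with h | h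
  · have hx : 0 ≤ t - (0) := by linarith
    have hy : 0 ≤ (1/2) - t := by linarith
    linarith [mul_nonneg (pow_nonneg hx 0) (pow_nonneg hy 4), mul_nonneg (pow_nonneg hx 1) (pow_nonneg hy 3), mul_nonneg (pow_nonneg hx 2) (pow_nonneg hy 2), mul_nonneg (pow_nonneg hx 3) (pow_nonneg hy 1), mul_nonneg (pow_nonneg hx 4) (pow_nonneg hy 0)]
  · have hx : 0 ≤ t - (1/2) := by linarith
    have hy : 0 ≤ (1) - t := by linarith
    linarith [mul_nonneg (pow_nonneg hx 0) (pow_nonneg hy 4), mul_nonneg (pow_nonneg hx 1) (pow_nonneg hy 3), mul_nonneg (pow_nonneg hx 2) (pow_nonneg hy 2), mul_nonneg (pow_nonneg hx 3) (pow_nonneg hy 1), mul_nonneg (pow_nonneg hx 4) (pow_nonneg hy 0)]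

lemma xpoly_one_11 {t : ℝ} (h0 : 0 ≤ t) (h1 : t ≤ 1) :
    (-203/2000) + (-359119/2500000) * t ^ 1 + (1839/1000) * t ^ 2 + (-7919119/2500000) * t ^ 3 + (2941/2000) * t ^ 4 ≤ 0 := by
  rcases le_total t (1/2) with h | h
  · have hx : 0 ≤ t - (0) := by linarith
    have hy : 0 ≤ (1/2) - t := by linarith
    linarith [mul_nonneg (pow_nonneg hx 0) (pow_nonneg hy 4), mul_nonneg (pow_nonneg hx 1) (pow_nonneg hy 3), mul_nonneg (pow_nonneg hx 2) (pow_nonneg hy 2), mul_nonneg (pow_nonneg hx 3) (pow_nonneg hy 1), mul_nonneg (pow_nonneg hx 4) (pow_nonneg hy 0)]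
  · have hx : 0 ≤ t - (1/2) := by linarith
    have hy : 0 ≤ (1) - t := by linarith
    linarith [mul_nonneg (pow_nonneg hx 0) (pow_nonneg hy 4), mul_nonneg (pow_nonneg hx 1) (pow_nonneg hy 3), mul_nonneg (pow_nonneg hx 2) (pow_nonneg hy 2), mul_nonneg (pow_nonneg hx 3) (pow_nonneg hy 1), mul_nonneg (pow_nonneg hx 4) (pow_nonneg hy 0)]

lemma xpoly_two_00 {t : ℝ} (h0 : 0 ≤ t) (h1 : t ≤ 1) :
    (-111/200) + (453/100) * t ^ 1 + (-2143/200) * t ^ 2 + (151/25) * t ^ 3 + (-1657/200) * t ^ 4 + (151/100) * t ^ 5 + (15/8) * t ^ 6 ≤ 0 := by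
  rcases le_total t (1/4) with h | h
  · have hx : 0 ≤ t - (0) := by linarith
    have hy : 0 ≤ (1/4) - t := by linarith
    linarith [mul_nonneg (pow_nonneg hx 0) (pow_nonneg hy 6), mul_nonneg (pow_nonneg hx 1) (pow_nonneg hy 5), mul_nonneg (pow_nonneg hx 2) (pow_nonneg hy 4), mul_nonneg (pow_nonneg hx 3) (pow_nonneg hy 3), mul_nonneg (pow_nonneg hx 4) (pow_nonneg hy 2), mul_nonneg (pow_nonneg hx 5) (pow_nonneg hy 1), mul_nonneg (pow_nonneg hx 6) (pow_nonneg hy 0)]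
  · rcases le_total t (1/2) with h' | h'
    · have hx : 0 ≤ t - (1/4) := by linarith
      have hy : 0 ≤ (1/2) - t := by linarith
      linarith [mul_nonneg (pow_nonneg hx 0) (pow_nonneg hy 6), mul_nonneg (pow_nonneg hx 1) (pow_nonneg hy 5), mul_nonneg (pow_nonneg hx 2) (pow_nonneg hy 4), mul_nonneg (pow_nonneg hx 3) (pow_nonneg hy 3), mul_nonneg (pow_nonneg hx 4) (pow_nonneg hy 2), mul_nonneg (pow_nonneg hx 5) (pow_nonneg hy 1), mul_nonneg (pow_nonneg hx 6) (pow_nonneg hy 0)]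
    · have hx : 0 ≤ t - (1/2) := by linarith
      have hy : 0 ≤ (1) - t := by linarith
      linarith [mul_nonneg (pow_nonneg hx 0) (pow_nonneg hy 6), mul_nonneg (pow_nonneg hx 1) (pow_nonneg hy 5), mul_nonneg (pow_nonneg hx 2) (pow_nonneg hy 4), mul_nonneg (pow_nonneg hx 3) (pow_nonneg hy 3), mul_nonneg (pow_nonneg hx 4) (pow_nonneg hy 2), mul_nonneg (pow_nonneg hx 5) (pow_nonneg hy 1), mul_nonneg (pow_nonneg hx 6) (pow_nonneg hy 0)]

lemma xpoly_two_01 {t : ℝ} (h0 : 0 ≤ t) (h1 : t ≤ 1) :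
    (-807/2000) + (184989/50000) * t ^ 1 + (-19511/2000) * t ^ 2 + (61663/12500) * t ^ 3 + (-15661/2000) * t ^ 4 + (61663/50000) * t ^ 5 + (3851/2000) * t ^ 6 ≤ 0 := by
  rcases le_total t (1/4) with h | h
  · have hx : 0 ≤ t - (0) := by linarith
    have hy : 0 ≤ (1/4) - t := by linarith
    linarith [mul_nonneg (pow_nonneg hx 0) (pow_nonneg hy 6), mul_nonneg (pow_nonneg hx 1) (pow_nonneg hy 5), mul_nonneg (pow_nonneg hx 2) (pow_nonneg hy 4), mul_nonneg (pow_nonneg hx 3) (pow_nonneg hy 3), mul_nonneg (pow_nonneg hx 4) (pow_nonneg hy 2), mul_nonneg (pow_nonneg hx 5) (pow_nonneg hy 1), mul_nonneg (pow_nonneg hx 6) (pow_nonneg hy 0)]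
  · rcases le_total t (1/2) with h' | h'
    · have hx : 0 ≤ t - (1/4) := by linarith
      have hy : 0 ≤ (1/2) - t := by linarith
      linarith [mul_nonneg (pow_nonneg hx 0) (pow_nonneg hy 6), mul_nonneg (pow_nonneg hx 1) (pow_nonneg hy 5), mul_nonneg (pow_nonneg hx 2) (pow_nonneg hy 4), mul_nonneg (pow_nonneg hx 3) (pow_nonneg hy 3), mul_nonneg (pow_nonneg hx 4) (pow_nonneg hy 2), mul_nonneg (pow_nonneg hx 5) (pow_nonneg hy 1), mul_nonneg (pow_nonneg hx 6) (pow_nonneg hy 0)]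
    · have hx : 0 ≤ t - (1/2) := by linarith
      have hy : 0 ≤ (1) - t := by linarith
      linarith [mul_nonneg (pow_nonneg hx 0) (pow_nonneg hy 6), mul_nonneg (pow_nonneg hx 1) (pow_nonneg hy 5), mul_nonneg (pow_nonneg hx 2) (pow_nonneg hy 4), mul_nonneg (pow_nonneg hx 3) (pow_nonneg hy 3), mul_nonneg (pow_nonneg hx 4) (pow_nonneg hy 2), mul_nonneg (pow_nonneg hx 5) (pow_nonneg hy 1), mul_nonneg (pow_nonneg hx 6) (pow_nonneg hy 0)]

lemma xpoly_two_10 {t : ℝ} (h0 : 0 ≤ t) (h1 : t ≤ 1) :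
    (-53691/100000) + (225093/50000) * t ^ 1 + (-1091399/100000) * t ^ 2 + (75031/12500) * t ^ 3 + (-173673/20000) * t ^ 4 + (75031/50000) * t ^ 5 + (222943/100000) * t ^ 6 ≤ 0 := by
  rcases le_total t (1/4) with h | h
  · have hx : 0 ≤ t - (0) := by linarith
    have hy : 0 ≤ (1/4) - t := by linarith
    linarith [mul_nonneg (pow_nonneg hx 0) (pow_nonneg hy 6), mul_nonneg (pow_nonneg hx 1) (pow_nonneg hy 5), mul_nonneg (pow_nonneg hx 2) (pow_nonneg hy 4), mul_nonneg (pow_nonneg hx 3) (pow_nonneg hy 3), mul_nonneg (pow_nonneg hx 4) (pow_nonneg hy 2), mul_nonneg (pow_nonneg hx 5) (pow_nonneg hy 1), mul_nonneg (pow_nonneg hx 6) (pow_nonneg hy 0)]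
  · rcases le_total t (1/2) with h' | h'
    · have hx : 0 ≤ t - (1/4) := by linarith
      have hy : 0 ≤ (1/2) - t := by linarith
      linarith [mul_nonneg (pow_nonneg hx 0) (pow_nonneg hy 6), mul_nonneg (pow_nonneg hx 1) (pow_nonneg hy 5), mul_nonneg (pow_nonneg hx 2) (pow_nonneg hy 4), mul_nonneg (pow_nonneg hx 3) (pow_nonneg hy 3), mul_nonneg (pow_nonneg hx 4) (pow_nonneg hy 2), mul_nonneg (pow_nonneg hx 5) (pow_nonneg hy 1), mul_nonneg (pow_nonneg hx 6) (pow_nonneg hy 0)]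
    · have hx : 0 ≤ t - (1/2) := by linarith
      have hy : 0 ≤ (1) - t := by linarith
      linarith [mul_nonneg (pow_nonneg hx 0) (pow_nonneg hy 6), mul_nonneg (pow_nonneg hx 1) (pow_nonneg hy 5), mul_nonneg (pow_nonneg hx 2) (pow_nonneg hy 4), mul_nonneg (pow_nonneg hx 3) (pow_nonneg hy 3), mul_nonneg (pow_nonneg hx 4) (pow_nonneg hy 2), mul_nonneg (pow_nonneg hx 5) (pow_nonneg hy 1), mul_nonneg (pow_nonneg hx 6) (pow_nonneg hy 0)]

lemma xpoly_two_11 {t : ℝ} (h0 : 0 ≤ t) (h1 : t ≤ 1) :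
    (-38541/100000) + (91791/25000) * t ^ 1 + (-995449/100000) * t ^ 2 + (30597/6250) * t ^ 3 + (-164583/20000) * t ^ 4 + (30597/25000) * t ^ 5 + (227993/100000) * t ^ 6 ≤ 0 := by
  rcases le_total t (1/4) with h | h
  · have hx : 0 ≤ t - (0) := by linarith
    have hy : 0 ≤ (1/4) - t := by linarith
    linarith [mul_nonneg (pow_nonneg hx 0) (pow_nonneg hy 6), mul_nonneg (pow_nonneg hx 1) (pow_nonneg hy 5), mul_nonneg (pow_nonneg hx 2) (pow_nonneg hy 4), mul_nonneg (pow_nonneg hx 3) (pow_nonneg hy 3), mul_nonneg (pow_nonneg hx 4) (pow_nonneg hy 2), mul_nonneg (pow_nonneg hx 5) (pow_nonneg hy 1), mul_nonneg (pow_nonneg hx 6) (pow_nonneg hy 0)]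
  · rcases le_total t (1/2) with h' | h'
    · have hx : 0 ≤ t - (1/4) := by linarith
      have hy : 0 ≤ (1/2) - t := by linarith
      linarith [mul_nonneg (pow_nonneg hx 0) (pow_nonneg hy 6), mul_nonneg (pow_nonneg hx 1) (pow_nonneg hy 5), mul_nonneg (pow_nonneg hx 2) (pow_nonneg hy 4), mul_nonneg (pow_nonneg hx 3) (pow_nonneg hy 3), mul_nonneg (pow_nonneg hx 4) (pow_nonneg hy 2), mul_nonneg (pow_nonneg hx 5) (pow_nonneg hy 1), mul_nonneg (pow_nonneg hx 6) (pow_nonneg hy 0)]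
    · have hx : 0 ≤ t - (1/2) := by linarith
      have hy : 0 ≤ (1) - t := by linarith
      linarith [mul_nonneg (pow_nonneg hx 0) (pow_nonneg hy 6), mul_nonneg (pow_nonneg hx 1) (pow_nonneg hy 5), mul_nonneg (pow_nonneg hx 2) (pow_nonneg hy 4), mul_nonneg (pow_nonneg hx 3) (pow_nonneg hy 3), mul_nonneg (pow_nonneg hx 4) (pow_nonneg hy 2), mul_nonneg (pow_nonneg hx 5) (pow_nonneg hy 1), mul_nonneg (pow_nonneg hx 6) (pow_nonneg hy 0)]

/-- the expression of the inequality -/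
noncomputable def xE (P m u v w c s N : ℝ) : ℝ :=
  P * s ^ 2 - (2 * P - 1) * s * v - 2 * P * s * w * u + (P - 1 / 2 + m / 2) * (1 + u ^ 2) -
    (P * s ^ 2 + N) * u - c * v

lemma xE_le {P m u v w c s : ℝ} (hP : 0 ≤ P) (hu : u ≤ 1) (hs : 0 ≤ s) (hs' : s ≤ 1.3)
    (h0 : xE P m u v w c 0 (2.04 * (P - 1 / 2 + m / 2)) ≤ 0)
    (h1 : xE P m u v w c 1 (-1.55 - 1.08 * (P - 1 / 2) + 1.01 * m) ≤ 0)
    (h2 : xE P m u v w c 1.3 (-1.6 - 1.62 * (P - 1 / 2) + 1.37 * m) ≤ 0) :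
    xE P m u v w c s (nuX P m s) ≤ 0 := by
  unfold nuX
  split_ifs with h
  · have e : xE P m u v w c s
        ((1 - s) * (2.04 * (P - 1 / 2 + m / 2)) + s * (-1.55 - 1.08 * (P - 1 / 2) + 1.01 * m)) =
        (1 - s) * xE P m u v w c 0 (2.04 * (P - 1 / 2 + m / 2)) +
        s * xE P m u v w c 1 (-1.55 - 1.08 * (P - 1 / 2) + 1.01 * m) -
        P * (1 - u) * (s * (1 - s)) := by
      unfold xE; ring
    rw [e]
    have a1 : (1 - s) * xE P m u v w c 0 (2.04 * (P - 1 / 2 + m / 2)) ≤ 0 :=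
      mul_nonpos_of_nonneg_of_nonpos (by linarith) h0
    have a2 : s * xE P m u v w c 1 (-1.55 - 1.08 * (P - 1 / 2) + 1.01 * m) ≤ 0 :=
      mul_nonpos_of_nonneg_of_nonpos hs h1
    have a3 : 0 ≤ P * (1 - u) * (s * (1 - s)) :=
      mul_nonneg (mul_nonneg hP (by linarith)) (mul_nonneg hs (by linarith))
    linarith
  · push Not at h
    have e : xE P m u v w c s
        ((1.3 - s) / 0.3 * (-1.55 - 1.08 * (P - 1 / 2) + 1.01 * m) +
          (s - 1) / 0.3 * (-1.6 - 1.62 * (P - 1 / 2) + 1.37 * m)) =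
        (1.3 - s) / 0.3 * xE P m u v w c 1 (-1.55 - 1.08 * (P - 1 / 2) + 1.01 * m) +
        (s - 1) / 0.3 * xE P m u v w c 1.3 (-1.6 - 1.62 * (P - 1 / 2) + 1.37 * m) -
        P * (1 - u) * ((s - 1) * (1.3 - s)) := by
      unfold xE; ring
    rw [e]
    have a1 : (1.3 - s) / 0.3 * xE P m u v w c 1 (-1.55 - 1.08 * (P - 1 / 2) + 1.01 * m) ≤ 0 :=
      mul_nonpos_of_nonneg_of_nonpos (div_nonneg (by linarith) (by norm_num)) h1
    have a2 : (s - 1) / 0.3 * xE P m u v w c 1.3 (-1.6 - 1.62 * (P - 1 / 2) + 1.37 * m) ≤ 0 :=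
      mul_nonpos_of_nonneg_of_nonpos (div_nonneg (by linarith) (by norm_num)) h2
    have a3 : 0 ≤ P * (1 - u) * ((s - 1) * (1.3 - s)) :=
      mul_nonneg (mul_nonneg hP (by linarith)) (mul_nonneg (by linarith) (by linarith))
    linarith

/-- an affine function on a box that is nonpositive at the corners -/
lemma x_box {C A B p m : ℝ} (hp : 0 ≤ p) (hp' : p ≤ 0.067) (hm : 0 ≤ m) (hm' : m ≤ 0.101)
    (h1 : C ≤ 0) (h2 : C + 0.067 * A ≤ 0) (h3 : C + 0.101 * B ≤ 0)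
    (h4 : C + 0.067 * A + 0.101 * B ≤ 0) : C + p * A + m * B ≤ 0 := by
  have k1 := mul_nonpos_of_nonneg_of_nonpos
    (mul_nonneg (sub_nonneg.2 hp') (sub_nonneg.2 hm')) h1
  have k2 := mul_nonpos_of_nonneg_of_nonpos (mul_nonneg hp (sub_nonneg.2 hm')) h2
  have k3 := mul_nonpos_of_nonneg_of_nonpos (mul_nonneg (sub_nonneg.2 hp') hm) h3
  have k4 := mul_nonpos_of_nonneg_of_nonpos (mul_nonneg hp hm) h4
  have e : 0.067 * 0.101 * (C + p * A + m * B) =
      (0.067 - p) * (0.101 - m) * C + p * (0.101 - m) * (C + 0.067 * A) +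
      (0.067 - p) * m * (C + 0.101 * B) + p * m * (C + 0.067 * A + 0.101 * B) := by ring
  nlinarith

lemma x_half_angle {u v : ℝ} (hu : 0 ≤ u) (hv : 0 ≤ v) (h : u ^ 2 + v ^ 2 = 1) :
    ∃ t : ℝ, 0 ≤ t ∧ t ≤ 1 ∧ u * (1 + t ^ 2) = 2 * t ∧ v * (1 + t ^ 2) = 1 - t ^ 2 := by
  have hv1 : 0 < 1 + v := by linarith
  refine ⟨u / (1 + v), by positivity, ?_, ?_, ?_⟩
  · rw [div_le_one hv1]; nlinarith
  · field_simp; nlinarith
  · field_simp; nlinarith

lemma x_node_one {u v w p m : ℝ} (hu : 0 ≤ u) (hv : 0 ≤ v) (h : u ^ 2 + v ^ 2 = 1)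
    (hw : 1.5707 * u - (2 * u * v + v) / 3 ≤ w * u) (hp : 0 ≤ p) (hp' : p ≤ 0.067) (hm : 0 ≤ m)
    (hm' : m ≤ 0.101) :
    xE (1 / 2 + p) m u v w 1.03 1 (-1.55 - 1.08 * (1 / 2 + p - 1 / 2) + 1.01 * m) ≤ 0 := by
  obtain ⟨t, ht0, ht1, hut, hvt⟩ := x_half_angle hu hv h
  have hq : 0 < 1 + t ^ 2 := by positivity
  have hu' : u = 2 * t / (1 + t ^ 2) := by rw [eq_div_iff hq.ne']; exact hut
  have hv' : v = (1 - t ^ 2) / (1 + t ^ 2) := by rw [eq_div_iff hq.ne']; exact hvt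
  set L : ℝ := 1.5707 * u - (2 * u * v + v) / 3 with hL
  have key : (1 / 2 - L + 1.05 * u - 1.03 * v) + p * (2 + u ^ 2 + 0.08 * u - 2 * v - 2 * L) +
      m * ((1 - u) ^ 2 / 2 - 0.01 * u) ≤ 0 := by
    apply x_box hp hp' hm hm'
    · have := xpoly_one_00 ht0 ht1
      have e : 1 / 2 - L + 1.05 * u - 1.03 * v = ((-59/300) + (4379/15000) * t ^ 1 + (1) * t ^ 2 +
          (-35621/15000) * t ^ 3 + (359/300) * t ^ 4) / (1 + t ^ 2) ^ 2 := by
        rw [hL, hu', hv']; field_simp; ring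
      rw [e]; exact div_nonpos_of_nonpos_of_nonneg this (by positivity)
    · have := xpoly_one_10 ht0 ht1
      have e : 1 / 2 - L + 1.05 * u - 1.03 * v + 0.067 * (2 + u ^ 2 + 0.08 * u - 2 * v - 2 * L) =
          ((-19/125) + (150931/2500000) * t ^ 1 + (192/125) * t ^ 2 + (-7409069/2500000) * t ^ 3 +
          (71/50) * t ^ 4) / (1 + t ^ 2) ^ 2 := by
        rw [hL, hu', hv']; field_simp; ring
      rw [e]; exact div_nonpos_of_nonpos_of_nonneg this (by positivity)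
    · have := xpoly_one_01 ht0 ht1
      have e : 1 / 2 - L + 1.05 * u - 1.03 * v + 0.101 * ((1 - u) ^ 2 / 2 - 0.01 * u) =
          ((-877/6000) + (13187/150000) * t ^ 1 + (1303/1000) * t ^ 2 + (-386813/150000) * t ^ 3 +
          (7483/6000) * t ^ 4) / (1 + t ^ 2) ^ 2 := by
        rw [hL, hu', hv']; field_simp; ring
      rw [e]; exact div_nonpos_of_nonpos_of_nonneg this (by positivity)
    · have := xpoly_one_11 ht0 ht1
      have e : 1 / 2 - L + 1.05 * u - 1.03 * v + 0.067 * (2 + u ^ 2 + 0.08 * u - 2 * v - 2 * L) +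
          0.101 * ((1 - u) ^ 2 / 2 - 0.01 * u) =
          ((-203/2000) + (-359119/2500000) * t ^ 1 + (1839/1000) * t ^ 2 +
          (-7919119/2500000) * t ^ 3 + (2941/2000) * t ^ 4) / (1 + t ^ 2) ^ 2 := by
        rw [hL, hu', hv']; field_simp; ring
      rw [e]; exact div_nonpos_of_nonpos_of_nonneg this (by positivity)
  have e : xE (1 / 2 + p) m u v w 1.03 1 (-1.55 - 1.08 * (1 / 2 + p - 1 / 2) + 1.01 * m) =
      ((1 / 2 - L + 1.05 * u - 1.03 * v) + p * (2 + u ^ 2 + 0.08 * u - 2 * v - 2 * L) +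
      m * ((1 - u) ^ 2 / 2 - 0.01 * u)) - (1 + 2 * p) * (w * u - L) := by
    unfold xE; ring
  rw [e]
  have := mul_nonneg (by linarith : (0 : ℝ) ≤ 1 + 2 * p) (sub_nonneg.2 hw)
  linarith

lemma x_node_two {u v w p m : ℝ} (hu : 0 ≤ u) (hv : 0 ≤ v) (h : u ^ 2 + v ^ 2 = 1)
    (hw : 3 * u ≤ w * (2 + v)) (hp : 0 ≤ p) (hp' : p ≤ 0.067) (hm : 0 ≤ m)
    (hm' : m ≤ 0.101) :
    xE (1 / 2 + p) m u v w 1.03 1.3 (-1.6 - 1.62 * (1 / 2 + p - 1 / 2) + 1.37 * m) ≤ 0 := by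
  obtain ⟨t, ht0, ht1, hut, hvt⟩ := x_half_angle hu hv h
  have hq : 0 < 1 + t ^ 2 := by positivity
  have hu' : u = 2 * t / (1 + t ^ 2) := by rw [eq_div_iff hq.ne']; exact hut
  have hv' : v = (1 - t ^ 2) / (1 + t ^ 2) := by rw [eq_div_iff hq.ne']; exact hvt
  have h2v : 0 < 2 + v := by linarith
  have key : ((2 + v) * (0.845 + 0.755 * u - 1.03 * v) - 3.9 * u ^ 2) +
      p * ((2 + v) * (2.69 + u ^ 2 - 0.07 * u - 2.6 * v) - 7.8 * u ^ 2) +
      m * ((2 + v) * ((1 + u ^ 2) / 2 - 1.37 * u)) ≤ 0 := by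
    apply x_box hp hp' hm hm'
    · have := xpoly_two_00 ht0 ht1
      have e : (2 + v) * (0.845 + 0.755 * u - 1.03 * v) - 3.9 * u ^ 2 =
          ((-111/200) + (453/100) * t ^ 1 + (-2143/200) * t ^ 2 + (151/25) * t ^ 3 + (-1657/200) * t ^ 4 + (151/100) * t ^ 5 + (15/8) * t ^ 6) / (1 + t ^ 2) ^ 3 := by
        rw [hu', hv']; field_simp; ring
      rw [e]; exact div_nonpos_of_nonpos_of_nonneg this (by positivity)
    · have := xpoly_two_10 ht0 ht1
      have e : (2 + v) * (0.845 + 0.755 * u - 1.03 * v) - 3.9 * u ^ 2 +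
          0.067 * ((2 + v) * (2.69 + u ^ 2 - 0.07 * u - 2.6 * v) - 7.8 * u ^ 2) =
          ((-53691/100000) + (225093/50000) * t ^ 1 + (-1091399/100000) * t ^ 2 + (75031/12500) * t ^ 3 + (-173673/20000) * t ^ 4 + (75031/50000) * t ^ 5 + (222943/100000) * t ^ 6) / (1 + t ^ 2) ^ 3 := by
        rw [hu', hv']; field_simp; ring
      rw [e]; exact div_nonpos_of_nonpos_of_nonneg this (by positivity)
    · have := xpoly_two_01 ht0 ht1
      have e : (2 + v) * (0.845 + 0.755 * u - 1.03 * v) - 3.9 * u ^ 2 +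
          0.101 * ((2 + v) * ((1 + u ^ 2) / 2 - 1.37 * u)) =
          ((-807/2000) + (184989/50000) * t ^ 1 + (-19511/2000) * t ^ 2 + (61663/12500) * t ^ 3 + (-15661/2000) * t ^ 4 + (61663/50000) * t ^ 5 + (3851/2000) * t ^ 6) / (1 + t ^ 2) ^ 3 := by
        rw [hu', hv']; field_simp; ring
      rw [e]; exact div_nonpos_of_nonpos_of_nonneg this (by positivity)
    · have := xpoly_two_11 ht0 ht1
      have e : (2 + v) * (0.845 + 0.755 * u - 1.03 * v) - 3.9 * u ^ 2 +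
          0.067 * ((2 + v) * (2.69 + u ^ 2 - 0.07 * u - 2.6 * v) - 7.8 * u ^ 2) +
          0.101 * ((2 + v) * ((1 + u ^ 2) / 2 - 1.37 * u)) =
          ((-38541/100000) + (91791/25000) * t ^ 1 + (-995449/100000) * t ^ 2 + (30597/6250) * t ^ 3 + (-164583/20000) * t ^ 4 + (30597/25000) * t ^ 5 + (227993/100000) * t ^ 6) / (1 + t ^ 2) ^ 3 := by
        rw [hu', hv']; field_simp; ring
      rw [e]; exact div_nonpos_of_nonpos_of_nonneg this (by positivity)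
  have e : (2 + v) *
      xE (1 / 2 + p) m u v w 1.03 1.3 (-1.6 - 1.62 * (1 / 2 + p - 1 / 2) + 1.37 * m) =
      (((2 + v) * (0.845 + 0.755 * u - 1.03 * v) - 3.9 * u ^ 2) +
      p * ((2 + v) * (2.69 + u ^ 2 - 0.07 * u - 2.6 * v) - 7.8 * u ^ 2) +
      m * ((2 + v) * ((1 + u ^ 2) / 2 - 1.37 * u))) -
      (1.3 * (1 + 2 * p) * u) * (w * (2 + v) - 3 * u) := by
    unfold xE; ring
  have := mul_nonneg (mul_nonneg (by linarith : (0 : ℝ) ≤ 1.3 * (1 + 2 * p)) hu) (sub_nonneg.2 hw)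
  have h3 : (2 + v) *
      xE (1 / 2 + p) m u v w 1.03 1.3 (-1.6 - 1.62 * (1 / 2 + p - 1 / 2) + 1.37 * m) ≤ 0 := by
    rw [e]; linarith
  exact nonpos_of_mul_nonpos_right h3 h2v

theorem X_point_asc {P m ω s : ℝ} (hP : 1 / 2 ≤ P) (hP' : P ≤ 0.567) (hm : 0 ≤ m) (hm' : m ≤ 0.101)
    (hω : 0 ≤ ω) (hω' : ω ≤ Real.pi / 2) (hs : 0 ≤ s) (hs' : s ≤ 1.3) :
    P * s ^ 2 - (2 * P - 1) * s * Real.cos ω - 2 * P * s * ω * Real.sin ω +
      (P - 1 / 2 + m / 2) * (1 + Real.sin ω ^ 2) ≤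
    (P * s ^ 2 + nuX P m s) * Real.sin ω + 1.03 * Real.cos ω := by
  have hu : 0 ≤ Real.sin ω := Real.sin_nonneg_of_nonneg_of_le_pi hω (by linarith [Real.pi_pos])
  have hu1 := Real.sin_le_one ω
  have hv : 0 ≤ Real.cos ω := Real.cos_nonneg_of_neg_pi_div_two_le_of_le (by linarith [Real.pi_pos]) hω'
  have h1 := Real.sin_sq_add_cos_sq ω
  have c1 := x_cusa hω
  have c2 := x_huygens (x := Real.pi / 2 - ω) (by linarith) (by linarith)
  rw [Real.cos_pi_div_two_sub, Real.sin_pi_div_two_sub] at c2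
  have hpi := Real.pi_gt_d4
  have c3 : 1.5707 * Real.sin ω - (2 * Real.sin ω * Real.cos ω + Real.cos ω) / 3 ≤
      ω * Real.sin ω := by
    have : 1.5707 * Real.sin ω ≤ Real.pi / 2 * Real.sin ω :=
      mul_le_mul_of_nonneg_right (by linarith) hu
    linarith
  obtain ⟨p, rfl⟩ : ∃ p, P = 1 / 2 + p := ⟨P - 1 / 2, by ring⟩
  have hp : 0 ≤ p := by linarith
  have hp' : p ≤ 0.067 := by linarith
  have k := xE_le (P := 1 / 2 + p) (m := m) (u := Real.sin ω) (v := Real.cos ω) (w := ω) (c := 1.03)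
    (s := s) (by linarith) hu1 hs hs' ?_
    (x_node_one hu hv h1 c3 hp hp' hm hm') (x_node_two hu hv h1 c1 hp hp' hm hm')
  · unfold xE at k; linarith
  · unfold xE
    have hκ : 0 ≤ 1 / 2 + p - 1 / 2 + m / 2 := by linarith
    have hκ' : 1 / 2 + p - 1 / 2 + m / 2 ≤ 1 := by linarith
    nlinarith [mul_nonneg hκ hu, mul_nonneg (sub_nonneg.2 hκ') (sq_nonneg (1 - Real.sin ω)),
      mul_nonneg hu (sub_nonneg.2 hu1), mul_nonneg hv hu, sq_nonneg (Real.cos ω - 1 + Real.sin ω)]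

theorem X_point_desc {P m ω s : ℝ} (hP : 1 / 2 ≤ P) (hP' : P ≤ 0.567) (hm : 0 ≤ m)
    (hm' : m ≤ 0.101) (hω : Real.pi / 2 ≤ ω) (hω' : ω ≤ Real.pi)
    (hslope : -Real.cos ω ≤ 0.67 * Real.sin ω) (hs : 0 ≤ s) (hs' : s ≤ 1.3) :
    P * s ^ 2 - (2 * P - 1) * s * Real.cos ω - 2 * P * s * ω * Real.sin ω +
      (P - 1 / 2 + m / 2) * (1 + Real.sin ω ^ 2) ≤ (P * s ^ 2 + nuX P m s) * Real.sin ω := by
  have hu : 0 ≤ Real.sin ω := Real.sin_nonneg_of_nonneg_of_le_pi (by linarith [Real.pi_pos]) hω'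
  have hu1 := Real.sin_le_one ω
  have hv : Real.cos ω ≤ 0 := Real.cos_nonpos_of_pi_div_two_le_of_le hω (by linarith [Real.pi_pos])
  have h1 := Real.sin_sq_add_cos_sq ω
  obtain ⟨y, hy⟩ : ∃ y, Real.cos ω = -y := ⟨-Real.cos ω, by ring⟩
  have hxy : y ≤ ω - Real.pi / 2 := by
    have := Real.sin_le (x := ω - Real.pi / 2) (by linarith)
    rw [Real.sin_sub_pi_div_two, hy] at this
    linarith
  rw [hy] at hslope hv h1
  rw [hy]
  set u := Real.sin ω with hudef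
  have hy0 : 0 ≤ y := by linarith
  have hyu : y ≤ 0.67 * u := by linarith
  have hpi := Real.pi_gt_d4
  have hu2 : 0.83 ≤ u := by nlinarith
  have hy2 : y ≤ 0.56 := by nlinarith
  have hu3 : 1 - y ^ 2 ≤ u := by nlinarith
  have hu4 : y * (1 - y ^ 2) ≤ y * u := mul_le_mul_of_nonneg_left hu3 hy0
  have hwu : (1.5707 + y) * u ≤ ω * u := mul_le_mul_of_nonneg_right (by linarith) hu
  obtain ⟨p, rfl⟩ : ∃ p, P = 1 / 2 + p := ⟨P - 1 / 2, by ring⟩
  have hp : 0 ≤ p := by linarith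
  have hp' : p ≤ 0.067 := by linarith
  have k := xE_le (P := 1 / 2 + p) (m := m) (u := u) (v := -y) (w := ω) (c := 0)
    (s := s) (by linarith) hu1 hs hs' ?_ ?_ ?_
  · unfold xE at k; linarith
  · unfold xE
    have hκ : 0 ≤ 1 / 2 + p - 1 / 2 + m / 2 := by linarith
    have h5 : 1 + u ^ 2 - 2.04 * u ≤ 0 := by nlinarith
    nlinarith [mul_nonneg hκ (neg_nonneg.2 h5)]
  · set L : ℝ := (1.5707 + y) * u with hL
    have key : (1 / 2 - L + 1.05 * u) + p * (2 + u ^ 2 + 0.08 * u + 2 * y - 2 * L) +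
        m * ((1 - u) ^ 2 / 2 - 0.01 * u) ≤ 0 := by
      apply x_box hp hp' hm hm'
      · rw [hL]; nlinarith
      · rw [hL]; nlinarith
      · rw [hL]; nlinarith
      · rw [hL]; nlinarith
    have e : xE (1 / 2 + p) m u (-y) ω 0 1 (-1.55 - 1.08 * (1 / 2 + p - 1 / 2) + 1.01 * m) =
        ((1 / 2 - L + 1.05 * u) + p * (2 + u ^ 2 + 0.08 * u + 2 * y - 2 * L) +
        m * ((1 - u) ^ 2 / 2 - 0.01 * u)) - (1 + 2 * p) * (ω * u - L) := by
      unfold xE; ring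
    rw [e]
    have := mul_nonneg (by linarith : (0 : ℝ) ≤ 1 + 2 * p) (sub_nonneg.2 hwu)
    linarith
  · set L : ℝ := (1.5707 + y) * u with hL
    have key : (0.845 - 1.3 * L + 0.755 * u) +
        p * (2.69 + u ^ 2 - 0.07 * u + 2.6 * y - 2.6 * L) +
        m * ((1 + u ^ 2) / 2 - 1.37 * u) ≤ 0 := by
      apply x_box hp hp' hm hm'
      · rw [hL]; nlinarith
      · rw [hL]; nlinarith
      · rw [hL]; nlinarith
      · rw [hL]; nlinarith
    have e : xE (1 / 2 + p) m u (-y) ω 0 1.3 (-1.6 - 1.62 * (1 / 2 + p - 1 / 2) + 1.37 * m) =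
        ((0.845 - 1.3 * L + 0.755 * u) + p * (2.69 + u ^ 2 - 0.07 * u + 2.6 * y - 2.6 * L) +
        m * ((1 + u ^ 2) / 2 - 1.37 * u)) - (1.3 * (1 + 2 * p)) * (ω * u - L) := by
      unfold xE; ring
    rw [e]
    have := mul_nonneg (by linarith : (0 : ℝ) ≤ 1.3 * (1 + 2 * p)) (sub_nonneg.2 hwu)
    linarith

end Pool.Agent.RC
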