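import Pool.Agent.H.MP_1b807b_an.C.PhX
import Pool.Agent.H.MP_1b807b_an.C.XPoint

/-! MP_1b807b_an, convex planar domains, module XHalf: the tip functional along one side -/

set_option autoImplicit false

namespace Pool.Agent.RC

open MeasureTheory Metric Set

theorem xh_continuous_PhX (k : ℝ) : Continuous (PhX k) := by
  have h0 : Continuous I0 := Pool.Agent.H.MP_1b807b_an.continuous_V 1
  have h1 : Continuous I1 := Pool.Agent.H.MP_1b807b_an.continuous_W 1
  unfold PhX
  fun_prop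

theorem xh_PhX_nonneg (k t : ℝ) : 0 ≤ PhX k t := by
  unfold PhX
  positivity

theorem xh_P3_nonneg (k : ℝ) : 0 ≤ P3 k := by
  unfold P3
  refine intervalIntegral.integral_nonneg (by norm_num) fun t ht => ?_
  have := xh_PhX_nonneg k t
  have := ht.1
  positivity

theorem xh_P2_nonneg (k : ℝ) : 0 ≤ P2 k := by
  unfold P2
  refine intervalIntegral.integral_nonneg (by norm_num) fun t ht => ?_
  have := xh_PhX_nonneg k t
  positivity

/-- the moments of the truncation-free integrand -/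
theorem xh_tip_moments {k s c r : ℝ} (hk : 0 < k) :
    ∫ t in (0 : ℝ)..1, PhX k t * (s - t * c) ^ 2 * (r - t) =
      r * ((k * GG k + P1 k) * s ^ 2 - 2 * P1 k * s * c + P2 k * c ^ 2) -
        (P1 k * s ^ 2 - 2 * P2 k * s * c + P3 k * c ^ 2) := by
  have hc := xh_continuous_PhX k
  have e : ∀ t : ℝ, PhX k t * (s - t * c) ^ 2 * (r - t) =
      (((r * s ^ 2) * PhX k t + (-(2 * r * s * c) - s ^ 2) * (t * PhX k t)) +
        (r * c ^ 2 + 2 * s * c) * (t ^ 2 * PhX k t)) + (-(c ^ 2)) * (t ^ 3 * PhX k t) := by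
    intro t; ring
  simp only [e]
  have i0 : IntervalIntegrable (fun t => (r * s ^ 2) * PhX k t) volume 0 1 :=
    (by fun_prop : Continuous fun t => (r * s ^ 2) * PhX k t).intervalIntegrable _ _
  have i1 : IntervalIntegrable (fun t => (-(2 * r * s * c) - s ^ 2) * (t * PhX k t)) volume 0 1 :=
    (by fun_prop : Continuous fun t => (-(2 * r * s * c) - s ^ 2) * (t * PhX k t)).intervalIntegrable
      _ _
  have i2 : IntervalIntegrable (fun t => (r * c ^ 2 + 2 * s * c) * (t ^ 2 * PhX k t)) volume 0 1 :=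
    (by fun_prop : Continuous fun t => (r * c ^ 2 + 2 * s * c) *
      (t ^ 2 * PhX k t)).intervalIntegrable _ _
  have i3 : IntervalIntegrable (fun t => (-(c ^ 2)) * (t ^ 3 * PhX k t)) volume 0 1 :=
    (by fun_prop : Continuous fun t => (-(c ^ 2)) * (t ^ 3 * PhX k t)).intervalIntegrable _ _
  rw [intervalIntegral.integral_add ((i0.add i1).add i2) i3,
    intervalIntegral.integral_add (i0.add i1) i2, intervalIntegral.integral_add i0 i1,
    intervalIntegral.integral_const_mul, intervalIntegral.integral_const_mul,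
    intervalIntegral.integral_const_mul, intervalIntegral.integral_const_mul, PhX_zero hk]
  have e1 : ∫ t in (0 : ℝ)..1, t * PhX k t = P1 k := rfl
  have e2 : ∫ t in (0 : ℝ)..1, t ^ 2 * PhX k t = P2 k := rfl
  have e3 : ∫ t in (0 : ℝ)..1, t ^ 3 * PhX k t = P3 k := rfl
  rw [e1, e2, e3]
  ring

theorem tipI_le {k s ω r : ℝ} (hk : 0 < k) (hs : 0 ≤ s) (hr : 0 ≤ r) :
    tipI k s ω r ≤ r * (P1 k * s ^ 2 - (2 * P1 k - 1) * s * Real.cos ω + P2 k * Real.cos ω ^ 2) -
      (P1 k * s ^ 2 - 2 * P2 k * s * Real.cos ω) := by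
  have hc := xh_continuous_PhX k
  set c := Real.cos ω with hcdef
  have key : ∫ t in (0 : ℝ)..1, PhX k t * (max (s - t * c) 0) ^ 2 * (r - t) ≤
      r * ((k * GG k + P1 k) * s ^ 2 - 2 * P1 k * s * c + P2 k * c ^ 2) -
        (P1 k * s ^ 2 - 2 * P2 k * s * c) := by
    rcases le_total 0 c with h0 | h0
    · have h1 : ∫ t in (0 : ℝ)..1, PhX k t * (max (s - t * c) 0) ^ 2 * (r - t) ≤
          ∫ t in (0 : ℝ)..1, (PhX k t * (s - t * c) ^ 2 * (r - t) + c ^ 2 * (t ^ 3 * PhX k t)) := by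
        refine intervalIntegral.integral_mono_on (by norm_num)
          ((by fun_prop : Continuous fun t => PhX k t * (max (s - t * c) 0) ^ 2 *
            (r - t)).intervalIntegrable _ _)
          ((by fun_prop : Continuous fun t => (PhX k t * (s - t * c) ^ 2 * (r - t) +
            c ^ 2 * (t ^ 3 * PhX k t))).intervalIntegrable _ _) fun t ht => ?_
        have hΦ := xh_PhX_nonneg k t
        have ht0 := ht.1
        rcases le_total 0 (s - t * c) with h | h
        · rw [max_eq_left h]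
          have : 0 ≤ c ^ 2 * (t ^ 3 * PhX k t) := by positivity
          linarith
        · rw [max_eq_right h]
          have h2 : (s - t * c) ^ 2 ≤ (t * c) ^ 2 := by nlinarith
          have h3 : 0 ≤ PhX k t * (s - t * c) ^ 2 * r := by positivity
          have h4 : PhX k t * t * (s - t * c) ^ 2 ≤ PhX k t * t * (t * c) ^ 2 :=
            mul_le_mul_of_nonneg_left h2 (by positivity)
          nlinarith
      have h2 : ∫ t in (0 : ℝ)..1, (PhX k t * (s - t * c) ^ 2 * (r - t) +
          c ^ 2 * (t ^ 3 * PhX k t)) = (∫ t in (0 : ℝ)..1, PhX k t * (s - t * c) ^ 2 * (r - t)) +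
            c ^ 2 * P3 k := by
        rw [intervalIntegral.integral_add
          ((by fun_prop : Continuous fun t => PhX k t * (s - t * c) ^ 2 *
            (r - t)).intervalIntegrable _ _)
          ((by fun_prop : Continuous fun t => c ^ 2 * (t ^ 3 * PhX k t)).intervalIntegrable _ _),
          intervalIntegral.integral_const_mul]
        rfl
      rw [h2, xh_tip_moments hk] at h1
      linarith
    · have h1 : ∫ t in (0 : ℝ)..1, PhX k t * (max (s - t * c) 0) ^ 2 * (r - t) =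
          ∫ t in (0 : ℝ)..1, PhX k t * (s - t * c) ^ 2 * (r - t) := by
        refine intervalIntegral.integral_congr fun t ht => ?_
        rw [uIcc_of_le (by norm_num : (0:ℝ) ≤ 1)] at ht
        have : 0 ≤ s - t * c := by nlinarith [ht.1]
        simp only [max_eq_left this]
      rw [h1, xh_tip_moments hk]
      have := xh_P3_nonneg k
      have : 0 ≤ P3 k * c ^ 2 := by positivity
      linarith
  unfold tipI
  rw [max_eq_left hs, ← hcdef]
  linarith

theorem xh_tipI_le_neg {k s ω r : ℝ} (hs : s ≤ 0) (hr : 0 ≤ r) :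
    tipI k s ω r ≤ r * P2 k * (max (s - Real.cos ω) 0) ^ 2 := by
  have hc := xh_continuous_PhX k
  set c := Real.cos ω with hcdef
  set y := max (s - c) 0 with hy
  have hy0 : 0 ≤ y := le_max_right _ _
  have h1 : ∫ t in (0 : ℝ)..1, PhX k t * (max (s - t * c) 0) ^ 2 * (r - t) ≤
      ∫ t in (0 : ℝ)..1, (r * y ^ 2) * (t ^ 2 * PhX k t) := by
    refine intervalIntegral.integral_mono_on (by norm_num)
      ((by fun_prop : Continuous fun t => PhX k t * (max (s - t * c) 0) ^ 2 *
        (r - t)).intervalIntegrable _ _)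
      ((by fun_prop : Continuous fun t => (r * y ^ 2) * (t ^ 2 * PhX k t)).intervalIntegrable _ _)
      fun t ht => ?_
    have hΦ := xh_PhX_nonneg k t
    have ht0 := ht.1
    have ht1 := ht.2
    have h2 : max (s - t * c) 0 ≤ t * y := by
      refine max_le ?_ (by positivity)
      have : s - c ≤ y := le_max_left _ _
      nlinarith
    have h20 : 0 ≤ max (s - t * c) 0 := le_max_right _ _
    have h3 : (max (s - t * c) 0) ^ 2 ≤ (t * y) ^ 2 := pow_le_pow_left₀ h20 h2 2
    calc PhX k t * (max (s - t * c) 0) ^ 2 * (r - t) ≤ PhX k t * (max (s - t * c) 0) ^ 2 * r :=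
          mul_le_mul_of_nonneg_left (by linarith) (by positivity)
      _ ≤ PhX k t * (t * y) ^ 2 * r := by gcongr
      _ = (r * y ^ 2) * (t ^ 2 * PhX k t) := by ring
  rw [intervalIntegral.integral_const_mul] at h1
  have e2 : ∫ t in (0 : ℝ)..1, t ^ 2 * PhX k t = P2 k := rfl
  rw [e2] at h1
  unfold tipI
  rw [max_eq_right hs, ← hcdef]
  nlinarith

/-! ## continuity of the integrand -/

theorem xh_continuous_GGI {k : ℝ} {s ρ : ℝ → ℝ} (hs : Continuous s) (hc : Continuous ρ) :
    Continuous fun ω => tipI k (s ω) ω (ρ ω) := by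
  have hΦ := xh_continuous_PhX k
  unfold tipI
  have h1 : Continuous fun ω => ∫ t in (0 : ℝ)..1,
      PhX k t * (max (s ω - t * Real.cos ω) 0) ^ 2 * (ρ ω - t) := by
    apply intervalIntegral.continuous_parametric_intervalIntegral_of_continuous'
    show Continuous fun x : ℝ × ℝ => PhX k x.2 * (max (s x.1 - x.2 * Real.cos x.1) 0) ^ 2 *
      (ρ x.1 - x.2)
    fun_prop
  fun_prop

/-! ## the node function -/

theorem xh_continuous_nuX (P m : ℝ) : Continuous (nuX P m) := by
  unfold nuX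
  refine Continuous.if_le (by fun_prop) (by fun_prop) continuous_id continuous_const ?_
  intro x hx
  subst hx
  norm_num

theorem xh_integral_congr_uIoc {f g : ℝ → ℝ} {a b : ℝ} (h : ∀ x ∈ uIoc a b, f x = g x) :
    ∫ x in a..b, f x = ∫ x in a..b, g x :=
  intervalIntegral.integral_congr_ae (Filter.Eventually.of_forall h)

theorem xh_integral_lin (α β a b : ℝ) :
    ∫ x in a..b, (α + β * x) = α * (b - a) + β * ((b ^ 2 - a ^ 2) / 2) := by
  rw [intervalIntegral.integral_add (by simp)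
    ((by fun_prop : Continuous fun x : ℝ => β * x).intervalIntegrable _ _),
    intervalIntegral.integral_const_mul, integral_id, intervalIntegral.integral_const]
  simp only [smul_eq_mul]
  ring

theorem xh_integral_nuX (P m : ℝ) : ∫ x in (0 : ℝ)..1.3, nuX P m x =
    (2.04 * (P - 1 / 2 + m / 2) + (-1.55 - 1.08 * (P - 1 / 2) + 1.01 * m)) / 2 +
    0.15 * ((-1.55 - 1.08 * (P - 1 / 2) + 1.01 * m) + (-1.6 - 1.62 * (P - 1 / 2) + 1.37 * m)) := by
  have hc := xh_continuous_nuX P m
  rw [← intervalIntegral.integral_add_adjacent_intervals (hc.intervalIntegrable 0 1)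
    (hc.intervalIntegrable 1 1.3)]
  set n0 := 2.04 * (P - 1 / 2 + m / 2) with hn0
  set n1 := -1.55 - 1.08 * (P - 1 / 2) + 1.01 * m with hn1
  set n2 := -1.6 - 1.62 * (P - 1 / 2) + 1.37 * m with hn2
  have e1 : ∫ x in (0 : ℝ)..1, nuX P m x = (n0 + n1) / 2 := by
    have : ∫ x in (0 : ℝ)..1, nuX P m x = ∫ x in (0 : ℝ)..1, (n0 + (n1 - n0) * x) := by
      refine intervalIntegral.integral_congr fun x hx => ?_
      rw [uIcc_of_le (by norm_num : (0:ℝ) ≤ 1)] at hx
      unfold nuX
      simp only [if_pos hx.2]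
      rw [← hn0, ← hn1]
      ring
    rw [this, xh_integral_lin]
    ring
  have e2 : ∫ x in (1 : ℝ)..1.3, nuX P m x = 0.15 * (n1 + n2) := by
    have : ∫ x in (1 : ℝ)..1.3, nuX P m x =
        ∫ x in (1 : ℝ)..1.3, ((1.3 * n1 - n2) / 0.3 + (n2 - n1) / 0.3 * x) := by
      refine intervalIntegral.integral_congr fun x hx => ?_
      rw [uIcc_of_le (by norm_num : (1:ℝ) ≤ 1.3)] at hx
      unfold nuX
      rcases eq_or_lt_of_le hx.1 with h | h
      · subst h
        simp only [le_refl, if_true]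
        rw [← hn0, ← hn1]
        ring
      · simp only [if_neg (not_le.2 h)]
        rw [← hn1, ← hn2]
        ring
    rw [this, xh_integral_lin]
    ring
  rw [e1, e2]

theorem xh_integral_tail {D : ℝ} (hD : 3.79 ≤ D) :
    ∫ x in (1.3 - D)..0, (max (x + 0.68) 0) ^ 2 = 0.68 ^ 3 / 3 := by
  have hc : Continuous fun x : ℝ => (max (x + 0.68) 0) ^ 2 := by fun_prop
  rw [← intervalIntegral.integral_add_adjacent_intervals (hc.intervalIntegrable _ (-0.68))
    (hc.intervalIntegrable (-0.68) _)]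
  have e1 : ∫ x in (1.3 - D)..(-0.68), (max (x + 0.68) 0) ^ 2 = 0 := by
    have : ∫ x in (1.3 - D)..(-0.68), (max (x + 0.68) 0) ^ 2 =
        ∫ x in (1.3 - D)..(-0.68), (0 : ℝ) := by
      refine intervalIntegral.integral_congr fun x hx => ?_
      rw [uIcc_of_le (by linarith : 1.3 - D ≤ -0.68)] at hx
      have : x + 0.68 ≤ 0 := by linarith [hx.2]
      simp only [max_eq_right this]
      norm_num
    rw [this]; simp
  have e2 : ∫ x in (-0.68 : ℝ)..0, (max (x + 0.68) 0) ^ 2 = 0.68 ^ 3 / 3 := by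
    have : ∫ x in (-0.68 : ℝ)..0, (max (x + 0.68) 0) ^ 2 =
        ∫ x in (-0.68 : ℝ)..0, (x + 0.68) ^ 2 := by
      refine intervalIntegral.integral_congr fun x hx => ?_
      rw [uIcc_of_le (by norm_num : (-0.68:ℝ) ≤ 0)] at hx
      have : 0 ≤ x + 0.68 := by linarith [hx.1]
      simp only [max_eq_left this]
    rw [this, intervalIntegral.integral_comp_add_right (fun x => x ^ 2), integral_pow]
    norm_num
  rw [e1, e2, zero_add]

/-- the pointwise bound where `s ≤ 0` -/
theorem xh_neg_point {D ω s : ℝ} (hD : 3.79 ≤ D) (h0 : 0 ≤ Real.sin ω) (hs : s ≤ 0)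
    (hslope : Real.cos ω ≤ 0 → -1 ≤ s →
      -Real.cos ω * (D - 1.3 + s) ≤ 2 * Real.pi / D * Real.sin ω) :
    (max (s - Real.cos ω) 0) ^ 2 ≤ Real.sin ω / 0.73 * (max (s + 0.68) 0) ^ 2 := by
  rcases le_or_gt (s - Real.cos ω) 0 with h | h
  · rw [max_eq_right h]
    have : 0 ≤ Real.sin ω / 0.73 * (max (s + 0.68) 0) ^ 2 := by positivity
    simpa using this
  · have hcn : Real.cos ω < 0 := by linarith
    have hc1 := Real.neg_one_le_cos ω
    have hsl := hslope hcn.le (by linarith)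
    have hsc := Real.sin_sq_add_cos_sq ω
    set S := Real.sin ω with hS
    set u := -Real.cos ω with hu
    have hu0 : 0 < u := by rw [hu]; linarith
    have hu1 : u ≤ 1 := by rw [hu]; linarith
    have hsc' : S ^ 2 + u ^ 2 = 1 := by rw [hu]; nlinarith
    have hpi : 2 * Real.pi / D ≤ 1.658 := by
      rw [div_le_iff₀ (by linarith)]
      have := Real.pi_lt_d4
      nlinarith
    have h1 : u * (2.49 - u) ≤ 1.658 * S := by
      have h2 : u * (2.49 - u) ≤ u * (D - 1.3 + s) := by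
        apply mul_le_mul_of_nonneg_left _ hu0.le
        rw [hu]; linarith
      have h3 : 2 * Real.pi / D * S ≤ 1.658 * S := mul_le_mul_of_nonneg_right hpi h0
      linarith
    have hu68 : u ≤ 0.68 := by
      by_contra hcon
      push Not at hcon
      have h2 : 0.68 * 1.81 ≤ u * (2.49 - u) := by nlinarith
      have h3 : 0.68 * 1.81 ≤ 1.658 * S := by linarith
      have h4 : S ^ 2 ≤ 0.5376 := by nlinarith
      nlinarith
    have hS73 : 0.73 ≤ S := by
      by_contra hcon
      push Not at hcon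
      nlinarith
    rw [max_eq_left h.le]
    have h5 : s - Real.cos ω ≤ max (s + 0.68) 0 := by
      refine le_trans ?_ (le_max_left _ _)
      linarith
    have h6 : (s - Real.cos ω) ^ 2 ≤ (max (s + 0.68) 0) ^ 2 := pow_le_pow_left₀ h.le h5 2
    have h7 : 1 ≤ S / 0.73 := by rw [le_div_iff₀ (by norm_num)]; linarith
    calc (s - Real.cos ω) ^ 2 ≤ 1 * (max (s + 0.68) 0) ^ 2 := by rw [one_mul]; exact h6
      _ ≤ S / 0.73 * (max (s + 0.68) 0) ^ 2 := mul_le_mul_of_nonneg_right h7 (by positivity)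

theorem X_half {k D : ℝ} (hk : 28 / 5 ≤ k) (hD : 3.79 ≤ D) {s ρ : ℝ → ℝ}
    (hs : ∀ ω, HasDerivAt s (-(ρ ω * Real.sin ω)) ω) (hc : Continuous ρ) (hρ : ∀ ω, 0 < ρ ω)
    (s0 : s 0 = 1.3) (sπ : s Real.pi = 1.3 - D)
    (hslope : ∀ ω ∈ Icc (Real.pi / 2) Real.pi, -1 ≤ s ω →
      -Real.cos ω * (D - 1.3 + s ω) ≤ 2 * Real.pi / D * Real.sin ω) :
    ∫ ω in (0 : ℝ)..Real.pi, tipI k (s ω) ω (ρ ω) ≤
      -0.67 + 1.03 * ∫ ω in (0 : ℝ)..Real.pi / 2, if 0 ≤ s ω then ρ ω * Real.cos ω else 0 := by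
  have hk0 : 0 < k := by linarith
  have hpi := Real.pi_pos
  obtain ⟨hP, hP', hm, hm', -, -⟩ := P_num hk
  have hP2 := P2_eq hk0
  set P := P1 k with hPdef
  set m := m2 k with hmdef
  have hP20 : 0 ≤ P2 k := xh_P2_nonneg k
  have hsc : Continuous s := continuous_iff_continuousAt.2 fun x => (hs x).continuousAt
  have hanti : StrictAntiOn s (Icc 0 Real.pi) := by
    refine strictAntiOn_of_deriv_neg (convex_Icc 0 Real.pi) hsc.continuousOn fun x hx => ?_
    rw [interior_Icc] at hx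
    rw [(hs x).deriv]
    have := mul_pos (hρ x) (Real.sin_pos_of_pos_of_lt_pi hx.1 hx.2)
    linarith
  obtain ⟨z, hz, hsz⟩ : ∃ z ∈ Icc (0 : ℝ) Real.pi, s z = 0 := by
    have := intermediate_value_Icc' hpi.le hsc.continuousOn
    exact this ⟨by rw [sπ]; linarith, by rw [s0]; norm_num⟩
  have hge : ∀ ω ∈ Icc 0 z, 0 ≤ s ω := fun ω hω => by
    rw [← hsz]
    exact hanti.antitoneOn ⟨hω.1, hω.2.trans hz.2⟩ hz hω.2
  have hle13 : ∀ ω ∈ Icc 0 z, s ω ≤ 1.3 := fun ω hω => by
    rw [← s0]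
    exact hanti.antitoneOn ⟨le_refl _, hpi.le⟩ ⟨hω.1, hω.2.trans hz.2⟩ hω.1
  have hlt : ∀ ω, z < ω → ω ≤ Real.pi → s ω < 0 := fun ω h1 h2 => by
    rw [← hsz]
    exact hanti hz ⟨hz.1.trans h1.le, h2⟩ h1
  have hle0 : ∀ ω ∈ Icc z Real.pi, s ω ≤ 0 := fun ω hω => by
    rw [← hsz]
    exact hanti.antitoneOn hz ⟨hz.1.trans hω.1, hω.2⟩ hω.1
  have hsin : ∀ ω ∈ Icc (0 : ℝ) Real.pi, 0 ≤ Real.sin ω := fun ω hω =>
    Real.sin_nonneg_of_nonneg_of_le_pi hω.1 hω.2
  have hT := xh_continuous_GGI (k := k) hsc hc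
  have hnu := xh_continuous_nuX P m
  -- part (a)
  have hA : ∫ ω in (0 : ℝ)..z, tipI k (s ω) ω (ρ ω) ≤
      ∫ ω in (0 : ℝ)..z, (ρ ω * (P * s ω ^ 2 - (2 * P - 1) * s ω * Real.cos ω +
        P2 k * Real.cos ω ^ 2) - (P * s ω ^ 2 - 2 * P2 k * s ω * Real.cos ω)) := by
    refine intervalIntegral.integral_mono_on hz.1 (hT.intervalIntegrable _ _)
      ((by fun_prop : Continuous fun ω => (ρ ω * (P * s ω ^ 2 - (2 * P - 1) * s ω * Real.cos ω +
        P2 k * Real.cos ω ^ 2) - (P * s ω ^ 2 - 2 * P2 k * s ω * Real.cos ω))).intervalIntegrable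
        _ _) fun ω hω => ?_
    exact tipI_le hk0 (hge ω hω) (hρ ω).le
  have hAB : ∫ ω in (0 : ℝ)..z, (ρ ω * (P * s ω ^ 2 - (2 * P - 1) * s ω * Real.cos ω +
        P2 k * Real.cos ω ^ 2) - (P * s ω ^ 2 - 2 * P2 k * s ω * Real.cos ω)) =
      ∫ ω in (0 : ℝ)..z, ρ ω * (P * s ω ^ 2 - (2 * P - 1) * s ω * Real.cos ω -
        2 * P * s ω * ω * Real.sin ω + P2 k * (1 + Real.sin ω ^ 2)) := by
    rw [← sub_eq_zero, ← intervalIntegral.integral_sub
      ((by fun_prop : Continuous fun ω => (ρ ω * (P * s ω ^ 2 - (2 * P - 1) * s ω * Real.cos ω +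
        P2 k * Real.cos ω ^ 2) - (P * s ω ^ 2 - 2 * P2 k * s ω * Real.cos ω))).intervalIntegrable
        _ _)
      ((by fun_prop : Continuous fun ω => ρ ω * (P * s ω ^ 2 - (2 * P - 1) * s ω * Real.cos ω -
        2 * P * s ω * ω * Real.sin ω + P2 k * (1 + Real.sin ω ^ 2))).intervalIntegrable _ _)]
    have hd : ∀ ω ∈ uIcc 0 z, HasDerivAt
        (fun ω => -(P * (ω * s ω ^ 2)) + 2 * P2 k * (s ω * Real.sin ω))
        (ρ ω * (P * s ω ^ 2 - (2 * P - 1) * s ω * Real.cos ω +
        P2 k * Real.cos ω ^ 2) - (P * s ω ^ 2 - 2 * P2 k * s ω * Real.cos ω) -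
        ρ ω * (P * s ω ^ 2 - (2 * P - 1) * s ω * Real.cos ω -
        2 * P * s ω * ω * Real.sin ω + P2 k * (1 + Real.sin ω ^ 2))) ω := by
      intro ω _
      have h1 := ((hasDerivAt_id ω).mul ((hs ω).pow 2)).const_mul P
      have h2 := ((hs ω).mul (Real.hasDerivAt_sin ω)).const_mul (2 * P2 k)
      refine (h1.neg.add h2).congr_deriv ?_
      have h3 := Real.sin_sq_add_cos_sq ω
      have h4 : Real.cos ω ^ 2 = 1 - Real.sin ω ^ 2 := by linarith
      simp only [id, Pi.pow_apply]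
      push_cast
      rw [h4]
      ring
    rw [intervalIntegral.integral_eq_sub_of_hasDerivAt hd
      ((by fun_prop : Continuous fun ω => (ρ ω * (P * s ω ^ 2 - (2 * P - 1) * s ω * Real.cos ω +
        P2 k * Real.cos ω ^ 2) - (P * s ω ^ 2 - 2 * P2 k * s ω * Real.cos ω) -
        ρ ω * (P * s ω ^ 2 - (2 * P - 1) * s ω * Real.cos ω -
        2 * P * s ω * ω * Real.sin ω + P2 k * (1 + Real.sin ω ^ 2)))).intervalIntegrable _ _)]
    simp [hsz]
  have hB : ∫ ω in (0 : ℝ)..z, ρ ω * (P * s ω ^ 2 - (2 * P - 1) * s ω * Real.cos ω -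
        2 * P * s ω * ω * Real.sin ω + P2 k * (1 + Real.sin ω ^ 2)) ≤
      ∫ ω in (0 : ℝ)..z, (((fun x => P * x ^ 2 + nuX P m x) ∘ s) ω * (ρ ω * Real.sin ω) +
        1.03 * (ρ ω * max (Real.cos ω) 0)) := by
    refine intervalIntegral.integral_mono_on hz.1
      ((by fun_prop : Continuous fun ω => ρ ω * (P * s ω ^ 2 - (2 * P - 1) * s ω * Real.cos ω -
        2 * P * s ω * ω * Real.sin ω + P2 k * (1 + Real.sin ω ^ 2))).intervalIntegrable _ _)
      ((by fun_prop : Continuous fun ω => (((fun x => P * x ^ 2 + nuX P m x) ∘ s) ω *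
        (ρ ω * Real.sin ω) + 1.03 * (ρ ω * max (Real.cos ω) 0))).intervalIntegrable _ _)
      fun ω hω => ?_
    have h0 := hge ω hω
    have h1 := hle13 ω hω
    have hr := hρ ω
    simp only [Function.comp]
    rw [hP2]
    rcases le_total ω (Real.pi / 2) with h | h
    · have hcos : 0 ≤ Real.cos ω := Real.cos_nonneg_of_mem_Icc ⟨by linarith [hω.1], h⟩
      rw [max_eq_left hcos]
      have h2 := X_point_asc hP hP' hm hm' hω.1 h h0 h1
      have h3 := mul_le_mul_of_nonneg_left h2 hr.le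
      linarith
    · have hcos : Real.cos ω ≤ 0 :=
        Real.cos_nonpos_of_pi_div_two_le_of_le h (by linarith [hω.2, hz.2])
      have hsl := hslope ω ⟨h, hω.2.trans hz.2⟩ (by linarith)
      have hS := hsin ω ⟨hω.1, hω.2.trans hz.2⟩
      have hslope' : -Real.cos ω ≤ 0.67 * Real.sin ω := by
        have h2 : -Real.cos ω * (D - 1.3) ≤ 2 * Real.pi / D * Real.sin ω := by
          have : -Real.cos ω * (D - 1.3) ≤ -Real.cos ω * (D - 1.3 + s ω) :=
            mul_le_mul_of_nonneg_left (by linarith) (by linarith)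
          linarith
        have h3 : 2 * Real.pi / D ≤ 1.658 := by
          rw [div_le_iff₀ (by linarith)]
          have := Real.pi_lt_d4
          nlinarith
        have h4 : 2 * Real.pi / D * Real.sin ω ≤ 1.658 * Real.sin ω :=
          mul_le_mul_of_nonneg_right h3 hS
        have h5 : -Real.cos ω * 2.49 ≤ -Real.cos ω * (D - 1.3) :=
          mul_le_mul_of_nonneg_left (by linarith) (by linarith)
        nlinarith
      rw [max_eq_right hcos]
      have h2 := X_point_desc hP hP' hm hm' h (by linarith [hω.2, hz.2]) hslope' h0 h1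
      have h3 := mul_le_mul_of_nonneg_left h2 hr.le
      linarith
  have hsub1 : ∫ ω in (0 : ℝ)..z, ((fun x => P * x ^ 2 + nuX P m x) ∘ s) ω * (ρ ω * Real.sin ω) =
      ∫ x in (0 : ℝ)..1.3, (P * x ^ 2 + nuX P m x) := by
    have h1 := intervalIntegral.integral_comp_mul_deriv (a := 0) (b := z)
      (f := s) (f' := fun ω => -(ρ ω * Real.sin ω)) (g := fun x => P * x ^ 2 + nuX P m x)
      (fun x _ => hs x) (by fun_prop) (by fun_prop)
    rw [s0, hsz] at h1
    have h3 : ∫ x in (1.3 : ℝ)..0, (P * x ^ 2 + nuX P m x) =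
        -∫ x in (0 : ℝ)..1.3, (P * x ^ 2 + nuX P m x) := intervalIntegral.integral_symm _ _
    have h2 : ∫ ω in (0 : ℝ)..z, ((fun x => P * x ^ 2 + nuX P m x) ∘ s) ω *
        -(ρ ω * Real.sin ω) = -∫ ω in (0 : ℝ)..z, ((fun x => P * x ^ 2 + nuX P m x) ∘ s) ω *
          (ρ ω * Real.sin ω) := by
      rw [← intervalIntegral.integral_neg]
      congr 1
      ext ω
      ring
    rw [h2, h3] at h1
    linarith
  have hQ : ∫ x in (0 : ℝ)..1.3, (P * x ^ 2 + nuX P m x) =
      P * (1.3 ^ 3 / 3) + ((2.04 * (P - 1 / 2 + m / 2) +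
        (-1.55 - 1.08 * (P - 1 / 2) + 1.01 * m)) / 2 +
      0.15 * ((-1.55 - 1.08 * (P - 1 / 2) + 1.01 * m) +
        (-1.6 - 1.62 * (P - 1 / 2) + 1.37 * m))) := by
    rw [intervalIntegral.integral_add
      ((by fun_prop : Continuous fun x : ℝ => P * x ^ 2).intervalIntegrable _ _)
      (hnu.intervalIntegrable _ _), xh_integral_nuX, intervalIntegral.integral_const_mul,
      integral_pow]
    norm_num
  -- the ascent
  have hasc : ∫ ω in (0 : ℝ)..z, ρ ω * max (Real.cos ω) 0 =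
      ∫ ω in (0 : ℝ)..Real.pi / 2, if 0 ≤ s ω then ρ ω * Real.cos ω else 0 := by
    have hE : Continuous fun ω => ρ ω * max (Real.cos ω) 0 := by fun_prop
    rcases le_total z (Real.pi / 2) with h | h
    · have i1 : ∀ ω ∈ uIoc 0 z, ρ ω * max (Real.cos ω) 0 =
          if 0 ≤ s ω then ρ ω * Real.cos ω else 0 := by
        intro ω hω
        rw [uIoc_of_le hz.1] at hω
        rw [if_pos (hge ω ⟨hω.1.le, hω.2⟩), max_eq_left]
        exact Real.cos_nonneg_of_mem_Icc ⟨by linarith [hω.1], by linarith [hω.2]⟩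
      have i2 : ∀ ω ∈ uIoc z (Real.pi / 2), (0 : ℝ) =
          if 0 ≤ s ω then ρ ω * Real.cos ω else 0 := by
        intro ω hω
        rw [uIoc_of_le h] at hω
        rw [if_neg (not_le.2 (hlt ω hω.1 (by linarith [hω.2])))]
      have j1 : IntervalIntegrable (fun ω => if 0 ≤ s ω then ρ ω * Real.cos ω else 0)
          volume 0 z := (hE.intervalIntegrable 0 z).congr i1
      have j2 : IntervalIntegrable (fun ω => if 0 ≤ s ω then ρ ω * Real.cos ω else 0)
          volume z (Real.pi / 2) :=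
        ((continuous_const (y := (0:ℝ))).intervalIntegrable z (Real.pi / 2)).congr i2
      rw [← intervalIntegral.integral_add_adjacent_intervals j1 j2]
      have e1 : ∫ ω in (0 : ℝ)..z, (if 0 ≤ s ω then ρ ω * Real.cos ω else 0) =
          ∫ ω in (0 : ℝ)..z, ρ ω * max (Real.cos ω) 0 :=
        (xh_integral_congr_uIoc i1).symm
      have e2 : ∫ ω in z..Real.pi / 2, (if 0 ≤ s ω then ρ ω * Real.cos ω else 0) = 0 := by
        rw [← xh_integral_congr_uIoc i2]
        simp
      rw [e1, e2, add_zero]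
    · have i1 : ∀ ω ∈ uIoc 0 (Real.pi / 2), ρ ω * max (Real.cos ω) 0 =
          if 0 ≤ s ω then ρ ω * Real.cos ω else 0 := by
        intro ω hω
        rw [uIoc_of_le (by linarith)] at hω
        rw [if_pos (hge ω ⟨hω.1.le, by linarith [hω.2]⟩), max_eq_left]
        exact Real.cos_nonneg_of_mem_Icc ⟨by linarith [hω.1], by linarith [hω.2]⟩
      rw [← intervalIntegral.integral_add_adjacent_intervals
        (hE.intervalIntegrable 0 (Real.pi / 2)) (hE.intervalIntegrable (Real.pi / 2) z)]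
      have e1 : ∫ ω in (0 : ℝ)..Real.pi / 2, ρ ω * max (Real.cos ω) 0 =
          ∫ ω in (0 : ℝ)..Real.pi / 2, (if 0 ≤ s ω then ρ ω * Real.cos ω else 0) :=
        xh_integral_congr_uIoc i1
      have e2 : ∫ ω in Real.pi / 2..z, ρ ω * max (Real.cos ω) 0 = 0 := by
        have : ∫ ω in Real.pi / 2..z, ρ ω * max (Real.cos ω) 0 =
            ∫ ω in Real.pi / 2..z, (0 : ℝ) := by
          refine xh_integral_congr_uIoc fun ω hω => ?_
          rw [uIoc_of_le h] at hω
          rw [max_eq_right, mul_zero]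
          exact Real.cos_nonpos_of_pi_div_two_le_of_le hω.1.le (by linarith [hω.2, hz.2])
        rw [this]; simp
      rw [e1, e2, add_zero]
  -- part (b)
  have hC : ∫ ω in z..Real.pi, tipI k (s ω) ω (ρ ω) ≤
      ∫ ω in z..Real.pi, (P2 k / 0.73) * (((fun x => (max (x + 0.68) 0) ^ 2) ∘ s) ω *
        (ρ ω * Real.sin ω)) := by
    refine intervalIntegral.integral_mono_on hz.2 (hT.intervalIntegrable _ _)
      ((by fun_prop : Continuous fun ω => (P2 k / 0.73) *
        (((fun x => (max (x + 0.68) 0) ^ 2) ∘ s) ω * (ρ ω * Real.sin ω))).intervalIntegrable _ _)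
      fun ω hω => ?_
    have hω' : ω ∈ Icc (0 : ℝ) Real.pi := ⟨hz.1.trans hω.1, hω.2⟩
    have h1 := xh_tipI_le_neg (k := k) (ω := ω) (hle0 ω hω) (hρ ω).le
    have h2 := xh_neg_point hD (hsin ω hω') (hle0 ω hω) (fun hcos hs1 => by
      refine hslope ω ⟨?_, hω.2⟩ hs1
      by_contra hcon
      push Not at hcon
      have := Real.cos_pos_of_mem_Ioo (x := ω) ⟨by linarith [hω'.1], hcon⟩
      linarith)
    have h3 : 0 ≤ ρ ω * P2 k := mul_nonneg (hρ ω).le hP20
    have h4 := mul_le_mul_of_nonneg_left h2 h3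
    refine h1.trans (h4.trans (le_of_eq ?_))
    simp only [Function.comp]
    ring
  have hsub2 : ∫ ω in z..Real.pi, ((fun x => (max (x + 0.68) 0) ^ 2) ∘ s) ω *
      (ρ ω * Real.sin ω) = 0.68 ^ 3 / 3 := by
    have h1 := intervalIntegral.integral_comp_mul_deriv (a := z) (b := Real.pi)
      (f := s) (f' := fun ω => -(ρ ω * Real.sin ω)) (g := fun x => (max (x + 0.68) 0) ^ 2)
      (fun x _ => hs x) (by fun_prop) (by fun_prop)
    rw [sπ, hsz] at h1
    have h3 : ∫ x in (0 : ℝ)..(1.3 - D), (max (x + 0.68) 0) ^ 2 =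
        -∫ x in (1.3 - D)..0, (max (x + 0.68) 0) ^ 2 := intervalIntegral.integral_symm _ _
    rw [xh_integral_tail hD] at h3
    have h2 : ∫ ω in z..Real.pi, ((fun x => (max (x + 0.68) 0) ^ 2) ∘ s) ω *
        -(ρ ω * Real.sin ω) = -∫ ω in z..Real.pi, ((fun x => (max (x + 0.68) 0) ^ 2) ∘ s) ω *
          (ρ ω * Real.sin ω) := by
      rw [← intervalIntegral.integral_neg]
      congr 1
      ext ω
      ring
    rw [h2, h3] at h1
    linarith
  rw [intervalIntegral.integral_const_mul, hsub2] at hC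
  rw [intervalIntegral.integral_add
    ((by fun_prop : Continuous fun ω => ((fun x => P * x ^ 2 + nuX P m x) ∘ s) ω *
      (ρ ω * Real.sin ω)).intervalIntegrable _ _)
    ((by fun_prop : Continuous fun ω => 1.03 * (ρ ω * max (Real.cos ω) 0)).intervalIntegrable _ _),
    hsub1, hQ, intervalIntegral.integral_const_mul, hasc] at hB
  rw [← intervalIntegral.integral_add_adjacent_intervals (hT.intervalIntegrable 0 z)
    (hT.intervalIntegrable z Real.pi)]
  rw [hAB] at hA
  rw [hP2] at hC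
  have hfin : (P - 1 / 2 + m / 2) / 0.73 * (0.68 ^ 3 / 3) +
      (P * (1.3 ^ 3 / 3) + ((2.04 * (P - 1 / 2 + m / 2) +
        (-1.55 - 1.08 * (P - 1 / 2) + 1.01 * m)) / 2 +
      0.15 * ((-1.55 - 1.08 * (P - 1 / 2) + 1.01 * m) +
        (-1.6 - 1.62 * (P - 1 / 2) + 1.37 * m)))) ≤ -0.67 := by
    norm_num
    linarith
  linarith

end Pool.Agent.RC
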