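import Pool.Agent.H.MP_1b807b_an.C.Cases
import Pool.Agent.H.MP_1b807b_an.C.CaseEX
import Pool.Agent.H.MP_1b807b_an.C.XHalf
import Pool.Agent.H.MP_1b807b_an.C.XGeom

/-! MP_1b807b_an, convex planar domains, module CaseX: elongated bodies -/

set_option autoImplicit false

namespace Pool.Agent.RC

open MeasureTheory Metric Set
open Pool.Agent.RG
open scoped RealInnerProductSpace


namespace Body
variable (B : Body)

theorem sd_hasDerivAt (l τ : ℝ) {σ : ℝ} (hσ : σ = 1 ∨ σ = -1) (ω : ℝ) :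
    HasDerivAt (B.sd l τ σ) (-(B.ρ (τ + σ * ω) * Real.sin ω)) ω := by
  have h1 : HasDerivAt (fun ω : ℝ => τ + σ * ω) σ ω := by
    simpa using ((hasDerivAt_id ω).const_mul σ).const_add τ
  have h2 := (B.hasDerivAt_sp_y τ (τ + σ * ω)).comp ω h1
  have h3 := h2.const_add (l - B.h τ)
  refine h3.congr_deriv ?_
  have : τ + σ * ω - τ = σ * ω := by ring
  rw [this]
  rcases hσ with rfl | rfl
  · simp
  · simp [Real.sin_neg]

theorem sd_zero (l τ σ : ℝ) : B.sd l τ σ 0 = l := by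
  simp [sd, B.sp_y]

theorem sd_pi (l τ : ℝ) {σ : ℝ} (hσ : σ = 1 ∨ σ = -1) :
    B.sd l τ σ Real.pi = l - (B.h τ + B.h (τ + Real.pi)) := by
  have hy : B.y (τ + σ * Real.pi) = B.y (τ + Real.pi) := by
    rcases hσ with rfl | rfl
    · simp
    · have := B.per_y (τ + -1 * Real.pi)
      rw [← this]
      congr 1
      ring
  have h1 : sp (B.y (τ + Real.pi)) (τ + Real.pi) = -sp (B.y (τ + Real.pi)) τ := sp_pi _ _
  rw [B.sp_y] at h1
  unfold sd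
  rw [hy]
  linarith

end Body

theorem case_X : CaseOK fun k B => 28 / 5 ≤ k ∧ 2 * Real.pi * 1.735 ≤ B.len := by
  refine (case_of_EX (l := 1.3) (by norm_num)).mono ?_
  rintro k B hk hA h0 ⟨hk', hlen⟩
  obtain ⟨θ₀, D, hD, hDe, hsl, hasc⟩ := B.X_geom hA hlen
  have half : ∀ τ, (τ = θ₀ ∨ τ = θ₀ + Real.pi) → ∀ σ : ℝ, (σ = 1 ∨ σ = -1) →
      ∫ ω in (0 : ℝ)..Real.pi, tipI k (B.sd 1.3 τ σ ω) ω (B.ρ (τ + σ * ω)) ≤
        -0.67 + 1.03 * B.asc 1.3 τ σ := by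
    intro τ hτ σ hσ
    refine X_half hk' hD (s := B.sd 1.3 τ σ) (ρ := fun ω => B.ρ (τ + σ * ω))
      (fun ω => B.sd_hasDerivAt 1.3 τ hσ ω)
      (B.continuous_ρ.comp (by fun_prop)) (fun ω => B.ρ_pos _) (B.sd_zero _ _ _) ?_
      (hsl τ hτ σ hσ)
    rw [B.sd_pi 1.3 τ hσ]
    rcases hτ with rfl | rfl
    · rw [hDe]
    · have : B.h (θ₀ + Real.pi + Real.pi) = B.h θ₀ := by
        rw [← B.per_h θ₀]
        congr 1
        ring
      rw [this, ← hDe]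
      ring
  have e1 := B.EX_split k 1.3 θ₀
  have e2 := B.EX_split k 1.3 (θ₀ + Real.pi)
  have h1 := half θ₀ (Or.inl rfl) 1 (Or.inl rfl)
  have h2 := half θ₀ (Or.inl rfl) (-1) (Or.inr rfl)
  have h3 := half (θ₀ + Real.pi) (Or.inr rfl) 1 (Or.inl rfl)
  have h4 := half (θ₀ + Real.pi) (Or.inr rfl) (-1) (Or.inr rfl)
  have hpi := Real.pi_lt_d4
  have hq : 2 * Real.pi / (D - 1.3) ≤ 2 * 3.1416 / 2.49 := by
    rw [div_le_div_iff₀ (by norm_num at hD ⊢; linarith) (by norm_num)]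
    norm_num at hD ⊢
    nlinarith [Real.pi_pos]
  have hq2 : (2 * 3.1416 / 2.49 : ℝ) ≤ 2.6 := by norm_num
  by_cases hc : B.EX k 1.3 θ₀ ≤ 0
  · exact ⟨θ₀, hc⟩
  · refine ⟨θ₀ + Real.pi, ?_⟩
    push Not at hc
    norm_num at hasc h1 h2 h3 h4 hq hq2 e1 e2 hc ⊢
    nlinarith

end Pool.Agent.RC
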