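import Pool.Agent.H.MP_1b807b_an.C.CaseHE
import Pool.Agent.H.MP_1b807b_an.C.CaseF
import Pool.Agent.H.MP_1b807b_an.C.CaseW0
import Pool.Agent.H.MP_1b807b_an.C.CaseX

/-! MP_1b807b_an, convex planar domains, module AllCases -/

set_option autoImplicit false

namespace Pool.Agent.RC

open MeasureTheory Metric Set
open Pool.Agent.RG
open scoped RealInnerProductSpace

theorem case_all (hlen : ∀ B : Body, B.area = Real.pi → (∀ θ, 0 < B.h θ) →
    2 * Real.pi ≤ B.len) : CaseOK fun _ _ => True := by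
  refine (((case_small.or case_N).or (case_W2.or case_F)).or (case_W3.or case_X)).mono ?_
  intro k B _ hA h0 _
  have h1 := hlen B hA h0
  have hpi := Real.pi_pos
  rcases le_total k (9 / 4) with hk | hk
  · exact Or.inl (Or.inl (Or.inl ⟨hk, h1⟩))
  rcases le_total B.len (2 * Real.pi * (7 / 5)) with hl | hl
  · exact Or.inl (Or.inl (Or.inr ⟨hk, h1, hl⟩))
  rcases le_total k (37 / 10) with hk2 | hk2
  · exact Or.inl (Or.inr (Or.inl ⟨hk2, hl⟩))
  rcases le_total B.len (2 * Real.pi * (48 / 25)) with hl2 | hl2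
  · exact Or.inl (Or.inr (Or.inr ⟨hk2, hl, hl2⟩))
  rcases le_total k (28 / 5) with hk3 | hk3
  · exact Or.inr (Or.inl ⟨hk3, hl2⟩)
  · refine Or.inr (Or.inr ⟨hk3, ?_⟩)
    nlinarith

end Pool.Agent.RC
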