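import Pool.Agent.H.MP_1b807b_an.C.Kern
import Pool.Agent.H.MP_1b807b_an.C.Prof

/-! MP_1b807b_an, convex planar domains, module Bes2: truncation bounds for the power series of
`I₀`, `I₁` and rational values at `9/4`, `37/10`, `28/5` -/

set_option autoImplicit false

namespace Pool.Agent.RC

open MeasureTheory Metric Set
open Pool.Agent.RG
open Pool.Agent.H.MP_1b807b_an

/-- a series with nonnegative terms is at least its partial sums -/
lemma tsum_ge_part {b : ℕ → ℝ} (hb : Summable b) (h0 : ∀ j, 0 ≤ b j) (n : ℕ) :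
    ∑ j ∈ Finset.range n, b j ≤ ∑' j, b j :=
  hb.sum_le_tsum _ fun j _ => h0 j

/-- tail with ratio at most `q` -/
lemma tsum_le_part {b : ℕ → ℝ} (hb : Summable b) (n : ℕ) {q : ℝ}
    (hq0 : 0 ≤ q) (hq : q < 1) (hr : ∀ j, n ≤ j → b (j + 1) ≤ b j * q) :
    ∑' j, b j ≤ ∑ j ∈ Finset.range n, b j + b n / (1 - q) := by
  rw [← hb.sum_add_tsum_nat_add n]
  have hi : ∀ i, b (i + n) ≤ b n * q ^ i := by
    intro i
    induction i with
    | zero => simp
    | succ i ih =>
      have h1 := hr (i + n) (by omega)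
      have e : i + 1 + n = i + n + 1 := by omega
      rw [e]
      calc b (i + n + 1) ≤ b (i + n) * q := h1
        _ ≤ b n * q ^ i * q := by gcongr
        _ = b n * q ^ (i + 1) := by ring
  have hg : Summable fun i : ℕ => b n * q ^ i := (summable_geometric_of_lt_one hq0 hq).mul_left _
  have hs : Summable fun i => b (i + n) := (summable_nat_add_iff n).2 hb
  have h2 : ∑' i, b (i + n) ≤ ∑' i, b n * q ^ i := hs.tsum_le_tsum hi hg
  rw [tsum_mul_left, tsum_geometric_of_lt_one hq0 hq] at h2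
  have e2 : b n / (1 - q) = b n * (1 - q)⁻¹ := by rw [div_eq_mul_inv]
  rw [e2]
  linarith

/-- the terms of `I₀` -/
noncomputable def t0 (k : ℝ) (j : ℕ) : ℝ := (k ^ 2 / 4) ^ j / (j.factorial : ℝ) ^ 2

/-- the terms of `2 I₁ / k` -/
noncomputable def t1 (k : ℝ) (j : ℕ) : ℝ :=
  (k ^ 2 / 4) ^ j / ((j.factorial : ℝ) * ((j + 1).factorial : ℝ))

lemma t0_nonneg (k : ℝ) (j : ℕ) : 0 ≤ t0 k j := by unfold t0; positivity

lemma t1_nonneg (k : ℝ) (j : ℕ) : 0 ≤ t1 k j := by unfold t1; positivity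

lemma t0_eq (k : ℝ) (j : ℕ) : t0 k j = cc 1 j * (k ^ 2) ^ j := by
  rw [cc_one]
  unfold t0
  rw [div_pow]
  field_simp

lemma t1_eq (k : ℝ) (j : ℕ) : t1 k j = 4 * (shc (cc 1) j * (k ^ 2) ^ j) := by
  unfold shc t1
  rw [cc_one, div_pow, Nat.factorial_succ]
  have hf : (0 : ℝ) < (j.factorial : ℝ) := by exact_mod_cast Nat.factorial_pos j
  push_cast
  field_simp
  ring

lemma summable_t0 (k : ℝ) : Summable (t0 k) :=
  ((ent_cc 1).summable (k ^ 2)).congr fun j => (t0_eq k j).symm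

lemma summable_t1 (k : ℝ) : Summable (t1 k) :=
  (((ent_cc 1).shc.summable (k ^ 2)).mul_left 4).congr fun j => (t1_eq k j).symm

lemma I0_eq_tsum (k : ℝ) : I0 k = ∑' j, t0 k j := by
  unfold I0 V ser
  exact tsum_congr fun j => (t0_eq k j).symm

lemma I1_eq_tsum (k : ℝ) : I1 k = k / 2 * ∑' j, t1 k j := by
  have e : ∑' j, t1 k j = 4 * ser (shc (cc 1)) (k ^ 2) := by
    unfold ser
    rw [← tsum_mul_left]
    exact tsum_congr fun j => t1_eq k j
  rw [e]
  unfold I1 W
  ring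

lemma t0_succ (k : ℝ) (j : ℕ) : t0 k (j + 1) = t0 k j * (k ^ 2 / 4 / (j + 1) ^ 2) := by
  unfold t0
  rw [Nat.factorial_succ, pow_succ]
  have hf : (0 : ℝ) < (j.factorial : ℝ) := by exact_mod_cast Nat.factorial_pos j
  push_cast
  field_simp

lemma t1_succ (k : ℝ) (j : ℕ) :
    t1 k (j + 1) = t1 k j * (k ^ 2 / 4 / ((j + 1) * (j + 2))) := by
  unfold t1
  rw [Nat.factorial_succ (j + 1), Nat.factorial_succ j, pow_succ]
  have hf : (0 : ℝ) < (j.factorial : ℝ) := by exact_mod_cast Nat.factorial_pos j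
  push_cast
  field_simp
  ring

theorem I0_ge_part (k : ℝ) (n : ℕ) : ∑ j ∈ Finset.range n, t0 k j ≤ I0 k := by
  rw [I0_eq_tsum]
  exact tsum_ge_part (summable_t0 k) (t0_nonneg k) n

theorem I0_le_part (k : ℝ) (n : ℕ) (h : k ^ 2 / 4 < (n + 1) ^ 2) :
    I0 k ≤ ∑ j ∈ Finset.range n, t0 k j + t0 k n / (1 - k ^ 2 / 4 / (n + 1) ^ 2) := by
  rw [I0_eq_tsum]
  have hn : (0 : ℝ) < ((n : ℝ) + 1) ^ 2 := by positivity
  refine tsum_le_part (summable_t0 k) n (by positivity) ?_ ?_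
  · rw [div_lt_one hn]; exact h
  · intro j hj
    rw [t0_succ]
    have hj' : (n : ℝ) ≤ j := by exact_mod_cast hj
    have := t0_nonneg k j
    gcongr

theorem I1_ge_part {k : ℝ} (hk : 0 ≤ k) (n : ℕ) :
    k / 2 * ∑ j ∈ Finset.range n, t1 k j ≤ I1 k := by
  rw [I1_eq_tsum]
  exact mul_le_mul_of_nonneg_left (tsum_ge_part (summable_t1 k) (t1_nonneg k) n) (by positivity)

theorem I1_le_part {k : ℝ} (hk : 0 ≤ k) (n : ℕ) (h : k ^ 2 / 4 < (n + 1) * (n + 2)) :
    I1 k ≤ k / 2 * (∑ j ∈ Finset.range n, t1 k j +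
      t1 k n / (1 - k ^ 2 / 4 / ((n + 1) * (n + 2)))) := by
  rw [I1_eq_tsum]
  have hn : (0 : ℝ) < ((n : ℝ) + 1) * ((n : ℝ) + 2) := by positivity
  refine mul_le_mul_of_nonneg_left ?_ (by positivity)
  refine tsum_le_part (summable_t1 k) n (by positivity) ?_ ?_
  · rw [div_lt_one hn]; exact h
  · intro j hj
    rw [t1_succ]
    have hj' : (n : ℝ) ≤ j := by exact_mod_cast hj
    have := t1_nonneg k j
    gcongr

/-- from bounds of `I₀`, `I₁` to bounds of `k I₁/I₀` -/
lemma kGG_bounds {k a b c d lo hi : ℝ} (hk : 0 ≤ k) (h0 : a ≤ I0 k ∧ I0 k ≤ b)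
    (h1 : c ≤ I1 k ∧ I1 k ≤ d) (hlo0 : 0 ≤ lo) (hlo : lo * b ≤ k * c) (hhi0 : 0 ≤ hi)
    (hhi : k * d ≤ hi * a) : lo ≤ k * GG k ∧ k * GG k ≤ hi := by
  have hp := I0_pos k
  rw [GG_eq]
  constructor
  · rw [← mul_div_assoc, le_div_iff₀ hp]
    calc lo * I0 k ≤ lo * b := by gcongr; exact h0.2
      _ ≤ k * c := hlo
      _ ≤ k * I1 k := by gcongr; exact h1.1
  · rw [← mul_div_assoc, div_le_iff₀ hp]
    calc k * I1 k ≤ k * d := by gcongr; exact h1.2
      _ ≤ hi * a := hhi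
      _ ≤ hi * I0 k := by gcongr; exact h0.1

theorem I0_a : 2.727078307 ≤ I0 (9 / 4) ∧ I0 (9 / 4) ≤ 2.727078308 := by
  constructor
  · refine le_trans ?_ (I0_ge_part (9 / 4) 9)
    simp only [Finset.sum_range_succ, Finset.sum_range_zero, t0, Nat.factorial]
    norm_num
  · refine le_trans (I0_le_part (9 / 4) 9 (by norm_num)) ?_
    simp only [Finset.sum_range_succ, Finset.sum_range_zero, t0, Nat.factorial]
    norm_num

theorem I1_a : 2.003967456 ≤ I1 (9 / 4) ∧ I1 (9 / 4) ≤ 2.003967457 := by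
  constructor
  · refine le_trans ?_ (I1_ge_part (k := 9 / 4) (by norm_num) 9)
    simp only [Finset.sum_range_succ, Finset.sum_range_zero, t1, Nat.factorial]
    norm_num
  · refine le_trans (I1_le_part (k := 9 / 4) (by norm_num) 9 (by norm_num)) ?_
    simp only [Finset.sum_range_succ, Finset.sum_range_zero, t1, Nat.factorial]
    norm_num

theorem kGG_a : 1.65339101 ≤ 9 / 4 * GG (9 / 4) ∧ 9 / 4 * GG (9 / 4) ≤ 1.65339102 :=
  kGG_bounds (by norm_num) I0_a I1_a (by norm_num) (by norm_num) (by norm_num)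
    (by norm_num)

theorem I0_b : 8.738617524 ≤ I0 (37 / 10) ∧ I0 (37 / 10) ≤ 8.738617525 := by
  constructor
  · refine le_trans ?_ (I0_ge_part (37 / 10) 12)
    simp only [Finset.sum_range_succ, Finset.sum_range_zero, t0, Nat.factorial]
    norm_num
  · refine le_trans (I0_le_part (37 / 10) 12 (by norm_num)) ?_
    simp only [Finset.sum_range_succ, Finset.sum_range_zero, t0, Nat.factorial]
    norm_num

theorem I1_b : 7.435745796 ≤ I1 (37 / 10) ∧ I1 (37 / 10) ≤ 7.435745797 := by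
  constructor
  · refine le_trans ?_ (I1_ge_part (k := 37 / 10) (by norm_num) 12)
    simp only [Finset.sum_range_succ, Finset.sum_range_zero, t1, Nat.factorial]
    norm_num
  · refine le_trans (I1_le_part (k := 37 / 10) (by norm_num) 12 (by norm_num)) ?_
    simp only [Finset.sum_range_succ, Finset.sum_range_zero, t1, Nat.factorial]
    norm_num

theorem kGG_b : 3.14835377 ≤ 37 / 10 * GG (37 / 10) ∧ 37 / 10 * GG (37 / 10) ≤ 3.14835378 :=
  kGG_bounds (by norm_num) I0_b I1_b (by norm_num) (by norm_num) (by norm_num)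
    (by norm_num)

theorem I0_c : 46.737551292 ≤ I0 (28 / 5) ∧ I0 (28 / 5) ≤ 46.737551293 := by
  constructor
  · refine le_trans ?_ (I0_ge_part (28 / 5) 15)
    simp only [Finset.sum_range_succ, Finset.sum_range_zero, t0, Nat.factorial]
    norm_num
  · refine le_trans (I0_le_part (28 / 5) 15 (by norm_num)) ?_
    simp only [Finset.sum_range_succ, Finset.sum_range_zero, t0, Nat.factorial]
    norm_num

theorem I1_c : 42.328288032 ≤ I1 (28 / 5) ∧ I1 (28 / 5) ≤ 42.328288033 := by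
  constructor
  · refine le_trans ?_ (I1_ge_part (k := 28 / 5) (by norm_num) 15)
    simp only [Finset.sum_range_succ, Finset.sum_range_zero, t1, Nat.factorial]
    norm_num
  · refine le_trans (I1_le_part (k := 28 / 5) (by norm_num) 15 (by norm_num)) ?_
    simp only [Finset.sum_range_succ, Finset.sum_range_zero, t1, Nat.factorial]
    norm_num

theorem kGG_c : 5.07169088 ≤ 28 / 5 * GG (28 / 5) ∧ 28 / 5 * GG (28 / 5) ≤ 5.07169089 :=
  kGG_bounds (by norm_num) I0_c I1_c (by norm_num) (by norm_num) (by norm_num)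
    (by norm_num)

end Pool.Agent.RC
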