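import Pool.Agent.H.MP_1b807b_an.C.DefsC

/-! MP_1b807b_an, convex planar domains, module CertN: the certificate for `1 ≤ l ≤ 7/5` -/

set_option autoImplicit false

namespace Pool.Agent.RC

/-- `r² ≤ 2 (l² - 1)` and `1 ≤ l ≤ 7/5` give `|r| ≤ 7/5` -/
private lemma abs_le_N {l r : ℝ} (h1 : 1 ≤ l) (h2 : l ≤ 7 / 5) (hr : r ^ 2 ≤ 2 * (l ^ 2 - 1)) :
    -(7 / 5) ≤ r ∧ r ≤ 7 / 5 := by
  have : r ^ 2 ≤ (7 / 5 : ℝ) ^ 2 := by nlinarith
  exact abs_le.1 (abs_le_of_sq_le_sq this (by norm_num))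

theorem cert_N {l : ℝ} (h1 : 1 ≤ l) (h2 : l ≤ 7 / 5) :
    CertE (191 / 100) (29 / 100) l 0.314 0.042 0.525 0.354 := by
  have hl : 0 < l + 1 := by linarith
  refine ⟨by norm_num, by norm_num, by nlinarith, ?_, ?_⟩
  · intro r hr
    obtain ⟨ha, hb⟩ := abs_le_N h1 h2 hr
    have key : 0.2904 + 0.314 * l + 0.042 * (2 * (l ^ 2 - 1)) + 0.275625 + 0.0003 ≤
        (191 / 100 + 2 * (l - 1)) / (l + 1) := by
      rw [le_div_iff₀ hl]
      nlinarith [mul_nonneg (sub_nonneg.2 h1) (sub_nonneg.2 h2),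
        mul_nonneg (mul_nonneg (sub_nonneg.2 h1) (sub_nonneg.2 h2)) hl.le]
    nlinarith [sq_nonneg r]
  · intro r hr
    obtain ⟨ha, hb⟩ := abs_le_N h1 h2 hr
    have key : (191 / 100 + 6 * (l - 1) + 2 * (l - 1) ^ 2) / (l + 1) ≤
        2 * 0.314 * l + 1.1025 - 0.022 := by
      rw [div_le_iff₀ hl]
      nlinarith [mul_nonneg (sub_nonneg.2 h1) (sub_nonneg.2 h2)]
    nlinarith [mul_nonneg (sub_nonneg.2 h1) (sub_nonneg.2 ha),
      mul_nonneg (sub_nonneg.2 h1) (sub_nonneg.2 hb),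
      mul_nonneg (sub_nonneg.2 h2) (sub_nonneg.2 ha),
      mul_nonneg (sub_nonneg.2 h2) (sub_nonneg.2 hb)]

end Pool.Agent.RC
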