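import Pool.Agent.H.MP_1b807b_an.C.Prof

/-! MP_1b807b_an, convex planar domains, module DefsC: the exact area term, the one-variable
certificate, the exponential profile, the function `I₀ I₁ / z` -/

set_option autoImplicit false

namespace Pool.Agent.RC

open MeasureTheory Metric Set
open Pool.Agent.RG
open scoped RealInnerProductSpace

/-- the coefficient of `len - 2π`, with the exact area term -/
noncomputable def X3e (k b : ℝ) : ℝ := X3 k b - (k ^ 2 - 2 * b)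

/-- the numerical input of the step (H) -/
def NumE (k₀ b η ζ : ℝ) : Prop := ∀ k, k₀ ≤ k → 0 < X1 k b ∧
  X1 k b - X2 k b ≤ ζ / 2 * X1 k b ∧ (η - 2 * ζ + 1) * X1 k b + X3e k b ≤ 4 * X2 k b

/-- the certificate on a half, for mean width `2 l` -/
structure CertE (η ζ l κ c₁ z₀ z₁ : ℝ) : Prop where
  hκ : 0 ≤ κ
  hc : 0 ≤ c₁
  hκc : c₁ ^ 2 * (2 * (l ^ 2 - 1)) ≤ κ ^ 2
  h1 : ∀ r, r ^ 2 ≤ 2 * (l ^ 2 - 1) → (z₀ + z₁ * r) ^ 2 ≤
    (η + 2 * (l - 1)) / (l + 1) - ζ - κ * l - c₁ * (2 * (l ^ 2 - 1)) + (1 - 2 * κ) * r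
      + 3 * c₁ * r ^ 2
  h2 : ∀ r, r ^ 2 ≤ 2 * (l ^ 2 - 1) →
    (η + 6 * (l - 1) + 2 * (l - 1) ^ 2) / (l + 1) - 2 * κ * l + (1 - κ + c₁ * l) * r ≤
      4 * z₀ ^ 2 + 4 * z₀ * z₁ * r

/-! ## the exponential profile -/

/-- `exp (-c t)` on `[0, 1]` -/
noncomputable def fF (c t : ℝ) : ℝ := prof (fun x => Real.exp (c * x)) t
noncomputable def MF (c t : ℝ) : ℝ := c * Real.exp (c * max (1 - t) 0) / Real.exp c

/-- exponential moments -/
noncomputable def jF (c : ℝ) (i : ℕ) : ℝ := ∫ t in (0 : ℝ)..1, t ^ i * Real.exp (-(2 * c * t))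

/-- `P` times this bounds the energy of `√(1 + P |x - o|²) exp (-c depth)`, `P = c² + k²` -/
noncomputable def EF (P c β Ml Mw L : ℝ) : ℝ :=
  P * (jF c 0 * Ml - jF c 1 * (Mw + 4 * Real.pi) + 3 * jF c 2 * L - 2 * Real.pi * jF c 3)
    + 2 * Real.pi - β * (L / P + Ml)

/-! ## the cut-off profile of the disc -/

/-- `I₀(z) I₁(z) / z` -/
noncomputable def rr (z : ℝ) : ℝ := if z = 0 then 1 / 2 else I0 z * I1 z / z

/-- `I₀(k (1 - t)) / I₀(k)`, frozen at depth `1 - σ` -/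
noncomputable def fW (k σ t : ℝ) : ℝ := if t ≤ 0 then 1 else I0 (k * max (1 - t) σ) / I0 k
noncomputable def MW (k σ t : ℝ) : ℝ := if t ≤ 1 - σ then k * I1 (k * (1 - max t 0)) / I0 k else 0

end Pool.Agent.RC
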