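import Mathlib

/-! MP_1b807b_an, convex planar domains, module Wirt: two Wirtinger inequalities -/

set_option autoImplicit false

namespace Pool.Agent.RC

open MeasureTheory Set Filter Topology

/-- the cotangent identity on an interval on which the sine of the phase is positive -/
theorem wirt_key {u : ℝ → ℝ} (hu : ContDiff ℝ 1 u) (c ω β : ℝ) {p q : ℝ} (hpq : p ≤ q)
    (hs : ∀ x ∈ Icc p q, 0 < Real.sin (ω * x + β)) :
    ω ^ 2 * (∫ x in p..q, (u x - c) ^ 2) +
      ((u q - c) ^ 2 * (ω * Real.cos (ω * q + β) / Real.sin (ω * q + β)) -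
        (u p - c) ^ 2 * (ω * Real.cos (ω * p + β) / Real.sin (ω * p + β))) ≤
      ∫ x in p..q, deriv u x ^ 2 := by
  have hud : ∀ x, HasDerivAt u (deriv u x) x := fun x =>
    (hu.differentiable one_ne_zero x).hasDerivAt
  have huc : Continuous (deriv u) := hu.continuous_deriv le_rfl
  have huc0 : Continuous u := hu.continuous
  have hθ : ∀ x, HasDerivAt (fun x : ℝ => ω * x + β) ω x := fun x => by
    simpa using ((hasDerivAt_id x).const_mul ω).add_const β
  set G : ℝ → ℝ := fun x => ω * Real.cos (ω * x + β) / Real.sin (ω * x + β) with hG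
  set F : ℝ → ℝ := fun x => (u x - c) ^ 2 * G x with hF
  have hcos : ∀ x, HasDerivAt (fun x : ℝ => ω * Real.cos (ω * x + β))
      (ω * (-Real.sin (ω * x + β) * ω)) x := fun x =>
    ((hθ x).cos).const_mul ω
  have hsin : ∀ x, HasDerivAt (fun x : ℝ => Real.sin (ω * x + β))
      (Real.cos (ω * x + β) * ω) x := fun x => (hθ x).sin
  set F' : ℝ → ℝ := fun x => (2 * (u x - c) * deriv u x) * G x +
    (u x - c) ^ 2 * (-(ω ^ 2) / Real.sin (ω * x + β) ^ 2) with hF'
  have hFd : ∀ x ∈ Icc p q, HasDerivAt F (F' x) x := by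
    intro x hx
    have h1 : HasDerivAt (fun x => (u x - c) ^ 2) (2 * (u x - c) * deriv u x) x := by
      refine (((hud x).sub_const c).fun_pow 2).congr_deriv ?_
      norm_num
    have hne : Real.sin (ω * x + β) ≠ 0 := (hs x hx).ne'
    have h2 : HasDerivAt G (-(ω ^ 2) / Real.sin (ω * x + β) ^ 2) x := by
      have h3 := (hcos x).div (hsin x) hne
      refine h3.congr_deriv ?_
      have hcs := Real.sin_sq_add_cos_sq (ω * x + β)
      congr 1
      nlinarith [hcs]
    exact h1.mul h2
  have hGc : ContinuousOn G (Icc p q) := by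
    refine ContinuousOn.div (by fun_prop) (by fun_prop) ?_
    intro x hx
    exact (hs x hx).ne'
  have hF'c : ContinuousOn F' (Icc p q) := by
    refine ContinuousOn.add (ContinuousOn.mul (by fun_prop) hGc) ?_
    refine ContinuousOn.mul (by fun_prop) (ContinuousOn.div (by fun_prop) (by fun_prop) ?_)
    intro x hx
    exact pow_ne_zero 2 (hs x hx).ne'
  have hF'i : IntervalIntegrable F' volume p q :=
    ContinuousOn.intervalIntegrable (by rwa [uIcc_of_le hpq])
  have hint : ∫ x in p..q, F' x = F q - F p :=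
    intervalIntegral.integral_eq_sub_of_hasDerivAt
      (fun x hx => hFd x (by rwa [uIcc_of_le hpq] at hx)) hF'i
  have hi1 : IntervalIntegrable (fun x => (u x - c) ^ 2) volume p q :=
    Continuous.intervalIntegrable (by fun_prop) _ _
  have hi2 : IntervalIntegrable (fun x => deriv u x ^ 2) volume p q :=
    Continuous.intervalIntegrable (by fun_prop) _ _
  have hmono : ∫ x in p..q, (ω ^ 2 * (u x - c) ^ 2 + F' x) ≤ ∫ x in p..q, deriv u x ^ 2 := by
    refine intervalIntegral.integral_mono_on hpq ((hi1.const_mul _).add hF'i) hi2 ?_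
    intro x hx
    have hne : Real.sin (ω * x + β) ≠ 0 := (hs x hx).ne'
    have hcs := Real.sin_sq_add_cos_sq (ω * x + β)
    have hid : deriv u x ^ 2 - (ω ^ 2 * (u x - c) ^ 2 + F' x) =
        (deriv u x - (u x - c) * G x) ^ 2 := by
      simp only [hF', hG]
      field_simp
      have hc2 : Real.cos (ω * x + β) ^ 2 = 1 - Real.sin (ω * x + β) ^ 2 := by linarith
      ring_nf
      ring_nf at hc2
      rw [hc2]
      ring
    nlinarith [sq_nonneg (deriv u x - (u x - c) * G x)]
  rw [intervalIntegral.integral_add (hi1.const_mul _) hF'i, hint,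
    intervalIntegral.integral_const_mul] at hmono
  exact hmono

theorem wirt_lim {A B W : ℝ} (hW : 0 < W) (h : ∀ ω, 0 < ω → ω < W → ω ^ 2 * A ≤ B) :
    W ^ 2 * A ≤ B := by
  have ht : Tendsto (fun ω : ℝ => ω ^ 2 * A) (𝓝[<] W) (𝓝 (W ^ 2 * A)) := by
    have : Continuous fun ω : ℝ => ω ^ 2 * A := by fun_prop
    exact this.continuousAt.mono_left nhdsWithin_le_nhds
  refine le_of_tendsto ht ?_
  have h1 : ∀ᶠ ω in 𝓝[<] W, ω ∈ Ioo 0 W := Ioo_mem_nhdsLT hW
  filter_upwards [h1] with ω hω
  exact h ω hω.1 hω.2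

theorem wirt_dir {u : ℝ → ℝ} (hu : ContDiff ℝ 1 u) {a : ℝ} (h0 : u a = 0)
    (h1 : u (a + Real.pi) = 0) :
    ∫ x in a..a + Real.pi, u x ^ 2 ≤ ∫ x in a..a + Real.pi, deriv u x ^ 2 := by
  have hpi := Real.pi_pos
  have h := wirt_lim (A := ∫ x in a..a + Real.pi, u x ^ 2)
    (B := ∫ x in a..a + Real.pi, deriv u x ^ 2) one_pos (by
    intro ω hω hω1
    have hk := wirt_key hu 0 ω ((Real.pi - ω * Real.pi) / 2 - ω * a) (p := a) (q := a + Real.pi)
      (by linarith) (by
        intro x hx
        have h2 : 0 ≤ ω * (x - a) := mul_nonneg hω.le (by linarith [hx.1])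
        have h3 : ω * (x - a) ≤ ω * Real.pi := mul_le_mul_of_nonneg_left (by linarith [hx.2]) hω.le
        have h4 : ω * Real.pi < Real.pi := by nlinarith
        refine Real.sin_pos_of_pos_of_lt_pi ?_ ?_
        · nlinarith
        · nlinarith)
    simp only [sub_zero, h0, h1] at hk
    simpa using hk)
  simpa using h

theorem wirt_per {u : ℝ → ℝ} (hu : ContDiff ℝ 1 u) {a m : ℝ} (h1 : u (a + Real.pi) = u a)
    (hm : ∫ x in a..a + Real.pi, u x = Real.pi * m) :
    4 * ∫ x in a..a + Real.pi, (u x - m) ^ 2 ≤ ∫ x in a..a + Real.pi, deriv u x ^ 2 := by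
  have hpi := Real.pi_pos
  have huc : Continuous u := hu.continuous
  have hdc : Continuous (deriv u) := hu.continuous_deriv le_rfl
  -- the two points
  obtain ⟨x₀, hx₀, hx1⟩ : ∃ x₀ ∈ Icc a (a + Real.pi / 2), u x₀ = u (x₀ + Real.pi / 2) := by
    set D : ℝ → ℝ := fun x => u x - u (x + Real.pi / 2) with hD
    have hDc : Continuous D := by fun_prop
    have e1 : D (a + Real.pi / 2) = -D a := by
      simp only [hD]
      have : a + Real.pi / 2 + Real.pi / 2 = a + Real.pi := by ring
      rw [this, h1]; ring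
    have hle : a ≤ a + Real.pi / 2 := by linarith
    rcases le_total (D a) 0 with hs | hs
    · obtain ⟨x, hx, hx0⟩ := intermediate_value_Icc hle hDc.continuousOn
        (show (0 : ℝ) ∈ Icc (D a) (D (a + Real.pi / 2)) from ⟨hs, by rw [e1]; linarith⟩)
      exact ⟨x, hx, by simpa [hD, sub_eq_zero] using hx0⟩
    · obtain ⟨x, hx, hx0⟩ := intermediate_value_Icc' hle hDc.continuousOn
        (show (0 : ℝ) ∈ Icc (D (a + Real.pi / 2)) (D a) from ⟨by rw [e1]; linarith, hs⟩)
      exact ⟨x, hx, by simpa [hD, sub_eq_zero] using hx0⟩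
  set c := u x₀ with hc
  have hx2 : u (x₀ + Real.pi / 2) = c := hx1.symm
  have hi : ∀ p q : ℝ, IntervalIntegrable (fun x => (u x - c) ^ 2) volume p q := fun p q =>
    Continuous.intervalIntegrable (by fun_prop) _ _
  have hi' : ∀ p q : ℝ, IntervalIntegrable (fun x => deriv u x ^ 2) volume p q := fun p q =>
    Continuous.intervalIntegrable (by fun_prop) _ _
  have hA : (∫ x in a..a + Real.pi, (u x - c) ^ 2) = (∫ x in a..x₀, (u x - c) ^ 2) +
      (∫ x in x₀..x₀ + Real.pi / 2, (u x - c) ^ 2) +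
      ∫ x in x₀ + Real.pi / 2..a + Real.pi, (u x - c) ^ 2 := by
    rw [intervalIntegral.integral_add_adjacent_intervals (hi _ _) (hi _ _),
      intervalIntegral.integral_add_adjacent_intervals (hi _ _) (hi _ _)]
  have hB : (∫ x in a..a + Real.pi, deriv u x ^ 2) = (∫ x in a..x₀, deriv u x ^ 2) +
      (∫ x in x₀..x₀ + Real.pi / 2, deriv u x ^ 2) +
      ∫ x in x₀ + Real.pi / 2..a + Real.pi, deriv u x ^ 2 := by
    rw [intervalIntegral.integral_add_adjacent_intervals (hi' _ _) (hi' _ _),
      intervalIntegral.integral_add_adjacent_intervals (hi' _ _) (hi' _ _)]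
  have hlim := wirt_lim (A := ∫ x in a..a + Real.pi, (u x - c) ^ 2)
    (B := ∫ x in a..a + Real.pi, deriv u x ^ 2) two_pos (by
    intro ω hω hω1
    have hωpi : ω * (Real.pi / 2) < Real.pi := by nlinarith
    -- the interval between the two points
    have k1 := wirt_key hu c ω ((Real.pi - ω * (Real.pi / 2)) / 2 - ω * x₀) (p := x₀)
      (q := x₀ + Real.pi / 2) (by linarith) (by
        intro x hx
        have h2 : 0 ≤ ω * (x - x₀) := mul_nonneg hω.le (by linarith [hx.1])
        have h3 : ω * (x - x₀) ≤ ω * (Real.pi / 2) :=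
          mul_le_mul_of_nonneg_left (by linarith [hx.2]) hω.le
        refine Real.sin_pos_of_pos_of_lt_pi ?_ ?_
        · nlinarith
        · nlinarith)
    -- the two remaining pieces
    have k2 := wirt_key hu c ω ((Real.pi - ω * (Real.pi / 2)) / 2 - ω * (x₀ + Real.pi / 2))
      (p := x₀ + Real.pi / 2) (q := a + Real.pi) (by linarith [hx₀.2]) (by
        intro x hx
        have h2 : 0 ≤ ω * (x - (x₀ + Real.pi / 2)) := mul_nonneg hω.le (by linarith [hx.1])
        have h3 : ω * (x - (x₀ + Real.pi / 2)) ≤ ω * (Real.pi / 2) :=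
          mul_le_mul_of_nonneg_left (by linarith [hx.2, hx₀.1]) hω.le
        refine Real.sin_pos_of_pos_of_lt_pi ?_ ?_
        · nlinarith
        · nlinarith)
    have k3 := wirt_key hu c ω ((Real.pi - ω * (Real.pi / 2)) / 2 - ω * (x₀ - Real.pi / 2))
      (p := a) (q := x₀) hx₀.1 (by
        intro x hx
        have h2 : 0 ≤ ω * (x - (x₀ - Real.pi / 2)) :=
          mul_nonneg hω.le (by linarith [hx.1, hx₀.2])
        have h3 : ω * (x - (x₀ - Real.pi / 2)) ≤ ω * (Real.pi / 2) :=
          mul_le_mul_of_nonneg_left (by linarith [hx.2]) hω.le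
        refine Real.sin_pos_of_pos_of_lt_pi ?_ ?_
        · nlinarith
        · nlinarith)
    have e : ω * (a + Real.pi) + ((Real.pi - ω * (Real.pi / 2)) / 2 - ω * (x₀ + Real.pi / 2)) =
        ω * a + ((Real.pi - ω * (Real.pi / 2)) / 2 - ω * (x₀ - Real.pi / 2)) := by ring
    rw [e, h1] at k2
    rw [hx2] at k1 k2
    simp only [sub_self, ne_eq, OfNat.ofNat_ne_zero, not_false_eq_true, zero_pow, zero_mul,
      add_zero, sub_zero, ← hc] at k1 k2 k3
    rw [hA, hB]
    linarith)
  -- comparison of the two constants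
  have hcm : (∫ x in a..a + Real.pi, (u x - c) ^ 2) =
      (∫ x in a..a + Real.pi, (u x - m) ^ 2) + Real.pi * (m - c) ^ 2 := by
    have hu1 : IntervalIntegrable u volume a (a + Real.pi) := huc.intervalIntegrable _ _
    have h2 : (fun x => (u x - c) ^ 2) = fun x => (u x - m) ^ 2 +
        (2 * (m - c) * u x + (c ^ 2 - m ^ 2)) := by
      funext x; ring
    rw [h2, intervalIntegral.integral_add (Continuous.intervalIntegrable (by fun_prop) _ _)
      (Continuous.intervalIntegrable (by fun_prop) _ _),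
      intervalIntegral.integral_add (hu1.const_mul _) intervalIntegrable_const,
      intervalIntegral.integral_const_mul, hm, intervalIntegral.integral_const]
    simp only [smul_eq_mul]
    ring
  have hpos : 0 ≤ Real.pi * (m - c) ^ 2 := by positivity
  have h4 : (2 : ℝ) ^ 2 = 4 := by norm_num
  rw [h4] at hlim
  nlinarith

end Pool.Agent.RC
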