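import Pool.Agent.H.MP_1b807b_an.C.HalfCert
import Pool.Agent.H.MP_1b807b_an.C.Wirt

/-! MP_1b807b_an, convex planar domains, module HalfCertE: the certificate on a half -/

set_option autoImplicit false

namespace Pool.Agent.RC

open MeasureTheory Metric Set

theorem half_certE {κ c₁ z₀ z₁ l a b' S2 R2 : ℝ} (hκ : 0 ≤ κ) (hc₁ : 0 ≤ c₁)
    (hκc : c₁ ^ 2 * R2 ≤ κ ^ 2)
    (h1 : ∀ r, r ^ 2 ≤ R2 → (z₀ + z₁ * r) ^ 2 ≤
      a - κ * l - c₁ * R2 + (1 - 2 * κ) * r + 3 * c₁ * r ^ 2)
    (h2 : ∀ r, r ^ 2 ≤ R2 → b' - 2 * κ * l + (1 - κ + c₁ * l) * r ≤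
      4 * z₀ ^ 2 + 4 * z₀ * z₁ * r)
    {h : ℝ → ℝ} (hh : ContDiff ℝ 2 h) {c : ℝ} (hp0 : h (c + Real.pi) = h c)
    (hp1 : deriv h (c + Real.pi) = deriv h c) (hρ : ∀ x, 0 ≤ h x + deriv (deriv h) x)
    (hmean : ∫ x in c..c + Real.pi, h x = Real.pi * l)
    (hS : ∫ x in c..c + Real.pi, (deriv h x ^ 2 - (h x - l) ^ 2) = Real.pi * S2)
    (hS2 : S2 ≤ R2) :
    0 ≤ ∫ x in c..c + Real.pi, ((a + (h x - l)) * deriv h x ^ 2 -
      (b' + (h x - l)) * (h x - l) ^ 2) := by
  have hpi := Real.pi_pos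
  have hle : c ≤ c + Real.pi := by linarith
  have hh1 : ContDiff ℝ 1 h := hh.of_le (by norm_num)
  have hp : ContDiff ℝ 1 (deriv h) := by
    have := (contDiff_succ_iff_deriv (n := 1) (f := h)).1 (by norm_num; exact hh)
    exact this.2.2
  have hhc : Continuous h := hh.continuous
  have hpc : Continuous (deriv h) := hp.continuous
  have hpc' : Continuous (deriv (deriv h)) := hp.continuous_deriv le_rfl
  have hd : ∀ x, HasDerivAt h (deriv h x) x := fun x =>
    (hh1.differentiable one_ne_zero x).hasDerivAt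
  have hd' : ∀ x, HasDerivAt (deriv h) (deriv (deriv h) x) x := fun x =>
    (hp.differentiable one_ne_zero x).hasDerivAt
  set p : ℝ → ℝ := deriv h with hpdef
  set p' : ℝ → ℝ := deriv p with hp'def
  set r : ℝ → ℝ := fun x => h x - l with hr
  have hrc : Continuous r := hhc.sub continuous_const
  have hrd : ∀ x, HasDerivAt r (p x) x := fun x => (hd x).sub_const l
  have hr0 : ∫ x in c..c + Real.pi, r x = 0 := by
    simp only [hr]
    rw [intervalIntegral.integral_sub (hhc.intervalIntegrable _ _) intervalIntegrable_const,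
      hmean, intervalIntegral.integral_const]
    simp
  -- pointwise bound
  have hsup : ∀ x ∈ Icc c (c + Real.pi), r x ^ 2 ≤ S2 := fun x hx =>
    HalfCert.sup_bound hh1 hp0 hp1 hmean hS hx
  -- the functions
  set φ : ℝ → ℝ := fun x => (S2 - r x ^ 2) * (κ - c₁ * r x) with hφ
  set φ' : ℝ → ℝ := fun x => -c₁ * S2 - 2 * κ * r x + 3 * c₁ * r x ^ 2 with hφ'
  have hφc : Continuous φ := by fun_prop
  have hφ'c : Continuous φ' := by fun_prop
  have hφd : ∀ x, HasDerivAt φ (φ' x * p x) x := by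
    intro x
    have e1 := ((hrd x).fun_pow 2).const_sub S2
    have e2 := ((hrd x).const_mul c₁).const_sub κ
    refine (e1.mul e2).congr_deriv ?_
    simp only [hφ']
    norm_num
    ring
  have hF3 : ∫ x in c..c + Real.pi, (φ' x * p x ^ 2 + φ x * p' x) = 0 := by
    have e1 : ∀ x ∈ uIcc c (c + Real.pi), HasDerivAt (fun x => φ x * p x)
        (φ' x * p x ^ 2 + φ x * p' x) x := by
      intro x _
      refine ((hφd x).mul (hd' x)).congr_deriv ?_
      ring
    rw [intervalIntegral.integral_eq_sub_of_hasDerivAt e1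
      ((by fun_prop : Continuous fun x => φ' x * p x ^ 2 + φ x * p' x).intervalIntegrable _ _)]
    have e2 : r (c + Real.pi) = r c := by simp only [hr, hp0]
    simp only [hφ, e2, hp1, sub_self]
  have hF2 : 0 ≤ ∫ x in c..c + Real.pi, φ x * (h x + p' x) := by
    refine intervalIntegral.integral_nonneg hle (fun x hx => ?_)
    have e1 := hsup x hx
    have e2 : 0 ≤ κ - c₁ * r x := by
      have e3 : (c₁ * r x) ^ 2 ≤ κ ^ 2 := by
        rw [mul_pow]
        exact (mul_le_mul_of_nonneg_left (e1.trans hS2) (sq_nonneg c₁)).trans hκc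
      have := abs_le_of_sq_le_sq' e3 hκ
      linarith [this.2]
    exact mul_nonneg (mul_nonneg (by linarith) e2) (hρ x)
  have hF4 : ∫ x in c..c + Real.pi, (p x ^ 2 - r x ^ 2 - S2) = 0 := by
    rw [intervalIntegral.integral_sub
      ((by fun_prop : Continuous fun x => p x ^ 2 - r x ^ 2).intervalIntegrable _ _)
      intervalIntegrable_const, intervalIntegral.integral_const]
    have : ∫ x in c..c + Real.pi, (p x ^ 2 - r x ^ 2) = Real.pi * S2 := hS
    rw [this]
    simp
  -- Wirtinger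
  set Y : ℝ → ℝ := fun x => z₀ * r x + z₁ / 2 * r x ^ 2 with hY
  have hYd : ∀ x, HasDerivAt Y ((z₀ + z₁ * r x) * p x) x := by
    intro x
    have e1 := ((hrd x).const_mul z₀).add (((hrd x).fun_pow 2).const_mul (z₁ / 2))
    refine e1.congr_deriv ?_
    norm_num
    ring
  have hYdd : deriv Y = fun x => (z₀ + z₁ * r x) * p x := funext fun x => (hYd x).deriv
  have hY1 : ContDiff ℝ 1 Y := by
    have : ContDiff ℝ 1 r := hh1.sub contDiff_const
    exact (contDiff_const.mul this).add (contDiff_const.mul (this.pow 2))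
  have hYc : Continuous Y := hY1.continuous
  set m : ℝ := (∫ x in c..c + Real.pi, Y x) / Real.pi with hm
  have hYm : ∫ x in c..c + Real.pi, Y x = Real.pi * m := by
    rw [hm, mul_div_cancel₀ _ hpi.ne']
  have hW := wirt_per hY1 (a := c) (m := m) (by simp only [hY, hr, hp0]) hYm
  rw [hYdd] at hW
  have hF6 : 0 ≤ ∫ x in c..c + Real.pi, (((z₀ + z₁ * r x) * p x) ^ 2 - 4 * (Y x - m) ^ 2) := by
    rw [intervalIntegral.integral_sub
      ((by fun_prop : Continuous fun x => ((z₀ + z₁ * r x) * p x) ^ 2).intervalIntegrable _ _)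
      ((by fun_prop : Continuous fun x => 4 * (Y x - m) ^ 2).intervalIntegrable _ _),
      intervalIntegral.integral_const_mul]
    linarith
  -- the pointwise comparison
  set K : ℝ := S2 * (κ - c₁ * l) + 8 * z₀ * m with hK
  have hpt : ∀ x ∈ Icc c (c + Real.pi),
      (((z₀ + z₁ * r x) * p x) ^ 2 - 4 * (Y x - m) ^ 2) + (-K) * r x + φ x * (h x + p' x) +
        (-1) * (φ' x * p x ^ 2 + φ x * p' x) + κ * l * (p x ^ 2 - r x ^ 2 - S2) ≤
      (a + (h x - l)) * p x ^ 2 - (b' + (h x - l)) * (h x - l) ^ 2 := by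
    intro x hx
    have e1 := hsup x hx
    have e2 := h1 (r x) (e1.trans hS2)
    have e3 := h2 (r x) (e1.trans hS2)
    have e4 : h x = l + r x := by simp only [hr]; ring
    have e5 : c₁ * S2 ≤ c₁ * R2 := mul_le_mul_of_nonneg_left hS2 hc₁
    have e6 : 0 ≤ c₁ * (S2 - r x ^ 2) := mul_nonneg hc₁ (by linarith)
    have q1 : 0 ≤ (a - κ * l - c₁ * S2 + (1 - 2 * κ) * r x + 3 * c₁ * r x ^ 2 -
        (z₀ + z₁ * r x) ^ 2) * p x ^ 2 := mul_nonneg (by linarith) (sq_nonneg _)
    have q2 : 0 ≤ (4 * z₀ ^ 2 + 4 * z₀ * z₁ * r x - (b' - 2 * κ * l + (1 - κ + c₁ * l) * r x)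
        + c₁ * (S2 - r x ^ 2)) * r x ^ 2 := mul_nonneg (by linarith) (sq_nonneg _)
    have q3 : 0 ≤ (2 * m - z₁ * r x ^ 2) ^ 2 := sq_nonneg _
    rw [e4]
    simp only [hφ, hφ', hY, hK]
    linarith [q1, q2, q3, show
      ((a + (l + r x - l)) * p x ^ 2 - (b' + (l + r x - l)) * (l + r x - l) ^ 2) -
      (((z₀ + z₁ * r x) * p x) ^ 2 - 4 * (z₀ * r x + z₁ / 2 * r x ^ 2 - m) ^ 2 +
        -(S2 * (κ - c₁ * l) + 8 * z₀ * m) * r x +
        (S2 - r x ^ 2) * (κ - c₁ * r x) * (l + r x + p' x) +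
        -1 * ((-c₁ * S2 - 2 * κ * r x + 3 * c₁ * r x ^ 2) * p x ^ 2 +
          (S2 - r x ^ 2) * (κ - c₁ * r x) * p' x) + κ * l * (p x ^ 2 - r x ^ 2 - S2)) =
      (a - κ * l - c₁ * S2 + (1 - 2 * κ) * r x + 3 * c₁ * r x ^ 2 -
        (z₀ + z₁ * r x) ^ 2) * p x ^ 2 +
      (4 * z₀ ^ 2 + 4 * z₀ * z₁ * r x - (b' - 2 * κ * l + (1 - κ + c₁ * l) * r x)
        + c₁ * (S2 - r x ^ 2)) * r x ^ 2 + (2 * m - z₁ * r x ^ 2) ^ 2 by ring]
  have i1 : IntervalIntegrable (fun x => ((z₀ + z₁ * r x) * p x) ^ 2 - 4 * (Y x - m) ^ 2) volume c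
      (c + Real.pi) := (by fun_prop : Continuous _).intervalIntegrable _ _
  have i2 : IntervalIntegrable (fun x => (-K) * r x) volume c (c + Real.pi) :=
    (by fun_prop : Continuous _).intervalIntegrable _ _
  have i3 : IntervalIntegrable (fun x => φ x * (h x + p' x)) volume c (c + Real.pi) :=
    (by fun_prop : Continuous _).intervalIntegrable _ _
  have i4 : IntervalIntegrable (fun x => (-1) * (φ' x * p x ^ 2 + φ x * p' x)) volume c
      (c + Real.pi) := (by fun_prop : Continuous _).intervalIntegrable _ _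
  have i5 : IntervalIntegrable (fun x => κ * l * (p x ^ 2 - r x ^ 2 - S2)) volume c
      (c + Real.pi) := (by fun_prop : Continuous _).intervalIntegrable _ _
  have i6 : IntervalIntegrable (fun x => (a + (h x - l)) * p x ^ 2 -
      (b' + (h x - l)) * (h x - l) ^ 2) volume c (c + Real.pi) :=
    (by fun_prop : Continuous _).intervalIntegrable _ _
  have hmono := intervalIntegral.integral_mono_on hle
    ((((i1.add i2).add i3).add i4).add i5) i6 hpt
  refine le_trans ?_ hmono
  rw [intervalIntegral.integral_add (((i1.add i2).add i3).add i4) i5,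
    intervalIntegral.integral_add ((i1.add i2).add i3) i4,
    intervalIntegral.integral_add (i1.add i2) i3,
    intervalIntegral.integral_add i1 i2,
    intervalIntegral.integral_const_mul, intervalIntegral.integral_const_mul,
    intervalIntegral.integral_const_mul, hr0, hF3, hF4]
  linarith

end Pool.Agent.RC
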