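import Pool.Agent.H.MP_1b807b_an.C.Halves
import Pool.Agent.H.MP_1b807b_an.C.Wirt
import Pool.Agent.H.MP_1b807b_an.C.HalfCertE
import Pool.Agent.H.MP_1b807b_an.C.DefsC

/-! MP_1b807b_an, convex planar domains, module HNonneg: the boundary functional (H) is nonpositive
for a suitable centre, from the certificate on the halves -/

set_option autoImplicit false

namespace Pool.Agent.RC

open MeasureTheory Metric Set
open Pool.Agent.RG
open scoped RealInnerProductSpace ENNReal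

/-- linearity for cubic expressions in `u`, `v` -/
theorem lin_half {u v : ℝ → ℝ} (hu : Continuous u) (hv : Continuous v) {a : ℝ}
    (h0 : ∫ x in a..a + Real.pi, u x = 0) (c₀ c₁ c₂ c₃ d e : ℝ) :
    ∫ x in a..a + Real.pi, (c₀ + c₁ * u x + c₂ * u x ^ 2 + c₃ * u x ^ 3 + d * v x ^ 2 +
        e * (u x * v x ^ 2)) =
      Real.pi * c₀ + c₂ * (∫ x in a..a + Real.pi, u x ^ 2) +
        c₃ * (∫ x in a..a + Real.pi, u x ^ 3) + d * (∫ x in a..a + Real.pi, v x ^ 2) +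
        e * (∫ x in a..a + Real.pi, u x * v x ^ 2) := by
  have i0 : IntervalIntegrable (fun _ : ℝ => c₀) volume a (a + Real.pi) := intervalIntegrable_const
  have i1 : IntervalIntegrable (fun x => c₁ * u x) volume a (a + Real.pi) :=
    (continuous_const.mul hu).intervalIntegrable _ _
  have i2 : IntervalIntegrable (fun x => c₂ * u x ^ 2) volume a (a + Real.pi) :=
    (continuous_const.mul (hu.pow 2)).intervalIntegrable _ _
  have i3 : IntervalIntegrable (fun x => c₃ * u x ^ 3) volume a (a + Real.pi) :=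
    (continuous_const.mul (hu.pow 3)).intervalIntegrable _ _
  have i4 : IntervalIntegrable (fun x => d * v x ^ 2) volume a (a + Real.pi) :=
    (continuous_const.mul (hv.pow 2)).intervalIntegrable _ _
  have i5 : IntervalIntegrable (fun x => e * (u x * v x ^ 2)) volume a (a + Real.pi) :=
    (continuous_const.mul (hu.mul (hv.pow 2))).intervalIntegrable _ _
  rw [intervalIntegral.integral_add ((((i0.add i1).add i2).add i3).add i4) i5,
    intervalIntegral.integral_add (((i0.add i1).add i2).add i3) i4,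
    intervalIntegral.integral_add ((i0.add i1).add i2) i3,
    intervalIntegral.integral_add (i0.add i1) i2,
    intervalIntegral.integral_add i0 i1,
    intervalIntegral.integral_const_mul, intervalIntegral.integral_const_mul,
    intervalIntegral.integral_const_mul, intervalIntegral.integral_const_mul,
    intervalIntegral.integral_const_mul, h0, intervalIntegral.integral_const]
  simp

/-- splitting a period into two halves -/
theorem split_half {F : ℝ → ℝ} (hF : Continuous F) (hp : Function.Periodic F (2 * Real.pi))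
    (c : ℝ) : ∫ x in (0 : ℝ)..2 * Real.pi, F x =
      (∫ x in c..c + Real.pi, F x) + ∫ x in (c + Real.pi)..(c + Real.pi) + Real.pi, F x := by
  have h1 := hp.intervalIntegral_add_eq 0 c
  rw [zero_add] at h1
  rw [h1, show c + Real.pi + Real.pi = c + 2 * Real.pi by ring]
  exact (intervalIntegral.integral_add_adjacent_intervals (hF.intervalIntegrable _ _)
    (hF.intervalIntegrable _ _)).symm

namespace Body

/-- `∮ |x|² ds = ∫ h³ - h p²` -/
theorem Ml_zero (A : Body) :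
    A.Ml 0 = ∫ θ in (0 : ℝ)..2 * Real.pi, (A.h θ ^ 3 - A.h θ * A.p θ ^ 2) := by
  have h1 : A.Ml 0 = ∫ θ in (0 : ℝ)..2 * Real.pi, (A.h θ ^ 2 + A.p θ ^ 2) * A.ρ θ := by
    unfold Body.Ml
    refine intervalIntegral.integral_congr (fun θ _ => ?_)
    show ‖A.y θ - 0‖ ^ 2 * A.ρ θ = _
    rw [sub_zero, A.norm_y_sq]
  have hd : ∀ θ ∈ uIcc (0 : ℝ) (2 * Real.pi), HasDerivAt
      (fun θ => A.h θ ^ 2 * A.p θ + A.p θ ^ 3 / 3)
      ((A.h θ ^ 2 + A.p θ ^ 2) * A.ρ θ - (A.h θ ^ 3 - A.h θ * A.p θ ^ 2)) θ := by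
    intro θ _
    have e1 := ((A.hasDerivAt_h θ).fun_pow 2).mul (A.hasDerivAt_p θ)
    have e2 := ((A.hasDerivAt_p θ).fun_pow 3).div_const 3
    refine (e1.add e2).congr_deriv ?_
    norm_num
    ring
  have c1 : Continuous fun θ => (A.h θ ^ 2 + A.p θ ^ 2) * A.ρ θ :=
    ((A.continuous_h.pow 2).add (A.continuous_p.pow 2)).mul A.continuous_ρ
  have c2 : Continuous fun θ => A.h θ ^ 3 - A.h θ * A.p θ ^ 2 :=
    (A.continuous_h.pow 3).sub (A.continuous_h.mul (A.continuous_p.pow 2))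
  have h2 := intervalIntegral.integral_eq_sub_of_hasDerivAt hd
    ((c1.sub c2).intervalIntegrable _ _)
  rw [intervalIntegral.integral_sub (c1.intervalIntegrable _ _) (c2.intervalIntegrable _ _)] at h2
  have h3 : A.h (2 * Real.pi) = A.h 0 := by
    have := A.per_h 0
    rwa [zero_add] at this
  have h4 : A.p (2 * Real.pi) = A.p 0 := by
    have := A.per_p 0
    rwa [zero_add] at this
  rw [h3, h4, sub_self] at h2
  rw [h1]
  linarith

theorem Mw_zero (A : Body) :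
    A.Mw 0 = ∫ θ in (0 : ℝ)..2 * Real.pi, (A.h θ ^ 2 + A.p θ ^ 2) := by
  unfold Body.Mw
  refine intervalIntegral.integral_congr (fun θ _ => ?_)
  show ‖A.y θ - 0‖ ^ 2 = _
  rw [sub_zero, A.norm_y_sq]

end Body

theorem H_nonnegE {η ζ l κ c₁ z₀ z₁ : ℝ} (hl : 1 ≤ l) (hC : CertE η ζ l κ c₁ z₀ z₁)
    (B : Body) (hA : B.area = Real.pi) (hlen : B.len = 2 * Real.pi * l) : ∃ o ∈ B.K,
      (B.Ml o - 2 * Real.pi) - (B.Mw o - 2 * Real.pi) * (1 - ζ / 2) +
        (3 - η) * (B.len - 2 * Real.pi) ≤ 0 := by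
  have hpi := Real.pi_pos
  obtain ⟨c, o, ho, hv, hdv, hint⟩ := exists_halves B
  refine ⟨o, ho, ?_⟩
  set A : Body := B.shift o with hAdef
  have hAarea : A.area = Real.pi := by rw [hAdef, B.shift_area, hA]
  have hAlen : A.len = 2 * Real.pi * l := by rw [hAdef, B.shift_len, hlen]
  have hAl : B.Ml o = A.Ml 0 := by rw [hAdef, B.shift_Ml, zero_add]
  have hAw : B.Mw o = A.Mw 0 := by rw [hAdef, B.shift_Mw, zero_add]
  have hfun : (fun θ => B.h θ - sp o θ) = A.h := rfl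
  have hv' : A.h (c + Real.pi) = A.h c := hv.symm
  have hdv' : A.p (c + Real.pi) = A.p c := by
    rw [hfun] at hdv
    exact hdv.symm
  have hm1 : ∫ θ in c..c + Real.pi, A.h θ = Real.pi * l := by
    have : ∫ θ in c..c + Real.pi, A.h θ = B.len / 2 := hint
    rw [this, hlen]
    ring
  have hper : Function.Periodic A.h (2 * Real.pi) := A.per
  have hperp : Function.Periodic A.p (2 * Real.pi) := fun θ => A.per_p θ
  have hm2 : ∫ θ in (c + Real.pi)..(c + Real.pi) + Real.pi, A.h θ = Real.pi * l := by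
    have h1 := split_half A.continuous_h hper c
    have h2 : ∫ θ in (0 : ℝ)..2 * Real.pi, A.h θ = 2 * Real.pi * l := hAlen
    rw [h2, hm1] at h1
    linarith
  have e2 : c + Real.pi + Real.pi = c + 2 * Real.pi := by ring
  have hv2 : A.h (c + Real.pi + Real.pi) = A.h (c + Real.pi) := by
    rw [e2, A.per_h, hv']
  have hdv2 : A.p (c + Real.pi + Real.pi) = A.p (c + Real.pi) := by
    rw [e2, A.per_p, hdv']
  set r : ℝ → ℝ := fun θ => A.h θ - l with hr
  have hrc : Continuous r := A.continuous_h.sub continuous_const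
  have hpc : Continuous A.p := A.continuous_p
  have hr0 : ∀ a, ∫ θ in a..a + Real.pi, A.h θ = Real.pi * l → ∫ θ in a..a + Real.pi, r θ = 0 := by
    intro a ha
    simp only [hr]
    rw [intervalIntegral.integral_sub (A.continuous_h.intervalIntegrable _ _)
      intervalIntegrable_const, ha, intervalIntegral.integral_const]
    simp
  have hr1 := hr0 c hm1
  have hr2 := hr0 (c + Real.pi) hm2
  -- the integrals over the halves
  set a : ℝ := (η + 2 * (l - 1)) / (l + 1) - ζ with ha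
  set b' : ℝ := (η + 6 * (l - 1) + 2 * (l - 1) ^ 2) / (l + 1) with hb'
  have key : ∀ s, ∫ θ in s..s + Real.pi, r θ = 0 →
      (∫ θ in s..s + Real.pi, (A.h θ ^ 3 - A.h θ * A.p θ ^ 2)) =
        Real.pi * l ^ 3 + 3 * l * (∫ θ in s..s + Real.pi, r θ ^ 2) +
          (∫ θ in s..s + Real.pi, r θ ^ 3) - l * (∫ θ in s..s + Real.pi, A.p θ ^ 2) -
          (∫ θ in s..s + Real.pi, r θ * A.p θ ^ 2) ∧
      (∫ θ in s..s + Real.pi, (A.h θ ^ 2 + A.p θ ^ 2)) =
        Real.pi * l ^ 2 + (∫ θ in s..s + Real.pi, r θ ^ 2) +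
          (∫ θ in s..s + Real.pi, A.p θ ^ 2) ∧
      (∫ θ in s..s + Real.pi, (A.h θ ^ 2 - A.p θ ^ 2)) =
        Real.pi * l ^ 2 + (∫ θ in s..s + Real.pi, r θ ^ 2) -
          (∫ θ in s..s + Real.pi, A.p θ ^ 2) ∧
      (∫ θ in s..s + Real.pi, (A.p θ ^ 2 - (A.h θ - l) ^ 2)) =
        (∫ θ in s..s + Real.pi, A.p θ ^ 2) - (∫ θ in s..s + Real.pi, r θ ^ 2) ∧
      (∫ θ in s..s + Real.pi, ((a + (A.h θ - l)) * A.p θ ^ 2 -
        (b' + (A.h θ - l)) * (A.h θ - l) ^ 2)) =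
        a * (∫ θ in s..s + Real.pi, A.p θ ^ 2) +
          (∫ θ in s..s + Real.pi, r θ * A.p θ ^ 2) -
          b' * (∫ θ in s..s + Real.pi, r θ ^ 2) - (∫ θ in s..s + Real.pi, r θ ^ 3) := by
    intro s hs
    refine ⟨?_, ?_, ?_, ?_, ?_⟩
    · have h1 := lin_half hrc hpc hs (l ^ 3) (3 * l ^ 2) (3 * l) 1 (-l) (-1)
      rw [show (fun θ => A.h θ ^ 3 - A.h θ * A.p θ ^ 2) = fun x => l ^ 3 + 3 * l ^ 2 * r x +
        3 * l * r x ^ 2 + 1 * r x ^ 3 + -l * A.p x ^ 2 + -1 * (r x * A.p x ^ 2) by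
          funext θ; simp only [hr]; ring, h1]
      ring
    · have h1 := lin_half hrc hpc hs (l ^ 2) (2 * l) 1 0 1 0
      rw [show (fun θ => A.h θ ^ 2 + A.p θ ^ 2) = fun x => l ^ 2 + 2 * l * r x +
        1 * r x ^ 2 + 0 * r x ^ 3 + 1 * A.p x ^ 2 + 0 * (r x * A.p x ^ 2) by
          funext θ; simp only [hr]; ring, h1]
      ring
    · have h1 := lin_half hrc hpc hs (l ^ 2) (2 * l) 1 0 (-1) 0
      rw [show (fun θ => A.h θ ^ 2 - A.p θ ^ 2) = fun x => l ^ 2 + 2 * l * r x +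
        1 * r x ^ 2 + 0 * r x ^ 3 + -1 * A.p x ^ 2 + 0 * (r x * A.p x ^ 2) by
          funext θ; simp only [hr]; ring, h1]
      ring
    · have h1 := lin_half hrc hpc hs 0 0 (-1) 0 1 0
      rw [show (fun θ => A.p θ ^ 2 - (A.h θ - l) ^ 2) = fun x => 0 + 0 * r x +
        -1 * r x ^ 2 + 0 * r x ^ 3 + 1 * A.p x ^ 2 + 0 * (r x * A.p x ^ 2) by
          funext θ; simp only [hr]; ring, h1]
      ring
    · have h1 := lin_half hrc hpc hs 0 0 (-b') (-1) a 1
      rw [show (fun θ => (a + (A.h θ - l)) * A.p θ ^ 2 -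
        (b' + (A.h θ - l)) * (A.h θ - l) ^ 2) = fun x => 0 + 0 * r x +
        -b' * r x ^ 2 + -1 * r x ^ 3 + a * A.p x ^ 2 + 1 * (r x * A.p x ^ 2) by
          funext θ; simp only [hr]; ring, h1]
      ring
  obtain ⟨k11, k12, k13, k14, k15⟩ := key c hr1
  obtain ⟨k21, k22, k23, k24, k25⟩ := key (c + Real.pi) hr2
  set R₁ := ∫ θ in c..c + Real.pi, r θ ^ 2
  set R₂ := ∫ θ in (c + Real.pi)..(c + Real.pi) + Real.pi, r θ ^ 2
  set P₁ := ∫ θ in c..c + Real.pi, A.p θ ^ 2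
  set P₂ := ∫ θ in (c + Real.pi)..(c + Real.pi) + Real.pi, A.p θ ^ 2
  set C₁ := ∫ θ in c..c + Real.pi, r θ ^ 3
  set C₂ := ∫ θ in (c + Real.pi)..(c + Real.pi) + Real.pi, r θ ^ 3
  set D₁ := ∫ θ in c..c + Real.pi, r θ * A.p θ ^ 2
  set D₂ := ∫ θ in (c + Real.pi)..(c + Real.pi) + Real.pi, r θ * A.p θ ^ 2
  -- totals
  have per1 : Function.Periodic (fun θ => A.h θ ^ 3 - A.h θ * A.p θ ^ 2) (2 * Real.pi) := by
    intro θ
    simp only [hper θ, hperp θ]
  have per2 : Function.Periodic (fun θ => A.h θ ^ 2 + A.p θ ^ 2) (2 * Real.pi) := by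
    intro θ
    simp only [hper θ, hperp θ]
  have per3 : Function.Periodic (fun θ => A.h θ ^ 2 - A.p θ ^ 2) (2 * Real.pi) := by
    intro θ
    simp only [hper θ, hperp θ]
  have cc1 : Continuous (fun θ => A.h θ ^ 3 - A.h θ * A.p θ ^ 2) :=
    (A.continuous_h.pow 3).sub (A.continuous_h.mul (hpc.pow 2))
  have cc2 : Continuous (fun θ => A.h θ ^ 2 + A.p θ ^ 2) := (A.continuous_h.pow 2).add (hpc.pow 2)
  have cc3 : Continuous (fun θ => A.h θ ^ 2 - A.p θ ^ 2) := (A.continuous_h.pow 2).sub (hpc.pow 2)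
  have t1 : A.Ml 0 = (Real.pi * l ^ 3 + 3 * l * R₁ + C₁ - l * P₁ - D₁) +
      (Real.pi * l ^ 3 + 3 * l * R₂ + C₂ - l * P₂ - D₂) := by
    rw [A.Ml_zero, split_half cc1 per1 c, k11, k21]
  have t2 : A.Mw 0 = (Real.pi * l ^ 2 + R₁ + P₁) + (Real.pi * l ^ 2 + R₂ + P₂) := by
    rw [A.Mw_zero, split_half cc2 per2 c, k12, k22]
  have t3 : Real.pi = (1 / 2) * ((Real.pi * l ^ 2 + R₁ - P₁) + (Real.pi * l ^ 2 + R₂ - P₂)) := by
    rw [← k13, ← k23, ← split_half cc3 per3 c, ← A.area_eq, hAarea]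
  -- Wirtinger
  have hsm : ContDiff ℝ 1 A.h := A.smooth.of_le (by norm_num)
  have w1 : 4 * R₁ ≤ P₁ := wirt_per hsm hv' hm1
  have w2 : 4 * R₂ ≤ P₂ := wirt_per hsm hv2 hm2
  have r1 : 0 ≤ R₁ := intervalIntegral.integral_nonneg (by linarith) (fun θ _ => sq_nonneg _)
  have r2 : 0 ≤ R₂ := intervalIntegral.integral_nonneg (by linarith) (fun θ _ => sq_nonneg _)
  have hsum : (P₁ - R₁) + (P₂ - R₂) = Real.pi * (2 * (l ^ 2 - 1)) := by linarith
  have hS1 : (P₁ - R₁) / Real.pi ≤ 2 * (l ^ 2 - 1) := by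
    rw [div_le_iff₀ hpi]
    linarith
  have hS2 : (P₂ - R₂) / Real.pi ≤ 2 * (l ^ 2 - 1) := by
    rw [div_le_iff₀ hpi]
    linarith
  have hsm2 : ContDiff ℝ 2 A.h := A.smooth.of_le (by norm_num)
  have j1 := half_certE (a := a) (b' := b') hC.hκ hC.hc hC.hκc hC.h1 hC.h2 hsm2 hv' hdv'
    (fun x => (A.ρ_pos x).le) hm1 (S2 := (P₁ - R₁) / Real.pi)
    (by rw [mul_div_cancel₀ _ hpi.ne']; exact k14) hS1
  have j2 := half_certE (a := a) (b' := b') hC.hκ hC.hc hC.hκc hC.h1 hC.h2 hsm2 hv2 hdv2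
    (fun x => (A.ρ_pos x).le) hm2 (S2 := (P₂ - R₂) / Real.pi)
    (by rw [mul_div_cancel₀ _ hpi.ne']; exact k24) hS2
  have j1' : 0 ≤ a * P₁ + D₁ - b' * R₁ - C₁ := by rw [← k15]; exact j1
  have j2' : 0 ≤ a * P₂ + D₂ - b' * R₂ - C₂ := by rw [← k25]; exact j2
  have hl1 : l + 1 ≠ 0 := by positivity
  set μ : ℝ := (l ^ 2 + ζ / 2 * (l + 1) + 3 - η) / (l + 1) with hμ
  have hμ' : μ * (l + 1) = l ^ 2 + ζ / 2 * (l + 1) + 3 - η := by
    rw [hμ]
    field_simp
  have ea : a = l + 1 - ζ / 2 - μ := by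
    rw [ha, hμ]
    field_simp
    ring
  have eb : b' = 3 * l - 1 + ζ / 2 - μ := by
    rw [hb', hμ]
    field_simp
    ring
  rw [hAl, hAw, t1, t2, hlen]
  have hfin : (Real.pi * l ^ 3 + 3 * l * R₁ + C₁ - l * P₁ - D₁ +
      (Real.pi * l ^ 3 + 3 * l * R₂ + C₂ - l * P₂ - D₂) - 2 * Real.pi) -
      (Real.pi * l ^ 2 + R₁ + P₁ + (Real.pi * l ^ 2 + R₂ + P₂) - 2 * Real.pi) * (1 - ζ / 2) +
      (3 - η) * (2 * Real.pi * l - 2 * Real.pi) =
      -((a * P₁ + D₁ - b' * R₁ - C₁) + (a * P₂ + D₂ - b' * R₂ - C₂)) := by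
    rw [ea, eb]
    linear_combination (2 * Real.pi * (l - 1)) * (-hμ') - μ * hsum
  rw [hfin]
  linarith

end Pool.Agent.RC
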