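import Pool.Agent.H.MP_1b807b_an.C.Kern
import Pool.Agent.H.MP_1b807b_an.C.DefsC
import Pool.Agent.H.MP_1b807b_an.C.PhX

/-! MP_1b807b_an, convex planar domains, module NumN: the numbers of the step (H), `b = 1` -/

set_option autoImplicit false

namespace Pool.Agent.RC

open MeasureTheory Metric Set
open Pool.Agent.RG

namespace NumNAux

noncomputable def NN (j : ℕ) : ℝ := ∫ s in (0 : ℝ)..1, s ^ j / (1 + s ^ 2)

noncomputable def MM (j : ℕ) : ℝ := ∫ s in (0 : ℝ)..1, s ^ j / (1 + s ^ 2) ^ 2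

lemma w_ne (s : ℝ) : 1 + s ^ 2 ≠ 0 := by positivity

lemma w2_ne (s : ℝ) : (1 + s ^ 2) ^ 2 ≠ 0 := by positivity

lemma cN (j : ℕ) : Continuous fun s : ℝ => s ^ j / (1 + s ^ 2) :=
  Continuous.div (by fun_prop) (by fun_prop) w_ne

lemma cM (j : ℕ) : Continuous fun s : ℝ => s ^ j / (1 + s ^ 2) ^ 2 :=
  Continuous.div (by fun_prop) (by fun_prop) w2_ne

lemma NN_zero : NN 0 = Real.pi / 4 := by
  unfold NN
  simp only [pow_zero]
  rw [integral_one_div_one_add_sq, Real.arctan_one, Real.arctan_zero, sub_zero]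

lemma NN_one : NN 1 = Real.log 2 / 2 := by
  unfold NN
  have hd : ∀ s : ℝ, HasDerivAt (fun s : ℝ => Real.log (1 + s ^ 2) / 2) (s ^ 1 / (1 + s ^ 2)) s := by
    intro s
    have h := (((hasDerivAt_pow 2 s).const_add 1).log (w_ne s)).div_const 2
    refine h.congr_deriv ?_
    have := w_ne s
    push_cast
    field_simp
  rw [intervalIntegral.integral_eq_sub_of_hasDerivAt (fun s _ => hd s)
    ((cN 1).intervalIntegrable _ _)]
  norm_num

lemma NN_rec (j : ℕ) : NN (j + 2) = 1 / ((j : ℝ) + 1) - NN j := by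
  have h : NN (j + 2) + NN j = 1 / ((j : ℝ) + 1) := by
    unfold NN
    rw [← intervalIntegral.integral_add ((cN (j + 2)).intervalIntegrable _ _)
      ((cN j).intervalIntegrable _ _)]
    have e : ∀ s : ℝ, s ^ (j + 2) / (1 + s ^ 2) + s ^ j / (1 + s ^ 2) = s ^ j := by
      intro s
      have := w_ne s
      field_simp
      ring
    simp only [e]
    rw [integral_pow]
    simp
  linarith

lemma MM_zero : MM 0 = (NN 0 + 1 / 2) / 2 := by
  have c1 : Continuous fun y : ℝ => 2 * (y ^ 0 / (1 + y ^ 2) ^ 2) := continuous_const.mul (cM 0)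
  have hd : ∀ s : ℝ, HasDerivAt (fun s : ℝ => s / (1 + s ^ 2))
      (2 * (s ^ 0 / (1 + s ^ 2) ^ 2) - s ^ 0 / (1 + s ^ 2)) s := by
    intro s
    have h := (hasDerivAt_id s).div ((hasDerivAt_pow 2 s).const_add 1) (w_ne s)
    refine h.congr_deriv ?_
    have := w_ne s
    simp only [id]
    push_cast
    field_simp
    ring
  have h := intervalIntegral.integral_eq_sub_of_hasDerivAt (a := (0 : ℝ)) (b := 1) (fun s _ => hd s)
    ((c1.sub (cN 0)).intervalIntegrable _ _)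
  rw [intervalIntegral.integral_sub (c1.intervalIntegrable _ _)
    ((cN 0).intervalIntegrable _ _), intervalIntegral.integral_const_mul] at h
  change 2 * MM 0 - NN 0 = _ at h
  norm_num at h
  linarith

lemma MM_one : MM 1 = 1 / 4 := by
  have hd : ∀ s : ℝ, HasDerivAt (fun s : ℝ => -(1 / (2 * (1 + s ^ 2)))) (s ^ 1 / (1 + s ^ 2) ^ 2) s := by
    intro s
    have h2 : 2 * (1 + s ^ 2) ≠ 0 := by positivity
    have h := ((hasDerivAt_const s (1 : ℝ)).div (((hasDerivAt_pow 2 s).const_add 1).const_mul 2) h2).neg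
    refine h.congr_deriv ?_
    have := w_ne s
    push_cast
    field_simp
    ring
  unfold MM
  rw [intervalIntegral.integral_eq_sub_of_hasDerivAt (fun s _ => hd s)
    ((cM 1).intervalIntegrable _ _)]
  norm_num

lemma MM_rec (j : ℕ) : MM (j + 2) = (((j : ℝ) + 1) * NN j - 1 / 2) / 2 := by
  have c1 : Continuous fun y : ℝ => ((j : ℝ) + 1) * (y ^ j / (1 + y ^ 2)) := continuous_const.mul (cN j)
  have c2 : Continuous fun y : ℝ => 2 * (y ^ (j + 2) / (1 + y ^ 2) ^ 2) :=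
    continuous_const.mul (cM (j + 2))
  have hd : ∀ s : ℝ, HasDerivAt (fun s : ℝ => s ^ (j + 1) / (1 + s ^ 2))
      (((j : ℝ) + 1) * (s ^ j / (1 + s ^ 2)) - 2 * (s ^ (j + 2) / (1 + s ^ 2) ^ 2)) s := by
    intro s
    have h := (hasDerivAt_pow (j + 1) s).div ((hasDerivAt_pow 2 s).const_add 1) (w_ne s)
    refine h.congr_deriv ?_
    have := w_ne s
    simp only [Nat.add_sub_cancel]
    push_cast
    field_simp
    ring
  have h := intervalIntegral.integral_eq_sub_of_hasDerivAt (a := (0 : ℝ)) (b := 1) (fun s _ => hd s)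
    ((c1.sub c2).intervalIntegrable _ _)
  rw [intervalIntegral.integral_sub (c1.intervalIntegrable _ _) (c2.intervalIntegrable _ _),
    intervalIntegral.integral_const_mul, intervalIntegral.integral_const_mul] at h
  change ((j : ℝ) + 1) * NN j - 2 * MM (j + 2) = _ at h
  norm_num at h
  linarith

lemma int5 (c1 c2 c3 c4 c5 : ℝ) (i j a b c : ℕ) :
    ∫ s in (0 : ℝ)..1, (c1 * (s ^ i / (1 + s ^ 2)) + c2 * (s ^ j / (1 + s ^ 2))
      + c3 * (s ^ a / (1 + s ^ 2) ^ 2) + c4 * (s ^ b / (1 + s ^ 2) ^ 2)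
      + c5 * (s ^ c / (1 + s ^ 2) ^ 2)) =
    c1 * NN i + c2 * NN j + c3 * MM a + c4 * MM b + c5 * MM c := by
  have h1 := cN i
  have h2 := cN j
  have h3 := cM a
  have h4 := cM b
  have h5 := cM c
  rw [intervalIntegral.integral_add, intervalIntegral.integral_add, intervalIntegral.integral_add,
    intervalIntegral.integral_add, intervalIntegral.integral_const_mul,
    intervalIntegral.integral_const_mul, intervalIntegral.integral_const_mul,
    intervalIntegral.integral_const_mul, intervalIntegral.integral_const_mul]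
  · rfl
  all_goals exact Continuous.intervalIntegrable (by fun_prop) _ _

/-- `kc` of the kernel of `X1` -/
lemma kc1 (n : ℕ) : kc (fun s => 1 / wt 1 s) (fun s => 1 ^ 2 / wt 1 s ^ 2) n =
    (n : ℝ) * NN (2 * n - 2) + MM (2 * n) := by
  have h := int5 n 0 1 0 0 (2 * n - 2) 0 (2 * n) 0 0
  have e : (n : ℝ) * NN (2 * n - 2) + MM (2 * n) =
      n * NN (2 * n - 2) + 0 * NN 0 + 1 * MM (2 * n) + 0 * MM 0 + 0 * MM 0 := by ring
  rw [e, ← h]
  unfold kc
  refine intervalIntegral.integral_congr fun s _ => ?_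
  simp only [wt, one_mul]
  ring

/-- `kc` of the kernel of `X1 - X2` -/
lemma kc2 (n : ℕ) : kc (fun _ => 0) (fun s => 1 ^ 2 * s / wt 1 s ^ 2) n = MM (2 * n + 1) := by
  have h := int5 0 0 1 0 0 0 0 (2 * n + 1) 0 0
  have e : MM (2 * n + 1) =
      0 * NN 0 + 0 * NN 0 + 1 * MM (2 * n + 1) + 0 * MM 0 + 0 * MM 0 := by ring
  rw [e, ← h]
  unfold kc
  refine intervalIntegral.integral_congr fun s _ => ?_
  simp only [wt, one_mul]
  ring

/-- `kc` of the kernel of `X3` -/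
lemma kc3 (n : ℕ) : kc (fun s => (1 + 3 * 1 * (1 - s ^ 2)) / wt 1 s)
      (fun s => 1 * (3 * 1 * (1 - s) ^ 2 - 1 - wt 1 s) / wt 1 s ^ 2) n =
    n * (4 * NN (2 * n - 2) - 3 * NN (2 * n)) + MM (2 * n) - 6 * MM (2 * n + 1)
      + 2 * MM (2 * n + 2) := by
  have h := int5 (4 * n) (-(3 * n)) 1 (-6) 2 (2 * n - 2) (2 * n) (2 * n) (2 * n + 1) (2 * n + 2)
  have e : n * (4 * NN (2 * n - 2) - 3 * NN (2 * n)) + MM (2 * n) - 6 * MM (2 * n + 1)
      + 2 * MM (2 * n + 2) = 4 * n * NN (2 * n - 2) + -(3 * n) * NN (2 * n) + 1 * MM (2 * n)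
      + -6 * MM (2 * n + 1) + 2 * MM (2 * n + 2) := by ring
  rw [e, ← h]
  unfold kc
  refine intervalIntegral.integral_congr fun s _ => ?_
  simp only [wt, one_mul]
  rcases n with _ | n
  · simp
    ring
  · have e2 : 2 * (n + 1) - 2 = 2 * n := by omega
    rw [e2]
    have := w_ne s
    push_cast
    field_simp
    ring

/-- coefficients of `X1` -/
noncomputable def a1 (n : ℕ) : ℝ := (n : ℝ) * NN (2 * n - 2) + MM (2 * n)

/-- coefficients of `ζ/2 X1 - (X1 - X2)` -/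
noncomputable def a2 (n : ℕ) : ℝ := 29 / 200 * a1 n - MM (2 * n + 1)

/-- coefficients of `4 X2 - (η - 2ζ + 1) X1 - X3` -/
noncomputable def a3 (n : ℕ) : ℝ := 83 / 50 * a1 n - 4 * MM (2 * n + 1) -
  (n * (4 * NN (2 * n - 2) - 3 * NN (2 * n)) + MM (2 * n) - 6 * MM (2 * n + 1)
      + 2 * MM (2 * n + 2))

lemma NN_nonneg (j : ℕ) : 0 ≤ NN j := by
  unfold NN
  refine intervalIntegral.integral_nonneg zero_le_one fun s hs => ?_
  have := hs.1
  positivity

lemma MM_nonneg (j : ℕ) : 0 ≤ MM j := by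
  unfold MM
  refine intervalIntegral.integral_nonneg zero_le_one fun s hs => ?_
  have := hs.1
  positivity

lemma a1_nonneg (n : ℕ) : 0 ≤ a1 n := by
  unfold a1
  have := NN_nonneg (2 * n - 2)
  have := MM_nonneg (2 * n)
  positivity

/-- the tail of `a2` -/
lemma a2_nonneg {n : ℕ} (hn : 3 ≤ n) : 0 ≤ a2 n := by
  have h := int5 (29 / 200 * n) 0 (29 / 200) (-1) 0 (2 * n - 2) 0 (2 * n) (2 * n + 1) 0
  have e : a2 n = 29 / 200 * n * NN (2 * n - 2) + 0 * NN 0 + 29 / 200 * MM (2 * n)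
      + -1 * MM (2 * n + 1) + 0 * MM 0 := by
    unfold a2 a1
    ring
  rw [e, ← h]
  refine intervalIntegral.integral_nonneg zero_le_one fun s hs => ?_
  obtain ⟨m, rfl⟩ : ∃ m, n = m + 1 := ⟨n - 1, by omega⟩
  have e2 : 2 * (m + 1) - 2 = 2 * m := by omega
  rw [e2]
  have hm : (3 : ℝ) ≤ ((m + 1 : ℕ) : ℝ) := by exact_mod_cast hn
  set N : ℝ := ((m + 1 : ℕ) : ℝ) with hN
  have hw := w_ne s
  have e3 : 29 / 200 * N * (s ^ (2 * m) / (1 + s ^ 2)) + 0 * (s ^ 0 / (1 + s ^ 2))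
      + 29 / 200 * (s ^ (2 * (m + 1)) / (1 + s ^ 2) ^ 2)
      + -1 * (s ^ (2 * (m + 1) + 1) / (1 + s ^ 2) ^ 2) + 0 * (s ^ 0 / (1 + s ^ 2) ^ 2) =
      s ^ (2 * m) * (29 / 200 * N * (1 + s ^ 2) + s ^ 2 * (29 / 200 - s)) / (1 + s ^ 2) ^ 2 := by
    field_simp
    ring
  rw [e3]
  have h0 := hs.1
  have h1 := hs.2
  have key : 0 ≤ 29 / 200 * N * (1 + s ^ 2) + s ^ 2 * (29 / 200 - s) := by
    have k1 : 29 / 200 * 3 * (1 + s ^ 2) ≤ 29 / 200 * N * (1 + s ^ 2) := by gcongr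
    have k2 : 0 ≤ (1 - s) * (42 / 100 + 42 / 100 * s + s ^ 2) := by
      apply mul_nonneg (by linarith)
      positivity
    nlinarith
  exact div_nonneg (mul_nonneg (pow_nonneg h0 _) key) (by positivity)

/-- the tail of `a3` -/
lemma a3_nonneg {n : ℕ} (hn : 8 ≤ n) : 0 ≤ a3 n := by
  obtain ⟨m, rfl⟩ : ∃ m, n = m + 1 := ⟨n - 1, by omega⟩
  have e2 : 2 * (m + 1) - 2 = 2 * m := by omega
  have hm : (8 : ℝ) ≤ (m : ℝ) + 1 := by exact_mod_cast hn
  have h := int5 (-(234 / 100) * ((m : ℝ) + 1)) (3 * ((m : ℝ) + 1)) (66 / 100) 2 (-2) (2 * m) (2 * m + 2) (2 * m + 2)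
    (2 * m + 3) (2 * m + 4)
  have e : a3 (m + 1) = -(234 / 100) * ((m : ℝ) + 1) * NN (2 * m) + 3 * ((m : ℝ) + 1) * NN (2 * m + 2)
      + 66 / 100 * MM (2 * m + 2) + 2 * MM (2 * m + 3) + -2 * MM (2 * m + 4) := by
    unfold a3 a1
    rw [e2]
    push_cast
    have e4 : 2 * (m + 1) = 2 * m + 2 := by ring
    rw [e4]
    ring
  rw [e, ← h]
  have hlow : ∫ s in (0 : ℝ)..1, (-(234 / 100) * ((m : ℝ) + 1) * s ^ (2 * m)
      + (267 / 100 * ((m : ℝ) + 1) + 165 / 1000) * s ^ (2 * m + 2)) ≤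
      ∫ s in (0 : ℝ)..1, (-(234 / 100) * ((m : ℝ) + 1) * (s ^ (2 * m) / (1 + s ^ 2))
        + 3 * ((m : ℝ) + 1) * (s ^ (2 * m + 2) / (1 + s ^ 2))
        + 66 / 100 * (s ^ (2 * m + 2) / (1 + s ^ 2) ^ 2) + 2 * (s ^ (2 * m + 3) / (1 + s ^ 2) ^ 2)
        + -2 * (s ^ (2 * m + 4) / (1 + s ^ 2) ^ 2)) := by
    have h1 := cN (2 * m)
    have h2 := cN (2 * m + 2)
    have h3 := cM (2 * m + 2)
    have h4 := cM (2 * m + 3)
    have h5 := cM (2 * m + 4)
    refine intervalIntegral.integral_mono_on zero_le_one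
      (Continuous.intervalIntegrable (by fun_prop) _ _)
      (Continuous.intervalIntegrable (by fun_prop) _ _) fun s hs => ?_
    have h0 := hs.1
    have h1 := hs.2
    have hw := w_ne s
    have hwp : (0 : ℝ) < 1 + s ^ 2 := by positivity
    set N : ℝ := (m : ℝ) + 1 with hN
    have hN0 : 0 ≤ N := by linarith
    have e5 : -(234 / 100) * N * (s ^ (2 * m) / (1 + s ^ 2)) + 3 * N * (s ^ (2 * m + 2) / (1 + s ^ 2))
        + 66 / 100 * (s ^ (2 * m + 2) / (1 + s ^ 2) ^ 2) + 2 * (s ^ (2 * m + 3) / (1 + s ^ 2) ^ 2)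
        + -2 * (s ^ (2 * m + 4) / (1 + s ^ 2) ^ 2) - (-(234 / 100) * N * s ^ (2 * m)
        + (267 / 100 * N + 165 / 1000) * s ^ (2 * m + 2)) =
        s ^ (2 * m) * (N * (267 / 100 * s ^ 2 * (1 - s ^ 2) * (1 + s ^ 2)) + s ^ 2 * (2 * s * (1 - s)
          + 66 / 100 - 165 / 1000 * (1 + s ^ 2) ^ 2)) / (1 + s ^ 2) ^ 2 := by
      field_simp
      ring
    have key : 0 ≤ N * (267 / 100 * s ^ 2 * (1 - s ^ 2) * (1 + s ^ 2)) + s ^ 2 * (2 * s * (1 - s)
          + 66 / 100 - 165 / 1000 * (1 + s ^ 2) ^ 2) := by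
      have hs2 : s ^ 2 ≤ 1 := by nlinarith
      have k1 : 0 ≤ 1 - s ^ 2 := by linarith
      have k2 : 0 ≤ 2 * s * (1 - s) + 66 / 100 - 165 / 1000 * (1 + s ^ 2) ^ 2 := by
        have k3 : (1 + s ^ 2) ^ 2 ≤ 4 := by nlinarith
        have k4 : 0 ≤ 2 * s * (1 - s) := by
          apply mul_nonneg (by linarith) (by linarith)
        linarith
      have k5 : 0 ≤ N * (267 / 100 * s ^ 2 * (1 - s ^ 2) * (1 + s ^ 2)) := by positivity
      have k6 : 0 ≤ s ^ 2 * (2 * s * (1 - s) + 66 / 100 - 165 / 1000 * (1 + s ^ 2) ^ 2) :=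
        mul_nonneg (by positivity) k2
      linarith
    have := div_nonneg (mul_nonneg (pow_nonneg h0 (2 * m)) key) (by positivity : 0 ≤ (1 + s ^ 2) ^ 2)
    linarith
  refine le_trans ?_ hlow
  rw [intervalIntegral.integral_add
    (Continuous.intervalIntegrable (by fun_prop) _ _) (Continuous.intervalIntegrable (by fun_prop) _ _),
    intervalIntegral.integral_const_mul, intervalIntegral.integral_const_mul, integral_pow,
    integral_pow]
  have hm0 : (0 : ℝ) ≤ m := by positivity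
  have p1 : (0 : ℝ) < 2 * m + 1 := by positivity
  have p2 : (0 : ℝ) < 2 * m + 2 + 1 := by positivity
  simp only [one_pow, ne_eq, Nat.add_eq_zero_iff, one_ne_zero, and_false, not_false_eq_true, zero_pow,
    sub_zero]
  push_cast
  have e6 : -(234 / 100) * ((m : ℝ) + 1) * (1 / (2 * (m : ℝ) + 1))
      + (267 / 100 * ((m : ℝ) + 1) + 165 / 1000) * (1 / (2 * (m : ℝ) + 2 + 1)) =
      (66 / 100 * (m : ℝ) ^ 2 - 336 / 100 * m - 4185 / 1000) / ((2 * m + 1) * (2 * m + 2 + 1)) := by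
    field_simp
    ring
  have h7 : (7 : ℝ) ≤ m := by linarith
  have e7 : 0 ≤ (66 / 100 * (m : ℝ) ^ 2 - 336 / 100 * m - 4185 / 1000) := by nlinarith
  have e8 := div_nonneg e7 (mul_pos p1 p2).le
  rw [← e6] at e8
  exact e8

/-! ## values -/

lemma nn0 : NN 0 = Real.pi / 4 := NN_zero
lemma nn1 : NN 1 = Real.log 2 / 2 := NN_one
lemma nn2 : NN 2 = 1 - Real.pi / 4 := by
  have h := NN_rec 0
  rw [nn0] at h
  norm_num at h
  linarith
lemma nn3 : NN 3 = 1 / 2 - Real.log 2 / 2 := by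
  have h := NN_rec 1
  rw [nn1] at h
  norm_num at h
  linarith
lemma nn4 : NN 4 = -2 / 3 + Real.pi / 4 := by
  have h := NN_rec 2
  rw [nn2] at h
  norm_num at h
  linarith
lemma nn5 : NN 5 = -1 / 4 + Real.log 2 / 2 := by
  have h := NN_rec 3
  rw [nn3] at h
  norm_num at h
  linarith
lemma nn6 : NN 6 = 13 / 15 - Real.pi / 4 := by
  have h := NN_rec 4
  rw [nn4] at h
  norm_num at h
  linarith
lemma nn7 : NN 7 = 5 / 12 - Real.log 2 / 2 := by
  have h := NN_rec 5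
  rw [nn5] at h
  norm_num at h
  linarith
lemma nn8 : NN 8 = -76 / 105 + Real.pi / 4 := by
  have h := NN_rec 6
  rw [nn6] at h
  norm_num at h
  linarith
lemma nn9 : NN 9 = -7 / 24 + Real.log 2 / 2 := by
  have h := NN_rec 7
  rw [nn7] at h
  norm_num at h
  linarith
lemma nn10 : NN 10 = 263 / 315 - Real.pi / 4 := by
  have h := NN_rec 8
  rw [nn8] at h
  norm_num at h
  linarith
lemma nn11 : NN 11 = 47 / 120 - Real.log 2 / 2 := by
  have h := NN_rec 9
  rw [nn9] at h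
  norm_num at h
  linarith
lemma nn12 : NN 12 = -2578 / 3465 + Real.pi / 4 := by
  have h := NN_rec 10
  rw [nn10] at h
  norm_num at h
  linarith
lemma nn13 : NN 13 = -37 / 120 + Real.log 2 / 2 := by
  have h := NN_rec 11
  rw [nn11] at h
  norm_num at h
  linarith
lemma nn14 : NN 14 = 36979 / 45045 - Real.pi / 4 := by
  have h := NN_rec 12
  rw [nn12] at h
  norm_num at h
  linarith
lemma nn15 : NN 15 = 319 / 840 - Real.log 2 / 2 := by
  have h := NN_rec 13
  rw [nn13] at h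
  norm_num at h
  linarith
lemma nn16 : NN 16 = -33976 / 45045 + Real.pi / 4 := by
  have h := NN_rec 14
  rw [nn14] at h
  norm_num at h
  linarith
lemma mm0 : MM 0 = Real.pi / 8 + 1 / 4 := by
  rw [MM_zero, nn0]
  ring
lemma mm1 : MM 1 = 1 / 4 := MM_one
lemma mm2 : MM 2 = -1 / 4 + 1 / 8 * Real.pi := by
  have h := MM_rec 0
  rw [nn0] at h
  norm_num at h
  linarith
lemma mm3 : MM 3 = -1 / 4 + 1 / 2 * Real.log 2 := by
  have h := MM_rec 1
  rw [nn1] at h
  norm_num at h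
  linarith
lemma mm4 : MM 4 = 5 / 4 + -3 / 8 * Real.pi := by
  have h := MM_rec 2
  rw [nn2] at h
  norm_num at h
  linarith
lemma mm5 : MM 5 = 3 / 4 + -1 * Real.log 2 := by
  have h := MM_rec 3
  rw [nn3] at h
  norm_num at h
  linarith
lemma mm6 : MM 6 = -23 / 12 + 5 / 8 * Real.pi := by
  have h := MM_rec 4
  rw [nn4] at h
  norm_num at h
  linarith
lemma mm7 : MM 7 = -1 + 3 / 2 * Real.log 2 := by
  have h := MM_rec 5
  rw [nn5] at h
  norm_num at h
  linarith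
lemma mm8 : MM 8 = 167 / 60 + -7 / 8 * Real.pi := by
  have h := MM_rec 6
  rw [nn6] at h
  norm_num at h
  linarith
lemma mm9 : MM 9 = 17 / 12 + -2 * Real.log 2 := by
  have h := MM_rec 7
  rw [nn7] at h
  norm_num at h
  linarith
lemma mm10 : MM 10 = -491 / 140 + 9 / 8 * Real.pi := by
  have h := MM_rec 8
  rw [nn8] at h
  norm_num at h
  linarith
lemma mm11 : MM 11 = -41 / 24 + 5 / 2 * Real.log 2 := by
  have h := MM_rec 9
  rw [nn9] at h
  norm_num at h
  linarith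
lemma mm12 : MM 12 = 5471 / 1260 + -11 / 8 * Real.pi := by
  have h := MM_rec 10
  rw [nn10] at h
  norm_num at h
  linarith
lemma mm13 : MM 13 = 21 / 10 + -3 * Real.log 2 := by
  have h := MM_rec 11
  rw [nn11] at h
  norm_num at h
  linarith
lemma mm14 : MM 14 = -70493 / 13860 + 13 / 8 * Real.pi := by
  have h := MM_rec 12
  rw [nn12] at h
  norm_num at h
  linarith
lemma mm15 : MM 15 = -289 / 120 + 7 / 2 * Real.log 2 := by
  have h := MM_rec 13
  rw [nn13] at h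
  norm_num at h
  linarith
lemma mm16 : MM 16 = 70955 / 12012 + -15 / 8 * Real.pi := by
  have h := MM_rec 14
  rw [nn14] at h
  norm_num at h
  linarith
lemma bt0 : bet 0 = 1 := bet_zero
lemma bt1 : bet 1 = 1 / 2 := by
  have h := bet_succ 0
  rw [bt0] at h
  norm_num at h
  linarith
lemma bt2 : bet 2 = 3 / 32 := by
  have h := bet_succ 1
  rw [bt1] at h
  norm_num at h
  linarith
lemma bt3 : bet 3 = 5 / 576 := by
  have h := bet_succ 2
  rw [bt2] at h
  norm_num at h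
  linarith
lemma bt4 : bet 4 = 35 / 73728 := by
  have h := bet_succ 3
  rw [bt3] at h
  norm_num at h
  linarith
lemma bt5 : bet 5 = 7 / 409600 := by
  have h := bet_succ 4
  rw [bt4] at h
  norm_num at h
  linarith
lemma bt6 : bet 6 = 77 / 176947200 := by
  have h := bet_succ 5
  rw [bt5] at h
  norm_num at h
  linarith
lemma bt7 : bet 7 = 143 / 17340825600 := by
  have h := bet_succ 6
  rw [bt6] at h
  norm_num at h
  linarith
lemma a2_0 : a2 0 = -171 / 800 + 29 / 1600 * Real.pi + 0 * Real.log 2 := by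
  unfold a2 a1
  norm_num [mm0, mm1, nn0]
  ring
lemma a2_1 : a2 1 = 171 / 800 + 87 / 1600 * Real.pi + -1 / 2 * Real.log 2 := by
  unfold a2 a1
  norm_num [mm2, mm3, nn0]
  ring
lemma a2_2 : a2 2 = -223 / 800 + -203 / 1600 * Real.pi + 1 * Real.log 2 := by
  unfold a2 a1
  norm_num [mm4, mm5, nn2]
  ring
lemma a2_3 : a2 3 = 1037 / 2400 + 319 / 1600 * Real.pi + -3 / 2 * Real.log 2 := by
  unfold a2 a1
  norm_num [mm6, mm7, nn4]
  ring
lemma a2_4 : a2 4 = -49 / 96 + -87 / 320 * Real.pi + 2 * Real.log 2 := by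
  unfold a2 a1
  norm_num [mm8, mm9, nn6]
  ring
lemma a3_0 : a3 0 = 233 / 200 + -67 / 400 * Real.pi + 0 * Real.log 2 := by
  unfold a3 a1
  norm_num [mm0, mm1, mm2, nn0]
  ring
lemma a3_1 : a3 1 = -33 / 200 + -201 / 400 * Real.pi + 1 * Real.log 2 := by
  unfold a3 a1
  norm_num [mm2, mm3, mm4, nn0, nn2]
  ring
lemma a3_2 : a3 2 = -1513 / 600 + 469 / 400 * Real.pi + -2 * Real.log 2 := by
  unfold a3 a1
  norm_num [mm4, mm5, mm6, nn2, nn4]
  ring
lemma a3_3 : a3 3 = 2189 / 600 + -737 / 400 * Real.pi + 3 * Real.log 2 := by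
  unfold a3 a1
  norm_num [mm6, mm7, mm8, nn4, nn6]
  ring
lemma a3_4 : a3 4 = -859 / 168 + 201 / 80 * Real.pi + -4 * Real.log 2 := by
  unfold a3 a1
  norm_num [mm10, mm8, mm9, nn6, nn8]
  ring
lemma a3_5 : a3 5 = 414343 / 63000 + -1273 / 400 * Real.pi + 5 * Real.log 2 := by
  unfold a3 a1
  norm_num [mm10, mm11, mm12, nn10, nn8]
  ring
lemma a3_6 : a3 6 = -5458471 / 693000 + 1541 / 400 * Real.pi + -6 * Real.log 2 := by
  unfold a3 a1
  norm_num [mm12, mm13, mm14, nn10, nn12]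
  ring
lemma a3_7 : a3 7 = 28345439 / 3003000 + -1809 / 400 * Real.pi + 7 * Real.log 2 := by
  unfold a3 a1
  norm_num [mm14, mm15, mm16, nn12, nn14]
  ring

/-- lower bounds of the coefficients -/
lemma lo0 : 31939 / 50000 ≤ bet 0 * a3 0 := by
  rw [bt0, a3_0]
  have h1 := Real.pi_gt_d20
  have h2 := Real.pi_lt_d20
  have h3 := Real.log_two_gt_d9
  have h4 := Real.log_two_lt_d9
  norm_num at h1 h2 h3 h4 ⊢
  linarith
lemma lo1 : -265909 / 506250 ≤ bet 1 * a3 1 := by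
  rw [bt1, a3_1]
  have h1 := Real.pi_gt_d20
  have h2 := Real.pi_lt_d20
  have h3 := Real.log_two_gt_d9
  have h4 := Real.log_two_lt_d9
  norm_num at h1 h2 h3 h4 ⊢
  linarith
lemma lo2 : -47936 / 2278125 ≤ bet 2 * a3 2 := by
  rw [bt2, a3_2]
  have h1 := Real.pi_gt_d20
  have h2 := Real.pi_lt_d20
  have h3 := Real.log_two_gt_d9
  have h4 := Real.log_two_lt_d9
  norm_num at h1 h2 h3 h4 ⊢
  linarith
lemma lo3 : -873856 / 1660753125 ≤ bet 3 * a3 3 := by
  rw [bt3, a3_3]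
  have h1 := Real.pi_gt_d20
  have h2 := Real.pi_lt_d20
  have h3 := Real.log_two_gt_d9
  have h4 := Real.log_two_lt_d9
  norm_num at h1 h2 h3 h4 ⊢
  linarith
lemma lo4 : 96256 / 26904200625 ≤ bet 4 * a3 4 := by
  rw [bt4, a3_4]
  have h1 := Real.pi_gt_d20
  have h2 := Real.pi_lt_d20
  have h3 := Real.log_two_gt_d9
  have h4 := Real.log_two_lt_d9
  norm_num at h1 h2 h3 h4 ⊢
  linarith
lemma lo5 : 917504 / 1210689028125 ≤ bet 5 * a3 5 := by
  rw [bt5, a3_5]
  have h1 := Real.pi_gt_d20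
  have h2 := Real.pi_lt_d20
  have h3 := Real.log_two_gt_d9
  have h4 := Real.log_two_lt_d9
  norm_num at h1 h2 h3 h4 ⊢
  linarith
lemma lo6 : 25690112 / 882592301503125 ≤ bet 6 * a3 6 := by
  rw [bt6, a3_6]
  have h1 := Real.pi_gt_d20
  have h2 := Real.pi_lt_d20
  have h3 := Real.log_two_gt_d9
  have h4 := Real.log_two_lt_d9
  norm_num at h1 h2 h3 h4 ⊢
  linarith
lemma lo7 : 8388608 / 14297995284350625 ≤ bet 7 * a3 7 := by
  rw [bt7, a3_7]
  have h1 := Real.pi_gt_d20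
  have h2 := Real.pi_lt_d20
  have h3 := Real.log_two_gt_d9
  have h4 := Real.log_two_lt_d9
  norm_num at h1 h2 h3 h4 ⊢
  linarith

lemma poly_nonneg {z : ℝ} (hz : 1 ≤ z) : 0 ≤ (-68061 / 50000) * z ^ 0 + (240341 / 100000) * z ^ 1 + (-6741 / 12500) * z ^ 2 + (-6827 / 100000) * z ^ 3 + (47 / 20000) * z ^ 4 + (63 / 25000) * z ^ 5 + (49 / 100000) * z ^ 6 + (1 / 20000) * z ^ 7 := by
  rcases le_total z 3 with h | h
  · obtain ⟨u, hu⟩ : ∃ u, u = z - 1 := ⟨_, rfl⟩
    obtain ⟨v, hv⟩ : ∃ v, v = 3 - z := ⟨_, rfl⟩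
    have hu0 : 0 ≤ u := by linarith
    have hv0 : 0 ≤ v := by linarith
    have e : (-68061 / 50000) * z ^ 0 + (240341 / 100000) * z ^ 1 + (-6741 / 12500) * z ^ 2 + (-6827 / 100000) * z ^ 3 + (47 / 20000) * z ^ 4 + (63 / 25000) * z ^ 5 + (49 / 100000) * z ^ 6 + (1 / 20000) * z ^ 7 = (8801 / 2560000) * u ^ 0 * v ^ 7 + (537101 / 12800000) * u ^ 1 * v ^ 6 + (403989 / 2560000) * u ^ 2 * v ^ 5 + (3565689 / 12800000) * u ^ 3 * v ^ 4 + (3303631 / 12800000) * u ^ 4 * v ^ 3 + (1604631 / 12800000) * u ^ 5 * v ^ 2 + (381347 / 12800000) * u ^ 6 * v ^ 1 + (42147 / 12800000) * u ^ 7 * v ^ 0 := by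
      rw [hu, hv]
      ring
    rw [e]
    positivity
  · rcases le_total z 4 with h' | h'
    · obtain ⟨u, hu⟩ : ∃ u, u = z - 3 := ⟨_, rfl⟩
      obtain ⟨v, hv⟩ : ∃ v, v = 4 - z := ⟨_, rfl⟩
      have hu0 : 0 ≤ u := by linarith
      have hv0 : 0 ≤ v := by linarith
      have e : (-68061 / 50000) * z ^ 0 + (240341 / 100000) * z ^ 1 + (-6741 / 12500) * z ^ 2 + (-6827 / 100000) * z ^ 3 + (47 / 20000) * z ^ 4 + (63 / 25000) * z ^ 5 + (49 / 100000) * z ^ 6 + (1 / 20000) * z ^ 7 = (42147 / 100000) * u ^ 0 * v ^ 7 + (25187 / 10000) * u ^ 1 * v ^ 6 + (338271 / 50000) * u ^ 2 * v ^ 5 + (1139113 / 100000) * u ^ 3 * v ^ 4 + (684321 / 50000) * u ^ 4 * v ^ 3 + (143223 / 12500) * u ^ 5 * v ^ 2 + (575729 / 100000) * u ^ 6 * v ^ 1 + (63149 / 50000) * u ^ 7 * v ^ 0 := by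
        rw [hu, hv]
        ring
      rw [e]
      positivity
    · obtain ⟨u, hu⟩ : ∃ u, u = z - 4 := ⟨_, rfl⟩
      have hu0 : 0 ≤ u := by linarith
      have e : (-68061 / 50000) * z ^ 0 + (240341 / 100000) * z ^ 1 + (-6741 / 12500) * z ^ 2 + (-6827 / 100000) * z ^ 3 + (47 / 20000) * z ^ 4 + (63 / 25000) * z ^ 5 + (49 / 100000) * z ^ 6 + (1 / 20000) * z ^ 7 = (63149 / 50000) * u ^ 0 + (308357 / 100000) * u ^ 1 + (85917 / 25000) * u ^ 2 + (144773 / 100000) * u ^ 3 + (5647 / 20000) * u ^ 4 + (777 / 25000) * u ^ 5 + (189 / 100000) * u ^ 6 + (1 / 20000) * u ^ 7 := by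
        rw [hu]
        ring
      rw [e]
      positivity

end NumNAux

open NumNAux

theorem numN : NumE (9 / 4) 1 (48 / 25) (29 / 100) := by
  intro k hk
  have hk0 : 0 < k := by linarith
  have hx : (81 / 16 : ℝ) ≤ k ^ 2 := by nlinarith
  have hw := continuous_wt 1
  have e1 : ∀ s, wt 1 s ≠ 0 := fun s => (wt_pos one_pos s).ne'
  have e2 : ∀ s, wt 1 s ^ 2 ≠ 0 := fun s => pow_ne_zero 2 (e1 s)
  have h1 := kern_hasSum k (p := fun s => 1 / wt 1 s) (q := fun s => 1 ^ 2 / wt 1 s ^ 2)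
    (Continuous.continuousOn (by fun_prop (disch := assumption)))
    (Continuous.continuousOn (by fun_prop (disch := assumption)))
  rw [← X1_kern hk0 one_pos] at h1
  have h2 := kern_hasSum k (p := fun _ => 0) (q := fun s => 1 ^ 2 * s / wt 1 s ^ 2)
    (Continuous.continuousOn (by fun_prop (disch := assumption)))
    (Continuous.continuousOn (by fun_prop (disch := assumption)))
  rw [← X12_kern hk0 one_pos] at h2
  have h3 := kern_hasSum k (p := fun s => (1 + 3 * 1 * (1 - s ^ 2)) / wt 1 s)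
    (q := fun s => 1 * (3 * 1 * (1 - s) ^ 2 - 1 - wt 1 s) / wt 1 s ^ 2)
    (Continuous.continuousOn (by fun_prop (disch := assumption)))
    (Continuous.continuousOn (by fun_prop (disch := assumption)))
  rw [← X3_kern hk0 one_pos] at h3
  simp only [kc1] at h1
  simp only [kc2] at h2
  simp only [kc3] at h3
  have hD2 : HasSum (fun n => bet n * a2 n * (k ^ 2) ^ n)
      (29 / 200 * X1 k 1 - (X1 k 1 - X2 k 1)) :=
    hasSum_of_eq ((h1.mul_left (29 / 200)).sub h2) (fun n => by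
      unfold a2 a1
      rw [pow_mul]
      ring) rfl
  have hD3 : HasSum (fun n => bet n * a3 n * (k ^ 2) ^ n)
      (83 / 50 * X1 k 1 - 4 * (X1 k 1 - X2 k 1) - X3 k 1) :=
    hasSum_of_eq (((h1.mul_left (83 / 50)).sub (h2.mul_left 4)).sub h3) (fun n => by
      unfold a3 a1
      rw [pow_mul]
      ring) rfl
  have hpi := Real.pi_gt_d20
  have hpi' := Real.pi_lt_d20
  have hl := Real.log_two_gt_d9
  have hl' := Real.log_two_lt_d9
  norm_num at hpi hpi' hl hl'
  refine ⟨?_, ?_, ?_⟩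
  · have h := le_hasSum h1 0 (fun n _ => by
      have := bet_nonneg n
      have h4 := a1_nonneg n
      unfold a1 at h4
      have : 0 ≤ k ^ (2 * n) := by positivity
      positivity)
    rw [bet_zero] at h
    simp only [Nat.mul_zero, pow_zero, Nat.cast_zero, zero_mul, zero_add, one_mul, mul_one] at h
    rw [mm0] at h
    linarith
  · have key : 0 ≤ 29 / 200 * X1 k 1 - (X1 k 1 - X2 k 1) := by
      refine PhXAux.pattern (m := 1) (N := 5) (x0 := 81 / 16) hD2 (by norm_num) hx ?_ ?_ (by norm_num) ?_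
      · intro n hn
        interval_cases n
        rw [bt0, a2_0]
        linarith
      · intro n hn
        refine mul_nonneg (bet_nonneg n) ?_
        rcases lt_or_ge n 3 with h4 | h4
        · interval_cases n
          · rw [a2_1]
            linarith
          · rw [a2_2]
            linarith
        · exact a2_nonneg h4
      · simp only [Finset.sum_range_succ, Finset.sum_range_zero]
        rw [bt0, bt1, bt2, bt3, bt4, a2_0, a2_1, a2_2, a2_3, a2_4]
        norm_num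
        linarith
    norm_num at key ⊢
    linarith
  · have hS : ∑ n ∈ Finset.range 8, bet n * a3 n * (k ^ 2) ^ n ≤
        83 / 50 * X1 k 1 - 4 * (X1 k 1 - X2 k 1) - X3 k 1 := by
      refine sum_le_hasSum _ (fun n hn => ?_) hD3
      rw [Finset.mem_range, not_lt] at hn
      exact mul_nonneg (mul_nonneg (bet_nonneg n) (a3_nonneg hn)) (by positivity)
    obtain ⟨z, hz⟩ : ∃ z : ℝ, z = k ^ 2 / (81 / 16) := ⟨_, rfl⟩
    have hz1 : 1 ≤ z := by
      rw [hz, le_div_iff₀ (by norm_num)]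
      linarith
    have hkz : k ^ 2 = 81 / 16 * z := by
      rw [hz]
      ring
    have hP := poly_nonneg hz1
    have hz0 : 0 ≤ z := by linarith
    rw [hkz] at hS
    simp only [Finset.sum_range_succ, Finset.sum_range_zero] at hS
    have m0 := lo0
    have m1 := mul_le_mul_of_nonneg_right lo1 (by positivity : 0 ≤ (81 / 16 * z) ^ 1)
    have m2 := mul_le_mul_of_nonneg_right lo2 (by positivity : 0 ≤ (81 / 16 * z) ^ 2)
    have m3 := mul_le_mul_of_nonneg_right lo3 (by positivity : 0 ≤ (81 / 16 * z) ^ 3)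
    have m4 := mul_le_mul_of_nonneg_right lo4 (by positivity : 0 ≤ (81 / 16 * z) ^ 4)
    have m5 := mul_le_mul_of_nonneg_right lo5 (by positivity : 0 ≤ (81 / 16 * z) ^ 5)
    have m6 := mul_le_mul_of_nonneg_right lo6 (by positivity : 0 ≤ (81 / 16 * z) ^ 6)
    have m7 := mul_le_mul_of_nonneg_right lo7 (by positivity : 0 ≤ (81 / 16 * z) ^ 7)
    unfold X3e
    rw [hkz]
    norm_num at hS m0 m1 m2 m3 m4 m5 m6 m7 hP ⊢
    linarith [mul_pow (81 / 16) z 2]

end Pool.Agent.RC
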