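import Pool.Agent.H.MP_1b807b_an.C.HTest
import Pool.Agent.H.MP_1b807b_an.C.HNonneg
import Pool.Agent.H.MP_1b807b_an.C.NumN
import Pool.Agent.H.MP_1b807b_an.C.CertN
import Pool.Agent.H.MP_1b807b_an.C.Halves
import Pool.Agent.H.MP_1b807b_an.C.Cases

/-! MP_1b807b_an, convex planar domains, module CaseHE: the step (H) as a case; the case (N) -/

set_option autoImplicit false

namespace Pool.Agent.RC

open MeasureTheory Metric Set
open Pool.Agent.RG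
open scoped RealInnerProductSpace

theorem KB.mono {k₀ k b : ℝ} (h : KB k₀ b) (hk : k₀ ≤ k) : KB k b := by
  obtain ⟨h1, h2, h3, h4⟩ := h
  have hk2 : k₀ ^ 2 ≤ k ^ 2 := by gcongr
  refine ⟨h1.trans_le hk, h2, h3.trans hk2, ?_⟩
  have h5 : 0 ≤ (k ^ 2 - k₀ ^ 2) * (3 * (k ^ 2 + k₀ ^ 2) - 6 * b) :=
    mul_nonneg (by linarith) (by linarith)
  nlinarith

/-- the algebra of the step -/
theorem step_alg {x1 x2 x3 m w lam η ζ : ℝ} (h0 : 0 < x1) (h1 : x1 - x2 ≤ ζ / 2 * x1)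
    (h2 : (η - 2 * ζ + 1) * x1 + x3 ≤ 4 * x2) (hl : 0 ≤ lam) (hw : 4 * lam ≤ w)
    (hT : m - w * (1 - ζ / 2) + (3 - η) * lam ≤ 0) : x1 * m - x2 * w + x3 * lam ≤ 0 := by
  have a1 : x1 * (m - w * (1 - ζ / 2) + (3 - η) * lam) ≤ 0 :=
    mul_nonpos_of_nonneg_of_nonpos h0.le hT
  have a2 : 0 ≤ (ζ / 2 * x1 - (x1 - x2)) * (w - 4 * lam) :=
    mul_nonneg (by linarith) (by linarith)
  have a3 : 0 ≤ (4 * x2 - ((η - 2 * ζ + 1) * x1 + x3)) * lam := mul_nonneg (by linarith) hl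
  nlinarith

theorem case_HE {k₀ b η ζ lo hi κ c₁ z₀ z₁ : ℝ} (_hk : 0 < k₀) (hKB : KB k₀ b)
    (hN : NumE k₀ b η ζ) (hlo : 1 ≤ lo) (hC : ∀ l, lo ≤ l → l ≤ hi → CertE η ζ l κ c₁ z₀ z₁) :
    CaseOK fun k B => k₀ ≤ k ∧ 2 * Real.pi * lo ≤ B.len ∧ B.len ≤ 2 * Real.pi * hi := by
  intro K₀ hK d hd
  obtain ⟨C, c₀, hC0, hc0, H⟩ := H_testE (b := b) hKB.2.1 hK hd
  refine ⟨C, c₀, hC0, hc0, ?_⟩
  intro k B hk0 hkK hP hA h0 hB ε hε
  obtain ⟨hk1, hl1, hl2⟩ := hP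
  have hpi := Real.pi_pos
  have h2pi : 0 < 2 * Real.pi := by positivity
  set l := B.len / (2 * Real.pi) with hl
  have hlen : B.len = 2 * Real.pi * l := by
    rw [hl]
    field_simp
  have hl1' : lo ≤ l := by
    rw [hl, le_div_iff₀ h2pi]
    linarith
  have hl2' : l ≤ hi := by
    rw [hl, div_le_iff₀ h2pi]
    linarith
  obtain ⟨o, ho, hT⟩ := H_nonnegE (hlo.trans hl1') (hC l hl1' hl2') B hA hlen
  obtain ⟨hX1, hX12, hX3⟩ := hN k hk1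
  have hMw := Mw_ge B hA o
  have hlam : 0 ≤ B.len - 2 * Real.pi := by nlinarith
  exact ⟨_, _, _, _, H k B o (hKB.mono hk1) hkK hA h0 hB ho
    (step_alg hX1 hX12 hX3 hlam hMw hT) ε hε⟩

theorem case_N : CaseOK fun k B => 9 / 4 ≤ k ∧ 2 * Real.pi ≤ B.len ∧
    B.len ≤ 2 * Real.pi * (7 / 5) := by
  have hKB : KB (9 / 4) 1 := by
    refine ⟨by norm_num, by norm_num, by norm_num, by norm_num⟩
  have hN : NumE (9 / 4) 1 (191 / 100) (29 / 100) := by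
    intro k hk
    obtain ⟨h1, h2, h3⟩ := numN k hk
    refine ⟨h1, h2, ?_⟩
    nlinarith
  have h := case_HE (lo := 1) (hi := 7 / 5) (by norm_num) hKB hN le_rfl
    (fun l h1 h2 => cert_N h1 h2)
  simpa using h

end Pool.Agent.RC
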