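import Pool.Agent.H.MP_1b807b_an.C.Depth
import Pool.Agent.H.MP_1b807b_an.C.Sbt
import Pool.Agent.H.MP_1b807b_an.C.Gauge
import Pool.Agent.H.MP_1b807b_an.C.Far

/-! MP_1b807b_an, convex planar domains, module Collar: area of the points close to the boundary -/

set_option autoImplicit false

namespace Pool.Agent.RC

open MeasureTheory Metric Set
open Pool.Agent.RG
open scoped RealInnerProductSpace ENNReal

/-- a smooth step: `1` up to `t`, `0` after `t + e` -/
noncomputable def cstep (t e s : ℝ) : ℝ := 1 - Real.smoothTransition ((s - t) / e)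

theorem contDiff_cstep (t e : ℝ) {n : ℕ∞} : ContDiff ℝ n (cstep t e) := by
  unfold cstep
  fun_prop

theorem cstep_eq_one {t e s : ℝ} (he : 0 < e) (h : s ≤ t) : cstep t e s = 1 := by
  rw [cstep, Real.smoothTransition.zero_of_nonpos, sub_zero]
  exact div_nonpos_of_nonpos_of_nonneg (by linarith) he.le

theorem cstep_eq_zero {t e s : ℝ} (he : 0 < e) (h : t + e ≤ s) : cstep t e s = 0 := by
  rw [cstep, Real.smoothTransition.one_of_one_le, sub_self]
  rw [le_div_iff₀ he]
  linarith

theorem cstep_nonneg (t e s : ℝ) : 0 ≤ cstep t e s := by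
  have := Real.smoothTransition.le_one ((s - t) / e)
  unfold cstep
  linarith

theorem cstep_le_one (t e s : ℝ) : cstep t e s ≤ 1 := by
  have := Real.smoothTransition.nonneg ((s - t) / e)
  unfold cstep
  linarith

theorem antitone_cstep (t : ℝ) {e : ℝ} (he : 0 < e) : Antitone (cstep t e) := by
  intro a b hab
  have := Real.smoothTransition.monotone (div_le_div_of_nonneg_right (sub_le_sub_right hab t) he.le)
  unfold cstep
  linarith

namespace Body
variable (B : Body)

theorem int_ρ_sub (t : ℝ) :
    ∫ θ in (0 : ℝ)..2 * Real.pi, (B.ρ θ - t) = B.len - 2 * Real.pi * t := by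
  rw [intervalIntegral.integral_sub (B.continuous_ρ.intervalIntegrable _ _)
    (continuous_const.intervalIntegrable _ _), ← len_eq, intervalIntegral.integral_const]
  simp

theorem collar_aux (hA : B.area = Real.pi) {t : ℝ} {g g' : ℝ → ℝ}
    (hg : ∀ t, HasDerivAt g (g' t) t) (hg' : Continuous g')
    (hneg : ∀ t ∈ Icc (0 : ℝ) 1, g' t ≤ 0) (hg0 : ∀ s, 0 ≤ g s) (hg1 : ∀ s < t, g s = 1) :
    volume.real {x ∈ B.K | B.depth x < t} ≤
      ∫ s in (0 : ℝ)..1, g s * (B.len - 2 * Real.pi * s) := by
  have h1 := B.sbt hA (μ := fun _ => 1) continuous_const (fun _ => zero_le_one) 0 hg hg' hneg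
    (fun s _ => hg0 s)
  simp only [one_mul, int_ρ_sub] at h1
  refine le_trans ?_ h1
  have hgc : Continuous g := continuous_iff_continuousAt.2 fun s => (hg s).continuousAt
  have hint : IntegrableOn (fun x => g (B.depth x)) B.K :=
    (hgc.comp B.continuous_depth).continuousOn.integrableOn_compact B.isCompact_K
  have hsub : {x ∈ B.K | B.depth x < t} ⊆ B.K := fun x hx => hx.1
  have hmeas : MeasurableSet {x ∈ B.K | B.depth x < t} :=
    B.isCompact_K.measurableSet.inter
      (measurableSet_lt B.continuous_depth.measurable measurable_const)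
  have h2 : ∫ x in {x ∈ B.K | B.depth x < t}, g (B.depth x) =
      volume.real {x ∈ B.K | B.depth x < t} := by
    rw [setIntegral_congr_fun hmeas (g := fun _ => (1 : ℝ)) (fun x hx => hg1 _ hx.2)]
    simp
  rw [← h2]
  exact setIntegral_mono_set hint (Filter.Eventually.of_forall fun x => hg0 _)
    (LE.le.eventuallyLE hsub)

theorem int_lin (c a b : ℝ) : ∫ s in a..b, (c - 2 * Real.pi * s) =
    c * (b - a) - Real.pi * (b ^ 2 - a ^ 2) := by
  have hd : ∀ s ∈ uIcc a b,
      HasDerivAt (fun s => c * s - Real.pi * s ^ 2) (c - 2 * Real.pi * s) s := by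
    intro s _
    have := ((hasDerivAt_id s).const_mul c).sub ((hasDerivAt_pow 2 s).const_mul Real.pi)
    refine this.congr_deriv ?_
    norm_num
    ring
  rw [intervalIntegral.integral_eq_sub_of_hasDerivAt hd
    (Continuous.intervalIntegrable (by fun_prop) _ _)]
  ring

theorem collar (hA : B.area = Real.pi) {t : ℝ} (h0 : 0 ≤ t) (h1 : t ≤ 1) :
    volume.real {x ∈ B.K | B.depth x < t} ≤ B.len * t - Real.pi * t ^ 2 := by
  rcases h1.lt_or_eq with ht | ht
  · -- a smooth step
    have hC : 0 < B.len + 2 * Real.pi := by have := B.len_pos; positivity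
    have key : ∀ e : ℝ, 0 < e → e ≤ 1 - t → volume.real {x ∈ B.K | B.depth x < t} ≤
        B.len * t - Real.pi * t ^ 2 + (B.len + 2 * Real.pi) * e := by
      intro e he he1
      have hcd : ContDiff ℝ 1 (cstep t e) := contDiff_cstep t e
      have hcont : Continuous (cstep t e) := hcd.continuous
      refine (B.collar_aux hA (g := cstep t e) (g' := deriv (cstep t e))
        (fun s => (hcd.differentiable (by norm_num) s).hasDerivAt)
        (hcd.continuous_deriv le_rfl) (fun s _ => (antitone_cstep t he).deriv_nonpos)
        (cstep_nonneg t e) (fun s hs => cstep_eq_one he hs.le)).trans ?_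
      have hci : ∀ a b : ℝ, IntervalIntegrable
          (fun s => cstep t e s * (B.len - 2 * Real.pi * s)) volume a b := fun a b =>
        Continuous.intervalIntegrable (by fun_prop) _ _
      rw [← intervalIntegral.integral_add_adjacent_intervals (hci 0 t) (hci t 1),
        ← intervalIntegral.integral_add_adjacent_intervals (hci t (t + e)) (hci (t + e) 1)]
      have e1 : ∫ s in (0 : ℝ)..t, cstep t e s * (B.len - 2 * Real.pi * s) =
          B.len * t - Real.pi * t ^ 2 := by
        rw [intervalIntegral.integral_congr (g := fun s => B.len - 2 * Real.pi * s), int_lin]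
        · ring
        · intro s hs
          rw [uIcc_of_le h0] at hs
          simp only [cstep_eq_one he hs.2, one_mul]
      have e3 : ∫ s in (t + e)..1, cstep t e s * (B.len - 2 * Real.pi * s) = 0 := by
        rw [intervalIntegral.integral_congr (g := fun s => (0 : ℝ)),
          intervalIntegral.integral_zero]
        intro s hs
        rw [uIcc_of_le (by linarith)] at hs
        simp only [cstep_eq_zero he hs.1, zero_mul]
      have e2 : ∫ s in t..(t + e), cstep t e s * (B.len - 2 * Real.pi * s) ≤
          (B.len + 2 * Real.pi) * e := by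
        calc ∫ s in t..(t + e), cstep t e s * (B.len - 2 * Real.pi * s) ≤
            ∫ s in t..(t + e), (B.len + 2 * Real.pi) := by
              apply intervalIntegral.integral_mono_on (by linarith) (hci _ _)
                (continuous_const.intervalIntegrable _ _)
              intro s hs
              have a1 := cstep_nonneg t e s
              have a2 := cstep_le_one t e s
              have a3 : B.len - 2 * Real.pi * s ≤ B.len + 2 * Real.pi := by
                have := Real.pi_pos
                nlinarith [hs.1]
              calc cstep t e s * (B.len - 2 * Real.pi * s) ≤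
                  cstep t e s * (B.len + 2 * Real.pi) := mul_le_mul_of_nonneg_left a3 a1
                _ ≤ 1 * (B.len + 2 * Real.pi) := mul_le_mul_of_nonneg_right a2 hC.le
                _ = B.len + 2 * Real.pi := one_mul _
          _ = (B.len + 2 * Real.pi) * e := by
              rw [intervalIntegral.integral_const, smul_eq_mul]
              ring
      linarith
    apply le_of_forall_pos_le_add
    intro δ hδ
    have h2 := key (min (1 - t) (δ / (B.len + 2 * Real.pi)))
      (lt_min (by linarith) (by positivity)) (min_le_left _ _)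
    have h3 : (B.len + 2 * Real.pi) * min (1 - t) (δ / (B.len + 2 * Real.pi)) ≤ δ := by
      calc _ ≤ (B.len + 2 * Real.pi) * (δ / (B.len + 2 * Real.pi)) :=
            mul_le_mul_of_nonneg_left (min_le_right _ _) hC.le
        _ = δ := by field_simp
    linarith
  · subst ht
    refine (B.collar_aux hA (g := fun _ => 1) (g' := fun _ => 0)
      (fun s => hasDerivAt_const s 1) continuous_const (fun s _ => le_rfl)
      (fun _ => zero_le_one) (fun _ _ => rfl)).trans ?_
    simp only [one_mul]
    rw [int_lin]
    linarith

theorem len_ge (hA : B.area = Real.pi) (h0 : ∀ θ, 0 < B.h θ) : 2 * Real.pi ≤ B.len := by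
  have h1 := B.collar hA zero_le_one le_rfl
  have h2 : volume.real B.K ≤ volume.real {x ∈ B.K | B.depth x < 1} +
      volume.real {x : E 2 | 1 ≤ B.depth x} := by
    have hfin : volume ({x ∈ B.K | B.depth x < 1} ∪ {x : E 2 | 1 ≤ B.depth x}) ≠ ⊤ := by
      apply ne_top_of_le_ne_top _ (measure_union_le _ _)
      rw [B.deep_null hA, add_zero]
      exact ne_top_of_le_ne_top B.isCompact_K.measure_lt_top.ne (measure_mono fun x hx => hx.1)
    refine (measureReal_mono ?_ hfin).trans (measureReal_union_le _ _)
    intro x hx
    rcases lt_or_ge (B.depth x) 1 with h | h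
    · exact Or.inl ⟨hx, h⟩
    · exact Or.inr h
  have h3 : volume.real {x : E 2 | 1 ≤ B.depth x} = 0 := by
    rw [measureReal_def, B.deep_null hA, ENNReal.toReal_zero]
  rw [B.volume_K h0, hA, h3] at h2
  linarith

end Body
end Pool.Agent.RC
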