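import Pool.Agent.H.MP_1b807b_an.G.Defs
import Pool.Agent.H.MP_1b807b_an.Bes

/-! MP_1b807b_an, convex planar domains, module Defs: smooth strictly convex bodies given by their
support function, and test pairs -/

set_option autoImplicit false

namespace Pool.Agent.RC

open MeasureTheory Metric Set
open Pool.Agent.RG
open scoped RealInnerProductSpace

/-- the unit vector of angle `θ` -/
noncomputable def ev (θ : ℝ) : E 2 := !₂[Real.cos θ, Real.sin θ]

/-- the unit vector of angle `θ + π/2` -/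
noncomputable def ev' (θ : ℝ) : E 2 := !₂[-Real.sin θ, Real.cos θ]

/-- the inner product of `x` with the unit vector of angle `θ` -/
noncomputable def sp (x : E 2) (θ : ℝ) : ℝ := x 0 * Real.cos θ + x 1 * Real.sin θ

/-- A planar convex body with `C³` support function `h` (as a function of the angle of the outer
normal) and positive radius of curvature `h + h''`. -/
structure Body where
  h : ℝ → ℝ
  smooth : ContDiff ℝ 3 h
  per : Function.Periodic h (2 * Real.pi)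
  pos : ∀ θ, 0 < h θ + deriv (deriv h) θ

namespace Body

variable (B : Body)

noncomputable def p (θ : ℝ) : ℝ := deriv B.h θ

/-- radius of curvature -/
noncomputable def ρ (θ : ℝ) : ℝ := B.h θ + deriv (deriv B.h) θ

/-- the boundary point with outer normal `ev θ` -/
noncomputable def y (θ : ℝ) : E 2 := B.h θ • ev θ + B.p θ • ev' θ

/-- signed distance to the boundary, positive inside -/
noncomputable def depth (x : E 2) : ℝ := sInf (range fun θ => B.h θ - sp x θ)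

/-- the body -/
def K : Set (E 2) := {x | 0 ≤ B.depth x}

/-- perimeter -/
noncomputable def len : ℝ := ∫ θ in (0 : ℝ)..2 * Real.pi, B.h θ

/-- area -/
noncomputable def area : ℝ := (1 / 2) * ∫ θ in (0 : ℝ)..2 * Real.pi, B.h θ * B.ρ θ

/-- `∮ |x - o|² ds` -/
noncomputable def Ml (o : E 2) : ℝ := ∫ θ in (0 : ℝ)..2 * Real.pi, ‖B.y θ - o‖ ^ 2 * B.ρ θ

/-- `∮ |x - o|² κ ds` -/
noncomputable def Mw (o : E 2) : ℝ := ∫ θ in (0 : ℝ)..2 * Real.pi, ‖B.y θ - o‖ ^ 2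

end Body

/-- `I₀` -/
noncomputable def I0 (z : ℝ) : ℝ := Pool.Agent.H.MP_1b807b_an.V 1 z

/-- `I₁` -/
noncomputable def I1 (z : ℝ) : ℝ := Pool.Agent.H.MP_1b807b_an.W 1 z

/-- `I₁ / I₀` -/
noncomputable def GG (z : ℝ) : ℝ := Pool.Agent.H.MP_1b807b_an.F 1 z

/-- `(V f(depth))` is a test pair for the body `B`: `Z = V ∇V`, `f` is the profile (`f = 1` at and
outside the boundary), `M` bounds its slope. -/
structure IsTest (B : Body) (k β C d c₀ ε : ℝ) (V : E 2 → ℝ) (Z : E 2 → E 2) (f M : ℝ → ℝ) :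
    Prop where
  V1 : ContDiff ℝ 1 V
  Z1 : ContDiff ℝ 1 Z
  VZ : ∀ x v, ⟪Z x, v⟫ = V x * fderiv ℝ V x v
  bV : ∀ x, ‖x‖ ≤ d → |V x| ≤ C
  bV' : ∀ x, ‖x‖ ≤ d → ‖fderiv ℝ V x‖ ≤ C
  bZ : ∀ x, ‖x‖ ≤ d → |divg Z x| ≤ C
  f1 : ∀ t ≤ 0, f t = 1
  f0 : ∀ t, 0 ≤ f t ∧ f t ≤ 1
  fl : ∀ s t, |f s - f t| ≤ C * |s - t|
  Mm : Measurable M
  M0 : ∀ t, 0 ≤ M t ∧ M t ≤ C
  slope : ∀ t > 0, ∀ e > 0, ∃ η > 0, ∀ s s', |s - t| < η → |s' - t| < η →
    |f s - f s'| ≤ (M t + e) * |s - s'|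
  energy : (∫ x in B.K, V x ^ 2 * (M (B.depth x) ^ 2 + k ^ 2 * f (B.depth x) ^ 2))
    + (∫ x in B.K, divg Z x)
    - (∫ x in B.K, (divg Z x - ‖fderiv ℝ V x‖ ^ 2) * f (B.depth x) ^ 2)
    - β * (∫ θ in (0 : ℝ)..2 * Real.pi, V (B.y θ) ^ 2 * B.ρ θ) ≤ ε
  low : c₀ ≤ ∫ x in B.K, V x ^ 2 * f (B.depth x) ^ 2

end Pool.Agent.RC
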