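import Pool.Agent.H.MP_1b807b_an.C.Defs

/-! MP_1b807b_an, convex planar domains, module DefsB: cases, web profiles, the functional (H), the
tip functional (X) -/

set_option autoImplicit false

namespace Pool.Agent.RC

open MeasureTheory Metric Set
open Pool.Agent.RG
open scoped RealInnerProductSpace

/-- there are test pairs, with uniform constants, in all cases described by `P` -/
def CaseOK (P : ℝ → Body → Prop) : Prop :=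
  ∀ K₀ > (0 : ℝ), ∀ d > (0 : ℝ), ∃ C c₀ : ℝ, 0 ≤ C ∧ 0 < c₀ ∧ ∀ (k : ℝ) (B : Body), 0 < k → k ≤ K₀ →
    P k B → B.area = Real.pi → (∀ θ, 0 < B.h θ) → B.K ⊆ closedBall 0 d → ∀ ε > 0,
    ∃ (V : E 2 → ℝ) (Z : E 2 → E 2) (f M : ℝ → ℝ), IsTest B k (k * GG k) C d c₀ ε V Z f M

/-! ## web functions -/

/-- the profile `1 + a x² + c x⁴`, `x = (T - t)/T` -/
noncomputable def PP (a c x : ℝ) : ℝ := 1 + a * x ^ 2 + c * x ^ 4

noncomputable def webB0 (a c : ℝ) : ℝ :=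
  1 + 2 * a / 3 + (a ^ 2 + 2 * c) / 5 + 2 * a * c / 7 + c ^ 2 / 9
noncomputable def webB1 (a c : ℝ) : ℝ :=
  1 / 2 + a / 2 + (a ^ 2 + 2 * c) / 6 + a * c / 4 + c ^ 2 / 10
noncomputable def webA0 (a c : ℝ) : ℝ := 4 * a ^ 2 / 3 + 16 * a * c / 5 + 16 * c ^ 2 / 7
noncomputable def webA1 (a c : ℝ) : ℝ := a ^ 2 + 8 * a * c / 3 + 2 * c ^ 2

/-- `webα + k² webβ` bounds the (normalised) energy of the web function per unit length -/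
noncomputable def webα (Λ T a c : ℝ) : ℝ :=
  (webA0 a c / T - (webA0 a c - webA1 a c) / Λ) / (1 + a + c) ^ 2
noncomputable def webβ (Λ T a c : ℝ) : ℝ :=
  (T * webB0 a c - T + ((1 + T ^ 2) - 2 * T ^ 2 * (webB0 a c - webB1 a c)) / (2 * Λ)) /
    (1 + a + c) ^ 2

/-! ## the functional (H) -/

noncomputable def wt (b s : ℝ) : ℝ := 1 + b * s ^ 2
noncomputable def AA (k b s : ℝ) : ℝ :=
  k ^ 2 * (I1 (k * s) ^ 2 + I0 (k * s) ^ 2) / wt b s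
    - 2 * b * s * k * I0 (k * s) * I1 (k * s) / wt b s ^ 2 + b * I0 (k * s) ^ 2 / wt b s ^ 2
noncomputable def LL (k b s : ℝ) : ℝ :=
  AA k b s - b * I0 (k * s) ^ 2 / wt b s - 2 * b * I0 (k * s) ^ 2 / wt b s ^ 2
noncomputable def X1 (k b : ℝ) : ℝ :=
  b * ((∫ s in (0 : ℝ)..1, AA k b s) - k * I0 k * I1 k / (1 + b))
noncomputable def X2 (k b : ℝ) : ℝ := b * ∫ s in (0 : ℝ)..1, (1 - s) * AA k b s
noncomputable def X3 (k b : ℝ) : ℝ :=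
  (∫ s in (0 : ℝ)..1, LL k b s) + 3 * b * (∫ s in (0 : ℝ)..1, (1 - s) ^ 2 * AA k b s)
    - k * I0 k * I1 k / (1 + b)

/-- the conditions on `k, b` needed for monotonicity -/
def KB (k b : ℝ) : Prop := 0 < k ∧ 0 < b ∧ 2 * b ≤ k ^ 2 ∧ 8 * b ^ 2 + 6 * b * k ^ 2 ≤ 3 * k ^ 4

/-- weight and profile of the functional (H) -/
noncomputable def VH (b : ℝ) (o x : E 2) : ℝ := Real.sqrt (1 + b * ‖x - o‖ ^ 2)
noncomputable def fH (k b t : ℝ) : ℝ :=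
  if t ≤ 0 then 1 else I0 (k * max (1 - t) 0) / Real.sqrt (wt b (max (1 - t) 0)) *
    (Real.sqrt (1 + b) / I0 k)
noncomputable def MH (k b t : ℝ) : ℝ :=
  |k * I1 (k * max (1 - t) 0) / Real.sqrt (wt b (max (1 - t) 0)) -
    b * max (1 - t) 0 * I0 (k * max (1 - t) 0) / (wt b (max (1 - t) 0) *
      Real.sqrt (wt b (max (1 - t) 0)))| * (Real.sqrt (1 + b) / I0 k)

/-- the numerical input of one step -/
def NumH (k₀ b η ζ : ℝ) : Prop := ∀ k, k₀ ≤ k → 0 < X1 k b ∧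
  X1 k b - X2 k b ≤ ζ / 2 * X1 k b ∧ (η - 2 * ζ + 1) * X1 k b + X3 k b ≤ 4 * X2 k b

/-- the polynomial certificate on the half -/
structure Cert (η ζ lo hi R κ z₀ z₁ e A₁ B₁ : ℝ) : Prop where
  hlo : 1 ≤ lo
  hhi : lo ≤ hi
  hR0 : 0 < R
  hR : 2 * (hi ^ 2 - 1) ≤ R ^ 2 ∨ hi ^ 2 ≤ R ^ 2
  hκ0 : 0 ≤ κ
  hκ1 : κ ≤ 1 / 2
  hA : ∀ l, lo ≤ l → l ≤ hi → A₁ ≤ (η / 2 - ζ) + (l - 1) -
    (η / 2 + (l - 1)) * (l - 1) / (l + 1) - κ * l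
  hB : ∀ l, lo ≤ l → l ≤ hi → η / 2 + 3 * (l - 1) -
    (η / 2 + (l - 1)) * (l - 1) / (l + 1) - 2 * κ * l ≤ B₁
  he : 0 ≤ e
  htop : (z₀ + z₁ * R) ^ 2 ≤ A₁ + (1 - 2 * κ) * R
  hquad : ∀ σ, -R ≤ σ → σ ≤ R → e ≤ 4 * (z₀ + z₁ * σ / 2) ^ 2 - B₁ - (1 - κ) * σ
  hcub : ∀ r, -R ≤ r → r ≤ 0 → (z₁ ^ 2 * (r ^ 3 + R ^ 3) / 3 +
    (z₀ * z₁ - (1 - 2 * κ) / 2) * (r ^ 2 - R ^ 2) + (z₀ ^ 2 - A₁) * (r + R)) * (hi + r) ≤ e * r ^ 2

/-! ## the tip functional (X) -/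

/-- `k² (I₀² + I₁²)(k (1 - t)) / I₀(k)²` -/
noncomputable def PhX (k t : ℝ) : ℝ := k ^ 2 * (I0 (k * (1 - t)) ^ 2 + I1 (k * (1 - t)) ^ 2) / I0 k ^ 2
noncomputable def P1 (k : ℝ) : ℝ := ∫ t in (0 : ℝ)..1, t * PhX k t
noncomputable def P2 (k : ℝ) : ℝ := ∫ t in (0 : ℝ)..1, t ^ 2 * PhX k t
noncomputable def P3 (k : ℝ) : ℝ := ∫ t in (0 : ℝ)..1, t ^ 3 * PhX k t
noncomputable def m2 (k : ℝ) : ℝ := ∫ s in (0 : ℝ)..1, I0 (k * s) ^ 2 / I0 k ^ 2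

/-- profile and slope for (X) -/
noncomputable def fX (k t : ℝ) : ℝ := if t ≤ 0 then 1 else I0 (k * max (1 - t) 0) / I0 k
noncomputable def MX (k t : ℝ) : ℝ := k * I1 (k * max (1 - t) 0) / I0 k

/-- smoothed positive part -/
noncomputable def zt (e s : ℝ) : ℝ := (s + Real.sqrt (s ^ 2 + e ^ 2)) / 2

/-- the integrand of the boundary functional at a boundary point with parameter `s`, angle `ω` and
radius of curvature `r` -/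
noncomputable def tipI (k s ω r : ℝ) : ℝ :=
  (∫ t in (0 : ℝ)..1, PhX k t * (max (s - t * Real.cos ω) 0) ^ 2 * (r - t)) +
    max s 0 * Real.cos ω * r - k * GG k * (max s 0) ^ 2 * r

namespace Body
variable (B : Body)

/-- the parameter `s` along one side of the tip `y θ₀` (`σ = 1` or `-1`) -/
noncomputable def sd (l θ₀ σ ω : ℝ) : ℝ := l - B.h θ₀ + sp (B.y (θ₀ + σ * ω)) θ₀

/-- the boundary functional of the tip `y θ₀` -/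
noncomputable def EX (k l θ₀ : ℝ) : ℝ :=
  ∫ θ in (0 : ℝ)..2 * Real.pi, tipI k (l - B.h θ₀ + sp (B.y θ) θ₀) (θ - θ₀) (B.ρ θ)

/-- the height climbed by one side of the tip -/
noncomputable def asc (l θ₀ σ : ℝ) : ℝ :=
  ∫ ω in (0 : ℝ)..Real.pi / 2, if 0 ≤ B.sd l θ₀ σ ω then B.ρ (θ₀ + σ * ω) * Real.cos ω else 0

end Body

end Pool.Agent.RC
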