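import Pool.Agent.H.MP_1b807b_an.C.DefsB

/-! MP_1b807b_an, convex planar domains, module DiscId: the identity for the disc, monotonicity and
slope of the profile of (H) -/

set_option autoImplicit false

namespace Pool.Agent.RC

open MeasureTheory Metric Set
open Pool.Agent.RG

namespace DI

theorem I0_pos (z : ℝ) : 0 < I0 z := Pool.Agent.H.MP_1b807b_an.V_pos 1 z
theorem one_le_I0 (z : ℝ) : 1 ≤ I0 z := Pool.Agent.H.MP_1b807b_an.one_le_V 1 z
theorem I1_zero : I1 0 = 0 := Pool.Agent.H.MP_1b807b_an.W_zero 1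
theorem I0_zero : I0 0 = 1 := Pool.Agent.H.MP_1b807b_an.V_zero 1
theorem hasDerivAt_I0 (z : ℝ) : HasDerivAt I0 (I1 z) z :=
  Pool.Agent.H.MP_1b807b_an.hasDerivAt_V 1 z
theorem continuous_I0 : Continuous I0 := Pool.Agent.H.MP_1b807b_an.continuous_V 1
theorem continuous_I1 : Continuous I1 := Pool.Agent.H.MP_1b807b_an.continuous_W 1
theorem I1_nonneg {z : ℝ} (hz : 0 ≤ z) : 0 ≤ I1 z := by
  rcases hz.eq_or_lt with h | h
  · rw [← h, I1_zero]
  · exact (Pool.Agent.H.MP_1b807b_an.W_pos 1 h).le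
theorem I1_eq (z : ℝ) : I1 z = GG z * I0 z := by
  have := (I0_pos z).ne'
  unfold GG Pool.Agent.H.MP_1b807b_an.F
  unfold I0 at this
  unfold I0 I1
  field_simp
theorem GG_mono {s t : ℝ} (h : s ≤ t) : GG s ≤ GG t :=
  (Pool.Agent.H.MP_1b807b_an.strictMono_F 1).monotone h
theorem GG_le_one (z : ℝ) : GG z ≤ 1 := (Pool.Agent.H.MP_1b807b_an.F_lt_one 1 z).le
theorem GG_nonneg {z : ℝ} (hz : 0 ≤ z) : 0 ≤ GG z := by
  have h := GG_mono hz
  have h0 : GG 0 = 0 := Pool.Agent.H.MP_1b807b_an.F_zero 1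
  rwa [h0] at h
theorem I0_mono {s t : ℝ} (hs : 0 ≤ s) (h : s ≤ t) : I0 s ≤ I0 t := by
  have hm : MonotoneOn I0 (Ici 0) := by
    refine monotoneOn_of_deriv_nonneg (convex_Ici 0) continuous_I0.continuousOn
      (fun x _ => (hasDerivAt_I0 x).differentiableAt.differentiableWithinAt) fun x hx => ?_
    rw [interior_Ici] at hx
    rw [(hasDerivAt_I0 x).deriv]
    exact I1_nonneg (le_of_lt hx)
  exact hm hs (hs.trans h) h
theorem I1_mono {s t : ℝ} (hs : 0 ≤ s) (h : s ≤ t) : I1 s ≤ I1 t := by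
  rw [I1_eq, I1_eq]
  exact mul_le_mul (GG_mono h) (I0_mono hs h) (I0_pos s).le (GG_nonneg (hs.trans h))

/-- derivative of `z ↦ k I₁(k z)·z` -/
theorem hasDerivAt_sI1 (k s : ℝ) :
    HasDerivAt (fun s => s * (k * I1 (k * s))) (s * (k ^ 2 * I0 (k * s))) s := by
  have h1 : HasDerivAt (fun s : ℝ => k * s) k s := by
    simpa using (hasDerivAt_id s).const_mul k
  have h2 : HasDerivAt (fun s => I1 (k * s)) (Pool.Agent.H.MP_1b807b_an.W1 1 (k * s) * k) s :=
    (Pool.Agent.H.MP_1b807b_an.hasDerivAt_W 1 (k * s)).comp s h1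
  have h3 := (hasDerivAt_id s).mul (h2.const_mul k)
  refine h3.congr_deriv ?_
  by_cases hks : k * s = 0
  · rcases mul_eq_zero.1 hks with h | h
    · simp [h]
    · simp [h, I1_zero]
  · have e := Pool.Agent.H.MP_1b807b_an.W1_eq 1 hks
    have hk : k ≠ 0 := fun h => hks (by simp [h])
    have hs : s ≠ 0 := fun h => hks (by simp [h])
    rw [e]
    simp only [id, I1, I0]
    push_cast
    field_simp
    ring

theorem hasDerivAt_I0k (k s : ℝ) : HasDerivAt (fun s => I0 (k * s)) (k * I1 (k * s)) s := by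
  have h1 : HasDerivAt (fun s : ℝ => k * s) k s := by
    simpa using (hasDerivAt_id s).const_mul k
  have h2 := (hasDerivAt_I0 (k * s)).comp s h1
  refine h2.congr_deriv ?_
  ring

theorem wt_pos {b : ℝ} (hb : 0 ≤ b) (s : ℝ) : 0 < wt b s := by
  unfold wt
  positivity

theorem hasDerivAt_wt (b s : ℝ) : HasDerivAt (wt b) (2 * b * s) s := by
  have h := ((hasDerivAt_pow 2 s).const_mul b).const_add 1
  refine h.congr_deriv ?_
  push_cast
  ring

theorem continuous_wt (b : ℝ) : Continuous (wt b) := by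
  unfold wt
  fun_prop

end DI

open DI

theorem disc_id {k b : ℝ} (hk : 0 < k) (hb : 0 < b) :
    ∫ s in (0 : ℝ)..1, s * (b * s ^ 2 * AA k b s + LL k b s) =
      k * I0 k * I1 k - b * I0 k ^ 2 / (1 + b) := by
  have hw : ∀ s, 0 < wt b s := fun s => wt_pos hb.le s
  have hd : ∀ s, HasDerivAt (fun s => I0 (k * s) * (s * (k * I1 (k * s))) -
      b * s ^ 2 * I0 (k * s) ^ 2 / wt b s) (s * (b * s ^ 2 * AA k b s + LL k b s)) s := by
    intro s
    have h1 := (hasDerivAt_I0k k s).mul (hasDerivAt_sI1 k s)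
    have h2 := ((((hasDerivAt_pow 2 s).const_mul b).mul ((hasDerivAt_I0k k s).pow 2)).div
      (hasDerivAt_wt b s) (hw s).ne')
    have h3 := h1.sub h2
    refine h3.congr_deriv ?_
    have hws := (hw s).ne'
    unfold LL AA
    simp only [Pi.pow_apply, Pi.mul_apply]
    push_cast
    unfold wt at hws ⊢
    field_simp
    ring
  have hc : Continuous fun s => s * (b * s ^ 2 * AA k b s + LL k b s) := by
    have c0 : Continuous fun s : ℝ => I0 (k * s) := continuous_I0.comp (by fun_prop)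
    have c1 : Continuous fun s : ℝ => I1 (k * s) := continuous_I1.comp (by fun_prop)
    have cw := continuous_wt b
    have hA : Continuous (AA k b) := by
      unfold AA
      refine ((Continuous.div (by fun_prop) cw fun s => (hw s).ne').sub
        (Continuous.div (by fun_prop) (cw.pow 2) fun s => pow_ne_zero 2 (hw s).ne')).add
        (Continuous.div (by fun_prop) (cw.pow 2) fun s => pow_ne_zero 2 (hw s).ne')
    have hL : Continuous (LL k b) := by
      unfold LL
      exact (hA.sub (Continuous.div (by fun_prop) cw fun s => (hw s).ne')).sub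
        (Continuous.div (by fun_prop) (cw.pow 2) fun s => pow_ne_zero 2 (hw s).ne')
    fun_prop
  rw [intervalIntegral.integral_eq_sub_of_hasDerivAt (fun s _ => hd s)
    (hc.intervalIntegrable _ _)]
  simp only [mul_one, one_pow, wt, mul_zero, zero_mul]
  ring

/-! ## the profile -/

/-- `I₀(ks)/√w` -/
noncomputable def gH (k b s : ℝ) : ℝ := I0 (k * s) / Real.sqrt (wt b s)

/-- its derivative -/
noncomputable def gH' (k b s : ℝ) : ℝ := k * I1 (k * s) / Real.sqrt (wt b s) -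
    b * s * I0 (k * s) / (wt b s * Real.sqrt (wt b s))

theorem hasDerivAt_gH {k b : ℝ} (hb : 0 < b) (s : ℝ) : HasDerivAt (gH k b) (gH' k b s) s := by
  have hw := wt_pos hb.le s
  have hq : 0 < Real.sqrt (wt b s) := Real.sqrt_pos.2 hw
  have h1 := (hasDerivAt_I0k k s).div ((hasDerivAt_wt b s).sqrt hw.ne') hq.ne'
  refine h1.congr_deriv ?_
  unfold gH'
  have e : Real.sqrt (wt b s) ^ 2 = wt b s := Real.sq_sqrt hw.le
  rw [e]
  field_simp
  rw [e]

theorem gH'_nonneg {k b : ℝ} (h : KB k b) {s : ℝ} (hs : 0 ≤ s) : 0 ≤ gH' k b s := by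
  obtain ⟨hk, hb, hkb, -⟩ := h
  have hw := wt_pos hb.le s
  have hq : 0 < Real.sqrt (wt b s) := Real.sqrt_pos.2 hw
  -- `s (k I₁ w - b s I₀)` is increasing
  set Q : ℝ → ℝ := fun s => s * (k * I1 (k * s)) * wt b s - b * s ^ 2 * I0 (k * s) with hQ
  have hQd : ∀ s, HasDerivAt Q (s * I0 (k * s) * (k ^ 2 - 2 * b + k ^ 2 * b * s ^ 2) +
      b * s ^ 2 * (k * I1 (k * s))) s := by
    intro s
    have h1 := ((hasDerivAt_sI1 k s).mul (hasDerivAt_wt b s)).sub
      (((hasDerivAt_pow 2 s).const_mul b).mul (hasDerivAt_I0k k s))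
    refine h1.congr_deriv ?_
    simp only [wt]
    push_cast
    ring
  have hQm : MonotoneOn Q (Ici 0) := by
    refine monotoneOn_of_deriv_nonneg (convex_Ici 0)
      (fun x _ => (hQd x).continuousAt.continuousWithinAt)
      (fun x _ => (hQd x).differentiableAt.differentiableWithinAt) fun x hx => ?_
    rw [interior_Ici] at hx
    rw [(hQd x).deriv]
    have hx0 : 0 ≤ x := le_of_lt hx
    have i0 := I0_pos (k * x)
    have i1 := I1_nonneg (mul_nonneg hk.le hx0)
    have h2 : 0 ≤ k ^ 2 - 2 * b + k ^ 2 * b * x ^ 2 := by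
      have : 0 ≤ k ^ 2 * b * x ^ 2 := by positivity
      linarith
    positivity
  rcases hs.eq_or_lt with h0 | h0
  · rw [← h0]
    simp [gH', I1_zero]
  have hQ0 : 0 ≤ Q s := by
    have := hQm (mem_Ici.2 le_rfl) (mem_Ici.2 hs) hs
    simpa [hQ] using this
  have e : gH' k b s = Q s / (s * (wt b s * Real.sqrt (wt b s))) := by
    simp only [hQ, gH']
    field_simp
  rw [e]
  positivity

theorem gH_mono {k b : ℝ} (h : KB k b) : MonotoneOn (gH k b) (Ici 0) := by
  refine monotoneOn_of_deriv_nonneg (convex_Ici 0)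
    (fun x _ => (hasDerivAt_gH h.2.1 x).continuousAt.continuousWithinAt)
    (fun x _ => (hasDerivAt_gH h.2.1 x).differentiableAt.differentiableWithinAt) fun x hx => ?_
  rw [interior_Ici] at hx
  rw [(hasDerivAt_gH h.2.1 x).deriv]
  exact gH'_nonneg h (le_of_lt hx)

theorem gH_pos {k b : ℝ} (hb : 0 < b) (s : ℝ) : 0 < gH k b s :=
  div_pos (I0_pos _) (Real.sqrt_pos.2 (wt_pos hb.le s))

theorem gH_one (k b : ℝ) : gH k b 1 = I0 k / Real.sqrt (1 + b) := by
  simp [gH, wt]

theorem cH_pos {b : ℝ} (k : ℝ) (hb : 0 < b) : 0 < Real.sqrt (1 + b) / I0 k :=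
  div_pos (Real.sqrt_pos.2 (by linarith)) (I0_pos k)

theorem gH_one_mul {b : ℝ} (k : ℝ) (hb : 0 < b) : gH k b 1 * (Real.sqrt (1 + b) / I0 k) = 1 := by
  rw [gH_one]
  have h1 : Real.sqrt (1 + b) ≠ 0 := (Real.sqrt_pos.2 (by linarith)).ne'
  have h2 := (I0_pos k).ne'
  field_simp

theorem gH'_le {k b : ℝ} (h : KB k b) {s : ℝ} (hs : 0 ≤ s) (hs1 : s ≤ 1) :
    gH' k b s * (Real.sqrt (1 + b) / I0 k) ≤ k * Real.sqrt (1 + b) := by
  obtain ⟨hk, hb, -, -⟩ := h
  have hw := wt_pos hb.le s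
  have hw1 : 1 ≤ wt b s := by
    unfold wt
    have : 0 ≤ b * s ^ 2 := by positivity
    linarith
  have hq1 : 1 ≤ Real.sqrt (wt b s) := Real.one_le_sqrt.2 hw1
  have hi1 : 0 ≤ I1 (k * s) := I1_nonneg (by positivity)
  have hi2 : I1 (k * s) ≤ I1 k := I1_mono (by positivity) (by nlinarith)
  have h1 : gH' k b s ≤ k * I0 k := by
    unfold gH'
    have a1 : 0 ≤ b * s * I0 (k * s) / (wt b s * Real.sqrt (wt b s)) := by
      have := I0_pos (k * s)
      positivity
    have a2 : k * I1 (k * s) / Real.sqrt (wt b s) ≤ k * I1 (k * s) :=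
      div_le_self (by positivity) hq1
    have a3 : I1 k ≤ I0 k := by
      rw [I1_eq]
      exact mul_le_of_le_one_left (I0_pos k).le (GG_le_one k)
    have a4 : k * I1 (k * s) ≤ k * I0 k := by
      apply mul_le_mul_of_nonneg_left _ hk.le
      linarith
    linarith
  calc gH' k b s * (Real.sqrt (1 + b) / I0 k)
      ≤ (k * I0 k) * (Real.sqrt (1 + b) / I0 k) :=
        mul_le_mul_of_nonneg_right h1 (cH_pos k hb).le
    _ = k * Real.sqrt (1 + b) := by
        have := (I0_pos k).ne'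
        field_simp

/-- the argument of the profile -/
noncomputable def sH (t : ℝ) : ℝ := min 1 (max (1 - t) 0)

theorem sH_mem (t : ℝ) : sH t ∈ Icc (0 : ℝ) 1 :=
  ⟨le_min zero_le_one (le_max_right _ _), min_le_left _ _⟩

theorem fH_eq {k b : ℝ} (hb : 0 < b) (t : ℝ) :
    fH k b t = gH k b (sH t) * (Real.sqrt (1 + b) / I0 k) := by
  unfold fH sH
  by_cases ht : t ≤ 0
  · have h1 : min 1 (max (1 - t) 0) = 1 := by
      rw [max_eq_left (by linarith), min_eq_left (by linarith)]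
    rw [if_pos ht, h1, gH_one_mul k hb]
  · have h1 : min 1 (max (1 - t) 0) = max (1 - t) 0 := by
      push Not at ht
      exact min_eq_right (max_le (by linarith) zero_le_one)
    rw [if_neg ht, h1]
    rfl

theorem fH_le {k b : ℝ} (h : KB k b) (t : ℝ) : 0 ≤ fH k b t ∧ fH k b t ≤ 1 := by
  have hm := sH_mem t
  rw [fH_eq h.2.1]
  refine ⟨mul_nonneg (gH_pos h.2.1 _).le (cH_pos k h.2.1).le, ?_⟩
  refine le_trans ?_ (gH_one_mul k h.2.1).le
  exact mul_le_mul_of_nonneg_right (gH_mono h hm.1 (mem_Ici.2 zero_le_one) hm.2)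
    (cH_pos k h.2.1).le

theorem fH_pos {k b : ℝ} (hb : 0 < b) (t : ℝ) : 0 < fH k b t := by
  rw [fH_eq hb]
  exact mul_pos (gH_pos hb _) (cH_pos k hb)

theorem fH_of_nonpos {k b t : ℝ} (ht : t ≤ 0) : fH k b t = 1 := by
  unfold fH
  rw [if_pos ht]

theorem fH_mono {k b : ℝ} (h : KB k b) : AntitoneOn (fH k b) univ := by
  intro s _ t _ hst
  rw [fH_eq h.2.1, fH_eq h.2.1]
  refine mul_le_mul_of_nonneg_right (gH_mono h (sH_mem t).1 (sH_mem s).1 ?_) (cH_pos k h.2.1).le
  exact min_le_min le_rfl (max_le_max (by linarith) le_rfl)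

theorem MH_eq {k b : ℝ} (h : KB k b) (t : ℝ) :
    MH k b t = gH' k b (max (1 - t) 0) * (Real.sqrt (1 + b) / I0 k) := by
  have := gH'_nonneg h (le_max_right (1 - t) 0)
  unfold MH
  unfold gH' at this ⊢
  rw [abs_of_nonneg this]

theorem MH_nonneg {b : ℝ} (hb : 0 < b) (k t : ℝ) : 0 ≤ MH k b t :=
  mul_nonneg (abs_nonneg _) (cH_pos k hb).le

theorem MH_le {k b : ℝ} (h : KB k b) {t : ℝ} (ht : 0 ≤ t) : MH k b t ≤ k * Real.sqrt (1 + b) := by
  rw [MH_eq h]
  exact gH'_le h (le_max_right _ _) (max_le (by linarith) zero_le_one)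

theorem MH_of_one_le {k b t : ℝ} (ht : 1 ≤ t) : MH k b t = 0 := by
  unfold MH
  rw [max_eq_right (by linarith)]
  simp [I1_zero]

theorem fH_of_one_le {k b t : ℝ} (ht : 1 ≤ t) : fH k b t = fH k b 1 := by
  unfold fH
  rw [if_neg (by linarith), if_neg (by norm_num), max_eq_right (by linarith : 1 - t ≤ 0)]
  simp

theorem continuous_gH' {k b : ℝ} (hb : 0 < b) : Continuous (gH' k b) := by
  have hw : ∀ s, 0 < wt b s := fun s => wt_pos hb.le s
  have hq : ∀ s, 0 < Real.sqrt (wt b s) := fun s => Real.sqrt_pos.2 (hw s)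
  have c0 : Continuous fun s : ℝ => I0 (k * s) := continuous_I0.comp (by fun_prop)
  have c1 : Continuous fun s : ℝ => I1 (k * s) := continuous_I1.comp (by fun_prop)
  have cw := continuous_wt b
  have cq : Continuous fun s => Real.sqrt (wt b s) := Real.continuous_sqrt.comp cw
  unfold gH'
  exact (Continuous.div (by fun_prop) cq fun s => (hq s).ne').sub
    (Continuous.div (by fun_prop) (cw.mul cq) fun s => (mul_pos (hw s) (hq s)).ne')

theorem continuous_MH {k b : ℝ} (hb : 0 < b) : Continuous (MH k b) := by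
  have h := (continuous_gH' (k := k) hb).comp
    (((continuous_const (y := (1 : ℝ))).sub continuous_id).max (continuous_const (y := (0 : ℝ))))
  have h2 := (continuous_abs.comp h).mul (continuous_const (y := Real.sqrt (1 + b) / I0 k))
  exact h2

/-- the slope of the profile between `0` and `1` -/
theorem slopeH {k b : ℝ} (h : KB k b) {t : ℝ} (h0 : 0 < t) (h1 : t < 1) :
    HasDerivAt (fH k b) (-(MH k b t)) t := by
  have hs : HasDerivAt (fun t : ℝ => 1 - t) (-1) t := by
    simpa using (hasDerivAt_id t).const_sub 1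
  have hd := ((hasDerivAt_gH (k := k) h.2.1 (1 - t)).comp t hs).mul_const
    (Real.sqrt (1 + b) / I0 k)
  have hev : fH k b =ᶠ[nhds t] fun y => (gH k b ∘ fun t : ℝ => 1 - t) y *
      (Real.sqrt (1 + b) / I0 k) := by
    filter_upwards [Ioo_mem_nhds h0 h1] with y hy
    rw [fH_eq h.2.1]
    have : sH y = 1 - y := by
      unfold sH
      rw [max_eq_left (by linarith [hy.2]), min_eq_right (by linarith [hy.1])]
    rw [this]
    rfl
  refine (hd.congr_of_eventuallyEq hev).congr_deriv ?_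
  rw [MH_eq h, max_eq_left (by linarith)]
  ring

theorem slopeH' {k b : ℝ} (h : KB k b) {t : ℝ} (h1 : 1 < t) :
    HasDerivAt (fH k b) (-(MH k b t)) t := by
  have hev : fH k b =ᶠ[nhds t] fun _ => fH k b 1 := by
    filter_upwards [lt_mem_nhds h1] with y hy
    exact fH_of_one_le hy.le
  rw [MH_of_one_le h1.le, neg_zero]
  exact (hasDerivAt_const t _).congr_of_eventuallyEq hev

theorem gH_lip {k b : ℝ} (h : KB k b) {x y : ℝ} (hx : x ∈ Icc (0 : ℝ) 1) (hy : y ∈ Icc (0 : ℝ) 1) :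
    |gH k b x * (Real.sqrt (1 + b) / I0 k) - gH k b y * (Real.sqrt (1 + b) / I0 k)| ≤
      k * Real.sqrt (1 + b) * |x - y| := by
  have hd : ∀ s ∈ Icc (0 : ℝ) 1, HasDerivWithinAt
      (fun s => gH k b s * (Real.sqrt (1 + b) / I0 k))
      (gH' k b s * (Real.sqrt (1 + b) / I0 k)) (Icc 0 1) s := fun s _ =>
    ((hasDerivAt_gH h.2.1 s).mul_const _).hasDerivWithinAt
  have hb : ∀ s ∈ Icc (0 : ℝ) 1, ‖gH' k b s * (Real.sqrt (1 + b) / I0 k)‖ ≤
      k * Real.sqrt (1 + b) := fun s hs => by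
    rw [Real.norm_of_nonneg (mul_nonneg (gH'_nonneg h hs.1) (cH_pos k h.2.1).le)]
    exact gH'_le h hs.1 hs.2
  have := (convex_Icc (0 : ℝ) 1).norm_image_sub_le_of_norm_hasDerivWithin_le hd hb hy hx
  simpa [Real.norm_eq_abs] using this

theorem sH_lip (s t : ℝ) : |sH s - sH t| ≤ |s - t| := by
  unfold sH
  have h1 := abs_min_sub_min_le_max 1 (max (1 - s) 0) 1 (max (1 - t) 0)
  rw [sub_self, abs_zero, max_eq_right (abs_nonneg (max (1 - s) 0 - max (1 - t) 0))] at h1
  have h2 := abs_max_sub_max_le_abs (1 - s) (1 - t) 0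
  have h3 : |1 - s - (1 - t)| = |s - t| := by
    rw [show 1 - s - (1 - t) = -(s - t) by ring, abs_neg]
  rw [h3] at h2
  exact h1.trans h2

theorem fH_lip {k b : ℝ} (h : KB k b) (s t : ℝ) :
    |fH k b s - fH k b t| ≤ k * Real.sqrt (1 + b) * |s - t| := by
  rw [fH_eq h.2.1, fH_eq h.2.1]
  refine (gH_lip h (sH_mem s) (sH_mem t)).trans ?_
  exact mul_le_mul_of_nonneg_left (sH_lip s t) (mul_nonneg h.1.le (Real.sqrt_nonneg _))

end Pool.Agent.RC
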