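import Pool.Agent.H.MP_1b807b_an.C.SpBody

/-! MP_1b807b_an, convex planar domains, module ExistsBody: a bounded open convex set containing the
origin is exhausted by smooth strictly convex bodies -/

set_option autoImplicit false

namespace Pool.Agent.RC

open MeasureTheory Metric Set
open Pool.Agent.RG
open scoped RealInnerProductSpace ENNReal Convolution Topology Pointwise

/-- the support function of a set -/
noncomputable def supp (Ω : Set (E 2)) (θ : ℝ) : ℝ := sSup ((fun x => sp x θ) '' Ω)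

theorem sp_lip (x : E 2) (θ φ : ℝ) : |sp x θ - sp x φ| ≤ ‖x‖ * |θ - φ| := by
  have h := Convex.norm_image_sub_le_of_norm_hasDerivWithin_le (f := fun θ => sp x θ)
    (f' := fun θ => sp x (θ + Real.pi / 2)) (C := ‖x‖) (s := univ) (x := φ) (y := θ)
    (fun t _ => (hasDerivAt_sp x t).hasDerivWithinAt)
    (fun t _ => by rw [Real.norm_eq_abs]; exact abs_sp_le x _) convex_univ (mem_univ _) (mem_univ _)
  simpa [Real.norm_eq_abs] using h

theorem sp_add_sub (x : E 2) (θ s : ℝ) :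
    sp x (θ + s) + sp x (θ - s) = 2 * Real.cos s * sp x θ := by
  simp only [sp, Real.cos_add, Real.cos_sub, Real.sin_add, Real.sin_sub]
  ring

theorem le_supp {Ω : Set (E 2)} {R : ℝ} (hR : ∀ x ∈ Ω, ‖x‖ ≤ R) {x : E 2} (hx : x ∈ Ω) (θ : ℝ) :
    sp x θ ≤ supp Ω θ := by
  refine le_csSup ⟨R, ?_⟩ ⟨x, hx, rfl⟩
  rintro _ ⟨y, hy, rfl⟩
  exact (le_abs_self _).trans ((abs_sp_le y θ).trans (hR y hy))

theorem supp_le {Ω : Set (E 2)} (hne : Ω.Nonempty) {θ c : ℝ} (h : ∀ x ∈ Ω, sp x θ ≤ c) :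
    supp Ω θ ≤ c := by
  refine csSup_le (hne.image _) ?_
  rintro _ ⟨y, hy, rfl⟩
  exact h y hy

theorem supp_lip {Ω : Set (E 2)} (hne : Ω.Nonempty) {R : ℝ} (hR : ∀ x ∈ Ω, ‖x‖ ≤ R) (θ φ : ℝ) :
    |supp Ω θ - supp Ω φ| ≤ R * |θ - φ| := by
  have key : ∀ θ φ : ℝ, supp Ω θ ≤ supp Ω φ + R * |θ - φ| := by
    intro θ φ
    refine supp_le hne fun x hx => ?_
    have h1 := le_supp hR hx φ
    have h2 := (abs_le.1 (sp_lip x θ φ)).2
    have h3 : ‖x‖ * |θ - φ| ≤ R * |θ - φ| := mul_le_mul_of_nonneg_right (hR x hx) (abs_nonneg _)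
    linarith
  rw [abs_le]
  have h1 := key θ φ
  have h2 := key φ θ
  rw [abs_sub_comm] at h2
  constructor <;> linarith

theorem supp_per (Ω : Set (E 2)) (θ : ℝ) : supp Ω (θ + 2 * Real.pi) = supp Ω θ := by
  simp only [supp, sp_two_pi]

theorem supp_continuous {Ω : Set (E 2)} (hne : Ω.Nonempty) {R : ℝ} (hR : ∀ x ∈ Ω, ‖x‖ ≤ R) :
    Continuous (supp Ω) := by
  have hR0 : 0 ≤ R := by
    obtain ⟨x, hx⟩ := hne
    exact (norm_nonneg x).trans (hR x hx)
  refine (LipschitzWith.of_dist_le_mul (K := R.toNNReal) fun θ φ => ?_).continuous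
  rw [Real.coe_toNNReal R hR0, Real.dist_eq, Real.dist_eq]
  exact supp_lip hne hR θ φ

theorem supp_mid {Ω : Set (E 2)} (h0 : (0 : E 2) ∈ Ω) {R : ℝ} (hR : ∀ x ∈ Ω, ‖x‖ ≤ R) (θ : ℝ)
    {s : ℝ} (hs : 0 < Real.cos s) :
    2 * Real.cos s * supp Ω θ ≤ supp Ω (θ + s) + supp Ω (θ - s) := by
  have h : supp Ω θ ≤ (supp Ω (θ + s) + supp Ω (θ - s)) / (2 * Real.cos s) := by
    refine supp_le ⟨0, h0⟩ fun x hx => ?_
    rw [le_div_iff₀ (by positivity)]
    have h1 := le_supp hR hx (θ + s)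
    have h2 := le_supp hR hx (θ - s)
    have h3 := sp_add_sub x θ s
    nlinarith
  rw [le_div_iff₀ (by positivity)] at h
  linarith

/-- the differential inequality `F + F'' ≥ 0` from the midpoint inequality -/
theorem second_ge {F : ℝ → ℝ} (hF : ContDiff ℝ 2 F) {θ : ℝ}
    (h : ∀ s, |s| < 1 → 2 * Real.cos s * F θ ≤ F (θ + s) + F (θ - s)) :
    0 ≤ F θ + deriv (deriv F) θ := by
  by_contra hn
  push Not at hn
  have hF1 : Differentiable ℝ F := hF.differentiable (by norm_num)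
  have hF2 : Differentiable ℝ (deriv F) := by
    have h' := hF
    rw [show (2 : WithTop ℕ∞) = 1 + 1 by norm_num, contDiff_succ_iff_deriv] at h'
    exact h'.2.2.differentiable (by norm_num)
  set g : ℝ → ℝ := fun s => F (θ + s) + F (θ - s) - 2 * Real.cos s * F θ with hg
  have d1 : ∀ s, HasDerivAt g (deriv F (θ + s) - deriv F (θ - s) + 2 * Real.sin s * F θ) s := by
    intro s
    have a1 : HasDerivAt (fun s => F (θ + s)) (deriv F (θ + s)) s :=
      (hF1 (θ + s)).hasDerivAt.comp_const_add θ s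
    have a2 : HasDerivAt (fun s => F (θ - s)) (-deriv F (θ - s)) s :=
      (hF1 (θ - s)).hasDerivAt.comp_const_sub θ s
    have a3 : HasDerivAt (fun s => 2 * Real.cos s * F θ) (2 * (-Real.sin s) * F θ) s :=
      ((Real.hasDerivAt_cos s).const_mul 2).mul_const (F θ)
    exact ((a1.add a2).sub a3).congr_deriv (by ring)
  have dg : deriv g = fun s => deriv F (θ + s) - deriv F (θ - s) + 2 * Real.sin s * F θ :=
    funext fun s => (d1 s).deriv
  have d2 : HasDerivAt (deriv g) (2 * (F θ + deriv (deriv F) θ)) 0 := by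
    rw [dg]
    have a1 : HasDerivAt (fun s => deriv F (θ + s)) (deriv (deriv F) (θ + 0)) 0 :=
      (hF2 (θ + 0)).hasDerivAt.comp_const_add θ 0
    have a2 : HasDerivAt (fun s => deriv F (θ - s)) (-deriv (deriv F) (θ - 0)) 0 :=
      (hF2 (θ - 0)).hasDerivAt.comp_const_sub θ 0
    have a3 : HasDerivAt (fun s => 2 * Real.sin s * F θ) (2 * Real.cos 0 * F θ) 0 :=
      ((Real.hasDerivAt_sin 0).const_mul 2).mul_const (F θ)
    refine ((a1.sub a2).add a3).congr_deriv ?_
    rw [Real.cos_zero, add_zero, sub_zero]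
    ring
  have g0 : g 0 = 0 := by
    simp only [hg, add_zero, sub_zero, Real.cos_zero]
    ring
  have hmax : IsLocalMax g 0 := by
    refine isLocalMax_of_deriv_deriv_neg ?_ ?_ (d1 0).continuousAt
    · rw [d2.deriv]
      linarith
    · rw [(d1 0).deriv]
      simp
  have hzero : g =ᶠ[𝓝 0] fun _ => 0 := by
    have hb : ∀ᶠ s : ℝ in 𝓝 0, |s| < 1 := by
      have := Metric.ball_mem_nhds (0 : ℝ) one_pos
      filter_upwards [this] with s hs
      simpa [Real.dist_eq] using hs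
    filter_upwards [hmax, hb] with s h1 h2
    have h3 := h s h2
    have h4 : 0 ≤ g s := by
      simp only [hg]
      linarith
    rw [g0] at h1
    exact le_antisymm h1 h4
  have h5 : deriv (deriv g) 0 = 0 := by
    have h6 : deriv g =ᶠ[𝓝 0] deriv fun _ => (0 : ℝ) := hzero.deriv
    rw [h6.deriv_eq]
    simp
  rw [d2.deriv] at h5
  linarith

/-- a smooth approximation of the support function -/
theorem exists_mollified {Ω : Set (E 2)} (h0 : (0 : E 2) ∈ Ω) {R : ℝ} (hR : ∀ x ∈ Ω, ‖x‖ ≤ R)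
    {ε : ℝ} (hε : 0 < ε) :
    ∃ F : ℝ → ℝ, ContDiff ℝ 3 F ∧ Function.Periodic F (2 * Real.pi) ∧
      (∀ θ, 0 ≤ F θ + deriv (deriv F) θ) ∧ ∀ θ, |F θ - supp Ω θ| ≤ R * ε := by
  have hne : Ω.Nonempty := ⟨0, h0⟩
  have hR0 : 0 ≤ R := (norm_nonneg _).trans (hR 0 h0)
  have hc := supp_continuous hne hR
  let φ : ContDiffBump (0 : ℝ) := ⟨ε / 2, ε, by positivity, by linarith⟩
  set j : ℝ → ℝ := φ.normed volume with hj
  have hjc : Continuous j := φ.continuous_normed
  have hjs : HasCompactSupport j := φ.hasCompactSupport_normed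
  have hj0 : ∀ t, 0 ≤ j t := fun t => φ.nonneg_normed t
  set F : ℝ → ℝ := fun θ => ∫ t, j t * supp Ω (θ - t) with hFdef
  have hFconv : F = (j ⋆[ContinuousLinearMap.lsmul ℝ ℝ, volume] supp Ω : ℝ → ℝ) := by
    funext θ
    rfl
  have hF3 : ContDiff ℝ 3 F := by
    rw [hFconv]
    exact hjs.contDiff_convolution_left (n := 3) _ φ.contDiff_normed hc.locallyIntegrable
  have hint : ∀ θ, Integrable fun t => j t * supp Ω (θ - t) := fun θ =>
    (hjc.mul (hc.comp (continuous_const.sub continuous_id))).integrable_of_hasCompactSupport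
      hjs.mul_right
  refine ⟨F, hF3, ?_, ?_, ?_⟩
  · intro θ
    simp only [hFdef]
    congr 1
    funext t
    rw [show θ + 2 * Real.pi - t = (θ - t) + 2 * Real.pi by ring, supp_per]
  · intro θ
    refine second_ge (hF3.of_le (by norm_num)) fun s hs => ?_
    have hcs : 0 < Real.cos s := by
      have hpi := Real.pi_gt_three
      have h1 := abs_lt.1 hs
      exact Real.cos_pos_of_mem_Ioo ⟨by linarith [h1.1], by linarith [h1.2]⟩
    simp only [hFdef]
    rw [← integral_add (hint (θ + s)) (hint (θ - s)), ← integral_const_mul]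
    refine integral_mono ((hint θ).const_mul _) ((hint (θ + s)).add (hint (θ - s))) fun t => ?_
    have h1 := supp_mid h0 hR (θ - t) hcs
    have h2 := mul_le_mul_of_nonneg_left h1 (hj0 t)
    have e1 : θ + s - t = θ - t + s := by ring
    have e2 : θ - s - t = θ - t - s := by ring
    simp only [e1, e2]
    linarith
  · intro θ
    rw [← Real.dist_eq, hFconv]
    refine φ.dist_normed_convolution_le hc.aestronglyMeasurable fun x hx => ?_
    rw [Real.dist_eq]
    refine (supp_lip hne hR x θ).trans (mul_le_mul_of_nonneg_left ?_ hR0)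
    have := mem_ball.1 hx
    rw [Real.dist_eq] at this
    exact this.le

theorem exists_polar (v : E 2) : ∃ θ : ℝ, v = ‖v‖ • ev θ := by
  set z : ℂ := ⟨v 0, v 1⟩ with hz
  have hn : ‖z‖ = ‖v‖ := by
    have h1 : ‖z‖ ^ 2 = ‖v‖ ^ 2 := by
      rw [norm_sq_two, Complex.sq_norm, Complex.normSq_mk]
      ring
    exact (sq_eq_sq₀ (norm_nonneg z) (norm_nonneg v)).1 h1
  refine ⟨Complex.arg z, ext2 ?_ ?_⟩
  · have h1 := Complex.norm_mul_cos_arg z
    rw [hn] at h1
    rw [PiLp.smul_apply, ev_zero', smul_eq_mul, h1]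
  · have h1 := Complex.norm_mul_sin_arg z
    rw [hn] at h1
    rw [PiLp.smul_apply, ev_one', smul_eq_mul, h1]

theorem mem_closure_of_sp_le {Ω : Set (E 2)} (hc : Convex ℝ Ω) (hne : Ω.Nonempty) {x : E 2}
    (h : ∀ θ, sp x θ ≤ supp Ω θ) : x ∈ closure Ω := by
  by_contra hx
  obtain ⟨f, u, h1, h2⟩ := geometric_hahn_banach_closed_point hc.closure isClosed_closure hx
  set v : E 2 := (InnerProductSpace.toDual ℝ (E 2)).symm f with hv
  have hf : ∀ y, f y = ⟪v, y⟫ := fun y => by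
    rw [hv, InnerProductSpace.toDual_symm_apply]
  obtain ⟨θ, hθ⟩ := exists_polar v
  have hf' : ∀ y, f y = ‖v‖ * sp y θ := fun y => by
    rw [hf y, sp_eq_inner, real_inner_comm]
    conv_lhs => rw [hθ]
    rw [inner_smul_right]
  have hv0 : 0 < ‖v‖ := by
    rw [norm_pos_iff]
    intro hv0
    obtain ⟨y, hy⟩ := hne
    have a1 := h1 y (subset_closure hy)
    rw [hf', hv0, norm_zero, zero_mul] at a1
    rw [hf', hv0, norm_zero, zero_mul] at h2
    linarith
  have h3 : supp Ω θ ≤ u / ‖v‖ := by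
    refine supp_le hne fun y hy => ?_
    rw [le_div_iff₀ hv0]
    have := h1 y (subset_closure hy)
    rw [hf'] at this
    linarith
  rw [hf'] at h2
  have h4 := h θ
  have h5 : u / ‖v‖ < sp x θ := by
    rw [div_lt_iff₀ hv0]
    linarith
  linarith

theorem supp_pos {Ω : Set (E 2)} {R : ℝ} (hR : ∀ x ∈ Ω, ‖x‖ ≤ R) {r : ℝ} (hr : 0 < r)
    (hb : closedBall (0 : E 2) r ⊆ Ω) (θ : ℝ) : r ≤ supp Ω θ := by
  have h1 : r • ev θ ∈ Ω := hb (by
    rw [mem_closedBall, dist_zero_right, norm_smul, norm_ev, Real.norm_eq_abs, abs_of_pos hr,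
      mul_one])
  have h2 := le_supp hR h1 θ
  rwa [sp_smul, sp_ev, sub_self, Real.cos_zero, mul_one] at h2

theorem exists_body {Ω : Set (E 2)} (hc : Convex ℝ Ω) (ho : IsOpen Ω)
    (hb : Bornology.IsBounded Ω) (h0 : (0 : E 2) ∈ Ω) {δ : ℝ} (hδ : 0 < δ) :
    ∃ B : Body, (∀ θ, 0 < B.h θ) ∧ B.K ⊆ Ω ∧ volume.real (Ω \ B.K) ≤ δ := by
  obtain ⟨R, hRpos, hR⟩ := hb.exists_pos_norm_le
  have hne : Ω.Nonempty := ⟨0, h0⟩
  obtain ⟨r, hr, hrb⟩ : ∃ r > 0, closedBall (0 : E 2) r ⊆ Ω :=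
    Metric.nhds_basis_closedBall.mem_iff.1 (ho.mem_nhds h0)
  set m : ℝ := volume.real Ω with hm
  have hm0 : 0 ≤ m := measureReal_nonneg
  obtain ⟨η, hη0, hη1, hη2⟩ : ∃ η : ℝ, 0 < η ∧ η ≤ 1 / 6 ∧ 6 * η * m ≤ δ := by
    refine ⟨min (1 / 6) (δ / (6 * (m + 1))), by positivity, min_le_left _ _, ?_⟩
    have h1 : min (1 / 6) (δ / (6 * (m + 1))) ≤ δ / (6 * (m + 1)) := min_le_right _ _
    have h2 : 6 * (δ / (6 * (m + 1))) * m ≤ δ := by
      have : 6 * (δ / (6 * (m + 1))) * m = δ * (m / (m + 1)) := by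
        field_simp
      rw [this]
      have h3 : m / (m + 1) ≤ 1 := by
        rw [div_le_one (by linarith)]
        linarith
      nlinarith
    nlinarith
  set ε : ℝ := η * r / (R + 1) with hε
  have hε0 : 0 < ε := by positivity
  have hεR : (R + 1) * ε = η * r := by
    rw [hε]
    field_simp
  obtain ⟨F, hF3, hFp, hF2, hFa⟩ := exists_mollified h0 hR hε0
  have hH : ∀ θ, r ≤ supp Ω θ := supp_pos hR hr hrb
  set c : ℝ := 1 - 2 * η with hcdef
  have hc0 : 0 < c := by rw [hcdef]; linarith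
  have hF1 : Differentiable ℝ F := hF3.differentiable (by norm_num)
  have hF2' : Differentiable ℝ (deriv F) := by
    have h' := hF3
    rw [show (3 : WithTop ℕ∞) = 2 + 1 by norm_num, contDiff_succ_iff_deriv] at h'
    exact h'.2.2.differentiable (by norm_num)
  have hd1 : deriv (fun θ => c * (F θ + ε)) = fun θ => c * deriv F θ := by
    funext θ
    exact (((hF1 θ).hasDerivAt.add_const ε).const_mul c).deriv
  have hd2 : ∀ θ, deriv (deriv fun θ => c * (F θ + ε)) θ = c * deriv (deriv F) θ := by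
    intro θ
    rw [hd1]
    exact ((hF2' θ).hasDerivAt.const_mul c).deriv
  let B : Body :=
    { h := fun θ => c * (F θ + ε)
      smooth := contDiff_const.mul (hF3.add contDiff_const)
      per := fun θ => by simp only [hFp θ]
      pos := fun θ => by
        rw [hd2 θ]
        have h1 := hF2 θ
        have h2 : 0 < c * (F θ + deriv (deriv F) θ + ε) := mul_pos hc0 (by linarith)
        linarith }
  have hBh : ∀ θ, B.h θ = c * (F θ + ε) := fun θ => rfl
  have hup : ∀ θ, B.h θ ≤ (1 - η) * supp Ω θ := by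
    intro θ
    rw [hBh]
    have h1 := (abs_le.1 (hFa θ)).2
    have h2 := hH θ
    have h3 : F θ + ε ≤ (1 + η) * supp Ω θ := by nlinarith
    have h4 : c * (F θ + ε) ≤ c * ((1 + η) * supp Ω θ) := mul_le_mul_of_nonneg_left h3 hc0.le
    have h5 : 0 < supp Ω θ := by linarith
    rw [hcdef] at h4 ⊢
    nlinarith [mul_pos hη0 (mul_pos hη0 h5)]
  have hlow : ∀ θ, (1 - 3 * η) * supp Ω θ ≤ B.h θ := by
    intro θ
    rw [hBh]
    have h1 := (abs_le.1 (hFa θ)).1
    have h2 := hH θ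
    have h3 : (1 - η) * supp Ω θ ≤ F θ + ε := by nlinarith
    have h4 : c * ((1 - η) * supp Ω θ) ≤ c * (F θ + ε) := mul_le_mul_of_nonneg_left h3 hc0.le
    have h5 : 0 < supp Ω θ := by linarith
    rw [hcdef] at h4 ⊢
    nlinarith [mul_pos hη0 (mul_pos hη0 h5)]
  have hpos : ∀ θ, 0 < B.h θ := by
    intro θ
    have h1 := hlow θ
    have h2 := hH θ
    have h3 : 0 < (1 - 3 * η) * supp Ω θ := mul_pos (by linarith) (by linarith)
    linarith
  have hdle : ∀ x θ, B.depth x ≤ B.h θ - sp x θ := by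
    intro x θ
    refine csInf_le ⟨-‖x‖, ?_⟩ ⟨θ, rfl⟩
    rintro _ ⟨φ, rfl⟩
    have h1 := hpos φ
    have h2 := (abs_le.1 (abs_sp_le x φ)).2
    show -‖x‖ ≤ B.h φ - sp x φ
    linarith
  have hsub : B.K ⊆ Ω := by
    intro x hx
    have hx0 : 0 ≤ B.depth x := hx
    have h1η : 0 < 1 - η := by linarith
    have h1 : ∀ θ, sp ((1 - η)⁻¹ • x) θ ≤ supp Ω θ := by
      intro θ
      rw [sp_smul, inv_mul_le_iff₀ h1η]
      have h2 := hdle x θ
      have h3 := hup θ
      linarith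
    have h2 := mem_closure_of_sp_le hc hne h1
    have h3 := hc.combo_interior_closure_mem_interior (x := 0) (y := (1 - η)⁻¹ • x)
      (by rwa [ho.interior_eq]) h2 (a := η) (b := 1 - η) hη0 h1η.le (by ring)
    rw [ho.interior_eq, smul_zero, zero_add, smul_inv_smul₀ h1η.ne'] at h3
    exact h3
  have hsup : (1 - 3 * η) • Ω ⊆ B.K := by
    rintro _ ⟨x, hx, rfl⟩
    show 0 ≤ B.depth ((1 - 3 * η) • x)
    refine le_csInf (range_nonempty _) ?_
    rintro _ ⟨θ, rfl⟩
    show 0 ≤ B.h θ - sp ((1 - 3 * η) • x) θ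
    rw [sp_smul]
    have h1 := hlow θ
    have h2 := le_supp hR hx θ
    have h3 : (1 - 3 * η) * sp x θ ≤ (1 - 3 * η) * supp Ω θ :=
      mul_le_mul_of_nonneg_left h2 (by linarith)
    linarith
  refine ⟨B, hpos, hsub, ?_⟩
  have hfin : volume Ω ≠ ∞ := hb.measure_lt_top.ne
  have hmeas : MeasurableSet ((1 - 3 * η) • Ω) :=
    (ho.smul₀ (by linarith : (1 - 3 * η) ≠ 0)).measurableSet
  have hsubΩ : (1 - 3 * η) • Ω ⊆ Ω := hsup.trans hsub
  have hvol : volume.real ((1 - 3 * η) • Ω) = (1 - 3 * η) ^ 2 * m := by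
    rw [Measure.real, Measure.addHaar_smul, ENNReal.toReal_mul, ENNReal.toReal_ofReal (abs_nonneg _),
      finrank_euclideanSpace_fin, abs_of_nonneg (by positivity), hm, Measure.real]
  calc volume.real (Ω \ B.K) ≤ volume.real (Ω \ ((1 - 3 * η) • Ω)) :=
        measureReal_mono (sdiff_subset_sdiff_right hsup) (measure_ne_top_of_subset sdiff_subset hfin)
    _ = m - (1 - 3 * η) ^ 2 * m := by
        rw [measureReal_sdiff hsubΩ hmeas hfin, hvol, hm]
    _ ≤ δ := by nlinarith [mul_nonneg (sq_nonneg η) hm0]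

end Pool.Agent.RC
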