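import Pool.Agent.H.MP_1b807b_an.C.Defs

/-! MP_1b807b_an, convex planar domains, module GGconc: `k G(k)` is concave in `k²` -/

set_option autoImplicit false

namespace Pool.Agent.RC

open Set
open Pool.Agent.H.MP_1b807b_an

lemma hasDerivAt_kGG {z : ℝ} (hz : 0 < z) :
    HasDerivAt (fun z : ℝ => Real.sqrt z * GG (Real.sqrt z)) ((1 - GG (Real.sqrt z) ^ 2) / 2) z := by
  have hs : 0 < Real.sqrt z := Real.sqrt_pos.mpr hz
  have h1 : HasDerivAt Real.sqrt (1 / (2 * Real.sqrt z)) z := Real.hasDerivAt_sqrt hz.ne'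
  have h2 : HasDerivAt GG (F1 1 (Real.sqrt z)) (Real.sqrt z) := hasDerivAt_F 1 (Real.sqrt z)
  have h3 := h1.mul (h2.comp z h1)
  refine h3.congr_deriv ?_
  rw [F1_eq 1 hs.ne']
  simp only [Function.comp_apply, Nat.cast_one, GG]
  field_simp
  ring

theorem kGG_concave : ConcaveOn ℝ (Ici 0) fun z : ℝ => Real.sqrt z * GG (Real.sqrt z) := by
  have hcont : Continuous GG := continuous_F 1
  refine AntitoneOn.concaveOn_of_deriv (convex_Ici 0)
    ((Real.continuous_sqrt.mul (hcont.comp Real.continuous_sqrt)).continuousOn) ?_ ?_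
  · intro z hz
    rw [interior_Ici] at hz
    exact (hasDerivAt_kGG hz).differentiableAt.differentiableWithinAt
  · intro a ha b hb hab
    rw [interior_Ici] at ha hb
    rw [(hasDerivAt_kGG ha).deriv, (hasDerivAt_kGG hb).deriv]
    have h1 : Real.sqrt a ≤ Real.sqrt b := Real.sqrt_le_sqrt hab
    have h2 : GG (Real.sqrt a) ≤ GG (Real.sqrt b) := (strictMono_F 1).monotone h1
    have h3 : 0 < GG (Real.sqrt a) := F_pos 1 (Real.sqrt_pos.mpr ha)
    have h4 : GG (Real.sqrt a) ^ 2 ≤ GG (Real.sqrt b) ^ 2 := by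
      apply pow_le_pow_left₀ h3.le h2
    linarith

end Pool.Agent.RC
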