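import Pool.Agent.H.MP_1b807b_an.C.Kern

/-! MP_1b807b_an, convex planar domains, module MonoAA: `AA` and `LL` are increasing on `[0,1]` -/

set_option autoImplicit false

namespace Pool.Agent.RC

open MeasureTheory Metric Set
open Pool.Agent.RG
open Pool.Agent.H.MP_1b807b_an

/-! ## series -/

lemma ser_hasSum {a : ℕ → ℝ} (ha : Ent a) (t : ℝ) : HasSum (fun n => a n * t ^ n) (ser a t) :=
  (ha.summable t).hasSum

lemma ser1_hasSum {a : ℕ → ℝ} (ha : Ent a) (t : ℝ) :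
    HasSum (fun n : ℕ => (n : ℝ) * a n * t ^ n) (t * ser (shc a) t) := by
  have h := (ser_hasSum ha.shc t).mul_left t
  have h3 : HasSum (fun n : ℕ => ((n + 1 : ℕ) : ℝ) * a (n + 1) * t ^ (n + 1))
      (t * ser (shc a) t) := by
    refine hasSum_of_eq h (fun n => ?_) rfl
    unfold shc
    push_cast
    ring
  have h4 := (hasSum_nat_add_iff (f := fun n : ℕ => (n : ℝ) * a n * t ^ n) 1).1 h3
  simpa using h4

lemma ser2_hasSum {a : ℕ → ℝ} (ha : Ent a) (t : ℝ) :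
    HasSum (fun n : ℕ => (n : ℝ) * ((n : ℝ) - 1) * a n * t ^ n)
      (t ^ 2 * ser (shc (shc a)) t) := by
  have h := (ser1_hasSum ha.shc t).mul_left t
  have h3 : HasSum (fun n : ℕ => ((n + 1 : ℕ) : ℝ) * (((n + 1 : ℕ) : ℝ) - 1) * a (n + 1) *
      t ^ (n + 1)) (t ^ 2 * ser (shc (shc a)) t) := by
    refine hasSum_of_eq h (fun n => ?_) (by ring)
    unfold shc
    push_cast
    ring
  have h4 := (hasSum_nat_add_iff (f := fun n : ℕ =>
    (n : ℝ) * ((n : ℝ) - 1) * a n * t ^ n) 1).1 h3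
  simpa using h4

lemma mono_ser {a : ℕ → ℝ} (ha : Ent a) {c : ℝ} (hc : 0 ≤ c)
    (h : ∀ n : ℕ, 0 ≤ ((n : ℝ) + 1) * a (n + 1) + c * ((n : ℝ) - 2) * a n) :
    MonotoneOn (fun t => ser a t / (1 + c * t) ^ 2) (Ici 0) := by
  have hw : ∀ t : ℝ, 0 ≤ t → 0 < 1 + c * t := fun t ht => by positivity
  have hd : ∀ t : ℝ, 0 ≤ t → HasDerivAt (fun t => ser a t / (1 + c * t) ^ 2)
      (((1 + c * t) * ser (shc a) t - 2 * c * ser a t) / (1 + c * t) ^ 3) t := by
    intro t ht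
    have h1 : HasDerivAt (fun t : ℝ => (1 + c * t) ^ 2) (2 * (1 + c * t) * c) t := by
      have := (((hasDerivAt_id t).const_mul c).const_add 1).pow 2
      refine this.congr_deriv ?_
      simp
    have h2 := (hasDerivAt_ser ha t).div h1 (pow_pos (hw t ht) 2).ne'
    refine h2.congr_deriv ?_
    have := (hw t ht).ne'
    field_simp
  refine monotoneOn_of_deriv_nonneg (convex_Ici 0) ?_ ?_ ?_
  · exact fun t ht => (hd t ht).continuousAt.continuousWithinAt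
  · intro t ht
    rw [interior_Ici] at ht
    exact (hd t (le_of_lt ht)).differentiableAt.differentiableWithinAt
  · intro t ht
    rw [interior_Ici] at ht
    have ht' : (0 : ℝ) ≤ t := le_of_lt ht
    rw [(hd t ht').deriv]
    refine div_nonneg ?_ (pow_pos (hw t ht') 3).le
    have h1 := (ser_hasSum ha.shc t).add (((ser1_hasSum ha t).mul_left c).sub
      ((ser_hasSum ha t).mul_left (2 * c)))
    have h2 : HasSum (fun n : ℕ => (((n : ℝ) + 1) * a (n + 1) + c * ((n : ℝ) - 2) * a n) * t ^ n)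
        ((1 + c * t) * ser (shc a) t - 2 * c * ser a t) := by
      refine hasSum_of_eq h1 (fun n => ?_) (by ring)
      unfold shc
      ring
    exact h2.nonneg fun n => mul_nonneg (h n) (pow_nonneg ht' n)

/-! ## the coefficients -/

lemma bet_le (n : ℕ) : bet n ≤ 1 / (n.factorial : ℝ) ^ 2 := by
  unfold bet
  have h1 : (Nat.centralBinom n : ℝ) ≤ 4 ^ n := by
    have h2 : (2 * n).choose n ≤ 2 ^ (2 * n) := Nat.choose_le_two_pow _ _
    have h3 : (2 : ℕ) ^ (2 * n) = 4 ^ n := by rw [pow_mul]; norm_num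
    rw [h3] at h2
    exact_mod_cast h2
  have hf : (0 : ℝ) < (n.factorial : ℝ) := by exact_mod_cast Nat.factorial_pos n
  rw [div_le_div_iff₀ (by positivity) (by positivity)]
  calc (Nat.centralBinom n : ℝ) * n.factorial ^ 2 ≤ 4 ^ n * n.factorial ^ 2 := by gcongr
    _ = 1 * (4 ^ n * (n.factorial : ℝ) ^ 2) := by ring

lemma two_bet_succ (n : ℕ) :
    2 * ((n : ℝ) + 1) ^ 2 * bet (n + 1) = bet n * ((2 * n + 1) / (n + 1)) := by
  rw [bet_succ]
  have : (0 : ℝ) < (n : ℝ) + 1 := by positivity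
  field_simp

lemma succ_le_fact (n : ℕ) : n + 1 ≤ 2 * n.factorial := by
  have := Nat.self_le_factorial n
  have := Nat.factorial_pos n
  omega

lemma sq_le_fact (n : ℕ) : n ^ 2 ≤ 2 * n.factorial := by
  rcases n with _ | n
  · simp
  · have h := succ_le_fact n
    rw [Nat.factorial_succ]
    nlinarith

noncomputable def nu (c : ℝ) (n : ℕ) : ℝ :=
  2 * ((n : ℝ) + 1) ^ 2 * bet (n + 1) + c * (2 * (n : ℝ) ^ 2 - 2 * n + 1) * bet n

noncomputable def btm : ℕ → ℝ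
  | 0 => 0
  | (n + 1) => bet n

noncomputable def la (c : ℝ) (n : ℕ) : ℝ := nu c n - 3 * c * bet n - c ^ 2 * btm n

lemma ent_nu (c : ℝ) : Ent (nu c) := by
  refine ⟨2 + |c| * 5, fun n => ?_⟩
  have hf : (0 : ℝ) < (n.factorial : ℝ) := by exact_mod_cast Nat.factorial_pos n
  have hf1 : (1 : ℝ) ≤ (n.factorial : ℝ) := by exact_mod_cast Nat.factorial_pos n
  have hb := bet_nonneg n
  have hb1 : bet n ≤ 1 / (n.factorial : ℝ) := by
    refine (bet_le n).trans ?_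
    refine one_div_le_one_div_of_le hf ?_
    nlinarith
  have h1 : |2 * ((n : ℝ) + 1) ^ 2 * bet (n + 1)| ≤ 2 / (n.factorial : ℝ) := by
    rw [two_bet_succ, abs_of_nonneg (by positivity)]
    have h2 : (2 * (n : ℝ) + 1) / ((n : ℝ) + 1) ≤ 2 := by
      rw [div_le_iff₀ (by positivity)]; linarith
    calc bet n * ((2 * (n : ℝ) + 1) / ((n : ℝ) + 1)) ≤ 1 / (n.factorial : ℝ) * 2 := by gcongr
      _ = 2 / (n.factorial : ℝ) := by ring
  have hn : ((n : ℝ)) ^ 2 ≤ 2 * (n.factorial : ℝ) := by exact_mod_cast sq_le_fact n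
  have h3 : |c * (2 * (n : ℝ) ^ 2 - 2 * (n : ℝ) + 1) * bet n| ≤ |c| * 5 / (n.factorial : ℝ) := by
    rw [abs_mul, abs_mul, abs_of_nonneg hb]
    have e : 0 ≤ 2 * (n : ℝ) ^ 2 - 2 * (n : ℝ) + 1 := by
      nlinarith [sq_nonneg ((n : ℝ) - 1), sq_nonneg (n : ℝ)]
    rw [abs_of_nonneg e, mul_div_assoc, mul_assoc]
    refine mul_le_mul_of_nonneg_left ?_ (abs_nonneg c)
    have e2 : 2 * (n : ℝ) ^ 2 - 2 * (n : ℝ) + 1 ≤ 5 * (n.factorial : ℝ) := by
      have : (0 : ℝ) ≤ (n : ℝ) := Nat.cast_nonneg n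
      linarith
    calc (2 * (n : ℝ) ^ 2 - 2 * (n : ℝ) + 1) * bet n
        ≤ (5 * (n.factorial : ℝ)) * (1 / (n.factorial : ℝ) ^ 2) :=
          mul_le_mul e2 (bet_le n) hb (by positivity)
      _ = 5 / (n.factorial : ℝ) := by field_simp
  show |nu c n| ≤ (2 + |c| * 5) / (n.factorial : ℝ)
  unfold nu
  refine (abs_add_le _ _).trans ?_
  rw [add_div]
  exact add_le_add h1 h3

lemma btm_le (n : ℕ) : |btm n| ≤ 2 / (n.factorial : ℝ) := by
  rcases n with _ | n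
  · simp [btm]
  · have hf : (0 : ℝ) < (n.factorial : ℝ) := by exact_mod_cast Nat.factorial_pos n
    have h : ((n : ℝ) + 1) ≤ 2 * (n.factorial : ℝ) := by exact_mod_cast succ_le_fact n
    simp only [btm]
    rw [abs_of_nonneg (bet_nonneg n), Nat.factorial_succ]
    refine (bet_le n).trans ?_
    rw [div_le_div_iff₀ (by positivity) (by positivity)]
    push_cast
    nlinarith

lemma ent_la (c : ℝ) : Ent (la c) := by
  obtain ⟨C, hC⟩ := ent_nu c
  obtain ⟨C', hC'⟩ := ent_bet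
  refine ⟨C + 3 * |c| * C' + c ^ 2 * 2, fun n => ?_⟩
  have hf : (0 : ℝ) < (n.factorial : ℝ) := by exact_mod_cast Nat.factorial_pos n
  show |nu c n - 3 * c * bet n - c ^ 2 * btm n| ≤
    (C + 3 * |c| * C' + c ^ 2 * 2) / (n.factorial : ℝ)
  refine (abs_sub _ _).trans ?_
  rw [add_div, add_div]
  refine add_le_add ((abs_sub _ _).trans (add_le_add (hC n) ?_)) ?_
  · rw [abs_mul, abs_mul, mul_div_assoc]
    refine mul_le_mul (le_of_eq (by norm_num)) (hC' n) (abs_nonneg _) (by positivity)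
  · rw [abs_mul, abs_of_nonneg (sq_nonneg c), mul_div_assoc]
    exact mul_le_mul_of_nonneg_left (btm_le n) (sq_nonneg c)

/-! ## the series of `AA` and `LL` -/

lemma ser_nu (c t : ℝ) : ser (nu c) t = 2 * ser (shc bet) t + 2 * (t * ser (shc (shc bet)) t) +
    c * (2 * (t ^ 2 * ser (shc (shc bet)) t) + ser bet t) := by
  have h := ((ser_hasSum ent_bet.shc t).mul_left 2).add
    ((ser1_hasSum ent_bet.shc t).mul_left 2)
  have h2 := h.add ((((ser2_hasSum ent_bet t).mul_left 2).add (ser_hasSum ent_bet t)).mul_left c)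
  refine (ser_hasSum (ent_nu c) t).unique (hasSum_of_eq h2 (fun n => ?_) rfl)
  unfold nu shc
  ring

lemma ser_btm (t : ℝ) : HasSum (fun n => btm n * t ^ n) (t * ser bet t) := by
  have h := (ser_hasSum ent_bet t).mul_left t
  have h3 : HasSum (fun n : ℕ => btm (n + 1) * t ^ (n + 1)) (t * ser bet t) := by
    refine hasSum_of_eq h (fun n => ?_) rfl
    simp only [btm]
    ring
  have h4 := (hasSum_nat_add_iff (f := fun n : ℕ => btm n * t ^ n) 1).1 h3
  simpa [btm] using h4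

lemma ser_la (c t : ℝ) : ser (la c) t = ser (nu c) t - 3 * c * ser bet t -
    c ^ 2 * (t * ser bet t) := by
  have h := ((ser_hasSum (ent_nu c) t).sub ((ser_hasSum ent_bet t).mul_left (3 * c))).sub
    ((ser_btm t).mul_left (c ^ 2))
  refine (ser_hasSum (ent_la c) t).unique (hasSum_of_eq h (fun n => ?_) rfl)
  unfold la
  ring

lemma bet_one : bet 1 = 1 / 2 := by
  have := bet_succ 0
  rw [bet_zero] at this
  norm_num at this
  exact this

lemma bet_two : bet 2 = 3 / 32 := by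
  have := bet_succ 1
  rw [bet_one] at this
  norm_num at this
  exact this

lemma bet_three : bet 3 = 5 / 576 := by
  have := bet_succ 2
  rw [bet_two] at this
  norm_num at this
  exact this

lemma I1_zero' : I1 0 = 0 := by
  unfold I1 W
  simp

lemma sq_add_ser (z : ℝ) : I1 z ^ 2 + I0 z ^ 2 =
    2 * ser (shc bet) (z ^ 2) + 2 * (z ^ 2 * ser (shc (shc bet)) (z ^ 2)) := by
  rcases eq_or_ne z 0 with rfl | hz
  · rw [I0_sq_ser, I1_zero']
    have e : ∀ a : ℕ → ℝ, Ent a → ser a ((0 : ℝ) ^ 2) = a 0 := by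
      intro a ha
      have h := (ser_hasSum ha ((0 : ℝ) ^ 2))
      have h2 : HasSum (fun n : ℕ => a n * ((0 : ℝ) ^ 2) ^ n) (a 0 * ((0 : ℝ) ^ 2) ^ 0) :=
        hasSum_single 0 fun n hn => by simp [hn]
      have := h.unique h2
      simpa using this
    rw [e _ ent_bet, e _ ent_bet.shc, bet_zero]
    have : shc bet 0 = 1 / 2 := by
      unfold shc
      rw [zero_add, bet_one]
      norm_num
    rw [this]
    norm_num
  · have h1 : HasDerivAt (fun z => I0 z * I1 z) (I1 z * I1 z + I0 z * W1 1 z) z :=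
      (hasDerivAt_I0 z).mul (hasDerivAt_I1 z)
    have h2 : HasDerivAt (fun z => I0 z * I1 z)
        (ser (shc bet) (z ^ 2) + z * (ser (shc (shc bet)) (z ^ 2) * (2 * z))) z := by
      have e : (fun z => I0 z * I1 z) = fun z => z * ser (shc bet) (z ^ 2) := funext I01_ser
      rw [e]
      have h3 : HasDerivAt (fun z : ℝ => ser (shc bet) (z ^ 2))
          (ser (shc (shc bet)) (z ^ 2) * (2 * z)) z := by
        have := HasDerivAt.comp (h₂ := ser (shc bet)) (h := fun x : ℝ => x ^ 2) z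
          (hasDerivAt_ser ent_bet.shc (z ^ 2)) (hasDerivAt_pow 2 z)
        refine this.congr_deriv ?_
        push_cast
        ring
      refine ((hasDerivAt_id z).mul h3).congr_deriv ?_
      simp
    have h3 := h1.unique h2
    have h4 : W1 1 z = I0 z - 1 / z * I1 z := by
      have := W1_eq 1 hz
      rw [this]
      simp [I0, I1]
    have h5 : 1 / z * (I0 z * I1 z) = ser (shc bet) (z ^ 2) := by
      rw [I01_ser]
      field_simp
    rw [h4] at h3
    linear_combination h3 + h5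

lemma AA_eq {k b : ℝ} (hk : 0 < k) (hb : 0 < b) (s : ℝ) :
    AA k b s = k ^ 2 * (ser (nu (b / k ^ 2)) ((k * s) ^ 2) /
      (1 + b / k ^ 2 * (k * s) ^ 2) ^ 2) := by
  have hw : 0 < wt b s := wt_pos hb s
  have e1 : 1 + b / k ^ 2 * (k * s) ^ 2 = wt b s := by
    unfold wt
    field_simp
  have e2 := sq_add_ser (k * s)
  have e3 : I0 (k * s) * I1 (k * s) = k * s * ser (shc bet) ((k * s) ^ 2) := I01_ser (k * s)
  have e4 := I0_sq_ser (k * s)
  have e5 := ser_nu (b / k ^ 2) ((k * s) ^ 2)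
  rw [e1, e5]
  have e6 : 2 * b * s * k * I0 (k * s) * I1 (k * s) =
      2 * b * s * k * (k * s * ser (shc bet) ((k * s) ^ 2)) := by rw [← e3]; ring
  unfold AA
  rw [e2, e4, e6]
  have e9 : k ^ 2 * s ^ 2 = (k * s) ^ 2 := by ring
  generalize (k * s) ^ 2 = t at *
  generalize ser (shc bet) t = x at *
  generalize ser (shc (shc bet)) t = y at *
  generalize ser bet t = v at *
  obtain ⟨c, hc⟩ : ∃ c, c = b / k ^ 2 := ⟨_, rfl⟩
  rw [← hc] at e1 ⊢
  have e8 : b = c * k ^ 2 := by rw [hc]; field_simp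
  have e10 : 2 * b * s * k * (k * s * x) = k ^ 2 * (2 * c * t * x) := by
    rw [e8, ← e9]; ring
  have e11 : b * v = k ^ 2 * (c * v) := by rw [e8]; ring
  rw [e10, e11]
  generalize wt b s = w at *
  field_simp
  rw [← e1]
  ring

lemma LL_eq {k b : ℝ} (hk : 0 < k) (hb : 0 < b) (s : ℝ) :
    LL k b s = k ^ 2 * (ser (la (b / k ^ 2)) ((k * s) ^ 2) /
      (1 + b / k ^ 2 * (k * s) ^ 2) ^ 2) := by
  have hw : 0 < wt b s := wt_pos hb s
  have e1 : 1 + b / k ^ 2 * (k * s) ^ 2 = wt b s := by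
    unfold wt
    field_simp
  unfold LL
  rw [AA_eq hk hb, ser_la, I0_sq_ser]
  generalize (k * s) ^ 2 = t at *
  generalize ser bet t = v at *
  obtain ⟨c, hc⟩ : ∃ c, c = b / k ^ 2 := ⟨_, rfl⟩
  rw [← hc] at e1 ⊢
  generalize ser (nu c) t = y at *
  have e8 : b = c * k ^ 2 := by rw [hc]; field_simp
  rw [e1]
  have e11 : b * v = k ^ 2 * (c * v) := by rw [e8]; ring
  have e12 : 2 * b * v = k ^ 2 * (2 * c * v) := by rw [e8]; ring
  rw [e12, e11]
  generalize wt b s = w at *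
  field_simp
  rw [← e1]
  ring

/-! ## the signs -/

lemma nu_nonneg {c : ℝ} (hc : 0 ≤ c) (n : ℕ) : 0 ≤ nu c n := by
  unfold nu
  have h1 := bet_nonneg n
  have h2 := bet_nonneg (n + 1)
  have e : 0 ≤ 2 * (n : ℝ) ^ 2 - 2 * (n : ℝ) + 1 := by
    nlinarith [sq_nonneg ((n : ℝ) - 1), sq_nonneg (n : ℝ)]
  positivity

lemma nu_zero (c : ℝ) : nu c 0 = 1 + c := by
  unfold nu
  rw [zero_add, bet_one, bet_zero]
  norm_num

lemma nu_one (c : ℝ) : nu c 1 = 3 / 4 + c / 2 := by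
  unfold nu
  norm_num [bet_one, bet_two]
  ring

lemma nu_two (c : ℝ) : nu c 2 = 5 / 32 + 15 * c / 32 := by
  unfold nu
  norm_num [bet_two, bet_three]
  ring

lemma nu_cond {c : ℝ} (hc : 0 ≤ c) (hc2 : c ≤ 1 / 2) (hc3 : 8 * c ^ 2 + 6 * c ≤ 3) (n : ℕ) :
    0 ≤ ((n : ℝ) + 1) * nu c (n + 1) + c * ((n : ℝ) - 2) * nu c n := by
  rcases n with _ | _ | n
  · rw [zero_add, nu_zero, nu_one]
    push_cast
    nlinarith
  · rw [zero_add, nu_one, show 1 + 1 = 2 from rfl, nu_two]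
    push_cast
    nlinarith
  · have h1 := nu_nonneg hc (n + 1 + 1)
    have h2 := nu_nonneg hc (n + 1 + 1 + 1)
    push_cast
    have : (0 : ℝ) ≤ (n : ℝ) + 1 + 1 - 2 := by
      have : (0 : ℝ) ≤ (n : ℝ) := Nat.cast_nonneg n
      linarith
    positivity

lemma la_zero (c : ℝ) : la c 0 = 1 - 2 * c := by
  unfold la
  rw [nu_zero, bet_zero]
  simp only [btm]
  ring

lemma la_one (c : ℝ) : la c 1 = 3 / 4 - c - c ^ 2 := by
  unfold la
  rw [nu_one, bet_one]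
  have : btm 1 = 1 := by show bet 0 = 1; exact bet_zero
  rw [this]
  ring

lemma la_two (c : ℝ) : la c 2 = 5 / 32 + 3 * c / 16 - c ^ 2 / 2 := by
  unfold la
  rw [nu_two, bet_two]
  have : btm 2 = 1 / 2 := by show bet 1 = 1 / 2; exact bet_one
  rw [this]
  ring

lemma la_nonneg {c : ℝ} (hc : 0 ≤ c) (hc2 : c ≤ 1 / 2) {m : ℕ} (hm : 1 ≤ m) :
    0 ≤ la c (m + 1) := by
  have hm1 : (1 : ℝ) ≤ (m : ℝ) := by exact_mod_cast hm
  have hB := bet_pos (m + 1)
  have e1 := bet_succ m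
  have e2 := two_bet_succ (m + 1)
  have e3 : bet m = bet (m + 1) * (2 * ((m : ℝ) + 1) ^ 3 / (2 * m + 1)) := by
    rw [e1]
    have : (0 : ℝ) < 2 * (m : ℝ) + 1 := by positivity
    field_simp
  have e4 : la c (m + 1) = bet (m + 1) * ((2 * ((m : ℝ) + 1) + 1) / ((m : ℝ) + 1 + 1) +
      c * (2 * (m : ℝ) ^ 2 + 2 * m - 2) - c ^ 2 * (2 * ((m : ℝ) + 1) ^ 3 / (2 * m + 1))) := by
    unfold la nu
    simp only [btm]
    rw [e2, e3]
    push_cast
    ring
  rw [e4]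
  refine mul_nonneg hB.le ?_
  have h1 : (5 : ℝ) / 3 ≤ (2 * ((m : ℝ) + 1) + 1) / ((m : ℝ) + 1 + 1) := by
    rw [div_le_div_iff₀ (by norm_num) (by positivity)]
    linarith
  have h2 : c ^ 2 * (2 * ((m : ℝ) + 1) ^ 3 / (2 * m + 1)) ≤
      c * (((m : ℝ) + 1) ^ 3 / (2 * m + 1)) := by
    have : 0 ≤ ((m : ℝ) + 1) ^ 3 / (2 * m + 1) := by positivity
    have h3 : c ^ 2 ≤ c / 2 := by nlinarith
    calc c ^ 2 * (2 * ((m : ℝ) + 1) ^ 3 / (2 * m + 1))
        = c ^ 2 * (2 * (((m : ℝ) + 1) ^ 3 / (2 * m + 1))) := by ring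
      _ ≤ c / 2 * (2 * (((m : ℝ) + 1) ^ 3 / (2 * m + 1))) :=
          mul_le_mul_of_nonneg_right h3 (by positivity)
      _ = c * (((m : ℝ) + 1) ^ 3 / (2 * m + 1)) := by ring
  have h4 : -1 ≤ c * (2 * (m : ℝ) ^ 2 + 2 * m - 2) - c * (((m : ℝ) + 1) ^ 3 / (2 * m + 1)) := by
    have h5 : -2 ≤ (2 * (m : ℝ) ^ 2 + 2 * m - 2) - ((m : ℝ) + 1) ^ 3 / (2 * m + 1) := by
      have h6 : ((m : ℝ) + 1) ^ 3 / (2 * m + 1) ≤ (2 * (m : ℝ) ^ 2 + 2 * m - 2) + 2 := by
        rw [div_le_iff₀ (by positivity)]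
        nlinarith [mul_nonneg (sub_nonneg.2 hm1) (by positivity : (0:ℝ) ≤ 3 * (m:ℝ) ^ 2 + 6 * m + 1)]
      linarith
    nlinarith
  linarith

lemma la_cond {c : ℝ} (hc : 0 ≤ c) (hc2 : c ≤ 1 / 2) (n : ℕ) :
    0 ≤ ((n : ℝ) + 1) * la c (n + 1) + c * ((n : ℝ) - 2) * la c n := by
  rcases n with _ | _ | n
  · rw [zero_add, la_zero, la_one]
    push_cast
    nlinarith [sq_nonneg (1 - 2 * c)]
  · rw [zero_add, la_one, show 1 + 1 = 2 from rfl, la_two]
    push_cast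
    have : 0 ≤ c ^ 3 := by positivity
    nlinarith
  · have h1 := la_nonneg hc hc2 (m := n + 1) (by omega)
    have h2 := la_nonneg hc hc2 (m := n + 1 + 1) (by omega)
    push_cast
    have : (0 : ℝ) ≤ (n : ℝ) + 1 + 1 - 2 := by
      have : (0 : ℝ) ≤ (n : ℝ) := Nat.cast_nonneg n
      linarith
    positivity

/-! ## the theorems -/

lemma KB.c {k b : ℝ} (h : KB k b) : 0 ≤ b / k ^ 2 ∧ b / k ^ 2 ≤ 1 / 2 ∧
    8 * (b / k ^ 2) ^ 2 + 6 * (b / k ^ 2) ≤ 3 := by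
  obtain ⟨hk, hb, h2, h3⟩ := h
  refine ⟨by positivity, ?_, ?_⟩
  · rw [div_le_iff₀ (by positivity)]
    linarith
  · have e : 8 * (b / k ^ 2) ^ 2 + 6 * (b / k ^ 2) = (8 * b ^ 2 + 6 * b * k ^ 2) / k ^ 4 := by
      field_simp
    rw [e, div_le_iff₀ (by positivity)]
    linarith

lemma mono_comp {k : ℝ} (hk : 0 < k) {g : ℝ → ℝ} (hg : MonotoneOn g (Ici 0)) :
    MonotoneOn (fun s => k ^ 2 * g ((k * s) ^ 2)) (Icc 0 1) := by
  intro s hs s' hs' hss
  have h1 : (k * s) ^ 2 ≤ (k * s') ^ 2 := by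
    have := hs.1
    gcongr
  have h2 := hg (mem_Ici.2 (sq_nonneg (k * s))) (mem_Ici.2 (sq_nonneg (k * s'))) h1
  exact mul_le_mul_of_nonneg_left h2 (sq_nonneg k)

theorem mono_AA {k b : ℝ} (h : KB k b) : MonotoneOn (AA k b) (Icc 0 1) := by
  have h0 := h.c
  have h1 := mono_comp h.1 (mono_ser (ent_nu (b / k ^ 2)) h0.1
    (nu_cond h0.1 h0.2.1 h0.2.2))
  exact h1.congr fun s _ => (AA_eq h.1 h.2.1 s).symm

theorem AA_nonneg {k b : ℝ} (h : KB k b) {s : ℝ} (hs : s ∈ Icc (0 : ℝ) 1) : 0 ≤ AA k b s := by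
  have h0 := h.c
  rw [AA_eq h.1 h.2.1]
  have h1 : 0 ≤ ser (nu (b / k ^ 2)) ((k * s) ^ 2) :=
    (ser_hasSum (ent_nu (b / k ^ 2)) ((k * s) ^ 2)).nonneg
      fun n => mul_nonneg (nu_nonneg h0.1 n) (pow_nonneg (sq_nonneg _) n)
  positivity

theorem mono_LL {k b : ℝ} (h : KB k b) : MonotoneOn (LL k b) (Icc 0 1) := by
  have h0 := h.c
  have h1 := mono_comp h.1 (mono_ser (ent_la (b / k ^ 2)) h0.1 (la_cond h0.1 h0.2.1))
  exact h1.congr fun s _ => (LL_eq h.1 h.2.1 s).symm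

theorem LL_nonneg {k b : ℝ} (h : KB k b) {s : ℝ} (hs : s ∈ Icc (0 : ℝ) 1) : 0 ≤ LL k b s := by
  have h0 := h.c
  have h1 := mono_LL h (left_mem_Icc.2 zero_le_one) hs hs.1
  refine le_trans ?_ h1
  rw [LL_eq h.1 h.2.1]
  have h2 : HasSum (fun n : ℕ => la (b / k ^ 2) n * ((k * 0) ^ 2) ^ n)
      (la (b / k ^ 2) 0 * ((k * 0) ^ 2) ^ 0) :=
    hasSum_single 0 fun n hn => by simp [hn]
  have h3 := (ser_hasSum (ent_la (b / k ^ 2)) ((k * 0) ^ 2)).unique h2
  rw [h3, la_zero]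
  have : 0 ≤ 1 - 2 * (b / k ^ 2) := by linarith [h0.2.1]
  positivity

end Pool.Agent.RC
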