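import Pool.Agent.H.MP_1b807b_an.C.DefsC
import Pool.Agent.H.MP_1b807b_an.C.Far
import Pool.Agent.H.MP_1b807b_an.C.Gauge
import Pool.Agent.H.MP_1b807b_an.C.SbtSq
import Pool.Agent.H.MP_1b807b_an.C.VHlem
import Pool.Agent.H.MP_1b807b_an.C.DiscId
import Pool.Agent.H.MP_1b807b_an.C.MonoAA

/-! MP_1b807b_an, convex planar domains, module HEnergy: the energy bound of the step (H) -/

set_option autoImplicit false

namespace Pool.Agent.RC

open MeasureTheory Metric Set
open Pool.Agent.RG
open scoped RealInnerProductSpace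

theorem continuous_AA35 {b : ℝ} (hb : 0 < b) (k : ℝ) : Continuous (AA k b) := by
  have hw : ∀ s, 0 < wt b s := fun s => DI.wt_pos hb.le s
  have c0 : Continuous fun s : ℝ => I0 (k * s) := continuous_I0.comp (by fun_prop)
  have c1 : Continuous fun s : ℝ => I1 (k * s) := continuous_I1.comp (by fun_prop)
  have cw := DI.continuous_wt b
  unfold AA
  exact ((Continuous.div (by fun_prop) cw fun s => (hw s).ne').sub
    (Continuous.div (by fun_prop) (cw.pow 2) fun s => pow_ne_zero 2 (hw s).ne')).add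
    (Continuous.div (by fun_prop) (cw.pow 2) fun s => pow_ne_zero 2 (hw s).ne')

theorem continuous_LL35 {b : ℝ} (hb : 0 < b) (k : ℝ) : Continuous (LL k b) := by
  have hw : ∀ s, 0 < wt b s := fun s => DI.wt_pos hb.le s
  have c0 : Continuous fun s : ℝ => I0 (k * s) := continuous_I0.comp (by fun_prop)
  have cw := DI.continuous_wt b
  have hA := continuous_AA35 hb k
  unfold LL
  exact (hA.sub (Continuous.div (by fun_prop) cw fun s => (hw s).ne')).sub
    (Continuous.div (by fun_prop) (cw.pow 2) fun s => pow_ne_zero 2 (hw s).ne')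

/-- the pointwise bound -/
theorem H_point35 {k b : ℝ} (hb : 0 < b) (s r : ℝ) :
    (1 + b * r) * (gH' k b s ^ 2 + k ^ 2 * gH k b s ^ 2) ≤
      b * r * AA k b s + LL k b s + (b + b / (1 + b * r)) * gH k b s ^ 2 ∨ r < 0 := by
  by_cases hr : r < 0
  · exact Or.inr hr
  left
  push Not at hr
  have hw := DI.wt_pos hb.le s
  set w := wt b s with hwd
  set v := 1 + b * r with hv
  have hv0 : 0 < v := by rw [hv]; positivity
  have hq : Real.sqrt w ^ 2 = w := Real.sq_sqrt hw.le
  have hq0 : Real.sqrt w ≠ 0 := (Real.sqrt_pos.2 hw).ne'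
  have e1 : gH k b s ^ 2 = I0 (k * s) ^ 2 / w := by
    unfold gH
    rw [div_pow, hq]
  have e2 : gH' k b s ^ 2 = k ^ 2 * I1 (k * s) ^ 2 / w -
      2 * b * s * k * I0 (k * s) * I1 (k * s) / w ^ 2 +
      b ^ 2 * s ^ 2 * I0 (k * s) ^ 2 / w ^ 3 := by
    unfold gH'
    rw [← hwd]
    have : (k * I1 (k * s) / Real.sqrt w - b * s * I0 (k * s) / (w * Real.sqrt w)) ^ 2 =
        (k * I1 (k * s) - b * s * I0 (k * s) / w) ^ 2 / Real.sqrt w ^ 2 := by
      field_simp
    rw [this, hq]
    field_simp
    ring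
  have e3 : AA k b s = k ^ 2 * (I1 (k * s) ^ 2 + I0 (k * s) ^ 2) / w
    - 2 * b * s * k * I0 (k * s) * I1 (k * s) / w ^ 2 + b * I0 (k * s) ^ 2 / w ^ 2 := rfl
  have e4 : LL k b s = AA k b s - b * I0 (k * s) ^ 2 / w - 2 * b * I0 (k * s) ^ 2 / w ^ 2 := rfl
  have e5 : b * s ^ 2 = w - 1 := by
    rw [hwd]
    unfold wt
    ring
  have e6 : gH' k b s ^ 2 + k ^ 2 * gH k b s ^ 2 = AA k b s - b * I0 (k * s) ^ 2 / w ^ 3 := by
    rw [e1, e2, e3]
    have : b ^ 2 * s ^ 2 * I0 (k * s) ^ 2 / w ^ 3 =
        b * (w - 1) * I0 (k * s) ^ 2 / w ^ 3 := by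
      rw [← e5]
      ring
    rw [this]
    field_simp
    ring
  have e7 : 2 / w - v / w ^ 2 ≤ 1 / v := by
    rw [← sub_nonneg]
    have : 1 / v - (2 / w - v / w ^ 2) = (w - v) ^ 2 / (v * w ^ 2) := by
      field_simp
      ring
    rw [this]
    positivity
  have hI : 0 ≤ b * (I0 (k * s) ^ 2 / w) := by positivity
  have e8 := mul_le_mul_of_nonneg_left e7 hI
  rw [e6, e1, e4]
  have e9 : b * r = v - 1 := by rw [hv]; ring
  rw [e9]
  have e10 : b * (I0 (k * s) ^ 2 / w) * (2 / w - v / w ^ 2) =
      2 * b * I0 (k * s) ^ 2 / w ^ 2 - v * (b * I0 (k * s) ^ 2 / w ^ 3) := by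
    field_simp
  have e11 : b * (I0 (k * s) ^ 2 / w) * (1 / v) = b / v * (I0 (k * s) ^ 2 / w) := by
    field_simp
  rw [e10, e11] at e8
  have e12 : b * I0 (k * s) ^ 2 / w = b * (I0 (k * s) ^ 2 / w) := by ring
  nlinarith [e8, e12]

theorem H_energyE {k b : ℝ} (h : KB k b) (B : Body) (hA : B.area = Real.pi)
    (h0 : ∀ θ, 0 < B.h θ) (o : E 2) :
    (∫ x in B.K, VH b o x ^ 2 * (MH k b (max (B.depth x) 0) ^ 2 +
        k ^ 2 * fH k b (B.depth x) ^ 2))
    + (∫ x in B.K, divg (fun x => b • (x - o)) x)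
    - (∫ x in B.K, (divg (fun x => b • (x - o)) x - ‖fderiv ℝ (VH b o) x‖ ^ 2)
        * fH k b (B.depth x) ^ 2)
    - k * GG k * (∫ θ in (0 : ℝ)..2 * Real.pi, VH b o (B.y θ) ^ 2 * B.ρ θ) ≤
    (1 + b) / I0 k ^ 2 * (X1 k b * (B.Ml o - 2 * Real.pi) - X2 k b * (B.Mw o - 2 * Real.pi)
      + X3e k b * (B.len - 2 * Real.pi)) := by
  have hk : 0 < k := h.1
  have hb : 0 < b := h.2.1
  have hK := B.isCompact_K
  have hKm : MeasurableSet B.K := hK.measurableSet
  have hvol : volume.real B.K = Real.pi := by rw [B.volume_K h0, hA]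
  have hdc := B.continuous_depth
  have hnc : Continuous fun x : E 2 => ‖x - o‖ ^ 2 := by fun_prop
  have cA := continuous_AA35 hb k
  have cL := continuous_LL35 hb k
  have cg := (continuous_iff_continuousAt.2 fun s => (hasDerivAt_gH (k := k) hb s).continuousAt)
  have cg' := continuous_gH' (k := k) hb
  set c2 : ℝ := (1 + b) / I0 k ^ 2 with hc2
  have hI0 := I0_pos k
  have hc20 : 0 < c2 := by positivity
  have hcsq : (Real.sqrt (1 + b) / I0 k) ^ 2 = c2 := by
    rw [div_pow, Real.sq_sqrt (by linarith)]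
  -- the depth is between 0 and 1 almost everywhere on `K`
  have hae : ∀ᵐ x ∂(volume.restrict B.K), 0 ≤ B.depth x ∧ B.depth x < 1 := by
    have h1 : ∀ᵐ x ∂(volume.restrict B.K), x ∈ B.K := ae_restrict_mem hKm
    have h2 : ∀ᵐ x ∂(volume.restrict B.K), ¬ 1 ≤ B.depth x := by
      refine ae_restrict_of_ae ?_
      rw [ae_iff]
      simpa using B.deep_null hA
    filter_upwards [h1, h2] with x hx hx2
    exact ⟨hx, not_le.1 hx2⟩
  have hfx : ∀ t : ℝ, 0 ≤ t → t < 1 → fH k b t ^ 2 = c2 * gH k b (1 - t) ^ 2 := by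
    intro t ht0 ht1
    have hs : sH t = 1 - t := by
      unfold sH
      rw [max_eq_left (by linarith), min_eq_right (by linarith)]
    rw [fH_eq hb, hs, mul_pow, hcsq]
    ring
  have hMx : ∀ t : ℝ, 0 ≤ t → t < 1 → MH k b (max t 0) ^ 2 = c2 * gH' k b (1 - t) ^ 2 := by
    intro t ht0 ht1
    rw [max_eq_left ht0, MH_eq h, max_eq_left (by linarith), mul_pow, hcsq]
    ring
  -- abbreviations
  have cgd : Continuous fun x : E 2 => gH k b (1 - B.depth x) := cg.comp (by fun_prop)
  have cgd' : Continuous fun x : E 2 => gH' k b (1 - B.depth x) := cg'.comp (by fun_prop)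
  have cAd : Continuous fun x : E 2 => AA k b (1 - B.depth x) := cA.comp (by fun_prop)
  have cLd : Continuous fun x : E 2 => LL k b (1 - B.depth x) := cL.comp (by fun_prop)
  have iI : ∀ {F : E 2 → ℝ}, Continuous F → IntegrableOn F B.K := fun hF =>
    hF.continuousOn.integrableOn_compact hK
  -- the bulk terms
  have hbulk : (∫ x in B.K, VH b o x ^ 2 * (MH k b (max (B.depth x) 0) ^ 2 +
        k ^ 2 * fH k b (B.depth x) ^ 2)) -
      (∫ x in B.K, (divg (fun x => b • (x - o)) x - ‖fderiv ℝ (VH b o) x‖ ^ 2)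
        * fH k b (B.depth x) ^ 2) ≤
      c2 * (b * (∫ x in B.K, ‖x - o‖ ^ 2 * AA k b (1 - B.depth x)) +
        ∫ x in B.K, LL k b (1 - B.depth x)) := by
    have a1 : (∫ x in B.K, VH b o x ^ 2 * (MH k b (max (B.depth x) 0) ^ 2 +
        k ^ 2 * fH k b (B.depth x) ^ 2)) = ∫ x in B.K, c2 * ((1 + b * ‖x - o‖ ^ 2) *
          (gH' k b (1 - B.depth x) ^ 2 + k ^ 2 * gH k b (1 - B.depth x) ^ 2)) := by
      refine integral_congr_ae ?_
      filter_upwards [hae] with x hx
      rw [VH_sq hb.le, hfx _ hx.1 hx.2, hMx _ hx.1 hx.2]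
      ring
    have a2 : (∫ x in B.K, (divg (fun x => b • (x - o)) x - ‖fderiv ℝ (VH b o) x‖ ^ 2)
        * fH k b (B.depth x) ^ 2) = ∫ x in B.K, c2 * ((b + b / (1 + b * ‖x - o‖ ^ 2)) *
          gH k b (1 - B.depth x) ^ 2) := by
      refine integral_congr_ae ?_
      filter_upwards [hae] with x hx
      rw [divg_ZH, norm_fderiv_VH hb.le, hfx _ hx.1 hx.2]
      ring
    have c1 : Continuous fun x : E 2 => c2 * ((1 + b * ‖x - o‖ ^ 2) *
          (gH' k b (1 - B.depth x) ^ 2 + k ^ 2 * gH k b (1 - B.depth x) ^ 2)) := by fun_prop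
    have c3 : Continuous fun x : E 2 => c2 * ((b + b / (1 + b * ‖x - o‖ ^ 2)) *
          gH k b (1 - B.depth x) ^ 2) := by
      refine continuous_const.mul (Continuous.mul ?_ (cgd.pow 2))
      refine continuous_const.add (continuous_const.div (by fun_prop) fun x => ?_)
      positivity
    have c4 : Continuous fun x : E 2 => ‖x - o‖ ^ 2 * AA k b (1 - B.depth x) := hnc.mul cAd
    rw [a1, a2, ← integral_sub (iI c1) (iI c3)]
    rw [← integral_const_mul, ← integral_add ((iI c4).const_mul b) (iI cLd),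
      ← integral_const_mul]
    refine setIntegral_mono ((iI c1).sub (iI c3)) (iI (by fun_prop)) fun x => ?_
    have h1 := (H_point35 (k := k) hb (1 - B.depth x) (‖x - o‖ ^ 2)).resolve_right
      (not_lt.2 (sq_nonneg _))
    have h2 := mul_le_mul_of_nonneg_left h1 hc20.le
    simp only
    nlinarith [h2]
  -- second integral
  have e2 : (∫ x in B.K, divg (fun x => b • (x - o)) x) = 2 * Real.pi * b := by
    simp only [divg_ZH]
    rw [setIntegral_const, smul_eq_mul, hvol]
    ring
  -- boundary term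
  have e4 : (∫ θ in (0 : ℝ)..2 * Real.pi, VH b o (B.y θ) ^ 2 * B.ρ θ) =
      B.len + b * B.Ml o := by
    have hy := B.continuous_y
    have hρ := B.continuous_ρ
    rw [B.len_eq]
    unfold Body.Ml
    rw [← intervalIntegral.integral_const_mul, ← intervalIntegral.integral_add
      (hρ.intervalIntegrable _ _) (Continuous.intervalIntegrable (by fun_prop) _ _)]
    refine intervalIntegral.integral_congr fun θ _ => ?_
    beta_reduce
    rw [VH_sq hb.le]
    ring
  -- moments
  have cAt : Continuous fun t : ℝ => AA k b (1 - t) := cA.comp (by fun_prop)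
  have cLt : Continuous fun t : ℝ => LL k b (1 - t) := cL.comp (by fun_prop)
  have hmemt : ∀ t ∈ Icc (0 : ℝ) 1, 1 - t ∈ Icc (0 : ℝ) 1 := fun t ht =>
    ⟨by linarith [ht.2], by linarith [ht.1]⟩
  set a : ℕ → ℝ := fun i => ∫ t in (0 : ℝ)..1, t ^ i * AA k b (1 - t) with ha
  set l : ℕ → ℝ := fun i => ∫ t in (0 : ℝ)..1, t ^ i * LL k b (1 - t) with hl
  have hai : ∀ i : ℕ, IntervalIntegrable (fun t : ℝ => t ^ i * AA k b (1 - t)) volume 0 1 :=
    fun i => Continuous.intervalIntegrable (by fun_prop) _ _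
  have hli : ∀ i : ℕ, IntervalIntegrable (fun t : ℝ => t ^ i * LL k b (1 - t)) volume 0 1 :=
    fun i => Continuous.intervalIntegrable (by fun_prop) _ _
  -- the isoperimetric parts
  have e5 : (∫ x in B.K, ‖x - o‖ ^ 2 * AA k b (1 - B.depth x)) ≤
      a 0 * B.Ml o - a 1 * (B.Mw o + 4 * Real.pi) + 3 * a 2 * B.len - 2 * Real.pi * a 3 := by
    refine (B.sbt_sq hA (g := fun t => AA k b (1 - t)) cAt.continuousOn ?_ ?_ o).trans_eq ?_
    · intro s hs t ht hst
      exact mono_AA h (hmemt t ht) (hmemt s hs) (by linarith)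
    · intro t ht
      exact AA_nonneg h (hmemt t ht)
    · have h1 : (∫ t in (0 : ℝ)..1, AA k b (1 - t) *
          (B.Ml o - t * (B.Mw o + 4 * Real.pi) + 3 * t ^ 2 * B.len - 2 * Real.pi * t ^ 3)) =
          ∫ t in (0 : ℝ)..1, (B.Ml o * (t ^ 0 * AA k b (1 - t)) -
            (B.Mw o + 4 * Real.pi) * (t ^ 1 * AA k b (1 - t)) +
            3 * B.len * (t ^ 2 * AA k b (1 - t)) - 2 * Real.pi * (t ^ 3 * AA k b (1 - t))) := by
        refine intervalIntegral.integral_congr fun t _ => ?_
        ring
      rw [h1, intervalIntegral.integral_sub, intervalIntegral.integral_add,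
        intervalIntegral.integral_sub, intervalIntegral.integral_const_mul,
        intervalIntegral.integral_const_mul, intervalIntegral.integral_const_mul,
        intervalIntegral.integral_const_mul]
      · simp only [ha]
        ring
      · exact (hai 0).const_mul _
      · exact (hai 1).const_mul _
      · exact ((hai 0).const_mul _).sub ((hai 1).const_mul _)
      · exact (hai 2).const_mul _
      · exact (((hai 0).const_mul _).sub ((hai 1).const_mul _)).add ((hai 2).const_mul _)
      · exact (hai 3).const_mul _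
  have hL0 : LL k b 0 = k ^ 2 - 2 * b := by
    unfold LL AA wt
    simp only [mul_zero, I0_zero, I1_zero]
    norm_num
  have e6 : (∫ x in B.K, LL k b (1 - B.depth x)) ≤
      l 0 * B.len - 2 * Real.pi * l 1 - (k ^ 2 - 2 * b) * (B.len - 2 * Real.pi) := by
    have h1 := B.sbt_one hA (g := fun t => LL k b (1 - t) - LL k b 0)
      (cLt.sub continuous_const).continuousOn ?_ ?_
    · have h2 : (∫ x in B.K, (LL k b (1 - B.depth x) - LL k b 0)) =
          (∫ x in B.K, LL k b (1 - B.depth x)) - LL k b 0 * Real.pi := by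
        rw [integral_sub (iI cLd) (iI continuous_const), setIntegral_const, smul_eq_mul, hvol]
        ring
      have h3 : (∫ t in (0 : ℝ)..1, (LL k b (1 - t) - LL k b 0) *
          (B.len - 2 * Real.pi * t)) = l 0 * B.len - 2 * Real.pi * l 1 -
            LL k b 0 * (B.len - Real.pi) := by
        have h4 : (∫ t in (0 : ℝ)..1, (LL k b (1 - t) - LL k b 0) *
          (B.len - 2 * Real.pi * t)) = ∫ t in (0 : ℝ)..1, (B.len * (t ^ 0 * LL k b (1 - t)) -
            2 * Real.pi * (t ^ 1 * LL k b (1 - t)) -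
            (LL k b 0 * B.len - 2 * Real.pi * LL k b 0 * t)) := by
          refine intervalIntegral.integral_congr fun t _ => ?_
          ring
        rw [h4, intervalIntegral.integral_sub, intervalIntegral.integral_sub,
          intervalIntegral.integral_const_mul, intervalIntegral.integral_const_mul,
          intervalIntegral.integral_sub, intervalIntegral.integral_const,
          intervalIntegral.integral_const_mul, integral_id]
        · simp only [hl, smul_eq_mul]
          ring
        · exact Continuous.intervalIntegrable (by fun_prop) _ _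
        · exact Continuous.intervalIntegrable (by fun_prop) _ _
        · exact (hli 0).const_mul _
        · exact (hli 1).const_mul _
        · exact ((hli 0).const_mul _).sub ((hli 1).const_mul _)
        · exact Continuous.intervalIntegrable (by fun_prop) _ _
      rw [h2, h3, hL0] at h1
      linarith
    · intro s hs t ht hst
      exact sub_le_sub_right (mono_LL h (hmemt t ht) (hmemt s hs) (by linarith)) _
    · intro t ht
      exact sub_nonneg.2 (mono_LL h (left_mem_Icc.2 zero_le_one) (hmemt t ht) (hmemt t ht).1)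
  -- the constants
  have x1 : X1 k b = b * (a 0 - k * I0 k * I1 k / (1 + b)) := by
    unfold X1
    have : (∫ s in (0 : ℝ)..1, AA k b s) = a 0 := by
      simp only [ha, pow_zero, one_mul]
      rw [intervalIntegral.integral_comp_sub_left (fun s => AA k b s) 1]
      norm_num
    rw [this]
  have x2 : X2 k b = b * a 1 := by
    unfold X2
    have : (∫ s in (0 : ℝ)..1, (1 - s) * AA k b s) = a 1 := by
      simp only [ha, pow_one]
      have := intervalIntegral.integral_comp_sub_left (a := (0 : ℝ)) (b := 1)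
        (fun s => (1 - s) * AA k b s) 1
      simp only [sub_sub_cancel, sub_self, sub_zero] at this
      exact this.symm
    rw [this]
  have x3 : X3 k b = l 0 + 3 * b * a 2 - k * I0 k * I1 k / (1 + b) := by
    unfold X3
    have h1 : (∫ s in (0 : ℝ)..1, LL k b s) = l 0 := by
      simp only [hl, pow_zero, one_mul]
      rw [intervalIntegral.integral_comp_sub_left (fun s => LL k b s) 1]
      norm_num
    have h2 : (∫ s in (0 : ℝ)..1, (1 - s) ^ 2 * AA k b s) = a 2 := by
      simp only [ha]
      have := intervalIntegral.integral_comp_sub_left (a := (0 : ℝ)) (b := 1)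
        (fun s => (1 - s) ^ 2 * AA k b s) 1
      simp only [sub_sub_cancel, sub_self, sub_zero] at this
      exact this.symm
    rw [h1, h2]
  have hdisc : b * (a 0 - 3 * a 1 + 3 * a 2 - a 3) + (l 0 - l 1) =
      k * I0 k * I1 k - b * I0 k ^ 2 / (1 + b) := by
    rw [← disc_id hk hb]
    have h1 := intervalIntegral.integral_comp_sub_left (a := (0 : ℝ)) (b := 1)
        (fun s => s * (b * s ^ 2 * AA k b s + LL k b s)) 1
    simp only [sub_self, sub_zero] at h1
    rw [← h1]
    have h2 : (∫ t in (0 : ℝ)..1, (1 - t) * (b * (1 - t) ^ 2 * AA k b (1 - t) +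
        LL k b (1 - t))) = ∫ t in (0 : ℝ)..1, (b * (t ^ 0 * AA k b (1 - t)) -
          3 * b * (t ^ 1 * AA k b (1 - t)) + 3 * b * (t ^ 2 * AA k b (1 - t)) -
          b * (t ^ 3 * AA k b (1 - t)) + (t ^ 0 * LL k b (1 - t) - t ^ 1 * LL k b (1 - t))) := by
      refine intervalIntegral.integral_congr fun t _ => ?_
      ring
    rw [h2, intervalIntegral.integral_add, intervalIntegral.integral_sub,
      intervalIntegral.integral_add, intervalIntegral.integral_sub,
      intervalIntegral.integral_sub, intervalIntegral.integral_const_mul,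
      intervalIntegral.integral_const_mul, intervalIntegral.integral_const_mul,
      intervalIntegral.integral_const_mul]
    · simp only [ha, hl]
      ring
    · exact hli 0
    · exact hli 1
    · exact (hai 0).const_mul _
    · exact (hai 1).const_mul _
    · exact ((hai 0).const_mul _).sub ((hai 1).const_mul _)
    · exact (hai 2).const_mul _
    · exact (((hai 0).const_mul _).sub ((hai 1).const_mul _)).add ((hai 2).const_mul _)
    · exact (hai 3).const_mul _
    · exact ((((hai 0).const_mul _).sub ((hai 1).const_mul _)).add ((hai 2).const_mul _)).sub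
        ((hai 3).const_mul _)
    · exact (hli 0).sub (hli 1)
  have hG : k * GG k = c2 * (k * I0 k * I1 k / (1 + b)) := by
    rw [GG_eq, hc2]
    have : (1 + b) ≠ 0 := by positivity
    field_simp
  have hD : 2 * Real.pi * b = c2 * (2 * Real.pi * (b * I0 k ^ 2 / (1 + b))) := by
    rw [hc2]
    have : (1 + b) ≠ 0 := by positivity
    field_simp
  have h5 := mul_le_mul_of_nonneg_left e5 (mul_pos hc20 hb).le
  have h6 := mul_le_mul_of_nonneg_left e6 hc20.le
  rw [e2, e4, X3e, x1, x2, x3, hG]
  rw [hD]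
  set κ := k * I0 k * I1 k / (1 + b) with hκ
  have hκ2 : k * I0 k * I1 k = (1 + b) * κ := by
    rw [hκ]
    have : (1 + b) ≠ 0 := by positivity
    field_simp
  rw [hκ2] at hdisc
  have hdisc2 : c2 * (2 * Real.pi * (b * I0 k ^ 2 / (1 + b))) =
      c2 * (2 * Real.pi * ((1 + b) * κ - (b * (a 0 - 3 * a 1 + 3 * a 2 - a 3) + (l 0 - l 1)))) := by
    rw [hdisc]
    ring
  rw [hdisc2]
  linarith [hbulk, h5, h6]

end Pool.Agent.RC
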