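import Pool.Agent.H.MP_1b807b_an.C.VHlem
import Pool.Agent.H.MP_1b807b_an.C.HEnergy
import Pool.Agent.H.MP_1b807b_an.C.DiscId
import Pool.Agent.H.MP_1b807b_an.C.Gauge

/-! MP_1b807b_an, convex planar domains, module HTest: the test pair of the step (H) -/

set_option autoImplicit false

namespace Pool.Agent.RC

open MeasureTheory Metric Set
open Pool.Agent.RG
open scoped RealInnerProductSpace

theorem fH_prof (k b : ℝ) : fH k b = prof (gH k b) := by
  ext t
  unfold fH prof
  by_cases ht : t ≤ 0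
  · rw [if_pos ht, if_pos ht]
  · rw [if_neg ht, if_neg ht, gH_one]
    unfold gH
    rw [div_eq_mul_inv _ (I0 k / Real.sqrt (1 + b)), inv_div]

theorem gH_zero (k b : ℝ) : gH k b 0 = 1 := by
  simp [gH, wt, I0_zero]

theorem fH_low {k b : ℝ} (h : KB k b) (t : ℝ) : Real.sqrt (1 + b) / I0 k ≤ fH k b t := by
  have h1 := (prof_mem (φ := gH k b) ((gH_mono h).mono fun x hx => hx.1)
    (gH_pos h.2.1 0).le (gH_pos h.2.1 1) t).1
  rw [gH_zero, gH_one, one_div_div] at h1
  rw [fH_prof]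
  exact h1

theorem continuous_fH {k b : ℝ} (h : KB k b) : Continuous (fH k b) := by
  have hL : LipschitzWith (Real.toNNReal (k * Real.sqrt (1 + b))) (fH k b) :=
    LipschitzWith.of_dist_le_mul fun s t => by
      rw [Real.dist_eq, Real.dist_eq, Real.coe_toNNReal _
        (mul_nonneg h.1.le (Real.sqrt_nonneg _))]
      exact fH_lip h s t
  exact hL.continuous

theorem H_testE {b K₀ d : ℝ} (hb : 0 < b) (hK : 0 < K₀) (hd : 0 < d) :
    ∃ C c₀ : ℝ, 0 ≤ C ∧ 0 < c₀ ∧ ∀ (k : ℝ) (B : Body) (o : E 2), KB k b → k ≤ K₀ →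
    B.area = Real.pi → (∀ θ, 0 < B.h θ) → B.K ⊆ closedBall 0 d → o ∈ B.K →
    X1 k b * (B.Ml o - 2 * Real.pi) - X2 k b * (B.Mw o - 2 * Real.pi)
      + X3e k b * (B.len - 2 * Real.pi) ≤ 0 → ∀ ε > 0,
    IsTest B k (k * GG k) C d c₀ ε (VH b o) (fun x => b • (x - o)) (fH k b)
      (fun t => MH k b (max t 0)) := by
  obtain ⟨C₁, hC₁, hV⟩ := VH_bounds hb.le hd.le
  set q : ℝ := K₀ * Real.sqrt (1 + b) with hq
  have hq0 : 0 ≤ q := mul_nonneg hK.le (Real.sqrt_nonneg _)
  refine ⟨C₁ + q, (1 / I0 K₀) ^ 2 * Real.pi, add_nonneg hC₁ hq0,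
    mul_pos (pow_pos (one_div_pos.2 (I0_pos K₀)) 2) Real.pi_pos, ?_⟩
  intro k B o hKB hk hA h0 hKd ho hX ε hε
  have hk0 := hKB.1
  have hqk : k * Real.sqrt (1 + b) ≤ q := mul_le_mul_of_nonneg_right hk (Real.sqrt_nonneg _)
  have hod : ‖o‖ ≤ d := by simpa using hKd ho
  have hVo := fun x (hx : ‖x‖ ≤ d) => hV b o x hb.le le_rfl hod hx
  refine
    { V1 := contDiff_VH hb.le o
      Z1 := contDiff_ZH b o
      VZ := inner_ZH hb.le o
      bV := fun x hx => (hVo x hx).1.trans (le_add_of_nonneg_right hq0)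
      bV' := fun x hx => (hVo x hx).2.1.trans (le_add_of_nonneg_right hq0)
      bZ := fun x hx => (hVo x hx).2.2.trans (le_add_of_nonneg_right hq0)
      f1 := fun t ht => fH_of_nonpos ht
      f0 := fH_le hKB
      fl := ?_
      Mm := ?_
      M0 := ?_
      slope := ?_
      energy := ?_
      low := ?_ }
  · intro s t
    refine (fH_lip hKB s t).trans (mul_le_mul_of_nonneg_right ?_ (abs_nonneg _))
    linarith
  · exact ((continuous_MH hb).comp (continuous_id.max continuous_const)).measurable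
  · intro t
    refine ⟨MH_nonneg hb k _, (MH_le hKB (le_max_right t 0)).trans ?_⟩
    linarith
  · intro t ht e he
    obtain ⟨η, hη, hs⟩ := prof_slope (φ := gH k b) (φ' := gH' k b)
      (fun x => hasDerivAt_gH hb x) (continuous_gH' hb) (gH_pos hb 1)
      (fun x hx => gH'_nonneg hKB hx.1) ht he
    refine ⟨η, hη, fun s s' h1 h2 => ?_⟩
    have h3 := hs s s' h1 h2
    rw [← fH_prof] at h3
    have h4 : MH k b (max t 0) = gH' k b (max (1 - t) 0) / gH k b 1 := by
      rw [max_eq_left ht.le, MH_eq hKB, gH_one,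
        div_eq_mul_inv _ (I0 k / Real.sqrt (1 + b)), inv_div]
    rw [h4]
    exact h3
  · refine (H_energyE hKB B hA h0 o).trans ?_
    refine (mul_nonpos_of_nonneg_of_nonpos ?_ hX).trans hε.le
    have := I0_pos k
    positivity
  · have hcont : Continuous fun x : E 2 => VH b o x ^ 2 * fH k b (B.depth x) ^ 2 :=
      ((contDiff_VH hb.le o).continuous.pow 2).mul
        (((continuous_fH hKB).comp B.continuous_depth).pow 2)
    have hint : IntegrableOn (fun x : E 2 => VH b o x ^ 2 * fH k b (B.depth x) ^ 2) B.K :=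
      hcont.continuousOn.integrableOn_compact B.isCompact_K
    have hlow : ∀ x ∈ B.K, (1 / I0 K₀) ^ 2 ≤ VH b o x ^ 2 * fH k b (B.depth x) ^ 2 := by
      intro x _
      have a1 : 1 ≤ VH b o x := one_le_VH hb.le o x
      have a2 : 1 / I0 K₀ ≤ fH k b (B.depth x) := by
        refine le_trans ?_ (fH_low hKB _)
        have b1 : I0 k ≤ I0 K₀ := I0_mono (mem_Ici.2 hk0.le) (mem_Ici.2 hK.le) hk
        have b2 : 1 ≤ Real.sqrt (1 + b) := Real.one_le_sqrt.2 (by linarith)
        calc 1 / I0 K₀ ≤ 1 / I0 k := one_div_le_one_div_of_le (I0_pos k) b1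
          _ ≤ Real.sqrt (1 + b) / I0 k := div_le_div_of_nonneg_right b2 (I0_pos k).le
      have a3 : 0 ≤ 1 / I0 K₀ := (one_div_pos.2 (I0_pos K₀)).le
      calc (1 / I0 K₀) ^ 2 ≤ fH k b (B.depth x) ^ 2 := pow_le_pow_left₀ a3 a2 2
        _ ≤ VH b o x ^ 2 * fH k b (B.depth x) ^ 2 :=
          le_mul_of_one_le_left (sq_nonneg _) (one_le_pow₀ a1)
    have hv : volume.real B.K = Real.pi := by rw [B.volume_K h0, hA]
    have := setIntegral_ge_of_const_le_real B.measurableSet_K B.isCompact_K.measure_lt_top.ne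
      hlow hint
    rwa [hv] at this

end Pool.Agent.RC
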