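import Pool.Agent.H.MP_1b807b_an.C.DefsB
import Pool.Agent.H.MP_1b807b_an.C.Wirt

/-! MP_1b807b_an, convex planar domains, module HalfCert: the half certificate inequality -/

set_option autoImplicit false

namespace Pool.Agent.RC

open MeasureTheory Metric Set Filter
open scoped Topology

namespace HalfCert

/-- the glued function -/
noncomputable def glue (c : ℝ) (k : ℝ → ℝ) (x : ℝ) : ℝ :=
  if x ≤ c + Real.pi then k x else k (x - Real.pi)

theorem glue_cont {c : ℝ} {k : ℝ → ℝ} (hk : Continuous k) (h0 : k (c + Real.pi) = k c) :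
    Continuous (glue c k) := by
  unfold glue
  refine Continuous.if_le hk (hk.comp (continuous_id.sub continuous_const)) continuous_id
    continuous_const ?_
  intro x hx
  have hx' : x = c + Real.pi := hx
  rw [hx', h0]
  simp

theorem glue_hasDerivAt {c : ℝ} {k k' : ℝ → ℝ} (hk : ∀ x, HasDerivAt k (k' x) x)
    (h0 : k (c + Real.pi) = k c) (h1 : k' (c + Real.pi) = k' c) (x : ℝ) :
    HasDerivAt (glue c k) (glue c k' x) x := by
  have hs : ∀ y, HasDerivAt (fun x => k (x - Real.pi)) (k' (y - Real.pi)) y := by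
    intro y
    have := (hk (y - Real.pi)).comp y ((hasDerivAt_id y).sub_const Real.pi)
    rw [mul_one] at this
    exact this
  rcases lt_trichotomy x (c + Real.pi) with hx | hx | hx
  · have e : glue c k' x = k' x := by simp [glue, hx.le]
    rw [e]
    refine (hk x).congr_of_eventuallyEq ?_
    filter_upwards [gt_mem_nhds hx] with y hy
    simp only [glue]
    rw [if_pos (le_of_lt hy)]
  · subst hx
    have e : glue c k' (c + Real.pi) = k' (c + Real.pi) := by simp [glue]
    have e0 : glue c k (c + Real.pi) = k (c + Real.pi) := by simp [glue]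
    rw [e]
    have hl : HasDerivWithinAt (glue c k) (k' (c + Real.pi)) (Iic (c + Real.pi))
        (c + Real.pi) := by
      refine (hk _).hasDerivWithinAt.congr ?_ e0
      intro y hy
      simp only [glue]
      rw [if_pos (show y ≤ c + Real.pi from hy)]
    have hr : HasDerivWithinAt (glue c k) (k' (c + Real.pi)) (Ici (c + Real.pi))
        (c + Real.pi) := by
      have h2 := hs (c + Real.pi)
      rw [show c + Real.pi - Real.pi = c by ring, ← h1] at h2
      refine h2.hasDerivWithinAt.congr ?_ ?_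
      · intro y hy
        simp only [glue]
        rcases eq_or_lt_of_le (show c + Real.pi ≤ y from hy) with h | h
        · rw [if_pos h.ge, ← h, h0]
          simp
        · rw [if_neg (not_le.mpr h)]
      · rw [e0, h0]
        simp
    have := hl.union hr
    rwa [Iic_union_Ici, hasDerivWithinAt_univ] at this
  · have e : glue c k' x = k' (x - Real.pi) := by simp [glue, not_le.mpr hx]
    rw [e]
    refine (hs x).congr_of_eventuallyEq ?_
    filter_upwards [lt_mem_nhds hx] with y hy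
    simp only [glue]
    rw [if_neg (not_le.mpr hy)]

theorem glue_int {c x₀ : ℝ} {k : ℝ → ℝ} (hk : Continuous k) (h1 : c ≤ x₀) (h2 : x₀ ≤ c + Real.pi) :
    ∫ x in x₀..x₀ + Real.pi, glue c k x = ∫ x in c..c + Real.pi, k x := by
  have hpi := Real.pi_pos
  have i1 : ∫ x in x₀..c + Real.pi, glue c k x = ∫ x in x₀..c + Real.pi, k x := by
    refine intervalIntegral.integral_congr ?_
    intro x hx
    rw [uIcc_of_le h2] at hx
    simp only [glue]
    rw [if_pos hx.2]
  have i2 : ∫ x in c + Real.pi..x₀ + Real.pi, glue c k x = ∫ x in c..x₀, k x := by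
    have : ∫ x in c + Real.pi..x₀ + Real.pi, glue c k x =
        ∫ x in c + Real.pi..x₀ + Real.pi, k (x - Real.pi) := by
      refine intervalIntegral.integral_congr_ae ?_
      refine Eventually.of_forall ?_
      intro x hx
      rw [uIoc_of_le (by linarith)] at hx
      simp only [glue]
      rw [if_neg (not_le.mpr hx.1)]
    rw [this, intervalIntegral.integral_comp_sub_right (fun x => k x) Real.pi]
    simp
  have m1 : IntervalIntegrable (glue c k) volume x₀ (c + Real.pi) := by
    refine (hk.intervalIntegrable x₀ (c + Real.pi)).congr ?_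
    intro x hx
    rw [uIoc_of_le h2] at hx
    simp only [glue]
    rw [if_pos hx.2]
  have m2 : IntervalIntegrable (glue c k) volume (c + Real.pi) (x₀ + Real.pi) := by
    have hk2 : Continuous fun x => k (x - Real.pi) := by fun_prop
    refine (hk2.intervalIntegrable (c + Real.pi) (x₀ + Real.pi)).congr ?_
    intro x hx
    rw [uIoc_of_le (by linarith)] at hx
    simp only [glue]
    rw [if_neg (not_le.mpr hx.1)]
  rw [← intervalIntegral.integral_add_adjacent_intervals m1 m2, i1, i2, add_comm,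
    intervalIntegral.integral_add_adjacent_intervals (hk.intervalIntegrable _ _)
      (hk.intervalIntegrable _ _)]

/-- the sup bound -/
theorem sup_bound {h : ℝ → ℝ} (hh : ContDiff ℝ 1 h) {c l S2 : ℝ} (h0 : h (c + Real.pi) = h c)
    (h1 : deriv h (c + Real.pi) = deriv h c)
    (hmean : ∫ x in c..c + Real.pi, h x = Real.pi * l)
    (hS : ∫ x in c..c + Real.pi, (deriv h x ^ 2 - (h x - l) ^ 2) = Real.pi * S2)
    {x₀ : ℝ} (hx : x₀ ∈ Icc c (c + Real.pi)) : (h x₀ - l) ^ 2 ≤ S2 := by
  have hpi := Real.pi_pos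
  have hc : Continuous h := hh.continuous
  have hc' : Continuous (deriv h) := hh.continuous_deriv le_rfl
  have hd : ∀ x, HasDerivAt h (deriv h x) x := fun x =>
    (hh.differentiable one_ne_zero x).hasDerivAt
  set u : ℝ → ℝ := fun x => glue c h x - h x₀ with hu
  have hud : ∀ x, HasDerivAt u (glue c (deriv h) x) x := by
    intro x
    exact (glue_hasDerivAt hd h0 h1 x).sub_const _
  have hud' : deriv u = glue c (deriv h) := funext fun x => (hud x).deriv
  have huc : ContDiff ℝ 1 u := by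
    rw [contDiff_one_iff_deriv]
    refine ⟨fun x => (hud x).differentiableAt, ?_⟩
    rw [hud']
    exact glue_cont hc' h1
  have u0 : u x₀ = 0 := by
    simp [hu, glue, hx.2]
  have u1 : u (x₀ + Real.pi) = 0 := by
    simp only [hu, glue]
    rcases eq_or_lt_of_le hx.1 with h | h
    · rw [← h, if_pos le_rfl, h0, sub_self]
    · rw [if_neg (by linarith)]
      simp
  have hw := wirt_dir huc u0 u1
  have e1 : ∫ x in x₀..x₀ + Real.pi, u x ^ 2 = ∫ x in c..c + Real.pi, (h x - h x₀) ^ 2 := by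
    rw [← glue_int (k := fun x => (h x - h x₀) ^ 2) (by fun_prop) hx.1 hx.2]
    refine intervalIntegral.integral_congr ?_
    intro x _
    simp only [hu, glue]
    split_ifs <;> rfl
  have e2 : ∫ x in x₀..x₀ + Real.pi, deriv u x ^ 2 = ∫ x in c..c + Real.pi, deriv h x ^ 2 := by
    rw [← glue_int (k := fun x => deriv h x ^ 2) (by fun_prop) hx.1 hx.2]
    refine intervalIntegral.integral_congr ?_
    intro x _
    simp only [hud', glue]
    split_ifs <;> rfl
  rw [e1, e2] at hw
  have i1 : IntervalIntegrable (fun x => deriv h x ^ 2) volume c (c + Real.pi) :=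
    (hc'.pow 2).intervalIntegrable _ _
  have i2 : IntervalIntegrable (fun x => (h x - l) ^ 2) volume c (c + Real.pi) :=
    ((hc.sub continuous_const).pow 2).intervalIntegrable _ _
  have i3 : IntervalIntegrable h volume c (c + Real.pi) := hc.intervalIntegrable _ _
  rw [intervalIntegral.integral_sub i1 i2] at hS
  have e3 : ∫ x in c..c + Real.pi, (h x - h x₀) ^ 2 =
      (∫ x in c..c + Real.pi, (h x - l) ^ 2) + Real.pi * (h x₀ - l) ^ 2 := by
    have : ∀ x, (h x - h x₀) ^ 2 = (h x - l) ^ 2 + ((-2 * (h x₀ - l)) * h x +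
        (2 * (h x₀ - l) * l + (h x₀ - l) ^ 2)) := by
      intro x
      ring
    simp_rw [this]
    rw [intervalIntegral.integral_add i2 (Continuous.intervalIntegrable (by fun_prop) _ _),
      intervalIntegral.integral_add (Continuous.intervalIntegrable (by fun_prop) _ _)
      (Continuous.intervalIntegrable (by fun_prop) _ _), intervalIntegral.integral_const_mul, hmean,
      intervalIntegral.integral_const]
    simp only [add_sub_cancel_left, smul_eq_mul]
    ring
  rw [e3] at hw
  have : Real.pi * (h x₀ - l) ^ 2 ≤ Real.pi * S2 := by linarith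
  exact le_of_mul_le_mul_left this hpi

/-- right derivative of the positive part -/
theorem max_right {q : ℝ → ℝ} {x q' : ℝ} (h : HasDerivAt q q' x) : ∃ m,
    HasDerivWithinAt (fun y => max (q y) 0) m (Ioi x) x ∧
    ((0 < q x ∧ m = q') ∨ (q x < 0 ∧ m = 0) ∨ (q x = 0 ∧ m = max q' 0)) := by
  rcases lt_trichotomy (q x) 0 with hx | hx | hx
  · refine ⟨0, ?_, Or.inr (Or.inl ⟨hx, rfl⟩)⟩
    have : HasDerivAt (fun y => max (q y) 0) 0 x := by
      refine (hasDerivAt_const x (0 : ℝ)).congr_of_eventuallyEq ?_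
      filter_upwards [h.continuousAt.eventually_lt continuousAt_const hx] with y hy
      exact max_eq_right hy.le
    exact this.hasDerivWithinAt
  · refine ⟨max q' 0, ?_, Or.inr (Or.inr ⟨hx, rfl⟩)⟩
    rw [hasDerivWithinAt_iff_isLittleO]
    have h1 := (hasDerivAt_iff_isLittleO.mp h).mono (nhdsWithin_le_nhds (s := Ioi x))
    refine Asymptotics.IsBigO.trans_isLittleO ?_ h1
    refine Asymptotics.IsBigO.of_bound 1 ?_
    filter_upwards [self_mem_nhdsWithin] with y hy
    have hy' : 0 < y - x := sub_pos.mpr hy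
    rw [hx]
    simp only [max_self, sub_zero, smul_eq_mul, one_mul, Real.norm_eq_abs]
    have e : (y - x) * max q' 0 = max ((y - x) * q') 0 := by
      rw [mul_max_of_nonneg _ _ hy'.le, mul_zero]
    rw [e]
    have := abs_max_sub_max_le_abs (q y) ((y - x) * q') 0
    exact this
  · refine ⟨q', ?_, Or.inl ⟨hx, rfl⟩⟩
    have : HasDerivAt (fun y => max (q y) 0) q' x := by
      refine h.congr_of_eventuallyEq ?_
      filter_upwards [continuousAt_const.eventually_lt h.continuousAt hx] with y hy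
      exact max_eq_left hy.le
    exact this.hasDerivWithinAt

/-- `d(r) = z(r)² - A₁ - α r` -/
noncomputable def dd (z₀ z₁ A₁ κ r : ℝ) : ℝ := (z₀ + z₁ * r) ^ 2 - A₁ - (1 - 2 * κ) * r

/-- the integral of `d` from `-R` -/
noncomputable def DD (z₀ z₁ A₁ κ R r : ℝ) : ℝ := z₁ ^ 2 * (r ^ 3 + R ^ 3) / 3 +
    (z₀ * z₁ - (1 - 2 * κ) / 2) * (r ^ 2 - R ^ 2) + (z₀ ^ 2 - A₁) * (r + R)

theorem hasDerivAt_DD (z₀ z₁ A₁ κ R r : ℝ) :
    HasDerivAt (DD z₀ z₁ A₁ κ R) (dd z₀ z₁ A₁ κ r) r := by
  have h3 : HasDerivAt (fun r : ℝ => r ^ 3) (3 * r ^ 2) r := by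
    simpa using hasDerivAt_pow 3 r
  have h2 : HasDerivAt (fun r : ℝ => r ^ 2) (2 * r) r := by
    simpa using hasDerivAt_pow 2 r
  have h := (((h3.add_const (R ^ 3)).const_mul (z₁ ^ 2)).div_const 3).add
    (((h2.sub_const (R ^ 2)).const_mul (z₀ * z₁ - (1 - 2 * κ) / 2)).add
      (((hasDerivAt_id r).add_const R).const_mul (z₀ ^ 2 - A₁)))
  refine (h.congr_deriv ?_).congr_of_eventuallyEq (Eventually.of_forall fun y => ?_)
  · simp only [dd]
    ring
  · simp only [DD, Pi.add_apply, id]
    ring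

/-- where `D ≤ 0` (away from `-R`), `d ≤ 0` -/
theorem dd_nonpos {z₀ z₁ A₁ κ R s : ℝ} (htop : dd z₀ z₁ A₁ κ R ≤ 0) (h1 : -R < s)
    (h2 : s ≤ R) (hD : DD z₀ z₁ A₁ κ R s ≤ 0) : dd z₀ z₁ A₁ κ s ≤ 0 := by
  rcases eq_or_lt_of_le h2 with h | h
  · rwa [h]
  · -- `D(s) = (s+R) K`
    set K : ℝ := z₁ ^ 2 * (s ^ 2 - s * R + R ^ 2) / 3 +
      (z₀ * z₁ - (1 - 2 * κ) / 2) * (s - R) + (z₀ ^ 2 - A₁) with hK
    have hDK : DD z₀ z₁ A₁ κ R s = (s + R) * K := by
      simp only [DD, hK]
      ring
    have hK0 : K ≤ 0 := by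
      rw [hDK] at hD
      by_contra hc
      push Not at hc
      have := mul_pos (show 0 < s + R by linarith) hc
      linarith
    have key : ((3 * R - s) / 2) * dd z₀ z₁ A₁ κ s = (R - s) * K + ((R + s) / 2) *
        dd z₀ z₁ A₁ κ R - (R - s) * z₁ ^ 2 * ((s + R) ^ 2 / 3 + (R - s) * (s + R) / 2) := by
      simp only [dd, hK]
      ring
    have h3 : 0 ≤ (R - s) * z₁ ^ 2 * ((s + R) ^ 2 / 3 + (R - s) * (s + R) / 2) := by
      have : 0 < R - s := by linarith
      have : 0 < s + R := by linarith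
      positivity
    have h4 : (R - s) * K ≤ 0 := mul_nonpos_of_nonneg_of_nonpos (by linarith) hK0
    have h5 : ((R + s) / 2) * dd z₀ z₁ A₁ κ R ≤ 0 :=
      mul_nonpos_of_nonneg_of_nonpos (by linarith) htop
    by_contra hc
    push Not at hc
    have := mul_pos (show 0 < (3 * R - s) / 2 by linarith) hc
    linarith

/-- `D ≤ 0` on `[0,R]` -/
theorem DD_nonpos {z₀ z₁ A₁ κ R s : ℝ} (hR : 0 < R) (htop : dd z₀ z₁ A₁ κ R ≤ 0)
    (h0 : DD z₀ z₁ A₁ κ R 0 ≤ 0) (h1 : 0 ≤ s) (h2 : s ≤ R) : DD z₀ z₁ A₁ κ R s ≤ 0 := by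
  have d0 : dd z₀ z₁ A₁ κ 0 ≤ 0 := dd_nonpos htop (by linarith) hR.le h0
  have ds : dd z₀ z₁ A₁ κ s ≤ 0 := by
    have : R * dd z₀ z₁ A₁ κ s = (R - s) * dd z₀ z₁ A₁ κ 0 + s * dd z₀ z₁ A₁ κ R -
        R * (z₁ ^ 2 * (s * (R - s))) := by
      simp only [dd]
      ring
    have e1 : (R - s) * dd z₀ z₁ A₁ κ 0 ≤ 0 :=
      mul_nonpos_of_nonneg_of_nonpos (by linarith) d0
    have e2 : s * dd z₀ z₁ A₁ κ R ≤ 0 := mul_nonpos_of_nonneg_of_nonpos h1 htop
    have e3 : 0 ≤ R * (z₁ ^ 2 * (s * (R - s))) := by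
      have : 0 ≤ R - s := by linarith
      positivity
    by_contra hc
    push Not at hc
    have := mul_pos hR hc
    linarith
  have : DD z₀ z₁ A₁ κ R s = DD z₀ z₁ A₁ κ R 0 + s * ((dd z₀ z₁ A₁ κ 0 + dd z₀ z₁ A₁ κ s) / 2) -
      z₁ ^ 2 * s ^ 3 / 6 := by
    simp only [DD, dd]
    ring
  have e1 : s * ((dd z₀ z₁ A₁ κ 0 + dd z₀ z₁ A₁ κ s) / 2) ≤ 0 :=
    mul_nonpos_of_nonneg_of_nonpos h1 (by linarith)
  have e2 : 0 ≤ z₁ ^ 2 * s ^ 3 / 6 := by positivity
  linarith

/-- the primitive `Y` -/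
noncomputable def YY (z₀ z₁ r : ℝ) : ℝ := z₀ * r + z₁ * r ^ 2 / 2

/-- the two point inequality -/
theorem two_point {z₀ z₁ A₁ B₁ κ R e l hi m A B : ℝ} (hR : 0 < R) (hκ1 : κ ≤ 1 / 2) (he : 0 ≤ e)
    (hhi : 0 < hi) (htop : dd z₀ z₁ A₁ κ R ≤ 0)
    (hquad : ∀ σ, -R ≤ σ → σ ≤ R → e ≤ 4 * (z₀ + z₁ * σ / 2) ^ 2 - B₁ - (1 - κ) * σ)
    (hcub : ∀ r, -R ≤ r → r ≤ 0 → DD z₀ z₁ A₁ κ R r * (hi + r) ≤ e * r ^ 2)
    (hl : l ≤ hi) (hA0 : 0 < A) (hA1 : A ≤ R) (hB0 : 0 < B) (hB1 : B ≤ R) (hlB : 0 ≤ l - B) :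
    0 ≤ A * (4 * (YY z₀ z₁ (-B) - m) ^ 2 - (B₁ + (1 - κ) * (-B)) * (-B) ^ 2 -
        (l + (-B)) * max (DD z₀ z₁ A₁ κ R (-B)) 0) +
      B * (4 * (YY z₀ z₁ A - m) ^ 2 - (B₁ + (1 - κ) * A) * A ^ 2 -
        (l + A) * max (DD z₀ z₁ A₁ κ R A) 0) := by
  have hD0 : DD z₀ z₁ A₁ κ R 0 ≤ 0 := by
    have := hcub 0 (by linarith) le_rfl
    simp only [add_zero, ne_eq, OfNat.ofNat_ne_zero, not_false_eq_true, zero_pow, mul_zero] at this
    by_contra hc
    push Not at hc
    have := mul_pos hc hhi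
    linarith
  have hDA : max (DD z₀ z₁ A₁ κ R A) 0 = 0 :=
    max_eq_right (DD_nonpos hR htop hD0 hA0.le hA1)
  have hDB : (l + (-B)) * max (DD z₀ z₁ A₁ κ R (-B)) 0 ≤ e * B ^ 2 := by
    rcases le_total (DD z₀ z₁ A₁ κ R (-B)) 0 with h | h
    · rw [max_eq_right h, mul_zero]
      positivity
    · rw [max_eq_left h]
      have h1 := hcub (-B) (by linarith) (by linarith)
      have h2 : (l + -B) * DD z₀ z₁ A₁ κ R (-B) ≤ (hi + -B) * DD z₀ z₁ A₁ κ R (-B) :=
        mul_le_mul_of_nonneg_right (by linarith) h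
      nlinarith
  rw [hDA, mul_zero, sub_zero]
  have hq := hquad (A - B) (by linarith) (by linarith)
  have hAB : 0 < A * B * (A + B) := by positivity
  have h1 : A * ((l + (-B)) * max (DD z₀ z₁ A₁ κ R (-B)) 0) ≤ A * B * (A + B) * e := by
    have : A * ((l + (-B)) * max (DD z₀ z₁ A₁ κ R (-B)) 0) ≤ A * (e * B ^ 2) :=
      mul_le_mul_of_nonneg_left hDB hA0.le
    have h2 : 0 ≤ A ^ 2 * B * e := by positivity
    nlinarith
  have h2 : A * B * (A + B) * e ≤ A * B * (A + B) *
      (4 * (z₀ + z₁ * (A - B) / 2) ^ 2 - B₁ - (1 - κ) * (A - B)) :=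
    mul_le_mul_of_nonneg_left hq hAB.le
  -- variance
  have h3 : A * B * (A + B) * (z₀ + z₁ * (A - B) / 2) ^ 2 ≤
      A * (YY z₀ z₁ (-B) - m) ^ 2 + B * (YY z₀ z₁ A - m) ^ 2 := by
    have hd : YY z₀ z₁ A - YY z₀ z₁ (-B) = (A + B) * (z₀ + z₁ * (A - B) / 2) := by
      simp only [YY]
      ring
    set y₁ := YY z₀ z₁ (-B) - m with hy1
    set y₂ := YY z₀ z₁ A - m with hy2
    have hd2 : y₂ - y₁ = (A + B) * (z₀ + z₁ * (A - B) / 2) := by
      rw [← hd]
      ring
    have e1 : (A + B) * (A * y₁ ^ 2 + B * y₂ ^ 2) = (A * y₁ + B * y₂) ^ 2 +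
        A * B * (y₂ - y₁) ^ 2 := by
      ring
    rw [hd2] at e1
    have e2 : (A + B) * (A * B * (A + B) * (z₀ + z₁ * (A - B) / 2) ^ 2) ≤
        (A + B) * (A * y₁ ^ 2 + B * y₂ ^ 2) := by
      rw [e1]
      nlinarith [sq_nonneg (A * y₁ + B * y₂)]
    exact le_of_mul_le_mul_left e2 (by linarith)
  nlinarith

/-- the function of the two point inequality -/
noncomputable def FF (z₀ z₁ A₁ B₁ κ R l m s : ℝ) : ℝ :=
  4 * (YY z₀ z₁ s - m) ^ 2 - (B₁ + (1 - κ) * s) * s ^ 2 - (l + s) * max (DD z₀ z₁ A₁ κ R s) 0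

/-- a function with the two point property has nonnegative integral -/
theorem int_nonneg_of_two_point {r f : ℝ → ℝ} {a b : ℝ} (hab : a < b) (hr : Continuous r)
    (hf : Continuous f) (hm : ∫ x in a..b, r x = 0)
    (h2 : ∀ x ∈ Icc a b, ∀ y ∈ Icc a b, r x < 0 → 0 < r y → 0 ≤ r y * f x + (-r x) * f y)
    (h0 : ∀ x ∈ Icc a b, r x = 0 → 0 ≤ f x) : 0 ≤ ∫ x in a..b, f x := by
  suffices h : ∃ μ : ℝ, ∀ x ∈ Icc a b, μ * r x ≤ f x by
    obtain ⟨μ, hμ⟩ := h
    have : ∫ x in a..b, μ * r x ≤ ∫ x in a..b, f x :=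
      intervalIntegral.integral_mono_on hab.le (Continuous.intervalIntegrable (by fun_prop) _ _)
        (hf.intervalIntegrable _ _) hμ
    rwa [intervalIntegral.integral_const_mul, hm, mul_zero] at this
  by_cases hneg : ∃ x ∈ Icc a b, r x < 0
  · by_cases hpos : ∃ x ∈ Icc a b, 0 < r x
    · obtain ⟨x₁, hx₁, hn⟩ := hneg
      obtain ⟨x₂, hx₂, hp⟩ := hpos
      set S : Set ℝ := {t | ∃ x ∈ Icc a b, r x < 0 ∧ t = f x / r x} with hS
      have hb : ∀ y ∈ Icc a b, 0 < r y → ∀ t ∈ S, t ≤ f y / r y := by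
        rintro y hy hry t ⟨x, hx, hrx, rfl⟩
        rw [div_le_iff_of_neg hrx, div_mul_eq_mul_div, div_le_iff₀ hry]
        have := h2 x hx y hy hrx hry
        linarith
      have hbdd : BddAbove S := ⟨_, fun t ht => hb x₂ hx₂ hp t ht⟩
      have hne : S.Nonempty := ⟨_, x₁, hx₁, hn, rfl⟩
      refine ⟨sSup S, fun x hx => ?_⟩
      rcases lt_trichotomy (r x) 0 with h | h | h
      · have : f x / r x ≤ sSup S := le_csSup hbdd ⟨x, hx, h, rfl⟩
        rwa [div_le_iff_of_neg h] at this
      · rw [h, mul_zero]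
        exact h0 x hx h
      · have : sSup S ≤ f x / r x := csSup_le hne (hb x hx h)
        rwa [le_div_iff₀ h] at this
    · exfalso
      push Not at hpos
      obtain ⟨x₁, hx₁, hn⟩ := hneg
      have hrn : Continuous fun x => -r x := by fun_prop
      have := intervalIntegral.integral_pos hab hrn.continuousOn
        (fun y hy => neg_nonneg.mpr (hpos y ⟨hy.1.le, hy.2⟩)) ⟨x₁, hx₁, neg_pos.mpr hn⟩
      rw [intervalIntegral.integral_neg, hm, neg_zero] at this
      exact lt_irrefl _ this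
  · push Not at hneg
    refine ⟨0, fun x hx => ?_⟩
    rw [zero_mul]
    refine h0 x hx ?_
    by_contra hc
    have hx0 : 0 < r x := lt_of_le_of_ne (hneg x hx) (Ne.symm hc)
    have := intervalIntegral.integral_pos hab hr.continuousOn (fun y hy => hneg y ⟨hy.1.le, hy.2⟩)
      ⟨x, hx, hx0⟩
    linarith

end HalfCert

open HalfCert in
theorem half_cert {η ζ lo hi R κ z₀ z₁ e A₁ B₁ : ℝ} (hC : Cert η ζ lo hi R κ z₀ z₁ e A₁ B₁)
    {h : ℝ → ℝ} (hh : ContDiff ℝ 2 h) {c l a b' S2 : ℝ} (h0 : h (c + Real.pi) = h c)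
    (h1 : deriv h (c + Real.pi) = deriv h c) (hpos : ∀ x, 0 ≤ h x)
    (hρ : ∀ x, 0 ≤ h x + deriv (deriv h) x) (hl : l ≤ hi)
    (hmean : ∫ x in c..c + Real.pi, h x = Real.pi * l)
    (hS : ∫ x in c..c + Real.pi, (deriv h x ^ 2 - (h x - l) ^ 2) = Real.pi * S2)
    (hS2 : S2 ≤ R ^ 2) (ha : A₁ + κ * l ≤ a) (hb : b' ≤ B₁ + 2 * κ * l) :
    0 ≤ ∫ x in c..c + Real.pi, ((a + (h x - l)) * deriv h x ^ 2 -
      (b' + (h x - l)) * (h x - l) ^ 2) := by
  have hpi := Real.pi_pos
  have hR := hC.hR0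
  have hcpi : c ≤ c + Real.pi := by linarith
  have hh1 : ContDiff ℝ 1 h := hh.of_le (by norm_num)
  have hh' : ContDiff ℝ 1 (deriv h) := by
    have : ContDiff ℝ (1 + 1) h := by
      rw [one_add_one_eq_two]
      exact hh
    exact (contDiff_succ_iff_deriv.1 this).2.2
  have hc : Continuous h := hh.continuous
  have hc' : Continuous (deriv h) := hh'.continuous
  have hc'' : Continuous (deriv (deriv h)) := hh'.continuous_deriv le_rfl
  have hd : ∀ x, HasDerivAt h (deriv h x) x := fun x =>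
    (hh1.differentiable one_ne_zero x).hasDerivAt
  have hd' : ∀ x, HasDerivAt (deriv h) (deriv (deriv h) x) x := fun x =>
    (hh'.differentiable one_ne_zero x).hasDerivAt
  have hsup : ∀ x ∈ Icc c (c + Real.pi), (h x - l) ^ 2 ≤ S2 := fun x hx =>
    sup_bound hh1 h0 h1 hmean hS hx
  have hbd : ∀ x ∈ Icc c (c + Real.pi), |h x - l| ≤ R := fun x hx =>
    abs_le_of_sq_le_sq ((hsup x hx).trans hS2) hR.le
  have hb1 : ∀ x ∈ Icc c (c + Real.pi), -R ≤ h x - l := fun x hx => (abs_le.1 (hbd x hx)).1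
  have hb2 : ∀ x ∈ Icc c (c + Real.pi), h x - l ≤ R := fun x hx => (abs_le.1 (hbd x hx)).2
  have htop : dd z₀ z₁ A₁ κ R ≤ 0 := by
    have := hC.htop
    simp only [dd]
    linarith
  have hDc : Continuous fun x => DD z₀ z₁ A₁ κ R (h x - l) := by
    unfold DD
    fun_prop
  have hφc : Continuous fun x => max (DD z₀ z₁ A₁ κ R (h x - l)) 0 := hDc.max continuous_const
  have hdc : Continuous fun x => dd z₀ z₁ A₁ κ (h x - l) := by
    unfold dd
    fun_prop
  -- step 2
  have hG : 0 ≤ ∫ x in c..c + Real.pi, ((l + 2 * (h x - l)) * deriv h x ^ 2 -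
      (2 * l + (h x - l)) * (h x - l) ^ 2) := by
    have e0 : 0 ≤ ∫ x in c..c + Real.pi, (h x + deriv (deriv h) x) * (S2 - (h x - l) ^ 2) :=
      intervalIntegral.integral_nonneg hcpi fun x hx =>
        mul_nonneg (hρ x) (by linarith [hsup x hx])
    have e1 : ∫ x in c..c + Real.pi, deriv (deriv h) x = 0 := by
      rw [intervalIntegral.integral_eq_sub_of_hasDerivAt (fun x _ => hd' x)
        (hc''.intervalIntegrable _ _), h1, sub_self]
    have e2 : ∫ x in c..c + Real.pi, (deriv (deriv h) x * (h x - l) ^ 2 +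
        2 * (h x - l) * deriv h x ^ 2) = 0 := by
      have hder : ∀ x, HasDerivAt (fun x => deriv h x * (h x - l) ^ 2)
          (deriv (deriv h) x * (h x - l) ^ 2 + 2 * (h x - l) * deriv h x ^ 2) x := by
        intro x
        have := (hd' x).mul (((hd x).sub_const l).pow 2)
        refine this.congr_deriv ?_
        simp
        ring
      rw [intervalIntegral.integral_eq_sub_of_hasDerivAt (fun x _ => hder x)
        (Continuous.intervalIntegrable (by fun_prop) _ _), h1, h0, sub_self]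
    have e3 : ∀ x, (h x + deriv (deriv h) x) * (S2 - (h x - l) ^ 2) =
        ((S2 * h x - l * (deriv h x ^ 2 - (h x - l) ^ 2)) + S2 * deriv (deriv h) x -
          (deriv (deriv h) x * (h x - l) ^ 2 + 2 * (h x - l) * deriv h x ^ 2)) +
        ((l + 2 * (h x - l)) * deriv h x ^ 2 - (2 * l + (h x - l)) * (h x - l) ^ 2) := by
      intro x
      ring
    simp_rw [e3] at e0
    rw [intervalIntegral.integral_add (Continuous.intervalIntegrable (by fun_prop) _ _)
      (Continuous.intervalIntegrable (by fun_prop) _ _),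
      intervalIntegral.integral_sub (Continuous.intervalIntegrable (by fun_prop) _ _)
      (Continuous.intervalIntegrable (by fun_prop) _ _),
      intervalIntegral.integral_add (Continuous.intervalIntegrable (by fun_prop) _ _)
      (Continuous.intervalIntegrable (by fun_prop) _ _),
      intervalIntegral.integral_sub (Continuous.intervalIntegrable (by fun_prop) _ _)
      (Continuous.intervalIntegrable (by fun_prop) _ _), e2,
      intervalIntegral.integral_const_mul, intervalIntegral.integral_const_mul,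
      intervalIntegral.integral_const_mul, e1, hmean, hS] at e0
    linarith
  -- step 3
  have hstep : ∫ x in c..c + Real.pi, dd z₀ z₁ A₁ κ (h x - l) * deriv h x ^ 2 ≤
      ∫ x in c..c + Real.pi, h x * max (DD z₀ z₁ A₁ κ R (h x - l)) 0 := by
    set F : ℝ → ℝ := fun x => deriv h x * max (DD z₀ z₁ A₁ κ R (h x - l)) 0 with hF
    have hFc : Continuous F := hc'.mul hφc
    have hq : ∀ x, HasDerivAt (fun y => DD z₀ z₁ A₁ κ R (h y - l))
        (dd z₀ z₁ A₁ κ (h x - l) * deriv h x) x := fun x =>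
      HasDerivAt.comp (h := fun x => h x - l) (h₂ := DD z₀ z₁ A₁ κ R) x
        (hasDerivAt_DD z₀ z₁ A₁ κ R (h x - l)) ((hd x).sub_const l)
    have hFd : ∀ x ∈ Ioo c (c + Real.pi), ∃ g', HasDerivWithinAt F g' (Ioi x) x ∧
        deriv (deriv h) x * max (DD z₀ z₁ A₁ κ R (h x - l)) 0 +
          dd z₀ z₁ A₁ κ (h x - l) * deriv h x ^ 2 ≤ g' := by
      intro x hx
      have hxI : x ∈ Icc c (c + Real.pi) := Ioo_subset_Icc_self hx
      obtain ⟨m, hm, hcase⟩ := max_right (hq x)
      refine ⟨_, (hd' x).hasDerivWithinAt.mul hm, ?_⟩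
      have hkey : dd z₀ z₁ A₁ κ (h x - l) * deriv h x ^ 2 ≤ deriv h x * m := by
        rcases hcase with ⟨_, hmq⟩ | ⟨hlt, hmq⟩ | ⟨heq, hmq⟩
        · rw [hmq]
          exact le_of_eq (by ring)
        · rw [hmq, mul_zero]
          refine mul_nonpos_of_nonpos_of_nonneg ?_ (sq_nonneg _)
          have hne : h x - l ≠ -R := by
            intro he
            rw [he] at hlt
            simp only [DD] at hlt
            ring_nf at hlt
            exact lt_irrefl _ hlt
          exact dd_nonpos htop (lt_of_le_of_ne (hb1 x hxI) (Ne.symm hne)) (hb2 x hxI) hlt.le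
        · rw [hmq]
          rcases le_total 0 (dd z₀ z₁ A₁ κ (h x - l) * deriv h x) with hs | hs
          · rw [max_eq_left hs]
            exact le_of_eq (by ring)
          · rw [max_eq_right hs, mul_zero]
            rcases eq_or_lt_of_le (hb1 x hxI) with he | he
            · -- interior minimum
              have hmin : IsLocalMin h x := by
                filter_upwards [Ioo_mem_nhds hx.1 hx.2] with y hy
                have := hb1 y (Ioo_subset_Icc_self hy)
                linarith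
              rw [hmin.deriv_eq_zero]
              simp
            · exact mul_nonpos_of_nonpos_of_nonneg (dd_nonpos htop he (hb2 x hxI) heq.le)
                (sq_nonneg _)
      linarith
    have hint : ∫ x in c..c + Real.pi, (deriv (deriv h) x *
        max (DD z₀ z₁ A₁ κ R (h x - l)) 0 + dd z₀ z₁ A₁ κ (h x - l) * deriv h x ^ 2) ≤
        F (c + Real.pi) - F c := by
      refine intervalIntegral.integral_le_sub_of_hasDeriv_right_of_le
        (g' := fun x => derivWithin F (Ioi x) x) hcpi hFc.continuousOn ?_ ?_ ?_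
      · intro x hx
        obtain ⟨g', hg', _⟩ := hFd x hx
        exact hg'.differentiableWithinAt.hasDerivWithinAt
      · exact (Continuous.continuousOn (by fun_prop)).integrableOn_Icc
      · intro x hx
        obtain ⟨g', hg', hle⟩ := hFd x hx
        rw [hg'.derivWithin (uniqueDiffWithinAt_Ioi x)]
        exact hle
    have hFe : F (c + Real.pi) - F c = 0 := by
      simp only [hF, h0, h1, sub_self]
    rw [hFe, intervalIntegral.integral_add (Continuous.intervalIntegrable (by fun_prop) _ _)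
      (Continuous.intervalIntegrable (by fun_prop) _ _)] at hint
    have hlow : ∫ x in c..c + Real.pi, -(h x * max (DD z₀ z₁ A₁ κ R (h x - l)) 0) ≤
        ∫ x in c..c + Real.pi, deriv (deriv h) x * max (DD z₀ z₁ A₁ κ R (h x - l)) 0 := by
      refine intervalIntegral.integral_mono_on hcpi (Continuous.intervalIntegrable (by fun_prop) _ _)
        (Continuous.intervalIntegrable (by fun_prop) _ _) ?_
      intro x _
      have h2 : 0 ≤ (h x + deriv (deriv h) x) * max (DD z₀ z₁ A₁ κ R (h x - l)) 0 :=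
        mul_nonneg (hρ x) (le_max_right _ _)
      linarith
    rw [intervalIntegral.integral_neg] at hlow
    linarith
  -- step 4
  set u : ℝ → ℝ := fun x => YY z₀ z₁ (h x - l) with hu
  have hud : ∀ x, HasDerivAt u ((z₀ + z₁ * (h x - l)) * deriv h x) x := by
    intro x
    have h2 := (hd x).sub_const l
    have h3 := (h2.const_mul z₀).add (((h2.pow 2).const_mul z₁).div_const 2)
    refine (h3.congr_deriv ?_).congr_of_eventuallyEq (Eventually.of_forall fun y => ?_)
    · simp
      ring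
    · simp [hu, YY]
  have hud' : deriv u = fun x => (z₀ + z₁ * (h x - l)) * deriv h x :=
    funext fun x => (hud x).deriv
  have huC : ContDiff ℝ 1 u := by
    rw [contDiff_one_iff_deriv]
    refine ⟨fun x => (hud x).differentiableAt, ?_⟩
    rw [hud']
    fun_prop
  set m : ℝ := (∫ x in c..c + Real.pi, u x) / Real.pi with hm
  have hw := wirt_per huC (a := c) (m := m) (by simp only [hu, h0]) (by rw [hm]; field_simp)
  rw [hud'] at hw
  -- step 5
  have hYc : Continuous fun x => YY z₀ z₁ (h x - l) := huC.continuous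
  have hF5 : 0 ≤ ∫ x in c..c + Real.pi, FF z₀ z₁ A₁ B₁ κ R l m (h x - l) := by
    have hhi : 0 < hi := by linarith [hC.hlo, hC.hhi]
    have hcub : ∀ r, -R ≤ r → r ≤ 0 → DD z₀ z₁ A₁ κ R r * (hi + r) ≤ e * r ^ 2 := hC.hcub
    refine int_nonneg_of_two_point (r := fun x => h x - l) (by linarith) (by fun_prop) ?_ ?_ ?_ ?_
    · unfold FF
      fun_prop
    · rw [intervalIntegral.integral_sub (hc.intervalIntegrable _ _)
        (Continuous.intervalIntegrable (by fun_prop) _ _), hmean, intervalIntegral.integral_const]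
      simp
    · intro x hx y hy hrx hry
      have := two_point (z₀ := z₀) (z₁ := z₁) (A₁ := A₁) (B₁ := B₁) (κ := κ) (R := R) (e := e)
        (l := l) (hi := hi) (m := m) (A := h y - l) (B := -(h x - l)) hR hC.hκ1 hC.he hhi htop
        hC.hquad hcub hl hry (hb2 y hy) (by linarith) (by linarith [hb1 x hx])
        (by linarith [hpos x])
      rw [neg_neg] at this
      exact this
    · intro x _ hx0
      have hx0' : h x - l = 0 := hx0
      have hD0 : DD z₀ z₁ A₁ κ R 0 ≤ 0 := by
        have := hcub 0 (by linarith) le_rfl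
        simp only [add_zero, ne_eq, OfNat.ofNat_ne_zero, not_false_eq_true, zero_pow,
          mul_zero] at this
        by_contra hc
        push Not at hc
        have := mul_pos hc hhi
        linarith
      rw [hx0']
      simp only [FF, max_eq_right hD0]
      have := sq_nonneg (YY z₀ z₁ 0 - m)
      nlinarith
  have e5 : ∫ x in c..c + Real.pi, FF z₀ z₁ A₁ B₁ κ R l m (h x - l) =
      4 * (∫ x in c..c + Real.pi, (u x - m) ^ 2) -
      (∫ x in c..c + Real.pi, (B₁ + (1 - κ) * (h x - l)) * (h x - l) ^ 2) -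
      ∫ x in c..c + Real.pi, h x * max (DD z₀ z₁ A₁ κ R (h x - l)) 0 := by
    rw [← intervalIntegral.integral_const_mul, ← intervalIntegral.integral_sub
      (Continuous.intervalIntegrable (by fun_prop) _ _)
      (Continuous.intervalIntegrable (by fun_prop) _ _), ← intervalIntegral.integral_sub
      (Continuous.intervalIntegrable (by fun_prop) _ _)
      (Continuous.intervalIntegrable (by fun_prop) _ _)]
    refine intervalIntegral.integral_congr ?_
    intro x _
    simp only [FF, hu]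
    ring
  -- the end
  have hlow : ∫ x in c..c + Real.pi, (κ * ((l + 2 * (h x - l)) * deriv h x ^ 2 -
      (2 * l + (h x - l)) * (h x - l) ^ 2) + (((z₀ + z₁ * (h x - l)) * deriv h x) ^ 2 -
      dd z₀ z₁ A₁ κ (h x - l) * deriv h x ^ 2 -
      (B₁ + (1 - κ) * (h x - l)) * (h x - l) ^ 2)) ≤
      ∫ x in c..c + Real.pi, ((a + (h x - l)) * deriv h x ^ 2 -
      (b' + (h x - l)) * (h x - l) ^ 2) := by
    refine intervalIntegral.integral_mono_on hcpi (Continuous.intervalIntegrable (by fun_prop) _ _)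
        (Continuous.intervalIntegrable (by fun_prop) _ _) ?_
    intro x _
    have e1 : (a + (h x - l)) * deriv h x ^ 2 - (b' + (h x - l)) * (h x - l) ^ 2 -
        (κ * ((l + 2 * (h x - l)) * deriv h x ^ 2 -
      (2 * l + (h x - l)) * (h x - l) ^ 2) + (((z₀ + z₁ * (h x - l)) * deriv h x) ^ 2 -
      dd z₀ z₁ A₁ κ (h x - l) * deriv h x ^ 2 -
      (B₁ + (1 - κ) * (h x - l)) * (h x - l) ^ 2)) =
      (a - (A₁ + κ * l)) * deriv h x ^ 2 + ((B₁ + 2 * κ * l) - b') * (h x - l) ^ 2 := by
      simp only [dd]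
      ring
    have e2 : 0 ≤ (a - (A₁ + κ * l)) * deriv h x ^ 2 := mul_nonneg (by linarith) (sq_nonneg _)
    have e3 : 0 ≤ ((B₁ + 2 * κ * l) - b') * (h x - l) ^ 2 :=
      mul_nonneg (by linarith) (sq_nonneg _)
    linarith
  rw [intervalIntegral.integral_add (Continuous.intervalIntegrable (by fun_prop) _ _)
      (Continuous.intervalIntegrable (by fun_prop) _ _),
      intervalIntegral.integral_sub (Continuous.intervalIntegrable (by fun_prop) _ _)
      (Continuous.intervalIntegrable (by fun_prop) _ _),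
      intervalIntegral.integral_sub (Continuous.intervalIntegrable (by fun_prop) _ _)
      (Continuous.intervalIntegrable (by fun_prop) _ _),
      intervalIntegral.integral_const_mul] at hlow
  have := mul_nonneg hC.hκ0 hG
  rw [e5] at hF5
  linarith

end Pool.Agent.RC
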