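import Pool.Agent.H.MP_1b807b_an.C.Prof

/-! MP_1b807b_an, convex planar domains, module Kern: the power series of `I₀²` and the kernel
form of the numbers `X1, X2, X3` -/

set_option autoImplicit false

namespace Pool.Agent.RC

open MeasureTheory Metric Set
open Pool.Agent.RG
open Pool.Agent.H.MP_1b807b_an

/-- the coefficients of `I₀(z)²` -/
noncomputable def bet (n : ℕ) : ℝ := (Nat.centralBinom n : ℝ) / (4 ^ n * (n.factorial : ℝ) ^ 2)

noncomputable def kc (p q : ℝ → ℝ) (n : ℕ) : ℝ :=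
  ∫ s in (0 : ℝ)..1, ((n : ℝ) * s ^ (2 * n - 2) * p s + s ^ (2 * n) * q s)

noncomputable def kern (k : ℝ) (p q : ℝ → ℝ) : ℝ :=
  ∫ s in (0 : ℝ)..1, (k * I0 (k * s) * I1 (k * s) / s * p s + I0 (k * s) ^ 2 * q s)

lemma hasSum_of_eq {f g : ℕ → ℝ} {a b : ℝ} (h : HasSum f a) (e : ∀ n, g n = f n) (hab : b = a) :
    HasSum g b := by
  have : g = f := funext e
  rw [this, hab]
  exact h

lemma bet_nonneg (n : ℕ) : 0 ≤ bet n := by unfold bet; positivity

lemma bet_pos (n : ℕ) : 0 < bet n := by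
  unfold bet
  have := Nat.centralBinom_pos n
  have h : (0 : ℝ) < Nat.centralBinom n := by exact_mod_cast this
  positivity

lemma bet_zero : bet 0 = 1 := by simp [bet]

lemma bet_succ (n : ℕ) : bet (n + 1) = bet n * ((2 * n + 1) / (2 * (n + 1) ^ 3)) := by
  have h := Nat.succ_mul_centralBinom_succ n
  have h' : ((n : ℝ) + 1) * (Nat.centralBinom (n + 1) : ℝ)
      = 2 * (2 * n + 1) * (Nat.centralBinom n : ℝ) := by exact_mod_cast h
  have hn : (0 : ℝ) < (n : ℝ) + 1 := by positivity
  have e : (Nat.centralBinom (n + 1) : ℝ) = 2 * (2 * n + 1) * (Nat.centralBinom n : ℝ) / (n + 1) := by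
    rw [eq_div_iff hn.ne']; linarith
  have hf : (0 : ℝ) < (n.factorial : ℝ) := by exact_mod_cast Nat.factorial_pos n
  unfold bet
  rw [e, Nat.factorial_succ]
  push_cast
  field_simp
  ring

lemma cc_one (j : ℕ) : cc 1 j = 1 / (4 ^ j * (j.factorial : ℝ) ^ 2) := by
  induction j with
  | zero => simp [cc_zero]
  | succ j ih =>
    have hf : (0 : ℝ) < (j.factorial : ℝ) := by exact_mod_cast Nat.factorial_pos j
    rw [cc_succ, ih, Nat.factorial_succ]
    push_cast
    field_simp
    ring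

lemma bet_eq_sum (n : ℕ) :
    ∑ kl ∈ Finset.HasAntidiagonal.antidiagonal n, cc 1 kl.1 * cc 1 kl.2 = bet n := by
  have h := Nat.add_choose_eq n n n
  have h2 : ∑ kl ∈ Finset.HasAntidiagonal.antidiagonal n, ((n.choose kl.1 : ℝ)) ^ 2 = (Nat.centralBinom n : ℝ) := by
    unfold Nat.centralBinom
    rw [two_mul, h]
    push_cast
    refine Finset.sum_congr rfl fun kl hkl => ?_
    have e : kl.1 + kl.2 = n := Finset.HasAntidiagonal.mem_antidiagonal.1 hkl
    have : n.choose kl.2 = n.choose kl.1 := by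
      rw [← e]
      exact (Nat.choose_symm_of_eq_add (by omega))
    rw [this, sq]
  unfold bet
  rw [← h2, Finset.sum_div]
  refine Finset.sum_congr rfl fun kl hkl => ?_
  have e : kl.1 + kl.2 = n := Finset.HasAntidiagonal.mem_antidiagonal.1 hkl
  have hc : (n.choose kl.1 : ℝ) * (kl.1.factorial * kl.2.factorial) = n.factorial := by
    have := Nat.choose_mul_factorial_mul_factorial (n := n) (k := kl.1) (by omega)
    have e2 : n - kl.1 = kl.2 := by omega
    rw [e2] at this
    rw [← mul_assoc]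
    exact_mod_cast this
  have h1 : (0 : ℝ) < (kl.1.factorial : ℝ) := by exact_mod_cast Nat.factorial_pos _
  have h3 : (0 : ℝ) < (kl.2.factorial : ℝ) := by exact_mod_cast Nat.factorial_pos _
  have h4 : (0 : ℝ) < (n.factorial : ℝ) := by exact_mod_cast Nat.factorial_pos _
  have h5 : (4 : ℝ) ^ n = 4 ^ kl.1 * 4 ^ kl.2 := by rw [← pow_add, e]
  rw [cc_one, cc_one, h5, ← hc]
  have h6 : (0 : ℝ) < (n.choose kl.1 : ℝ) := by
    have : 0 < n.choose kl.1 := Nat.choose_pos (by omega)
    exact_mod_cast this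
  field_simp

lemma ent_bet : Ent bet := by
  refine ⟨1, fun n => ?_⟩
  rw [abs_of_nonneg (bet_nonneg n)]
  unfold bet
  have h1 : (Nat.centralBinom n : ℝ) ≤ 4 ^ n := by
    have := Nat.sum_range_choose (2 * n)
    have h2 : (2 * n).choose n ≤ 2 ^ (2 * n) := Nat.choose_le_two_pow _ _
    have h3 : (2 : ℕ) ^ (2 * n) = 4 ^ n := by rw [pow_mul]; norm_num
    rw [h3] at h2
    exact_mod_cast h2
  have hf : (1 : ℝ) ≤ (n.factorial : ℝ) := by exact_mod_cast Nat.factorial_pos n
  rw [div_le_div_iff₀ (by positivity) (by positivity)]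
  calc (Nat.centralBinom n : ℝ) * n.factorial ≤ 4 ^ n * (n.factorial * n.factorial) := by
        gcongr
        nlinarith
    _ = 1 * (4 ^ n * (n.factorial : ℝ) ^ 2) := by ring

theorem I0_sq_hasSum (z : ℝ) : HasSum (fun n => bet n * z ^ (2 * n)) (I0 z ^ 2) := by
  have hs : Summable (fun j => cc 1 j * (z ^ 2) ^ j) := (ent_cc 1).summable (z ^ 2)
  have hn : Summable (fun j => ‖cc 1 j * (z ^ 2) ^ j‖) := hs.norm
  have h1 := tsum_mul_tsum_eq_tsum_sum_antidiagonal_of_summable_norm hn hn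
  have h2 := (summable_norm_sum_mul_antidiagonal_of_summable_norm hn hn).of_norm
  have e : ∀ n, (∑ kl ∈ Finset.HasAntidiagonal.antidiagonal n, cc 1 kl.1 * (z ^ 2) ^ kl.1 *
      (cc 1 kl.2 * (z ^ 2) ^ kl.2)) = bet n * z ^ (2 * n) := by
    intro n
    rw [← bet_eq_sum, Finset.sum_mul]
    refine Finset.sum_congr rfl fun kl hkl => ?_
    have e : kl.1 + kl.2 = n := Finset.HasAntidiagonal.mem_antidiagonal.1 hkl
    rw [← e, pow_mul, pow_add]
    ring
  have h3 : I0 z ^ 2 = ∑' n, bet n * z ^ (2 * n) := by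
    have : I0 z = ∑' j, cc 1 j * (z ^ 2) ^ j := rfl
    rw [sq, this, h1]
    exact tsum_congr e
  rw [h3]
  exact (h2.congr fun n => e n).hasSum

lemma I0_sq_ser (z : ℝ) : I0 z ^ 2 = ser bet (z ^ 2) := by
  have h := (I0_sq_hasSum z).tsum_eq
  rw [← h]
  unfold ser
  exact tsum_congr fun n => by rw [pow_mul]


lemma hasDerivAt_I1 (z : ℝ) : HasDerivAt I1 (W1 1 z) z := hasDerivAt_W 1 z



lemma I01_ser (z : ℝ) : I0 z * I1 z = z * ser (shc bet) (z ^ 2) := by
  have h1 : HasDerivAt (fun z => I0 z ^ 2) (2 * I0 z * I1 z) z := by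
    have := (hasDerivAt_I0 z).pow 2
    refine this.congr_deriv ?_
    push_cast
    ring
  have h2 : HasDerivAt (fun z => I0 z ^ 2) (ser (shc bet) (z ^ 2) * (2 * z)) z := by
    have e : (fun z => I0 z ^ 2) = fun z => ser bet (z ^ 2) := funext I0_sq_ser
    rw [e]
    have := HasDerivAt.comp (h₂ := ser bet) (h := fun x : ℝ => x ^ 2) z
      (hasDerivAt_ser ent_bet (z ^ 2)) (hasDerivAt_pow 2 z)
    refine this.congr_deriv ?_
    push_cast
    ring
  have := h1.unique h2
  linarith

theorem I01_hasSum (z : ℝ) :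
    HasSum (fun n : ℕ => (n : ℝ) * bet n * z ^ (2 * n)) (z * I0 z * I1 z) := by
  have h1 : HasSum (fun n : ℕ => shc bet n * (z ^ 2) ^ n) (ser (shc bet) (z ^ 2)) :=
    (ent_bet.shc.summable (z ^ 2)).hasSum
  have h2 := h1.mul_left (z ^ 2)
  have e : z * I0 z * I1 z = z ^ 2 * ser (shc bet) (z ^ 2) := by
    rw [mul_assoc, I01_ser]; ring
  have h3 : HasSum (fun n : ℕ => ((n + 1 : ℕ) : ℝ) * bet (n + 1) * z ^ (2 * (n + 1)))
      (z * I0 z * I1 z) := by
    refine hasSum_of_eq h2 (fun n => ?_) e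
    unfold shc
    rw [pow_mul]
    push_cast
    ring
  have h4 := (hasSum_nat_add_iff (f := fun n : ℕ => (n : ℝ) * bet n * z ^ (2 * n)) 1).1 h3
  simpa using h4

/-- `k I₁(ks)/s`, continuous at `s = 0` -/
noncomputable def QQ (k s : ℝ) : ℝ := 2 * k ^ 2 * ser (shc (cc 1)) ((k * s) ^ 2)

lemma continuous_QQ (k : ℝ) : Continuous (QQ k) := by
  unfold QQ
  have h := continuous_ser (ent_cc 1).shc
  fun_prop

lemma mul_QQ (k s : ℝ) : k * I1 (k * s) = s * QQ k s := by
  unfold I1 W QQ
  ring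

lemma QQ_eq (k : ℝ) {s : ℝ} (hs : s ≠ 0) : k * I1 (k * s) / s = QQ k s := by
  rw [mul_QQ]
  field_simp

lemma QQ_nonneg (k s : ℝ) : 0 ≤ QQ k s := by
  unfold QQ
  have h := ser_shc_pos 1 (k * s)
  have h2 : (0 : ℝ) ≤ ser (shc (cc 1)) ((k * s) ^ 2) := le_trans (by positivity) h
  positivity

/-- the kernel integral without the quotient -/
lemma kern_eq (k : ℝ) (p q : ℝ → ℝ) :
    kern k p q = ∫ s in (0 : ℝ)..1, (I0 (k * s) * QQ k s * p s + I0 (k * s) ^ 2 * q s) := by
  unfold kern
  rw [intervalIntegral.integral_of_le zero_le_one, intervalIntegral.integral_of_le zero_le_one]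
  refine setIntegral_congr_fun measurableSet_Ioc fun s hs => ?_
  have hs0 : s ≠ 0 := hs.1.ne'
  have : k * I0 (k * s) * I1 (k * s) / s = I0 (k * s) * QQ k s := by
    rw [← QQ_eq k hs0]; ring
  simp only [this]

lemma QQ_hasSum (k : ℝ) {s : ℝ} (hs : s ≠ 0) :
    HasSum (fun n : ℕ => bet n * k ^ (2 * n) * ((n : ℝ) * s ^ (2 * n - 2)))
      (I0 (k * s) * QQ k s) := by
  have h := (I01_hasSum (k * s)).mul_left (1 / s ^ 2)
  have e : 1 / s ^ 2 * (k * s * I0 (k * s) * I1 (k * s)) = I0 (k * s) * QQ k s := by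
    rw [← QQ_eq k hs]
    field_simp
  refine hasSum_of_eq h (fun n => ?_) e.symm
  rcases n with _ | n
  · simp
  · have : 2 * (n + 1) - 2 = 2 * n := by omega
    rw [this, mul_pow, show 2 * (n + 1) = 2 * n + 2 by ring, pow_add s]
    field_simp

theorem kern_hasSum (k : ℝ) {p q : ℝ → ℝ} (hp : ContinuousOn p (Icc 0 1))
    (hq : ContinuousOn q (Icc 0 1)) :
    HasSum (fun n => bet n * k ^ (2 * n) * kc p q n) (kern k p q) := by
  obtain ⟨P, hP⟩ := isCompact_Icc.exists_bound_of_continuousOn hp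
  obtain ⟨Q, hQ⟩ := isCompact_Icc.exists_bound_of_continuousOn hq
  have h01 : (0 : ℝ) ∈ Icc (0 : ℝ) 1 := ⟨le_rfl, zero_le_one⟩
  have hP0 : 0 ≤ P := le_trans (norm_nonneg _) (hP 0 h01)
  have hQ0 : 0 ≤ Q := le_trans (norm_nonneg _) (hQ 0 h01)
  rw [kern_eq]
  have hb1 : Summable fun n : ℕ => bet n * k ^ (2 * n) := (I0_sq_hasSum k).summable
  have hb2 : Summable fun n : ℕ => (n : ℝ) * bet n * k ^ (2 * n) := (I01_hasSum k).summable
  have hb : Summable fun n : ℕ => bet n * k ^ (2 * n) * ((n : ℝ) * P + Q) := by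
    refine ((hb2.mul_left P).add (hb1.mul_left Q)).congr fun n => ?_
    ring
  have hc : ∀ n : ℕ, ContinuousOn (fun t : ℝ => bet n * k ^ (2 * n) *
      ((n : ℝ) * t ^ (2 * n - 2) * p t + t ^ (2 * n) * q t)) (Icc 0 1) := by
    intro n
    fun_prop
  have key := intervalIntegral.hasSum_integral_of_dominated_convergence
    (μ := volume) (a := (0 : ℝ)) (b := 1)
    (F := fun (n : ℕ) (t : ℝ) => bet n * k ^ (2 * n) *
      ((n : ℝ) * t ^ (2 * n - 2) * p t + t ^ (2 * n) * q t))
    (f := fun s => I0 (k * s) * QQ k s * p s + I0 (k * s) ^ 2 * q s)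
    (fun n _ => bet n * k ^ (2 * n) * ((n : ℝ) * P + Q)) ?_ ?_ ?_ ?_ ?_
  · refine hasSum_of_eq key (fun n => ?_) rfl
    rw [intervalIntegral.integral_const_mul]
    rfl
  · intro n
    rw [uIoc_of_le zero_le_one]
    exact ((hc n).mono Ioc_subset_Icc_self).aestronglyMeasurable measurableSet_Ioc
  · intro n
    refine Filter.Eventually.of_forall fun t ht => ?_
    rw [uIoc_of_le zero_le_one] at ht
    have ht' : t ∈ Icc (0 : ℝ) 1 := Ioc_subset_Icc_self ht
    have hk : 0 ≤ k ^ (2 * n) := by rw [pow_mul]; positivity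
    have hb := bet_nonneg n
    rw [norm_mul, Real.norm_of_nonneg (mul_nonneg hb hk)]
    refine mul_le_mul_of_nonneg_left ?_ (mul_nonneg hb hk)
    refine (norm_add_le _ _).trans (add_le_add ?_ ?_)
    · rw [norm_mul, norm_mul, Real.norm_of_nonneg (Nat.cast_nonneg n),
        Real.norm_of_nonneg (pow_nonneg ht'.1 _)]
      calc (n : ℝ) * t ^ (2 * n - 2) * ‖p t‖ ≤ (n : ℝ) * 1 * P := by
            gcongr
            · exact pow_le_one₀ ht'.1 ht'.2
            · exact hP t ht'
        _ = (n : ℝ) * P := by ring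
    · rw [norm_mul, Real.norm_of_nonneg (pow_nonneg ht'.1 _)]
      calc t ^ (2 * n) * ‖q t‖ ≤ 1 * Q := by
            gcongr
            · exact pow_le_one₀ ht'.1 ht'.2
            · exact hQ t ht'
        _ = Q := one_mul _
  · exact Filter.Eventually.of_forall fun t _ => hb
  · exact intervalIntegrable_const
  · refine Filter.Eventually.of_forall fun t ht => ?_
    rw [uIoc_of_le zero_le_one] at ht
    have h1 := (QQ_hasSum k ht.1.ne').mul_right (p t)
    have h2 := (I0_sq_hasSum (k * t)).mul_right (q t)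
    refine hasSum_of_eq (h1.add h2) (fun n => ?_) rfl
    rw [mul_pow]
    ring

lemma wt_pos {b : ℝ} (hb : 0 < b) (s : ℝ) : 0 < wt b s := by unfold wt; positivity

lemma continuous_wt (b : ℝ) : Continuous (wt b) := by unfold wt; fun_prop

lemma hasDerivAt_wt (b s : ℝ) : HasDerivAt (wt b) (2 * b * s) s := by
  have h := ((hasDerivAt_pow 2 s).const_mul b).const_add 1
  refine h.congr_deriv ?_
  push_cast
  ring

/-- `g g' / w` -/
noncomputable def GP (k b s : ℝ) : ℝ := s * (I0 (k * s) * QQ k s) / wt b s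

/-- `g g' / (s w) + b g² / w²` -/
noncomputable def HP (k b s : ℝ) : ℝ :=
  I0 (k * s) * QQ k s / wt b s + b * I0 (k * s) ^ 2 / wt b s ^ 2

lemma GP_eq (k b s : ℝ) : GP k b s = I0 (k * s) * (k * I1 (k * s)) / wt b s := by
  unfold GP
  rw [mul_QQ]
  ring

lemma continuous_I0k (k : ℝ) : Continuous fun s => I0 (k * s) :=
  continuous_I0.comp (continuous_const.mul continuous_id)

lemma continuous_I1k (k : ℝ) : Continuous fun s => I1 (k * s) :=
  continuous_I1.comp (continuous_const.mul continuous_id)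

lemma continuous_GP (k : ℝ) {b : ℝ} (hb : 0 < b) : Continuous (GP k b) := by
  unfold GP
  exact (continuous_id.mul ((continuous_I0k k).mul (continuous_QQ k))).div (continuous_wt b)
    fun s => (wt_pos hb s).ne'

lemma continuous_HP (k : ℝ) {b : ℝ} (hb : 0 < b) : Continuous (HP k b) := by
  unfold HP
  exact (((continuous_I0k k).mul (continuous_QQ k)).div (continuous_wt b)
    fun s => (wt_pos hb s).ne').add ((continuous_const.mul ((continuous_I0k k).pow 2)).div
    ((continuous_wt b).pow 2) fun s => (pow_pos (wt_pos hb s) 2).ne')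

lemma continuous_AA (k : ℝ) {b : ℝ} (hb : 0 < b) : Continuous (AA k b) := by
  unfold AA
  have h0 := continuous_I0k k
  have h1 := continuous_I1k k
  have hw := continuous_wt b
  have e1 : ∀ s, wt b s ≠ 0 := fun s => (wt_pos hb s).ne'
  have e2 : ∀ s, wt b s ^ 2 ≠ 0 := fun s => pow_ne_zero 2 (e1 s)
  fun_prop (disch := assumption)

lemma hasDerivAt_GP (k : ℝ) {b : ℝ} (hb : 0 < b) {s : ℝ} (hs : s ≠ 0) (hk : k ≠ 0) :
    HasDerivAt (GP k b) (AA k b s - HP k b s) s := by
  have h0 : HasDerivAt (fun s => I0 (k * s)) (k * I1 (k * s)) s := by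
    have := HasDerivAt.comp (h₂ := I0) (h := fun s : ℝ => k * s) s (hasDerivAt_I0 (k * s))
      ((hasDerivAt_id s).const_mul k)
    refine this.congr_deriv ?_
    ring
  have h1 : HasDerivAt (fun s => k * I1 (k * s)) (k ^ 2 * W1 1 (k * s)) s := by
    have := (HasDerivAt.comp (h₂ := I1) (h := fun s : ℝ => k * s) s (hasDerivAt_I1 (k * s))
      ((hasDerivAt_id s).const_mul k)).const_mul k
    refine this.congr_deriv ?_
    ring
  have e : GP k b = fun s => I0 (k * s) * (k * I1 (k * s)) / wt b s := funext (GP_eq k b)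
  rw [e]
  refine ((h0.mul h1).div (hasDerivAt_wt b s) (wt_pos hb s).ne').congr_deriv ?_
  have hw := (wt_pos hb s).ne'
  have hks : k * s ≠ 0 := mul_ne_zero hk hs
  have e2 : W1 1 (k * s) = I0 (k * s) - 1 / (k * s) * I1 (k * s) := by
    rw [W1_eq 1 hks]
    simp [I0, I1]
  unfold AA HP
  rw [e2, ← QQ_eq k hs]
  simp only [Pi.mul_apply]
  field_simp
  ring

/-- integration of `AA` against a smooth weight -/
lemma int_AA (k : ℝ) (hk : k ≠ 0) {b : ℝ} (hb : 0 < b) {φ φ' : ℝ → ℝ}
    (hφ : ∀ s, HasDerivAt φ (φ' s) s) (hc : Continuous φ') :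
    ∫ s in (0 : ℝ)..1, φ s * AA k b s = φ 1 * (k * I0 k * I1 k / (1 + b)) +
      ∫ s in (0 : ℝ)..1, (φ s * HP k b s - φ' s * GP k b s) := by
  have hφc : Continuous φ := continuous_iff_continuousAt.2 fun s => (hφ s).continuousAt
  have hG := continuous_GP k hb
  have hH := continuous_HP k hb
  have hA := continuous_AA k hb
  have h1 : ∫ s in (0 : ℝ)..1, (φ' s * GP k b s + φ s * (AA k b s - HP k b s)) =
      φ 1 * GP k b 1 - φ 0 * GP k b 0 := by
    refine intervalIntegral.integral_eq_sub_of_hasDerivAt_of_le zero_le_one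
      (hφc.mul hG).continuousOn (fun s hs => ?_) ?_
    · exact (hφ s).mul (hasDerivAt_GP k hb hs.1.ne' hk)
    · exact ((hc.mul hG).add (hφc.mul (hA.sub hH))).intervalIntegrable _ _
  have e0 : GP k b 0 = 0 := by unfold GP; simp
  have e1 : GP k b 1 = k * I0 k * I1 k / (1 + b) := by
    rw [GP_eq]
    unfold wt
    rw [mul_one]
    ring
  rw [e0, e1, mul_zero, sub_zero] at h1
  rw [← h1, ← intervalIntegral.integral_add]
  · refine intervalIntegral.integral_congr fun s _ => ?_
    ring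
  · exact ((hc.mul hG).add (hφc.mul (hA.sub hH))).intervalIntegrable _ _
  · exact ((hφc.mul hH).sub (hc.mul hG)).intervalIntegrable _ _

theorem X1_kern {k b : ℝ} (hk : 0 < k) (hb : 0 < b) :
    X1 k b = kern k (fun s => b / wt b s) (fun s => b ^ 2 / wt b s ^ 2) := by
  have h := int_AA k hk.ne' hb (φ := fun _ => 1) (φ' := fun _ => 0)
    (fun s => hasDerivAt_const s 1) continuous_const
  simp only [one_mul, zero_mul, sub_zero] at h
  unfold X1
  rw [h, kern_eq, add_sub_cancel_left, ← intervalIntegral.integral_const_mul]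
  refine intervalIntegral.integral_congr fun s _ => ?_
  have hw := (wt_pos hb s).ne'
  simp only [HP]
  field_simp

theorem X2_kern {k b : ℝ} (hk : 0 < k) (hb : 0 < b) :
    X2 k b = kern k (fun s => b / wt b s) (fun s => b ^ 2 * (1 - s) / wt b s ^ 2) := by
  have h := int_AA k hk.ne' hb (φ := fun s => 1 - s) (φ' := fun _ => -1)
    (fun s => (hasDerivAt_id s).const_sub 1) continuous_const
  simp only [sub_self, zero_mul, zero_add] at h
  unfold X2
  rw [h, kern_eq, ← intervalIntegral.integral_const_mul]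
  refine intervalIntegral.integral_congr fun s _ => ?_
  have hw := (wt_pos hb s).ne'
  simp only [HP, GP]
  field_simp
  ring

theorem X12_kern {k b : ℝ} (hk : 0 < k) (hb : 0 < b) :
    X1 k b - X2 k b = kern k (fun _ => 0) (fun s => b ^ 2 * s / wt b s ^ 2) := by
  have h0 := continuous_I0k k
  have hQ := continuous_QQ k
  have hw := continuous_wt b
  have e1 : ∀ s, wt b s ≠ 0 := fun s => (wt_pos hb s).ne'
  have e2 : ∀ s, wt b s ^ 2 ≠ 0 := fun s => pow_ne_zero 2 (e1 s)
  rw [X1_kern hk hb, X2_kern hk hb, kern_eq, kern_eq, kern_eq, ← intervalIntegral.integral_sub]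
  · refine intervalIntegral.integral_congr fun s _ => ?_
    have hw := e1 s
    field_simp
    ring
  · refine Continuous.intervalIntegrable ?_ _ _
    fun_prop (disch := assumption)
  · refine Continuous.intervalIntegrable ?_ _ _
    fun_prop (disch := assumption)

theorem X3_kern {k b : ℝ} (hk : 0 < k) (hb : 0 < b) :
    X3 k b = kern k (fun s => (1 + 3 * b * (1 - s ^ 2)) / wt b s)
      (fun s => b * (3 * b * (1 - s) ^ 2 - 1 - wt b s) / wt b s ^ 2) := by
  have h0 := continuous_I0k k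
  have hQ := continuous_QQ k
  have hw := continuous_wt b
  have hA := continuous_AA k hb
  have hH := continuous_HP k hb
  have hG := continuous_GP k hb
  have e1 : ∀ s, wt b s ≠ 0 := fun s => (wt_pos hb s).ne'
  have e2 : ∀ s, wt b s ^ 2 ≠ 0 := fun s => pow_ne_zero 2 (e1 s)
  have ha := int_AA k hk.ne' hb (φ := fun _ => 1) (φ' := fun _ => 0)
    (fun s => hasDerivAt_const s 1) continuous_const
  have hb2 := int_AA k hk.ne' hb (φ := fun s => (1 - s) ^ 2) (φ' := fun s => -(2 * (1 - s)))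
    (fun s => by
      have := ((hasDerivAt_id s).const_sub 1).pow 2
      refine this.congr_deriv ?_
      simp) (by fun_prop)
  simp only [one_mul, zero_mul, sub_zero] at ha
  simp only [sub_self, ne_eq, OfNat.ofNat_ne_zero, not_false_eq_true, zero_pow, zero_mul,
    zero_add] at hb2
  have hc1 : Continuous fun s => b * I0 (k * s) ^ 2 / wt b s + 2 * b * I0 (k * s) ^ 2 / wt b s ^ 2 := by
    fun_prop (disch := assumption)
  have hL : ∫ s in (0 : ℝ)..1, LL k b s = (∫ s in (0 : ℝ)..1, AA k b s) -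
      ∫ s in (0 : ℝ)..1, (b * I0 (k * s) ^ 2 / wt b s + 2 * b * I0 (k * s) ^ 2 / wt b s ^ 2) := by
    rw [← intervalIntegral.integral_sub (hA.intervalIntegrable _ _) (hc1.intervalIntegrable _ _)]
    refine intervalIntegral.integral_congr fun s _ => ?_
    simp only [LL]
    ring
  have hc2 : Continuous fun s => (1 - s) ^ 2 * HP k b s - -(2 * (1 - s)) * GP k b s := by
    fun_prop
  unfold X3
  rw [hL, ha, hb2, kern_eq, ← intervalIntegral.integral_const_mul]
  have e3 : ∀ x y z : ℝ, x + y - z + 0 - x = y - z := fun x y z => by ring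
  have e4 : ∀ x y z t : ℝ, x + y - z + t - x = y - z + t := fun x y z t => by ring
  rw [e4, ← intervalIntegral.integral_sub (hH.intervalIntegrable _ _) (hc1.intervalIntegrable _ _),
    ← intervalIntegral.integral_add]
  · refine intervalIntegral.integral_congr fun s _ => ?_
    have hw := e1 s
    simp only [HP, GP]
    field_simp
    unfold wt
    ring
  · exact (hH.sub hc1).intervalIntegrable _ _
  · exact (continuous_const.mul hc2).intervalIntegrable _ _

end Pool.Agent.RC
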