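import Pool.Agent.H.MP_1b807b_an.C.Defs
import Pool.Agent.H.MP_1b807b_an.C.SpBody

/-! MP_1b807b_an, convex planar domains, module Scale: homotheties and translations of domains and
bodies -/

set_option autoImplicit false

namespace Pool.Agent.RC

open MeasureTheory Metric Set
open Pool.Agent.RG
open scoped RealInnerProductSpace ENNReal

/-- the map `x ↦ c x + a` -/
noncomputable def affT (c : ℝ) (hc : 0 < c) (a : E 2) : E 2 ≃ₜ E 2 :=
  (Homeomorph.smulOfNeZero c hc.ne').trans (Homeomorph.addRight a)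

theorem affT_apply (c : ℝ) (hc : 0 < c) (a x : E 2) : affT c hc a x = c • x + a := rfl

theorem affT_deriv (c : ℝ) (hc : 0 < c) (a x : E 2) :
    HasFDerivAt (affT c hc a) (c • ContinuousLinearMap.id ℝ (E 2)) x := by
  have h : HasFDerivAt (fun x : E 2 => c • x + a) (c • ContinuousLinearMap.id ℝ (E 2)) x :=
    ((hasFDerivAt_id x).const_smul c).add_const a
  exact h

theorem affT_contDiff (c : ℝ) (hc : 0 < c) (a : E 2) : ContDiff ℝ 1 (affT c hc a) := by
  have h : ContDiff ℝ 1 (fun x : E 2 => c • x + a) := by fun_prop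
  exact h

theorem affT_setIntegral (c : ℝ) (hc : 0 < c) (a : E 2) {s : Set (E 2)} (hs : MeasurableSet s)
    (f : E 2 → ℝ) : ∫ x in affT c hc a '' s, f x = c ^ 2 * ∫ x in s, f (affT c hc a x) := by
  rw [integral_image_eq_integral_abs_det_fderiv_smul volume hs
    (fun x _ => (affT_deriv c hc a x).hasFDerivWithinAt) (affT c hc a).injective.injOn]
  have hdet : |(c • ContinuousLinearMap.id ℝ (E 2)).det| = c ^ 2 := by
    rw [ContinuousLinearMap.det]
    have : ((c • ContinuousLinearMap.id ℝ (E 2) : E 2 →L[ℝ] E 2) : E 2 →ₗ[ℝ] E 2) =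
        c • LinearMap.id := rfl
    rw [this, LinearMap.det_smul, LinearMap.det_id, mul_one, finrank_euclideanSpace_fin]
    exact abs_of_nonneg (by positivity)
  rw [hdet, ← integral_const_mul]
  rfl

theorem tr_comp_smul {c : ℝ} (A : E 2 →L[ℝ] E 2) :
    tr (A.comp (c • ContinuousLinearMap.id ℝ (E 2))) = c * tr A := by
  unfold tr
  rw [Finset.mul_sum]
  refine Finset.sum_congr rfl fun i _ => ?_
  simp

theorem divg_comp (c : ℝ) (hc : 0 < c) (a : E 2) {X : E 2 → E 2} (hX : ContDiff ℝ 1 X) (x : E 2) :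
    divg (fun x => X (affT c hc a x)) x = c * divg X (affT c hc a x) := by
  have h : HasFDerivAt (fun x => X (affT c hc a x))
      ((fderiv ℝ X (affT c hc a x)).comp (c • ContinuousLinearMap.id ℝ (E 2))) x :=
    ((hX.differentiable one_ne_zero) (affT c hc a x)).hasFDerivAt.comp x (affT_deriv c hc a x)
  unfold divg
  rw [h.fderiv, tr_comp_smul]

theorem norm_fderiv_comp (c : ℝ) (hc : 0 < c) (a : E 2) {u : E 2 → ℝ} (hu : ContDiff ℝ 1 u)
    (x : E 2) : ‖fderiv ℝ (fun x => u (affT c hc a x)) x‖ ^ 2 =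
      c ^ 2 * ‖fderiv ℝ u (affT c hc a x)‖ ^ 2 := by
  have h : HasFDerivAt (fun x => u (affT c hc a x))
      ((fderiv ℝ u (affT c hc a x)).comp (c • ContinuousLinearMap.id ℝ (E 2))) x :=
    ((hu.differentiable one_ne_zero) (affT c hc a x)).hasFDerivAt.comp x (affT_deriv c hc a x)
  rw [h.fderiv]
  have e : (fderiv ℝ u (affT c hc a x)).comp (c • ContinuousLinearMap.id ℝ (E 2)) =
      c • fderiv ℝ u (affT c hc a x) := by
    ext v
    simp
  rw [e, norm_smul, mul_pow, Real.norm_eq_abs, sq_abs]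

/-- the image of a domain under `x ↦ c x + a` -/
noncomputable def affDomain (D : Domain 2) (c : ℝ) (hc : 0 < c) (a : E 2) : Domain 2 where
  carrier := affT c hc a '' D.carrier
  isOpen := (affT c hc a).isOpenMap _ D.isOpen
  isConnected := D.isConnected.image _ (affT c hc a).continuous.continuousOn
  isBounded := by
    obtain ⟨C, hC⟩ := isBounded_iff_forall_norm_le.1 D.isBounded
    refine isBounded_iff_forall_norm_le.2 ⟨c * C + ‖a‖, ?_⟩
    rintro y ⟨x, hx, rfl⟩
    rw [affT_apply]
    calc ‖c • x + a‖ ≤ ‖c • x‖ + ‖a‖ := norm_add_le _ _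
      _ = c * ‖x‖ + ‖a‖ := by rw [norm_smul, Real.norm_of_nonneg hc.le]
      _ ≤ c * C + ‖a‖ := by gcongr; exact hC x hx
  surface := ENNReal.ofReal c • Measure.map (affT c hc a) D.surface
  isFinite := by
    have := D.isFinite
    have : IsFiniteMeasure (Measure.map (affT c hc a) D.surface) :=
      Measure.isFiniteMeasure_map D.surface _
    refine ⟨?_⟩
    rw [Measure.smul_apply, smul_eq_mul]
    exact ENNReal.mul_lt_top ENNReal.ofReal_lt_top (measure_lt_top _ _)
  support := by
    rw [Measure.smul_apply, smul_eq_mul,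
      (affT c hc a).measurableEmbedding.map_apply]
    have e : (affT c hc a) ⁻¹' (frontier ((affT c hc a) '' D.carrier))ᶜ =
        (frontier D.carrier)ᶜ := by
      rw [← (affT c hc a).image_frontier, preimage_compl,
        preimage_image_eq _ (affT c hc a).injective]
    rw [e, D.support, mul_zero]
  normal := fun x => D.normal ((affT c hc a).symm x)
  measurable_normal := D.measurable_normal.comp (affT c hc a).symm.continuous.measurable
  norm_normal := by
    refine Measure.ae_smul_measure ?_ _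
    rw [(affT c hc a).measurableEmbedding.ae_map_iff]
    filter_upwards [D.norm_normal] with x hx
    rw [Homeomorph.symm_apply_apply]
    exact hx
  divergence := by
    intro X hX
    rw [affT_setIntegral c hc a D.isOpen.measurableSet, integral_smul_measure,
      (affT c hc a).measurableEmbedding.integral_map, ENNReal.toReal_ofReal hc.le, smul_eq_mul]
    simp only [Homeomorph.symm_apply_apply]
    have h := D.divergence (fun x => X (affT c hc a x)) (hX.comp (affT_contDiff c hc a))
    simp only [divg_comp c hc a hX] at h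
    rw [integral_const_mul] at h
    rw [← h]
    ring

theorem aff_surface (D : Domain 2) (c : ℝ) (hc : 0 < c) (a : E 2) (f : E 2 → ℝ) :
    ∫ x, f x ∂(affDomain D c hc a).surface = c * ∫ x, f (affT c hc a x) ∂D.surface := by
  show ∫ x, f x ∂(ENNReal.ofReal c • Measure.map (affT c hc a) D.surface) = _
  rw [integral_smul_measure, (affT c hc a).measurableEmbedding.integral_map,
    ENNReal.toReal_ofReal hc.le, smul_eq_mul]

theorem aff_volume (D : Domain 2) (c : ℝ) (hc : 0 < c) (a : E 2) (f : E 2 → ℝ) :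
    ∫ x in (affDomain D c hc a).carrier, f x =
      c ^ 2 * ∫ x in D.carrier, f (affT c hc a x) :=
  affT_setIntegral c hc a D.isOpen.measurableSet f

theorem aff_rayleigh (D : Domain 2) (c : ℝ) (hc : 0 < c) (a : E 2) (β : ℝ) {u : E 2 → ℝ}
    (hu : ContDiff ℝ 1 u) :
    D.rayleigh (-(c * β)) (fun x => u (affT c hc a x)) =
      c ^ 2 * (affDomain D c hc a).rayleigh (-β) u := by
  unfold Domain.rayleigh
  rw [aff_volume, aff_volume, aff_surface]
  simp only [norm_fderiv_comp c hc a hu]
  rw [integral_const_mul]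
  have h2 : c ^ 2 ≠ 0 := by positivity
  set I := ∫ x in D.carrier, u (affT c hc a x) ^ 2
  set S := ∫ x, u (affT c hc a x) ^ 2 ∂D.surface
  set G := ∫ x in D.carrier, ‖fderiv ℝ u (affT c hc a x)‖ ^ 2
  by_cases hI : I = 0
  · rw [hI]; simp
  · field_simp
    try ring

theorem aff_robin (D : Domain 2) {c : ℝ} (hc : 0 < c) (a : E 2) (β Q : ℝ)
    (h : (affDomain D c hc a).robin (-β) ≤ (Q : EReal)) :
    D.robin (-(c * β)) ≤ ((c ^ 2 * Q : ℝ) : EReal) := by
  by_contra hcon
  push Not at hcon
  obtain ⟨r, hr1, hr2⟩ := EReal.lt_iff_exists_real_btwn.1 hcon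
  have hc2 : 0 < c ^ 2 := by positivity
  have hQ : Q < r / c ^ 2 := by
    rw [lt_div_iff₀ hc2]
    have := EReal.coe_lt_coe_iff.1 hr1
    linarith
  have h2 : (affDomain D c hc a).robin (-β) < ((r / c ^ 2 : ℝ) : EReal) :=
    lt_of_le_of_lt h (EReal.coe_lt_coe_iff.2 hQ)
  unfold Domain.robin at h2
  rw [sInf_lt_iff] at h2
  obtain ⟨q, ⟨u, hu, hpos, rfl⟩, hq⟩ := h2
  have h3 : (affDomain D c hc a).rayleigh (-β) u < r / c ^ 2 := EReal.coe_lt_coe_iff.1 hq
  have hpos' : 0 < ∫ x in D.carrier, (u (affT c hc a x)) ^ 2 := by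
    rw [aff_volume] at hpos
    exact (mul_pos_iff_of_pos_left hc2).1 hpos
  have h4 : D.robin (-(c * β)) ≤
      ((D.rayleigh (-(c * β)) (fun x => u (affT c hc a x)) : ℝ) : EReal) :=
    sInf_le ⟨fun x => u (affT c hc a x), hu.comp (affT_contDiff c hc a), hpos', rfl⟩
  rw [aff_rayleigh D c hc a β hu] at h4
  have h5 : c ^ 2 * (affDomain D c hc a).rayleigh (-β) u < r := by
    rw [lt_div_iff₀ hc2] at h3
    linarith
  exact absurd (lt_of_lt_of_le hr2 h4) (not_lt.2 (EReal.coe_le_coe_iff.2 h5.le))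

theorem exists_scale (D : Domain 2) {c : ℝ} (hc : 0 < c) : ∃ D' : Domain 2,
    D'.carrier = (fun x => c • x) '' D.carrier ∧
      ∀ β Q : ℝ, D'.robin (-β) ≤ (Q : EReal) →
        D.robin (-(c * β)) ≤ ((c ^ 2 * Q : ℝ) : EReal) := by
  refine ⟨affDomain D c hc 0, ?_, fun β Q h => aff_robin D hc 0 β Q h⟩
  show (fun x => c • x + 0) '' D.carrier = _
  simp only [add_zero]

theorem exists_translate (D : Domain 2) (a : E 2) : ∃ D' : Domain 2,
    D'.carrier = (fun x => x + a) '' D.carrier ∧
      ∀ β Q : ℝ, D'.robin (-β) ≤ (Q : EReal) → D.robin (-β) ≤ (Q : EReal) := by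
  refine ⟨affDomain D 1 one_pos a, ?_, fun β Q h => ?_⟩
  · show (fun x => (1 : ℝ) • x + a) '' D.carrier = _
    simp only [one_smul]
  · have := aff_robin D one_pos a β Q h
    simpa using this

theorem exists_scaled_body (B : Body) {c : ℝ} (hc : 0 < c) : ∃ B' : Body,
    (∀ θ, B'.h θ = c * B.h θ) ∧ B'.K = (fun x => c • x) '' B.K ∧ B'.area = c ^ 2 * B.area := by
  have hd1 : deriv (fun θ => c * B.h θ) = fun θ => c * deriv B.h θ := by
    funext θ
    exact deriv_const_mul_field c
  have hd2 : ∀ θ, deriv (deriv fun θ => c * B.h θ) θ = c * deriv (deriv B.h) θ := by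
    intro θ
    rw [hd1]
    exact deriv_const_mul_field c
  let B' : Body :=
    { h := fun θ => c * B.h θ
      smooth := contDiff_const.mul B.smooth
      per := fun θ => by show c * B.h (θ + 2 * Real.pi) = c * B.h θ; rw [B.per θ]
      pos := fun θ => by
        rw [hd2]
        have := B.pos θ
        nlinarith }
  have hρ : ∀ θ, B'.ρ θ = c * B.ρ θ := by
    intro θ
    show c * B.h θ + deriv (deriv fun θ => c * B.h θ) θ = c * (B.h θ + deriv (deriv B.h) θ)
    rw [hd2]
    ring
  have hdepth : ∀ x, B'.depth (c • x) = c * B.depth x := by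
    intro x
    show sInf (range fun θ => c * B.h θ - sp (c • x) θ) = c * sInf (range fun θ => B.h θ - sp x θ)
    have e : (fun θ => c * B.h θ - sp (c • x) θ) = fun θ => c * (B.h θ - sp x θ) := by
      funext θ
      rw [sp_smul]
      ring
    rw [e]
    exact (Real.mul_iInf_of_nonneg hc.le _).symm
  refine ⟨B', fun θ => rfl, ?_, ?_⟩
  · ext x
    constructor
    · intro hx
      refine ⟨c⁻¹ • x, ?_, ?_⟩
      · have h1 : 0 ≤ B'.depth (c • (c⁻¹ • x)) := by
          rw [smul_inv_smul₀ hc.ne']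
          exact hx
        rw [hdepth] at h1
        exact (mul_nonneg_iff_of_pos_left hc).1 h1
      · show c • (c⁻¹ • x) = x
        rw [smul_inv_smul₀ hc.ne']
    · rintro ⟨z, hz, rfl⟩
      show 0 ≤ B'.depth (c • z)
      rw [hdepth]
      exact mul_nonneg hc.le hz
  · show (1 / 2) * ∫ θ in (0 : ℝ)..2 * Real.pi, B'.h θ * B'.ρ θ =
      c ^ 2 * ((1 / 2) * ∫ θ in (0 : ℝ)..2 * Real.pi, B.h θ * B.ρ θ)
    have e : ∀ θ, B'.h θ * B'.ρ θ = c ^ 2 * (B.h θ * B.ρ θ) := by
      intro θ
      rw [hρ]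
      show c * B.h θ * (c * B.ρ θ) = _
      ring
    simp only [e]
    rw [intervalIntegral.integral_const_mul]
    ring

end Pool.Agent.RC
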