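import Pool.Agent.H.MP_1b807b_an.C.Defs
import Pool.Agent.H.MP_1b807b_an.G.Moll

/-! MP_1b807b_an, convex planar domains, module RobinTest: Lipschitz test functions `V v` -/

set_option autoImplicit false

namespace Pool.Agent.RC

open MeasureTheory Metric Set Filter
open Pool.Agent.RG
open scoped RealInnerProductSpace Topology NNReal ENNReal

private theorem rt_tr_add (A B : E 2 →L[ℝ] E 2) : tr (A + B) = tr A + tr B := by
  unfold tr
  rw [← Finset.sum_add_distrib]
  rfl

private theorem rt_tr_smul (c : ℝ) (A : E 2 →L[ℝ] E 2) : tr (c • A) = c * tr A := by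
  unfold tr
  rw [Finset.mul_sum]
  rfl

private theorem rt_tr_smulRight (L : E 2 →L[ℝ] ℝ) (v : E 2) : tr (L.smulRight v) = L v := by
  unfold tr
  have h1 : v = ∑ i : Fin 2, v i • EuclideanSpace.single i (1 : ℝ) := by
    ext j
    fin_cases j <;> simp
  calc ∑ i : Fin 2, (L.smulRight v (EuclideanSpace.single i 1)) i
      = ∑ i : Fin 2, v i * L (EuclideanSpace.single i 1) := by
        refine Finset.sum_congr rfl (fun i _ => ?_)
        simp [ContinuousLinearMap.smulRight_apply, mul_comm]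
    _ = L (∑ i : Fin 2, v i • EuclideanSpace.single i (1 : ℝ)) := by
        rw [map_sum]
        refine Finset.sum_congr rfl (fun i _ => ?_)
        rw [map_smul, smul_eq_mul]
    _ = L v := by rw [← h1]

private theorem rt_tr_cont : Continuous (fun A : E 2 →L[ℝ] E 2 => tr A) := by
  unfold tr
  refine continuous_finsetSum _ (fun i _ => ?_)
  have h1 : Continuous (fun A : E 2 →L[ℝ] E 2 => A (EuclideanSpace.single i (1 : ℝ))) :=
    (ContinuousLinearMap.apply ℝ (E 2) (EuclideanSpace.single i (1 : ℝ))).continuous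
  exact (EuclideanSpace.proj (𝕜 := ℝ) i).continuous.comp h1

/-- smooth approximation of a scalar Lipschitz function on a bounded open set -/
private theorem rt_smooth {v : E 2 → ℝ} {K : ℝ≥0} (hv : LipschitzWith K v) {S : Set (E 2)}
    (hS : Bornology.IsBounded S) :
    ∃ (w : ℕ → E 2 → ℝ) (R : ℝ), (∀ j, ContDiff ℝ 1 (w j)) ∧ (∀ j x, |w j x| ≤ R) ∧
      (∀ j x, ‖fderiv ℝ (w j) x‖ ≤ R) ∧
      (∀ x ∈ closure S, Tendsto (fun j => w j x) atTop (𝓝 (v x))) ∧
      ∀ᵐ x : E 2, x ∈ S → Tendsto (fun j => fderiv ℝ (w j) x) atTop (𝓝 (fderiv ℝ v x)) := by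
  obtain ⟨ρ, hρ⟩ := hS.subset_closedBall (0 : E 2)
  obtain ⟨R, hR⟩ := (isCompact_closedBall (0 : E 2) (ρ + 1)).exists_bound_of_continuousOn
    hv.continuous.continuousOn
  set e0 : E 2 := EuclideanSpace.single 0 1 with he0
  have hne : ‖e0‖ = 1 := by simp [he0]
  set v' : E 2 → ℝ := fun x => max (min (v x) R) (-R) with hv'
  have hv'L : LipschitzWith K v' := (hv.min_const R).max_const (-R)
  have hv'R : ∀ x, |v' x| ≤ |R| := by
    intro x
    rw [hv']
    simp only
    rw [abs_le]
    constructor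
    · exact (neg_le_neg (le_abs_self R)).trans (le_max_right _ _)
    · exact max_le ((min_le_right _ _).trans (le_abs_self R)) (neg_le_abs R)
  have hv'eq : ∀ x ∈ closedBall (0 : E 2) (ρ + 1), v' x = v x := by
    intro x hx
    have h1 := hR x hx
    rw [Real.norm_eq_abs, abs_le] at h1
    rw [hv']
    simp only
    rw [min_eq_left h1.2, max_eq_left h1.1]
  set T : E 2 → E 2 := fun x => v' x • e0 with hT
  have hTL : LipschitzWith K T := by
    refine LipschitzWith.of_dist_le_mul fun x y => ?_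
    rw [hT]
    simp only
    rw [dist_eq_norm, ← sub_smul, norm_smul, hne, mul_one, ← dist_eq_norm]
    exact hv'L.dist_le_mul x y
  have hTR : ∀ x, ‖T x‖ ≤ |R| := by
    intro x
    rw [hT]
    simp only
    rw [norm_smul, hne, mul_one, Real.norm_eq_abs]
    exact hv'R x
  obtain ⟨S', hS1, hS2, hS3, hS4, hS5⟩ := exists_smooth hTL hTR
  set P : E 2 →L[ℝ] ℝ := EuclideanSpace.proj (𝕜 := ℝ) (0 : Fin 2) with hP
  have hPe : P e0 = 1 := by simp [hP, he0]
  have hfd : ∀ j x, fderiv ℝ (fun x => P (S' j x)) x = P.comp (fderiv ℝ (S' j) x) := by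
    intro j x
    exact (P.hasFDerivAt.comp x (((hS1 j).differentiable one_ne_zero) x).hasFDerivAt).fderiv
  have hcl : closure S ⊆ closedBall (0 : E 2) ρ := closure_minimal hρ isClosed_closedBall
  refine ⟨fun j x => P (S' j x), max (‖P‖ * |R|) (‖P‖ * K), fun j => P.contDiff.comp (hS1 j),
    fun j x => ?_, fun j x => ?_, fun x hx => ?_, ?_⟩
  · refine le_trans ?_ (le_max_left _ _)
    rw [← Real.norm_eq_abs]
    exact (P.le_opNorm _).trans (mul_le_mul_of_nonneg_left (hS2 j x) (norm_nonneg _))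
  · refine le_trans ?_ (le_max_right _ _)
    rw [hfd]
    exact (ContinuousLinearMap.opNorm_comp_le _ _).trans
      (mul_le_mul_of_nonneg_left (hS3 j x) (norm_nonneg _))
  · have h1 : v x = P (T x) := by
      rw [hT]
      simp only
      rw [map_smul, hPe, smul_eq_mul, mul_one, hv'eq x]
      exact closedBall_subset_closedBall (by linarith) (hcl hx)
    rw [h1]
    exact (P.continuous.tendsto _).comp (hS4 x)
  · filter_upwards [hS5, hv.ae_differentiableAt] with x hx hdx hxS
    have h2 : HasFDerivAt (fun y => v y • e0) ((fderiv ℝ v x).smulRight e0) x :=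
      hdx.hasFDerivAt.smul_const e0
    have h3 : T =ᶠ[𝓝 x] fun y => v y • e0 := by
      have hxb : x ∈ ball (0 : E 2) (ρ + 1) := by
        have := hρ hxS
        rw [mem_closedBall] at this
        rw [mem_ball]
        linarith
      filter_upwards [isOpen_ball.mem_nhds hxb] with y hy
      rw [hT]
      simp only
      rw [hv'eq y (ball_subset_closedBall hy)]
    have h4 : fderiv ℝ T x = (fderiv ℝ v x).smulRight e0 := (h2.congr_of_eventuallyEq h3).fderiv
    have h5 : fderiv ℝ v x = P.comp (fderiv ℝ T x) := by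
      rw [h4]
      ext w
      simp [hPe]
    rw [h5]
    simp_rw [hfd]
    have hc : Continuous fun A : E 2 →L[ℝ] E 2 => P.comp A :=
      (ContinuousLinearMap.compL ℝ (E 2) (E 2) ℝ P).continuous
    exact (hc.tendsto _).comp hx

/-- the pointwise energy identity -/
private theorem rt_energy {V w : E 2 → ℝ} {Z : E 2 → E 2} (hV : ContDiff ℝ 1 V)
    (hZ : ContDiff ℝ 1 Z) (hw : ContDiff ℝ 1 w)
    (hVZ : ∀ x v, ⟪Z x, v⟫ = V x * fderiv ℝ V x v) (x : E 2) :
    ‖fderiv ℝ (fun x => V x * w x) x‖ ^ 2 = V x ^ 2 * ‖fderiv ℝ w x‖ ^ 2 +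
      divg (fun x => w x ^ 2 • Z x) x - (divg Z x - ‖fderiv ℝ V x‖ ^ 2) * w x ^ 2 := by
  have dV : HasFDerivAt V (fderiv ℝ V x) x := ((hV.differentiable one_ne_zero) x).hasFDerivAt
  have dw : HasFDerivAt w (fderiv ℝ w x) x := ((hw.differentiable one_ne_zero) x).hasFDerivAt
  have dZ : HasFDerivAt Z (fderiv ℝ Z x) x := ((hZ.differentiable one_ne_zero) x).hasFDerivAt
  have h1 : fderiv ℝ (fun x => V x * w x) x = V x • fderiv ℝ w x + w x • fderiv ℝ V x :=
    (dV.mul dw).fderiv
  have h2 : divg (fun x => w x ^ 2 • Z x) x = w x ^ 2 * divg Z x + 2 * w x * fderiv ℝ w x (Z x) := by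
    have h3 : HasFDerivAt (fun x => w x ^ 2) ((2 * w x) • fderiv ℝ w x) x := by
      have h := dw.pow 2
      simpa using h
    have h4 : HasFDerivAt (fun x => w x ^ 2 • Z x) (w x ^ 2 • fderiv ℝ Z x +
        ((2 * w x) • fderiv ℝ w x).smulRight (Z x)) x := h3.smul dZ
    unfold divg
    rw [h4.fderiv, rt_tr_add, rt_tr_smul, rt_tr_smulRight]
    simp
  -- gradients
  obtain ⟨a, ha⟩ : ∃ a : E 2, ∀ y, fderiv ℝ w x y = ⟪a, y⟫ :=
    ⟨(InnerProductSpace.toDual ℝ (E 2)).symm (fderiv ℝ w x), fun y => by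
      rw [InnerProductSpace.toDual_symm_apply]⟩
  obtain ⟨b, hb⟩ : ∃ b : E 2, ∀ y, fderiv ℝ V x y = ⟪b, y⟫ :=
    ⟨(InnerProductSpace.toDual ℝ (E 2)).symm (fderiv ℝ V x), fun y => by
      rw [InnerProductSpace.toDual_symm_apply]⟩
  have ha' : fderiv ℝ w x = innerSL ℝ a := by ext1 y; rw [ha]; rfl
  have hb' : fderiv ℝ V x = innerSL ℝ b := by ext1 y; rw [hb]; rfl
  have hZb : Z x = V x • b := by
    refine ext_inner_right ℝ fun y => ?_
    rw [hVZ, hb, real_inner_smul_left]
  have h5 : V x • fderiv ℝ w x + w x • fderiv ℝ V x = innerSL ℝ (V x • a + w x • b) := by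
    ext1 y
    rw [ha', hb']
    simp [inner_add_left, real_inner_smul_left]
  rw [h1, h2, h5, innerSL_apply_norm, ha', hb', innerSL_apply_norm, innerSL_apply_norm,
    innerSL_apply_apply, hZb, real_inner_smul_right, norm_add_sq_real, norm_smul, norm_smul,
    real_inner_smul_left, real_inner_smul_right, mul_pow, mul_pow, Real.norm_eq_abs,
    Real.norm_eq_abs, sq_abs, sq_abs]
  ring

theorem robin_test (D : Domain 2) {β Q C : ℝ} {V : E 2 → ℝ} {Z : E 2 → E 2}
    (hV : ContDiff ℝ 1 V) (hZ : ContDiff ℝ 1 Z) (hVZ : ∀ x v, ⟪Z x, v⟫ = V x * fderiv ℝ V x v)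
    {v G : E 2 → ℝ} (hv : ∀ x x', |v x - v x'| ≤ C * ‖x - x'‖) (hG : Measurable G)
    (hG0 : ∀ x, 0 ≤ G x ∧ G x ≤ C) (hvG : ∀ᵐ x, ‖fderiv ℝ v x‖ ^ 2 ≤ G x)
    (hb : ∀ x ∈ frontier D.carrier, v x = 1)
    (hpos : 0 < ∫ x in D.carrier, V x ^ 2 * v x ^ 2)
    (hQ : (∫ x in D.carrier, V x ^ 2 * G x) + (∫ x in D.carrier, divg Z x)
      - (∫ x in D.carrier, (divg Z x - ‖fderiv ℝ V x‖ ^ 2) * v x ^ 2)
      - β * (∫ x, V x ^ 2 ∂D.surface) ≤ Q * ∫ x in D.carrier, V x ^ 2 * v x ^ 2) :
    D.robin (-β) ≤ (Q : EReal) := by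
  have hC0 : 0 ≤ C := (hG0 0).1.trans (hG0 0).2
  have hvL : LipschitzWith ⟨C, hC0⟩ v := by
    refine LipschitzWith.of_dist_le_mul fun x y => ?_
    rw [Real.dist_eq, dist_eq_norm]
    exact hv x y
  obtain ⟨w, R, hw1, hwR, hwR', hwt, hwd⟩ := rt_smooth hvL D.isBounded
  have hR0 : 0 ≤ R := (abs_nonneg _).trans (hwR 0 0)
  have hfin : IsFiniteMeasure (volume.restrict D.carrier) :=
    ⟨by rw [Measure.restrict_apply_univ]; exact D.isBounded.measure_lt_top⟩
  have hfin' := D.isFinite
  have hms : MeasurableSet D.carrier := D.isOpen.measurableSet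
  have hcomp : IsCompact (closure D.carrier) := D.isBounded.isCompact_closure
  have hsupp : ∀ᵐ x ∂D.surface, x ∈ frontier D.carrier := D.support
  have hmem : ∀ᵐ x ∂(volume.restrict D.carrier), x ∈ D.carrier := ae_restrict_mem hms
  -- continuity and bounds
  have cV : Continuous V := hV.continuous
  have cV' : Continuous (fderiv ℝ V) := hV.continuous_fderiv one_ne_zero
  have cZ : Continuous Z := hZ.continuous
  have cdZ : Continuous (divg Z) := rt_tr_cont.comp (hZ.continuous_fderiv one_ne_zero)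
  have cE : Continuous fun x => divg Z x - ‖fderiv ℝ V x‖ ^ 2 := cdZ.sub (cV'.norm.pow 2)
  obtain ⟨C1, hC1⟩ := hcomp.exists_bound_of_continuousOn (f := V) cV.continuousOn
  obtain ⟨C2, hC2⟩ := hcomp.exists_bound_of_continuousOn
    (f := fun x => divg Z x - ‖fderiv ℝ V x‖ ^ 2) cE.continuousOn
  obtain ⟨C3, hC3⟩ := hcomp.exists_bound_of_continuousOn (f := Z) cZ.continuousOn
  have hV2 : ∀ x ∈ closure D.carrier, V x ^ 2 ≤ C1 ^ 2 := by
    intro x hx
    have h := hC1 x hx
    rw [Real.norm_eq_abs] at h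
    rw [← sq_abs]
    exact pow_le_pow_left₀ (abs_nonneg _) h 2
  have hw2 : ∀ j x, w j x ^ 2 ≤ R ^ 2 := by
    intro j x
    rw [← sq_abs]
    exact pow_le_pow_left₀ (abs_nonneg _) (hwR j x) 2
  -- the five limits
  have l1 : Tendsto (fun j => ∫ x in D.carrier, V x ^ 2 * ‖fderiv ℝ (w j) x‖ ^ 2) atTop
      (𝓝 (∫ x in D.carrier, V x ^ 2 * ‖fderiv ℝ v x‖ ^ 2)) := by
    refine tendsto_integral_of_dominated_convergence (fun _ => C1 ^ 2 * R ^ 2) (fun j => ?_)
      (integrable_const _) (fun j => ?_) ?_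
    · exact ((cV.pow 2).mul
        (((hw1 j).continuous_fderiv one_ne_zero).norm.pow 2)).aestronglyMeasurable
    · filter_upwards [hmem] with x hx
      rw [Real.norm_of_nonneg (by positivity)]
      exact mul_le_mul (hV2 x (subset_closure hx))
        (pow_le_pow_left₀ (norm_nonneg _) (hwR' j x) 2) (by positivity) (by positivity)
    · filter_upwards [hmem, ae_restrict_of_ae hwd] with x hx hx'
      exact ((hx' hx).norm.pow 2).const_mul _
  have l2 : Tendsto (fun j => ∫ x, w j x ^ 2 * ⟪Z x, D.normal x⟫ ∂D.surface) atTop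
      (𝓝 (∫ x, ⟪Z x, D.normal x⟫ ∂D.surface)) := by
    refine tendsto_integral_of_dominated_convergence (fun _ => R ^ 2 * C3) (fun j => ?_)
      (integrable_const _) (fun j => ?_) ?_
    · exact (((hw1 j).continuous.pow 2).measurable.mul
        (cZ.measurable.inner D.measurable_normal)).aestronglyMeasurable
    · filter_upwards [hsupp, D.norm_normal] with x hx hx'
      rw [norm_mul, Real.norm_of_nonneg (by positivity : (0 : ℝ) ≤ w j x ^ 2)]
      have h1 : ‖⟪Z x, D.normal x⟫‖ ≤ C3 := by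
        refine (norm_inner_le_norm _ _).trans ?_
        rw [hx', mul_one]
        exact hC3 x (frontier_subset_closure hx)
      exact mul_le_mul (hw2 j x) h1 (norm_nonneg _) (by positivity)
    · filter_upwards [hsupp] with x hx
      have h1 := ((hwt x (frontier_subset_closure hx)).pow 2).mul_const ⟪Z x, D.normal x⟫
      rwa [hb x hx, one_pow, one_mul] at h1
  have l3 : Tendsto (fun j => ∫ x in D.carrier, (divg Z x - ‖fderiv ℝ V x‖ ^ 2) * w j x ^ 2) atTop
      (𝓝 (∫ x in D.carrier, (divg Z x - ‖fderiv ℝ V x‖ ^ 2) * v x ^ 2)) := by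
    refine tendsto_integral_of_dominated_convergence (fun _ => C2 * R ^ 2) (fun j => ?_)
      (integrable_const _) (fun j => ?_) ?_
    · exact (cE.mul ((hw1 j).continuous.pow 2)).aestronglyMeasurable
    · filter_upwards [hmem] with x hx
      rw [norm_mul, Real.norm_of_nonneg (by positivity : (0 : ℝ) ≤ w j x ^ 2)]
      exact mul_le_mul (hC2 x (subset_closure hx)) (hw2 j x) (by positivity)
        ((norm_nonneg _).trans (hC2 x (subset_closure hx)))
    · filter_upwards [hmem] with x hx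
      exact ((hwt x (subset_closure hx)).pow 2).const_mul _
  have l4 : Tendsto (fun j => ∫ x, (V x * w j x) ^ 2 ∂D.surface) atTop
      (𝓝 (∫ x, V x ^ 2 ∂D.surface)) := by
    refine tendsto_integral_of_dominated_convergence (fun _ => C1 ^ 2 * R ^ 2) (fun j => ?_)
      (integrable_const _) (fun j => ?_) ?_
    · exact ((cV.mul (hw1 j).continuous).pow 2).aestronglyMeasurable
    · filter_upwards [hsupp] with x hx
      rw [Real.norm_of_nonneg (by positivity), mul_pow]
      exact mul_le_mul (hV2 x (frontier_subset_closure hx)) (hw2 j x) (by positivity)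
        (by positivity)
    · filter_upwards [hsupp] with x hx
      have h1 := ((hwt x (frontier_subset_closure hx)).const_mul (V x)).pow 2
      rwa [hb x hx, mul_one] at h1
  have l5 : Tendsto (fun j => ∫ x in D.carrier, (V x * w j x) ^ 2) atTop
      (𝓝 (∫ x in D.carrier, V x ^ 2 * v x ^ 2)) := by
    refine tendsto_integral_of_dominated_convergence (fun _ => C1 ^ 2 * R ^ 2) (fun j => ?_)
      (integrable_const _) (fun j => ?_) ?_
    · exact ((cV.mul (hw1 j).continuous).pow 2).aestronglyMeasurable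
    · filter_upwards [hmem] with x hx
      rw [Real.norm_of_nonneg (by positivity), mul_pow]
      exact mul_le_mul (hV2 x (subset_closure hx)) (hw2 j x) (by positivity) (by positivity)
    · filter_upwards [hmem] with x hx
      have h1 := ((hwt x (subset_closure hx)).const_mul (V x)).pow 2
      rwa [mul_pow] at h1
  -- the numerator
  have intD : ∀ {f : E 2 → ℝ}, Continuous f → IntegrableOn f D.carrier := fun hf =>
    (hf.continuousOn.integrableOn_compact hcomp).mono_set subset_closure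
  have hnum : ∀ j, (∫ x in D.carrier, ‖fderiv ℝ (fun x => V x * w j x) x‖ ^ 2) =
      (∫ x in D.carrier, V x ^ 2 * ‖fderiv ℝ (w j) x‖ ^ 2) +
      (∫ x, w j x ^ 2 * ⟪Z x, D.normal x⟫ ∂D.surface) -
      ∫ x in D.carrier, (divg Z x - ‖fderiv ℝ V x‖ ^ 2) * w j x ^ 2 := by
    intro j
    have hX : ContDiff ℝ 1 fun x => w j x ^ 2 • Z x := ((hw1 j).pow 2).smul hZ
    have h1 := D.divergence _ hX
    have h2 : (∫ x, ⟪w j x ^ 2 • Z x, D.normal x⟫ ∂D.surface) =
        ∫ x, w j x ^ 2 * ⟪Z x, D.normal x⟫ ∂D.surface := by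
      refine integral_congr_ae (Eventually.of_forall fun x => ?_)
      simp only
      rw [real_inner_smul_left]
    rw [h2] at h1
    rw [← h1]
    have i1 : IntegrableOn (fun x => V x ^ 2 * ‖fderiv ℝ (w j) x‖ ^ 2) D.carrier :=
      intD ((cV.pow 2).mul (((hw1 j).continuous_fderiv one_ne_zero).norm.pow 2))
    have i2 : IntegrableOn (divg fun x => w j x ^ 2 • Z x) D.carrier :=
      intD (rt_tr_cont.comp (hX.continuous_fderiv one_ne_zero))
    have i3 : IntegrableOn (fun x => (divg Z x - ‖fderiv ℝ V x‖ ^ 2) * w j x ^ 2) D.carrier :=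
      intD (cE.mul ((hw1 j).continuous.pow 2))
    calc (∫ x in D.carrier, ‖fderiv ℝ (fun x => V x * w j x) x‖ ^ 2)
        = ∫ x in D.carrier, ((V x ^ 2 * ‖fderiv ℝ (w j) x‖ ^ 2 +
            divg (fun x => w j x ^ 2 • Z x) x) -
            (divg Z x - ‖fderiv ℝ V x‖ ^ 2) * w j x ^ 2) :=
          integral_congr_ae (Eventually.of_forall fun x => rt_energy hV hZ (hw1 j) hVZ x)
      _ = (∫ x in D.carrier, (V x ^ 2 * ‖fderiv ℝ (w j) x‖ ^ 2 +
            divg (fun x => w j x ^ 2 • Z x) x)) -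
            ∫ x in D.carrier, (divg Z x - ‖fderiv ℝ V x‖ ^ 2) * w j x ^ 2 :=
          integral_sub (i1.add i2) i3
      _ = _ := by rw [integral_add i1 i2]
  -- the Rayleigh quotients
  set A : ℝ := ∫ x in D.carrier, V x ^ 2 * v x ^ 2 with hA
  set N : ℝ := (∫ x in D.carrier, V x ^ 2 * ‖fderiv ℝ v x‖ ^ 2) +
      (∫ x, ⟪Z x, D.normal x⟫ ∂D.surface) -
      (∫ x in D.carrier, (divg Z x - ‖fderiv ℝ V x‖ ^ 2) * v x ^ 2) +
      (-β) * ∫ x, V x ^ 2 ∂D.surface with hN
  have lq : Tendsto (fun j => D.rayleigh (-β) (fun x => V x * w j x)) atTop (𝓝 (N / A)) := by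
    unfold Domain.rayleigh
    refine Tendsto.div ?_ l5 hpos.ne'
    refine Tendsto.add ?_ (l4.const_mul _)
    simp_rw [hnum]
    exact (l1.add l2).sub l3
  have hev : ∀ᶠ j in atTop, D.robin (-β) ≤ (D.rayleigh (-β) (fun x => V x * w j x) : EReal) := by
    filter_upwards [l5.eventually (lt_mem_nhds hpos)] with j hj
    exact sInf_le ⟨fun x => V x * w j x, hV.mul (hw1 j), hj, rfl⟩
  have lq' : Tendsto (fun j => (D.rayleigh (-β) (fun x => V x * w j x) : EReal)) atTop
      (𝓝 ((N / A : ℝ) : EReal)) := (continuous_coe_real_ereal.tendsto _).comp lq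
  have h1 : D.robin (-β) ≤ ((N / A : ℝ) : EReal) := ge_of_tendsto lq' hev
  refine h1.trans (EReal.coe_le_coe_iff.2 ?_)
  rw [div_le_iff₀ hpos]
  refine le_trans ?_ hQ
  rw [hN, ← D.divergence Z hZ]
  have h2 : (∫ x in D.carrier, V x ^ 2 * ‖fderiv ℝ v x‖ ^ 2) ≤
      ∫ x in D.carrier, V x ^ 2 * G x := by
    refine integral_mono_ae ?_ ?_ ?_
    · refine Integrable.of_bound (C := C1 ^ 2 * C ^ 2) ?_ ?_
      · exact ((cV.pow 2).measurable.mul
          ((measurable_fderiv ℝ v).norm.pow_const 2)).aestronglyMeasurable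
      · filter_upwards [hmem] with x hx
        rw [Real.norm_of_nonneg (by positivity)]
        have h3 : ‖fderiv ℝ v x‖ ≤ C := norm_fderiv_le_of_lipschitz ℝ hvL
        exact mul_le_mul (hV2 x (subset_closure hx)) (pow_le_pow_left₀ (norm_nonneg _) h3 2)
          (by positivity) (by positivity)
    · refine Integrable.of_bound (C := C1 ^ 2 * C) ?_ ?_
      · exact ((cV.pow 2).measurable.mul hG).aestronglyMeasurable
      · filter_upwards [hmem] with x hx
        rw [Real.norm_of_nonneg (mul_nonneg (by positivity) (hG0 x).1)]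
        exact mul_le_mul (hV2 x (subset_closure hx)) (hG0 x).2 (hG0 x).1 (by positivity)
    · filter_upwards [ae_restrict_of_ae hvG] with x hx
      exact mul_le_mul_of_nonneg_left hx (by positivity)
  linarith

end Pool.Agent.RC
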