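import Pool.Agent.H.MP_1b807b_an.C.Depth

/-! MP_1b807b_an, convex planar domains, module Outer: normal coordinates outside of the body -/

set_option autoImplicit false

namespace Pool.Agent.RC

open MeasureTheory Metric Set
open Pool.Agent.RG
open scoped RealInnerProductSpace ENNReal

/-- the plane in coordinates -/
noncomputable def outG (w : ℝ × ℝ) : E 2 := !₂[w.1, w.2]

theorem outG_mp : MeasurePreserving outG := by
  have h1 := (PiLp.volume_preserving_toLp (Fin 2)).comp
    (volume_preserving_finTwoArrow ℝ).symm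
  have h2 : outG = (WithLp.toLp 2) ∘ (MeasurableEquiv.finTwoArrow (α := ℝ)).symm := by
    funext w
    ext i
    fin_cases i <;> rfl
  rw [h2]
  exact h1

theorem outG_inj : Function.Injective outG := by
  rintro ⟨a, b⟩ ⟨c, d⟩ h
  have h0 : outG (a, b) 0 = outG (c, d) 0 := by rw [h]
  have h1 : outG (a, b) 1 = outG (c, d) 1 := by rw [h]
  have h2 : a = c := by simpa [outG] using h0
  have h3 : b = d := by simpa [outG] using h1
  rw [h2, h3]

namespace Body

variable (B : Body)

/-- normal coordinates, in coordinates of the plane -/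
noncomputable def outP (z : ℝ × ℝ) : ℝ × ℝ :=
  (sp (B.y z.1) 0 + z.2 * Real.cos z.1, sp (B.y z.1) (Real.pi / 2) + z.2 * Real.sin z.1)

theorem outG_outP (z : ℝ × ℝ) : outG (B.outP z) = B.y z.1 + z.2 • ev z.1 := by
  ext i
  fin_cases i <;> simp [outG, outP, sp, ev]

/-- the derivative of the normal coordinates -/
noncomputable def outD (z : ℝ × ℝ) : ℝ × ℝ →L[ℝ] ℝ × ℝ :=
  LinearMap.toContinuousLinearMap (Matrix.toLin (Module.Basis.finTwoProd ℝ)
    (Module.Basis.finTwoProd ℝ)
    !![-((B.ρ z.1 + z.2) * Real.sin z.1), Real.cos z.1;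
      (B.ρ z.1 + z.2) * Real.cos z.1, Real.sin z.1])

theorem outD_det (z : ℝ × ℝ) : (B.outD z).det = -(B.ρ z.1 + z.2) := by
  have h1 : (B.outD z).det = Matrix.det !![-((B.ρ z.1 + z.2) * Real.sin z.1), Real.cos z.1;
      (B.ρ z.1 + z.2) * Real.cos z.1, Real.sin z.1] := by
    rw [ContinuousLinearMap.det, outD]
    simp only [LinearMap.coe_toContinuousLinearMap, LinearMap.det_toLin]
  rw [h1, Matrix.det_fin_two_of]
  have := Real.sin_sq_add_cos_sq z.1
  linear_combination -(B.ρ z.1 + z.2) * this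

theorem outP_deriv (z : ℝ × ℝ) : HasFDerivAt B.outP (B.outD z) z := by
  unfold outD
  rw [Matrix.toLin_finTwoProd_toContinuousLinearMap]
  have h1 : HasFDerivAt (fun z : ℝ × ℝ => sp (B.y z.1) 0)
      (-(B.ρ z.1 * Real.sin (z.1 - 0)) • ContinuousLinearMap.fst ℝ ℝ ℝ) z :=
    (B.hasDerivAt_sp_y 0 z.1).comp_hasFDerivAt z hasFDerivAt_fst
  have h2 : HasFDerivAt (fun z : ℝ × ℝ => sp (B.y z.1) (Real.pi / 2))
      (-(B.ρ z.1 * Real.sin (z.1 - Real.pi / 2)) • ContinuousLinearMap.fst ℝ ℝ ℝ) z :=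
    (B.hasDerivAt_sp_y (Real.pi / 2) z.1).comp_hasFDerivAt z hasFDerivAt_fst
  have h3 : HasFDerivAt (fun z : ℝ × ℝ => Real.cos z.1)
      (-Real.sin z.1 • ContinuousLinearMap.fst ℝ ℝ ℝ) z :=
    (Real.hasDerivAt_cos z.1).comp_hasFDerivAt z hasFDerivAt_fst
  have h4 : HasFDerivAt (fun z : ℝ × ℝ => Real.sin z.1)
      (Real.cos z.1 • ContinuousLinearMap.fst ℝ ℝ ℝ) z :=
    (Real.hasDerivAt_sin z.1).comp_hasFDerivAt z hasFDerivAt_fst
  have h5 : HasFDerivAt (fun z : ℝ × ℝ => z.2) (ContinuousLinearMap.snd ℝ ℝ ℝ) z :=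
    hasFDerivAt_snd
  have h6 := (h1.add (h5.mul h3)).prodMk (h2.add (h5.mul h4))
  refine h6.congr_fderiv ?_
  rw [sub_zero, Real.sin_sub_pi_div_two]
  ext <;> simp <;> ring

theorem outer_inj : InjOn B.outP (Ioc 0 (2 * Real.pi) ×ˢ Ioi 0) := by
  rintro ⟨θ, t⟩ ⟨h1, h2⟩ ⟨φ, s⟩ ⟨h3, h4⟩ h
  simp only [mem_Ioc, mem_Ioi] at h1 h2 h3 h4
  have h5 := congrArg outG h
  rw [outG_outP, outG_outP] at h5
  simp only at h5
  have h6 := B.depth_out θ h2.le
  have h7 := B.depth_out φ h4.le
  rw [h5, h7] at h6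
  have hts : t = s := by linarith
  subst hts
  have h8 : sp (B.y θ + t • ev θ) φ = B.h φ + t := by
    rw [h5, sp_add, sp_smul, sp_ev, sub_self, Real.cos_zero, mul_one, B.sp_y]
  rw [sp_add, sp_smul, sp_ev] at h8
  have h9 : Real.cos (φ - θ) = 1 := by
    by_contra hcon
    have h10 := B.sp_y_lt hcon
    have h11 : t * Real.cos (θ - φ) ≤ t := by
      have := Real.cos_le_one (θ - φ)
      nlinarith
    linarith
  have h10 : φ - θ = 0 := by
    rw [Real.cos_eq_one_iff_of_lt_of_lt (by linarith) (by linarith)] at h9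
    exact h9
  rw [show φ = θ by linarith]

theorem outer_image : B.outP '' (Ioc 0 (2 * Real.pi) ×ˢ Ioi 0) =
    outG ⁻¹' {x | B.depth x < 0} := by
  ext w
  constructor
  · rintro ⟨⟨θ, t⟩, ⟨h1, h2⟩, rfl⟩
    simp only [mem_Ioi] at h2
    change B.depth (outG (B.outP (θ, t))) < 0
    rw [outG_outP, B.depth_out θ (le_of_lt h2)]
    linarith
  · intro hw
    change B.depth (outG w) < 0 at hw
    obtain ⟨θ, hθ, h1, h2⟩ := B.exists_foot (outG w)
    have h3 : outG w = B.y θ + (-B.depth (outG w)) • ev θ := by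
      rw [h2]
      module
    have hinj : ∀ z, outG w = B.y z + (-B.depth (outG w)) • ev z →
        B.outP (z, -B.depth (outG w)) = w := by
      intro z hz
      have h4 := B.outG_outP (z, -B.depth (outG w))
      simp only at h4
      rw [← hz] at h4
      exact outG_inj h4
    rcases eq_or_lt_of_le hθ.1 with h4 | h4
    · refine ⟨(2 * Real.pi, -B.depth (outG w)), ⟨⟨by positivity, le_rfl⟩, ?_⟩, hinj _ ?_⟩
      · simp only [mem_Ioi]
        linarith
      · rw [← h4] at h3
        have h5 : B.y (2 * Real.pi) = B.y 0 := by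
          have := B.per_y 0
          rwa [zero_add] at this
        have h6 : ev (2 * Real.pi) = ev 0 := by
          simp [ev]
        rw [h5, h6]
        exact h3
    · refine ⟨(θ, -B.depth (outG w)), ⟨⟨h4, hθ.2.le⟩, ?_⟩, hinj _ h3⟩
      simp only [mem_Ioi]
      linarith

theorem outer_meas : MeasurableSet {x | B.depth x < 0} := by
  have h1 : Continuous B.depth := by
    have h2 : LipschitzWith 1 B.depth := by
      refine LipschitzWith.of_dist_le_mul fun x x' => ?_
      rw [Real.dist_eq, dist_eq_norm, NNReal.coe_one, one_mul]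
      exact B.depth_lip x x'
    exact h2.continuous
  exact (isOpen_lt h1 continuous_const).measurableSet

/-- **Integration in normal coordinates** over the outer region. -/
theorem outer (F : E 2 → ℝ≥0∞) (hF : Measurable F) :
    ∫⁻ x in {x | B.depth x < 0}, F x =
      ∫⁻ z : ℝ × ℝ in Ioc 0 (2 * Real.pi) ×ˢ Ioi 0,
        F (B.y z.1 + z.2 • ev z.1) * ENNReal.ofReal (B.ρ z.1 + z.2) := by
  have hs : MeasurableSet (Ioc (0 : ℝ) (2 * Real.pi) ×ˢ Ioi (0 : ℝ)) :=
    measurableSet_Ioc.prod measurableSet_Ioi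
  rw [← outG_mp.setLIntegral_comp_preimage B.outer_meas hF, ← B.outer_image,
    lintegral_image_eq_lintegral_abs_det_fderiv_mul volume hs
      (fun z _ => (B.outP_deriv z).hasFDerivWithinAt) B.outer_inj]
  refine setLIntegral_congr_fun hs ?_
  rintro z ⟨-, hz⟩
  simp only [mem_Ioi] at hz
  have h1 := B.ρ_pos z.1
  simp only
  rw [B.outD_det, abs_neg, abs_of_pos (by linarith), outG_outP, mul_comm]

end Body

end Pool.Agent.RC
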