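import Pool.Agent.H.MP_1b807b_an.C.Depth
import Pool.Agent.H.MP_1b807b_an.C.Outer
import Pool.Agent.H.MP_1b807b_an.G.Limit

/-! MP_1b807b_an, convex planar domains, module SurfaceGe: the weighted perimeter of a body inside a
domain is at most the weighted perimeter of the domain, up to the integral of the gradient of the
weight over the difference -/

set_option autoImplicit false

namespace Pool.Agent.RC

open MeasureTheory Metric Set Filter
open Pool.Agent.RG
open scoped RealInnerProductSpace ENNReal NNReal Topology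

namespace Body
variable (B : Body)

/-- the angle of the nearest boundary point -/
noncomputable def ft (x : E 2) : ℝ := (B.exists_foot x).choose

/-- the nearest point of the body -/
noncomputable def pj (x : E 2) : E 2 := if B.depth x < 0 then B.y (B.ft x) else x

/-- distance to the body -/
noncomputable def dd (x : E 2) : ℝ := max (-B.depth x) 0

theorem ft_spec (x : E 2) :
    B.depth x = B.h (B.ft x) - sp x (B.ft x) ∧ B.y (B.ft x) = x + B.depth x • ev (B.ft x) :=
  (B.exists_foot x).choose_spec.2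

theorem sub_pj_neg {x : E 2} (hx : B.depth x < 0) :
    x - B.pj x = (-B.depth x) • ev (B.ft x) := by
  rw [pj, if_pos hx, (B.ft_spec x).2]
  simp

theorem pj_mem (x : E 2) : B.pj x ∈ B.K := by
  rw [pj]
  split_ifs with h
  · exact B.y_mem _
  · exact not_lt.mp h

theorem norm_sub_pj (x : E 2) : ‖x - B.pj x‖ = B.dd x := by
  by_cases hx : B.depth x < 0
  · rw [B.sub_pj_neg hx, norm_smul, norm_ev, mul_one, Real.norm_eq_abs, abs_of_pos (by linarith), dd,
      max_eq_left (by linarith)]
  · rw [pj, if_neg hx, sub_self, norm_zero, dd, max_eq_right (by linarith)]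

theorem dd_nonneg (x : E 2) : 0 ≤ B.dd x := le_max_right _ _

theorem dd_lip (x x' : E 2) : |B.dd x - B.dd x'| ≤ ‖x - x'‖ := by
  have h1 := B.depth_lip x x'
  have h2 := abs_max_sub_max_le_abs (-B.depth x) (-B.depth x') 0
  rw [dd, dd]
  refine h2.trans ?_
  rw [show -B.depth x - -B.depth x' = -(B.depth x - B.depth x') by ring, abs_neg]
  exact h1

theorem inner_smul_ev_le {θ t : ℝ} (ht : 0 ≤ t) {z : E 2} (hz : z ∈ B.K) :
    ⟪t • ev θ, z - B.y θ⟫ ≤ 0 := by
  have h1 : (0 : ℝ) ≤ B.depth z := hz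
  have h2 := B.depth_le z θ
  have h3 : ⟪ev θ, z - B.y θ⟫ = sp z θ - B.h θ := by
    rw [real_inner_comm, ← sp_eq_inner, sp_sub, B.sp_y]
  rw [real_inner_smul_left, h3]
  nlinarith

theorem inner_pj_le (x : E 2) {z : E 2} (hz : z ∈ B.K) : ⟪x - B.pj x, z - B.pj x⟫ ≤ 0 := by
  by_cases hx : B.depth x < 0
  · rw [B.sub_pj_neg hx]
    have h1 : B.pj x = B.y (B.ft x) := by rw [pj, if_pos hx]
    rw [h1]
    exact B.inner_smul_ev_le (by linarith) hz
  · have h1 : B.pj x = x := by rw [pj, if_neg hx]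
    rw [h1, sub_self, inner_zero_left]

theorem pj_lip_aux {x x' p p' : E 2} (h : ⟪x - p, p' - p⟫ ≤ 0) (h' : ⟪x' - p', p - p'⟫ ≤ 0) :
    ‖p - p'‖ ≤ ‖x - x'‖ := by
  have h1 : ‖p - p'‖ ^ 2 ≤ ⟪x - x', p - p'⟫ := by
    have e1 : ⟪x - x', p - p'⟫ - ‖p - p'‖ ^ 2 = -⟪x - p, p' - p⟫ - ⟪x' - p', p - p'⟫ := by
      rw [← real_inner_self_eq_norm_sq]
      have e2 : x - x' = (x - p) - (x' - p') + (p - p') := by abel
      rw [e2, inner_add_left, inner_sub_left]
      have e3 : ⟪x - p, p' - p⟫ = -⟪x - p, p - p'⟫ := by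
        rw [← inner_neg_right, neg_sub]
      rw [e3]
      ring
    linarith
  have h2 := real_inner_le_norm (x - x') (p - p')
  by_contra hc
  push Not at hc
  have h3 : 0 < ‖p - p'‖ := (norm_nonneg _).trans_lt hc
  nlinarith [norm_nonneg (x - x')]

theorem pj_lip (x x' : E 2) : ‖B.pj x - B.pj x'‖ ≤ ‖x - x'‖ :=
  pj_lip_aux (B.inner_pj_le x (B.pj_mem x')) (B.inner_pj_le x' (B.pj_mem x))

theorem pj_add {x : E 2} (hx : B.depth x < 0) {t : ℝ} (ht : 0 ≤ t) :
    B.pj (x + t • ev (B.ft x)) = B.pj x := by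
  have h1 : B.pj x = B.y (B.ft x) := by rw [pj, if_pos hx]
  have h2 : ∀ z ∈ B.K, ⟪x + t • ev (B.ft x) - B.pj x, z - B.pj x⟫ ≤ 0 := by
    intro z hz
    have e1 : x + t • ev (B.ft x) - B.pj x = (-B.depth x + t) • ev (B.ft x) := by
      have := B.sub_pj_neg hx
      rw [add_smul, ← this]
      abel
    rw [e1, h1]
    exact B.inner_smul_ev_le (by linarith) hz
  have h3 := pj_lip_aux (x := x + t • ev (B.ft x)) (x' := x + t • ev (B.ft x))
    (B.inner_pj_le (x + t • ev (B.ft x)) (B.pj_mem x)) (h2 _ (B.pj_mem _))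
  rw [sub_self, norm_zero] at h3
  have h4 := norm_le_zero_iff.mp h3
  exact sub_eq_zero.mp h4

theorem dd_add {x : E 2} (hx : B.depth x < 0) {t : ℝ} (ht : 0 ≤ t) :
    B.dd (x + t • ev (B.ft x)) = B.dd x + t := by
  rw [← B.norm_sub_pj, B.pj_add hx ht]
  have e1 : x + t • ev (B.ft x) - B.pj x = (-B.depth x + t) • ev (B.ft x) := by
    have := B.sub_pj_neg hx
    rw [add_smul, ← this]
    abel
  rw [e1, norm_smul, norm_ev, mul_one, Real.norm_eq_abs, abs_of_nonneg (by linarith), dd,
    max_eq_left (by linarith)]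

/-- the truncated outer normal -/
noncomputable def gg (ε : ℝ) (x : E 2) : E 2 := (1 / max (B.dd x) ε) • (x - B.pj x)

theorem norm_gg {ε : ℝ} (hε : 0 < ε) (x : E 2) : ‖B.gg ε x‖ ≤ 1 := by
  have h1 : 0 < max (B.dd x) ε := lt_max_of_lt_right hε
  rw [gg, norm_smul, B.norm_sub_pj, Real.norm_eq_abs, abs_of_pos (by positivity), one_div,
    inv_mul_le_iff₀ h1, mul_one]
  exact le_max_left _ _

theorem gg_lip {ε : ℝ} (hε : 0 < ε) (x x' : E 2) :
    ‖B.gg ε x - B.gg ε x'‖ ≤ 3 / ε * ‖x - x'‖ := by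
  have h1 : 0 < max (B.dd x) ε := lt_max_of_lt_right hε
  have h2 : 0 < max (B.dd x') ε := lt_max_of_lt_right hε
  have h3 : ε ≤ max (B.dd x) ε := le_max_right _ _
  have e1 : B.gg ε x - B.gg ε x' = (1 / max (B.dd x) ε) • ((x - x') - (B.pj x - B.pj x')) +
      ((max (B.dd x') ε - max (B.dd x) ε) / max (B.dd x) ε) • B.gg ε x' := by
    rw [gg, gg, smul_smul]
    have e2 : (max (B.dd x') ε - max (B.dd x) ε) / max (B.dd x) ε * (1 / max (B.dd x') ε) =
        1 / max (B.dd x) ε - 1 / max (B.dd x') ε := by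
      field_simp
    rw [e2, sub_smul]
    have e3 : x - B.pj x = (x - x' - (B.pj x - B.pj x')) + (x' - B.pj x') := by abel
    rw [e3, smul_add]
    abel
  have h4 : |max (B.dd x') ε - max (B.dd x) ε| ≤ ‖x - x'‖ := by
    refine (abs_max_sub_max_le_abs _ _ _).trans ?_
    rw [abs_sub_comm]
    exact B.dd_lip x x'
  rw [e1]
  refine (norm_add_le _ _).trans ?_
  rw [norm_smul, norm_smul, Real.norm_eq_abs, Real.norm_eq_abs,
    abs_of_pos (show 0 < 1 / max (B.dd x) ε by positivity), abs_div, abs_of_pos h1]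
  have h5 : ‖x - x' - (B.pj x - B.pj x')‖ ≤ 2 * ‖x - x'‖ := by
    refine (norm_sub_le _ _).trans ?_
    have := B.pj_lip x x'
    linarith
  have h6 : 1 / max (B.dd x) ε ≤ 1 / ε := one_div_le_one_div_of_le hε h3
  have h7 := B.norm_gg hε x'
  have h8 : 1 / max (B.dd x) ε * ‖x - x' - (B.pj x - B.pj x')‖ ≤ 1 / ε * (2 * ‖x - x'‖) :=
    mul_le_mul h6 h5 (norm_nonneg _) (by positivity)
  have h9 : |max (B.dd x') ε - max (B.dd x) ε| / max (B.dd x) ε * ‖B.gg ε x'‖ ≤
      1 / ε * ‖x - x'‖ := by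
    have h10 : |max (B.dd x') ε - max (B.dd x) ε| / max (B.dd x) ε ≤ ‖x - x'‖ / ε :=
      div_le_div₀ (norm_nonneg _) h4 hε h3
    calc _ ≤ ‖x - x'‖ / ε * 1 := mul_le_mul h10 h7 (norm_nonneg _) (by positivity)
      _ = 1 / ε * ‖x - x'‖ := by ring
  calc _ ≤ 1 / ε * (2 * ‖x - x'‖) + 1 / ε * ‖x - x'‖ := add_le_add h8 h9
    _ = 3 / ε * ‖x - x'‖ := by ring

end Body

private theorem sg_tr (A : E 2 →L[ℝ] E 2) (θ : ℝ) :
    tr A = ⟪A (ev θ), ev θ⟫ + ⟪A (ev' θ), ev' θ⟫ := by
  have e1 : ev θ = Real.cos θ • (EuclideanSpace.single 0 1 : E 2) +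
      Real.sin θ • EuclideanSpace.single 1 1 := by
    ext i; fin_cases i <;> simp [ev]
  have e2 : ev' θ = (-Real.sin θ) • (EuclideanSpace.single 0 1 : E 2) +
      Real.cos θ • EuclideanSpace.single 1 1 := by
    ext i; fin_cases i <;> simp [ev']
  have e3 : ∀ (a b : ℝ) (v : E 2), ⟪v, a • (EuclideanSpace.single 0 1 : E 2) +
      b • EuclideanSpace.single 1 1⟫ = a * v 0 + b * v 1 := by
    intro a b v
    rw [inner_add_right, real_inner_smul_right, real_inner_smul_right,
      EuclideanSpace.inner_single_right, EuclideanSpace.inner_single_right]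
    simp
  rw [e1, e2, e3, e3]
  simp only [map_add, map_smul, PiLp.add_apply, PiLp.smul_apply, smul_eq_mul, tr, Fin.sum_univ_two]
  have h := Real.sin_sq_add_cos_sq θ
  linear_combination (-(A (EuclideanSpace.single 0 1)) 0 - (A (EuclideanSpace.single 1 1)) 1) * h


/-- the right derivative of a real function -/
private theorem sg_right {f : ℝ → ℝ} {a b : ℝ} {g : ℝ → ℝ} (hf : HasDerivAt f a 0)
    (hg : HasDerivAt g b 0) {δ : ℝ} (hδ : 0 < δ) (h : ∀ t, 0 ≤ t → t < δ → f t = g t) : a = b := by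
  have h1 : HasDerivWithinAt f a (Ici 0) 0 := hf.hasDerivWithinAt
  have h2 : HasDerivWithinAt g b (Ici 0) 0 := hg.hasDerivWithinAt
  have h3 : HasDerivWithinAt f b (Ici 0) 0 := by
    refine h2.congr_of_eventuallyEq ?_ (h 0 le_rfl hδ)
    have : Iio δ ∈ 𝓝[Ici (0 : ℝ)] 0 := mem_nhdsWithin_of_mem_nhds (Iio_mem_nhds hδ)
    filter_upwards [this, self_mem_nhdsWithin] with t ht ht'
    exact h t ht' ht
  exact (uniqueDiffOn_Ici (0 : ℝ) 0 self_mem_Ici).eq_deriv _ h1 h3

private theorem sg_right_nonneg {f : ℝ → ℝ} {a : ℝ} (hf : HasDerivAt f a 0) (h0 : f 0 = 0)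
    (h : ∀ t, 0 ≤ t → 0 ≤ f t) : 0 ≤ a := by
  by_contra hc
  push Not at hc
  have h1 := hf.tendsto_slope_zero_right
  have h2 : ∀ᶠ t in 𝓝[>] (0 : ℝ), t⁻¹ • (f (0 + t) - f 0) < 0 := h1.eventually (gt_mem_nhds hc)
  have h3 : ∀ᶠ t in 𝓝[>] (0 : ℝ), 0 < t := self_mem_nhdsWithin
  obtain ⟨t, ht, ht'⟩ := (h2.and h3).exists
  rw [h0, sub_zero, zero_add, smul_eq_mul] at ht
  have := mul_nonneg (inv_nonneg.mpr ht'.le) (h t ht'.le)
  linarith

namespace Body
variable (B : Body)

/-- the pointwise bound for the divergence -/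
theorem div_bound {ε : ℝ} (hε : 0 < ε) {W : E 2 → ℝ} (hW : Differentiable ℝ W)
    (hW0 : ∀ x, 0 ≤ W x) {x : E 2} (hx : B.depth x < 0)
    (hd : DifferentiableAt ℝ (fun x => W x • B.gg ε x) x) :
    -‖fderiv ℝ W x‖ + (if B.dd x < ε then 1 / ε * W x else 0) ≤
      tr (fderiv ℝ (fun x => W x • B.gg ε x) x) := by
  set X : E 2 → E 2 := fun x => W x • B.gg ε x with hX
  set θ := B.ft x with hθ
  have hdd : 0 < B.dd x := by rw [dd]; exact lt_max_of_lt_left (by linarith)
  have line : ∀ v : E 2, HasDerivAt (fun t : ℝ => x + t • v) v 0 := by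
    intro v
    have := ((hasDerivAt_id (0 : ℝ)).smul_const v).const_add x
    simpa using this
  have dX : ∀ v u : E 2, HasDerivAt (fun t : ℝ => ⟪X (x + t • v), u⟫) ⟪fderiv ℝ X x v, u⟫ 0 := by
    intro v u
    have h1 : HasFDerivAt X (fderiv ℝ X x) (x + (0 : ℝ) • v) := by
      rw [zero_smul, add_zero]; exact hd.hasFDerivAt
    have h2 := h1.comp_hasDerivAt (0 : ℝ) (line v)
    have h3 := h2.inner ℝ (hasDerivAt_const (0 : ℝ) u)
    simpa using h3
  have dW : ∀ v : E 2, HasDerivAt (fun t : ℝ => W (x + t • v)) (fderiv ℝ W x v) 0 := by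
    intro v
    have h1 : HasFDerivAt W (fderiv ℝ W x) (x + (0 : ℝ) • v) := by
      rw [zero_smul, add_zero]; exact (hW x).hasFDerivAt
    exact h1.comp_hasDerivAt (0 : ℝ) (line v)
  -- the normal direction
  have hXN : ∀ t : ℝ, 0 ≤ t → ⟪X (x + t • ev θ), ev θ⟫ =
      W (x + t • ev θ) * ((B.dd x + t) / max (B.dd x + t) ε) := by
    intro t ht
    have e1 : x + t • ev θ - B.pj (x + t • ev θ) = (B.dd x + t) • ev θ := by
      rw [B.pj_add hx ht, add_smul]
      have h1 := B.sub_pj_neg hx
      have h2 : B.dd x = -B.depth x := by rw [dd, max_eq_left (by linarith)]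
      rw [h2, ← h1]
      abel
    rw [hX]
    simp only [gg]
    rw [B.dd_add hx ht, e1, real_inner_smul_left, real_inner_smul_left, real_inner_smul_left,
      real_inner_self_eq_norm_sq, norm_ev]
    ring
  have hN : -‖fderiv ℝ W x‖ + (if B.dd x < ε then 1 / ε * W x else 0) ≤
      ⟪fderiv ℝ X x (ev θ), ev θ⟫ := by
    have hn : |fderiv ℝ W x (ev θ)| ≤ ‖fderiv ℝ W x‖ := by
      have := (fderiv ℝ W x).le_opNorm (ev θ)
      rwa [norm_ev, mul_one, Real.norm_eq_abs] at this
    by_cases hc : B.dd x < ε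
    · rw [if_pos hc]
      have h1 : HasDerivAt (fun t : ℝ => W (x + t • ev θ) * ((B.dd x + t) / ε))
          (fderiv ℝ W x (ev θ) * ((B.dd x + 0) / ε) + W (x + (0 : ℝ) • ev θ) * (1 / ε)) 0 :=
        (dW (ev θ)).mul (((hasDerivAt_id (0 : ℝ)).const_add (B.dd x)).div_const ε)
      have h2 := sg_right (dX (ev θ) (ev θ)) h1 (sub_pos.mpr hc) (by
        intro t ht ht'
        rw [hXN t ht, max_eq_right (by linarith)])
      rw [h2, zero_smul, add_zero, add_zero]
      have h3 : 0 ≤ B.dd x / ε := by positivity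
      have h4 : B.dd x / ε ≤ 1 := (div_le_one hε).mpr hc.le
      have h5 := (abs_le.mp hn).1
      have h6 := norm_nonneg (fderiv ℝ W x)
      nlinarith
    · rw [if_neg hc]
      push Not at hc
      have h2 := sg_right (dX (ev θ) (ev θ)) (dW (ev θ)) one_pos (by
        intro t ht ht'
        rw [hXN t ht, max_eq_left (by linarith), div_self (by linarith), mul_one])
      rw [h2, add_zero]
      exact (abs_le.mp hn).1
  -- the tangential direction
  have hT : 0 ≤ ⟪fderiv ℝ X x (ev' θ), ev' θ⟫ := by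
    refine sg_right_nonneg (dX (ev' θ) (ev' θ)) ?_ ?_
    · rw [zero_smul, add_zero, hX]
      simp only [gg]
      rw [B.sub_pj_neg hx, real_inner_smul_left, real_inner_smul_left, real_inner_smul_left,
        inner_ev_ev']
      ring
    · intro t ht
      rw [hX]
      simp only [gg]
      rw [real_inner_smul_left, real_inner_smul_left]
      have h1 : 0 < max (B.dd (x + t • ev' θ)) ε := lt_max_of_lt_right hε
      refine mul_nonneg (hW0 _) (mul_nonneg (by positivity) ?_)
      have e1 : x + t • ev' θ - B.pj (x + t • ev' θ) =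
          (x - B.pj x) + t • ev' θ - (B.pj (x + t • ev' θ) - B.pj x) := by abel
      rw [e1, inner_sub_left, inner_add_left, B.sub_pj_neg hx, real_inner_smul_left,
        inner_ev_ev', real_inner_smul_left, real_inner_self_eq_norm_sq, norm_ev']
      have h2 := real_inner_le_norm (B.pj (x + t • ev' θ) - B.pj x) (ev' θ)
      have h3 := B.pj_lip (x + t • ev' θ) x
      rw [add_sub_cancel_left, norm_smul, norm_ev', mul_one, Real.norm_eq_abs, abs_of_nonneg ht] at h3
      rw [norm_ev', mul_one] at h2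
      linarith
  rw [sg_tr _ θ]
  linarith

end Body


private theorem sg_depth_continuous (B : Body) : Continuous B.depth := by
  have : LipschitzWith 1 B.depth := by
    refine LipschitzWith.of_dist_le_mul fun x y => ?_
    rw [Real.dist_eq, dist_eq_norm, NNReal.coe_one, one_mul]
    exact B.depth_lip x y
  exact this.continuous

/-- the integral over a thin outer shell -/
private theorem sg_shell (B : Body) {w : E 2 → ℝ} (hw : Continuous w) (hw0 : ∀ x, 0 ≤ w x)
    {ε δ : ℝ} (hε : 0 < ε)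
    (hu : ∀ θ ∈ Icc (0 : ℝ) (2 * Real.pi), ∀ t ∈ Ioo (0 : ℝ) ε,
      w (B.y θ) - δ ≤ w (B.y θ + t • ev θ))
    (hI : IntegrableOn w {x | -ε < B.depth x ∧ B.depth x < 0}) :
    (∫ θ in (0 : ℝ)..2 * Real.pi, w (B.y θ) * B.ρ θ) - δ * (∫ θ in (0 : ℝ)..2 * Real.pi, B.ρ θ) ≤
      ∫ x in {x | -ε < B.depth x ∧ B.depth x < 0}, 1 / ε * w x := by
  have hpi : (0 : ℝ) ≤ 2 * Real.pi := by positivity
  have hdc := sg_depth_continuous B
  set S : Set (E 2) := {x | -ε < B.depth x ∧ B.depth x < 0} with hS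
  set T : Set (E 2) := {x | -ε < B.depth x} with hT
  have hTm : MeasurableSet T := (isOpen_lt continuous_const hdc).measurableSet
  have hST : S = T ∩ {x | B.depth x < 0} := rfl
  set G : ℝ → ℝ := fun θ => max (w (B.y θ) - δ) 0 * B.ρ θ with hG
  have hGc : Continuous G :=
    (((hw.comp B.continuous_y).sub continuous_const).max continuous_const).mul B.continuous_ρ
  have hG0 : ∀ θ, 0 ≤ G θ := fun θ => mul_nonneg (le_max_right _ _) (B.ρ_pos θ).le
  have hGI : IntegrableOn G (Ioc 0 (2 * Real.pi)) :=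
    (hGc.locallyIntegrable.integrableOn_isCompact isCompact_Icc).mono_set Ioc_subset_Icc_self
  have hF : Measurable (T.indicator fun x => ENNReal.ofReal (w x)) :=
    (hw.measurable.ennreal_ofReal).indicator hTm
  have e1 : ENNReal.ofReal (∫ x in S, w x) =
      ∫⁻ x in {x | B.depth x < 0}, T.indicator (fun x => ENNReal.ofReal (w x)) x := by
    rw [ofReal_integral_eq_lintegral_ofReal hI (Eventually.of_forall fun x => hw0 x),
      setLIntegral_indicator hTm, hST]
  have e2 : ∫⁻ z : ℝ × ℝ in Ioc 0 (2 * Real.pi) ×ˢ Ioo 0 ε, ENNReal.ofReal (G z.1) ≤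
      ENNReal.ofReal (∫ x in S, w x) := by
    rw [e1, B.outer _ hF]
    calc ∫⁻ z : ℝ × ℝ in Ioc 0 (2 * Real.pi) ×ˢ Ioo 0 ε, ENNReal.ofReal (G z.1)
        ≤ ∫⁻ z : ℝ × ℝ in Ioc 0 (2 * Real.pi) ×ˢ Ioo 0 ε,
          T.indicator (fun x => ENNReal.ofReal (w x)) (B.y z.1 + z.2 • ev z.1) *
            ENNReal.ofReal (B.ρ z.1 + z.2) := by
          refine setLIntegral_mono' (measurableSet_Ioc.prod measurableSet_Ioo) ?_
          rintro ⟨θ, t⟩ ⟨hθ, ht⟩
          simp only at hθ ht ⊢
          have h1 : B.y θ + t • ev θ ∈ T := by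
            rw [hT, Set.mem_ofPred_eq, B.depth_out θ ht.1.le]
            have := ht.2
            linarith
          rw [indicator_of_mem h1, ← ENNReal.ofReal_mul (hw0 _)]
          apply ENNReal.ofReal_le_ofReal
          have h2 := hu θ ⟨hθ.1.le, hθ.2⟩ t ht
          have h3 : max (w (B.y θ) - δ) 0 ≤ w (B.y θ + t • ev θ) := max_le h2 (hw0 _)
          have h4 := B.ρ_pos θ
          exact mul_le_mul h3 (by have := ht.1; linarith) h4.le (hw0 _)
      _ ≤ _ := lintegral_mono_set (prod_mono subset_rfl fun t ht => ht.1)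
  have e3 : ∫⁻ z : ℝ × ℝ in Ioc 0 (2 * Real.pi) ×ˢ Ioo 0 ε, ENNReal.ofReal (G z.1) =
      ENNReal.ofReal (ε * ∫ θ in Ioc 0 (2 * Real.pi), G θ) := by
    have hm : Measurable fun z : ℝ × ℝ => ENNReal.ofReal (G z.1) :=
      (hGc.measurable.comp measurable_fst).ennreal_ofReal
    rw [Measure.volume_eq_prod, ← Measure.prod_restrict, lintegral_prod _ hm.aemeasurable]
    simp only [lintegral_const, Measure.restrict_apply_univ, Real.volume_Ioo, sub_zero]
    rw [lintegral_mul_const _ hGc.measurable.ennreal_ofReal,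
      ← ofReal_integral_eq_lintegral_ofReal hGI (Eventually.of_forall fun x => hG0 x),
      mul_comm, ENNReal.ofReal_mul hε.le]
  rw [e3, ENNReal.ofReal_le_ofReal_iff (integral_nonneg fun x => hw0 x)] at e2
  have e4 : (∫ θ in (0 : ℝ)..2 * Real.pi, w (B.y θ) * B.ρ θ) -
      δ * (∫ θ in (0 : ℝ)..2 * Real.pi, B.ρ θ) ≤ ∫ θ in Ioc 0 (2 * Real.pi), G θ := by
    rw [← intervalIntegral.integral_of_le hpi, ← intervalIntegral.integral_const_mul,
      ← intervalIntegral.integral_sub]
    · refine intervalIntegral.integral_mono_on hpi ?_ (hGc.intervalIntegrable _ _) ?_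
      · exact (((hw.comp B.continuous_y).mul B.continuous_ρ).sub
          (continuous_const.mul B.continuous_ρ)).intervalIntegrable _ _
      · intro θ _
        have h1 : w (B.y θ) - δ ≤ max (w (B.y θ) - δ) 0 := le_max_left _ _
        have h2 := B.ρ_pos θ
        simp only [hG]
        nlinarith
    · exact ((hw.comp B.continuous_y).mul B.continuous_ρ).intervalIntegrable _ _
    · exact (continuous_const.mul B.continuous_ρ).intervalIntegrable _ _
  have e5 : ∫ x in S, 1 / ε * w x = 1 / ε * ∫ x in S, w x := integral_const_mul _ _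
  rw [e5]
  have e6 : ∫ θ in Ioc 0 (2 * Real.pi), G θ = 1 / ε * (ε * ∫ θ in Ioc 0 (2 * Real.pi), G θ) := by
    field_simp
  rw [e6] at e4
  exact e4.trans (mul_le_mul_of_nonneg_left e2 (by positivity))


/-- the inequality for a fixed width of the shell -/
private theorem sg_fixed (D : Domain 2) (B : Body) {w : E 2 → ℝ}
    (hw : ContDiff ℝ 1 w) (hw0 : ∀ x, 0 ≤ w x) {ε : ℝ} (hε : 0 < ε)
    (hS : {x | -ε < B.depth x ∧ B.depth x < 0} ⊆ D.carrier) :
    (∫ x in {x | -ε < B.depth x ∧ B.depth x < 0}, 1 / ε * w x) -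
      (∫ x in D.carrier \ B.K, ‖fderiv ℝ w x‖) ≤ ∫ x, w x ∂D.surface := by
  have hdc := sg_depth_continuous B
  have := D.isFinite
  obtain ⟨R₀, hR₀⟩ := D.isBounded.subset_closedBall 0
  set R : ℝ := max R₀ 0 + 1 with hR
  have hRpos : 0 < R := by have := le_max_right R₀ 0; linarith
  have hRR : R₀ < R := by have := le_max_left R₀ 0; linarith
  have hDR : closedBall (0 : E 2) R₀ ⊆ ball 0 R := closedBall_subset_ball hRR
  let f : ContDiffBump (0 : E 2) := ⟨R, R + 1, hRpos, by linarith⟩
  set W : E 2 → ℝ := fun x => f x * w x with hWdef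
  have hW : ContDiff ℝ 1 W := f.contDiff.mul hw
  have hW0 : ∀ x, 0 ≤ W x := fun x => mul_nonneg f.nonneg (hw0 x)
  have hWw : ∀ x ∈ ball (0 : E 2) R, W x = w x := by
    intro x hx
    rw [hWdef]
    simp only
    rw [f.one_of_mem_closedBall (ball_subset_closedBall hx), one_mul]
  have hWs : HasCompactSupport W := f.hasCompactSupport.mul_right
  obtain ⟨L, hL⟩ := hW.lipschitzWith_of_hasCompactSupport hWs (by norm_num)
  obtain ⟨C, hC⟩ := hWs.exists_bound_of_continuous hW.continuous
  have hC0 : 0 ≤ C := (norm_nonneg _).trans (hC 0)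
  set X : E 2 → E 2 := fun x => W x • B.gg ε x with hX
  have hXn : ∀ x, ‖X x‖ ≤ W x := by
    intro x
    rw [hX]
    simp only
    rw [norm_smul, Real.norm_eq_abs, abs_of_nonneg (hW0 x)]
    have := B.norm_gg hε x
    have := hW0 x
    nlinarith
  have hXC : ∀ x, ‖X x‖ ≤ C := fun x => by
    have h1 := hC x
    rw [Real.norm_eq_abs, abs_of_nonneg (hW0 x)] at h1
    exact (hXn x).trans h1
  have hXL : LipschitzWith (Real.toNNReal (L + C * (3 / ε))) X := by
    refine LipschitzWith.of_dist_le' fun x x' => ?_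
    rw [dist_eq_norm, dist_eq_norm]
    have e1 : X x - X x' = (W x - W x') • B.gg ε x + W x' • (B.gg ε x - B.gg ε x') := by
      rw [hX]
      simp only
      rw [sub_smul, smul_sub]
      abel
    rw [e1]
    refine (norm_add_le _ _).trans ?_
    rw [norm_smul, norm_smul]
    have h1 : ‖W x - W x'‖ ≤ L * ‖x - x'‖ := by
      have := hL.dist_le_mul x x'
      rwa [dist_eq_norm, dist_eq_norm] at this
    have h2 := B.norm_gg hε x
    have h3 := B.gg_lip hε x x'
    have h4 := hC x'
    have h5 : ‖W x - W x'‖ * ‖B.gg ε x‖ ≤ L * ‖x - x'‖ * 1 :=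
      mul_le_mul h1 h2 (norm_nonneg _) (by positivity)
    have h6 : ‖W x'‖ * ‖B.gg ε x - B.gg ε x'‖ ≤ C * (3 / ε * ‖x - x'‖) :=
      mul_le_mul h4 h3 (norm_nonneg _) hC0
    calc _ ≤ L * ‖x - x'‖ * 1 + C * (3 / ε * ‖x - x'‖) := add_le_add h5 h6
      _ = (L + C * (3 / ε)) * ‖x - x'‖ := by ring
  have hdiv := D.divergence_lip hXL hXC
  -- the surface side
  have hfr : ∀ᵐ x ∂D.surface, x ∈ frontier D.carrier := by
    have h1 := measure_eq_zero_iff_ae_notMem.mp D.support
    filter_upwards [h1] with x hx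
    rwa [mem_compl_iff, not_not] at hx
  have hfrW : ∀ᵐ x ∂D.surface, W x = w x := by
    filter_upwards [hfr] with x hx
    apply hWw
    apply hDR
    exact closure_minimal hR₀ isClosed_closedBall (frontier_subset_closure hx)
  have hwI : Integrable w D.surface := by
    refine Integrable.of_bound (C := C) hw.continuous.aestronglyMeasurable ?_
    filter_upwards [hfrW] with x hx
    rw [← hx]
    exact hC x
  have hsurf : ∫ x, ⟪X x, D.normal x⟫ ∂D.surface ≤ ∫ x, w x ∂D.surface := by
    refine integral_mono_ae ?_ hwI ?_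
    · refine Integrable.of_bound (C := C) ?_ ?_
      · exact (hXL.continuous.measurable.inner D.measurable_normal).aestronglyMeasurable
      · filter_upwards [D.norm_normal] with x hx
        calc ‖⟪X x, D.normal x⟫‖ ≤ ‖X x‖ * ‖D.normal x‖ := norm_inner_le_norm _ _
          _ ≤ C := by rw [hx, mul_one]; exact hXC x
    · filter_upwards [D.norm_normal, hfrW] with x hx hx'
      calc ⟪X x, D.normal x⟫ ≤ ‖X x‖ * ‖D.normal x‖ := real_inner_le_norm _ _
        _ ≤ W x := by rw [hx, mul_one]; exact hXn x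
        _ = w x := hx'
  -- the volume side
  set S : Set (E 2) := {x | -ε < B.depth x ∧ B.depth x < 0} with hSdef
  have hSm : MeasurableSet S :=
    ((isOpen_lt continuous_const hdc).inter (isOpen_lt hdc continuous_const)).measurableSet
  have hKm : MeasurableSet B.K := B.isCompact_K.isClosed.measurableSet
  have hDm : MeasurableSet D.carrier := D.isOpen.measurableSet
  set F : E 2 → ℝ := fun x => (B.Kᶜ).indicator (fun x => -‖fderiv ℝ w x‖) x +
    S.indicator (fun x => 1 / ε * w x) x with hF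
  have hDc : D.carrier ⊆ closedBall (0 : E 2) R₀ := hR₀
  have hcpt : IsCompact (closedBall (0 : E 2) R₀) := isCompact_closedBall _ _
  have hg1 : Continuous fun x => -‖fderiv ℝ w x‖ := ((hw.continuous_fderiv (by norm_num)).norm).neg
  have hg2 : Continuous fun x => 1 / ε * w x := continuous_const.mul hw.continuous
  have hI1 : IntegrableOn ((B.Kᶜ).indicator fun x => -‖fderiv ℝ w x‖) D.carrier :=
    ((hg1.locallyIntegrable.integrableOn_isCompact hcpt).mono_set hDc).indicator hKm.compl
  have hI2 : IntegrableOn (S.indicator fun x => 1 / ε * w x) D.carrier :=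
    ((hg2.locallyIntegrable.integrableOn_isCompact hcpt).mono_set hDc).indicator hSm
  have hFint : ∫ x in D.carrier, F x =
      -(∫ x in D.carrier \ B.K, ‖fderiv ℝ w x‖) + ∫ x in S, 1 / ε * w x := by
    rw [hF, integral_add hI1 hI2, setIntegral_indicator hKm.compl, setIntegral_indicator hSm,
      integral_neg, inter_eq_self_of_subset_right hS, Set.sdiff_eq]
  have hlow : ∫ x in D.carrier, F x ≤ ∫ x in D.carrier, tr (fderiv ℝ X x) := by
    refine setIntegral_mono_ae_restrict (hI1.add hI2) ?_ ?_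
    · refine Measure.integrableOn_of_bounded (M := 2 * (Real.toNNReal (L + C * (3 / ε)) : ℝ))
        D.isBounded.measure_lt_top.ne ?_ ?_
      · have h1 : Continuous (tr : (E 2 →L[ℝ] E 2) → ℝ) := by
          unfold tr
          fun_prop
        exact (h1.measurable.comp (measurable_fderiv ℝ X)).aestronglyMeasurable
      · refine Eventually.of_forall fun x => ?_
        rw [Real.norm_eq_abs]
        unfold tr
        calc |∑ i : Fin 2, (fderiv ℝ X x (EuclideanSpace.single i 1)) i|
            ≤ ∑ i : Fin 2, |(fderiv ℝ X x (EuclideanSpace.single i 1)) i| :=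
              Finset.abs_sum_le_sum_abs _ _
          _ ≤ ∑ _i : Fin 2, (Real.toNNReal (L + C * (3 / ε)) : ℝ) := by
              refine Finset.sum_le_sum fun i _ => ?_
              have h1 : |(fderiv ℝ X x (EuclideanSpace.single i 1)) i| ≤
                  ‖fderiv ℝ X x (EuclideanSpace.single i 1)‖ := by
                rw [← Real.norm_eq_abs]
                exact PiLp.norm_apply_le _ i
              have h2 := (fderiv ℝ X x).le_opNorm (EuclideanSpace.single i 1)
              have h3 : ‖(EuclideanSpace.single i 1 : E 2)‖ = 1 := by simp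
              rw [h3, mul_one] at h2
              exact h1.trans (h2.trans (norm_fderiv_le_of_lipschitz ℝ hXL))
          _ = 2 * (Real.toNNReal (L + C * (3 / ε)) : ℝ) := by simp
    · have h1 := ae_restrict_of_ae (s := D.carrier) (hXL.ae_differentiableAt (μ := volume))
      have h2 := ae_restrict_of_ae (s := D.carrier) (measure_eq_zero_iff_ae_notMem.mp B.null_bd)
      filter_upwards [h1, h2, ae_restrict_mem hDm] with x hx hx' hxD
      have hx0 : B.depth x ≠ 0 := hx'
      rcases lt_or_gt_of_ne hx0 with hneg | hposi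
      · have h3 := B.div_bound hε (hW.differentiable (by norm_num)) hW0 hneg hx
        refine le_trans (le_of_eq ?_) h3
        have hxb : x ∈ ball (0 : E 2) R := hDR (hR₀ hxD)
        have h4 : W =ᶠ[𝓝 x] w := by
          filter_upwards [isOpen_ball.mem_nhds hxb] with z hz
          exact hWw z hz
        have h5 : x ∈ B.Kᶜ := by
          intro h6
          have : (0 : ℝ) ≤ B.depth x := h6
          linarith
        have h6 : B.dd x = -B.depth x := by rw [Body.dd, max_eq_left (by linarith)]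
        rw [hF]
        simp only
        rw [indicator_of_mem h5, h4.fderiv_eq, h4.eq_of_nhds, h6]
        congr 1
        by_cases hc : -ε < B.depth x
        · rw [indicator_of_mem (show x ∈ S from ⟨hc, hneg⟩), if_pos (by linarith)]
        · rw [indicator_of_notMem (fun h => hc h.1), if_neg (by linarith)]
      · have h3 : x ∉ B.Kᶜ := by
          intro h
          exact h (show (0 : ℝ) ≤ B.depth x from hposi.le)
        have h4 : x ∉ S := fun h => by
          have := h.2
          linarith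
        have h5 : X =ᶠ[𝓝 x] fun _ => 0 := by
          filter_upwards [(isOpen_lt continuous_const hdc).mem_nhds
            (show (0 : ℝ) < B.depth x from hposi)] with z hz
          have hz' : ¬ B.depth z < 0 := not_lt.mpr (le_of_lt hz)
          rw [hX]
          simp only [Body.gg, Body.pj, if_neg hz', sub_self, smul_zero]
        rw [hF]
        simp only
        rw [indicator_of_notMem h3, indicator_of_notMem h4, h5.fderiv_eq]
        simp [tr]
  rw [hFint, hdiv] at hlow
  linarith

theorem surface_ge (D : Domain 2) (B : Body) (hK : B.K ⊆ D.carrier) {w : E 2 → ℝ}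
    (hw : ContDiff ℝ 1 w) (hw0 : ∀ x, 0 ≤ w x) :
    (∫ θ in (0 : ℝ)..2 * Real.pi, w (B.y θ) * B.ρ θ) -
      (∫ x in D.carrier \ B.K, ‖fderiv ℝ w x‖) ≤ ∫ x, w x ∂D.surface := by
  set Λ : ℝ := ∫ θ in (0 : ℝ)..2 * Real.pi, B.ρ θ with hΛ
  have hΛ0 : 0 ≤ Λ := by
    refine intervalIntegral.integral_nonneg (by positivity) fun θ _ => (B.ρ_pos θ).le
  obtain ⟨η, hη, hηD⟩ := B.isCompact_K.exists_thickening_subset_open D.isOpen hK
  refine le_of_forall_pos_le_add fun e he => ?_
  set δ : ℝ := e / (Λ + 1) with hδ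
  have hδ0 : 0 < δ := by positivity
  have hδΛ : δ * Λ ≤ e := by
    rw [hδ, div_mul_eq_mul_div, div_le_iff₀ (by linarith)]
    nlinarith
  -- uniform continuity
  have hH : Continuous fun z : ℝ × ℝ => w (B.y z.1 + z.2 • ev z.1) := by
    refine hw.continuous.comp ?_
    exact (B.continuous_y.comp continuous_fst).add
      (continuous_snd.smul (continuous_ev.comp continuous_fst))
  have huc := (isCompact_Icc (a := (0 : ℝ)) (b := 2 * Real.pi)).prod
    (isCompact_Icc (a := (0 : ℝ)) (b := 1)) |>.uniformContinuousOn_of_continuous hH.continuousOn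
  rw [Metric.uniformContinuousOn_iff] at huc
  obtain ⟨r, hr, hur⟩ := huc δ hδ0
  set ε : ℝ := min η (min r 1) with hεdef
  have hε : 0 < ε := lt_min hη (lt_min hr one_pos)
  have hεη : ε ≤ η := min_le_left _ _
  have hεr : ε ≤ r := (min_le_right _ _).trans (min_le_left _ _)
  have hε1 : ε ≤ 1 := (min_le_right _ _).trans (min_le_right _ _)
  have hS : {x | -ε < B.depth x ∧ B.depth x < 0} ⊆ D.carrier := by
    rintro x ⟨h1, h2⟩
    apply hηD
    rw [mem_thickening_iff]
    refine ⟨B.pj x, B.pj_mem x, ?_⟩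
    rw [dist_eq_norm, B.norm_sub_pj, Body.dd, max_eq_left (by linarith)]
    linarith
  have hI : IntegrableOn w {x | -ε < B.depth x ∧ B.depth x < 0} := by
    obtain ⟨R₀, hR₀⟩ := D.isBounded.subset_closedBall 0
    exact (hw.continuous.locallyIntegrable.integrableOn_isCompact
      (isCompact_closedBall (0 : E 2) R₀)).mono_set (hS.trans hR₀)
  have h1 := sg_shell B hw.continuous hw0 (δ := δ) hε (by
    intro θ hθ t ht
    have h2 := hur (θ, t) ⟨hθ, ⟨ht.1.le, by have := ht.2; linarith⟩⟩ (θ, 0)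
      ⟨hθ, ⟨le_rfl, zero_le_one⟩⟩ (by
        rw [Prod.dist_eq, dist_self, Real.dist_eq, sub_zero, abs_of_pos ht.1]
        exact max_lt hr (by have := ht.2; linarith))
    simp only [zero_smul, add_zero] at h2
    rw [Real.dist_eq] at h2
    have := (abs_lt.mp h2).1
    linarith) hI
  have h2 := sg_fixed D B hw hw0 hε hS
  rw [← hΛ] at h1
  linarith

end Pool.Agent.RC
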