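import Pool.Agent.H.MP_1b807b_an.C.Depth
import Pool.Agent.H.MP_1b807b_an.C.SurfaceGe
import Pool.Agent.H.MP_1b807b_an.C.RobinTest

/-! MP_1b807b_an, convex planar domains, module TestBound: test pairs bound the Robin eigenvalue -/

set_option autoImplicit false

namespace Pool.Agent.RC

open MeasureTheory Metric Set Filter
open Pool.Agent.RG
open scoped RealInnerProductSpace Topology NNReal ENNReal

private theorem tb_tr_cont : Continuous (fun A : E 2 →L[ℝ] E 2 => tr A) := by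
  unfold tr
  refine continuous_finsetSum _ (fun i _ => ?_)
  have h1 : Continuous (fun A : E 2 →L[ℝ] E 2 => A (EuclideanSpace.single i (1 : ℝ))) :=
    (ContinuousLinearMap.apply ℝ (E 2) (EuclideanSpace.single i (1 : ℝ))).continuous
  exact (EuclideanSpace.proj (𝕜 := ℝ) i).continuous.comp h1

private theorem tb_fderiv_sq {V : E 2 → ℝ} (hV : ContDiff ℝ 1 V) (x : E 2) :
    ‖fderiv ℝ (fun x => V x ^ 2) x‖ = 2 * |V x| * ‖fderiv ℝ V x‖ := by
  have dV : HasFDerivAt V (fderiv ℝ V x) x := ((hV.differentiable one_ne_zero) x).hasFDerivAt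
  have h3 : HasFDerivAt (fun x => V x ^ 2) ((2 * V x) • fderiv ℝ V x) x := by
    have h := dV.pow 2
    simpa using h
  rw [h3.fderiv, norm_smul, Real.norm_eq_abs, abs_mul, abs_two]

/-- a test pair with energy at most `ε` (of any sign) bounds the Robin eigenvalue -/
theorem test_bound_gen {K₀ C d c₀ : ℝ} (hC : 0 ≤ C) (hc : 0 < c₀)
    (D : Domain 2) (B : Body) (k β ε Q : ℝ) (V : E 2 → ℝ) (Z : E 2 → E 2)
    (f M : ℝ → ℝ) (hk : 0 ≤ k) (hkK : k ≤ K₀) (hβ : 0 ≤ β) (hβK : β ≤ K₀)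
    (hDd : D.carrier ⊆ closedBall 0 d) (hKD : B.K ⊆ D.carrier)
    (hT : IsTest B k β C d c₀ ε V Z f M)
    (hQ : ∀ A : ℝ, c₀ ≤ A → A ≤ C ^ 2 * volume.real D.carrier →
      ε + (K₀ ^ 2 * C ^ 2 + C ^ 2 + 2 * K₀ * C ^ 2) * volume.real (D.carrier \ B.K) ≤ Q * A) :
    D.robin (-β) ≤ ((-k ^ 2 + Q : ℝ) : EReal) := by
  set m : ℝ := volume.real (D.carrier \ B.K) with hm
  have hm0 : 0 ≤ m := measureReal_nonneg
  have hfin : IsFiniteMeasure (volume.restrict D.carrier) :=
    ⟨by rw [Measure.restrict_apply_univ]; exact D.isBounded.measure_lt_top⟩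
  have hfin' := D.isFinite
  have hms : MeasurableSet D.carrier := D.isOpen.measurableSet
  have hmK : MeasurableSet B.K := B.isCompact_K.measurableSet
  have hcomp : IsCompact (closure D.carrier) := D.isBounded.isCompact_closure
  have hmem : ∀ᵐ x ∂(volume.restrict D.carrier), x ∈ D.carrier := ae_restrict_mem hms
  have hmemd : ∀ x ∈ D.carrier, ‖x‖ ≤ d := fun x hx => by
    have := hDd hx
    rwa [mem_closedBall, dist_zero_right] at this
  -- the depth function
  have cdep : Continuous B.depth := by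
    have : LipschitzWith 1 B.depth := LipschitzWith.of_dist_le_mul fun x y => by
      rw [Real.dist_eq, dist_eq_norm, NNReal.coe_one, one_mul]
      exact B.depth_lip x y
    exact this.continuous
  have cf : Continuous f := by
    have : LipschitzWith ⟨C, hC⟩ f := LipschitzWith.of_dist_le_mul fun s t => by
      rw [Real.dist_eq, Real.dist_eq]
      exact hT.fl s t
    exact this.continuous
  have hdepK : ∀ x ∈ B.K, 0 ≤ B.depth x := fun x hx => hx
  have hdepO : ∀ x, x ∉ B.K → B.depth x < 0 := fun x hx => lt_of_not_ge hx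
  set v : E 2 → ℝ := fun x => f (B.depth x) with hv
  have cv : Continuous v := cf.comp cdep
  have hvLip : ∀ x x', |v x - v x'| ≤ C * ‖x - x'‖ := fun x x' =>
    (hT.fl _ _).trans (mul_le_mul_of_nonneg_left (B.depth_lip x x') hC)
  have hv1 : ∀ x, x ∉ B.K → v x = 1 := fun x hx => hT.f1 _ (hdepO x hx).le
  have hv01 : ∀ x, v x ^ 2 ≤ 1 := fun x => by
    have h := hT.f0 (B.depth x)
    exact pow_le_one₀ h.1 h.2
  set G : E 2 → ℝ := fun x => if 0 ≤ B.depth x then M (B.depth x) ^ 2 else 0 with hG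
  have mG : Measurable G := by
    refine Measurable.ite (measurableSet_le measurable_const cdep.measurable) ?_ measurable_const
    exact (hT.Mm.comp cdep.measurable).pow_const 2
  have hGK : ∀ x ∈ B.K, G x = M (B.depth x) ^ 2 := fun x hx => if_pos (hdepK x hx)
  have hGO : ∀ x, x ∉ B.K → G x = 0 := fun x hx => if_neg (not_le.2 (hdepO x hx))
  set C₂ : ℝ := max C (C ^ 2) with hC₂
  have hG0 : ∀ x, 0 ≤ G x ∧ G x ≤ C₂ := by
    intro x
    by_cases hx : x ∈ B.K
    · rw [hGK x hx]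
      have h := hT.M0 (B.depth x)
      exact ⟨by positivity, (pow_le_pow_left₀ h.1 h.2 2).trans (le_max_right _ _)⟩
    · rw [hGO x hx]
      exact ⟨le_rfl, hC.trans (le_max_left _ _)⟩
  have hvG : ∀ᵐ x, ‖fderiv ℝ v x‖ ^ 2 ≤ G x := by
    have h0 : ∀ᵐ x : E 2, B.depth x ≠ 0 := by
      rw [ae_iff]
      simpa using B.null_bd
    filter_upwards [h0] with x hx
    rcases lt_or_gt_of_ne hx with h | h
    · -- outside
      have h1 : v =ᶠ[𝓝 x] fun _ => (1 : ℝ) := by
        filter_upwards [cdep.continuousAt.eventually (gt_mem_nhds h)] with z hz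
        exact hT.f1 _ (le_of_lt hz)
      rw [h1.fderiv_eq]
      simp only [fderiv_fun_const, Pi.zero_apply, norm_zero]
      have := (hG0 x).1
      simpa using this
    · have hM := hT.M0 (B.depth x)
      have h2 : ‖fderiv ℝ v x‖ ≤ M (B.depth x) := by
        refine le_of_forall_pos_le_add fun e he => ?_
        obtain ⟨η, hη, hs⟩ := hT.slope _ h e he
        refine norm_fderiv_le_of_lip' ℝ (by linarith [hM.1]) ?_
        filter_upwards [cdep.continuousAt.eventually (ball_mem_nhds _ hη)] with z hz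
        rw [Real.dist_eq] at hz
        have h3 := hs (B.depth z) (B.depth x) hz (by simpa using hη)
        rw [Real.norm_eq_abs]
        refine h3.trans ?_
        exact mul_le_mul_of_nonneg_left (B.depth_lip z x) (by linarith [hM.1])
      have h4 : G x = M (B.depth x) ^ 2 := if_pos h.le
      rw [h4]
      exact pow_le_pow_left₀ (norm_nonneg _) h2 2
  have hb : ∀ x ∈ frontier D.carrier, v x = 1 := by
    intro x hx
    refine hv1 x fun hxK => ?_
    have h1 := hKD hxK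
    rw [D.isOpen.frontier_eq] at hx
    exact hx.2 h1
  -- continuity
  have cV : Continuous V := hT.V1.continuous
  have cV' : Continuous (fderiv ℝ V) := hT.V1.continuous_fderiv one_ne_zero
  have cdZ : Continuous (divg Z) := tb_tr_cont.comp (hT.Z1.continuous_fderiv one_ne_zero)
  have cE : Continuous fun x => divg Z x - ‖fderiv ℝ V x‖ ^ 2 := cdZ.sub (cV'.norm.pow 2)
  have intD : ∀ {g : E 2 → ℝ}, Continuous g → IntegrableOn g D.carrier := fun hg =>
    (hg.continuousOn.integrableOn_compact hcomp).mono_set subset_closure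
  have hV2 : ∀ x ∈ D.carrier, V x ^ 2 ≤ C ^ 2 := by
    intro x hx
    rw [← sq_abs]
    exact pow_le_pow_left₀ (abs_nonneg _) (hT.bV x (hmemd x hx)) 2
  have split : ∀ {g : E 2 → ℝ}, IntegrableOn g D.carrier →
      (∫ x in D.carrier, g x) = (∫ x in B.K, g x) + ∫ x in D.carrier \ B.K, g x := by
    intro g hg
    have h1 := setIntegral_union (disjoint_sdiff_right (s := B.K) (t := D.carrier))
      (hms.diff hmK) (hg.mono_set hKD) (hg.mono_set sdiff_subset)
    rw [union_sdiff_cancel hKD] at h1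
    exact h1
  have ismall : ∀ {g : E 2 → ℝ} {c : ℝ}, IntegrableOn g D.carrier →
      (∀ x ∈ D.carrier, g x ≤ c) → (∫ x in D.carrier \ B.K, g x) ≤ c * m := by
    intro g c hg hgc
    have hfin2 : volume (D.carrier \ B.K) < ⊤ :=
      lt_of_le_of_lt (measure_mono sdiff_subset) D.isBounded.measure_lt_top
    have h1 : (∫ x in D.carrier \ B.K, g x) ≤ ∫ x in D.carrier \ B.K, c :=
      setIntegral_mono_on (hg.mono_set sdiff_subset) (integrableOn_const hfin2.ne)
        (hms.diff hmK) fun x hx => hgc x hx.1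
    rw [setIntegral_const, smul_eq_mul, mul_comm] at h1
    exact h1
  -- the weights
  have iVv : IntegrableOn (fun x => V x ^ 2 * v x ^ 2) D.carrier := intD ((cV.pow 2).mul (cv.pow 2))
  have iVG : IntegrableOn (fun x => V x ^ 2 * G x) D.carrier := by
    refine Integrable.of_bound (C := C ^ 2 * C₂)
      ((cV.pow 2).measurable.mul mG).aestronglyMeasurable ?_
    filter_upwards [hmem] with x hx
    rw [Real.norm_of_nonneg (mul_nonneg (by positivity) (hG0 x).1)]
    exact mul_le_mul (hV2 x hx) (hG0 x).2 (hG0 x).1 (by positivity)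
  have iZ : IntegrableOn (divg Z) D.carrier := intD cdZ
  have iE : IntegrableOn (fun x => (divg Z x - ‖fderiv ℝ V x‖ ^ 2) * v x ^ 2) D.carrier :=
    intD (cE.mul (cv.pow 2))
  have iN : IntegrableOn (fun x => ‖fderiv ℝ V x‖ ^ 2) D.carrier := intD (cV'.norm.pow 2)
  have iV : IntegrableOn (fun x => V x ^ 2) D.carrier := intD (cV.pow 2)
  set A : ℝ := ∫ x in D.carrier, V x ^ 2 * v x ^ 2 with hA
  set AK : ℝ := ∫ x in B.K, V x ^ 2 * v x ^ 2 with hAK
  have e5 := split iVv
  have hAK0 : c₀ ≤ AK := hT.low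
  have hA1 : AK ≤ A := by
    rw [hA, e5]
    have : 0 ≤ ∫ x in D.carrier \ B.K, V x ^ 2 * v x ^ 2 :=
      integral_nonneg fun x => by positivity
    linarith
  have hA2 : A ≤ AK + C ^ 2 * m := by
    rw [hA, e5]
    have h1 : (∫ x in D.carrier \ B.K, V x ^ 2 * v x ^ 2) ≤ C ^ 2 * m := by
      refine ismall iVv fun x hx => ?_
      calc V x ^ 2 * v x ^ 2 ≤ C ^ 2 * 1 :=
            mul_le_mul (hV2 x hx) (hv01 x) (by positivity) (by positivity)
        _ = C ^ 2 := mul_one _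
    linarith
  have hApos : 0 < A := by linarith
  refine robin_test D hT.V1 hT.Z1 hT.VZ (C := C₂) (v := v) (G := G)
    (fun x x' => (hvLip x x').trans (mul_le_mul_of_nonneg_right (le_max_left _ _)
      (norm_nonneg _))) mG hG0 hvG hb hApos ?_
  -- splitting the terms
  have e1 : (∫ x in D.carrier, V x ^ 2 * G x) = ∫ x in B.K, V x ^ 2 * M (B.depth x) ^ 2 := by
    rw [split iVG]
    have h1 : (∫ x in D.carrier \ B.K, V x ^ 2 * G x) = 0 := by
      rw [setIntegral_congr_fun (g := fun _ => (0 : ℝ)) (hms.diff hmK)]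
      · simp
      · intro x hx
        simp only
        rw [hGO x hx.2, mul_zero]
    rw [h1, add_zero]
    refine setIntegral_congr_fun hmK fun x hx => ?_
    rw [hGK x hx]
  have e2 := split iZ
  have e3 := split iE
  have e4 : (∫ x in D.carrier \ B.K, (divg Z x - ‖fderiv ℝ V x‖ ^ 2) * v x ^ 2) =
      (∫ x in D.carrier \ B.K, divg Z x) - ∫ x in D.carrier \ B.K, ‖fderiv ℝ V x‖ ^ 2 := by
    rw [← integral_sub (iZ.mono_set sdiff_subset) (iN.mono_set sdiff_subset)]
    refine setIntegral_congr_fun (hms.diff hmK) fun x hx => ?_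
    rw [hv1 x hx.2]
    ring
  have e6 : (∫ x in D.carrier \ B.K, ‖fderiv ℝ V x‖ ^ 2) ≤ C ^ 2 * m :=
    ismall iN fun x hx => pow_le_pow_left₀ (norm_nonneg _) (hT.bV' x (hmemd x hx)) 2
  -- the boundary term
  have hw1 : ContDiff ℝ 1 fun x => V x ^ 2 := hT.V1.pow 2
  have e7 := surface_ge D B hKD hw1 (fun x => by positivity)
  have e8 : (∫ x in D.carrier \ B.K, ‖fderiv ℝ (fun x => V x ^ 2) x‖) ≤ (2 * C ^ 2) * m := by
    refine ismall (intD (hw1.continuous_fderiv one_ne_zero).norm) fun x hx => ?_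
    rw [tb_fderiv_sq hT.V1]
    have h1 := hT.bV x (hmemd x hx)
    have h2 := hT.bV' x (hmemd x hx)
    have h3 : |V x| * ‖fderiv ℝ V x‖ ≤ C * C :=
      mul_le_mul h1 h2 (norm_nonneg _) hC
    nlinarith
  -- the energy on `K`
  have e9 := hT.energy
  have e10 : (∫ x in B.K, V x ^ 2 * (M (B.depth x) ^ 2 + k ^ 2 * f (B.depth x) ^ 2)) =
      (∫ x in B.K, V x ^ 2 * M (B.depth x) ^ 2) + k ^ 2 * AK := by
    have i1 : IntegrableOn (fun x => V x ^ 2 * M (B.depth x) ^ 2) B.K := by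
      refine (iVG.mono_set hKD).congr_fun (fun x hx => ?_) hmK
      simp only
      rw [hGK x hx]
    rw [hAK, ← integral_const_mul, ← integral_add i1 ((iVv.mono_set hKD).const_mul _)]
    refine integral_congr_ae (Eventually.of_forall fun x => ?_)
    simp only [hv]
    ring
  have e11 : (∫ x in B.K, (divg Z x - ‖fderiv ℝ V x‖ ^ 2) * f (B.depth x) ^ 2) =
      ∫ x in B.K, (divg Z x - ‖fderiv ℝ V x‖ ^ 2) * v x ^ 2 := rfl
  rw [e10, e11] at e9
  rw [e1, e2, e3, e4]
  have h8 : β * ((∫ θ in (0 : ℝ)..2 * Real.pi, V (B.y θ) ^ 2 * B.ρ θ) - (2 * C ^ 2) * m) ≤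
      β * ∫ x, V x ^ 2 ∂D.surface := mul_le_mul_of_nonneg_left (by linarith) hβ
  have hkk : k ^ 2 ≤ K₀ ^ 2 := pow_le_pow_left₀ hk hkK 2
  have h9 : k ^ 2 * (C ^ 2 * m) ≤ K₀ ^ 2 * (C ^ 2 * m) :=
    mul_le_mul_of_nonneg_right hkk (by positivity)
  have h10 : β * ((2 * C ^ 2) * m) ≤ K₀ * ((2 * C ^ 2) * m) :=
    mul_le_mul_of_nonneg_right hβK (by positivity)
  have h11 : k ^ 2 * A ≤ k ^ 2 * (AK + C ^ 2 * m) := mul_le_mul_of_nonneg_left hA2 (by positivity)
  have hA3 : A ≤ C ^ 2 * volume.real D.carrier := by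
    have h1 : A ≤ ∫ x in D.carrier, C ^ 2 :=
      setIntegral_mono_on iVv (integrableOn_const D.isBounded.measure_lt_top.ne) hms
        fun x hx => by
          calc V x ^ 2 * v x ^ 2 ≤ C ^ 2 * 1 :=
                mul_le_mul (hV2 x hx) (hv01 x) (by positivity) (by positivity)
            _ = C ^ 2 := mul_one _
    rw [setIntegral_const, smul_eq_mul, mul_comm] at h1
    exact h1
  have h12 := hQ A (hAK0.trans hA1) hA3
  have h14 : (-k ^ 2 + Q) * A = -(k ^ 2 * A) + Q * A := by ring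
  rw [h14]
  linarith

theorem test_bound {K₀ C d c₀ : ℝ} (hC : 0 ≤ C) (hc : 0 < c₀) (hd : 0 ≤ d) (hK : 0 ≤ K₀) :
    ∃ C' : ℝ, 0 ≤ C' ∧ ∀ (D : Domain 2) (B : Body) (k β ε : ℝ) (V : E 2 → ℝ) (Z : E 2 → E 2)
      (f M : ℝ → ℝ), 0 ≤ k → k ≤ K₀ → 0 ≤ β → β ≤ K₀ → 0 ≤ ε → D.carrier ⊆ closedBall 0 d →
      B.K ⊆ D.carrier → IsTest B k β C d c₀ ε V Z f M →
      D.robin (-β) ≤ ((-k ^ 2 + C' * (ε + volume.real (D.carrier \ B.K)) : ℝ) : EReal) := by
  refine ⟨(1 + K₀ ^ 2 * C ^ 2 + C ^ 2 + 2 * K₀ * C ^ 2) / c₀, by positivity, ?_⟩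
  intro D B k β ε V Z f M hk hkK hβ hβK hε hDd hKD hT
  refine test_bound_gen hC hc D B k β ε _ V Z f M hk hkK hβ hβK hDd hKD hT ?_
  intro A hA _
  set m : ℝ := volume.real (D.carrier \ B.K) with hm
  have hm0 : 0 ≤ m := measureReal_nonneg
  set C₁ : ℝ := 1 + K₀ ^ 2 * C ^ 2 + C ^ 2 + 2 * K₀ * C ^ 2 with hC₁
  have hC₁1 : 1 ≤ C₁ := by
    rw [hC₁]
    have : 0 ≤ K₀ ^ 2 * C ^ 2 + C ^ 2 + 2 * K₀ * C ^ 2 := by positivity
    linarith
  have h12 : C₁ * (ε + m) ≤ C₁ / c₀ * (ε + m) * A := by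
    have h1 : C₁ * (ε + m) = C₁ / c₀ * (ε + m) * c₀ := by
      field_simp
    rw [h1]
    exact mul_le_mul_of_nonneg_left hA (by positivity)
  have h1 : ε ≤ C₁ * ε := by nlinarith
  have h2 : (K₀ ^ 2 * C ^ 2 + C ^ 2 + 2 * K₀ * C ^ 2) * m ≤ C₁ * m :=
    mul_le_mul_of_nonneg_right (by rw [hC₁]; linarith) hm0
  nlinarith

end Pool.Agent.RC
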