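import Pool.Agent.H.MP_1b807b_an.C.Collar
import Pool.Agent.H.MP_1b807b_an.C.Gauge
import Pool.Agent.H.MP_1b807b_an.C.ExistsBody
import Pool.Agent.H.MP_1b807b_an.C.Scale
import Pool.Agent.H.MP_1b807b_an.C.TestBound
import Pool.Agent.H.MP_1b807b_an.C.BallK
import Pool.Agent.H.MP_1b807b_an.C.AllCases
import Pool.Agent.H.MP_1b807b_an.G.GaussBall

/-! MP_1b807b_an, convex planar domains, module Main -/

set_option autoImplicit false

namespace Pool.Agent.RC

open MeasureTheory Metric Set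
open Pool.Agent.RG
open scoped RealInnerProductSpace ENNReal Pointwise


theorem ereal_le_of_forall {x : EReal} {a : ℝ} (h : ∀ η > (0 : ℝ), x ≤ ((a + η : ℝ) : EReal)) :
    x ≤ (a : EReal) := by
  by_contra hx
  push Not at hx
  obtain ⟨z, hz1, hz2⟩ := EReal.lt_iff_exists_real_btwn.1 hx
  have h1 : a < z := by exact_mod_cast hz1
  have := h (z - a) (by linarith)
  rw [show a + (z - a) = z by ring] at this
  exact absurd hz2 (not_lt.2 this)

theorem vol_ball {R : ℝ} (hR : 0 < R) : volume.real (ball (0 : E 2) R) = Real.pi * R ^ 2 := by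
  rw [Measure.real, EuclideanSpace.volume_ball_fin_two]
  rw [ENNReal.toReal_mul, ENNReal.toReal_pow, ENNReal.toReal_ofReal hR.le]
  simp [mul_comm, Real.pi_pos.le]

theorem vol_smul {r : ℝ} (hr : 0 < r) (S : Set (E 2)) :
    volume.real ((fun x : E 2 => r • x) '' S) = r ^ 2 * volume.real S := by
  have : (fun x : E 2 => r • x) '' S = r • S := rfl
  rw [this, Measure.real, Measure.addHaar_smul, ENNReal.toReal_mul]
  simp only [finrank_euclideanSpace, Fintype.card_fin]
  rw [ENNReal.toReal_ofReal (abs_nonneg _), abs_of_pos (by positivity)]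
  rfl

set_option maxHeartbeats 4000000 in
theorem main_aux {R : ℝ} (hR : 0 < R) {β : ℝ} (hβ : 0 < β) (D : Domain 2)
    (hc : Convex ℝ D.carrier) (hv : volume D.carrier = volume (ball (0 : E 2) R))
    (h0 : (0 : E 2) ∈ D.carrier) {k : ℝ} (hk : 0 < k) (hkβ : k * GG k = R * β) :
    D.robin (-β) ≤ ((-(k / R) ^ 2 : ℝ) : EReal) := by
  refine ereal_le_of_forall fun η hη => ?_
  obtain ⟨d₀, hd₀, hDd⟩ := D.isBounded.subset_closedBall_lt 0 (0 : E 2)
  set K₀ := max k (k * GG k) with hK₀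
  have hK₀pos : 0 < K₀ := lt_of_lt_of_le hk (le_max_left _ _)
  set d := 2 * d₀ / R with hd
  have hdpos : 0 < d := by positivity
  obtain ⟨C, c₀, hC, hc₀, hcase⟩ := case_all (fun B hA h0 => B.len_ge hA h0) K₀ hK₀pos d hdpos
  obtain ⟨C', hC', htest⟩ := test_bound (K₀ := K₀) (C := C) (d := d) (c₀ := c₀) hC hc₀ hdpos.le
    hK₀pos.le
  -- choose δ, ε
  obtain ⟨ε, hε, hε'⟩ : ∃ ε > 0, 4 / R ^ 2 * (C' * (2 * ε)) ≤ η := by
    refine ⟨η * R ^ 2 / (8 * (C' + 1)), by positivity, ?_⟩
    have h1 : 4 / R ^ 2 * (C' * (2 * (η * R ^ 2 / (8 * (C' + 1))))) = η * (C' / (C' + 1)) := by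
      field_simp
      ring
    rw [h1]
    have h2 : C' / (C' + 1) ≤ 1 := by
      rw [div_le_one (by positivity)]
      linarith
    nlinarith
  set δ := min (ε * R ^ 2 / 4) (3 / 4 * (Real.pi * R ^ 2)) with hδ
  have hδpos : 0 < δ := by
    have := Real.pi_pos
    positivity
  obtain ⟨B, hBh, hBK, hBv⟩ := exists_body hc D.isOpen D.isBounded h0 hδpos
  have hvD : volume.real D.carrier = Real.pi * R ^ 2 := by
    rw [Measure.real, hv, ← Measure.real, vol_ball hR]
  have hfin : volume D.carrier ≠ ⊤ := D.isBounded.measure_lt_top.ne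
  have hKm : MeasurableSet B.K := B.isCompact_K.isClosed.measurableSet
  have hvK : volume.real (D.carrier \ B.K) = Real.pi * R ^ 2 - B.area := by
    rw [measureReal_sdiff hBK hKm hfin, hvD, B.volume_K hBh]
  have hAlow : Real.pi * R ^ 2 / 4 ≤ B.area := by
    have : δ ≤ 3 / 4 * (Real.pi * R ^ 2) := min_le_right _ _
    linarith
  have hAup : B.area ≤ Real.pi * R ^ 2 := by
    have : 0 ≤ volume.real (D.carrier \ B.K) := measureReal_nonneg
    linarith
  have hπ := Real.pi_pos
  set r := Real.sqrt (B.area / Real.pi) with hr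
  have hApos : 0 ≤ B.area := le_trans (by positivity) hAlow
  have hr2 : r ^ 2 = B.area / Real.pi := Real.sq_sqrt (div_nonneg hApos hπ.le)
  have hrlow : R / 2 ≤ r := by
    apply Real.le_sqrt_of_sq_le
    rw [le_div_iff₀ hπ]
    linarith [show (R / 2) ^ 2 * Real.pi = Real.pi * R ^ 2 / 4 by ring]
  have hrpos : 0 < r := by linarith
  have hrup : r ≤ R := by
    apply Real.sqrt_le_iff.2 ⟨hR.le, ?_⟩
    rw [div_le_iff₀ hπ]
    linarith [show R ^ 2 * Real.pi = Real.pi * R ^ 2 by ring]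
  have hcpos : 0 < 1 / r := by positivity
  obtain ⟨B', hB'h, hB'K, hB'A⟩ := exists_scaled_body B hcpos
  have hA' : B'.area = Real.pi := by
    rw [hB'A, show B.area = r ^ 2 * Real.pi by rw [hr2]; field_simp]
    field_simp
  obtain ⟨D', hD', hD'r⟩ := exists_scale D hcpos
  have hK'D' : B'.K ⊆ D'.carrier := by
    rw [hB'K, hD']
    exact image_mono hBK
  have hD'd : D'.carrier ⊆ closedBall 0 d := by
    rw [hD']
    rintro _ ⟨x, hx, rfl⟩
    have h1 := hDd hx
    rw [mem_closedBall_zero_iff] at h1 ⊢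
    rw [norm_smul, Real.norm_of_nonneg hcpos.le, hd]
    have : 1 / r ≤ 2 / R := by
      rw [div_le_div_iff₀ hrpos hR]
      linarith
    calc 1 / r * ‖x‖ ≤ 2 / R * d₀ := by gcongr
      _ = 2 * d₀ / R := by ring
  have hv' : volume.real (D'.carrier \ B'.K) ≤ ε := by
    have h1 : D'.carrier \ B'.K = (fun x : E 2 => (1 / r) • x) '' (D.carrier \ B.K) := by
      rw [hD', hB'K, image_sdiff]
      intro x y hxy
      exact smul_right_injective (E 2) hcpos.ne' hxy
    rw [h1, vol_smul hcpos]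
    have h2 : volume.real (D.carrier \ B.K) ≤ ε * R ^ 2 / 4 := hBv.trans (min_le_left _ _)
    have h3 : (1 / r) ^ 2 ≤ 4 / R ^ 2 := by
      rw [div_pow, one_pow, div_le_div_iff₀ (by positivity) (by positivity)]
      nlinarith
    calc (1 / r) ^ 2 * volume.real (D.carrier \ B.K) ≤ 4 / R ^ 2 * (ε * R ^ 2 / 4) := by
          gcongr
      _ = ε := by field_simp
  obtain ⟨k', hk', hk'e⟩ := exists_k (β := r * β) (by positivity)
  have hk'k : k' ≤ k := by
    rw [k_mono hk' hk, hk'e, hkβ]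
    exact mul_le_mul_of_nonneg_right hrup hβ.le
  have hk'K : k' ≤ K₀ := hk'k.trans (le_max_left _ _)
  have hβK : k' * GG k' ≤ K₀ := by
    rw [hk'e]
    refine le_trans ?_ (le_max_right _ _)
    rw [hkβ]
    exact mul_le_mul_of_nonneg_right hrup hβ.le
  obtain ⟨V, Z, f, M, hT⟩ := hcase k' B' hk' hk'K trivial hA'
    (fun θ => by rw [hB'h]; exact mul_pos hcpos (hBh θ)) (hK'D'.trans hD'd) ε hε
  have hb := htest D' B' k' (k' * GG k') ε V Z f M hk'.le hk'K (by rw [hk'e]; positivity) hβK hε.le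
    hD'd hK'D' hT
  have hb2 := hD'r _ _ hb
  have e1 : 1 / r * (k' * GG k') = β := by
    rw [hk'e]
    field_simp
  rw [e1] at hb2
  refine hb2.trans ?_
  rw [EReal.coe_le_coe_iff]
  have hlow : r * k / R ≤ k' := by
    rw [k_mono (by positivity) hk', hk'e]
    have hG : GG (r * k / R) ≤ GG k := by
      apply (Pool.Agent.H.MP_1b807b_an.strictMono_F 1).monotone
      rw [div_le_iff₀ hR]
      nlinarith
    calc r * k / R * GG (r * k / R) ≤ r * k / R * GG k := by gcongr
      _ = r / R * (k * GG k) := by ring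
      _ = r * β := by rw [hkβ]; field_simp
  have h5 : (k / R) ^ 2 ≤ (1 / r) ^ 2 * k' ^ 2 := by
    rw [← mul_pow]
    have : k / R ≤ 1 / r * k' := by
      rw [div_mul_eq_mul_div, one_mul, le_div_iff₀ hrpos]
      calc k / R * r = r * k / R := by ring
        _ ≤ k' := hlow
    gcongr
  have h3 : (1 / r) ^ 2 ≤ 4 / R ^ 2 := by
    rw [div_pow, one_pow, div_le_div_iff₀ (by positivity) (by positivity)]
    nlinarith
  have h6 : (1 / r) ^ 2 * (C' * (ε + volume.real (D'.carrier \ B'.K))) ≤ η := by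
    refine le_trans ?_ hε'
    have hnn : 0 ≤ volume.real (D'.carrier \ B'.K) := measureReal_nonneg
    gcongr
    linarith
  have h7 : (1 / r) ^ 2 * (-k' ^ 2 + C' * (ε + volume.real (D'.carrier \ B'.K))) =
      -((1 / r) ^ 2 * k' ^ 2) + (1 / r) ^ 2 * (C' * (ε + volume.real (D'.carrier \ B'.K))) := by
    ring
  rw [h7]
  linarith

theorem main_convex {R : ℝ} (hR : 0 < R) {α : ℝ} (hα : α < 0) (D : Domain 2)
    (hc : Convex ℝ D.carrier) (hv : volume D.carrier = volume (ball (0 : E 2) R)) :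
    D.robin α ≤ (ballDomain 2 (by norm_num) R hR).robin α := by
  obtain ⟨k, hk, hkβ⟩ := exists_k (β := R * (-α)) (by nlinarith)
  obtain ⟨a, ha⟩ := D.isConnected.nonempty
  obtain ⟨D', hD', hD'r⟩ := exists_translate D (-a)
  have h0 : (0 : E 2) ∈ D'.carrier := by
    rw [hD']
    exact ⟨a, ha, by simp⟩
  have hc' : Convex ℝ D'.carrier := by
    rw [hD']
    have := hc.translate (-a)
    simpa [add_comm] using this
  have hv' : volume D'.carrier = volume (ball (0 : E 2) R) := by
    rw [hD', ← hv]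
    rw [image_add_right, measure_preimage_add_right]
  have h1 := main_aux hR (by linarith : 0 < -α) D' hc' hv' h0 hk hkβ
  have h2 := hD'r _ _ h1
  have h3 := robin_ball_scale hR hk
  have e : -(k * GG k / R) = α := by
    rw [hkβ]
    field_simp
  rw [e] at h3
  rw [neg_neg] at h2
  exact h2.trans h3

end Pool.Agent.RC
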