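import Pool.Agent.H.MP_1b807b_an.C.TestBound
import Pool.Agent.H.MP_1b807b_an.C.Scale
import Pool.Agent.H.MP_1b807b_an.C.BallK
import Pool.Agent.H.MP_1b807b_an.C.ExistsBody
import Pool.Agent.H.MP_1b807b_an.C.Cases
import Pool.Agent.H.MP_1b807b_an.C.Collar
import Pool.Agent.H.MP_1b807b_an.C.Gauge
import Pool.Agent.H.MP_1b807b_an.G.GaussBall

/-! MP_1b807b_an, convex planar domains, module Unique: strict test pairs give uniqueness -/

set_option autoImplicit false

namespace Pool.Agent.RC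

open MeasureTheory Metric Set Filter
open Pool.Agent.RG
open scoped RealInnerProductSpace ENNReal Pointwise Topology

/-- there are test pairs with negative energy, with uniform constants, in all cases described by
`P`, for `k₀ ≤ k ≤ K₀` and perimeter at least `2 π + τ` -/
def CaseStrict (P : ℝ → Body → Prop) : Prop :=
  ∀ K₀ > (0 : ℝ), ∀ k₀ > (0 : ℝ), ∀ d > (0 : ℝ), ∀ τ > (0 : ℝ), ∃ C c₀ γ : ℝ,
    0 ≤ C ∧ 0 < c₀ ∧ 0 < γ ∧ ∀ (k : ℝ) (B : Body), k₀ ≤ k → k ≤ K₀ →
    P k B → B.area = Real.pi → (∀ θ, 0 < B.h θ) → B.K ⊆ closedBall 0 d →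
    2 * Real.pi + τ ≤ B.len →
    ∃ (V : E 2 → ℝ) (Z : E 2 → E 2) (f M : ℝ → ℝ), IsTest B k (k * GG k) C d c₀ (-γ) V Z f M

theorem IsTest.weaken_eps {B : Body} {k β C d c₀ ε ε' : ℝ} {V : E 2 → ℝ} {Z : E 2 → E 2}
    {f M : ℝ → ℝ} (h : IsTest B k β C d c₀ ε V Z f M) (he : ε ≤ ε') :
    IsTest B k β C d c₀ ε' V Z f M :=
  { h with energy := h.energy.trans he }

theorem IsTest.weaken_all {B : Body} {k β C C' d c₀ c₀' ε ε' : ℝ} {V : E 2 → ℝ} {Z : E 2 → E 2}
    {f M : ℝ → ℝ} (h : IsTest B k β C d c₀ ε V Z f M) (hC : C ≤ C') (hc : c₀' ≤ c₀)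
    (he : ε ≤ ε') : IsTest B k β C' d c₀' ε' V Z f M :=
  (h.weaken hC hc).weaken_eps he

theorem CaseStrict.or {P Q : ℝ → Body → Prop} (hP : CaseStrict P) (hQ : CaseStrict Q) :
    CaseStrict fun k B => P k B ∨ Q k B := by
  intro K₀ hK k₀ hk₀ d hd τ hτ
  obtain ⟨C, c, γ, hC, hc, hγ, h⟩ := hP K₀ hK k₀ hk₀ d hd τ hτ
  obtain ⟨C', c', γ', hC', hc', hγ', h'⟩ := hQ K₀ hK k₀ hk₀ d hd τ hτ
  refine ⟨max C C', min c c', min γ γ', le_max_of_le_left hC, lt_min hc hc', lt_min hγ hγ', ?_⟩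
  intro k B hk hkK hPQ hA h0 hB hl
  rcases hPQ with hp | hq
  · obtain ⟨V, Z, f, M, ht⟩ := h k B hk hkK hp hA h0 hB hl
    exact ⟨V, Z, f, M, ht.weaken_all (le_max_left _ _) (min_le_left _ _)
      (neg_le_neg (min_le_left _ _))⟩
  · obtain ⟨V, Z, f, M, ht⟩ := h' k B hk hkK hq hA h0 hB hl
    exact ⟨V, Z, f, M, ht.weaken_all (le_max_right _ _) (min_le_right _ _)
      (neg_le_neg (min_le_right _ _))⟩

theorem CaseStrict.mono {P Q : ℝ → Body → Prop} (hP : CaseStrict P)
    (h : ∀ (k : ℝ) (B : Body), 0 < k → B.area = Real.pi → (∀ θ, 0 < B.h θ) → Q k B → P k B) :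
    CaseStrict Q := by
  intro K₀ hK k₀ hk₀ d hd τ hτ
  obtain ⟨C, c, γ, hC, hc, hγ, h'⟩ := hP K₀ hK k₀ hk₀ d hd τ hτ
  exact ⟨C, c, γ, hC, hc, hγ, fun k B hk hkK hq hA h0 hB hl =>
    h' k B hk hkK (h k B (hk₀.trans_le hk) hA h0 hq) hA h0 hB hl⟩

/-! ## inradius -/

theorem Body.closedBall_subset_K (B : Body) {x : E 2} {r : ℝ} (h : r ≤ B.depth x) :
    closedBall x r ⊆ B.K := by
  intro z hz
  rw [mem_closedBall, dist_eq_norm] at hz
  have h1 := abs_le.1 (B.depth_lip z x)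
  change 0 ≤ B.depth z
  linarith [h1.1]

theorem Body.exists_disc (B : Body) (hA : B.area = Real.pi) (hh : ∀ θ, 0 < B.h θ) {r : ℝ}
    (h0 : 0 ≤ r) (h1 : r ≤ 1) (h : B.len * r - Real.pi * r ^ 2 < Real.pi) :
    ∃ x, closedBall x r ⊆ B.K := by
  by_contra hx
  push Not at hx
  have h2 : {x ∈ B.K | B.depth x < r} = B.K := by
    ext x
    simp only [mem_setOf_eq, and_iff_left_iff_imp]
    intro _
    by_contra h3
    exact hx x (B.closedBall_subset_K (not_lt.1 h3))
  have h3 := B.collar hA h0 h1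
  rw [h2, B.volume_K hh, hA] at h3
  linarith

/-- a bounded open set containing discs of radius close to `R` and with the area of the disc of
radius `R` is a disc -/
theorem eq_ball_of_discs {Ω : Set (E 2)} (ho : IsOpen Ω) (hb : Bornology.IsBounded Ω) {R : ℝ}
    (hR : 0 < R) (hv : volume Ω = volume (ball (0 : E 2) R))
    (h : ∀ s, 0 < s → s < R → ∃ x, closedBall x s ⊆ Ω) : ∃ x₀, Ω = ball x₀ R := by
  have hs : ∀ n : ℕ, 0 < R * (1 - 1 / ((n : ℝ) + 2)) ∧ R * (1 - 1 / ((n : ℝ) + 2)) < R := by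
    intro n
    have h1 : (0 : ℝ) < 1 / ((n : ℝ) + 2) := by positivity
    have h2 : 1 / ((n : ℝ) + 2) < 1 := by
      rw [div_lt_one (by positivity)]
      have : (0 : ℝ) ≤ n := n.cast_nonneg
      linarith
    constructor
    · exact mul_pos hR (by linarith)
    · nlinarith
  choose x hx using fun n : ℕ => h _ (hs n).1 (hs n).2
  have hxc : ∀ n, x n ∈ closure Ω := fun n =>
    subset_closure (hx n (mem_closedBall_self (hs n).1.le))
  obtain ⟨x₀, -, φ, hφ, hlim⟩ := hb.isCompact_closure.tendsto_subseq hxc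
  have hsub : ball x₀ R ⊆ Ω := by
    intro y hy
    rw [mem_ball] at hy
    have hφt : Tendsto (fun n => R * (1 - 1 / ((φ n : ℝ) + 2))) atTop (𝓝 R) := by
      have h1 : Tendsto (fun n : ℕ => 1 / ((n : ℝ) + 2)) atTop (𝓝 0) := by
        have h2 : Tendsto (fun n : ℕ => (n : ℝ) + 2) atTop atTop :=
          tendsto_atTop_add_const_right _ _ tendsto_natCast_atTop_atTop
        simpa using h2.const_div_atTop (1 : ℝ)
      have h2 := (h1.comp hφ.tendsto_atTop).const_sub 1
      have h3 := h2.const_mul R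
      simpa using h3
    have hd : Tendsto (fun n => dist y (x (φ n))) atTop (𝓝 (dist y x₀)) :=
      tendsto_const_nhds.dist hlim
    have hev : ∀ᶠ n in atTop, dist y (x (φ n)) < R * (1 - 1 / ((φ n : ℝ) + 2)) :=
      hd.eventually_lt hφt hy
    obtain ⟨n, hn⟩ := hev.exists
    exact hx (φ n) (mem_closedBall.2 hn.le)
  have hvb : volume (ball x₀ R) = volume (ball (0 : E 2) R) := Measure.addHaar_ball_center _ _ _
  have hnull : volume (Ω \ ball x₀ R) = 0 := by
    rw [measure_sdiff hsub measurableSet_ball.nullMeasurableSet measure_ball_lt_top.ne, hv, hvb,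
      tsub_self]
  refine ⟨x₀, subset_antisymm ?_ hsub⟩
  have hcl : Ω ⊆ closedBall x₀ R := by
    intro y hy
    by_contra hyc
    have hopen : IsOpen (Ω ∩ (closedBall x₀ R)ᶜ) := ho.inter isClosed_closedBall.isOpen_compl
    have hpos : 0 < volume (Ω ∩ (closedBall x₀ R)ᶜ) := hopen.measure_pos volume ⟨y, hy, hyc⟩
    have hle : volume (Ω ∩ (closedBall x₀ R)ᶜ) ≤ volume (Ω \ ball x₀ R) :=
      measure_mono fun z hz => ⟨hz.1, fun hzb => hz.2 (ball_subset_closedBall hzb)⟩
    rw [hnull] at hle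
    exact absurd hle (not_le.2 hpos)
  have := interior_maximal hcl ho
  rwa [interior_closedBall x₀ hR.ne'] at this

/-- if `Ω` is not a disc, the rescaled inner bodies have perimeter bounded away from `2π` -/
theorem len_gap {Ω : Set (E 2)} (ho : IsOpen Ω) (hb : Bornology.IsBounded Ω) {R : ℝ}
    (hR : 0 < R) (hv : volume Ω = volume (ball (0 : E 2) R)) (hne : ∀ x₀, Ω ≠ ball x₀ R) :
    ∃ τ > (0 : ℝ), ∃ r₀ < R, 0 < r₀ ∧ ∀ r, r₀ ≤ r → ∀ B : Body, B.area = Real.pi →
      (∀ θ, 0 < B.h θ) → B.K ⊆ (fun x : E 2 => (1 / r) • x) '' Ω → 2 * Real.pi + τ ≤ B.len := by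
  have h1 : ∃ s, 0 < s ∧ s < R ∧ ∀ x, ¬ closedBall x s ⊆ Ω := by
    by_contra hcon
    push Not at hcon
    obtain ⟨x₀, hx₀⟩ := eq_ball_of_discs ho hb hR hv hcon
    exact hne x₀ hx₀
  obtain ⟨s, hs0, hsR, hs⟩ := h1
  set q : ℝ := (s / R + 1) / 2 with hq
  have hsR1 : s / R < 1 := (div_lt_one hR).2 hsR
  have hsR0 : 0 < s / R := div_pos hs0 hR
  have hq0 : 0 < q := by rw [hq]; linarith
  have hq1 : q < 1 := by rw [hq]; linarith
  have hqs : s / R < q := by rw [hq]; linarith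
  have hπ := Real.pi_pos
  refine ⟨Real.pi * (1 - q) ^ 2, by have : 0 < 1 - q := by linarith
                                    positivity, s / q, ?_, by positivity, ?_⟩
  · rw [div_lt_iff₀ hq0]
    rw [div_lt_iff₀ hR] at hqs
    linarith
  intro r hr B hA hh hBK
  have hr0 : 0 < r := lt_of_lt_of_le (by positivity) hr
  by_contra hlen
  push Not at hlen
  -- the disc of radius `q`
  have h2 : B.len * q - Real.pi * q ^ 2 < Real.pi := by
    have h3 : B.len * q < (2 * Real.pi + Real.pi * (1 - q) ^ 2) * q :=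
      mul_lt_mul_of_pos_right hlen hq0
    have h4 : (2 * Real.pi + Real.pi * (1 - q) ^ 2) * q - Real.pi * q ^ 2 ≤ Real.pi := by
      have h5 : Real.pi - ((2 * Real.pi + Real.pi * (1 - q) ^ 2) * q - Real.pi * q ^ 2) =
          Real.pi * ((1 - q) ^ 2 * (1 - q)) := by ring
      have h6 : 0 ≤ Real.pi * ((1 - q) ^ 2 * (1 - q)) := by
        have : 0 < 1 - q := by linarith
        positivity
      linarith
    linarith
  obtain ⟨x, hx⟩ := B.exists_disc hA hh hq0.le hq1.le h2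
  refine hs (r • x) fun z hz => ?_
  rw [mem_closedBall, dist_eq_norm] at hz
  have h3 : (1 / r) • z ∈ closedBall x q := by
    rw [mem_closedBall, dist_eq_norm]
    have h4 : (1 / r) • z - x = (1 / r) • (z - r • x) := by
      rw [smul_sub, smul_smul, one_div, inv_mul_cancel₀ hr0.ne', one_smul]
    rw [h4, norm_smul, Real.norm_of_nonneg (by positivity)]
    calc 1 / r * ‖z - r • x‖ ≤ 1 / r * s := by gcongr
      _ = s / r := by ring
      _ ≤ q := by
        rw [div_le_iff₀ hr0]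
        rw [div_le_iff₀ hq0] at hr
        linarith
  obtain ⟨w, hw, hwz⟩ := hBK (hx h3)
  have h5 : w = z := smul_right_injective (E 2) (one_div_pos.2 hr0).ne' hwz
  rwa [← h5]

/-! ## the transfer -/

private theorem uq_vol_ball {R : ℝ} (hR : 0 < R) :
    volume.real (ball (0 : E 2) R) = Real.pi * R ^ 2 := by
  rw [Measure.real, EuclideanSpace.volume_ball_fin_two]
  rw [ENNReal.toReal_mul, ENNReal.toReal_pow, ENNReal.toReal_ofReal hR.le]
  simp [mul_comm, Real.pi_pos.le]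

private theorem uq_vol_smul {r : ℝ} (hr : 0 < r) (S : Set (E 2)) :
    volume.real ((fun x : E 2 => r • x) '' S) = r ^ 2 * volume.real S := by
  have : (fun x : E 2 => r • x) '' S = r • S := rfl
  rw [this, Measure.real, Measure.addHaar_smul, ENNReal.toReal_mul]
  simp only [finrank_euclideanSpace, Fintype.card_fin]
  rw [ENNReal.toReal_ofReal (abs_nonneg _), abs_of_pos (by positivity)]
  rfl

set_option maxHeartbeats 4000000 in
theorem strict_aux (hcs : CaseStrict fun _ _ => True) {R : ℝ} (hR : 0 < R) {β : ℝ} (hβ : 0 < β)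
    (D : Domain 2) (hc : Convex ℝ D.carrier) (hv : volume D.carrier = volume (ball (0 : E 2) R))
    (h0 : (0 : E 2) ∈ D.carrier) {k : ℝ} (hk : 0 < k) (hkβ : k * GG k = R * β)
    (hne : ∀ x₀, D.carrier ≠ ball x₀ R) :
    ∃ η > (0 : ℝ), D.robin (-β) ≤ ((-(k / R) ^ 2 - η : ℝ) : EReal) := by
  obtain ⟨τ, hτ, r₀, hr₀R, hr₀, hgap⟩ := len_gap D.isOpen D.isBounded hR hv hne
  obtain ⟨d₀, hd₀, hDd⟩ := D.isBounded.subset_closedBall_lt 0 (0 : E 2)
  set K₀ := max k (k * GG k) with hK₀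
  have hK₀pos : 0 < K₀ := lt_of_lt_of_le hk (le_max_left _ _)
  set d := 2 * d₀ / R with hd
  have hdpos : 0 < d := by positivity
  obtain ⟨C, c₀, γ, hC, hc₀, hγ, hcase⟩ := hcs K₀ hK₀pos (k / 2) (by positivity) d hdpos τ hτ
  have hπ := Real.pi_pos
  set C₁ : ℝ := K₀ ^ 2 * C ^ 2 + C ^ 2 + 2 * K₀ * C ^ 2 with hC₁
  have hC₁0 : 0 ≤ C₁ := by positivity
  set ε := γ / (2 * (C₁ + 1)) with hε
  have hεpos : 0 < ε := by positivity
  have hεC : C₁ * ε ≤ γ / 2 := by
    have h1 : C₁ * ε = γ / 2 * (C₁ / (C₁ + 1)) := by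
      rw [hε]
      field_simp
    rw [h1]
    have h2 : C₁ / (C₁ + 1) ≤ 1 := by
      rw [div_le_one (by positivity)]
      linarith
    nlinarith
  -- the ratio `ρ < 1`
  set ρ := max (r₀ / R) (1 / 2) with hρ
  have hρ1 : ρ < 1 := max_lt ((div_lt_one hR).2 hr₀R) (by norm_num)
  have hρ2 : 1 / 2 ≤ ρ := le_max_right _ _
  have hρ0 : r₀ ≤ ρ * R := by
    rw [← div_le_iff₀ hR]
    exact le_max_left _ _
  have hρpos : 0 < ρ := by linarith
  set δ := min (ε * R ^ 2 / 4) ((1 - ρ ^ 2) * (Real.pi * R ^ 2)) with hδ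
  have hρsq : ρ ^ 2 < 1 := by nlinarith
  have hδpos : 0 < δ := by
    have h1 : 0 < 1 - ρ ^ 2 := by linarith
    positivity
  obtain ⟨B, hBh, hBK, hBv⟩ := exists_body hc D.isOpen D.isBounded h0 hδpos
  have hvD : volume.real D.carrier = Real.pi * R ^ 2 := by
    rw [Measure.real, hv, ← Measure.real, uq_vol_ball hR]
  have hfin : volume D.carrier ≠ ⊤ := D.isBounded.measure_lt_top.ne
  have hKm : MeasurableSet B.K := B.isCompact_K.isClosed.measurableSet
  have hvK : volume.real (D.carrier \ B.K) = Real.pi * R ^ 2 - B.area := by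
    rw [measureReal_sdiff hBK hKm hfin, hvD, B.volume_K hBh]
  have hAlow : Real.pi * (ρ * R) ^ 2 ≤ B.area := by
    have h1 : δ ≤ (1 - ρ ^ 2) * (Real.pi * R ^ 2) := min_le_right _ _
    nlinarith
  have hAup : B.area ≤ Real.pi * R ^ 2 := by
    have : 0 ≤ volume.real (D.carrier \ B.K) := measureReal_nonneg
    linarith
  set r := Real.sqrt (B.area / Real.pi) with hr
  have hApos : 0 ≤ B.area := le_trans (by positivity) hAlow
  have hr2 : r ^ 2 = B.area / Real.pi := Real.sq_sqrt (div_nonneg hApos hπ.le)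
  have hrρ : ρ * R ≤ r := by
    apply Real.le_sqrt_of_sq_le
    rw [le_div_iff₀ hπ]
    linarith
  have hrlow : R / 2 ≤ r := by nlinarith
  have hr₀r : r₀ ≤ r := hρ0.trans hrρ
  have hrpos : 0 < r := by linarith
  have hrup : r ≤ R := by
    apply Real.sqrt_le_iff.2 ⟨hR.le, ?_⟩
    rw [div_le_iff₀ hπ]
    linarith [show R ^ 2 * Real.pi = Real.pi * R ^ 2 by ring]
  have hcpos : 0 < 1 / r := by positivity
  obtain ⟨B', hB'h, hB'K, hB'A⟩ := exists_scaled_body B hcpos
  have hA' : B'.area = Real.pi := by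
    rw [hB'A, show B.area = r ^ 2 * Real.pi by rw [hr2]; field_simp]
    field_simp
  have hB'pos : ∀ θ, 0 < B'.h θ := fun θ => by rw [hB'h]; exact mul_pos hcpos (hBh θ)
  obtain ⟨D', hD', hD'r⟩ := exists_scale D hcpos
  have hK'D' : B'.K ⊆ D'.carrier := by
    rw [hB'K, hD']
    exact image_mono hBK
  have hD'd : D'.carrier ⊆ closedBall 0 d := by
    rw [hD']
    rintro _ ⟨x, hx, rfl⟩
    have h1 := hDd hx
    rw [mem_closedBall_zero_iff] at h1 ⊢
    rw [norm_smul, Real.norm_of_nonneg hcpos.le, hd]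
    have : 1 / r ≤ 2 / R := by
      rw [div_le_div_iff₀ hrpos hR]
      linarith
    calc 1 / r * ‖x‖ ≤ 2 / R * d₀ := by gcongr
      _ = 2 * d₀ / R := by ring
  have h3 : (1 / r) ^ 2 ≤ 4 / R ^ 2 := by
    rw [div_pow, one_pow, div_le_div_iff₀ (by positivity) (by positivity)]
    nlinarith
  have hv' : volume.real (D'.carrier \ B'.K) ≤ ε := by
    have h1 : D'.carrier \ B'.K = (fun x : E 2 => (1 / r) • x) '' (D.carrier \ B.K) := by
      rw [hD', hB'K, image_sdiff]
      intro x y hxy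
      exact smul_right_injective (E 2) hcpos.ne' hxy
    rw [h1, uq_vol_smul hcpos]
    have h2 : volume.real (D.carrier \ B.K) ≤ ε * R ^ 2 / 4 := hBv.trans (min_le_left _ _)
    calc (1 / r) ^ 2 * volume.real (D.carrier \ B.K) ≤ 4 / R ^ 2 * (ε * R ^ 2 / 4) := by
          gcongr
      _ = ε := by field_simp
  have hvD' : volume.real D'.carrier ≤ 4 * Real.pi := by
    rw [hD', uq_vol_smul hcpos, hvD]
    calc (1 / r) ^ 2 * (Real.pi * R ^ 2) ≤ 4 / R ^ 2 * (Real.pi * R ^ 2) := by gcongr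
      _ = 4 * Real.pi := by field_simp
  obtain ⟨k', hk', hk'e⟩ := exists_k (β := r * β) (by positivity)
  have hk'k : k' ≤ k := by
    rw [k_mono hk' hk, hk'e, hkβ]
    exact mul_le_mul_of_nonneg_right hrup hβ.le
  have hk'K : k' ≤ K₀ := hk'k.trans (le_max_left _ _)
  have hβK : k' * GG k' ≤ K₀ := by
    rw [hk'e]
    refine le_trans ?_ (le_max_right _ _)
    rw [hkβ]
    exact mul_le_mul_of_nonneg_right hrup hβ.le
  have hlow : r * k / R ≤ k' := by
    rw [k_mono (by positivity) hk', hk'e]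
    have hG : GG (r * k / R) ≤ GG k := by
      apply (Pool.Agent.H.MP_1b807b_an.strictMono_F 1).monotone
      rw [div_le_iff₀ hR]
      nlinarith
    calc r * k / R * GG (r * k / R) ≤ r * k / R * GG k := by gcongr
      _ = r / R * (k * GG k) := by ring
      _ = r * β := by rw [hkβ]; field_simp
  have hk2 : k / 2 ≤ k' := by
    refine le_trans ?_ hlow
    rw [div_le_div_iff₀ (by norm_num) hR]
    nlinarith
  have hlen := hgap r hr₀r B' hA' hB'pos (by rw [← hD']; exact hK'D')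
  obtain ⟨V, Z, f, M, hT⟩ := hcase k' B' hk2 hk'K trivial hA' hB'pos (hK'D'.trans hD'd) hlen
  set W : ℝ := 4 * Real.pi * C ^ 2 + 1 with hW
  have hWpos : 0 < W := by positivity
  have hb := test_bound_gen (K₀ := K₀) hC hc₀ D' B' k' (k' * GG k') (-γ) (-(γ / 2 / W)) V Z f M
    hk'.le hk'K (by rw [hk'e]; positivity) hβK hD'd hK'D' hT (by
      intro A hA1 hA2
      have e1 : C₁ * volume.real (D'.carrier \ B'.K) ≤ C₁ * ε := by gcongr
      have e2 : A ≤ W := by
        have : C ^ 2 * volume.real D'.carrier ≤ C ^ 2 * (4 * Real.pi) := by gcongr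
        rw [hW]
        linarith
      have e3 : γ / 2 / W * A ≤ γ / 2 := by
        calc γ / 2 / W * A ≤ γ / 2 / W * W := by gcongr
          _ = γ / 2 := by field_simp
      have e4 : -(γ / 2 / W) * A = -(γ / 2 / W * A) := by ring
      rw [e4]
      linarith)
  have hb2 := hD'r _ _ hb
  have e1 : 1 / r * (k' * GG k') = β := by
    rw [hk'e]
    field_simp
  rw [e1] at hb2
  refine ⟨γ / 2 / W / R ^ 2, by positivity, hb2.trans ?_⟩
  rw [EReal.coe_le_coe_iff]
  have h5 : (k / R) ^ 2 ≤ (1 / r) ^ 2 * k' ^ 2 := by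
    rw [← mul_pow]
    have : k / R ≤ 1 / r * k' := by
      rw [div_mul_eq_mul_div, one_mul, le_div_iff₀ hrpos]
      calc k / R * r = r * k / R := by ring
        _ ≤ k' := hlow
    gcongr
  have h6 : γ / 2 / W / R ^ 2 ≤ (1 / r) ^ 2 * (γ / 2 / W) := by
    have : 1 / R ^ 2 ≤ (1 / r) ^ 2 := by
      rw [div_pow, one_pow]
      apply one_div_le_one_div_of_le (by positivity)
      gcongr
    calc γ / 2 / W / R ^ 2 = 1 / R ^ 2 * (γ / 2 / W) := by ring
      _ ≤ (1 / r) ^ 2 * (γ / 2 / W) := by gcongr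
  have h7 : (1 / r) ^ 2 * (-k' ^ 2 + -(γ / 2 / W)) =
      -((1 / r) ^ 2 * k' ^ 2) - (1 / r) ^ 2 * (γ / 2 / W) := by
    ring
  rw [h7]
  linarith

/-- uniqueness of the maximiser, from strict test pairs in all cases -/
theorem unique_of_strict (hcs : CaseStrict fun _ _ => True) {R : ℝ} (hR : 0 < R) {α : ℝ}
    (hα : α < 0) (D : Domain 2) (hc : Convex ℝ D.carrier)
    (hv : volume D.carrier = volume (ball (0 : E 2) R))
    (hge : (ballDomain 2 (by norm_num) R hR).robin α ≤ D.robin α) :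
    ∃ x₀, D.carrier = ball x₀ R := by
  by_contra hcon
  push Not at hcon
  obtain ⟨k, hk, hkβ⟩ := exists_k (β := R * (-α)) (by nlinarith)
  obtain ⟨a, ha⟩ := D.isConnected.nonempty
  obtain ⟨D', hD', hD'r⟩ := exists_translate D (-a)
  have h0 : (0 : E 2) ∈ D'.carrier := by
    rw [hD']
    exact ⟨a, ha, by simp⟩
  have hc' : Convex ℝ D'.carrier := by
    rw [hD']
    have := hc.translate (-a)
    simpa [add_comm] using this
  have hv' : volume D'.carrier = volume (ball (0 : E 2) R) := by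
    rw [hD', ← hv]
    rw [image_add_right, measure_preimage_add_right]
  have hne' : ∀ x₀, D'.carrier ≠ ball x₀ R := by
    intro x₀ hx₀
    refine hcon (x₀ + a) ?_
    have h1 : D.carrier = (fun x => x + a) '' D'.carrier := by
      rw [hD', image_image]
      simp
    rw [h1, hx₀]
    ext z
    simp only [mem_image, mem_ball]
    constructor
    · rintro ⟨y, hy, rfl⟩
      rwa [dist_add_right]
    · intro hz
      refine ⟨z - a, ?_, by simp⟩
      rw [dist_eq_norm] at hz ⊢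
      rwa [show z - a - x₀ = z - (x₀ + a) by abel]
  obtain ⟨η, hη, h1⟩ := strict_aux hcs hR (by linarith : 0 < -α) D' hc' hv' h0 hk hkβ hne'
  have h2 := hD'r _ _ h1
  have h3 := robin_ball_scale hR hk
  have e : -(k * GG k / R) = α := by
    rw [hkβ]
    field_simp
  rw [e] at h3
  rw [neg_neg] at h2
  have h4 := (h3.trans hge).trans h2
  rw [EReal.coe_le_coe_iff] at h4
  linarith

end Pool.Agent.RC
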