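import Pool.Agent.H.MP_1b807b_an.C.HNonneg
import Pool.Agent.H.MP_1b807b_an.C.NumF
import Pool.Agent.H.MP_1b807b_an.C.Halves
import Pool.Agent.H.MP_1b807b_an.C.FEnergy
import Pool.Agent.H.MP_1b807b_an.C.FTest
import Pool.Agent.H.MP_1b807b_an.C.GGlow
import Pool.Agent.H.MP_1b807b_an.C.CertF
import Pool.Agent.H.MP_1b807b_an.C.Unique

/-! MP_1b807b_an, convex planar domains, module StrictF: strict test pairs from the exponential
profile -/

set_option autoImplicit false

namespace Pool.Agent.RC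

open MeasureTheory Metric Set
open Pool.Agent.RG
open scoped RealInnerProductSpace

theorem Body.Ml_nonneg (B : Body) (o : E 2) : 0 ≤ B.Ml o := by
  unfold Body.Ml
  refine intervalIntegral.integral_nonneg (by positivity) fun θ _ => ?_
  have := (B.ρ_pos θ).le
  positivity

theorem Body.Mw_nonneg (B : Body) (o : E 2) : 0 ≤ B.Mw o := by
  unfold Body.Mw
  exact intervalIntegral.integral_nonneg (by positivity) fun θ _ => by positivity

theorem jF_zero {c : ℝ} (hc : 0 < c) : jF c 0 = (1 - Real.exp (-(2 * c))) / (2 * c) := by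
  unfold jF
  have hd : ∀ t ∈ uIcc (0 : ℝ) 1, HasDerivAt (fun t : ℝ => -Real.exp (-(2 * c * t)) / (2 * c))
      (t ^ 0 * Real.exp (-(2 * c * t))) t := by
    intro t _
    have h1 : HasDerivAt (fun t : ℝ => -(2 * c * t)) (-(2 * c * 1)) t :=
      ((hasDerivAt_id t).const_mul (2 * c)).neg
    rw [mul_one] at h1
    have h2 := (h1.exp.neg).div_const (2 * c)
    refine h2.congr_deriv ?_
    field_simp
  rw [intervalIntegral.integral_eq_sub_of_hasDerivAt hd]
  · simp
    ring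
  · exact (by fun_prop : Continuous fun t : ℝ => t ^ 0 * Real.exp (-(2 * c * t))).intervalIntegrable
      _ _

/-- a lower bound for the leading coefficient -/
theorem x1_ge {k c P β : ℝ} (hk : 37 / 10 ≤ k) (hc : c = k - 4 / 5) (hP : P = c ^ 2 + k ^ 2)
    (hβ : β = k - 1 / 2 - 1 / (5 * k)) : 1 / 4 ≤ P * jF c 0 - β := by
  have hk0 : 0 < k := by linarith
  have hc0 : 0 < c := by rw [hc]; linarith
  have hP2 : 2 * c * k ≤ P := by
    rw [hP]
    nlinarith [sq_nonneg (c - k)]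
  have he : Real.exp (-(2 * c)) * (4 * k) ≤ 1 := by
    have h1 := Real.quadratic_le_exp_of_nonneg (x := 2 * c) (by positivity)
    have h2 : 4 * k ≤ Real.exp (2 * c) := by
      refine le_trans ?_ h1
      rw [hc]
      nlinarith
    rw [Real.exp_neg, inv_mul_le_iff₀ (Real.exp_pos _), mul_one]
    exact h2
  have hj : jF c 0 = (1 - Real.exp (-(2 * c))) / (2 * c) := jF_zero hc0
  have hj0 : 0 ≤ jF c 0 := by
    rw [hj]
    have : Real.exp (-(2 * c)) ≤ 1 := Real.exp_le_one_iff.2 (by linarith)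
    apply div_nonneg <;> linarith
  have h3 : 2 * c * k * jF c 0 ≤ P * jF c 0 := mul_le_mul_of_nonneg_right hP2 hj0
  have h4 : 2 * c * k * jF c 0 = k - Real.exp (-(2 * c)) * k := by
    rw [hj]
    field_simp
  have h5 : 0 < 1 / (5 * k) := by positivity
  rw [hβ]
  linarith

/-- the functional (F) with slack -/
theorem F_key {k c P l : ℝ} (hk : 37 / 10 ≤ k) (hc : c = k - 4 / 5) (hP : P = c ^ 2 + k ^ 2)
    (hl1 : 7 / 5 ≤ l) (hl2 : l ≤ 48 / 25) (B : Body) (hA : B.area = Real.pi)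
    (hlen : B.len = 2 * Real.pi * l) : ∃ o ∈ B.K,
      EF P c (k * GG k) (B.Ml o) (B.Mw o) B.len ≤ -(1 / 4 * (0.01 * (B.len - 2 * Real.pi))) := by
  have hπ := Real.pi_pos
  obtain ⟨o, ho, h1⟩ := H_nonnegE (by linarith) (cert_F hl1 hl2) B hA hlen
  obtain ⟨hx1, hx2, hx3, hx4⟩ := F_num hk hc hP rfl rfl
  have hxge := x1_ge hk hc hP rfl
  set β := k - 1 / 2 - 1 / (5 * k) with hβ
  set x := P * jF c 0 - β with hx
  have hMw := Mw_ge B hA o
  have hMl := B.Ml_nonneg o
  have hδ : 0 < B.len - 2 * Real.pi := by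
    rw [hlen]
    nlinarith
  have hk0 : 0 < k := by linarith
  have hP0 : 0 < P := by rw [hP]; positivity
  refine ⟨o, ho, ?_⟩
  have hβk : β ≤ k * GG k := GG_low hk
  have hEF : EF P c (k * GG k) (B.Ml o) (B.Mw o) B.len ≤ EF P c β (B.Ml o) (B.Mw o) B.len := by
    unfold EF
    have h2 : 0 ≤ B.len / P + B.Ml o := by
      have : 0 ≤ B.len / P := div_nonneg (by linarith) hP0.le
      linarith
    nlinarith
  refine hEF.trans ?_
  set a := B.Ml o - 2 * Real.pi with ha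
  set m := B.Mw o - 2 * Real.pi with hm
  set δ := B.len - 2 * Real.pi with hδe
  have e1 : EF P c β (B.Ml o) (B.Mw o) B.len = x * a - P * jF c 1 * m +
      (3 * P * jF c 2 - β / P) * δ +
      2 * Real.pi * (x - 3 * P * jF c 1 + 3 * P * jF c 2 - P * jF c 3 + 1 - β / P) := by
    have e2 : B.Ml o = a + 2 * Real.pi := by rw [ha]; ring
    have e3 : B.Mw o = m + 2 * Real.pi := by rw [hm]; ring
    have e4 : B.len = δ + 2 * Real.pi := by rw [hδe]; ring
    unfold EF
    rw [e2, e3, e4, hx]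
    field_simp
    ring
  have hm0 : 0 ≤ m := by linarith
  have h3 : (1 - 0.0225) * x * m ≤ P * jF c 1 * m := by
    refine mul_le_mul_of_nonneg_right ?_ hm0
    norm_num at hx2 ⊢
    linarith
  have h4 : (3 * P * jF c 2 - β / P) * δ ≤ (3 - 2.23) * x * δ :=
    mul_le_mul_of_nonneg_right hx3 hδ.le
  have h5 : 2 * Real.pi * (x - 3 * P * jF c 1 + 3 * P * jF c 2 - P * jF c 3 + 1 - β / P) ≤
      2 * Real.pi * (0.18 * x) := mul_le_mul_of_nonneg_left hx4 (by positivity)
  have hl3 : 0 < l - 1 := by linarith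
  have e5 : 0.18 / (l - 1) * δ = 0.18 * (2 * Real.pi) := by
    rw [hδe, hlen]
    field_simp
  have h6 : x * (a - m * (1 - 0.045 / 2) + (3 - (2.22 - 0.18 / (l - 1))) * δ) ≤ 0 :=
    mul_nonpos_of_nonneg_of_nonpos hx1.le h1
  have e6 : x * (a - m * (1 - 0.045 / 2) + (3 - (2.22 - 0.18 / (l - 1))) * δ) =
      x * a - (1 - 0.0225) * x * m + (3 - 2.22) * x * δ + x * (0.18 / (l - 1) * δ) := by ring
  rw [e6, e5] at h6
  have h7 : 1 / 4 * (0.01 * δ) ≤ x * (0.01 * δ) :=
    mul_le_mul_of_nonneg_right hxge (by positivity)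
  rw [e1]
  norm_num at h3 h4 h5 h6 h7 ⊢
  nlinarith [h3, h4, h5, h6, h7]

theorem case_F_strict : CaseStrict fun k B => 37 / 10 ≤ k ∧ 2 * Real.pi * (7 / 5) ≤ B.len ∧
    B.len ≤ 2 * Real.pi * (48 / 25) := by
  intro K₀ hK _ _ d hd τ hτ
  obtain ⟨C, c₀, hC, hc₀, htest⟩ := F_test hK hd
  have hπ := Real.pi_pos
  refine ⟨C, c₀, 1 / 4 * (0.01 * τ), hC, hc₀, by positivity, ?_⟩
  rintro k B _ hkK ⟨hk, hl1, hl2⟩ hA h0 hB hlen
  obtain ⟨l, hl⟩ : ∃ l : ℝ, B.len = 2 * Real.pi * l := ⟨B.len / (2 * Real.pi), by field_simp⟩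
  have hl1' : 7 / 5 ≤ l := by
    rw [hl] at hl1
    exact le_of_mul_le_mul_left hl1 (by positivity)
  have hl2' : l ≤ 48 / 25 := by
    rw [hl] at hl2
    exact le_of_mul_le_mul_left hl2 (by positivity)
  obtain ⟨o, ho, hkey⟩ := F_key hk rfl rfl hl1' hl2' B hA hl
  have hle : -(1 / 4 * (0.01 * (B.len - 2 * Real.pi))) ≤ -(1 / 4 * (0.01 * τ)) := by
    linarith
  have hneg : -(1 / 4 * (0.01 * τ)) < 0 := by
    have : 0 < 1 / 4 * (0.01 * τ) := by positivity
    linarith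
  have hT := htest k _ _ B o rfl rfl (by linarith) hkK hA h0 hB ho (by linarith) 1 one_pos
  refine ⟨_, _, _, _, { hT with energy := ?_ }⟩
  have hk0 : 0 < k := by linarith
  have hc0 : 0 < k - 4 / 5 := by linarith
  refine (F_energy hk0 hc0 rfl B hA h0 o).trans ?_
  have hP1 : 1 ≤ (k - 4 / 5) ^ 2 + k ^ 2 := by nlinarith
  have h1 := hkey.trans hle
  nlinarith

end Pool.Agent.RC
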