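import Pool.Agent.H.MP_1b807b_an.C.HNonneg
import Pool.Agent.H.MP_1b807b_an.C.Halves
import Pool.Agent.H.MP_1b807b_an.C.HEnergy
import Pool.Agent.H.MP_1b807b_an.C.HTest
import Pool.Agent.H.MP_1b807b_an.C.Kern
import Pool.Agent.H.MP_1b807b_an.C.NumN
import Pool.Agent.H.MP_1b807b_an.C.CertN
import Pool.Agent.H.MP_1b807b_an.C.Unique

/-! MP_1b807b_an, convex planar domains, module StrictH: strict test pairs from the functional (H) -/

set_option autoImplicit false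

namespace Pool.Agent.RC

open MeasureTheory Metric Set
open Pool.Agent.RG
open scoped RealInnerProductSpace

/-- the functional (H) with slack -/
theorem HE_key {k₀ b η η' ζ l κ c₁ z₀ z₁ k : ℝ} (hN : NumE k₀ b η' ζ) (hk : k₀ ≤ k) (hl : 1 ≤ l)
    (hC : CertE η ζ l κ c₁ z₀ z₁) (B : Body) (hA : B.area = Real.pi)
    (hlen : B.len = 2 * Real.pi * l) : ∃ o ∈ B.K,
      X1 k b * (B.Ml o - 2 * Real.pi) - X2 k b * (B.Mw o - 2 * Real.pi)
        + X3e k b * (B.len - 2 * Real.pi) ≤ -((η' - η) * X1 k b * (B.len - 2 * Real.pi)) := by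
  obtain ⟨o, ho, h1⟩ := H_nonnegE hl hC B hA hlen
  obtain ⟨hX1, hX2, hX3⟩ := hN k hk
  have hMw := Mw_ge B hA o
  have hδ : 0 ≤ B.len - 2 * Real.pi := by
    rw [hlen]
    nlinarith [Real.pi_pos]
  refine ⟨o, ho, ?_⟩
  set m := B.Mw o - 2 * Real.pi with hm
  set a := B.Ml o - 2 * Real.pi with ha
  set δ := B.len - 2 * Real.pi with hδe
  have h2 : X3e k b * δ ≤ (4 * X2 k b - (η' - 2 * ζ + 1) * X1 k b) * δ :=
    mul_le_mul_of_nonneg_right (by linarith) hδ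
  have h3 : (1 - ζ / 2) * X1 k b * (m - 4 * δ) ≤ X2 k b * (m - 4 * δ) :=
    mul_le_mul_of_nonneg_right (by linarith) (by linarith)
  have h4 : X1 k b * (a - m * (1 - ζ / 2) + (3 - η) * δ) ≤ 0 :=
    mul_nonpos_of_nonneg_of_nonpos hX1.le h1
  linarith [h2, h3, h4,
    show X1 k b * (a - m * (1 - ζ / 2) + (3 - η) * δ) = X1 k b * a - X1 k b * m * (1 - ζ / 2) +
      (3 - η) * X1 k b * δ by ring,
    show (1 - ζ / 2) * X1 k b * (m - 4 * δ) = X1 k b * m * (1 - ζ / 2) - 4 * X1 k b * δ +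
      2 * ζ * X1 k b * δ by ring,
    show (4 * X2 k b - (η' - 2 * ζ + 1) * X1 k b) * δ = 4 * X2 k b * δ - η' * X1 k b * δ +
      2 * ζ * X1 k b * δ - X1 k b * δ by ring]

theorem KB_mono {k₀ k b : ℝ} (h : KB k₀ b) (hk : k₀ ≤ k) : KB k b := by
  obtain ⟨h1, h2, h3, h4⟩ := h
  have hk0 : 0 < k := lt_of_lt_of_le h1 hk
  have hsq : k₀ ^ 2 ≤ k ^ 2 := pow_le_pow_left₀ h1.le hk 2
  refine ⟨hk0, h2, h3.trans hsq, ?_⟩
  nlinarith

theorem X12_ge {k b : ℝ} (hk : 0 < k) (hb : 0 < b) :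
    b ^ 2 / (1 + b) ^ 2 / 2 ≤ X1 k b - X2 k b := by
  rw [X12_kern hk hb]
  unfold kern
  have hw : ∀ s ∈ Icc (0 : ℝ) 1, 1 ≤ wt b s ∧ wt b s ≤ 1 + b := by
    intro s hs
    unfold wt
    have h1 : s ^ 2 ≤ 1 := pow_le_one₀ hs.1 hs.2
    constructor
    · nlinarith [sq_nonneg s]
    · nlinarith
  have hle : ∀ s ∈ Icc (0 : ℝ) 1, b ^ 2 / (1 + b) ^ 2 * s ≤
      k * I0 (k * s) * I1 (k * s) / s * 0 + I0 (k * s) ^ 2 * (b ^ 2 * s / wt b s ^ 2) := by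
    intro s hs
    obtain ⟨h1, h2⟩ := hw s hs
    have hs0 := hs.1
    have h4 : b ^ 2 / (1 + b) ^ 2 * s ≤ b ^ 2 * s / wt b s ^ 2 := by
      have : wt b s ^ 2 ≤ (1 + b) ^ 2 := by gcongr
      calc b ^ 2 / (1 + b) ^ 2 * s ≤ b ^ 2 / wt b s ^ 2 * s := by gcongr
        _ = b ^ 2 * s / wt b s ^ 2 := by ring
    have h5 : b ^ 2 * s / wt b s ^ 2 ≤ I0 (k * s) ^ 2 * (b ^ 2 * s / wt b s ^ 2) := by
      have : 1 ≤ I0 (k * s) ^ 2 := one_le_pow₀ (one_le_I0 _)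
      have h6 : 0 ≤ b ^ 2 * s / wt b s ^ 2 := by positivity
      nlinarith
    linarith
  have hc : ContinuousOn (fun s : ℝ => k * I0 (k * s) * I1 (k * s) / s * 0 +
      I0 (k * s) ^ 2 * (b ^ 2 * s / wt b s ^ 2)) (Icc 0 1) := by
    have h1 : ContinuousOn (fun s : ℝ => I0 (k * s) ^ 2 * (b ^ 2 * s / wt b s ^ 2)) (Icc 0 1) := by
      have h2 := continuous_I0
      have h3 : Continuous (wt b) := by unfold wt; fun_prop
      refine ContinuousOn.mul (by fun_prop) (ContinuousOn.div (by fun_prop) (by fun_prop) ?_)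
      intro s hs
      have := (hw s hs).1
      positivity
    refine h1.congr fun s _ => ?_
    simp
  have h1 : ∫ s in (0 : ℝ)..1, b ^ 2 / (1 + b) ^ 2 * s = b ^ 2 / (1 + b) ^ 2 / 2 := by
    rw [intervalIntegral.integral_const_mul, integral_id]
    ring
  rw [← h1]
  refine intervalIntegral.integral_mono_on zero_le_one ?_ ?_ hle
  · exact (by fun_prop : Continuous fun s : ℝ => b ^ 2 / (1 + b) ^ 2 * s).intervalIntegrable _ _
  · rw [← uIcc_of_le (zero_le_one' ℝ)] at hc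
    exact hc.intervalIntegrable

theorem case_HE_strict {k₀ b η η' ζ lo hi κ c₁ z₀ z₁ : ℝ} (hKB : KB k₀ b)
    (hN : NumE k₀ b η' ζ) (hη : η < η') (hζ : ζ ≤ 2) (hlo : 1 ≤ lo)
    (hC : ∀ l, lo ≤ l → l ≤ hi → CertE η ζ l κ c₁ z₀ z₁) :
    CaseStrict fun k B => k₀ ≤ k ∧ 2 * Real.pi * lo ≤ B.len ∧ B.len ≤ 2 * Real.pi * hi := by
  intro K₀ hK _ _ d hd τ hτ
  obtain ⟨-, hb, -, -⟩ := id hKB
  obtain ⟨C, c, hC0, hc0, h⟩ := H_testE hb hK hd
  have hπ := Real.pi_pos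
  have hI : 0 < I0 K₀ := I0_pos K₀
  set γ : ℝ := (1 + b) / I0 K₀ ^ 2 * ((η' - η) * (b ^ 2 / (1 + b) ^ 2 / 2) * τ) with hγ
  have hη' : 0 < η' - η := by linarith
  refine ⟨C, c, γ, hC0, hc0, by positivity, ?_⟩
  rintro k B _ hkK ⟨hk, hl1, hl2⟩ hA h0 hB hlen
  have hKBk := KB_mono hKB hk
  have hkpos := hKBk.1
  obtain ⟨l, hl⟩ : ∃ l : ℝ, B.len = 2 * Real.pi * l := ⟨B.len / (2 * Real.pi), by field_simp⟩
  have hl1' : lo ≤ l := by
    rw [hl] at hl1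
    exact le_of_mul_le_mul_left hl1 (by positivity)
  have hl2' : l ≤ hi := by
    rw [hl] at hl2
    exact le_of_mul_le_mul_left hl2 (by positivity)
  obtain ⟨o, ho, hkey⟩ := HE_key hN hk (hlo.trans hl1') (hC l hl1' hl2') B hA hl
  obtain ⟨hX1, hX2, -⟩ := hN k hk
  have hX1' : b ^ 2 / (1 + b) ^ 2 / 2 ≤ X1 k b := by
    have h1 := X12_ge hkpos hb
    have h2 : 0 ≤ X2 k b := by nlinarith
    linarith
  have hneg : -((η' - η) * X1 k b * (B.len - 2 * Real.pi)) ≤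
      -((η' - η) * (b ^ 2 / (1 + b) ^ 2 / 2) * τ) := by
    have h1 : τ ≤ B.len - 2 * Real.pi := by linarith
    have h2 : (η' - η) * (b ^ 2 / (1 + b) ^ 2 / 2) * τ ≤
        (η' - η) * X1 k b * (B.len - 2 * Real.pi) := by gcongr
    linarith
  have hpos : 0 < (η' - η) * (b ^ 2 / (1 + b) ^ 2 / 2) * τ := by positivity
  have hT := h k B o hKBk hkK hA h0 hB ho (by linarith) 1 one_pos
  refine ⟨VH b o, fun x => b • (x - o), fH k b, fun t => MH k b (max t 0), ?_⟩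
  refine { hT with energy := ?_ }
  refine (H_energyE hKBk B hA h0 o).trans ?_
  have hIk : I0 k ≤ I0 K₀ := I0_mono hkpos.le hK.le hkK
  have hIk0 : 0 < I0 k := I0_pos k
  have h5 : (1 + b) / I0 K₀ ^ 2 ≤ (1 + b) / I0 k ^ 2 := by gcongr
  have h6 : (1 + b) / I0 k ^ 2 * (X1 k b * (B.Ml o - 2 * Real.pi) - X2 k b * (B.Mw o - 2 * Real.pi)
      + X3e k b * (B.len - 2 * Real.pi)) ≤
      (1 + b) / I0 k ^ 2 * (-((η' - η) * (b ^ 2 / (1 + b) ^ 2 / 2) * τ)) := by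
    refine mul_le_mul_of_nonneg_left (hkey.trans hneg) (by positivity)
  refine h6.trans ?_
  rw [hγ, mul_neg]
  refine neg_le_neg ?_
  exact mul_le_mul_of_nonneg_right h5 hpos.le

theorem case_N_strict : CaseStrict fun k B => 9 / 4 ≤ k ∧ 2 * Real.pi ≤ B.len ∧
    B.len ≤ 2 * Real.pi * (7 / 5) := by
  have h := case_HE_strict (lo := 1) (hi := 7 / 5) (by unfold KB; norm_num) numN
    (by norm_num : (191 / 100 : ℝ) < 48 / 25) (by norm_num) le_rfl (fun l h1 h2 => cert_N h1 h2)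
  refine h.mono ?_
  rintro k B _ _ _ ⟨h1, h2, h3⟩
  exact ⟨h1, by linarith, h3⟩

end Pool.Agent.RC
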