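import Pool.Agent.H.MP_1b807b_an.C.StrictW
import Pool.Agent.H.MP_1b807b_an.C.StrictH
import Pool.Agent.H.MP_1b807b_an.C.StrictF
import Pool.Agent.H.MP_1b807b_an.C.StrictX

/-! MP_1b807b_an, convex planar domains, module MainU: the disc is the unique maximiser -/

set_option autoImplicit false

namespace Pool.Agent.RC

open MeasureTheory Metric Set
open Pool.Agent.RG
open scoped RealInnerProductSpace

theorem case_all_strict : CaseStrict fun _ _ => True := by
  refine (((case_small_strict.or case_N_strict).or (case_W2_strict.or case_F_strict)).or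
    (case_W3_strict.or case_X_strict)).mono ?_
  intro k B _ hA h0 _
  have h1 := B.len_ge hA h0
  have hpi := Real.pi_pos
  rcases le_total k (9 / 4) with hk | hk
  · exact Or.inl (Or.inl (Or.inl ⟨hk, h1⟩))
  rcases le_total B.len (2 * Real.pi * (7 / 5)) with hl | hl
  · exact Or.inl (Or.inl (Or.inr ⟨hk, h1, hl⟩))
  rcases le_total k (37 / 10) with hk2 | hk2
  · exact Or.inl (Or.inr (Or.inl ⟨hk2, hl⟩))
  rcases le_total B.len (2 * Real.pi * (48 / 25)) with hl2 | hl2
  · exact Or.inl (Or.inr (Or.inr ⟨hk2, hl, hl2⟩))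
  rcases le_total k (28 / 5) with hk3 | hk3
  · exact Or.inr (Or.inl ⟨hk3, hl2⟩)
  · refine Or.inr (Or.inr ⟨hk3, ?_⟩)
    nlinarith

/-- a planar convex domain that does at least as well as the disc of the same area is that disc -/
theorem main_convex_unique {R : ℝ} (hR : 0 < R) {α : ℝ} (hα : α < 0) (D : Domain 2)
    (hc : Convex ℝ D.carrier) (hv : volume D.carrier = volume (ball (0 : E 2) R))
    (hge : (ballDomain 2 (by norm_num) R hR).robin α ≤ D.robin α) :
    ∃ x₀, D.carrier = ball x₀ R :=
  unique_of_strict case_all_strict hR hα D hc hv hge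

end Pool.Agent.RC
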