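import Pool.Agent.H.MP_1b807b_an.C.CaseW0
import Pool.Agent.H.MP_1b807b_an.C.Unique

/-! MP_1b807b_an, convex planar domains, module StrictW: the strict inequality of the web case -/

set_option autoImplicit false

namespace Pool.Agent.RC

open MeasureTheory Metric Set
open Pool.Agent.RG
open Pool.Agent.H.MP_1b807b_an

lemma ser_sub_ge {a : ℕ → ℝ} (h : Ent a) (ha : ∀ j, 0 ≤ a j) {x y : ℝ} (hx : 0 ≤ x)
    (hxy : x ≤ y) : a 1 * (y - x) ≤ ser a y - ser a x := by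
  have h1 := (h.summable y).hasSum.sub (h.summable x).hasSum
  have h2 : ∀ j, 0 ≤ a j * y ^ j - a j * x ^ j := by
    intro j
    rw [← mul_sub]
    exact mul_nonneg (ha j) (sub_nonneg.2 (pow_le_pow_left₀ hx hxy j))
  have h3 := h1.summable.sum_le_tsum {1} (fun j _ => h2 j)
  rw [h1.tsum_eq] at h3
  simp only [Finset.sum_singleton, pow_one] at h3
  unfold ser
  linarith

theorem rr_sub_ge {x y : ℝ} (hx : 0 ≤ x) (hxy : x ≤ y) :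
    shc bb 1 * (y ^ 2 - x ^ 2) ≤ rr y - rr x := by
  rw [rr_eq_rs, rr_eq_rs]
  exact ser_sub_ge ent_bb.shc (fun j => (shc_bb_pos j).le) (by positivity)
    (pow_le_pow_left₀ hx hxy 2)

/-- the inequality of the web case, with slack -/
theorem W0_strict {k₁ σ' σ₁ k₀ : ℝ} (hk₀ : 0 < k₀) (hσ' : 0 ≤ σ') (hσ : σ' < σ₁)
    (h : ∫ s in σ'..1, rr (k₁ * s) ≤ (2 - σ') * rr (k₁ * σ')) :
    ∃ g > (0 : ℝ), ∀ k σ : ℝ, k₀ ≤ k → k ≤ k₁ → σ₁ ≤ σ → σ < 1 →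
      (∫ s in σ..1, rr (k * s)) - (2 - σ) * rr (k * σ) ≤ -g := by
  refine ⟨shc bb 1 * (k₀ ^ 2 * (σ₁ ^ 2 - σ' ^ 2)), ?_, ?_⟩
  · have h1 : 0 < shc bb 1 := shc_bb_pos 1
    have h2 : 0 < σ₁ ^ 2 - σ' ^ 2 := by nlinarith
    positivity
  intro k σ hk hk1 hs1 hs2
  have hkpos : 0 < k := lt_of_lt_of_le hk₀ hk
  have h1 := W0_mono hσ' le_rfl (by linarith : σ' < 1) hkpos hk1 h
  have hcont : Continuous fun s => rr (k * s) := continuous_rr.comp (continuous_const.mul continuous_id)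
  have hsplit := intervalIntegral.integral_add_adjacent_intervals
    (hcont.intervalIntegrable σ' σ (μ := MeasureTheory.volume)) (hcont.intervalIntegrable σ 1)
  have h2 : (σ - σ') * rr (k * σ') ≤ ∫ s in σ'..σ, rr (k * s) := by
    have h3 : ∫ _ in σ'..σ, rr (k * σ') = (σ - σ') * rr (k * σ') := by
      rw [intervalIntegral.integral_const, smul_eq_mul]
    rw [← h3]
    refine intervalIntegral.integral_mono_on (by linarith) (by simp)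
      (hcont.intervalIntegrable _ _) fun s hs => ?_
    exact rr_mono (by positivity) (mul_le_mul_of_nonneg_left hs.1 hkpos.le)
  have h4 : rr (k * σ₁) ≤ rr (k * σ) :=
    rr_mono (mul_nonneg hkpos.le (by linarith)) (mul_le_mul_of_nonneg_left hs1 hkpos.le)
  have h5 := rr_sub_ge (x := k * σ') (y := k * σ₁) (by positivity)
    (mul_le_mul_of_nonneg_left hσ.le hkpos.le)
  have h6 : shc bb 1 * (k₀ ^ 2 * (σ₁ ^ 2 - σ' ^ 2)) ≤ shc bb 1 * ((k * σ₁) ^ 2 - (k * σ') ^ 2) := by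
    have h7 : k₀ ^ 2 ≤ k ^ 2 := pow_le_pow_left₀ hk₀.le hk 2
    have h8 : 0 ≤ σ₁ ^ 2 - σ' ^ 2 := by nlinarith
    have h9 : 0 < shc bb 1 := shc_bb_pos 1
    have h10 : (k * σ₁) ^ 2 - (k * σ') ^ 2 = k ^ 2 * (σ₁ ^ 2 - σ' ^ 2) := by ring
    rw [h10]
    gcongr
  have h11 : (1 : ℝ) * (rr (k * σ) - rr (k * σ')) ≤ (2 - σ) * (rr (k * σ) - rr (k * σ')) := by
    refine mul_le_mul_of_nonneg_right (by linarith) ?_
    have := rr_mono (x := k * σ') (y := k * σ) (by positivity)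
      (mul_le_mul_of_nonneg_left (by linarith) hkpos.le)
    linarith
  nlinarith [h1, h2, h4, h5, h6, h11, hsplit]

/-- strict test pairs from the profile cut off in depth -/
theorem strict_W0_core {k₁ σ' σ₁ : ℝ} (hσ' : 0 ≤ σ') (hσ : σ' < σ₁) (hσ1 : σ₁ < 1)
    (h : ∫ s in σ'..1, rr (k₁ * s) ≤ (2 - σ') * rr (k₁ * σ')) {K₀ k₀ d : ℝ} (hK : 0 < K₀)
    (hk₀ : 0 < k₀) : ∃ C c₀ γ : ℝ, 0 ≤ C ∧ 0 < c₀ ∧ 0 < γ ∧ ∀ (k : ℝ) (B : Body), k₀ ≤ k →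
      k ≤ K₀ → k ≤ k₁ → B.area = Real.pi → (∀ θ, 0 < B.h θ) → B.K ⊆ closedBall 0 d →
      Real.pi * (σ₁ ^ 2 / (1 - σ₁)) ≤ B.len - 2 * Real.pi →
      ∃ (V : E 2 → ℝ) (Z : E 2 → E 2) (f M : ℝ → ℝ),
        IsTest B k (k * GG k) C d c₀ (-γ) V Z f M := by
  obtain ⟨C, c₀, hC, hc₀, htest⟩ := W0_test (d := d) hK
  obtain ⟨g, hg, hstrict⟩ := W0_strict hk₀ hσ' hσ h
  have hπ := Real.pi_pos
  have hσ₁0 : 0 < σ₁ := by linarith
  have h1σ : 0 < 1 - σ₁ := by linarith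
  set m₀ : ℝ := Real.pi * (σ₁ ^ 2 / (1 - σ₁)) with hm₀
  have hm₀pos : 0 < m₀ := by positivity
  have hI := I0_pos K₀
  refine ⟨C, c₀, k₀ ^ 2 * m₀ * g / I0 K₀ ^ 2, hC, hc₀, by positivity, ?_⟩
  intro k B hk hkK hk1 hA h0 hB hlen
  have hkpos : 0 < k := lt_of_lt_of_le hk₀ hk
  obtain ⟨σ, hs1, hs2, hs⟩ := exists_cut (a := (B.len - 2 * Real.pi) / Real.pi) hσ₁0.le hσ1 (by
    rw [le_div_iff₀ hπ]
    rw [hm₀] at hlen
    linarith)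
  have hlen' : B.len - 2 * Real.pi = Real.pi * σ ^ 2 / (1 - σ) := by
    rw [div_eq_iff hπ.ne'] at hs
    rw [hs]
    ring
  refine ⟨_, _, _, _, htest k B σ _ hkpos hkK (hσ₁0.le.trans hs1) hs2 hlen' hA h0 hB ?_⟩
  have h2 := hstrict k σ hk hk1 hs1 hs2
  have h3 : Real.pi * (k ^ 2 * σ ^ 2) / (1 - σ) = k ^ 2 * (B.len - 2 * Real.pi) := by
    rw [hlen']
    ring
  rw [h3]
  have h4 : k ^ 2 * (B.len - 2 * Real.pi) * ((∫ s in σ..1, rr (k * s)) - (2 - σ) * rr (k * σ)) ≤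
      k ^ 2 * (B.len - 2 * Real.pi) * (-g) := by
    refine mul_le_mul_of_nonneg_left h2 ?_
    have : 0 ≤ B.len - 2 * Real.pi := hm₀pos.le.trans hlen
    positivity
  refine h4.trans ?_
  have hIk : I0 k ≤ I0 K₀ := I0_mono hkpos.le hK.le hkK
  have hIk0 : 0 < I0 k := I0_pos k
  have h5 : k₀ ^ 2 * m₀ * g ≤ k ^ 2 * (B.len - 2 * Real.pi) * g := by
    have h6 : k₀ ^ 2 ≤ k ^ 2 := pow_le_pow_left₀ hk₀.le hk 2
    gcongr
  have h7 : I0 k ^ 2 * (k₀ ^ 2 * m₀ * g / I0 K₀ ^ 2) ≤ k₀ ^ 2 * m₀ * g := by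
    have h8 : I0 k ^ 2 ≤ I0 K₀ ^ 2 := by gcongr
    calc I0 k ^ 2 * (k₀ ^ 2 * m₀ * g / I0 K₀ ^ 2) ≤ I0 K₀ ^ 2 * (k₀ ^ 2 * m₀ * g / I0 K₀ ^ 2) := by
          gcongr
      _ = k₀ ^ 2 * m₀ * g := by field_simp
  have h9 : k ^ 2 * (B.len - 2 * Real.pi) * -g = -(k ^ 2 * (B.len - 2 * Real.pi) * g) := by ring
  rw [h9, mul_neg]
  linarith

theorem case_small_strict : CaseStrict fun k B => k ≤ 9 / 4 ∧ 2 * Real.pi ≤ B.len := by
  intro K₀ hK k₀ hk₀ d hd τ hτ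
  have hπ := Real.pi_pos
  set σ₁ : ℝ := min (1 / 2) (Real.sqrt (τ / (2 * Real.pi))) with hσ₁
  have h1 : 0 < σ₁ := by positivity
  have h2 : σ₁ ≤ 1 / 2 := min_le_left _ _
  have h3 : σ₁ ^ 2 ≤ τ / (2 * Real.pi) := by
    have h4 : σ₁ ≤ Real.sqrt (τ / (2 * Real.pi)) := min_le_right _ _
    calc σ₁ ^ 2 ≤ Real.sqrt (τ / (2 * Real.pi)) ^ 2 := by gcongr
      _ = τ / (2 * Real.pi) := Real.sq_sqrt (by positivity)
  obtain ⟨C, c₀, γ, hC, hc₀, hγ, h⟩ := strict_W0_core (k₁ := 9 / 4) (σ' := 0) (σ₁ := σ₁) le_rfl h1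
    (by linarith) W0_num1.le hK hk₀ (d := d)
  refine ⟨C, c₀, γ, hC, hc₀, hγ, ?_⟩
  rintro k B hk hkK ⟨hk1, -⟩ hA h0 hB hlen
  refine h k B hk hkK hk1 hA h0 hB ?_
  have h5 : σ₁ ^ 2 / (1 - σ₁) ≤ τ / (2 * Real.pi) / (1 / 2) := by
    gcongr
    linarith
  have h6 : Real.pi * (τ / (2 * Real.pi) / (1 / 2)) = τ := by field_simp
  have h7 : Real.pi * (σ₁ ^ 2 / (1 - σ₁)) ≤ Real.pi * (τ / (2 * Real.pi) / (1 / 2)) := by gcongr
  linarith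

theorem case_W2_strict : CaseStrict fun k B => k ≤ 37 / 10 ∧ 2 * Real.pi * (7 / 5) ≤ B.len := by
  intro K₀ hK k₀ hk₀ d hd τ hτ
  have hπ := Real.pi_pos
  obtain ⟨C, c₀, γ, hC, hc₀, hγ, h⟩ := strict_W0_core (k₁ := 3.7) (σ' := 0.579) (σ₁ := 0.5795)
    (by norm_num) (by norm_num) (by norm_num) W0_num2.le hK hk₀ (d := d)
  refine ⟨C, c₀, γ, hC, hc₀, hγ, ?_⟩
  rintro k B hk hkK ⟨hk1, hl⟩ hA h0 hB -
  refine h k B hk hkK (by norm_num at hk1 ⊢; exact hk1) hA h0 hB ?_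
  have h1 : Real.pi * (0.5795 ^ 2 / (1 - 0.5795)) ≤ Real.pi * (4 / 5) :=
    mul_le_mul_of_nonneg_left (by norm_num) hπ.le
  linarith

theorem case_W3_strict : CaseStrict fun k B => k ≤ 28 / 5 ∧ 2 * Real.pi * (48 / 25) ≤ B.len := by
  intro K₀ hK k₀ hk₀ d hd τ hτ
  have hπ := Real.pi_pos
  obtain ⟨C, c₀, γ, hC, hc₀, hγ, h⟩ := strict_W0_core (k₁ := 5.6) (σ' := 0.719) (σ₁ := 0.71901)
    (by norm_num) (by norm_num) (by norm_num) W0_num3.le hK hk₀ (d := d)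
  refine ⟨C, c₀, γ, hC, hc₀, hγ, ?_⟩
  rintro k B hk hkK ⟨hk1, hl⟩ hA h0 hB -
  refine h k B hk hkK (by norm_num at hk1 ⊢; exact hk1) hA h0 hB ?_
  have h1 : Real.pi * (0.71901 ^ 2 / (1 - 0.71901)) ≤ Real.pi * (46 / 25) :=
    mul_le_mul_of_nonneg_left (by norm_num) hπ.le
  linarith

end Pool.Agent.RC
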